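import Pool.Agent.Lib.FSig.TDefs

/-!
# MP_05de8f_ag : counting functions and the limit value `sigma m n` (definitions)

* `wm d w` = number of `q ≤ d` with `|d| - 2 |q| = w` (dimension of `S d w`),
  `invN d = wm d 0 - wm d 2` (dimension of the space of invariants of multidegree `d`).
* `fus p d = #{q ≤ d : 2p ∣ |d| - 2|q|} - #{q ≤ d : 2p ∣ |d| - 2|q| - 2}`.
* `bar p d = min (d, 2p-2-d)`.
* `boxS m n lo hi` = balanced multidegrees with all entries in `[lo, hi]`.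
* `Atot m n p` = the sum which approximates `rk (Rp m n K) p mRp`.
* `sigma m n` the explicit limit.
-/

namespace FSig

open Finset

section counts

variable {V : Type*}

/-- number of `q ≤ d` with `|d| - 2|q| = w` -/
noncomputable def wm (d : V →₀ ℕ) (w : ℤ) : ℤ := by
  classical
  exact (((Icc (0 : V →₀ ℕ) d).filter fun q => (d.degree : ℤ) - 2 * (q.degree : ℤ) = w).card : ℤ)

/-- dimension of the `SL_2`-invariants of multidegree `d` -/
noncomputable def invN (d : V →₀ ℕ) : ℤ := wm d 0 - wm d 2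

/-- the fusion number -/
noncomputable def fus (p : ℕ) (d : V →₀ ℕ) : ℤ := by
  classical
  exact (((Icc (0 : V →₀ ℕ) d).filter fun q =>
      (2 * p : ℤ) ∣ (d.degree : ℤ) - 2 * (q.degree : ℤ)).card : ℤ)
    - (((Icc (0 : V →₀ ℕ) d).filter fun q =>
      (2 * p : ℤ) ∣ (d.degree : ℤ) - 2 * (q.degree : ℤ) - 2).card : ℤ)

/-- `min (d, 2p-2-d)` -/
noncomputable def bar (p : ℕ) (d : V →₀ ℕ) : V →₀ ℕ :=
  d.mapRange (fun x => min x (2 * p - 2 - x)) (by simp)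

end counts

/-- constant multidegree -/
noncomputable def cstV (m n c : ℕ) : Vx m n →₀ ℕ := Finsupp.equivFunOnFinite.symm fun _ => c

/-- balanced multidegrees with entries in `[lo, hi]` -/
noncomputable def boxS (m n lo hi : ℕ) : Finset (Vx m n →₀ ℕ) := by
  classical
  exact (Icc (cstV m n lo) (cstV m n hi)).filter Bal

/-- the main sum -/
noncomputable def Atot (m n p : ℕ) : ℤ :=
  (∑ d ∈ boxS m n 0 (2 * p - 2), (invN (bar p d) - fus p (bar p d)))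
    + (∑ d ∈ boxS m n 0 (p - 2), fus p d)
    + (∑ d ∈ boxS m n p (2 * p - 2), fus p (bar p d))

/-- cardinal B-spline (Irwin–Hall density) of order `r` at the integer `k`:
`M_r(k) = (1/(r-1)!) ∑_{i<k} (-1)^i binom(r,i) (k-i)^(r-1)`. -/
def bspl (r k : ℕ) : ℚ :=
  (∑ i ∈ range k, (-1) ^ i * (r.choose i : ℚ) * ((k : ℚ) - i) ^ (r - 1)) / ((r - 1).factorial : ℚ)

/-- derivative of `M_r` at the integer `k ≥ 1`: `M_{r-1}(k) - M_{r-1}(k-1)` -/
def bspl1 (r k : ℕ) : ℚ := bspl (r - 1) k - bspl (r - 1) (k - 1)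

/-- second derivative of `M_r` at the integer `k ≥ 2`: `M_{r-2}(k) - 2 M_{r-2}(k-1) + M_{r-2}(k-2)` -/
def bspl2 (r k : ℕ) : ℚ := bspl (r - 2) k - 2 * bspl (r - 2) (k - 1) + bspl (r - 2) (k - 2)

/-- `G_k = ∑_{a=1}^{k-1} (d²/dx²) [x^r (k-x)^r]` at `x = a`, `r = N - 1`. -/
def Gk (r k : ℕ) : ℚ :=
  ∑ a ∈ Ico 1 k, (((r * (r - 1) : ℕ) : ℚ) * ((a : ℚ) * ((k : ℚ) - a)) ^ (r - 2) * ((k : ℚ) - 2 * a) ^ 2
    - 2 * r * ((a : ℚ) * ((k : ℚ) - a)) ^ (r - 1))

/-- `H_c = ∑_{k=1}^{c} (-1)^k binom(N, c-k) G_k` -/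
def Hc (N c : ℕ) : ℚ := ∑ k ∈ Icc 1 c, (-1) ^ k * (N.choose (c - k) : ℚ) * Gk (N - 1) k

/-- The limit of the F-signatures of `R_{m,n,3}` for `p → ∞`. -/
def sigma (m n : ℕ) : ℚ :=
  (∑ j ∈ Ico 1 n, (bspl2 (m + n) (n + j) * bspl (m + n) (n - j)
      - 2 * bspl1 (m + n) (n + j) * bspl1 (m + n) (n - j)
      + bspl (m + n) (n + j) * bspl2 (m + n) (n - j)))
    - (Hc (m + n) n + Hc (m + n) (2 * n - m)) / (2 * ((m + n - 1).factorial : ℚ) ^ 2)

end FSig
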