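import Pool.Agent.Lib.FSig.SDefs

/-!
# Module TopM: leading monomials with respect to a weight

`ω : ι → ℕ` a weight on the variables, `ω μ = ∑ i ∈ μ.support, μ i * ω i = μ.sum (fun i k => k * ω i)` the weight of a monomial. `TopM ω G μ`: the
monomial `μ` occurs in `G` and every other monomial of `G` has smaller weight.

* `TopM.mul`: `coeff (μ + ν) (G * H) = coeff μ G * coeff ν H` because in
  `MvPolynomial.coeff_mul` every other term `(μ', ν')` with `μ' + ν' = μ + ν` and both coefficients nonzero has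
  `ω μ' ≤ ω μ`, `ω ν' ≤ ω ν` with one strict inequality, contradiction to additivity; a monomial of `G * H` is a sum
  `μ' + ν'` of monomials of `G` and `H` (`MvPolynomial.support_mul`), of weight smaller than `ω μ + ω ν` unless `μ' = μ`, `ν' = ν`.
* `eq_zero_of_top`: if `∑ e ∈ s, c e • G e = 0` with `TopM ω (G e) e` then all `c e` (`e ∈ s`) are zero: otherwise take `e ∈ s`
  with `c e ≠ 0` and `ω e` maximal; the coefficient of `e` in the sum is `c e * coeff e (G e)`, as for `e' ≠ e`, `c e' ≠ 0`,
  the monomial `e` occurs in `G e'` only if `ω e < ω e'`.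
-/

namespace Pool.FSig

open MvPolynomial

/-- the weight of a monomial -/
def wgt {ι : Type*} (ω : ι → ℕ) (μ : ι →₀ ℕ) : ℕ := μ.sum fun i k => k * ω i

/-- `μ` is the only monomial of highest weight in `G` -/
def TopM {ι K : Type*} [Field K] (ω : ι → ℕ) (G : MvPolynomial ι K) (μ : ι →₀ ℕ) : Prop :=
  coeff μ G ≠ 0 ∧ ∀ ν ∈ G.support, ν ≠ μ → wgt ω ν < wgt ω μ

private theorem wgt_add {ι : Type*} (ω : ι → ℕ) (μ ν : ι →₀ ℕ) :
    wgt ω (μ + ν) = wgt ω μ + wgt ω ν := by
  unfold wgt
  exact Finsupp.sum_add_index' (fun i => by simp) (fun i a b => by ring)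

theorem TopM.mul {ι K : Type*} [Field K] {ω : ι → ℕ} {G H : MvPolynomial ι K} {μ ν : ι →₀ ℕ}
    (hG : TopM ω G μ) (hH : TopM ω H ν) : TopM ω (G * H) (μ + ν) := by
  classical
  have hc : coeff (μ + ν) (G * H) = coeff μ G * coeff ν H := by
    rw [coeff_mul, Finset.sum_eq_single (μ, ν)]
    · rintro ⟨a, b⟩ hab hne
      rw [Finset.HasAntidiagonal.mem_antidiagonal] at hab
      simp only at hab ⊢
      by_contra hne0
      have ha : coeff a G ≠ 0 := left_ne_zero_of_mul hne0
      have hb : coeff b H ≠ 0 := right_ne_zero_of_mul hne0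
      have hw : wgt ω a + wgt ω b = wgt ω μ + wgt ω ν := by
        rw [← wgt_add, ← wgt_add, hab]
      by_cases h1 : a = μ
      · subst h1
        have : b = ν := by simpa using hab
        subst this
        exact hne rfl
      · have h2 := hG.2 a (mem_support_iff.2 ha) h1
        by_cases h3 : b = ν
        · subst h3
          omega
        · have h4 := hH.2 b (mem_support_iff.2 hb) h3
          omega
    · intro h
      exfalso
      apply h
      rw [Finset.HasAntidiagonal.mem_antidiagonal]
  refine ⟨?_, ?_⟩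
  · rw [hc]
    exact mul_ne_zero hG.1 hH.1
  · intro κ hκ hne
    have h1 := support_mul G H hκ
    obtain ⟨a, ha, b, hb, hab⟩ := Finset.mem_add.1 h1
    subst hab
    rw [wgt_add, wgt_add]
    by_cases h1 : a = μ
    · subst h1
      have h3 : b ≠ ν := fun h => hne (by rw [h])
      have h4 := hH.2 b hb h3
      omega
    · have h2 := hG.2 a ha h1
      by_cases h3 : b = ν
      · subst h3
        omega
      · have h4 := hH.2 b hb h3
        omega

theorem TopM.one {ι K : Type*} [Field K] {ω : ι → ℕ} : TopM ω (1 : MvPolynomial ι K) 0 := by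
  classical
  refine ⟨by simp, ?_⟩
  intro ν hν hne
  rw [mem_support_iff, coeff_one] at hν
  exfalso
  apply hν
  rw [if_neg]
  exact fun h => hne h.symm

theorem eq_zero_of_top {ι K : Type*} [Field K] {ω : ι → ℕ} (s : Finset (ι →₀ ℕ))
    (G : (ι →₀ ℕ) → MvPolynomial ι K) (hG : ∀ e ∈ s, TopM ω (G e) e) (c : (ι →₀ ℕ) → K)
    (h : ∑ e ∈ s, C (c e) * G e = 0) : ∀ e ∈ s, c e = 0 := by
  classical
  by_contra hcon
  push Not at hcon
  obtain ⟨e0, he0, hc0⟩ := hcon
  have hne : (s.filter fun e => c e ≠ 0).Nonempty := ⟨e0, Finset.mem_filter.2 ⟨he0, hc0⟩⟩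
  obtain ⟨e, he, hmax⟩ := Finset.exists_max_image (s.filter fun e => c e ≠ 0) (wgt ω) hne
  rw [Finset.mem_filter] at he
  have hcoeff : coeff e (∑ e' ∈ s, C (c e') * G e') = c e * coeff e (G e) := by
    rw [coeff_sum, Finset.sum_eq_single e]
    · rw [coeff_C_mul]
    · intro e' he' hne'
      rw [coeff_C_mul]
      by_cases hz : c e' = 0
      · rw [hz, zero_mul]
      · by_cases hz2 : coeff e (G e') = 0
        · rw [hz2, mul_zero]
        · exfalso
          have h1 := (hG e' he').2 e (mem_support_iff.2 hz2) (fun h => hne' h.symm)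
          have h2 := hmax e' (Finset.mem_filter.2 ⟨he', hz⟩)
          omega
    · intro h
      exact absurd he.1 h
  rw [h, coeff_zero] at hcoeff
  exact mul_ne_zero he.2 (hG e he.1).1 hcoeff.symm

end Pool.FSig
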