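import Pool.Agent.Lib.FSig.SMin
import Pool.Agent.Lib.FSig.TopM

/-!
# Module CTop: leading monomials of the values of cells

Weights: `ω (inl i, false) = m + n`, `ω (inl i, true) = i`, `ω (inr j, true) = m + n`, `ω (inr j, false) = j`.
The cell `((a, b), (c, d))` has the exponent `a_a b_b b'_c a'_d` (without `b_b` and `a'_d` if `b = m`).

* `b = m`: `xT a c = a_a b'_c - b_a a'_c` (`br`), weights `2 (m + n)` and `a + c < 2 (m + n)`.
* `b < m`: `mi (xT) a b c d = [a b] [c' d']` as polynomials (`ring` after unfolding `br`):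
  `(a_a b_b - b_a a_b) * (a'_c b'_d - b'_c a'_d)`; the four monomials have the weights `m + n + b` or `m + n + a` plus
  `m + n + c` or `m + n + d`, so `a_a b_b b'_c a'_d` (coefficient `-1`) is the only one of highest weight, `a < b`, `c < d`.
  (Use `TopM.mul` for the two factors.)
* lists: `TopM.one`, `TopM.mul`, induction.
-/

namespace Pool.FSig

open MvPolynomial

/-- the weights of the variables -/
def om (m n : ℕ) : _root_.FSig.Vx m n × Bool → ℕ
  | (Sum.inl _, false) => m + n
  | (Sum.inl i, true) => i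
  | (Sum.inr _, true) => m + n
  | (Sum.inr j, false) => j

/-- exponent of a row letter -/
noncomputable def exL (m n a : ℕ) (t : Bool) : _root_.FSig.Vx m n × Bool →₀ ℕ :=
  if h : a < m then Finsupp.single (Sum.inl ⟨a, h⟩, t) 1 else 0

/-- exponent of a column letter -/
noncomputable def exR (m n c : ℕ) (t : Bool) : _root_.FSig.Vx m n × Bool →₀ ℕ :=
  if h : c < n then Finsupp.single (Sum.inr ⟨c, h⟩, t) 1 else 0

/-- exponent of a cell -/
noncomputable def exC (m n : ℕ) (C : Cell) : _root_.FSig.Vx m n × Bool →₀ ℕ :=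
  exL m n C.1.1 false + exL m n C.1.2 true + (exR m n C.2.1 true + exR m n C.2.2 false)

/-- exponent of a list of cells -/
noncomputable def exT (m n : ℕ) (τ : List Cell) : _root_.FSig.Vx m n × Bool →₀ ℕ :=
  (τ.map (exC m n)).sum

private theorem wgt_add' {ι : Type*} (ω : ι → ℕ) (μ ν : ι →₀ ℕ) :
    wgt ω (μ + ν) = wgt ω μ + wgt ω ν := by
  unfold wgt
  exact Finsupp.sum_add_index' (fun i => Nat.zero_mul _) (fun i a b => Nat.add_mul _ _ _)

private theorem wgt_single' {ι : Type*} (ω : ι → ℕ) (i : ι) :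
    wgt ω (Finsupp.single i 1) = ω i := by
  unfold wgt
  rw [Finsupp.sum_single_index (h := fun i k => k * ω i) (Nat.zero_mul (ω i)), Nat.one_mul]

private theorem topM_bin {ι K : Type*} [Field K] (ω : ι → ℕ) (x y z w : ι)
    (h : ω z + ω w < ω x + ω y) :
    TopM ω (X x * X y - X z * X w : MvPolynomial ι K)
      (Finsupp.single x 1 + Finsupp.single y 1) := by
  classical
  have hw : wgt ω (Finsupp.single z 1 + Finsupp.single w 1) <
      wgt ω (Finsupp.single x 1 + Finsupp.single y 1) := by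
    rw [wgt_add', wgt_add', wgt_single', wgt_single', wgt_single', wgt_single']
    exact h
  have hne : (Finsupp.single z 1 + Finsupp.single w 1 : ι →₀ ℕ) ≠
      Finsupp.single x 1 + Finsupp.single y 1 := fun h' => by
    rw [h'] at hw
    exact lt_irrefl _ hw
  have e1 : ∀ a b : ι, (X a * X b : MvPolynomial ι K) =
      monomial (Finsupp.single a 1 + Finsupp.single b 1) 1 := fun a b => by
    rw [X, X, monomial_mul, one_mul]
  rw [e1, e1]
  refine ⟨?_, fun ν hν hνne => ?_⟩
  · rw [coeff_sub, coeff_monomial, coeff_monomial, if_pos rfl, if_neg hne, sub_zero]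
    exact one_ne_zero
  · rw [mem_support_iff, coeff_sub, coeff_monomial, coeff_monomial, if_neg hνne.symm, zero_sub]
      at hν
    have h2 : Finsupp.single z 1 + Finsupp.single w 1 = ν := by
      by_contra h3
      rw [if_neg h3, neg_zero] at hν
      exact hν rfl
    rw [← h2]
    exact hw

private theorem topM_neg {ι K : Type*} [Field K] {ω : ι → ℕ} {G : MvPolynomial ι K}
    {μ : ι →₀ ℕ} (h : TopM ω G μ) : TopM ω (-G) μ := by
  refine ⟨?_, fun ν hν => h.2 ν ?_⟩
  · rw [coeff_neg]
    exact neg_ne_zero.2 h.1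
  · rwa [support_neg] at hν

theorem topM_cval (m n : ℕ) (K : Type*) [Field K] {C : Cell} (hC : CValid m n C) :
    TopM (om m n) (cval m (xT m n K) C) (exC m n C) := by
  obtain ⟨⟨a, b⟩, ⟨c, d⟩⟩ := C
  obtain ⟨hab, hbm, hcd, hdn, hiff⟩ := hC
  simp only at hab hbm hcd hdn hiff
  have ham : a < m := lt_of_lt_of_le hab hbm
  have hcn : c < n := lt_of_lt_of_le hcd hdn
  by_cases hb : b = m
  · have hd : d = n := hiff.1 hb
    have h1 : exC m n ((a, b), (c, d)) = Finsupp.single (Sum.inl ⟨a, ham⟩, false) 1 +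
        Finsupp.single (Sum.inr ⟨c, hcn⟩, true) 1 := by
      simp only [exC, exL, exR]
      rw [dif_pos ham, dif_neg (by omega), dif_pos hcn, dif_neg (by omega), add_zero, add_zero]
    have h2 : cval m (xT m n K) ((a, b), (c, d)) =
        X (Sum.inl ⟨a, ham⟩, false) * X (Sum.inr ⟨c, hcn⟩, true) -
          X (Sum.inl ⟨a, ham⟩, true) * X (Sum.inr ⟨c, hcn⟩, false) := by
      simp only [cval, xT]
      rw [if_pos hb, dif_pos ⟨ham, hcn⟩]
      rfl
    rw [h1, h2]
    refine topM_bin _ _ _ _ _ ?_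
    show a + c < (m + n) + (m + n)
    omega
  · have hbm' : b < m := lt_of_le_of_ne hbm hb
    have hdn' : d < n := lt_of_le_of_ne hdn fun h => hb (hiff.2 h)
    have h1 : exC m n ((a, b), (c, d)) = (Finsupp.single (Sum.inl ⟨a, ham⟩, false) 1 +
        Finsupp.single (Sum.inl ⟨b, hbm'⟩, true) 1) +
        (Finsupp.single (Sum.inr ⟨c, hcn⟩, true) 1 +
          Finsupp.single (Sum.inr ⟨d, hdn'⟩, false) 1) := by
      simp only [exC, exL, exR]
      rw [dif_pos ham, dif_pos hbm', dif_pos hcn, dif_pos hdn']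
    have h2 : cval m (xT m n K) ((a, b), (c, d)) =
        (X (Sum.inl ⟨a, ham⟩, false) * X (Sum.inl ⟨b, hbm'⟩, true) -
          X (Sum.inl ⟨a, ham⟩, true) * X (Sum.inl ⟨b, hbm'⟩, false)) *
        (-(X (Sum.inr ⟨c, hcn⟩, true) * X (Sum.inr ⟨d, hdn'⟩, false) -
          X (Sum.inr ⟨c, hcn⟩, false) * X (Sum.inr ⟨d, hdn'⟩, true))) := by
      simp only [cval, mi, xT]
      rw [if_neg hb, dif_pos ⟨ham, hcn⟩, dif_pos ⟨hbm', hdn'⟩, dif_pos ⟨ham, hdn'⟩,
        dif_pos ⟨hbm', hcn⟩]
      simp only [_root_.FSig.br, _root_.FSig.va, _root_.FSig.vb]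
      ring
    rw [h1, h2]
    refine TopM.mul (topM_bin _ _ _ _ _ ?_) (topM_neg (topM_bin _ _ _ _ _ ?_))
    · show a + (m + n) < (m + n) + b
      omega
    · show c + (m + n) < (m + n) + d
      omega

theorem topM_lval (m n : ℕ) (K : Type*) [Field K] {τ : List Cell} (hτ : LValid m n τ) :
    TopM (om m n) (lval m (xT m n K) τ) (exT m n τ) := by
  induction τ with
  | nil => exact TopM.one
  | cons C τ ih =>
    have h1 : lval m (xT m n K) (C :: τ) = cval m (xT m n K) C * lval m (xT m n K) τ := by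
      simp only [lval, List.map_cons, List.prod_cons]
    have h2 : exT m n (C :: τ) = exC m n C + exT m n τ := by
      simp only [exT, List.map_cons, List.sum_cons]
    rw [h1, h2]
    exact TopM.mul (topM_cval m n K (hτ C List.mem_cons_self))
      (ih fun D hD => hτ D (List.mem_cons_of_mem _ hD))

end Pool.FSig
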