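import Pool.Agent.Lib.FSig.SFT

/-!
# Module ChD: the chart of `R3`

Variables `ι = ({i : Fin m // 2 ≤ i} ⊕ Fin n) × Bool`, `card ι = 2 (m + n) - 4`. `evQ : T → K[ι]`: row `0` goes to `(1, 0)`,
row `1` to `(0, 1)`, row `i ≥ 2` and column `j` to their variables: `va`, `vb` of `inl i` go to `X (inl i, false)`, `X (inl i, true)`, etc.
The chart is `j = evQ ∘ jT : R3 → K[ι]`, `x k = xR i c` for `k = (i, c)` under `finProdFinEquiv`.

* `chart_injective`. Let `F = FractionRing T` and `bal : K[ι] → F` the algebra map with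
  `X (inl i, false) ↦ [i 1] / [0 1]`, `X (inl i, true) ↦ [0 i] / [0 1]`, `X (inr j, false) ↦ - [1 j]`, `X (inr j, true) ↦ [0 j]`
  (brackets of the rows `0, 1, i` and the column `j`; `[0 1] ≠ 0` in `T`). Then `bal (evQ [i j]) = [i j]` in `F` for every row `i` and column
  `j`: `i = 0`: `evQ [0 j] = X (inr j, true)`; `i = 1`: `evQ [1 j] = - X (inr j, false)`; `i ≥ 2`:
  `([i 1] [0 j] + [0 i] [1 j]) / [0 1] = [i j]` (Plücker, `ring`). So `bal ∘ evQ ∘ toT = algebraMap ∘ toT` (they agree on the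
  variables: `MvPolynomial.algHom_ext`), and as `jT` is injective (`jT_injective`) and `algebraMap T F` too, `evQ ∘ jT` is injective.
* `isChart`: `Z` = the variables of the columns. With `s = xR 0 0 * xR 1 1 - xR 0 1 * xR 1 0`: `evQ (jT s) = [0' 1']`, the bracket
  of the variables of the columns `0, 1`, not zero. `mul`: for a column variable take `s * xR 0 j` or `- s * xR 1 j`; for a
  row `i ≥ 2`: `X (inl i, false) * s = xR 1 1 * xR i 0 - xR 1 0 * xR i 1`, `X (inl i, true) * s = xR 0 0 * xR i 1 - xR 0 1 * xR i 0`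
  (after applying the chart; `ring`). `sqf`, `deg`, `totdeg`: `j (x k)` is `± X (inr c, ·)` for the rows `0, 1` and
  `X (inl i, false) * X (inr c, true) - X (inl i, true) * X (inr c, false)` for `i ≥ 2`. `s_mem`: a combination of products of two
  generators. `gen`: `R3` is generated by the classes of the variables.
-/

namespace Pool.FSig

open MvPolynomial

/-- the variables of the chart -/
abbrev Iota (m n : ℕ) : Type := ({i : Fin m // 2 ≤ (i : ℕ)} ⊕ Fin n) × Bool

/-- evaluation of `T` at the vectors `(1, 0)`, `(0, 1)` for the rows `0`, `1` -/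
noncomputable def evQ (m n : ℕ) (K : Type*) [Field K] :
    _root_.FSig.T (_root_.FSig.Vx m n) K →ₐ[K] MvPolynomial (Iota m n) K :=
  aeval fun v => match v with
    | (Sum.inl i, t) => if h : 2 ≤ (i : ℕ) then X (Sum.inl ⟨i, h⟩, t)
        else if ((i : ℕ) = 0 ∧ t = false) ∨ ((i : ℕ) = 1 ∧ t = true) then 1 else 0
    | (Sum.inr j, t) => X (Sum.inr j, t)

/-- the chart -/
noncomputable def jQ (m n : ℕ) (K : Type*) [Field K] :
    _root_.FSig.R3 m n K →ₐ[K] MvPolynomial (Iota m n) K :=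
  (evQ m n K).comp (jT m n K)

/-- the generators -/
noncomputable def xg (m n : ℕ) (K : Type*) [Field K] (k : Fin (m * n)) : _root_.FSig.R3 m n K :=
  xR m n K (finProdFinEquiv.symm k).1 (finProdFinEquiv.symm k).2

theorem card_Iota (m n : ℕ) (hm : 2 ≤ m) : Fintype.card (Iota m n) = 2 * (m + n) - 4 := by
  have h1 : Fintype.card {i : Fin m // 2 ≤ (i : ℕ)} = m - 2 := by
    obtain ⟨k, rfl⟩ := Nat.exists_eq_add_of_le hm
    have e : {i : Fin (2 + k) // 2 ≤ (i : ℕ)} ≃ Fin k :=
      { toFun := fun i => ⟨(i.1 : ℕ) - 2, by have := i.1.2; have := i.2; omega⟩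
        invFun := fun j => ⟨⟨(j : ℕ) + 2, by have := j.2; omega⟩, by simp⟩
        left_inv := fun i => by
          apply Subtype.ext
          apply Fin.ext
          have := i.2
          simp only
          omega
        right_inv := fun j => by
          apply Fin.ext
          simp }
    rw [Fintype.card_congr e, Fintype.card_fin]
    omega
  rw [Fintype.card_prod, Fintype.card_sum, h1, Fintype.card_fin, Fintype.card_bool]
  omega

section

variable {m n : ℕ} {K : Type*} [Field K]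

private theorem chd_c (c : Fin n) (t : Bool) :
    evQ m n K (X (Sum.inr c, t)) = X (Sum.inr c, t) := by
  unfold evQ
  rw [aeval_X]

private theorem chd_r (i : Fin m) (t : Bool) :
    evQ m n K (X (Sum.inl i, t)) = if h : 2 ≤ (i : ℕ) then X (Sum.inl ⟨i, h⟩, t)
        else if ((i : ℕ) = 0 ∧ t = false) ∨ ((i : ℕ) = 1 ∧ t = true) then 1 else 0 := by
  unfold evQ
  rw [aeval_X]

private theorem chd_jQ (i : Fin m) (c : Fin n) :
    jQ m n K (xR m n K i c) = evQ m n K (X (Sum.inl i, false)) * X (Sum.inr c, true) -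
      evQ m n K (X (Sum.inl i, true)) * X (Sum.inr c, false) := by
  unfold jQ
  rw [AlgHom.comp_apply, jT_xR]
  unfold xT
  rw [dif_pos ⟨i.2, c.2⟩]
  unfold _root_.FSig.br _root_.FSig.va _root_.FSig.vb
  rw [map_sub, map_mul, map_mul, chd_c, chd_c]

private theorem chd_jQ0 (i : Fin m) (hi : (i : ℕ) = 0) (c : Fin n) :
    jQ m n K (xR m n K i c) = X (Sum.inr c, true) := by
  rw [chd_jQ, chd_r, chd_r]
  simp [hi]

private theorem chd_jQ1 (i : Fin m) (hi : (i : ℕ) = 1) (c : Fin n) :
    jQ m n K (xR m n K i c) = - X (Sum.inr c, false) := by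
  rw [chd_jQ, chd_r, chd_r]
  simp [hi]

private theorem chd_jQ2 (i : Fin m) (hi : 2 ≤ (i : ℕ)) (c : Fin n) :
    jQ m n K (xR m n K i c) = X (Sum.inl ⟨i, hi⟩, false) * X (Sum.inr c, true) -
      X (Sum.inl ⟨i, hi⟩, true) * X (Sum.inr c, false) := by
  rw [chd_jQ, chd_r, chd_r, dif_pos hi, dif_pos hi]

private theorem chd_br_ne {V : Type*} [DecidableEq V] {v w : V} (h : v ≠ w) :
    _root_.FSig.br K v w ≠ 0 := by
  intro h0
  have h1 := congrArg (MvPolynomial.eval fun x : V × Bool =>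
    if x = (v, false) ∨ x = (w, true) then (1 : K) else 0) h0
  unfold _root_.FSig.br _root_.FSig.va _root_.FSig.vb at h1
  simp [h] at h1

end

theorem jQ_injective (m n : ℕ) (hm : 2 ≤ m) (K : Type*) [Field K] :
    Function.Injective (jQ m n K) := by
  let T := _root_.FSig.T (_root_.FSig.Vx m n) K
  let F := FractionRing T
  let am : T →ₐ[K] F := Algebra.algHom K T F
  have ham : Function.Injective am := IsFractionRing.injective T F
  let r0 : _root_.FSig.Vx m n := Sum.inl ⟨0, by omega⟩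
  let r1 : _root_.FSig.Vx m n := Sum.inl ⟨1, by omega⟩
  let B : _root_.FSig.Vx m n → _root_.FSig.Vx m n → F := fun v w => am (_root_.FSig.br K v w)
  have hB01 : B r0 r1 ≠ 0 := by
    intro h
    have h1 : _root_.FSig.br K r0 r1 = 0 := ham (by rw [map_zero]; exact h)
    refine chd_br_ne ?_ h1
    intro h2
    have h3 := Sum.inl.inj h2
    have h4 := congrArg Fin.val h3
    simp at h4
  have pl : ∀ i j, B i r1 * B r0 j + B r0 i * B r1 j = B r0 r1 * B i j := by
    intro i j
    show am _ * am _ + am _ * am _ = am _ * am _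
    rw [← map_mul, ← map_mul, ← map_mul, ← map_add]
    congr 1
    unfold _root_.FSig.br
    ring
  let bal : MvPolynomial (Iota m n) K →ₐ[K] F := aeval fun v => match v with
    | (Sum.inl i, false) => B (Sum.inl i.1) r1 / B r0 r1
    | (Sum.inl i, true) => B r0 (Sum.inl i.1) / B r0 r1
    | (Sum.inr j, false) => - B r1 (Sum.inr j)
    | (Sum.inr j, true) => B r0 (Sum.inr j)
  have b1 : ∀ i, bal (X (Sum.inl i, false)) = B (Sum.inl i.1) r1 / B r0 r1 := by
    intro i; simp only [bal, aeval_X]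
  have b2 : ∀ i, bal (X (Sum.inl i, true)) = B r0 (Sum.inl i.1) / B r0 r1 := by
    intro i; simp only [bal, aeval_X]
  have b3 : ∀ j, bal (X (Sum.inr j, false)) = - B r1 (Sum.inr j) := by
    intro i; simp only [bal, aeval_X]
  have b4 : ∀ j, bal (X (Sum.inr j, true)) = B r0 (Sum.inr j) := by
    intro i; simp only [bal, aeval_X]
  have key : ∀ (i : Fin m) (c : Fin n),
      bal (jQ m n K (xR m n K i c)) = B (Sum.inl i) (Sum.inr c) := by
    intro i c
    by_cases h0 : (i : ℕ) = 0
    · rw [chd_jQ0 i h0, b4]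
      have : (Sum.inl i : _root_.FSig.Vx m n) = r0 := congrArg Sum.inl (Fin.ext h0)
      rw [this]
    by_cases h1 : (i : ℕ) = 1
    · rw [chd_jQ1 i h1, map_neg, b3, neg_neg]
      have : (Sum.inl i : _root_.FSig.Vx m n) = r1 := congrArg Sum.inl (Fin.ext h1)
      rw [this]
    have h2 : 2 ≤ (i : ℕ) := by omega
    rw [chd_jQ2 i h2, map_sub, map_mul, map_mul, b1, b2, b3, b4]
    have h3 := pl (Sum.inl i) (Sum.inr c)
    rw [div_mul_eq_mul_div, div_mul_eq_mul_div, ← sub_div, div_eq_iff hB01]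
    linear_combination h3
  have hcomp : (bal.comp (jQ m n K)).comp (Ideal.Quotient.mkₐ K (_root_.FSig.I3 m n K)) =
      am.comp (_root_.FSig.toT m n K) := by
    apply MvPolynomial.algHom_ext
    intro x
    obtain ⟨i, c⟩ := x
    rw [AlgHom.comp_apply, AlgHom.comp_apply, AlgHom.comp_apply]
    have h1 : Ideal.Quotient.mkₐ K (_root_.FSig.I3 m n K) (X (i, c)) = xR m n K i c := by
      unfold xR
      rw [dif_pos ⟨i.2, c.2⟩]
      rfl
    rw [h1, key]
    unfold _root_.FSig.toT
    rw [aeval_X]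
  rw [injective_iff_map_eq_zero]
  intro r hr
  obtain ⟨p, rfl⟩ := Ideal.Quotient.mk_surjective r
  have h1 := DFunLike.congr_fun hcomp p
  rw [AlgHom.comp_apply, AlgHom.comp_apply, AlgHom.comp_apply, Ideal.Quotient.mkₐ_eq_mk, hr,
    map_zero] at h1
  have h2 : _root_.FSig.toT m n K p = 0 := ham (by rw [map_zero]; exact h1.symm)
  apply jT_injective m n K
  rw [map_zero]
  exact h2

section

variable {m n : ℕ} {K : Type*} [Field K]

/-- squarefree, of degree one in the columns, of degree at most two -/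
private def ChdGood (f : MvPolynomial (Iota m n) K) : Prop :=
  ∀ μ ∈ f.support, (∀ i, μ i ≤ 1) ∧
    (∑ i ∈ Finset.univ.filter fun v : Iota m n => v.1.isRight, μ i = 1) ∧
    (μ.sum fun _ e => e) ≤ 2

private theorem chd_good_neg {f : MvPolynomial (Iota m n) K} (hf : ChdGood f) :
    ChdGood (-f) := by
  intro μ hμ
  rw [MvPolynomial.support_neg] at hμ
  exact hf μ hμ

private theorem chd_good_sub {f g : MvPolynomial (Iota m n) K} (hf : ChdGood f)
    (hg : ChdGood g) : ChdGood (f - g) := by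
  classical
  intro μ hμ
  have h := MvPolynomial.support_sub _ f g hμ
  rw [Finset.mem_union] at h
  rcases h with h | h
  · exact hf μ h
  · exact hg μ h

private theorem chd_good_X (c : Fin n) (t : Bool) :
    ChdGood (X (Sum.inr c, t) : MvPolynomial (Iota m n) K) := by
  classical
  intro μ hμ
  rw [MvPolynomial.support_X, Finset.mem_singleton] at hμ
  subst hμ
  refine ⟨fun i => ?_, ?_, ?_⟩
  · rw [Finsupp.single_apply]
    split_ifs <;> omega
  · simp [Finsupp.single_apply]
  · rw [Finsupp.sum_single_index rfl]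
    norm_num

private theorem chd_good_XX (i : {i : Fin m // 2 ≤ (i : ℕ)}) (t : Bool) (c : Fin n)
    (t' : Bool) : ChdGood (X (Sum.inl i, t) * X (Sum.inr c, t') :
      MvPolynomial (Iota m n) K) := by
  classical
  intro μ hμ
  have e : (X (Sum.inl i, t) * X (Sum.inr c, t') : MvPolynomial (Iota m n) K) =
      monomial (Finsupp.single (Sum.inl i, t) 1 + Finsupp.single (Sum.inr c, t') 1) 1 := by
    rw [X, X, monomial_mul, one_mul]
  rw [e] at hμ
  have h := MvPolynomial.support_monomial_subset hμ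
  rw [Finset.mem_singleton] at h
  subst h
  refine ⟨fun v => ?_, ?_, ?_⟩
  · rw [Finsupp.add_apply, Finsupp.single_apply, Finsupp.single_apply]
    by_cases h1 : ((Sum.inl i, t) : Iota m n) = v
    · have h2 : ¬ (((Sum.inr c, t') : Iota m n) = v) := by
        rw [← h1]
        simp
      rw [if_pos h1, if_neg h2]
      exact le_rfl
    · rw [if_neg h1]
      split_ifs <;> omega
  · simp only [Finsupp.add_apply, Finset.sum_add_distrib]
    have h1 : ∑ v ∈ Finset.univ.filter (fun v : Iota m n => v.1.isRight),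
        (Finsupp.single ((Sum.inl i, t) : Iota m n) 1 : Iota m n →₀ ℕ) v = 0 := by
      refine Finset.sum_eq_zero fun v hv => ?_
      rw [Finset.mem_filter] at hv
      rw [Finsupp.single_apply, if_neg]
      rintro rfl
      simp at hv
    have h2 : ∑ v ∈ Finset.univ.filter (fun v : Iota m n => v.1.isRight),
        (Finsupp.single ((Sum.inr c, t') : Iota m n) 1 : Iota m n →₀ ℕ) v = 1 := by
      simp [Finsupp.single_apply]
    rw [h1, h2]
  · rw [Finsupp.sum_add_index' (fun _ => rfl) (fun _ _ _ => rfl),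
      Finsupp.sum_single_index rfl, Finsupp.sum_single_index rfl]

private theorem chd_good (i : Fin m) (c : Fin n) : ChdGood (jQ m n K (xR m n K i c)) := by
  by_cases h0 : (i : ℕ) = 0
  · rw [chd_jQ0 i h0]
    exact chd_good_X c true
  by_cases h1 : (i : ℕ) = 1
  · rw [chd_jQ1 i h1]
    exact chd_good_neg (chd_good_X c false)
  have h2 : 2 ≤ (i : ℕ) := by omega
  rw [chd_jQ2 i h2]
  exact chd_good_sub (chd_good_XX _ _ _ _) (chd_good_XX _ _ _ _)

end

theorem isChart_jQ (m n : ℕ) (hm : 2 ≤ m) (hn : 2 ≤ n) (K : Type*) [Field K] :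
    IsChart (jQ m n K) (xg m n K) (xR m n K 0 0 * xR m n K 1 1 - xR m n K 0 1 * xR m n K 1 0)
      (Finset.univ.filter fun v : Iota m n => v.1.isRight) := by
  have hxg : ∀ (i : Fin m) (c : Fin n), xg m n K (finProdFinEquiv (i, c)) = xR m n K i c := by
    intro i c
    unfold xg
    rw [Equiv.symm_apply_apply]
  have hmem : ∀ (i : Fin m) (c : Fin n), xR m n K i c ∈ Submodule.span K (Set.range (xg m n K)) :=
    fun i c => Submodule.subset_span ⟨_, hxg i c⟩
  have j0 : ∀ c : Fin n, jQ m n K (xR m n K 0 c) = X (Sum.inr c, true) :=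
    fun c => chd_jQ0 (⟨0, by omega⟩ : Fin m) rfl c
  have j1 : ∀ c : Fin n, jQ m n K (xR m n K 1 c) = - X (Sum.inr c, false) :=
    fun c => chd_jQ1 (⟨1, by omega⟩ : Fin m) rfl c
  have hc0 : (0 : ℕ) < n := by omega
  have hc1 : (1 : ℕ) < n := by omega
  have hs : jQ m n K (xR m n K 0 0 * xR m n K 1 1 - xR m n K 0 1 * xR m n K 1 0) =
      X (Sum.inr ⟨1, hc1⟩, true) * X (Sum.inr ⟨0, hc0⟩, false) -
        X (Sum.inr ⟨0, hc0⟩, true) * X (Sum.inr ⟨1, hc1⟩, false) := by
    have e1 := j0 ⟨0, hc0⟩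
    have e2 := j0 ⟨1, hc1⟩
    have e3 := j1 ⟨0, hc0⟩
    have e4 := j1 ⟨1, hc1⟩
    simp only at e1 e2 e3 e4
    rw [map_sub, map_mul, map_mul, e1, e2, e3, e4]
    ring
  refine ⟨jQ_injective m n hm K, ?_, ?_, ?_, ?_, ?_, ?_, ?_, ?_⟩
  · rw [eq_top_iff]
    have h1 : (⊤ : Subalgebra K (_root_.FSig.R3 m n K)) =
        (Algebra.adjoin K (Set.range (X : Fin m × Fin n → MvPolynomial (Fin m × Fin n) K))).map
          (Ideal.Quotient.mkₐ K (_root_.FSig.I3 m n K)) := by
      rw [MvPolynomial.adjoin_range_X, Algebra.map_top, eq_comm, AlgHom.range_eq_top]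
      exact Ideal.Quotient.mkₐ_surjective K _
    rw [h1, AlgHom.map_adjoin]
    apply Algebra.adjoin_mono
    rintro _ ⟨_, ⟨⟨i, c⟩, rfl⟩, rfl⟩
    refine ⟨finProdFinEquiv (i, c), ?_⟩
    rw [hxg]
    unfold xR
    rw [dif_pos ⟨i.2, c.2⟩]
    rfl
  · intro k μ hμ
    exact (chd_good _ _ μ hμ).1
  · intro k μ hμ
    exact (chd_good _ _ μ hμ).2.1
  · intro k
    unfold MvPolynomial.totalDegree
    refine Finset.sup_le fun μ hμ => ?_
    exact (chd_good _ _ μ hμ).2.2
  · intro h
    rw [h, map_zero] at hs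
    have h1 := congrArg (MvPolynomial.eval fun x : Iota m n =>
      if x = (Sum.inr ⟨1, hc1⟩, true) ∨ x = (Sum.inr ⟨0, hc0⟩, false) then (1 : K) else 0) hs
    simp at h1
  · rw [pow_two]
    refine Submodule.sub_mem _ (Submodule.mul_mem_mul ?_ ?_) (Submodule.mul_mem_mul ?_ ?_)
    · exact hmem ⟨0, by omega⟩ ⟨0, hc0⟩
    · exact hmem ⟨1, by omega⟩ ⟨1, hc1⟩
    · exact hmem ⟨0, by omega⟩ ⟨1, hc1⟩
    · exact hmem ⟨1, by omega⟩ ⟨0, hc0⟩
  · rintro ⟨v | c, t⟩
    · obtain ⟨i, hi⟩ := v
      have e1 := j0 ⟨0, hc0⟩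
      have e2 := j0 ⟨1, hc1⟩
      have e3 := j1 ⟨0, hc0⟩
      have e4 := j1 ⟨1, hc1⟩
      have e5 := chd_jQ2 (K := K) i hi ⟨0, hc0⟩
      have e6 := chd_jQ2 (K := K) i hi ⟨1, hc1⟩
      simp only at e1 e2 e3 e4 e5 e6
      cases t
      · refine ⟨xR m n K 1 1 * xR m n K i 0 - xR m n K 1 0 * xR m n K i 1, ?_⟩
        rw [hs, map_sub, map_mul, map_mul, e3, e4, e5, e6]
        ring
      · refine ⟨xR m n K 0 0 * xR m n K i 1 - xR m n K 0 1 * xR m n K i 0, ?_⟩
        rw [hs, map_sub, map_mul, map_mul, e1, e2, e5, e6]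
        ring
    · cases t
      · refine ⟨-((xR m n K 0 0 * xR m n K 1 1 - xR m n K 0 1 * xR m n K 1 0) *
          xR m n K 1 c), ?_⟩
        rw [map_neg, map_mul, j1 c]
        ring
      · refine ⟨(xR m n K 0 0 * xR m n K 1 1 - xR m n K 0 1 * xR m n K 1 0) *
          xR m n K 0 c, ?_⟩
        rw [map_mul, j0 c]
  · exact ⟨(Sum.inr ⟨0, hc0⟩, true), by simp⟩

end Pool.FSig
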