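import Pool.Agent.Lib.FSig.GDefs

/-!
# Module GenQ: a finitely generated algebra over a perfect field is finite over its `q`-th powers

`R` is generated as a `K`-algebra by `x i` (`i : ι`, finite), `q = p ^ e`, every element of `K` is a
`p`-th power. Then every `f : R` is `∑ b, c b ^ q * ∏ i, x i ^ b i`, `b : ι → Fin q`.

Proof. The set of all such `f` is closed under addition (`(c + c') ^ q = c ^ q + c' ^ q`,
`add_pow_char_pow`). Every `f` is `aeval x P` for a polynomial `P` (`Algebra.adjoin_range_eq_range_aeval`),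
a sum of terms `C u * ∏ x i ^ μ i`; `u = v ^ q` (iterate `hK`), `μ i = q * (μ i / q) + μ i % q`, so the term is
`(v * ∏ x i ^ (μ i / q)) ^ q * ∏ x i ^ (μ i % q)`.
-/

namespace Pool.FSig

private theorem genq_root {K : Type*} [Field K] (p : ℕ)
    (hK : ∀ c : K, ∃ c' : K, c' ^ p = c) (e : ℕ) (c : K) : ∃ c' : K, c' ^ (p ^ e) = c := by
  induction e generalizing c with
  | zero => exact ⟨c, by rw [pow_zero, pow_one]⟩
  | succ e ih =>
    obtain ⟨c1, h1⟩ := hK c
    obtain ⟨c2, h2⟩ := ih c1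
    exact ⟨c2, by rw [pow_succ, pow_mul, h2, h1]⟩

theorem exists_gen {K R ι : Type*} [Field K] [CommRing R] [Algebra K R] [Fintype ι] [DecidableEq ι]
    (p : ℕ) [Fact p.Prime] [CharP K p] (hK : ∀ c : K, ∃ c' : K, c' ^ p = c) (e : ℕ) (x : ι → R)
    (hx : Algebra.adjoin K (Set.range x) = ⊤) (f : R) :
    ∃ c : (ι → Fin (p ^ e)) → R, f = ∑ b, c b ^ (p ^ e) * ∏ i, x i ^ (b i : ℕ) := by
  classical
  rcases subsingleton_or_nontrivial R with hR | hR
  · exact ⟨fun _ => 0, Subsingleton.elim _ _⟩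
  haveI : CharP R p := charP_of_injective_algebraMap (algebraMap K R).injective p
  have hq : 0 < p ^ e := pow_pos (Fact.out : p.Prime).pos e
  have hadd : ∀ a b : R,
      (∃ c : (ι → Fin (p ^ e)) → R, a = ∑ b, c b ^ (p ^ e) * ∏ i, x i ^ (b i : ℕ)) →
      (∃ c : (ι → Fin (p ^ e)) → R, b = ∑ b, c b ^ (p ^ e) * ∏ i, x i ^ (b i : ℕ)) →
      ∃ c : (ι → Fin (p ^ e)) → R, a + b = ∑ b, c b ^ (p ^ e) * ∏ i, x i ^ (b i : ℕ) := by
    rintro a b ⟨c, rfl⟩ ⟨c', rfl⟩
    refine ⟨fun b => c b + c' b, ?_⟩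
    rw [← Finset.sum_add_distrib]
    refine Finset.sum_congr rfl fun b _ => ?_
    rw [add_pow_char_pow, add_mul]
  have hzero : ∃ c : (ι → Fin (p ^ e)) → R,
      (0 : R) = ∑ b, c b ^ (p ^ e) * ∏ i, x i ^ (b i : ℕ) := by
    refine ⟨fun _ => 0, ?_⟩
    rw [Finset.sum_eq_zero]
    intro b _
    rw [zero_pow hq.ne', zero_mul]
  have hmon : ∀ (u : K) (μ : ι →₀ ℕ), ∃ c : (ι → Fin (p ^ e)) → R,
      algebraMap K R u * ∏ i, x i ^ μ i = ∑ b, c b ^ (p ^ e) * ∏ i, x i ^ (b i : ℕ) := by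
    intro u μ
    obtain ⟨v, hv⟩ := genq_root p hK e u
    let b0 : ι → Fin (p ^ e) := fun i => ⟨μ i % (p ^ e), Nat.mod_lt _ hq⟩
    refine ⟨fun b => if b = b0 then algebraMap K R v * ∏ i, x i ^ (μ i / p ^ e) else 0, ?_⟩
    rw [Finset.sum_eq_single b0]
    · beta_reduce
      rw [if_pos rfl, mul_pow, ← map_pow, hv, mul_assoc, ← Finset.prod_pow,
        ← Finset.prod_mul_distrib]
      congr 1
      refine Finset.prod_congr rfl fun i _ => ?_
      rw [← pow_mul, ← pow_add]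
      congr 1
      show μ i = μ i / p ^ e * p ^ e + μ i % p ^ e
      rw [mul_comm]
      exact (Nat.div_add_mod _ _).symm
    · intro b _ hb
      beta_reduce
      rw [if_neg hb, zero_pow hq.ne', zero_mul]
    · intro h
      exact absurd (Finset.mem_univ _) h
  have hf : f ∈ Algebra.adjoin K (Set.range x) := by rw [hx]; trivial
  rw [Algebra.adjoin_range_eq_range_aeval] at hf
  obtain ⟨P, hP⟩ := hf
  have hP' : f = ∑ d ∈ P.support, algebraMap K R (P.coeff d) * ∏ i, x i ^ d i := by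
    rw [← hP]
    exact MvPolynomial.eval₂_eq' _ _ _
  rw [hP']
  exact Finset.sum_induction _
    (fun a : R => ∃ c : (ι → Fin (p ^ e)) → R, a = ∑ b, c b ^ (p ^ e) * ∏ i, x i ^ (b i : ℕ))
    hadd hzero (fun d _ => hmon _ d)

end Pool.FSig
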