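import Pool.Agent.Lib.FSig.GDefs

/-!
# Module PBas: the `p`-basis of a polynomial ring over a perfect field

`ι` finite, `K` perfect of characteristic `p`. For `α : ι → Fin p` let `w α = ∏ i, X i ^ α i`. There are additive
maps `π α` (the coordinates with respect to the basis `w α` over the `p`-th powers):
`π α (∑ μ, c μ X ^ μ) = ∑ ν, (c (p ν + α)) ^ (1/p) X ^ ν`.

Construction. `frobeniusEquiv K p` (`PerfectRing K p`, from `hK`: `PerfectRing.ofSurjective`) gives the `p`-th root
`K →+ K`. For a finitely supported function `F : (ι →₀ ℕ) →₀ K` put `π α F = Finsupp.sum F (fun μ c => if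
μ mod p = α then monomial (μ / p) (c ^ (1/p)) else 0)`, additive in `F`. It is enough to check everything on monomials
(`MvPolynomial.induction_on'`, additivity in both arguments):
* linear: `monomial μ c ^ p * monomial ν c' = monomial (p μ + ν) (c ^ p c')`.
* `f = ∑ α, (π α f) ^ p * w α`: for `monomial μ c` only `α = μ mod p` contributes.
* `π α (f ^ p * w β) = if α = β then f else 0`.
* total degree: every monomial `ν` of `π α f` comes from a monomial `p ν + α` of `f`, and
  `p * |ν| ≤ |p ν + α| ≤ totalDegree f`.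
-/

/-!
# Module PBas: the `p`-basis of a polynomial ring over a perfect field

`ι` finite, `K` perfect of characteristic `p`. For `α : ι → Fin p` let `w α = ∏ i, X i ^ α i`. There are additive
maps `π α` (the coordinates with respect to the basis `w α` over the `p`-th powers):
`π α (∑ μ, c μ X ^ μ) = ∑ ν, (c (p ν + α)) ^ (1/p) X ^ ν`.

Construction. `frobeniusEquiv K p` (`PerfectRing K p`, from `hK`: `PerfectRing.ofSurjective`) gives the `p`-th root
`K →+ K`. For a finitely supported function `F : (ι →₀ ℕ) →₀ K` put `π α F = Finsupp.sum F (fun μ c => if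
μ mod p = α then monomial (μ / p) (c ^ (1/p)) else 0)`, additive in `F`. It is enough to check everything on monomials
(`MvPolynomial.induction_on'`, additivity in both arguments):
* linear: `monomial μ c ^ p * monomial ν c' = monomial (p μ + ν) (c ^ p c')`.
* `f = ∑ α, (π α f) ^ p * w α`: for `monomial μ c` only `α = μ mod p` contributes.
* `π α (f ^ p * w β) = if α = β then f else 0`.
* total degree: every monomial `ν` of `π α f` comes from a monomial `p ν + α` of `f`, and
  `p * |ν| ≤ |p ν + α| ≤ totalDegree f`.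
-/

namespace Pool.FSig

open MvPolynomial

/-- the monomials with exponents `< p` -/
noncomputable def wmon {ι : Type*} [Fintype ι] (K : Type*) [Field K] {p : ℕ} (α : ι → Fin p) :
    MvPolynomial ι K := ∏ i, X i ^ (α i : ℕ)

private noncomputable def PBas_al {ι : Type*} [Finite ι] {p : ℕ} (α : ι → Fin p) : ι →₀ ℕ :=
  Finsupp.equivFunOnFinite.symm fun i => (α i : ℕ)

private theorem PBas_al_apply {ι : Type*} [Finite ι] {p : ℕ} (α : ι → Fin p) (i : ι) :
    PBas_al α i = (α i : ℕ) := rfl

private noncomputable def PBas_dv {ι : Type*} [Finite ι] (p : ℕ) (μ : ι →₀ ℕ) : ι →₀ ℕ :=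
  Finsupp.equivFunOnFinite.symm fun i => μ i / p

private theorem PBas_dv_apply {ι : Type*} [Finite ι] (p : ℕ) (μ : ι →₀ ℕ) (i : ι) :
    PBas_dv p μ i = μ i / p := rfl

private theorem PBas_dv_add {ι : Type*} [Finite ι] {p : ℕ} (hp : 0 < p) (ν : ι →₀ ℕ)
    (α : ι → Fin p) : PBas_dv p (p • ν + PBas_al α) = ν := by
  ext i
  rw [PBas_dv_apply, Finsupp.add_apply, Finsupp.smul_apply, PBas_al_apply, smul_eq_mul,
    Nat.mul_add_div hp, Nat.div_eq_of_lt (α i).2, add_zero]

private theorem PBas_inj {ι : Type*} [Finite ι] {p : ℕ} (hp : 0 < p) {ν ν' : ι →₀ ℕ}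
    {α β : ι → Fin p} (h : p • ν + PBas_al α = p • ν' + PBas_al β) : ν = ν' ∧ α = β := by
  have h1 : ν = ν' := by
    have := congrArg (PBas_dv p) h
    rwa [PBas_dv_add hp, PBas_dv_add hp] at this
  refine ⟨h1, ?_⟩
  rw [h1] at h
  have h2 := add_left_cancel h
  funext i
  have h3 := DFunLike.congr_fun h2 i
  rw [PBas_al_apply, PBas_al_apply] at h3
  exact Fin.ext h3

private theorem PBas_decomp {ι : Type*} [Finite ι] {p : ℕ} (hp : 0 < p) (μ : ι →₀ ℕ) :
    ∃ (ν : ι →₀ ℕ) (α : ι → Fin p), μ = p • ν + PBas_al α := by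
  refine ⟨PBas_dv p μ, fun i => ⟨μ i % p, Nat.mod_lt _ hp⟩, ?_⟩
  ext i
  rw [Finsupp.add_apply, Finsupp.smul_apply, PBas_al_apply, PBas_dv_apply, smul_eq_mul]
  exact (Nat.div_add_mod _ _).symm

private theorem PBas_wmon {K ι : Type*} [Field K] [Fintype ι] {p : ℕ} (α : ι → Fin p) :
    wmon K α = monomial (PBas_al α) 1 := by
  rw [monomial_eq, C_1, one_mul, Finsupp.prod_fintype _ _ (fun i => pow_zero _)]
  rfl

private noncomputable def PBas_fun {K ι : Type*} [Field K] [Fintype ι] (p : ℕ) (ρ : K →+ K)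
    (α : ι → Fin p) (f : MvPolynomial ι K) : MvPolynomial ι K :=
  by
    classical
    exact ∑ ν ∈ f.support.image (PBas_dv p), monomial ν (ρ (coeff (p • ν + PBas_al α) f))

private theorem PBas_coeff {K ι : Type*} [Field K] [Fintype ι] {p : ℕ} (hp : 0 < p) (ρ : K →+ K)
    (α : ι → Fin p) (f : MvPolynomial ι K) (ν : ι →₀ ℕ) :
    coeff ν (PBas_fun p ρ α f) = ρ (coeff (p • ν + PBas_al α) f) := by
  classical
  unfold PBas_fun
  rw [coeff_sum]
  simp only [coeff_monomial]
  rw [Finset.sum_ite_eq']
  split_ifs with h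
  · rfl
  · have h1 : coeff (p • ν + PBas_al α) f = 0 := by
      by_contra hne
      apply h
      rw [Finset.mem_image]
      exact ⟨_, mem_support_iff.2 hne, PBas_dv_add hp ν α⟩
    rw [h1, map_zero]

private noncomputable def PBas_pi {K ι : Type*} [Field K] [Fintype ι] {p : ℕ} (hp : 0 < p)
    (ρ : K →+ K) (α : ι → Fin p) : MvPolynomial ι K →+ MvPolynomial ι K where
  toFun := PBas_fun p ρ α
  map_zero' := by
    ext ν
    rw [PBas_coeff hp, coeff_zero, coeff_zero, map_zero]
  map_add' f g := by
    ext ν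
    rw [PBas_coeff hp, coeff_add, coeff_add, PBas_coeff hp, PBas_coeff hp, map_add]

private theorem PBas_coeff' {K ι : Type*} [Field K] [Fintype ι] {p : ℕ} (hp : 0 < p) (ρ : K →+ K)
    (α : ι → Fin p) (f : MvPolynomial ι K) (ν : ι →₀ ℕ) :
    coeff ν (PBas_pi hp ρ α f) = ρ (coeff (p • ν + PBas_al α) f) := PBas_coeff hp ρ α f ν

private theorem PBas_mon {K ι : Type*} [Field K] [Fintype ι] [DecidableEq ι] {p : ℕ} (hp : 0 < p)
    (ρ : K →+ K) (α β : ι → Fin p) (μ : ι →₀ ℕ) (c : K) :
    PBas_pi hp ρ α (monomial (p • μ + PBas_al β) c) =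
      if α = β then monomial μ (ρ c) else 0 := by
  ext ν
  rw [PBas_coeff', coeff_monomial]
  split_ifs with h1 h2 h2
  · obtain ⟨h3, -⟩ := PBas_inj hp h1
    rw [coeff_monomial, if_pos h3]
  · exact absurd (PBas_inj hp h1).2.symm h2
  · rw [coeff_monomial, if_neg, map_zero]
    intro h3
    apply h1
    rw [h3, h2]
  · rw [coeff_zero, map_zero]

private theorem PBas_PL {K ι : Type*} [Field K] [Fintype ι] {p : ℕ} [Fact p.Prime]
    [CharP K p] (hp : 0 < p) (ρ : K →+ K) (hρ : ∀ c d, ρ (c ^ p * d) = c * ρ d)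
    (α : ι → Fin p) : PL p (PBas_pi hp ρ α) := by
  classical
  intro r x
  induction r using MvPolynomial.induction_on' with
  | monomial μ c =>
    ext ν
    rw [PBas_coeff', monomial_pow, coeff_monomial_mul', coeff_monomial_mul', PBas_coeff']
    by_cases h : μ ≤ ν
    · have h' : p • μ ≤ p • ν + PBas_al α := by
        intro i
        rw [Finsupp.add_apply, Finsupp.smul_apply, Finsupp.smul_apply, smul_eq_mul, smul_eq_mul]
        have := Nat.mul_le_mul_left p (h i)
        omega
      rw [if_pos h, if_pos h', hρ]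
      congr 3
      ext i
      rw [Finsupp.tsub_apply, Finsupp.add_apply, Finsupp.add_apply, Finsupp.smul_apply,
        Finsupp.smul_apply, Finsupp.smul_apply, Finsupp.tsub_apply, smul_eq_mul, smul_eq_mul,
        smul_eq_mul, Nat.mul_sub]
      have := Nat.mul_le_mul_left p (h i)
      omega
    · have h' : ¬ p • μ ≤ p • ν + PBas_al α := by
        intro h'
        apply h
        intro i
        have h1 := h' i
        rw [Finsupp.add_apply, Finsupp.smul_apply, Finsupp.smul_apply, smul_eq_mul, smul_eq_mul,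
          PBas_al_apply] at h1
        by_contra h2
        push Not at h2
        have h3 : p * (ν i + 1) ≤ p * μ i := Nat.mul_le_mul_left p h2
        have h4 := (α i).2
        rw [mul_add, mul_one] at h3
        omega
      rw [if_neg h, if_neg h', map_zero]
  | add r s hr hs =>
    rw [add_pow_char, add_mul, map_add, hr, hs, add_mul]

theorem exists_pbasis {K ι : Type*} [Field K] [Fintype ι] [DecidableEq ι] (p : ℕ) [Fact p.Prime]
    [CharP K p] (hK : ∀ c : K, ∃ c' : K, c' ^ p = c) :
    ∃ π : (ι → Fin p) → (MvPolynomial ι K →+ MvPolynomial ι K),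
      (∀ α, PL p (π α)) ∧
      (∀ f, f = ∑ α, π α f ^ p * wmon K α) ∧
      (∀ f α β, π α (f ^ p * wmon K β) = if α = β then f else 0) ∧
      (∀ f α, p * (π α f).totalDegree ≤ f.totalDegree) := by
  classical
  have hp : 0 < p := (Fact.out : p.Prime).pos
  have hinj : Function.Injective (frobenius K p) := frobenius_inj K p
  have hsurj : Function.Surjective (frobenius K p) := fun c => by
    obtain ⟨c', hc'⟩ := hK c
    exact ⟨c', hc'⟩
  let e : K ≃+* K := RingEquiv.ofBijective (frobenius K p) ⟨hinj, hsurj⟩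
  have he : ∀ c, e c = c ^ p := fun c => rfl
  let ρ : K →+ K := (e.symm : K ≃+ K).toAddMonoidHom
  have hρ0 : ∀ c, ρ c = e.symm c := fun c => rfl
  have hρ1 : ∀ c, ρ (c ^ p) = c := fun c => by rw [hρ0, ← he, RingEquiv.symm_apply_apply]
  have hρ2 : ∀ c, ρ c ^ p = c := fun c => by rw [hρ0, ← he, RingEquiv.apply_symm_apply]
  have hρ : ∀ c d, ρ (c ^ p * d) = c * ρ d := fun c d => by
    rw [hρ0, map_mul, ← hρ0, hρ1, hρ0]
  have hPL := fun α => PBas_PL (ι := ι) (p := p) hp ρ hρ α
  refine ⟨fun α => PBas_pi hp ρ α, hPL, ?_, ?_, ?_⟩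
  · intro f
    induction f using MvPolynomial.induction_on' with
    | monomial μ c =>
      obtain ⟨ν, β, rfl⟩ := PBas_decomp hp μ
      rw [Finset.sum_eq_single β]
      · rw [PBas_mon, if_pos rfl, monomial_pow, hρ2, PBas_wmon, monomial_mul, mul_one]
      · intro α _ hα
        rw [PBas_mon, if_neg hα, zero_pow hp.ne', zero_mul]
      · intro h
        exact absurd (Finset.mem_univ _) h
    | add f g hf hg =>
      conv_lhs => rw [hf, hg]
      rw [← Finset.sum_add_distrib]
      refine Finset.sum_congr rfl fun α _ => ?_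
      rw [map_add, add_pow_char, add_mul]
  · intro f α β
    rw [hPL α f (wmon K β), PBas_wmon]
    have h1 : (PBas_al β : ι →₀ ℕ) = p • (0 : ι →₀ ℕ) + PBas_al β := by rw [smul_zero, zero_add]
    rw [h1, PBas_mon]
    split_ifs with h
    · have h2 : ρ 1 = 1 := by
        have := hρ1 1
        rwa [one_pow] at this
      rw [h2]
      exact mul_one f
    · exact mul_zero f
  · intro f α
    rw [mul_comm, ← Nat.le_div_iff_mul_le hp]
    refine Finset.sup_le ?_
    intro ν hν
    rw [mem_support_iff, PBas_coeff'] at hν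
    have h1 : p • ν + PBas_al α ∈ f.support := by
      rw [mem_support_iff]
      intro h
      rw [h, map_zero] at hν
      exact hν rfl
    have h2 := le_totalDegree h1
    rw [Nat.le_div_iff_mul_le hp]
    refine le_trans ?_ h2
    rw [Finsupp.sum_fintype _ _ (fun _ => rfl), Finsupp.sum_fintype _ _ (fun _ => rfl),
      Finset.sum_mul]
    refine Finset.sum_le_sum fun i _ => ?_
    rw [Finsupp.add_apply, Finsupp.smul_apply, smul_eq_mul, mul_comm]
    exact Nat.le_add_right _ _

end Pool.FSig
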