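import Pool.Agent.Lib.FSig.GDefs
import Pool.Agent.Lib.FSig.PBas
import Pool.Agent.Lib.FSig.GenQ

/-!
# Module ChartK: the maps `κ α` of a chart

`j : R → K[ι]` a chart (`IsChart`), `x : Fin M → R`, `d = card ι`, `c = s ^ (2 * M + d)`.

* `mem_of_totalDegree_le`: if `P : K[ι]` has `totalDegree P ≤ k` then `j s ^ k * P` is in the range of `j`: it is enough
  to treat monomials `∏ X i ^ μ i`, `∑ μ i ≤ k` (the range is a `K`-subspace;
  `j s ^ k = j s ^ (k - ∑ μ) * ∏ j s ^ μ i` and `j s * X i ∈ range j`).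
* `exists_kappa`. Let `π α`, `w α` be as in `PBas`. For `f : R` and `α` the element `j s ^ (2 * M) * π α (j f)` is in
  the range of `j`: by `GenQ` (with `e = 1`) `f = ∑ b, r b ^ p * ∏ x k ^ b k`, `b k < p`, so
  `π α (j f) = ∑ b, j (r b) * π α (∏ j (x k) ^ b k)` and the total degree of `∏ j (x k) ^ b k` is at most
  `2 * M * (p - 1)`, hence `totalDegree (π α ..) ≤ 2 * M` (`p * t ≤ 2 M (p-1)`). Let `κ α f` be the unique
  `r : R` with `j r = j s ^ (2 * M + d) * π α (j f) / j s ^ d`, i.e. `j (κ α f) = j s ^ (2 * M) * π α (j f)`, and let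
  `y α : R` be the element with `j (y α) = j s ^ (d * p) * w α` (`totalDegree (w α) ≤ d * (p - 1) ≤ d * p`).
  Then: `κ α` additive and `PL p` (injectivity of `j`); `κ α (r ^ p * y β)`: `j` of it is
  `j s ^ (2M) * π α ((j r * j s ^ d) ^ p * w β) = j s ^ (2M) * j r * j s ^ d` if `α = β`, else `0`; and
  `(s ^ (2M+d)) ^ p * f = ∑ α, κ α f ^ p * y α`: apply `j`:
  `∑ α, (j s ^ (2M) * π α (j f)) ^ p * j s ^ (d p) * w α = j s ^ ((2M+d) p) * j f`.
-/

namespace Pool.FSig

open MvPolynomial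

theorem mem_of_totalDegree_le {K R ι : Type*} [Field K] [CommRing R] [Algebra K R] {M : ℕ}
    {j : R →ₐ[K] MvPolynomial ι K} {x : Fin M → R} {s : R} {Z : Finset ι} (h : IsChart j x s Z)
    {k : ℕ} (P : MvPolynomial ι K) (hP : P.totalDegree ≤ k) : ∃ r : R, j r = j s ^ k * P := by
  choose ρ hρ using h.mul
  have h1 : ∀ μ ∈ P.support, ∃ r : R, j r = j s ^ k * monomial μ (coeff μ P) := by
    intro μ hμ
    have h2 : (μ.sum fun _ e => e) ≤ k := (le_totalDegree hμ).trans hP
    refine ⟨algebraMap K R (coeff μ P) * s ^ (k - μ.sum fun _ e => e) *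
      μ.prod fun i e => ρ i ^ e, ?_⟩
    have h3 : j (μ.prod fun i e => ρ i ^ e) =
        j s ^ (μ.sum fun _ e => e) * μ.prod fun i e => X i ^ e := by
      rw [Finsupp.prod, map_prod, Finsupp.sum, ← Finset.prod_pow_eq_pow_sum, Finsupp.prod,
        ← Finset.prod_mul_distrib]
      refine Finset.prod_congr rfl fun i _ => ?_
      rw [map_pow, hρ, mul_pow]
    rw [map_mul, map_mul, map_pow, h3, monomial_eq, AlgHom.commutes, algebraMap_eq]
    have h4 : j s ^ k = j s ^ (k - μ.sum fun _ e => e) * j s ^ (μ.sum fun _ e => e) := by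
      rw [← pow_add, Nat.sub_add_cancel h2]
    rw [h4]
    ring
  choose! r hr using h1
  refine ⟨∑ μ ∈ P.support, r μ, ?_⟩
  rw [map_sum, Finset.sum_congr rfl hr, ← Finset.mul_sum, support_sum_monomial_coeff]

private theorem chartk_deg {M ι K : Type*} [Field K] [Fintype M] (g : M → MvPolynomial ι K)
    (b : M → ℕ) (D B : ℕ) (hg : ∀ k, (g k).totalDegree ≤ D) (hb : ∀ k, b k ≤ B) :
    (∏ k, g k ^ b k).totalDegree ≤ Fintype.card M * (B * D) := by
  refine (totalDegree_finsetProd _ _).trans ?_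
  refine (Finset.sum_le_card_nsmul _ _ (B * D) fun k _ => ?_).trans_eq ?_
  · exact (totalDegree_pow _ _).trans (Nat.mul_le_mul (hb k) (hg k))
  · rw [Finset.card_univ, smul_eq_mul]

theorem exists_kappa {K R ι : Type*} [Field K] [CommRing R] [Algebra K R] [Fintype ι]
    [DecidableEq ι] (p : ℕ) [Fact p.Prime] [CharP K p] (hK : ∀ c : K, ∃ c' : K, c' ^ p = c) {M : ℕ}
    {j : R →ₐ[K] MvPolynomial ι K} {x : Fin M → R} {s : R} {Z : Finset ι} (h : IsChart j x s Z) :
    ∃ (κ : (ι → Fin p) → (R →+ R)) (y : (ι → Fin p) → R), (∀ α, PL p (κ α)) ∧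
      (∀ (r : R) (α β : ι → Fin p), κ α (r ^ p * y β) =
        if α = β then s ^ (2 * M + Fintype.card ι) * r else 0) ∧
      (∀ f : R, (s ^ (2 * M + Fintype.card ι)) ^ p * f = ∑ α, κ α f ^ p * y α) := by
  obtain ⟨π, hπ1, hπ2, hπ3, hπ4⟩ := exists_pbasis (K := K) (ι := ι) p hK
  have hp : 0 < p := (Fact.out : p.Prime).pos
  have h1 : ∀ (α : ι → Fin p) (f : R), ∃ r : R, j r = j s ^ (2 * M) * π α (j f) := by
    intro α f
    obtain ⟨c, hc⟩ := exists_gen p hK 1 x h.gen f
    have h2 : ∀ b : Fin M → Fin (p ^ 1), ∃ r : R,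
        j r = j s ^ (2 * M) * π α (∏ i, j (x i) ^ (b i : ℕ)) := by
      intro b
      refine mem_of_totalDegree_le h _ ?_
      have h3 := chartk_deg (fun i => j (x i)) (fun i => (b i : ℕ)) 2 p h.totdeg
        (fun i => (b i).2.le.trans_eq (pow_one p))
      have h4 := (hπ4 (∏ i, j (x i) ^ (b i : ℕ)) α).trans h3
      rw [Fintype.card_fin] at h4
      have h5 : p * (π α (∏ i, j (x i) ^ (b i : ℕ))).totalDegree ≤ p * (2 * M) :=
        h4.trans_eq (by ring)
      exact Nat.le_of_mul_le_mul_left h5 hp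
    choose r hr using h2
    refine ⟨∑ b, c b * r b, ?_⟩
    have h6 : j f = ∑ b, j (c b) ^ p * ∏ i, j (x i) ^ (b i : ℕ) := by
      conv_lhs => rw [hc]
      rw [map_sum]
      refine Finset.sum_congr rfl fun b _ => ?_
      rw [map_mul, map_pow, map_prod]
      have h8 : j (c b) ^ p ^ 1 = j (c b) ^ p := by rw [pow_one]
      rw [h8]
      congr 1
      exact Finset.prod_congr rfl fun i _ => map_pow _ _ _
    rw [h6, map_sum, map_sum, Finset.mul_sum]
    refine Finset.sum_congr rfl fun b _ => ?_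
    rw [hπ1 α, map_mul, hr b]
    ring
  choose kap hkap using h1
  have h7 : ∀ α : ι → Fin p, ∃ y : R, j y = j s ^ (Fintype.card ι * p) * wmon K α := by
    intro α
    refine mem_of_totalDegree_le h _ ?_
    have h3 := chartk_deg (fun i : ι => (X i : MvPolynomial ι K)) (fun i => (α i : ℕ)) 1 p
      (fun i => (totalDegree_X i).le) (fun i => (α i).2.le)
    rw [mul_one] at h3
    exact h3
  choose y hy using h7
  refine ⟨fun α => AddMonoidHom.mk' (kap α) fun f g => ?_, y, fun α r z => ?_, fun r α β => ?_,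
    fun f => ?_⟩
  · apply h.inj
    rw [map_add, hkap, hkap, hkap, map_add, map_add, mul_add]
  · apply h.inj
    change j (kap α (r ^ p * z)) = j (r * kap α z)
    rw [hkap, map_mul j, map_mul j, map_pow j, hπ1 α, hkap]
    ring
  · apply h.inj
    change j (kap α (r ^ p * y β)) = _
    have h8 : j (r ^ p * y β) = (j r * j s ^ Fintype.card ι) ^ p * wmon K β := by
      rw [map_mul, map_pow, hy, pow_mul]
      ring
    rw [hkap, h8, hπ3]
    split_ifs with h9
    · rw [map_mul, map_pow, pow_add]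
      ring
    · rw [mul_zero, map_zero]
  · apply h.inj
    rw [map_mul, map_pow, map_pow, map_sum]
    change _ = ∑ α, j (kap α f ^ p * y α)
    conv_lhs => rw [hπ2 (j f)]
    rw [Finset.mul_sum]
    refine Finset.sum_congr rfl fun α _ => ?_
    rw [map_mul, map_pow, hkap, hy]
    ring

end Pool.FSig
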