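import Pool.Agent.Lib.FSig.CDefs

/-!
# CntBs: derivatives of the B-spline as sums

`bspl1 r K = bspl (r-1) K - bspl (r-1) (K-1)`, `bspl (r-1) K = (∑_{i<K} (-1)^i binom(r-1,i) (K-i)^(r-2)) / (r-2)!`. For `K = K' + 1`: shift `i ↦ i + 1` in the second sum: `∑_{i<K'} (-1)^i binom(r-1,i)(K'-i)^(r-2) = -∑_{1≤i<K} (-1)^i binom(r-1,i-1) (K-i)^(r-2)`, and `binom(r-1,i) + binom(r-1,i-1) = binom(r,i)` (`Nat.choose_succ_succ`), term `i = 0`: `binom = 1`
(`Finset.sum_range_succ'`).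
`bspl2`: the same twice: `bspl2 r K = bspl1' K - bspl1' (K-1)` with `bspl1' K = bspl (r-2) K - bspl (r-2) (K-1) = bspl1 (r-1) K`, which is `(∑_{i<K} (-1)^i binom(r-1,i) (K-i)^(r-3))/(r-3)!` for `K ≥ 1` by the first part (for `K = 0` it is `0` on both sides: `bspl _ 0 = 0`).
-/

namespace FSig

open Finset

private def bsS (r K e : ℕ) : ℚ :=
  ∑ i ∈ range K, (-1) ^ i * (r.choose i : ℚ) * ((K : ℚ) - i) ^ e

private theorem bsS_step (s K e : ℕ) : bsS s K e - bsS s (K - 1) e = bsS (s + 1) K e := by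
  cases K with
  | zero => simp [bsS]
  | succ K =>
    simp only [Nat.add_sub_cancel, bsS]
    rw [Finset.sum_range_succ', Finset.sum_range_succ']
    simp only [Nat.choose_zero_right, pow_zero]
    have h : (∑ i ∈ range K, (-1 : ℚ) ^ (i + 1) * ((s + 1).choose (i + 1) : ℚ) *
          (((K + 1 : ℕ) : ℚ) - ((i + 1 : ℕ) : ℚ)) ^ e) =
        (∑ i ∈ range K, (-1 : ℚ) ^ (i + 1) * (s.choose (i + 1) : ℚ) *
          (((K + 1 : ℕ) : ℚ) - ((i + 1 : ℕ) : ℚ)) ^ e) -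
        ∑ i ∈ range K, (-1 : ℚ) ^ i * (s.choose i : ℚ) * ((K : ℚ) - i) ^ e := by
      rw [← Finset.sum_sub_distrib]
      refine Finset.sum_congr rfl fun i _ => ?_
      rw [Nat.choose_succ_succ]
      push_cast
      ring
    rw [h]
    ring

theorem bspl1_eq (r K : ℕ) (hr : 2 ≤ r) :
    bspl1 r K = (∑ i ∈ range K, (-1) ^ i * (r.choose i : ℚ) * ((K : ℚ) - i) ^ (r - 2)) /
      ((r - 2).factorial : ℚ) := by
  obtain ⟨s, rfl⟩ : ∃ s, r = s + 2 := ⟨r - 2, by omega⟩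
  have e1 : s + 2 - 2 = s := by omega
  have e2 : s + 2 - 1 = s + 1 := by omega
  have e3 : s + 1 - 1 = s := by omega
  have h := bsS_step (s + 1) K s
  unfold bspl1 bspl
  rw [e1, e2, e3, ← sub_div]
  congr 1

theorem bspl2_eq (r K : ℕ) (hr : 3 ≤ r) :
    bspl2 r K = (∑ i ∈ range K, (-1) ^ i * (r.choose i : ℚ) * ((K : ℚ) - i) ^ (r - 3)) /
      ((r - 3).factorial : ℚ) := by
  obtain ⟨s, rfl⟩ : ∃ s, r = s + 3 := ⟨r - 3, by omega⟩
  have e1 : s + 3 - 3 = s := by omega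
  have e2 : s + 3 - 2 = s + 1 := by omega
  have e3 : s + 1 - 1 = s := by omega
  have h1 := bsS_step (s + 1) K s
  have h2 := bsS_step (s + 1) (K - 1) s
  have h3 := bsS_step (s + 2) K s
  have e4 : K - 1 - 1 = K - 2 := by omega
  rw [e4] at h2
  have key : bsS (s + 1) K s - 2 * bsS (s + 1) (K - 1) s + bsS (s + 1) (K - 2) s =
      bsS (s + 3) K s := by
    rw [show s + 3 = s + 2 + 1 from rfl, ← h3, ← h1, ← h2]
    ring
  unfold bspl2 bspl
  rw [e1, e2, e3]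
  change bsS (s + 1) K s / _ - 2 * (bsS (s + 1) (K - 1) s / _) + bsS (s + 1) (K - 2) s / _ =
    bsS (s + 3) K s / _
  rw [← key]
  ring

end FSig
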