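import Pool.Agent.Lib.FSig.CntAs
import Pool.Agent.Lib.FSig.CntBs

/-!
# CntA1As: asymptotics of `al` and of the first sum

`N = m + n`, `r! = r.factorial`. `al m n p K e = ∑_{i<K} (-1)^i binom(N,i) binom((K-i)p + (m-2) + e, N-1)`: `As.choose (K-i) (m-2+e) (N-1)`, `As.const_mul`, `As.sum`; the limit is `(∑_{i<K} (-1)^i binom(N,i) (K-i)^(N-1))/(N-1)! = bspl N K`
(`((K - i : ℕ) : ℝ) = K - i` for `i < K`; `push_cast`, `Finset.sum_div`, `Finset.sum_congr`).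
`al1_As`: `pb k (e+1) - pb k e = binom(kp + (m-2) + e, N-2)` (Pascal: `Nat.choose_succ_succ'`, `N - 1 = (N-2) + 1`), so `al K (e+1) - al K e = ∑_{i<K} (-1)^i binom(N,i) binom((K-i)p + (m-2) + e, N-2)`; `As.choose`, limit by `bspl1_eq` (`N ≥ 2`).
`al2_As`: `al K 2 - 2 al K 1 + al K 0 = ∑_{i<K} (-1)^i binom(N,i) binom((K-i)p + (m-2), N-3)` (Pascal twice), limit by `bspl2_eq`.
`A1_As`: `As.second` with `f_e = al (n+l) e`, `g_e = al (n-l) e`, `r = s = N - 3` (`N - 1 = (N-3) + 2`, `N - 2 = (N-3) + 1`, `2N - 4 = (N-3) + (N-3) + 2`), then `As.sum`; casts `ℤ → ℝ` and `ℚ → ℝ` by `push_cast`.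
-/

namespace FSig

open Finset

private theorem cnta1_gen (N K s r : ℕ) (F : ℕ → ℝ)
    (hF : ∀ p, F p = ∑ i ∈ range K, (-1) ^ i * (N.choose i : ℝ) *
      ((((K - i) * p + s).choose r : ℕ) : ℝ)) :
    As F (((∑ i ∈ range K, (-1) ^ i * (N.choose i : ℚ) * ((K : ℚ) - i) ^ r) /
      (r.factorial : ℚ) : ℚ) : ℝ) r := by
  have h1 : As (fun p => ∑ i ∈ range K, ((-1) ^ i * (N.choose i : ℝ)) *
      ((((K - i) * p + s).choose r : ℕ) : ℝ))
      (∑ i ∈ range K, ((-1) ^ i * (N.choose i : ℝ)) *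
        ((((K - i : ℕ) : ℝ)) ^ r / (r.factorial : ℝ))) r :=
    As.sum _ fun i _ => (As.choose (K - i) s r).const_mul _
  have e1 : (fun p => ∑ i ∈ range K, ((-1) ^ i * (N.choose i : ℝ)) *
      ((((K - i) * p + s).choose r : ℕ) : ℝ)) = F := by
    funext p
    rw [hF p]
  have e2 : (∑ i ∈ range K, ((-1) ^ i * (N.choose i : ℝ)) *
        ((((K - i : ℕ) : ℝ)) ^ r / (r.factorial : ℝ))) =
      (((∑ i ∈ range K, (-1) ^ i * (N.choose i : ℚ) * ((K : ℚ) - i) ^ r) /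
      (r.factorial : ℚ) : ℚ) : ℝ) := by
    push_cast
    rw [Finset.sum_div]
    refine Finset.sum_congr rfl fun i hi => ?_
    rw [Nat.cast_sub (Finset.mem_range.1 hi).le]
    ring
  rw [e1, e2] at h1
  exact h1

private theorem cnta1_p1 (m n p k e : ℕ) (h : 2 ≤ m + n) :
    ((pb m n p k (e + 1) : ℤ) : ℝ) - ((pb m n p k e : ℤ) : ℝ) =
      (((k * p + ((m - 2) + e)).choose (m + n - 2) : ℕ) : ℝ) := by
  have h1 : m + n - 1 = (m + n - 2) + 1 := by omega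
  have h2 : k * p + (m - 2) + (e + 1) = (k * p + ((m - 2) + e)) + 1 := by ring
  have h3 : k * p + (m - 2) + e = k * p + ((m - 2) + e) := by ring
  unfold pb
  rw [h1, h2, h3, Nat.choose_succ_succ']
  push_cast
  ring

theorem al_As (m n K e : ℕ) (hm : 3 ≤ m) (hn : 3 ≤ n) :
    As (fun p => ((al m n p K e : ℤ) : ℝ)) ((bspl (m + n) K : ℚ) : ℝ) (m + n - 1) := by
  refine cnta1_gen (m + n) K ((m - 2) + e) (m + n - 1) _ fun p => ?_
  unfold al pb
  push_cast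
  refine Finset.sum_congr rfl fun i _ => ?_
  rw [add_assoc]

theorem al1_As (m n K e : ℕ) (hm : 3 ≤ m) (hn : 3 ≤ n) :
    As (fun p => ((al m n p K (e + 1) : ℤ) : ℝ) - ((al m n p K e : ℤ) : ℝ))
      ((bspl1 (m + n) K : ℚ) : ℝ) (m + n - 2) := by
  rw [bspl1_eq (m + n) K (by omega)]
  refine cnta1_gen (m + n) K ((m - 2) + e) (m + n - 2) _ fun p => ?_
  unfold al
  push_cast
  rw [← Finset.sum_sub_distrib]
  refine Finset.sum_congr rfl fun i _ => ?_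
  rw [← mul_sub, cnta1_p1 m n p (K - i) e (by omega)]

theorem al2_As (m n K : ℕ) (hm : 3 ≤ m) (hn : 3 ≤ n) :
    As (fun p => ((al m n p K 2 : ℤ) : ℝ) - 2 * ((al m n p K 1 : ℤ) : ℝ)
        + ((al m n p K 0 : ℤ) : ℝ))
      ((bspl2 (m + n) K : ℚ) : ℝ) (m + n - 3) := by
  rw [bspl2_eq (m + n) K (by omega)]
  refine cnta1_gen (m + n) K (m - 2) (m + n - 3) _ fun p => ?_
  unfold al
  push_cast
  rw [Finset.mul_sum, ← Finset.sum_sub_distrib, ← Finset.sum_add_distrib]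
  refine Finset.sum_congr rfl fun i _ => ?_
  have h2 := cnta1_p1 m n p (K - i) 1 (by omega)
  have h1 := cnta1_p1 m n p (K - i) 0 (by omega)
  have e1 : m + n - 2 = (m + n - 3) + 1 := by omega
  have e2 : (K - i) * p + (m - 2 + 1) = ((K - i) * p + (m - 2)) + 1 := by ring
  have h3 : (((K - i) * p + (m - 2 + 1)).choose (m + n - 2) : ℝ) =
      (((K - i) * p + (m - 2)).choose (m + n - 3) : ℝ) +
      (((K - i) * p + (m - 2 + 0)).choose (m + n - 2) : ℝ) := by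
    rw [e2, e1, Nat.choose_succ_succ', add_zero]
    push_cast
    ring
  norm_num at h1 h2 h3 ⊢
  linear_combination (-1) ^ i * ((m + n).choose i : ℝ) * (h2 - h1 + h3)

theorem A1_As (m n : ℕ) (hm : 3 ≤ m) (hn : 3 ≤ n) :
    As (fun p => ((∑ l ∈ Ico 1 n, (al m n p (n + l) 2 * al m n p (n - l) 0
        - 2 * (al m n p (n + l) 1 * al m n p (n - l) 1)
        + al m n p (n + l) 0 * al m n p (n - l) 2) : ℤ) : ℝ))
      ((∑ j ∈ Ico 1 n, (bspl2 (m + n) (n + j) * bspl (m + n) (n - j)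
        - 2 * bspl1 (m + n) (n + j) * bspl1 (m + n) (n - j)
        + bspl (m + n) (n + j) * bspl2 (m + n) (n - j)) : ℚ) : ℝ) (2 * (m + n) - 4) := by
  have key : ∀ l ∈ Ico 1 n, As (fun p => ((al m n p (n + l) 2 : ℤ) : ℝ) *
      ((al m n p (n - l) 0 : ℤ) : ℝ) - 2 * (((al m n p (n + l) 1 : ℤ) : ℝ) *
      ((al m n p (n - l) 1 : ℤ) : ℝ)) + ((al m n p (n + l) 0 : ℤ) : ℝ) *
      ((al m n p (n - l) 2 : ℤ) : ℝ))
      (((bspl2 (m + n) (n + l) : ℚ) : ℝ) * ((bspl (m + n) (n - l) : ℚ) : ℝ) -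
        2 * (((bspl1 (m + n) (n + l) : ℚ) : ℝ) * ((bspl1 (m + n) (n - l) : ℚ) : ℝ)) +
        ((bspl (m + n) (n + l) : ℚ) : ℝ) * ((bspl2 (m + n) (n - l) : ℚ) : ℝ))
      (2 * (m + n) - 4) := by
    intro l _
    have e1 : m + n - 1 = (m + n - 3) + 2 := by omega
    have e2 : m + n - 2 = (m + n - 3) + 1 := by omega
    have e3 : 2 * (m + n) - 4 = (m + n - 3) + (m + n - 3) + 2 := by omega
    have a0 : ∀ K e, As (fun p => ((al m n p K e : ℤ) : ℝ)) ((bspl (m + n) K : ℚ) : ℝ)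
        ((m + n - 3) + 2) := by
      intro K e
      rw [← e1]
      exact al_As m n K e hm hn
    have a1 : ∀ K e, As (fun p => ((al m n p K (e + 1) : ℤ) : ℝ) - ((al m n p K e : ℤ) : ℝ))
        ((bspl1 (m + n) K : ℚ) : ℝ) ((m + n - 3) + 1) := by
      intro K e
      rw [← e2]
      exact al1_As m n K e hm hn
    rw [e3]
    exact As.second (a0 (n + l) 1) (a1 (n + l) 1) (a1 (n + l) 0) (al2_As m n (n + l) hm hn)
      (a0 (n - l) 1) (a1 (n - l) 1) (a1 (n - l) 0) (al2_As m n (n - l) hm hn)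
  have h := As.sum _ key
  have e1 : (fun p => ∑ l ∈ Ico 1 n, (((al m n p (n + l) 2 : ℤ) : ℝ) *
      ((al m n p (n - l) 0 : ℤ) : ℝ) - 2 * (((al m n p (n + l) 1 : ℤ) : ℝ) *
      ((al m n p (n - l) 1 : ℤ) : ℝ)) + ((al m n p (n + l) 0 : ℤ) : ℝ) *
      ((al m n p (n - l) 2 : ℤ) : ℝ))) =
      fun p => ((∑ l ∈ Ico 1 n, (al m n p (n + l) 2 * al m n p (n - l) 0
        - 2 * (al m n p (n + l) 1 * al m n p (n - l) 1)
        + al m n p (n + l) 0 * al m n p (n - l) 2) : ℤ) : ℝ) := by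
    funext p
    push_cast
    rfl
  have e2 : (∑ l ∈ Ico 1 n, (((bspl2 (m + n) (n + l) : ℚ) : ℝ) *
      ((bspl (m + n) (n - l) : ℚ) : ℝ) -
        2 * (((bspl1 (m + n) (n + l) : ℚ) : ℝ) * ((bspl1 (m + n) (n - l) : ℚ) : ℝ)) +
        ((bspl (m + n) (n + l) : ℚ) : ℝ) * ((bspl2 (m + n) (n - l) : ℚ) : ℝ))) =
      ((∑ j ∈ Ico 1 n, (bspl2 (m + n) (n + j) * bspl (m + n) (n - j)
        - 2 * bspl1 (m + n) (n + j) * bspl1 (m + n) (n - j)
        + bspl (m + n) (n + j) * bspl2 (m + n) (n - j)) : ℚ) : ℝ) := by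
    push_cast
    refine Finset.sum_congr rfl fun l _ => ?_
    ring
  rw [e1, e2] at h
  exact h

end FSig
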