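import Pool.Agent.Lib.FSig.CntDefs

/-!
# CntAs: asymptotic calculus

`As F a r`: `|F p - a p^r| p ≤ C p^r` for all `p ≥ 1`.
`mul`: `F G - a b p^(r+s) = (F - a p^r) G + a p^r (G - b p^s)`, and `|G| ≤ (|b| + C') p^s` because `|G - b p^s| ≤ |G - b p^s| p ≤ C' p^s`.
`sum`: induction (`Finset.induction_on`), `add` and `zero`.
`choose`: induction on `r`: `(r+1) binom(y, r+1) = (y - r) binom(y, r)` (`Nat.choose_succ_right_eq`, also true in `ℝ` if `y < r`, both sides `0`), `y = K p + s`, `As (y - r) K 1` (`|s - r| p ≤ |s - r| p^1`), `mul`, `const_mul`; `(K^r / r!) * K / (r+1) = K^(r+1)/(r+1)!`; `r = 0`: `binom = 1`.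
-/

namespace FSig

open Finset

theorem As.zero (r : ℕ) : As (fun _ => 0) 0 r := by
  refine ⟨0, le_refl 0, fun p _ => ?_⟩
  rw [zero_mul, sub_zero, abs_zero, zero_mul]

private theorem cas_congr {F G : ℕ → ℝ} {a b : ℝ} {r s : ℕ} (h : As F a r)
    (hF : ∀ p, G p = F p) (ha : b = a) (hr : s = r) : As G b s := by
  have h1 : G = F := funext hF
  subst h1
  subst ha
  subst hr
  exact h

theorem As.add {F G : ℕ → ℝ} {a b : ℝ} {r : ℕ} (h1 : As F a r) (h2 : As G b r) :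
    As (fun p => F p + G p) (a + b) r := by
  obtain ⟨C, hC, hF⟩ := h1
  obtain ⟨D, hD, hG⟩ := h2
  refine ⟨C + D, add_nonneg hC hD, fun p hp => ?_⟩
  have hp0 : (0 : ℝ) ≤ (p : ℝ) := Nat.cast_nonneg p
  have e : F p + G p - (a + b) * (p : ℝ) ^ r =
      (F p - a * (p : ℝ) ^ r) + (G p - b * (p : ℝ) ^ r) := by ring
  calc |F p + G p - (a + b) * (p : ℝ) ^ r| * (p : ℝ)
      ≤ (|F p - a * (p : ℝ) ^ r| + |G p - b * (p : ℝ) ^ r|) * (p : ℝ) := by
        rw [e]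
        exact mul_le_mul_of_nonneg_right (abs_add_le _ _) hp0
    _ = |F p - a * (p : ℝ) ^ r| * (p : ℝ) + |G p - b * (p : ℝ) ^ r| * (p : ℝ) := by ring
    _ ≤ C * (p : ℝ) ^ r + D * (p : ℝ) ^ r := add_le_add (hF p hp) (hG p hp)
    _ = (C + D) * (p : ℝ) ^ r := by ring

theorem As.const_mul {F : ℕ → ℝ} {a : ℝ} {r : ℕ} (c : ℝ) (h : As F a r) :
    As (fun p => c * F p) (c * a) r := by
  obtain ⟨C, hC, hF⟩ := h
  refine ⟨|c| * C, mul_nonneg (abs_nonneg c) hC, fun p hp => ?_⟩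
  have e : c * F p - c * a * (p : ℝ) ^ r = c * (F p - a * (p : ℝ) ^ r) := by ring
  rw [e, abs_mul, mul_assoc, mul_assoc]
  exact mul_le_mul_of_nonneg_left (hF p hp) (abs_nonneg c)

theorem As.sub {F G : ℕ → ℝ} {a b : ℝ} {r : ℕ} (h1 : As F a r) (h2 : As G b r) :
    As (fun p => F p - G p) (a - b) r :=
  cas_congr (As.add h1 (As.const_mul (-1) h2)) (fun p => by ring) (by ring) rfl

theorem As.mul {F G : ℕ → ℝ} {a b : ℝ} {r s : ℕ} (h1 : As F a r) (h2 : As G b s) :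
    As (fun p => F p * G p) (a * b) (r + s) := by
  obtain ⟨C, hC, hF⟩ := h1
  obtain ⟨D, hD, hG⟩ := h2
  refine ⟨C * (|b| + D) + |a| * D, add_nonneg (mul_nonneg hC (add_nonneg (abs_nonneg b) hD))
    (mul_nonneg (abs_nonneg a) hD), fun p hp => ?_⟩
  have hp1 : (1 : ℝ) ≤ (p : ℝ) := by exact_mod_cast hp
  have hp0 : (0 : ℝ) ≤ (p : ℝ) := Nat.cast_nonneg p
  have hps : (0 : ℝ) ≤ (p : ℝ) ^ s := pow_nonneg hp0 s
  have hpr : (0 : ℝ) ≤ (p : ℝ) ^ r := pow_nonneg hp0 r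
  have hG1 : |G p - b * (p : ℝ) ^ s| ≤ D * (p : ℝ) ^ s :=
    le_trans (le_mul_of_one_le_right (abs_nonneg _) hp1) (hG p hp)
  have hG2 : |G p| ≤ (|b| + D) * (p : ℝ) ^ s := by
    have e : G p = b * (p : ℝ) ^ s + (G p - b * (p : ℝ) ^ s) := by ring
    calc |G p| = |b * (p : ℝ) ^ s + (G p - b * (p : ℝ) ^ s)| := by rw [← e]
      _ ≤ |b * (p : ℝ) ^ s| + |G p - b * (p : ℝ) ^ s| := abs_add_le _ _
      _ = |b| * (p : ℝ) ^ s + |G p - b * (p : ℝ) ^ s| := by rw [abs_mul, abs_of_nonneg hps]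
      _ ≤ |b| * (p : ℝ) ^ s + D * (p : ℝ) ^ s := by gcongr
      _ = (|b| + D) * (p : ℝ) ^ s := by ring
  have e : F p * G p - a * b * (p : ℝ) ^ (r + s) =
      (F p - a * (p : ℝ) ^ r) * G p + (a * (p : ℝ) ^ r) * (G p - b * (p : ℝ) ^ s) := by
    rw [pow_add]
    ring
  have hX := hF p hp
  have hY := hG p hp
  have hCr : 0 ≤ C * (p : ℝ) ^ r := mul_nonneg hC hpr
  calc |F p * G p - a * b * (p : ℝ) ^ (r + s)| * (p : ℝ)
      ≤ (|F p - a * (p : ℝ) ^ r| * |G p| + |a| * (p : ℝ) ^ r * |G p - b * (p : ℝ) ^ s|) *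
          (p : ℝ) := by
        rw [e]
        refine mul_le_mul_of_nonneg_right (le_trans (abs_add_le _ _) (le_of_eq ?_)) hp0
        rw [abs_mul, abs_mul, abs_mul, abs_of_nonneg hpr]
    _ = (|F p - a * (p : ℝ) ^ r| * (p : ℝ)) * |G p| +
          |a| * (p : ℝ) ^ r * (|G p - b * (p : ℝ) ^ s| * (p : ℝ)) := by ring
    _ ≤ (C * (p : ℝ) ^ r) * ((|b| + D) * (p : ℝ) ^ s) +
          |a| * (p : ℝ) ^ r * (D * (p : ℝ) ^ s) :=
        add_le_add (mul_le_mul hX hG2 (abs_nonneg _) hCr)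
          (mul_le_mul_of_nonneg_left hY (mul_nonneg (abs_nonneg a) hpr))
    _ = (C * (|b| + D) + |a| * D) * (p : ℝ) ^ (r + s) := by
        rw [pow_add]
        ring

theorem As.sum {ι : Type*} (S : Finset ι) {F : ι → ℕ → ℝ} {a : ι → ℝ} {r : ℕ}
    (h : ∀ i ∈ S, As (F i) (a i) r) : As (fun p => ∑ i ∈ S, F i p) (∑ i ∈ S, a i) r := by
  classical
  induction S using Finset.induction_on with
  | empty => exact cas_congr (As.zero r) (fun p => Finset.sum_empty) Finset.sum_empty rfl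
  | insert i S hi ih =>
    refine cas_congr (As.add (h i (Finset.mem_insert_self i S))
      (ih fun j hj => h j (Finset.mem_insert_of_mem hj))) (fun p => ?_) ?_ rfl
    · rw [Finset.sum_insert hi]
    · rw [Finset.sum_insert hi]

private theorem cas_lin (K s r : ℕ) :
    As (fun p => ((K * p + s : ℕ) : ℝ) - (r : ℝ)) (K : ℝ) 1 := by
  refine ⟨|(s : ℝ) - (r : ℝ)|, abs_nonneg _, fun p _ => ?_⟩
  have e : ((K * p + s : ℕ) : ℝ) - (r : ℝ) - (K : ℝ) * (p : ℝ) ^ 1 = (s : ℝ) - (r : ℝ) := by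
    push_cast
    ring
  rw [e, pow_one]

private theorem cas_succ (y r : ℕ) :
    ((y.choose (r + 1) : ℕ) : ℝ) = (1 / ((r : ℝ) + 1)) * (((y : ℝ) - (r : ℝ)) *
      ((y.choose r : ℕ) : ℝ)) := by
  have hr : ((r : ℝ) + 1) ≠ 0 := by positivity
  have h1 : ((y.choose (r + 1) : ℕ) : ℝ) * ((r : ℝ) + 1) =
      ((y : ℝ) - (r : ℝ)) * ((y.choose r : ℕ) : ℝ) := by
    rcases Nat.lt_or_ge y r with h | h
    · rw [Nat.choose_eq_zero_of_lt h, Nat.choose_eq_zero_of_lt (Nat.lt_succ_of_lt h)]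
      simp
    · have h2 := Nat.choose_succ_right_eq y r
      have h3 : ((y.choose (r + 1) * (r + 1) : ℕ) : ℝ) = ((y.choose r * (y - r) : ℕ) : ℝ) := by
        rw [h2]
      rw [Nat.cast_mul, Nat.cast_mul, Nat.cast_sub h, Nat.cast_add, Nat.cast_one] at h3
      rw [h3]
      ring
  rw [← h1]
  field_simp

theorem As.choose (K s r : ℕ) :
    As (fun p => ((K * p + s).choose r : ℝ)) ((K : ℝ) ^ r / (r.factorial : ℝ)) r := by
  induction r with
  | zero =>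
    refine ⟨0, le_refl 0, fun p _ => ?_⟩
    simp
  | succ r ih =>
    refine cas_congr (As.const_mul (1 / ((r : ℝ) + 1)) (As.mul (cas_lin K s r) ih))
      (fun p => cas_succ (K * p + s) r) ?_ (Nat.add_comm r 1)
    rw [Nat.factorial_succ, Nat.cast_mul, Nat.cast_add, Nat.cast_one, pow_succ]
    have h1 : ((r : ℝ) + 1) ≠ 0 := by positivity
    have h2 : ((r.factorial : ℕ) : ℝ) ≠ 0 := Nat.cast_ne_zero.mpr (Nat.factorial_ne_zero r)
    field_simp

/-- second difference of a product -/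
theorem As.second {f0 f1 f2 g0 g1 g2 : ℕ → ℝ} {a a' a'' b b' b'' : ℝ} {r s : ℕ}
    (hf1 : As f1 a (r + 2)) (hd1 : As (fun p => f2 p - f1 p) a' (r + 1))
    (hd2 : As (fun p => f1 p - f0 p) a' (r + 1))
    (hdd : As (fun p => f2 p - 2 * f1 p + f0 p) a'' r)
    (hg1 : As g1 b (s + 2)) (he1 : As (fun p => g2 p - g1 p) b' (s + 1))
    (he2 : As (fun p => g1 p - g0 p) b' (s + 1))
    (hee : As (fun p => g2 p - 2 * g1 p + g0 p) b'' s) :
    As (fun p => f2 p * g0 p - 2 * (f1 p * g1 p) + f0 p * g2 p)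
      (a'' * b - 2 * (a' * b') + a * b'') (r + s + 2) := by
  have t1 : As (fun p => (f2 p - 2 * f1 p + f0 p) * g1 p) (a'' * b) (r + s + 2) :=
    cas_congr (As.mul hdd hg1) (fun p => rfl) rfl (by omega)
  have t2 : As (fun p => f1 p * (g2 p - 2 * g1 p + g0 p)) (a * b'') (r + s + 2) :=
    cas_congr (As.mul hf1 hee) (fun p => rfl) rfl (by omega)
  have t3 : As (fun p => (f2 p - f1 p) * (g1 p - g0 p)) (a' * b') (r + s + 2) :=
    cas_congr (As.mul hd1 he2) (fun p => rfl) rfl (by omega)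
  have t4 : As (fun p => (f1 p - f0 p) * (g2 p - g1 p)) (a' * b') (r + s + 2) :=
    cas_congr (As.mul hd2 he1) (fun p => rfl) rfl (by omega)
  refine cas_congr (As.sub (As.add t1 t2) (As.add t3 t4)) (fun p => by ring) (by ring) rfl

end FSig
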