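import Pool.Agent.Lib.FSig.CntDefs

/-!
# CntBd1: a bound for the number of invariants

`sw_split`: `q ↦ (q v, update q v 0)` is a bijection from `blw d` to `range (d v + 1) × blw (update d v 0)` (inverse `(x, q') ↦ update q' v x`), and `wq d q = wq (update d v 0) (update q v 0) + (d v - 2 q v)` (`Finset.sum_update_of_mem`, or split off `v` with `Finset.add_sum_erase`; the term at `v` is `0` on the right).
`Finset.sum_sigma'` / `Finset.sum_product'`, `Finset.sum_bij'`.
`sw_neg`: `q ↦ d - q` is an involution of `blw d` with `wq d (d - q) = -wq d q`.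
`sw_abs`: `|∑| ≤ ∑ |.| ≤ card (blw d) = ∏ (d v + 1)` (`Fintype.card_piFinset`, `card_range`).
`sw_gI_bound`: write `ε_x(j) = [j = x]`. Split at `v1` and exchange: `csw gI d = csw h1 d1`, `d1 = update d v1 0`, `h1 j = ∑_{q ≤ d v1} ([j + d v1 - 2q = 0] - [j + d v1 - 2q = 2]) = [j = -(d v1)] - [j = d v1 + 2]` (telescoping in `q`, `Finset.sum_range_sub'`),
and by `sw_neg` for the first indicator `csw gI d = csw (ε_(d v1) - ε_(d v1 + 2)) d1`. Split at `v2`: `h2 j = ∑_{q ≤ d v2} ([j + d v2 - 2q = d v1] - [j + d v2 - 2 q = d v1 + 2]) = [j = d v1 - d v2] - [j = d v1 + d v2 + 2]` (telescoping). Split at `v3`: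
`h3 j = ∑_{q ≤ d v3} [j + d v3 - 2q = d v1 - d v2] - ∑_{q ≤ d v3} [j + d v3 - 2q = d v1 + d v2 + 2]`, each sum is `0` or `1` (at most one `q`), so `|h3 j| ≤ 1`; `sw_abs`.
-/

namespace FSig

open Finset

variable {V : Type*} [Fintype V] [DecidableEq V]

private theorem mem_blw (d q : V → ℕ) : q ∈ blw d ↔ ∀ u, q u ≤ d u := by
  simp [blw, Fintype.mem_piFinset]

private theorem wq_upd (d q : V → ℕ) (v : V) :
    wq d q = wq (Function.update d v 0) (Function.update q v 0)
      + ((d v : ℤ) - 2 * (q v : ℤ)) := by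
  unfold wq
  rw [← Finset.add_sum_erase univ _ (Finset.mem_univ v),
    ← Finset.add_sum_erase univ
      (fun u => ((Function.update d v 0 u : ℕ) : ℤ) - 2 * ((Function.update q v 0 u : ℕ) : ℤ))
      (Finset.mem_univ v)]
  have h : ∑ u ∈ univ.erase v,
      (((Function.update d v 0 u : ℕ) : ℤ) - 2 * ((Function.update q v 0 u : ℕ) : ℤ))
      = ∑ u ∈ univ.erase v, ((d u : ℤ) - 2 * (q u : ℤ)) := by
    refine Finset.sum_congr rfl fun u hu => ?_
    have hne := Finset.ne_of_mem_erase hu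
    rw [Function.update_of_ne hne, Function.update_of_ne hne]
  rw [h]
  simp only [Function.update_self]
  push_cast
  ring

theorem sw_split (g : ℤ → ℤ) (d : V → ℕ) (v : V) :
    csw g d = ∑ x ∈ range (d v + 1),
      csw (fun j => g (j + ((d v : ℤ) - 2 * (x : ℤ)))) (Function.update d v 0) := by
  unfold csw
  rw [← Finset.sum_product' (range (d v + 1)) (blw (Function.update d v 0))
    (fun x q => g (wq (Function.update d v 0) q + ((d v : ℤ) - 2 * (x : ℤ))))]
  refine Finset.sum_nbij' (fun q => (q v, Function.update q v 0))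
    (fun z => Function.update z.2 v z.1) ?_ ?_ ?_ ?_ ?_
  · intro q hq
    rw [mem_blw] at hq
    rw [Finset.mem_product]
    refine ⟨Finset.mem_range.2 (Nat.lt_succ_of_le (hq v)), ?_⟩
    rw [mem_blw]
    intro u
    by_cases hu : u = v
    · subst hu
      simp
    · simp only
      rw [Function.update_of_ne hu, Function.update_of_ne hu]
      exact hq u
  · rintro ⟨x, q⟩ hz
    rw [Finset.mem_product] at hz
    obtain ⟨h1, h2⟩ := hz
    simp only at h1 h2 ⊢
    rw [mem_blw] at h2 ⊢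
    intro u
    by_cases hu : u = v
    · subst hu
      rw [Function.update_self]
      exact Nat.lt_succ_iff.1 (Finset.mem_range.1 h1)
    · rw [Function.update_of_ne hu]
      have := h2 u
      rwa [Function.update_of_ne hu] at this
  · intro q _
    simp
  · rintro ⟨x, q⟩ hz
    rw [Finset.mem_product] at hz
    obtain ⟨_, h2⟩ := hz
    simp only at h2 ⊢
    rw [mem_blw] at h2
    have h3 := h2 v
    rw [Function.update_self] at h3
    have h4 : q v = 0 := Nat.le_zero.1 h3
    refine Prod.ext (by simp) ?_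
    simp only [Function.update_idem]
    rw [← h4, Function.update_eq_self]
  · intro q _
    simp only
    rw [wq_upd d q v]

theorem sw_sum {ι : Type*} (A : Finset ι) (g : ι → ℤ → ℤ) (d : V → ℕ) :
    csw (fun j => ∑ x ∈ A, g x j) d = ∑ x ∈ A, csw (g x) d := by
  unfold csw
  exact Finset.sum_comm

theorem sw_neg (g : ℤ → ℤ) (d : V → ℕ) : csw (fun j => g (-j)) d = csw g d := by
  unfold csw
  refine Finset.sum_nbij' (fun q u => d u - q u) (fun q u => d u - q u) ?_ ?_ ?_ ?_ ?_
  · intro q _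
    rw [mem_blw]
    intro u
    exact Nat.sub_le _ _
  · intro q _
    rw [mem_blw]
    intro u
    exact Nat.sub_le _ _
  · intro q hq
    rw [mem_blw] at hq
    funext u
    exact Nat.sub_sub_self (hq u)
  · intro q hq
    rw [mem_blw] at hq
    funext u
    exact Nat.sub_sub_self (hq u)
  · intro q hq
    rw [mem_blw] at hq
    change g (-wq d q) = g (wq d fun u => d u - q u)
    congr 1
    unfold wq
    rw [← Finset.sum_neg_distrib]
    refine Finset.sum_congr rfl fun u _ => ?_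
    have h : ((d u - q u : ℕ) : ℤ) = (d u : ℤ) - (q u : ℤ) := by
      have := hq u
      omega
    rw [h]
    ring

theorem sw_abs (g : ℤ → ℤ) (hg : ∀ j, |g j| ≤ 1) (d : V → ℕ) :
    |csw g d| ≤ ∏ v, ((d v : ℤ) + 1) := by
  unfold csw
  refine (Finset.abs_sum_le_sum_abs _ _).trans ?_
  refine (Finset.sum_le_sum fun q _ => hg (wq d q)).trans ?_
  rw [Finset.sum_const, blw, Fintype.card_piFinset]
  simp

private theorem tel_sw (F : ℤ → ℤ) (d : V → ℕ) (v : V) :
    csw (fun j => F j - F (j - 2)) d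
      = csw (fun j => F (j + (d v : ℤ)) - F (j - (d v : ℤ) - 2)) (Function.update d v 0) := by
  rw [sw_split _ d v]
  rw [← sw_sum (range (d v + 1))
    (fun x j => F (j + ((d v : ℤ) - 2 * (x : ℤ))) - F (j + ((d v : ℤ) - 2 * (x : ℤ)) - 2))]
  congr 1
  funext j
  have h := Finset.sum_range_sub' (fun x : ℕ => F (j + ((d v : ℤ) - 2 * (x : ℤ)))) (d v + 1)
  have h1 : ∀ x ∈ range (d v + 1),
      F (j + ((d v : ℤ) - 2 * (x : ℤ))) - F (j + ((d v : ℤ) - 2 * (x : ℤ)) - 2)
      = F (j + ((d v : ℤ) - 2 * (x : ℤ))) - F (j + ((d v : ℤ) - 2 * ((x + 1 : ℕ) : ℤ))) := by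
    intro x _
    have : j + ((d v : ℤ) - 2 * (x : ℤ)) - 2 = j + ((d v : ℤ) - 2 * ((x + 1 : ℕ) : ℤ)) := by
      push_cast
      ring
    rw [this]
  rw [Finset.sum_congr rfl h1, h]
  congr 2
  all_goals
    push_cast
    ring

private theorem sum01 (a : ℤ) (N : ℕ) :
    0 ≤ ∑ x ∈ range N, (if a - 2 * (x : ℤ) = 0 then (1 : ℤ) else 0) ∧
      ∑ x ∈ range N, (if a - 2 * (x : ℤ) = 0 then (1 : ℤ) else 0) ≤ 1 := by
  rw [Finset.sum_boole]
  refine ⟨by positivity, ?_⟩
  have : ((range N).filter fun x => a - 2 * ((x : ℕ) : ℤ) = 0).card ≤ 1 := by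
    rw [Finset.card_le_one]
    intro x hx y hy
    rw [Finset.mem_filter] at hx hy
    omega
  exact_mod_cast this

theorem sw_gI_bound (d : V → ℕ) {v1 v2 v3 : V} (h12 : v1 ≠ v2) (h13 : v1 ≠ v3) (h23 : v2 ≠ v3) :
    |csw gI d| ≤ ∏ v, ((Function.update (Function.update (Function.update d v1 0) v2 0) v3 0 v : ℤ)
      + 1) := by
  have hF : ∃ F : ℤ → ℤ, F = fun j => if j = 0 then (1 : ℤ) else 0 := ⟨_, rfl⟩
  obtain ⟨F, hF⟩ := hF
  have hFn : ∀ j, F (-j) = F j := by
    intro j
    rw [hF]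
    simp
  have hgI : gI = fun j => F j - F (j - 2) := by
    funext j
    rw [hF]
    simp only [gI]
    congr 1
    by_cases h : j = 2
    · rw [if_pos h, if_pos (by omega)]
    · rw [if_neg h, if_neg (by omega)]
  have e1 : csw gI d = csw (fun j => F (j - (d v1 : ℤ)) - F (j - 2 - (d v1 : ℤ)))
      (Function.update d v1 0) := by
    rw [hgI, tel_sw F d v1]
    have hsub : ∀ (A B : ℤ → ℤ) (e : V → ℕ), csw (fun j => A j - B j) e = csw A e - csw B e := by
      intro A B e
      unfold csw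
      exact Finset.sum_sub_distrib _ _
    rw [hsub, hsub]
    have h2 : csw (fun j => F (j + (d v1 : ℤ))) (Function.update d v1 0)
        = csw (fun j => F (j - (d v1 : ℤ))) (Function.update d v1 0) := by
      rw [← sw_neg (fun j => F (j + (d v1 : ℤ)))]
      congr 1
      funext j
      have : -j + (d v1 : ℤ) = -(j - (d v1 : ℤ)) := by ring
      rw [this, hFn]
    have h3 : (fun j => F (j - (d v1 : ℤ) - 2)) = fun j => F (j - 2 - (d v1 : ℤ)) := by
      funext j
      congr 1
      ring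
    rw [h2, h3]
  rw [e1, tel_sw (fun j => F (j - (d v1 : ℤ))) (Function.update d v1 0) v2,
    Function.update_of_ne h12.symm]
  rw [sw_split _ (Function.update (Function.update d v1 0) v2 0) v3,
    Function.update_of_ne h23.symm, Function.update_of_ne h13.symm]
  rw [← sw_sum (range (d v3 + 1)) (fun x j =>
    F (j + ((d v3 : ℤ) - 2 * (x : ℤ)) + (d v2 : ℤ) - (d v1 : ℤ))
      - F (j + ((d v3 : ℤ) - 2 * (x : ℤ)) - (d v2 : ℤ) - 2 - (d v1 : ℤ)))]
  refine sw_abs _ (fun j => ?_) _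
  rw [Finset.sum_sub_distrib]
  have k1 := sum01 (j + (d v3 : ℤ) + (d v2 : ℤ) - (d v1 : ℤ)) (d v3 + 1)
  have k2 := sum01 (j + (d v3 : ℤ) - (d v2 : ℤ) - 2 - (d v1 : ℤ)) (d v3 + 1)
  have l1 : ∑ x ∈ range (d v3 + 1), F (j + ((d v3 : ℤ) - 2 * (x : ℤ)) + (d v2 : ℤ) - (d v1 : ℤ))
      = ∑ x ∈ range (d v3 + 1),
        (if j + (d v3 : ℤ) + (d v2 : ℤ) - (d v1 : ℤ) - 2 * (x : ℤ) = 0 then (1 : ℤ) else 0) := by
    refine Finset.sum_congr rfl fun x _ => ?_
    rw [hF]
    simp only
    congr 1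
    rw [eq_iff_iff]
    constructor <;> intro h <;> linarith
  have l2 : ∑ x ∈ range (d v3 + 1),
        F (j + ((d v3 : ℤ) - 2 * (x : ℤ)) - (d v2 : ℤ) - 2 - (d v1 : ℤ))
      = ∑ x ∈ range (d v3 + 1),
        (if j + (d v3 : ℤ) - (d v2 : ℤ) - 2 - (d v1 : ℤ) - 2 * (x : ℤ) = 0 then (1 : ℤ)
          else 0) := by
    refine Finset.sum_congr rfl fun x _ => ?_
    rw [hF]
    simp only
    congr 1
    rw [eq_iff_iff]
    constructor <;> intro h <;> linarith
  rw [l1, l2, abs_le]
  constructor <;> linarith [k1.1, k1.2, k2.1, k2.2]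

end FSig
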