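import Pool.Agent.Lib.FSig.CntDefs

/-!
# CntBr: from `Finsupp` to functions

`V` finite: `Icc (0 : V →₀ ℕ) d` corresponds to `blw d` under `Finsupp.equivFunOnFinite` (`Finsupp.le_def`,
`Fintype.mem_piFinset`), `d.degree = ∑ v, d v` (`Finsupp.degree_eq_sum`), so `(d.degree : ℤ) - 2 q.degree = wq d q` (`Finset.sum_sub_distrib`, `Finset.mul_sum`, casts).
`sw_eq`: `Finset.card_filter`, `Finset.sum_nbij'` (or `Finset.sum_bij'`) with `q ↦ ⇑q`, inverse `Finsupp.equivFunOnFinite.symm`.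
`invN_eq`, `fus_eq`: write the cardinalities as sums of `if`-expressions (`Finset.card_filter`, push_cast), `Finset.sum_sub_distrib`, `sw_eq`; `j = 2`: `wm d 2`.
`boxS_sum`: the same bijection between `boxS m n lo hi` and `bxF m n lo hi` (`Bal d ↔ BalF ⇑d` is `Iff.rfl`; `mem_Icc`, `Finsupp.le_def`, `cstV`).
`Atot_eq`: unfold; `bar p d` as a function is `barF p d` (`Finsupp.mapRange_apply`).
-/

namespace FSig

open Finset

private theorem CntBr_deg {V : Type*} [Fintype V] [DecidableEq V] (d q : V →₀ ℕ) :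
    (d.degree : ℤ) - 2 * (q.degree : ℤ) = wq (⇑d) (⇑q) := by
  unfold wq
  rw [Finsupp.degree_eq_sum, Finsupp.degree_eq_sum, Finset.sum_sub_distrib, ← Finset.mul_sum]
  push_cast
  ring

theorem sw_eq {V : Type*} [Fintype V] [DecidableEq V] (g : ℤ → ℤ) (d : V →₀ ℕ) :
    csw g (⇑d) = ∑ q ∈ Icc (0 : V →₀ ℕ) d, g ((d.degree : ℤ) - 2 * (q.degree : ℤ)) := by
  unfold csw
  symm
  refine Finset.sum_bij' (fun q _ => (⇑q : V → ℕ)) (fun q _ => Finsupp.equivFunOnFinite.symm q)
    ?_ ?_ ?_ ?_ ?_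
  · intro q hq
    rw [Finset.mem_Icc] at hq
    unfold blw
    rw [Fintype.mem_piFinset]
    intro v
    rw [Finset.mem_range]
    have h := hq.2 v
    omega
  · intro q hq
    unfold blw at hq
    rw [Fintype.mem_piFinset] at hq
    rw [Finset.mem_Icc]
    refine ⟨fun v => Nat.zero_le _, fun v => ?_⟩
    have h := hq v
    rw [Finset.mem_range] at h
    show q v ≤ d v
    omega
  · intro q _
    exact Finsupp.equivFunOnFinite.symm_apply_apply q
  · intro q _
    rfl
  · intro q _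
    rw [CntBr_deg]

theorem invN_eq {V : Type*} [Fintype V] [DecidableEq V] (d : V →₀ ℕ) : invN d = csw gI (⇑d) := by
  rw [sw_eq]
  unfold invN wm gI
  rw [Finset.sum_sub_distrib, Finset.card_filter, Finset.card_filter]
  push_cast
  rfl

theorem fus_eq {V : Type*} [Fintype V] [DecidableEq V] (p : ℕ) (d : V →₀ ℕ) :
    fus p d = csw (gF p) (⇑d) := by
  rw [sw_eq]
  unfold fus gF
  rw [Finset.sum_sub_distrib, Finset.card_filter, Finset.card_filter]
  push_cast
  rfl

theorem coe_bar {V : Type*} [Fintype V] [DecidableEq V] (p : ℕ) (d : V →₀ ℕ) :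
    ⇑(bar p d) = barF p (⇑d) := by
  unfold bar barF
  rfl

theorem boxS_sum (m n lo hi : ℕ) (f : (Vx m n → ℕ) → ℤ) :
    ∑ d ∈ boxS m n lo hi, f (⇑d) = ∑ d ∈ bxF m n lo hi, f d := by
  classical
  refine Finset.sum_bij' (fun q _ => (⇑q : Vx m n → ℕ))
    (fun q _ => Finsupp.equivFunOnFinite.symm q) ?_ ?_ ?_ ?_ ?_
  · intro q hq
    unfold boxS at hq
    rw [Finset.mem_filter, Finset.mem_Icc] at hq
    unfold bxF
    rw [Finset.mem_filter, Fintype.mem_piFinset]
    refine ⟨fun v => ?_, hq.2⟩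
    rw [Finset.mem_Icc]
    exact ⟨hq.1.1 v, hq.1.2 v⟩
  · intro q hq
    unfold bxF at hq
    rw [Finset.mem_filter, Fintype.mem_piFinset] at hq
    unfold boxS
    rw [Finset.mem_filter, Finset.mem_Icc]
    refine ⟨⟨fun v => ?_, fun v => ?_⟩, hq.2⟩
    · exact (Finset.mem_Icc.1 (hq.1 v)).1
    · exact (Finset.mem_Icc.1 (hq.1 v)).2
  · intro q _
    exact Finsupp.equivFunOnFinite.symm_apply_apply q
  · intro q _
    rfl
  · intro q _
    rfl

theorem Atot_eq (m n p : ℕ) : Atot m n p = A1 m n p + A2 m n p + A3 m n p := by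
  unfold Atot A1 A2 A3
  congr 1
  · congr 1
    · rw [← boxS_sum m n 0 (2 * p - 2)
        (fun d => csw (fun j => gI j - gF p j) (barF p d))]
      refine Finset.sum_congr rfl fun d _ => ?_
      rw [invN_eq, fus_eq, coe_bar]
      unfold csw
      rw [Finset.sum_sub_distrib]
    · rw [← boxS_sum m n 0 (p - 2) (fun d => csw (gF p) d)]
      refine Finset.sum_congr rfl fun d _ => ?_
      rw [fus_eq]
  · rw [← boxS_sum m n p (2 * p - 2) (fun d => csw (gF p) (barF p d))]
    refine Finset.sum_congr rfl fun d _ => ?_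
    rw [fus_eq, coe_bar]

end FSig
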