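import Pool.Agent.Lib.FSig.CntBd1
import Pool.Agent.Lib.FSig.CntBr

/-!
# CntBd2: the boundary terms

`inv_le`: `sw_gI_bound` with three different vectors `v1 v2 v3` of `Vx m n` (two rows and a column, `m, n ≥ 3`): the factors at `v1, v2, v3` are `1`, all others are `≤ M + 1`: `Finset.prod_le_pow_card`-style: the product over `univ` is the product over `univ \ {v1, v2, v3}` (`Finset.prod_subset` or `prod_sdiff`), which has `m + n - 3` elements (`Finset.prod_le_pow_card`).
`bal_card`: let `v` be a row (columns alike: or exchange the roles). Take `v' ≠ v` (`m + n ≥ 2`). The map `d ↦ update (update d v 0) v' 0` from the set into `Fintype.piFinset fun u => if u = v ∨ u = v' then {0} else range (M + 1)` is injective on the set: `d v = c` and all values off `v, v'` are known, and the balance equation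
(`BalF d`, i.e. `∑ d (inl i) = ∑ d (inr j)`) determines `d v'` (write the equation as `∑_u sgn u * d u = 0`, `sgn = ±1`). The target has `(M+1)^(m+n-2)` elements (`Fintype.card_piFinset`, `Finset.prod_ite`).
`border`: the condition is `⋃_v {d v = p - 1}`: the sum is at most `∑_v ∑_{d v = p-1}` (`Finset.sum_le_card_nsmul`, `Finset.card_biUnion_le`), so at most `(m+n) (2p-1)^(m+n-2) (2p-1)^(m+n-3) ≤ (m+n) 2^(2(m+n)-5) p^(2(m+n)-5)`. `invN_eq`, `coe_bar`, `boxS_sum` (used with `f d = if ∃ v, d v = p - 1 then |csw gI d| else 0`); `barF p d v ≤ d v`.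
-/

namespace FSig

open Finset

private theorem bd2_card (m n : ℕ) : Fintype.card (Vx m n) = m + n := by
  unfold Vx
  rw [Fintype.card_sum, Fintype.card_fin, Fintype.card_fin]

theorem inv_le (m n M : ℕ) (hm : 3 ≤ m) (hn : 3 ≤ n) (d : Vx m n → ℕ) (hd : ∀ v, d v ≤ M) :
    |csw gI d| ≤ ((M : ℤ) + 1) ^ (m + n - 3) := by
  set v1 : Vx m n := Sum.inl ⟨0, by omega⟩ with hv1
  set v2 : Vx m n := Sum.inl ⟨1, by omega⟩ with hv2
  set v3 : Vx m n := Sum.inr ⟨0, by omega⟩ with hv3
  have h12 : v1 ≠ v2 := by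
    rw [hv1, hv2]
    intro h
    simp at h
  have h13 : v1 ≠ v3 := by
    rw [hv1, hv3]
    intro h
    simp at h
  have h23 : v2 ≠ v3 := by
    rw [hv2, hv3]
    intro h
    simp at h
  have h0 := sw_gI_bound d h12 h13 h23
  set e : Vx m n → ℕ := Function.update (Function.update (Function.update d v1 0) v2 0) v3 0
    with he
  have e3 : e v3 = 0 := by rw [he, Function.update_self]
  have e2 : e v2 = 0 := by rw [he, Function.update_of_ne h23, Function.update_self]
  have e1 : e v1 = 0 := by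
    rw [he, Function.update_of_ne h13, Function.update_of_ne h12, Function.update_self]
  have hcard : ((univ : Finset (Vx m n)) \ {v1, v2, v3}).card = m + n - 3 := by
    rw [card_sdiff_of_subset (subset_univ _), card_univ, bd2_card,
      card_insert_of_notMem (by simp [h12, h13]), card_insert_of_notMem (by simp [h23]),
      card_singleton]
  have hle : ∀ v, e v ≤ M := by
    intro v
    by_cases h3 : v = v3
    · rw [h3, e3]
      exact Nat.zero_le _
    by_cases h2 : v = v2
    · rw [h2, e2]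
      exact Nat.zero_le _
    by_cases h1 : v = v1
    · rw [h1, e1]
      exact Nat.zero_le _
    rw [he, Function.update_of_ne h3, Function.update_of_ne h2, Function.update_of_ne h1]
    exact hd v
  have h4 : ∏ v, ((e v : ℤ) + 1) = ∏ v ∈ univ \ {v1, v2, v3}, ((e v : ℤ) + 1) := by
    symm
    apply prod_subset (subset_univ _)
    intro v _ hv
    rw [mem_sdiff, not_and, not_not] at hv
    have h5 := hv (mem_univ v)
    rw [mem_insert, mem_insert, mem_singleton] at h5
    rcases h5 with h5 | h5 | h5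
    · rw [h5, e1]
      rfl
    · rw [h5, e2]
      rfl
    · rw [h5, e3]
      rfl
  refine h0.trans ?_
  rw [h4, ← hcard, ← prod_const]
  apply prod_le_prod
  · intro v _
    positivity
  · intro v _
    have := hle v
    have h6 : (e v : ℤ) ≤ M := by exact_mod_cast this
    linarith

theorem invN_le (m n M : ℕ) (hm : 3 ≤ m) (hn : 3 ≤ n) (d : Vx m n →₀ ℕ) (hd : ∀ v, d v ≤ M) :
    |invN d| ≤ ((M : ℤ) + 1) ^ (m + n - 3) := by
  rw [invN_eq]
  exact inv_le m n M hm hn _ hd

/-- the balance equation with signs -/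
private theorem bd2_bal {m n : ℕ} (d : Vx m n → ℕ) (h : BalF d) :
    ∑ u : Vx m n, (Sum.elim (fun _ => (1 : ℤ)) (fun _ => -1) u) * (d u : ℤ) = 0 := by
  have h1 : ∑ u : Fin m ⊕ Fin n, (Sum.elim (fun _ => (1 : ℤ)) (fun _ => -1) u) * (d u : ℤ) =
      ∑ i, (d (Sum.inl i) : ℤ) - ∑ j, (d (Sum.inr j) : ℤ) := by
    rw [Fintype.sum_sum_type]
    simp only [Sum.elim_inl, Sum.elim_inr, one_mul, neg_mul, sum_neg_distrib]
    ring
  have h2 : ∑ i, (d (Sum.inl i) : ℤ) = ∑ j, (d (Sum.inr j) : ℤ) := by
    unfold BalF at h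
    exact_mod_cast h
  exact h1.trans (sub_eq_zero.2 h2)

theorem bal_card (m n M c : ℕ) (hm : 3 ≤ m) (hn : 3 ≤ n) (v : Vx m n) :
    ((bxF m n 0 M).filter fun d => d v = c).card ≤ (M + 1) ^ (m + n - 2) := by
  have hnt : Nontrivial (Vx m n) := by
    rw [← Fintype.one_lt_card_iff_nontrivial, bd2_card]
    omega
  obtain ⟨w, hw⟩ := exists_ne v
  set t : Vx m n → Finset ℕ := fun u => if u = v ∨ u = w then {0} else range (M + 1) with ht
  have hcard : (Fintype.piFinset t).card = (M + 1) ^ (m + n - 2) := by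
    have hc : ((univ : Finset (Vx m n)) \ {v, w}).card = m + n - 2 := by
      rw [card_sdiff_of_subset (subset_univ _), card_univ, bd2_card,
        card_insert_of_notMem (by simp [Ne.symm hw]), card_singleton]
    rw [Fintype.card_piFinset, ← hc, ← prod_const]
    symm
    apply prod_subset_one_on_sdiff (subset_univ _)
    · intro u hu
      rw [mem_sdiff, mem_sdiff, not_and, not_not] at hu
      have h5 := hu.2 (mem_univ u)
      rw [mem_insert, mem_singleton] at h5
      simp only [ht]
      rw [if_pos h5, card_singleton]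
    · intro u hu
      rw [mem_sdiff, mem_insert, mem_singleton] at hu
      simp only [ht]
      rw [if_neg hu.2, card_range]
  rw [← hcard]
  apply card_le_card_of_injOn (fun d u => if u = v ∨ u = w then 0 else d u)
  · intro d hd
    rw [mem_coe, mem_filter] at hd
    unfold bxF at hd
    rw [mem_filter, Fintype.mem_piFinset] at hd
    rw [mem_coe, Fintype.mem_piFinset]
    intro u
    simp only [ht]
    split_ifs
    · exact mem_singleton_self 0
    · have h6 := mem_Icc.1 (hd.1.1 u)
      rw [mem_range]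
      omega
  · intro d hd d' hd' h
    rw [mem_coe, mem_filter] at hd hd'
    unfold bxF at hd hd'
    rw [mem_filter] at hd hd'
    have hv : d v = d' v := hd.2.trans hd'.2.symm
    have hu : ∀ u, u ≠ w → d u = d' u := by
      intro u huw
      by_cases huv : u = v
      · rw [huv, hv]
      · have h7 := congrFun h u
        simp only at h7
        have h8 : ¬ (u = v ∨ u = w) := by
          rintro (h9 | h9)
          · exact huv h9
          · exact huw h9
        rwa [if_neg h8, if_neg h8] at h7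
    have h1 := bd2_bal d hd.1.2
    have h2 := bd2_bal d' hd'.1.2
    have h3 : (Sum.elim (fun _ => (1 : ℤ)) (fun _ => -1) w) * (d w : ℤ) =
        (Sum.elim (fun _ => (1 : ℤ)) (fun _ => -1) w) * (d' w : ℤ) := by
      rw [← add_sum_erase _ _ (mem_univ w)] at h1 h2
      have h4 : ∑ u ∈ univ.erase w, (Sum.elim (fun _ => (1 : ℤ)) (fun _ => -1) u) * (d u : ℤ) =
          ∑ u ∈ univ.erase w, (Sum.elim (fun _ => (1 : ℤ)) (fun _ => -1) u) * (d' u : ℤ) := by
        apply sum_congr rfl
        intro u huw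
        rw [hu u (ne_of_mem_erase huw)]
      rw [h4] at h1
      linarith
    have h5 : (d w : ℤ) = d' w := by
      cases w with
      | inl i => simpa using h3
      | inr j => simpa using h3
    funext u
    by_cases huw : u = w
    · rw [huw]
      exact_mod_cast h5
    · exact hu u huw

private theorem bd2_sum (m n p : ℕ) (hm : 3 ≤ m) (hn : 3 ≤ n) (G : (Vx m n → ℕ) → ℤ)
    (hG : ∀ d, (∀ v, d v ≤ 2 * p - 2) → |G d| ≤ (((2 * p - 2 : ℕ) : ℤ) + 1) ^ (m + n - 3)) :
    ∑ d ∈ bxF m n 0 (2 * p - 2), (if ∃ v, d v = p - 1 then |G d| else 0) ≤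
      ((m + n : ℕ) : ℤ) * (((2 * p - 2 : ℕ) : ℤ) + 1) ^ (m + n - 2) *
        (((2 * p - 2 : ℕ) : ℤ) + 1) ^ (m + n - 3) := by
  set B : ℤ := (((2 * p - 2 : ℕ) : ℤ) + 1) ^ (m + n - 3) with hB
  have hB0 : 0 ≤ B := by positivity
  have h1 : ∀ d ∈ bxF m n 0 (2 * p - 2), (if ∃ v, d v = p - 1 then |G d| else 0) ≤
      ∑ v, if d v = p - 1 then B else 0 := by
    intro d hd
    unfold bxF at hd
    rw [mem_filter, Fintype.mem_piFinset] at hd
    split_ifs with h
    · obtain ⟨v, hv⟩ := h
      refine (hG d fun v => (mem_Icc.1 (hd.1 v)).2).trans ?_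
      have h2 : (if d v = p - 1 then B else 0) = B := if_pos hv
      conv_lhs => rw [← h2]
      exact single_le_sum (f := fun v => if d v = p - 1 then B else 0)
        (fun u _ => by
          split_ifs
          · exact hB0
          · exact le_rfl) (mem_univ v)
    · exact sum_nonneg fun u _ => by
        split_ifs
        · exact hB0
        · exact le_rfl
  refine (sum_le_sum h1).trans ?_
  rw [sum_comm]
  have h2 : ∀ v ∈ (univ : Finset (Vx m n)),
      ∑ d ∈ bxF m n 0 (2 * p - 2), (if d v = p - 1 then B else 0) ≤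
        (((2 * p - 2 : ℕ) : ℤ) + 1) ^ (m + n - 2) * B := by
    intro v _
    rw [← sum_filter, sum_const, nsmul_eq_mul]
    apply mul_le_mul_of_nonneg_right _ hB0
    have h3 := bal_card m n (2 * p - 2) (p - 1) hm hn v
    exact_mod_cast h3
  refine (sum_le_sum h2).trans ?_
  rw [sum_const, card_univ, bd2_card, nsmul_eq_mul, mul_assoc]

theorem border (m n : ℕ) (hm : 3 ≤ m) (hn : 3 ≤ n) : ∃ C : ℝ, ∀ p : ℕ, 1 ≤ p →
    ((∑ d ∈ boxS m n 0 (2 * p - 2), (if ∃ v, d v = p - 1 then |invN d| else 0) : ℤ) : ℝ)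
      ≤ C * (p : ℝ) ^ (2 * (m + n) - 5) ∧
    ((∑ d ∈ boxS m n 0 (2 * p - 2), (if ∃ v, d v = p - 1 then |invN (bar p d)| else 0) : ℤ) : ℝ)
      ≤ C * (p : ℝ) ^ (2 * (m + n) - 5) := by
  refine ⟨((m + n : ℕ) : ℝ) * 2 ^ (2 * (m + n) - 5), fun p hp => ?_⟩
  have hfin : ((((m + n : ℕ) : ℤ) * (((2 * p - 2 : ℕ) : ℤ) + 1) ^ (m + n - 2) *
        (((2 * p - 2 : ℕ) : ℤ) + 1) ^ (m + n - 3) : ℤ) : ℝ) ≤
      ((m + n : ℕ) : ℝ) * 2 ^ (2 * (m + n) - 5) * (p : ℝ) ^ (2 * (m + n) - 5) := by
    have e1 : (((2 * p - 2 : ℕ) : ℤ) + 1) = ((2 * p - 1 : ℕ) : ℤ) := by omega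
    have e2 : m + n - 2 + (m + n - 3) = 2 * (m + n) - 5 := by omega
    rw [e1, mul_assoc, ← pow_add, e2, mul_assoc, ← mul_pow]
    push_cast
    apply mul_le_mul_of_nonneg_left _ (by positivity)
    apply pow_le_pow_left₀ (by positivity)
    have e3 : ((2 * p - 1 : ℕ) : ℝ) ≤ ((2 * p : ℕ) : ℝ) := by
      exact_mod_cast Nat.sub_le _ _
    push_cast at e3
    exact e3
  constructor
  · have h1 : ∑ d ∈ boxS m n 0 (2 * p - 2), (if ∃ v, d v = p - 1 then |invN d| else 0) =
        ∑ d ∈ bxF m n 0 (2 * p - 2), (if ∃ v, d v = p - 1 then |csw gI d| else 0) := by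
      rw [← boxS_sum m n 0 (2 * p - 2) (fun d => if ∃ v, d v = p - 1 then |csw gI d| else 0)]
      refine sum_congr rfl fun d _ => ?_
      rw [invN_eq]
    rw [h1]
    refine le_trans ?_ hfin
    have h2 := bd2_sum m n p hm hn (fun d => csw gI d)
      (fun d hd => inv_le m n (2 * p - 2) hm hn d hd)
    exact_mod_cast h2
  · have h1 : ∑ d ∈ boxS m n 0 (2 * p - 2), (if ∃ v, d v = p - 1 then |invN (bar p d)| else 0) =
        ∑ d ∈ bxF m n 0 (2 * p - 2), (if ∃ v, d v = p - 1 then |csw gI (barF p d)| else 0) := by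
      rw [← boxS_sum m n 0 (2 * p - 2)
        (fun d => if ∃ v, d v = p - 1 then |csw gI (barF p d)| else 0)]
      refine sum_congr rfl fun d _ => ?_
      rw [invN_eq, coe_bar]
    rw [h1]
    refine le_trans ?_ hfin
    have h2 := bd2_sum m n p hm hn (fun d => csw gI (barF p d))
      (fun d hd => inv_le m n (2 * p - 2) hm hn _ fun v => (min_le_left _ _).trans (hd v))
    exact_mod_cast h2

end FSig
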