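import Mathlib

/-!
# CntGF: generating functions

`coeff_gf`: `(1 - C c * X^p)^N = ∑_i (-1)^i binom(N,i) c^i X^(p i)` (`add_pow` or `sub_pow`, `mul_pow`, `← pow_mul`), then `PowerSeries.coeff_X_pow_mul'`, `PowerSeries.coeff_C_mul`.
`sum_prod_coeff`: work with polynomials: `(∑_{k<L} C (a k) X^k)^(card V) = ∏_v ∑_{k ∈ range L} C (a k) X^k = ∑_{y ∈ piFinset} ∏_v (C (a (y v)) X^(y v))` (`Finset.prod_const`, `Finset.prod_univ_sum`), `= ∑_y C (∏ a (y v)) X^(∑ y v)` (`Finset.prod_mul_distrib`, `Finset.prod_pow_eq_pow_sum`, `map_prod`); coefficient of `X^M`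
(`Polynomial.coeff_C_mul_X_pow`), `Finset.sum_filter`. The power series `mk (if k < L then a k else 0)` is the coercion of the polynomial (`PowerSeries.ext`, `Polynomial.coeff_coe`, `Polynomial.coe_pow`).
`card_box`: `sum_prod_coeff` with `a = 1`, `R = ℤ`, `L = p`: the series `A = ∑_{k<p} X^k` satisfies `(1 - X) A = 1 - X^p`; with `B = mk 1`, `(1 - X) B = 1`: `A = (1 - X^p) B`, so `A^N = (1 - X^p)^N B^N`, `B^(d+1) = mk fun n => binom(d+n, d)` (`PowerSeries.mk_one_pow_eq_mk_choose_add`), and `coeff_gf` with `c = 1`.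
-/

namespace FSig

open Finset

theorem coeff_gf {R : Type*} [CommRing R] (c : R) (p N s : ℕ) (G : PowerSeries R) :
    PowerSeries.coeff s ((1 - PowerSeries.C c * PowerSeries.X ^ p) ^ N * G) =
      ∑ i ∈ range (N + 1), (-1) ^ i * (N.choose i : R) * c ^ i *
        (if p * i ≤ s then PowerSeries.coeff (s - p * i) G else 0) := by
  have h1 : (1 - PowerSeries.C c * PowerSeries.X ^ p : PowerSeries R) =
      (-(PowerSeries.C c * PowerSeries.X ^ p)) + 1 := by ring
  rw [h1, add_pow, Finset.sum_mul, map_sum]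
  refine Finset.sum_congr rfl fun i _ => ?_
  have h2 : (-(PowerSeries.C c * PowerSeries.X ^ p)) ^ i * 1 ^ (N - i) * (N.choose i : PowerSeries R) * G
      = PowerSeries.C ((-1) ^ i * (N.choose i : R) * c ^ i) * (PowerSeries.X ^ (p * i) * G) := by
    rw [map_mul, map_mul, map_pow, map_pow, map_neg, map_one, map_natCast, neg_pow, mul_pow,
      ← pow_mul, one_pow]
    ring
  rw [h2, PowerSeries.coeff_C_mul, PowerSeries.coeff_X_pow_mul']

theorem sum_prod_coeff {R : Type*} [CommRing R] (V : Type*) [Fintype V] [DecidableEq V]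
    (L M : ℕ) (a : ℕ → R) :
    ∑ y ∈ (Fintype.piFinset fun _ : V => range L).filter (fun y => ∑ v, y v = M), ∏ v, a (y v) =
      PowerSeries.coeff M ((PowerSeries.mk fun k => if k < L then a k else 0) ^ Fintype.card V) := by
  have h1 : (PowerSeries.mk fun k => if k < L then a k else 0) =
      ((∑ k ∈ range L, Polynomial.C (a k) * Polynomial.X ^ k : Polynomial R) : PowerSeries R) := by
    ext n
    rw [PowerSeries.coeff_mk, Polynomial.coeff_coe, Polynomial.finsetSum_coeff]
    simp only [Polynomial.coeff_C_mul_X_pow]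
    rw [Finset.sum_ite_eq]
    simp only [Finset.mem_range]
  rw [h1, ← Polynomial.coe_pow, Polynomial.coeff_coe]
  have h2 : (∑ k ∈ range L, Polynomial.C (a k) * Polynomial.X ^ k : Polynomial R) ^ Fintype.card V =
      ∑ y ∈ Fintype.piFinset fun _ : V => range L,
        Polynomial.C (∏ v, a (y v)) * Polynomial.X ^ (∑ v, y v) := by
    rw [← Finset.card_univ, ← Finset.prod_const, Finset.prod_univ_sum]
    refine Finset.sum_congr rfl fun y _ => ?_
    rw [Finset.prod_mul_distrib, Finset.prod_pow_eq_pow_sum, map_prod]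
  rw [h2, Polynomial.finsetSum_coeff, Finset.sum_filter]
  refine Finset.sum_congr rfl fun y _ => ?_
  rw [Polynomial.coeff_C_mul_X_pow]
  by_cases h : ∑ v, y v = M
  · rw [if_pos h, if_pos h.symm]
  · rw [if_neg h, if_neg (fun h' => h h'.symm)]

private lemma series_A (p : ℕ) :
    (PowerSeries.mk fun k => if k < p then (1 : ℤ) else 0) =
      (1 - PowerSeries.C (1 : ℤ) * PowerSeries.X ^ p) * PowerSeries.mk 1 := by
  ext n
  rw [map_one, one_mul, sub_mul, one_mul, map_sub, PowerSeries.coeff_mk, PowerSeries.coeff_mk,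
    PowerSeries.coeff_X_pow_mul']
  by_cases h : p ≤ n
  · rw [if_neg (not_lt.mpr h), if_pos h]
    simp
  · rw [if_pos (not_le.mp h), if_neg h]
    simp

theorem card_box (V : Type*) [Fintype V] [DecidableEq V] (hV : 1 ≤ Fintype.card V) (p s : ℕ) :
    (((Fintype.piFinset fun _ : V => range p).filter (fun y => ∑ v, y v = s)).card : ℤ) =
      ∑ i ∈ range (Fintype.card V + 1), (-1) ^ i * ((Fintype.card V).choose i : ℤ) *
        (if p * i ≤ s then ((s - p * i + Fintype.card V - 1).choose (Fintype.card V - 1) : ℤ)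
          else 0) := by
  have h1 := sum_prod_coeff (R := ℤ) V p s (fun _ => 1)
  simp only [Finset.prod_const_one, Finset.sum_const, nsmul_eq_mul, mul_one] at h1
  rw [h1, series_A, mul_pow, coeff_gf]
  refine Finset.sum_congr rfl fun i _ => ?_
  rw [one_pow, mul_one]
  congr 1
  split_ifs with h
  · obtain ⟨d, hd⟩ : ∃ d, Fintype.card V = d + 1 := ⟨Fintype.card V - 1, by omega⟩
    rw [hd, PowerSeries.mk_one_pow_eq_mk_choose_add, PowerSeries.coeff_mk]
    congr 2
    omega
  · rfl

end FSig
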