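import Pool.Agent.Lib.FSig.CntDefs
import Pool.Agent.Lib.FSig.CntGF

/-!
# CntChi: characters at a root of unity

`ch_mul`: `(z - z⁻¹) ch z x = z^(x+1) - z^(-(x+1))`: telescoping (`Finset.sum_range_succ` induction: `ch z (x+1) = z * ch z x + z^(-(x+1))` because `z^(x+1-2q) = z z^(x-2q)`; then induction on `x`).
`ch_refl`: multiply by `z - z⁻¹ ≠ 0` (`z^2 ≠ 1`): `z^(p-1-y) - z^(-(p-1-y)) = z^p (z^(-1-y) - z^(1+y))` because `z^(-p) = z^p`.
`ch_last`: `ch z (p-1) = 0`: `(z - z⁻¹) ch = z^p - z^(-p) = 0`.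
`ch_rec`: `ch z (x+2) = (z + z⁻¹) ch z (x+1) - ch z x` (multiply by `z - z⁻¹`, or from `ch_mul`).
`Hs_mul`: compare coefficients of `X^k`: `coeff_k((1 - zX)(1 - z⁻¹X) H) = h_k - (z + z⁻¹) h_(k-1) + h_(k-2)`, `h_k = ch z k` for `k < p - 1`, `0` otherwise. `k = 0`: `1`; `k = 1`: `ch z 1 - (z + z⁻¹) = 0` (`p ≥ 3`);
`2 ≤ k ≤ p-2`: `0` by `ch_rec`; `k = p - 1`: `-(z+z⁻¹) ch z (p-2) + ch z (p-3) = -ch z (p-1) = 0`; `k = p`: `ch z (p-2) = -z^p` (`ch_refl` with `y = 0`, `ch z 0 = 1`); `k > p`: `0`. The right side has `1` at `k = 0`, `-z^p` at `k = p`.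
`Gs_one`: `(1 - C z X)^N * Gs z N = 1`, `N ≥ 1`: `PowerSeries.rescale z` of `PowerSeries.mk_one_pow_eq_mk_choose_add` and `(1 - X) mk 1 = 1` (`PowerSeries.mk_one_mul_one_sub_eq_one`), or directly.
`Hs_pow`: `Hs^N = Hs^N * ((1 - zX)^N Gs z N) ((1 - z⁻¹X)^N Gs z⁻¹ N) = ((1-zX)(1-z⁻¹X) Hs)^N Gs Gs`.
-/

namespace FSig

open Finset

private theorem cchi_ch (z : ℂ) (hz : z ≠ 0) (x : ℕ) :
    ch z x = ∑ q ∈ range (x + 1), z⁻¹ ^ q * z ^ (x + 1 - 1 - q) := by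
  unfold ch
  refine sum_congr rfl fun q hq => ?_
  have hq' : q ≤ x := by
    have := mem_range.1 hq
    omega
  have e : ((x : ℤ) - 2 * (q : ℤ)) = ((x + 1 - 1 - q : ℕ) : ℤ) - (q : ℤ) := by
    push_cast [hq']
    have : ((x + 1 - 1 - q : ℕ) : ℤ) = (x : ℤ) - q := by omega
    omega
  rw [e, zpow_sub₀ hz, zpow_natCast, zpow_natCast, inv_pow]
  field_simp

private theorem cchi_nat (z : ℂ) (hz : z ≠ 0) (x : ℕ) :
    (z - z⁻¹) * ch z x = z ^ (x + 1) - z⁻¹ ^ (x + 1) := by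
  rw [cchi_ch z hz x]
  have h := geom_sum₂_mul z⁻¹ z (x + 1)
  linear_combination - h

theorem ch_mul {z : ℂ} (hz : z ≠ 0) (x : ℕ) :
    (z - z⁻¹) * ch z x = z ^ ((x : ℤ) + 1) - z ^ (-((x : ℤ) + 1)) := by
  rw [cchi_nat z hz x]
  have e : ((x : ℤ) + 1) = ((x + 1 : ℕ) : ℤ) := by push_cast; ring
  rw [e, zpow_neg, zpow_natCast, inv_pow]

private theorem cchi_ne {z : ℂ} {p : ℕ} (hp : 2 ≤ p) (h1 : z ^ (2 * p) = 1) : z ≠ 0 := by
  rintro rfl
  rw [zero_pow (by omega)] at h1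
  exact zero_ne_one h1

private theorem cchi_sub {z : ℂ} (hz : z ≠ 0) (h2 : z ^ 2 ≠ 1) : z - z⁻¹ ≠ 0 := by
  intro h
  apply h2
  have : z * (z - z⁻¹) = 0 := by rw [h, mul_zero]
  rw [mul_sub, mul_inv_cancel₀ hz] at this
  linear_combination this

private theorem cchi_inv {z : ℂ} {p : ℕ} (hz : z ≠ 0) (h1 : z ^ (2 * p) = 1) :
    z⁻¹ ^ p = z ^ p := by
  have h : z ^ p * z ^ p = 1 := by rw [← pow_add, ← two_mul, h1]
  rw [inv_pow]
  exact inv_eq_of_mul_eq_one_left h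

theorem ch_refl {z : ℂ} {p : ℕ} (hp : 2 ≤ p) (h1 : z ^ (2 * p) = 1) (h2 : z ^ 2 ≠ 1) {y : ℕ}
    (hy : y ≤ p - 2) : ch z (p - 2 - y) = -z ^ p * ch z y := by
  have hz := cchi_ne hp h1
  have hs := cchi_sub hz h2
  obtain ⟨m, rfl⟩ : ∃ m, p = m + y + 2 := ⟨p - 2 - y, by omega⟩
  have hm : m + y + 2 - 2 - y = m := by omega
  rw [hm]
  refine mul_left_cancel₀ hs ?_
  rw [cchi_nat z hz m]
  have e : (z - z⁻¹) * (-z ^ (m + y + 2) * ch z y)
      = -z ^ (m + y + 2) * ((z - z⁻¹) * ch z y) := by ring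
  rw [e, cchi_nat z hz y]
  have hi := cchi_inv hz h1
  have a1 : z⁻¹ ^ (m + 1) = z ^ (m + y + 2) * z ^ (y + 1) := by
    rw [← hi, show m + y + 2 = (m + 1) + (y + 1) by ring, pow_add z⁻¹ (m + 1) (y + 1), mul_assoc,
      ← mul_pow, inv_mul_cancel₀ hz, one_pow, mul_one]
  have a2 : z ^ (m + y + 2) * z⁻¹ ^ (y + 1) = z ^ (m + 1) := by
    rw [show m + y + 2 = (m + 1) + (y + 1) by ring, pow_add z (m + 1) (y + 1), mul_assoc,
      ← mul_pow, mul_inv_cancel₀ hz, one_pow, mul_one]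
  rw [a1]
  linear_combination -a2

private theorem cchi_geo (z : ℂ) (n k : ℕ) :
    PowerSeries.coeff k (∑ j ∈ range n, (PowerSeries.C z * PowerSeries.X) ^ j) =
      if k < n then z ^ k else 0 := by
  rw [map_sum]
  have h : ∀ j ∈ range n, PowerSeries.coeff k ((PowerSeries.C z * PowerSeries.X) ^ j)
      = if k = j then z ^ j else 0 := by
    intro j _
    rw [mul_pow, ← map_pow, PowerSeries.coeff_C_mul, PowerSeries.coeff_X_pow]
    split_ifs <;> simp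
  rw [sum_congr rfl h, Finset.sum_ite_eq]
  simp only [mem_range]

theorem Hs_mul {z : ℂ} {p : ℕ} (hp : 3 ≤ p) (h1 : z ^ (2 * p) = 1) (h2 : z ^ 2 ≠ 1) :
    (1 - PowerSeries.C z * PowerSeries.X) * (1 - PowerSeries.C z⁻¹ * PowerSeries.X) * Hs z p =
      1 - PowerSeries.C (z ^ p) * PowerSeries.X ^ p := by
  have hz := cchi_ne (by omega : 2 ≤ p) h1
  have hs := cchi_sub hz h2
  obtain ⟨n, rfl⟩ : ∃ n, p = n + 1 := ⟨p - 1, by omega⟩
  have hC : (PowerSeries.C (z - z⁻¹) : PowerSeries ℂ) ≠ 0 := by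
    intro h
    apply hs
    have := congrArg (PowerSeries.coeff 0) h
    simpa using this
  refine mul_left_cancel₀ hC ?_
  have e1 : (PowerSeries.C (z - z⁻¹) : PowerSeries ℂ) * Hs z (n + 1)
      = PowerSeries.C z * ∑ j ∈ range n, (PowerSeries.C z * PowerSeries.X) ^ j
        - PowerSeries.C z⁻¹ * ∑ j ∈ range n, (PowerSeries.C z⁻¹ * PowerSeries.X) ^ j := by
    ext k
    rw [PowerSeries.coeff_C_mul, map_sub, PowerSeries.coeff_C_mul, PowerSeries.coeff_C_mul,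
      cchi_geo, cchi_geo, Hs, PowerSeries.coeff_mk]
    simp only [Nat.add_sub_cancel]
    split_ifs with h
    · rw [cchi_nat z hz k, pow_succ, pow_succ]
      ring
    · ring
  have g1 := mul_neg_geom_sum (PowerSeries.C z * PowerSeries.X : PowerSeries ℂ) n
  have g2 := mul_neg_geom_sum (PowerSeries.C z⁻¹ * PowerSeries.X : PowerSeries ℂ) n
  have hi := cchi_inv hz h1
  have czw : (PowerSeries.C z * PowerSeries.C z⁻¹ : PowerSeries ℂ) = 1 := by
    rw [← map_mul, mul_inv_cancel₀ hz, map_one]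
  have hi' : (PowerSeries.C z⁻¹ : PowerSeries ℂ) ^ (n + 1) = PowerSeries.C z ^ (n + 1) := by
    rw [← map_pow, ← map_pow, hi]
  rw [map_pow]
  calc PowerSeries.C (z - z⁻¹) * ((1 - PowerSeries.C z * PowerSeries.X) *
        (1 - PowerSeries.C z⁻¹ * PowerSeries.X) * Hs z (n + 1))
      = (1 - PowerSeries.C z * PowerSeries.X) * (1 - PowerSeries.C z⁻¹ * PowerSeries.X) *
        (PowerSeries.C (z - z⁻¹) * Hs z (n + 1)) := by ring
    _ = PowerSeries.C z * (1 - PowerSeries.C z⁻¹ * PowerSeries.X) *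
          ((1 - PowerSeries.C z * PowerSeries.X) *
            ∑ j ∈ range n, (PowerSeries.C z * PowerSeries.X) ^ j)
        - PowerSeries.C z⁻¹ * (1 - PowerSeries.C z * PowerSeries.X) *
          ((1 - PowerSeries.C z⁻¹ * PowerSeries.X) *
            ∑ j ∈ range n, (PowerSeries.C z⁻¹ * PowerSeries.X) ^ j) := by rw [e1]; ring
    _ = PowerSeries.C z * (1 - PowerSeries.C z⁻¹ * PowerSeries.X) *
          (1 - (PowerSeries.C z * PowerSeries.X) ^ n)
        - PowerSeries.C z⁻¹ * (1 - PowerSeries.C z * PowerSeries.X) *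
          (1 - (PowerSeries.C z⁻¹ * PowerSeries.X) ^ n) := by rw [g1, g2]
    _ = PowerSeries.C (z - z⁻¹) * (1 - PowerSeries.C z ^ (n + 1) * PowerSeries.X ^ (n + 1)) := by
        rw [map_sub, mul_pow, mul_pow]
        generalize (PowerSeries.C z : PowerSeries ℂ) = a at *
        generalize (PowerSeries.C z⁻¹ : PowerSeries ℂ) = b at *
        have b1 : a * b ^ (n + 1) = b ^ n := by rw [pow_succ']; linear_combination b ^ n * czw
        have b2 : b * a ^ (n + 1) = a ^ n := by rw [pow_succ']; linear_combination a ^ n * czw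
        have b3 : a * a ^ (n + 1) = b ^ n := by rw [← hi', b1]
        rw [sub_mul, mul_sub, mul_sub, mul_one, mul_one]
        have b4 : a * a ^ n = a ^ (n + 1) := by rw [pow_succ']
        have b5 : b * b ^ n = a ^ (n + 1) := by rw [← hi', pow_succ']
        linear_combination (PowerSeries.X ^ n * PowerSeries.X * a ^ n
          - PowerSeries.X ^ n * PowerSeries.X * b ^ n) * czw
          - (PowerSeries.X ^ n) * b4 + (PowerSeries.X ^ n) * b5
          + (PowerSeries.X ^ (n + 1)) * b3 - (PowerSeries.X ^ (n + 1)) * b2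

theorem Gs_one (z : ℂ) (N : ℕ) (hN : 1 ≤ N) :
    (1 - PowerSeries.C z * PowerSeries.X) ^ N * Gs z N = 1 := by
  obtain ⟨d, rfl⟩ : ∃ d, N = d + 1 := ⟨N - 1, by omega⟩
  have e1 : Gs z (d + 1) = PowerSeries.rescale z ((PowerSeries.mk 1 : PowerSeries ℂ) ^ (d + 1)) := by
    rw [PowerSeries.mk_one_pow_eq_mk_choose_add]
    ext a
    rw [PowerSeries.coeff_rescale, Gs, PowerSeries.coeff_mk, PowerSeries.coeff_mk]
    rw [show a + (d + 1) - 1 = d + a by omega, Nat.add_sub_cancel]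
    ring
  have e2 : (1 - PowerSeries.C z * PowerSeries.X : PowerSeries ℂ)
      = PowerSeries.rescale z (1 - PowerSeries.X) := by
    rw [map_sub, map_one, PowerSeries.rescale_X]
  rw [e1, e2, ← map_pow, ← map_mul, ← mul_pow, mul_comm, PowerSeries.mk_one_mul_one_sub_eq_one,
    one_pow, map_one]

theorem Hs_pow {z : ℂ} {p : ℕ} (hp : 3 ≤ p) (h1 : z ^ (2 * p) = 1) (h2 : z ^ 2 ≠ 1) (N : ℕ)
    (hN : 1 ≤ N) : Hs z p ^ N =
      (1 - PowerSeries.C (z ^ p) * PowerSeries.X ^ p) ^ N * (Gs z N * Gs z⁻¹ N) := by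
  have a1 := Gs_one z N hN
  have a2 := Gs_one z⁻¹ N hN
  rw [← Hs_mul hp h1 h2]
  calc Hs z p ^ N = Hs z p ^ N * ((1 - PowerSeries.C z * PowerSeries.X) ^ N * Gs z N) *
        ((1 - PowerSeries.C z⁻¹ * PowerSeries.X) ^ N * Gs z⁻¹ N) := by rw [a1, a2]; ring
    _ = _ := by rw [mul_pow, mul_pow]; ring

end FSig
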