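import Pool.Agent.Lib.FSig.CntW
import Pool.Agent.Lib.FSig.CntGF

/-!
# CntD: the numbers `DD`

`DD_box`: `u ↦ y`, `y = u` on the rows, `y = p - 1 - u` on the columns is a bijection of the cube (`Finset.card_nbij'` or `Finset.card_bij'`, the map is an involution on the cube), `∑ y = df u + n (p-1)` (`Fintype.sum_sum_type`).
`DD_al`: `k = p (K - n) + e - 1`: `k + n (p-1) = pK - n + e - 1`. If `K = 0`: it is negative (`n ≥ 3 > e - 1`), so `DD = 0` (`DD_neg`), and `al m n p 0 e = 0`. If `K ≥ 1`: `s = pK - n + e - 1` is a natural number (`p > 2(m+n)`), `DD_box`, `card_box` with `V = Vx m n`, card `= m + n`.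
`p i ≤ s ↔ i < K` (as `0 < n + 1 - e < p`), and then `s - p i + (m + n) - 1 = (K - i) p + (m - 2) + e`, so the term is `pb m n p (K - i) e`. So `DD = ∑_{i < m+n+1, i < K} ..`, and the terms of `al` with `i ≥ m + n + 1` vanish (`Nat.choose_eq_zero_of_lt`).
`A1_al`: `A1_eq` and `DD_al`: `p l + 1 = p ((n+l) - n) + 2 - 1`, `-(p l + 1) = p ((n-l) - n) + 0 - 1`, etc. (`1 ≤ l < n`; `((n - l : ℕ) : ℤ) = n - l`).
-/

/-!
# CntD: the numbers `DD`

`DD_box`: reflection of the columns. `DD_al`: `DD_box` and `card_box`. `A1_al`: `A1_eq` and `DD_al`.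
-/

namespace FSig

open Finset

private def cntD_rf {m n : ℕ} (p : ℕ) (u : Vx m n → ℕ) : Vx m n → ℕ :=
  Sum.elim (fun i => u (Sum.inl i)) fun j => p - 1 - u (Sum.inr j)

private lemma cntD_mem {m n p : ℕ} {u : Vx m n → ℕ} : u ∈ sq m n p ↔ ∀ v, u v < p := by
  unfold sq
  rw [Fintype.mem_piFinset]
  simp

private lemma cntD_rf_mem {m n p : ℕ} {u : Vx m n → ℕ} (hp : 1 ≤ p) (hu : u ∈ sq m n p) :
    cntD_rf p u ∈ sq m n p := by
  rw [cntD_mem] at hu ⊢
  rintro (i | j)
  · exact hu _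
  · show p - 1 - u (Sum.inr j) < p
    omega

private lemma cntD_rf_rf {m n p : ℕ} {u : Vx m n → ℕ} (hu : u ∈ sq m n p) :
    cntD_rf p (cntD_rf p u) = u := by
  rw [cntD_mem] at hu
  funext v
  rcases v with i | j
  · rfl
  · show p - 1 - (p - 1 - u (Sum.inr j)) = u (Sum.inr j)
    have := hu (Sum.inr j)
    omega

private lemma cntD_sum {m n p : ℕ} {u : Vx m n → ℕ} (hu : u ∈ sq m n p) :
    ((∑ v, cntD_rf p u v : ℕ) : ℤ) = df u + n * ((p : ℤ) - 1) := by
  rw [cntD_mem] at hu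
  rw [Fintype.sum_sum_type]
  push_cast
  have e1 : ∑ j : Fin n, ((cntD_rf p u (Sum.inr j) : ℕ) : ℤ) =
      ∑ j : Fin n, (((p : ℤ) - 1) - (u (Sum.inr j) : ℤ)) := by
    refine Finset.sum_congr rfl fun j _ => ?_
    show ((p - 1 - u (Sum.inr j) : ℕ) : ℤ) = _
    have := hu (Sum.inr j)
    omega
  rw [e1, Finset.sum_sub_distrib, Finset.sum_const, Finset.card_univ, Fintype.card_fin,
    nsmul_eq_mul]
  unfold df
  have e2 : ∑ i : Fin m, ((cntD_rf p u (Sum.inl i) : ℕ) : ℤ) =
      ∑ i : Fin m, (u (Sum.inl i) : ℤ) := rfl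
  rw [e2]
  ring

theorem DD_box (m n p s : ℕ) (hp : 1 ≤ p) (k : ℤ) (hs : (s : ℤ) = k + n * (p - 1)) :
    DD m n p k = (((sq m n p).filter fun y => ∑ v, y v = s).card : ℤ) := by
  unfold DD
  congr 1
  refine Finset.card_nbij' (cntD_rf p) (cntD_rf p) ?_ ?_ ?_ ?_
  · intro u hu
    rw [Finset.mem_coe, Finset.mem_filter] at hu ⊢
    refine ⟨cntD_rf_mem hp hu.1, ?_⟩
    have := cntD_sum hu.1
    rw [hu.2] at this
    have h2 : ((∑ v, cntD_rf p u v : ℕ) : ℤ) = (s : ℤ) := by rw [this, hs]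
    exact_mod_cast h2
  · intro u hu
    rw [Finset.mem_coe, Finset.mem_filter] at hu ⊢
    refine ⟨cntD_rf_mem hp hu.1, ?_⟩
    have := cntD_sum (cntD_rf_mem hp hu.1)
    rw [cntD_rf_rf hu.1, hu.2] at this
    linarith
  · intro u hu
    rw [Finset.mem_coe, Finset.mem_filter] at hu
    exact cntD_rf_rf hu.1
  · intro u hu
    rw [Finset.mem_coe, Finset.mem_filter] at hu
    exact cntD_rf_rf hu.1

theorem DD_neg (m n p : ℕ) (k : ℤ) (hk : k + n * (p - 1) < 0) : DD m n p k = 0 := by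
  unfold DD
  rw [Finset.filter_eq_empty_iff.2]
  · simp
  · intro u hu h
    have := df_lower hu
    rw [h] at this
    linarith

theorem DD_al (m n p : ℕ) (hm : 3 ≤ m) (hn : 3 ≤ n) (hp : 2 * (m + n) < p) (K e : ℕ)
    (he : e ≤ 2) : DD m n p ((p : ℤ) * ((K : ℤ) - n) + e - 1) = al m n p K e := by
  rcases Nat.eq_zero_or_pos K with rfl | hK
  · rw [DD_neg]
    · unfold al
      simp
    · have h1 : (e : ℤ) ≤ 2 := by exact_mod_cast he
      have h2 : (3 : ℤ) ≤ n := by exact_mod_cast hn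
      push_cast
      nlinarith
  · have hpK : p ≤ p * K := Nat.le_mul_of_pos_right p hK
    have hle : n + 1 ≤ p * K + e := by omega
    have hs : (((p * K + e - (n + 1) : ℕ)) : ℤ) =
        ((p : ℤ) * ((K : ℤ) - n) + e - 1) + n * (p - 1) := by
      rw [Nat.cast_sub hle]
      push_cast
      ring
    rw [DD_box m n p (p * K + e - (n + 1)) (by omega) _ hs]
    have hcV : Fintype.card (Vx m n) = m + n := by
      rw [Fintype.card_sum, Fintype.card_fin, Fintype.card_fin]
    have hcb := card_box (Vx m n) (by rw [hcV]; omega) p (p * K + e - (n + 1))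
    rw [hcV] at hcb
    unfold sq
    rw [hcb]
    unfold al
    have e1 : ∑ i ∈ range (m + n + 1), (-1 : ℤ) ^ i * ((m + n).choose i : ℤ) *
        (if p * i ≤ p * K + e - (n + 1) then
          ((p * K + e - (n + 1) - p * i + (m + n) - 1).choose (m + n - 1) : ℤ) else 0) =
        ∑ i ∈ (range (m + n + 1)).filter (fun i => i < K),
          (-1 : ℤ) ^ i * ((m + n).choose i : ℤ) * pb m n p (K - i) e := by
      rw [Finset.sum_filter]
      refine Finset.sum_congr rfl fun i _ => ?_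
      by_cases hi : i < K
      · have h1 : p * i + p ≤ p * K := by
          calc p * i + p = p * (i + 1) := by ring
            _ ≤ p * K := Nat.mul_le_mul_left p hi
        rw [if_pos (by omega), if_pos hi]
        unfold pb
        congr 3
        have h2 : (K - i) * p = p * K - p * i := by
          rw [Nat.mul_comm, Nat.mul_sub]
        rw [h2]
        omega
      · have h1 : p * K ≤ p * i := Nat.mul_le_mul_left p (not_lt.1 hi)
        rw [if_neg (by omega), if_neg hi, mul_zero]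
    have e2 : ∑ i ∈ range K, (-1 : ℤ) ^ i * ((m + n).choose i : ℤ) * pb m n p (K - i) e =
        ∑ i ∈ (range K).filter (fun i => i < m + n + 1),
          (-1 : ℤ) ^ i * ((m + n).choose i : ℤ) * pb m n p (K - i) e := by
      rw [Finset.sum_filter]
      refine Finset.sum_congr rfl fun i _ => ?_
      by_cases hi : i < m + n + 1
      · rw [if_pos hi]
      · rw [if_neg hi, Nat.choose_eq_zero_of_lt (by omega)]
        simp
    rw [e2]
    refine e1.trans (Finset.sum_congr ?_ fun _ _ => rfl)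
    ext i
    simp only [Finset.mem_filter, Finset.mem_range]
    exact ⟨fun h => ⟨h.2, h.1⟩, fun h => ⟨h.2, h.1⟩⟩

theorem A1_al (m n p : ℕ) (hm : 3 ≤ m) (hn : 3 ≤ n) (hp : 2 * (m + n) < p) :
    A1 m n p = ∑ l ∈ Ico 1 n, (al m n p (n + l) 2 * al m n p (n - l) 0
      - 2 * (al m n p (n + l) 1 * al m n p (n - l) 1)
      + al m n p (n + l) 0 * al m n p (n - l) 2) := by
  rw [A1_eq m n p (by omega) (by omega)]
  refine Finset.sum_congr rfl fun l hl => ?_
  obtain ⟨hl1, hl2⟩ := Finset.mem_Ico.1 hl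
  have hsub : ((n - l : ℕ) : ℤ) = (n : ℤ) - l := Nat.cast_sub hl2.le
  have a2 := DD_al m n p hm hn hp (n + l) 2 (by omega)
  have a1 := DD_al m n p hm hn hp (n + l) 1 (by omega)
  have a0 := DD_al m n p hm hn hp (n + l) 0 (by omega)
  have b2 := DD_al m n p hm hn hp (n - l) 2 (by omega)
  have b1 := DD_al m n p hm hn hp (n - l) 1 (by omega)
  have b0 := DD_al m n p hm hn hp (n - l) 0 (by omega)
  rw [← a2, ← a1, ← a0, ← b2, ← b1, ← b0, hsub]
  push_cast
  have e1 : (p : ℤ) * ((n : ℤ) + l - n) + 2 - 1 = p * l + 1 := by ring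
  have e2 : (p : ℤ) * ((n : ℤ) + l - n) + 1 - 1 = p * l := by ring
  have e3 : (p : ℤ) * ((n : ℤ) + l - n) + 0 - 1 = p * l - 1 := by ring
  have e4 : (p : ℤ) * ((n : ℤ) - l - n) + 2 - 1 = -(p * l - 1) := by ring
  have e5 : (p : ℤ) * ((n : ℤ) - l - n) + 1 - 1 = -(p * l) := by ring
  have e6 : (p : ℤ) * ((n : ℤ) - l - n) + 0 - 1 = -(p * l + 1) := by ring
  rw [e1, e2, e3, e4, e5, e6]

end FSig
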