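import Pool.Agent.Lib.FSig.CDefs

/-!
# MP_05de8f_ag, counting part: auxiliary definitions (on functions instead of `Finsupp`)
-/

namespace FSig

open Finset

section

variable {V : Type*} [Fintype V] [DecidableEq V]

/-- the functions `q ≤ d` -/
def blw (d : V → ℕ) : Finset (V → ℕ) := Fintype.piFinset fun v => range (d v + 1)

/-- the weight `|d| - 2 |q|` -/
def wq (d q : V → ℕ) : ℤ := ∑ v, ((d v : ℤ) - 2 * (q v : ℤ))

/-- sum over `q ≤ d` of a function of the weight -/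
def csw (g : ℤ → ℤ) (d : V → ℕ) : ℤ := ∑ q ∈ blw d, g (wq d q)

/-- `[j = 0] - [j = 2]` -/
def gI (j : ℤ) : ℤ := (if j = 0 then 1 else 0) - (if j = 2 then 1 else 0)

/-- `[2p ∣ j] - [2p ∣ j - 2]` -/
def gF (p : ℕ) (j : ℤ) : ℤ :=
  (if (2 * p : ℤ) ∣ j then 1 else 0) - (if (2 * p : ℤ) ∣ j - 2 then 1 else 0)

/-- `min (d, 2p-2-d)` -/
def barF (p : ℕ) (d : V → ℕ) : V → ℕ := fun v => min (d v) (2 * p - 2 - d v)

end

/-- balanced functions -/
def BalF {m n : ℕ} (d : Vx m n → ℕ) : Prop := ∑ i, d (Sum.inl i) = ∑ j, d (Sum.inr j)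

instance {m n : ℕ} (d : Vx m n → ℕ) : Decidable (BalF d) :=
  inferInstanceAs (Decidable (_ = _))

/-- balanced functions with values in `[lo, hi]` -/
def bxF (m n lo hi : ℕ) : Finset (Vx m n → ℕ) :=
  (Fintype.piFinset fun _ => Icc lo hi).filter BalF

/-- first part of `Atot` -/
def A1 (m n p : ℕ) : ℤ :=
  ∑ d ∈ bxF m n 0 (2 * p - 2), csw (fun j => gI j - gF p j) (barF p d)

/-- second part of `Atot` -/
def A2 (m n p : ℕ) : ℤ := ∑ d ∈ bxF m n 0 (p - 2), csw (gF p) d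

/-- third part of `Atot` -/
def A3 (m n p : ℕ) : ℤ := ∑ d ∈ bxF m n p (2 * p - 2), csw (gF p) (barF p d)

/-- the cube `[0, p-1]^V` -/
def sq (m n p : ℕ) : Finset (Vx m n → ℕ) := Fintype.piFinset fun _ => range p

/-- row sum minus column sum -/
def df {m n : ℕ} (u : Vx m n → ℕ) : ℤ :=
  ∑ i, (u (Sum.inl i) : ℤ) - ∑ j, (u (Sum.inr j) : ℤ)

/-- the number of `u` in the cube with row sum minus column sum `k` -/
def DD (m n p : ℕ) (k : ℤ) : ℤ := (((sq m n p).filter fun u => df u = k).card : ℤ)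

/-- `P(kp - n + e - 1)`, `P(x) = binom(x+N-1, N-1)`, `N = m + n` -/
def pb (m n p k e : ℕ) : ℤ := ((k * p + (m - 2) + e).choose (m + n - 1) : ℤ)

/-- `∑_{i<K} (-1)^i binom(N,i) P((K-i)p - n + e - 1)` -/
def al (m n p K e : ℕ) : ℤ :=
  ∑ i ∈ range K, (-1) ^ i * ((m + n).choose i : ℤ) * pb m n p (K - i) e

/-- the exact value (up to sign) of the fusion sums -/
def TT (m n p c : ℕ) : ℤ :=
  ∑ i ∈ range c, (-1) ^ i * ((m + n).choose i : ℤ) * ∑ k ∈ Ico 1 (c - i),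
    (pb m n p k 1 * pb m n p (c - i - k) 1 - pb m n p k 2 * pb m n p (c - i - k) 0)

/-- the character value `∑_{q ≤ x} z^(x - 2q)` -/
noncomputable def ch (z : ℂ) (x : ℕ) : ℂ := ∑ q ∈ range (x + 1), z ^ ((x : ℤ) - 2 * (q : ℤ))

/-- a primitive `2p`-th root of unity -/
noncomputable def xi (p : ℕ) : ℂ := Complex.exp (2 * Real.pi * Complex.I / ((2 * p : ℕ) : ℂ))

/-- the generating function of `ch z 0, ..., ch z (p-2)` -/
noncomputable def Hs (z : ℂ) (p : ℕ) : PowerSeries ℂ :=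
  PowerSeries.mk fun k => if k < p - 1 then ch z k else 0

/-- the generating function of `binom(a+N-1,N-1) z^a` -/
noncomputable def Gs (z : ℂ) (N : ℕ) : PowerSeries ℂ :=
  PowerSeries.mk fun a => ((a + N - 1).choose (N - 1) : ℂ) * z ^ a

/-- signed sum -/
def sd {V : Type*} [Fintype V] (s : V → Bool) (x : V → ℕ) : ℤ :=
  ∑ v, (if s v then -(x v : ℤ) else (x v : ℤ))

/-- `F p = a p^r + O(p^(r-1))` -/
def As (F : ℕ → ℝ) (a : ℝ) (r : ℕ) : Prop :=
  ∃ C : ℝ, 0 ≤ C ∧ ∀ p : ℕ, 1 ≤ p → |F p - a * (p : ℝ) ^ r| * (p : ℝ) ≤ C * (p : ℝ) ^ r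

end FSig
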