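import Pool.Agent.Lib.FSig.CntDefs

/-!
# CntPair: pairs `(d, q)` and pairs of functions in the cube

`pair_one`: for `s = min d (p-1) - q`, `t = d - s` the map `(d, q) ↦ (s, t)` is a bijection from `{(d, q) : d ≤ 2p-2, q ≤ min d (2p-2-d)}` to `[0,p-1]^2`, inverse `(s, t) ↦ (s + t, min (s+t) (p-1) - s)`, and
`min d (2p-2-d) - 2q = s - t`. (All by `omega`, cases `d ≤ p-1`, `d ≥ p-1`.)
`pair_sum`: the left side is the sum over `(d, q)` (`Finset.sum_sigma'`) with `d v ≤ 2p-2`, `q v ≤ barF p d v`. Put `(s, t) v` as above for every `v`, and `u = s` on the rows, `t` on the columns, `u' = t` on the rows, `s` on the columns (`Sum.elim`).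
`Finset.sum_bij'` (on the Sigma type; the right side is a sum over the product `sq ×ˢ sq`, `Finset.sum_product'`, filtered by `df u + df u' = 0`, `Finset.sum_filter`).
`BalF d` means `∑_rows (s + t) = ∑_cols (s + t)`, i.e. `df u + df u' = 0`; and then `wq (barF p d) q = ∑ (s - t) = df u - df u' = 2 df u`. (`Fintype.sum_sum_type`.) Recommended: do it in two steps, first the sum over pairs `(s, t)`, then swap `s` and `t` on the columns.
-/

namespace FSig

open Finset

private def cpS {m n : ℕ} (p : ℕ) (d q : Vx m n → ℕ) (v : Vx m n) : ℕ := min (d v) (p - 1) - q v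

private def cpU {m n : ℕ} (s t : Vx m n → ℕ) : Vx m n → ℕ :=
  Sum.elim (fun i => s (Sum.inl i)) (fun j => t (Sum.inr j))

private theorem cpU_inl {m n : ℕ} (s t : Vx m n → ℕ) (i) : cpU s t (Sum.inl i) = s (Sum.inl i) := rfl

private theorem cpU_inr {m n : ℕ} (s t : Vx m n → ℕ) (i) : cpU s t (Sum.inr i) = t (Sum.inr i) := rfl

theorem pair_sum (m n p : ℕ) (hp : 1 ≤ p) (g : ℤ → ℤ) :
    ∑ d ∈ bxF m n 0 (2 * p - 2), csw g (barF p d) =
      ∑ u ∈ sq m n p, ∑ u' ∈ sq m n p, if df u + df u' = 0 then g (2 * df u) else 0 := by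
  classical
  rw [← Finset.sum_product', ← Finset.sum_filter]
  simp only [csw]
  rw [Finset.sum_sigma']
  refine Finset.sum_nbij'
    (fun x => (cpU (cpS p x.1 x.2) (fun v => x.1 v - cpS p x.1 x.2 v),
      cpU (fun v => x.1 v - cpS p x.1 x.2 v) (cpS p x.1 x.2)))
    (fun y => ⟨fun v => y.1 v + y.2 v,
      fun v => min (y.1 v + y.2 v) (p - 1) - cpU y.1 y.2 v⟩) ?_ ?_ ?_ ?_ ?_
  · rintro ⟨d, q⟩ h
    simp only [Finset.mem_sigma, bxF, Finset.mem_filter, Fintype.mem_piFinset, blw,
      Finset.mem_Icc, Finset.mem_range, barF] at h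
    obtain ⟨⟨h1, h2⟩, h3⟩ := h
    simp only [Finset.mem_filter, Finset.mem_product, sq, Fintype.mem_piFinset, Finset.mem_range]
    refine ⟨⟨?_, ?_⟩, ?_⟩
    · rintro (i | j)
      · rw [cpU_inl]; have := h1 (Sum.inl i); have := h3 (Sum.inl i); unfold cpS; omega
      · rw [cpU_inr]; have := h1 (Sum.inr j); have := h3 (Sum.inr j); unfold cpS; omega
    · rintro (i | j)
      · rw [cpU_inl]; have := h1 (Sum.inl i); have := h3 (Sum.inl i); unfold cpS; omega
      · rw [cpU_inr]; have := h1 (Sum.inr j); have := h3 (Sum.inr j); unfold cpS; omega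
    · unfold BalF at h2
      simp only [df, cpU_inl, cpU_inr]
      have e1 : ∑ i, ((cpS p d q (Sum.inl i) : ℕ) : ℤ) +
          ∑ i, ((d (Sum.inl i) - cpS p d q (Sum.inl i) : ℕ) : ℤ) =
          ((∑ i, d (Sum.inl i) : ℕ) : ℤ) := by
        rw [← Finset.sum_add_distrib, Nat.cast_sum]
        refine Finset.sum_congr rfl fun i _ => ?_
        unfold cpS
        omega
      have e2 : ∑ i, ((cpS p d q (Sum.inr i) : ℕ) : ℤ) +
          ∑ i, ((d (Sum.inr i) - cpS p d q (Sum.inr i) : ℕ) : ℤ) =
          ((∑ i, d (Sum.inr i) : ℕ) : ℤ) := by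
        rw [← Finset.sum_add_distrib, Nat.cast_sum]
        refine Finset.sum_congr rfl fun i _ => ?_
        unfold cpS
        omega
      have e3 : ((∑ i, d (Sum.inl i) : ℕ) : ℤ) = ((∑ i, d (Sum.inr i) : ℕ) : ℤ) := by rw [h2]
      linarith
  · rintro ⟨u, u'⟩ h
    simp only [Finset.mem_filter, Finset.mem_product, sq, Fintype.mem_piFinset,
      Finset.mem_range] at h
    obtain ⟨⟨h1, h2⟩, h3⟩ := h
    simp only [Finset.mem_sigma, bxF, Finset.mem_filter, Fintype.mem_piFinset, blw,
      Finset.mem_Icc, Finset.mem_range, barF]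
    refine ⟨⟨?_, ?_⟩, ?_⟩
    · intro v
      have := h1 v; have := h2 v; omega
    · unfold BalF
      simp only [df] at h3
      have e1 : ((∑ i, (u (Sum.inl i) + u' (Sum.inl i)) : ℕ) : ℤ) =
          ∑ i, (u (Sum.inl i) : ℤ) + ∑ i, (u' (Sum.inl i) : ℤ) := by
        rw [Nat.cast_sum, ← Finset.sum_add_distrib]
        exact Finset.sum_congr rfl fun i _ => by push_cast; ring
      have e2 : ((∑ i, (u (Sum.inr i) + u' (Sum.inr i)) : ℕ) : ℤ) =
          ∑ i, (u (Sum.inr i) : ℤ) + ∑ i, (u' (Sum.inr i) : ℤ) := by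
        rw [Nat.cast_sum, ← Finset.sum_add_distrib]
        exact Finset.sum_congr rfl fun i _ => by push_cast; ring
      have e3 : ((∑ i, (u (Sum.inl i) + u' (Sum.inl i)) : ℕ) : ℤ) =
          ((∑ i, (u (Sum.inr i) + u' (Sum.inr i)) : ℕ) : ℤ) := by
        rw [e1, e2]; linarith
      exact_mod_cast e3
    · rintro (i | j)
      · rw [cpU_inl]; have := h1 (Sum.inl i); have := h2 (Sum.inl i); omega
      · rw [cpU_inr]; have := h1 (Sum.inr j); have := h2 (Sum.inr j); omega
  · rintro ⟨d, q⟩ h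
    simp only [Finset.mem_sigma, bxF, Finset.mem_filter, Fintype.mem_piFinset, blw,
      Finset.mem_Icc, Finset.mem_range, barF] at h
    obtain ⟨⟨h1, h2⟩, h3⟩ := h
    have hd : (fun v => cpU (cpS p d q) (fun v => d v - cpS p d q v) v +
        cpU (fun v => d v - cpS p d q v) (cpS p d q) v) = d := by
      funext v
      rcases v with i | j
      · rw [cpU_inl, cpU_inl]; unfold cpS; omega
      · rw [cpU_inr, cpU_inr]; unfold cpS; omega
    have hq : (fun v => min (cpU (cpS p d q) (fun v => d v - cpS p d q v) v +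
        cpU (fun v => d v - cpS p d q v) (cpS p d q) v) (p - 1) -
        cpU (cpU (cpS p d q) (fun v => d v - cpS p d q v))
          (cpU (fun v => d v - cpS p d q v) (cpS p d q)) v) = q := by
      funext v
      have hv := congrFun hd v
      rw [hv]
      rcases v with i | j
      · rw [cpU_inl, cpU_inl]
        have := h1 (Sum.inl i); have := h3 (Sum.inl i); unfold cpS; omega
      · rw [cpU_inr, cpU_inr]
        have := h1 (Sum.inr j); have := h3 (Sum.inr j); unfold cpS; omega
    simp only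
    rw [hq, hd]
  · rintro ⟨u, u'⟩ h
    simp only [Finset.mem_filter, Finset.mem_product, sq, Fintype.mem_piFinset,
      Finset.mem_range] at h
    obtain ⟨⟨h1, h2⟩, h3⟩ := h
    refine Prod.ext ?_ ?_
    · funext v
      rcases v with i | j
      · simp only [cpU_inl, cpS]
        have := h1 (Sum.inl i); have := h2 (Sum.inl i); omega
      · simp only [cpU_inr, cpS]
        have := h1 (Sum.inr j); have := h2 (Sum.inr j); omega
    · funext v
      rcases v with i | j
      · simp only [cpU_inl, cpS]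
        have := h1 (Sum.inl i); have := h2 (Sum.inl i); omega
      · simp only [cpU_inr, cpS]
        have := h1 (Sum.inr j); have := h2 (Sum.inr j); omega
  · rintro ⟨d, q⟩ h
    simp only [Finset.mem_sigma, bxF, Finset.mem_filter, Fintype.mem_piFinset, blw,
      Finset.mem_Icc, Finset.mem_range, barF] at h
    obtain ⟨⟨h1, h2⟩, h3⟩ := h
    congr 1
    unfold BalF at h2
    simp only [df, wq, barF, cpU_inl, cpU_inr]
    rw [Fintype.sum_sum_type]
    have e0 : ∀ v, (((min (d v) (2 * p - 2 - d v) : ℕ) : ℤ) - 2 * (q v : ℤ)) =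
        2 * ((cpS p d q v : ℕ) : ℤ) - (d v : ℤ) := by
      intro v
      have := h1 v; have := h3 v
      unfold cpS
      omega
    have e1 : ∀ v, (((d v - cpS p d q v : ℕ)) : ℤ) = (d v : ℤ) - ((cpS p d q v : ℕ) : ℤ) := by
      intro v
      unfold cpS
      omega
    simp only [e0, e1, Finset.sum_sub_distrib, ← Finset.mul_sum]
    have e3 : (∑ i, (d (Sum.inl i) : ℤ)) = (∑ i, (d (Sum.inr i) : ℤ)) := by exact_mod_cast h2
    linarith

end FSig
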