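import Pool.Agent.Lib.FSig.CntDefs

/-!
# CntRoot: fusion numbers by roots of unity

`xi p = exp(2 π i / (2p))` is a primitive `2p`-th root of unity (`Complex.isPrimitiveRoot_exp`).
`sum_root`: `(xi^j)^k = (xi^k)^j` (zpow, `← zpow_natCast`, `zpow_mul`, `mul_comm`); if `2p ∣ k` then `xi^k = 1` (`IsPrimitiveRoot.zpow_eq_one_iff_dvd`) and the sum is `2p`; otherwise `w = xi^k ≠ 1`, `w^(2p) = 1`: `geom_sum_eq` or `mul_geom_sum`: `(w - 1) ∑ w^j = w^(2p) - 1 = 0`.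
`prod_ch`: `∏_v ∑_{q ∈ range (d v + 1)} z^(d v - 2q) = ∑_{q ∈ blw d} ∏_v z^(d v - 2 q v)` (`Finset.prod_univ_sum`), and `∏_v z^(a v) = z^(∑ a v)` for `z ≠ 0` (induction on a finset, `zpow_add₀`).
`fus_root`: `gF p j = [2p ∣ j] - [2p ∣ j - 2]`, `(2p)·gF p j = ∑_{j'} ((xi^j')^j - (xi^j')^(j-2)) = ∑_{j'} (1 - (xi^j')^(-2)) (xi^j')^j` (`zpow_sub₀`); sum over `q ∈ blw d`, exchange the sums, `prod_ch`.
-/

namespace FSig

open Finset

private theorem CntRoot_zpow_sum {V : Type*} (s : Finset V) (a : V → ℤ) {z : ℂ} (hz : z ≠ 0) :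
    ∏ v ∈ s, z ^ (a v) = z ^ (∑ v ∈ s, a v) := by
  classical
  induction s using Finset.induction_on with
  | empty => simp
  | insert v s hv ih => rw [Finset.prod_insert hv, Finset.sum_insert hv, ih, zpow_add₀ hz]

theorem xi_prim (p : ℕ) (hp : 1 ≤ p) : IsPrimitiveRoot (xi p) (2 * p) := by
  unfold xi
  exact Complex.isPrimitiveRoot_exp (2 * p) (by omega)

theorem sum_root (p : ℕ) (hp : 1 ≤ p) (k : ℤ) :
    ∑ j ∈ range (2 * p), ((xi p) ^ j) ^ k = if (2 * p : ℤ) ∣ k then (2 * p : ℂ) else 0 := by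
  have hprim := xi_prim p hp
  have h1 : ∀ j : ℕ, ((xi p) ^ j) ^ k = ((xi p) ^ k) ^ j := by
    intro j
    rw [← zpow_natCast, ← zpow_mul, mul_comm, zpow_mul, zpow_natCast]
  simp_rw [h1]
  have h2 : (xi p) ^ k = 1 ↔ (2 * p : ℤ) ∣ k := by
    have := hprim.zpow_eq_one_iff_dvd k
    push_cast at this
    exact this
  by_cases hk : (2 * p : ℤ) ∣ k
  · rw [if_pos hk, h2.2 hk]
    simp
  · rw [if_neg hk]
    have hw : (xi p) ^ k ≠ 1 := fun h => hk (h2.1 h)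
    have hw1 : (xi p) ^ k - 1 ≠ 0 := sub_ne_zero.2 hw
    have hpow : ((xi p) ^ k) ^ (2 * p) = 1 := by
      rw [← zpow_natCast, ← zpow_mul, mul_comm, zpow_mul, zpow_natCast, hprim.pow_eq_one, one_zpow]
    have := mul_geom_sum ((xi p) ^ k) (2 * p)
    rw [hpow, sub_self] at this
    exact (mul_eq_zero.1 this).resolve_left hw1

theorem prod_ch {V : Type*} [Fintype V] [DecidableEq V] {z : ℂ} (hz : z ≠ 0) (d : V → ℕ) :
    ∏ v, ch z (d v) = ∑ q ∈ blw d, z ^ (wq d q) := by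
  unfold ch blw wq
  rw [Finset.prod_univ_sum]
  apply Finset.sum_congr rfl
  intro q _
  exact CntRoot_zpow_sum Finset.univ _ hz

theorem fus_root {V : Type*} [Fintype V] [DecidableEq V] (p : ℕ) (hp : 1 ≤ p) (d : V → ℕ) :
    (2 * p : ℂ) * ((csw (gF p) d : ℤ) : ℂ) =
      ∑ j ∈ range (2 * p), (1 - ((xi p) ^ j) ^ (-2 : ℤ)) * ∏ v, ch ((xi p) ^ j) (d v) := by
  have hprim := xi_prim p hp
  have hne : xi p ≠ 0 := hprim.ne_zero (by omega)
  have hnej : ∀ j : ℕ, (xi p) ^ j ≠ 0 := fun j => pow_ne_zero _ hne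
  have hg : ∀ k : ℤ, (2 * p : ℂ) * ((gF p k : ℤ) : ℂ) =
      ∑ j ∈ range (2 * p), (1 - ((xi p) ^ j) ^ (-2 : ℤ)) * ((xi p) ^ j) ^ k := by
    intro k
    have h1 : ∀ j : ℕ, (1 - ((xi p) ^ j) ^ (-2 : ℤ)) * ((xi p) ^ j) ^ k =
        ((xi p) ^ j) ^ k - ((xi p) ^ j) ^ (k - 2) := by
      intro j
      rw [sub_mul, one_mul, ← zpow_add₀ (hnej j)]
      congr 2
      ring
    simp_rw [h1]
    rw [Finset.sum_sub_distrib, sum_root p hp, sum_root p hp]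
    unfold gF
    push_cast
    rw [mul_sub]
    congr 1
    · split_ifs <;> simp
    · split_ifs <;> simp
  have h3 : ∀ j ∈ range (2 * p), (1 - ((xi p) ^ j) ^ (-2 : ℤ)) * ∏ v, ch ((xi p) ^ j) (d v) =
      ∑ q ∈ blw d, (1 - ((xi p) ^ j) ^ (-2 : ℤ)) * ((xi p) ^ j) ^ (wq d q) := by
    intro j _
    rw [prod_ch (hnej j), Finset.mul_sum]
  rw [Finset.sum_congr rfl h3, Finset.sum_comm]
  unfold csw
  push_cast
  rw [Finset.mul_sum]
  apply Finset.sum_congr rfl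
  intro q _
  exact hg _

end FSig
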