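import Pool.Agent.Lib.FSig.CntChi

/-!
# CntT1: sums of products of characters over the cube `[0, p-2]^V`

`sum_ch`: the map `x ↦ y`, `y v = p - 2 - x v` if `s v`, `y v = x v` otherwise, is a bijection of the cube `[0,p-2]^V` (an involution), `∑ y = sd s x + r (p-2)`, `r = #{v : s v}` (so `sd s x = κ ↔ ∑ y = M`), and `ch z (x v) = (if s v then -z^p else 1) * ch z (y v)` (`ch_refl` for `p - 2 - y v`),
`∏_v (if s v then -z^p else 1) = (-z^p)^r` (`Finset.prod_ite`, `Finset.prod_const`). Then `sum_prod_coeff` with `L = p - 1`, `a = ch z` (`Finset.sum_bij'` or `Finset.sum_nbij'`).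
`coeff_Gs`: `PowerSeries.coeff_mul`, `PowerSeries.coeff_mk`, `z^a * (z⁻¹)^b = z^(a - b)` (zpow, `z ≠ 0`).
`sum_ch_exact`: `sum_ch`, `Hs_pow` (`N = card V ≥ 1`), `coeff_gf` with `c = z^p`, `coeff_Gs`.
-/

namespace FSig

open Finset

/-- the reflection of the cube in the coordinates of `s` -/
private def cntT1flip {V : Type*} (p : ℕ) (s : V → Bool) (x : V → ℕ) : V → ℕ :=
  fun v => if s v then p - 2 - x v else x v

private theorem cntT1_le {V : Type*} [Fintype V] [DecidableEq V] {p : ℕ} (hp : 3 ≤ p) (x : V → ℕ)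
    (hx : x ∈ Fintype.piFinset fun _ : V => range (p - 1)) (v : V) : x v ≤ p - 2 := by
  have h := Finset.mem_range.1 (Fintype.mem_piFinset.1 hx v)
  omega

private theorem cntT1flip_mem {V : Type*} [Fintype V] [DecidableEq V] {p : ℕ} (hp : 3 ≤ p)
    (s : V → Bool) (x : V → ℕ) (hx : x ∈ Fintype.piFinset fun _ : V => range (p - 1)) :
    cntT1flip p s x ∈ Fintype.piFinset fun _ : V => range (p - 1) := by
  refine Fintype.mem_piFinset.2 fun v => Finset.mem_range.2 ?_
  have h := cntT1_le hp x hx v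
  unfold cntT1flip
  split_ifs <;> omega

private theorem cntT1flip_flip {V : Type*} {p : ℕ} (s : V → Bool) (x : V → ℕ)
    (hx : ∀ v, x v ≤ p - 2) : cntT1flip p s (cntT1flip p s x) = x := by
  funext v
  have h := hx v
  unfold cntT1flip
  split_ifs <;> omega

private theorem cntT1flip_sum {V : Type*} [Fintype V] {p : ℕ} (hp : 3 ≤ p)
    (s : V → Bool) (x : V → ℕ) (hx : ∀ v, x v ≤ p - 2) :
    ∑ v, ((cntT1flip p s x v : ℕ) : ℤ) =
      sd s x + (univ.filter fun v => s v).card * ((p : ℤ) - 2) := by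
  have e1 : ∀ v, ((cntT1flip p s x v : ℕ) : ℤ) =
      (if s v then -(x v : ℤ) else (x v : ℤ)) + (if s v then ((p : ℤ) - 2) else 0) := by
    intro v
    have h := hx v
    unfold cntT1flip
    split_ifs
    · omega
    · omega
  rw [Finset.sum_congr rfl fun v _ => e1 v, Finset.sum_add_distrib]
  unfold sd
  congr 1
  rw [← Finset.sum_filter, Finset.sum_const, nsmul_eq_mul]

theorem sum_ch {V : Type*} [Fintype V] [DecidableEq V] {z : ℂ} {p : ℕ} (hp : 3 ≤ p)
    (h1 : z ^ (2 * p) = 1) (h2 : z ^ 2 ≠ 1) (s : V → Bool) (κ : ℤ) (M : ℕ)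
    (hM : (M : ℤ) = κ + (univ.filter fun v => s v).card * ((p : ℤ) - 2)) :
    ∑ x ∈ (Fintype.piFinset fun _ : V => range (p - 1)).filter (fun x => sd s x = κ),
      ∏ v, ch z (x v) =
      (-z ^ p) ^ (univ.filter fun v => s v).card *
        PowerSeries.coeff M (Hs z p ^ Fintype.card V) := by
  have hH : PowerSeries.coeff M (Hs z p ^ Fintype.card V) =
      ∑ y ∈ (Fintype.piFinset fun _ : V => range (p - 1)).filter (fun y => ∑ v, y v = M),
        ∏ v, ch z (y v) := (sum_prod_coeff V (p - 1) M (ch z)).symm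
  rw [hH, Finset.mul_sum]
  refine Finset.sum_nbij' (cntT1flip p s) (cntT1flip p s) ?_ ?_ ?_ ?_ ?_
  · intro x hx
    obtain ⟨hx1, hx2⟩ := Finset.mem_filter.1 hx
    have hle := cntT1_le hp x hx1
    refine Finset.mem_filter.2 ⟨cntT1flip_mem hp s x hx1, ?_⟩
    have e := cntT1flip_sum hp s x hle
    rw [hx2, ← hM] at e
    exact_mod_cast e
  · intro x hx
    obtain ⟨hx1, hx2⟩ := Finset.mem_filter.1 hx
    have hle := cntT1_le hp x hx1
    refine Finset.mem_filter.2 ⟨cntT1flip_mem hp s x hx1, ?_⟩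
    have hle' := cntT1_le hp _ (cntT1flip_mem hp s x hx1)
    have e := cntT1flip_sum hp s (cntT1flip p s x) hle'
    rw [cntT1flip_flip s x hle] at e
    have e2 : (∑ v, ((x v : ℕ) : ℤ)) = (M : ℤ) := by exact_mod_cast hx2
    rw [e2, hM] at e
    linarith
  · intro x hx
    exact cntT1flip_flip s x (cntT1_le hp x (Finset.mem_filter.1 hx).1)
  · intro x hx
    exact cntT1flip_flip s x (cntT1_le hp x (Finset.mem_filter.1 hx).1)
  · intro x hx
    have hle := cntT1_le hp x (Finset.mem_filter.1 hx).1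
    have e1 : ∀ v, ch z (x v) = (if s v then -z ^ p else 1) * ch z (cntT1flip p s x v) := by
      intro v
      unfold cntT1flip
      by_cases h : s v = true
      · rw [if_pos h, if_pos h, ← ch_refl (by omega) h1 h2 (Nat.sub_le _ _)]
        congr 1
        have := hle v
        omega
      · rw [if_neg h, if_neg h, one_mul]
    have e2 : ∏ v : V, (if s v then -z ^ p else (1 : ℂ)) =
        (-z ^ p) ^ (univ.filter fun v => s v).card := by
      rw [Finset.prod_ite, Finset.prod_const, Finset.prod_const_one, mul_one]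
    rw [Finset.prod_congr rfl fun v _ => e1 v, Finset.prod_mul_distrib, e2]

theorem coeff_Gs {z : ℂ} (hz : z ≠ 0) (N s : ℕ) :
    PowerSeries.coeff s (Gs z N * Gs z⁻¹ N) = ∑ ab ∈ antidiagonal s,
      ((ab.1 + N - 1).choose (N - 1) : ℂ) * ((ab.2 + N - 1).choose (N - 1) : ℂ) *
        z ^ ((ab.1 : ℤ) - ab.2) := by
  rw [PowerSeries.coeff_mul]
  refine Finset.sum_congr rfl fun ab _ => ?_
  have e1 : PowerSeries.coeff ab.1 (Gs z N) = ((ab.1 + N - 1).choose (N - 1) : ℂ) * z ^ ab.1 := by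
    unfold Gs
    rw [PowerSeries.coeff_mk]
  have e2 : PowerSeries.coeff ab.2 (Gs z⁻¹ N) =
      ((ab.2 + N - 1).choose (N - 1) : ℂ) * z⁻¹ ^ ab.2 := by
    unfold Gs
    rw [PowerSeries.coeff_mk]
  rw [e1, e2, zpow_sub₀ hz, zpow_natCast, zpow_natCast, inv_pow, div_eq_mul_inv]
  ring

theorem sum_ch_exact {V : Type*} [Fintype V] [DecidableEq V] (hV : 1 ≤ Fintype.card V) {z : ℂ}
    {p : ℕ} (hp : 3 ≤ p) (h1 : z ^ (2 * p) = 1) (h2 : z ^ 2 ≠ 1) (s : V → Bool) (κ : ℤ) (M : ℕ)
    (hM : (M : ℤ) = κ + (univ.filter fun v => s v).card * ((p : ℤ) - 2)) :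
    ∑ x ∈ (Fintype.piFinset fun _ : V => range (p - 1)).filter (fun x => sd s x = κ),
      ∏ v, ch z (x v) =
      (-z ^ p) ^ (univ.filter fun v => s v).card *
        ∑ i ∈ range (Fintype.card V + 1), (-1) ^ i * ((Fintype.card V).choose i : ℂ) *
          (z ^ p) ^ i * (if p * i ≤ M then ∑ ab ∈ antidiagonal (M - p * i),
            ((ab.1 + Fintype.card V - 1).choose (Fintype.card V - 1) : ℂ) *
            ((ab.2 + Fintype.card V - 1).choose (Fintype.card V - 1) : ℂ) *
              z ^ ((ab.1 : ℤ) - ab.2) else 0) := by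
  have hz : z ≠ 0 := by
    rintro rfl
    rw [zero_pow (by omega)] at h1
    exact zero_ne_one h1
  rw [sum_ch hp h1 h2 s κ M hM, Hs_pow hp h1 h2 _ hV, coeff_gf]
  congr 1
  refine Finset.sum_congr rfl fun i _ => ?_
  by_cases h : p * i ≤ M
  · rw [if_pos h, if_pos h, coeff_Gs hz]
  · rw [if_neg h, if_neg h]

end FSig
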