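import Pool.Agent.Lib.FSig.CntT1
import Pool.Agent.Lib.FSig.CntRoot

/-!
# CntT2: fusion sums, exact formula

It is enough to prove the identity in `ℂ` after multiplication by `2p` (`Int.cast_injective`, `mul_left_cancel₀`). By `fus_root` and exchange of the sums
`2p * LHS = ∑_j (1 - ζ_j^(-2)) ∑_x ∏ ch ζ_j (x v)`, `ζ_j = xi^j`, `ζ_j^(2p) = 1`. If `ζ_j^2 = 1` the factor is `0` (on both sides), otherwise `sum_ch_exact`. With `N = card V`, `Q a = binom(a+N-1,N-1)`, `r = #{v : s v}`: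
`(1 - ζ^(-2)) (-ζ^p)^r (ζ^p)^i ζ^(a-b) = (-1)^r (ζ^e - ζ^(e-2))`, `e = rp + ip + a - b` (zpow arithmetic). Exchange the sums again, `∑_j (ζ_j^e - ζ_j^(e-2)) = 2p gF p e` by `sum_root`.
-/

namespace FSig

open Finset

private lemma bracket {z : ℂ} (hz : z ≠ 0) (p r i a b : ℕ) :
    (1 - z ^ (-2 : ℤ)) * ((-z ^ p) ^ r * ((z ^ p) ^ i * z ^ ((a : ℤ) - b))) =
      (-1) ^ r * (z ^ ((r : ℤ) * p + i * p + a - b) - z ^ ((r : ℤ) * p + i * p + a - b - 2)) := by
  have e1 : z ^ ((r : ℤ) * p + i * p + a - b) = (z ^ p) ^ r * (z ^ p) ^ i * z ^ ((a : ℤ) - b) := by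
    have h1 : (r : ℤ) * p + i * p + a - b = ((p * r : ℕ) : ℤ) + ((p * i : ℕ) : ℤ) +
        ((a : ℤ) - b) := by
      push_cast
      ring
    rw [h1, zpow_add₀ hz, zpow_add₀ hz, zpow_natCast, zpow_natCast, pow_mul, pow_mul]
  have e2 : z ^ ((r : ℤ) * p + i * p + a - b - 2) =
      z ^ ((r : ℤ) * p + i * p + a - b) * z ^ (-2 : ℤ) := by
    rw [← zpow_add₀ hz]
    rfl
  rw [e2, e1, neg_pow]
  ring

private lemma keyj {V : Type*} [Fintype V] [DecidableEq V] (hV : 1 ≤ Fintype.card V) {p : ℕ}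
    (hp : 3 ≤ p) (s : V → Bool) (κ : ℤ) (M : ℕ)
    (hM : (M : ℤ) = κ + (univ.filter fun v => s v).card * ((p : ℤ) - 2)) {z : ℂ}
    (hz : z ≠ 0) (h1 : z ^ (2 * p) = 1) :
    (1 - z ^ (-2 : ℤ)) *
      ∑ x ∈ (Fintype.piFinset fun _ : V => range (p - 1)).filter (fun x => sd s x = κ),
        ∏ v, ch z (x v) =
      (-1) ^ (univ.filter fun v => s v).card *
        ∑ i ∈ range (Fintype.card V + 1), (-1) ^ i * ((Fintype.card V).choose i : ℂ) *
          (if p * i ≤ M then ∑ ab ∈ antidiagonal (M - p * i),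
            ((ab.1 + Fintype.card V - 1).choose (Fintype.card V - 1) : ℂ) *
            ((ab.2 + Fintype.card V - 1).choose (Fintype.card V - 1) : ℂ) *
              (z ^ (((univ.filter fun v => s v).card : ℤ) * (p : ℤ) + i * p + ab.1 - ab.2) -
               z ^ (((univ.filter fun v => s v).card : ℤ) * (p : ℤ) + i * p + ab.1 - ab.2 - 2))
            else 0) := by
  by_cases h2 : z ^ 2 = 1
  · have h3 : z ^ (-2 : ℤ) = 1 := by
      have : z ^ (-2 : ℤ) = (z ^ 2)⁻¹ := by
        rw [zpow_neg]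
        norm_cast
      rw [this, h2, inv_one]
    have h4 : ∀ e : ℤ, z ^ (e - 2) = z ^ e := by
      intro e
      have : z ^ (e - 2) = z ^ e * z ^ (-2 : ℤ) := by
        rw [← zpow_add₀ hz]
        rfl
      rw [this, h3, mul_one]
    simp only [h3, h4, sub_self, zero_mul, mul_zero, Finset.sum_const_zero, ite_self]
  · rw [sum_ch_exact hV hp h1 h2 s κ M hM]
    rw [Finset.mul_sum, Finset.mul_sum, Finset.mul_sum]
    apply Finset.sum_congr rfl
    intro i _
    split_ifs with hi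
    · simp only [Finset.mul_sum]
      apply Finset.sum_congr rfl
      intro ab _
      have hb := bracket hz p (univ.filter fun v => s v).card i ab.1 ab.2
      have e1 : (1 - z ^ (-2 : ℤ)) * ((-z ^ p) ^ (univ.filter fun v => s v).card *
          ((-1) ^ i * ((Fintype.card V).choose i : ℂ) * (z ^ p) ^ i *
            (((ab.1 + Fintype.card V - 1).choose (Fintype.card V - 1) : ℂ) *
              ((ab.2 + Fintype.card V - 1).choose (Fintype.card V - 1) : ℂ) *
              z ^ ((ab.1 : ℤ) - ab.2)))) =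
          (-1) ^ i * ((Fintype.card V).choose i : ℂ) *
            (((ab.1 + Fintype.card V - 1).choose (Fintype.card V - 1) : ℂ) *
              ((ab.2 + Fintype.card V - 1).choose (Fintype.card V - 1) : ℂ)) *
            ((1 - z ^ (-2 : ℤ)) * ((-z ^ p) ^ (univ.filter fun v => s v).card *
              ((z ^ p) ^ i * z ^ ((ab.1 : ℤ) - ab.2)))) := by ring
      rw [e1, hb]
      ring
    · simp

theorem fus_sum1 {V : Type*} [Fintype V] [DecidableEq V] (hV : 1 ≤ Fintype.card V) {p : ℕ}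
    (hp : 3 ≤ p) (s : V → Bool) (κ : ℤ) (M : ℕ)
    (hM : (M : ℤ) = κ + (univ.filter fun v => s v).card * ((p : ℤ) - 2)) :
    ∑ x ∈ (Fintype.piFinset fun _ : V => range (p - 1)).filter (fun x => sd s x = κ),
      csw (gF p) x =
      (-1) ^ (univ.filter fun v => s v).card *
        ∑ i ∈ range (Fintype.card V + 1), (-1) ^ i * ((Fintype.card V).choose i : ℤ) *
          (if p * i ≤ M then ∑ ab ∈ antidiagonal (M - p * i),
            ((ab.1 + Fintype.card V - 1).choose (Fintype.card V - 1) : ℤ) *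
            ((ab.2 + Fintype.card V - 1).choose (Fintype.card V - 1) : ℤ) *
              gF p ((univ.filter fun v => s v).card * (p : ℤ) + i * p + ab.1 - ab.2) else 0) := by
  have hp1 : 1 ≤ p := by omega
  have hxi := xi_prim p hp1
  have hx0 : xi p ≠ 0 := hxi.ne_zero (by omega)
  have h2p : (2 * p : ℂ) ≠ 0 := by
    have : (p : ℂ) ≠ 0 := by
      exact_mod_cast (by omega : p ≠ 0)
    exact mul_ne_zero two_ne_zero this
  have hzj : ∀ j : ℕ, (xi p) ^ j ≠ 0 := fun j => pow_ne_zero j hx0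
  have hzp : ∀ j : ℕ, ((xi p) ^ j) ^ (2 * p) = 1 := by
    intro j
    rw [← pow_mul, mul_comm, pow_mul, hxi.pow_eq_one, one_pow]
  apply Int.cast_injective (α := ℂ)
  apply mul_left_cancel₀ h2p
  have hL : (2 * p : ℂ) *
      ((∑ x ∈ (Fintype.piFinset fun _ : V => range (p - 1)).filter (fun x => sd s x = κ),
        csw (gF p) x : ℤ) : ℂ) =
      ∑ j ∈ range (2 * p), (1 - ((xi p) ^ j) ^ (-2 : ℤ)) *
        ∑ x ∈ (Fintype.piFinset fun _ : V => range (p - 1)).filter (fun x => sd s x = κ),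
          ∏ v, ch ((xi p) ^ j) (x v) := by
    push_cast
    rw [Finset.mul_sum]
    rw [Finset.sum_congr rfl (fun x _ => fus_root p hp1 x), Finset.sum_comm]
    apply Finset.sum_congr rfl
    intro j _
    rw [Finset.mul_sum]
  rw [hL]
  rw [Finset.sum_congr rfl (fun j _ => keyj hV hp s κ M hM (hzj j) (hzp j))]
  have hsum : ∀ e : ℤ, ∑ j ∈ range (2 * p), (((xi p) ^ j) ^ e - ((xi p) ^ j) ^ (e - 2)) =
      (2 * p : ℂ) * (gF p e : ℂ) := by
    intro e
    rw [Finset.sum_sub_distrib, sum_root p hp1, sum_root p hp1]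
    unfold gF
    push_cast
    split_ifs <;> ring
  rw [← Finset.mul_sum, Finset.sum_comm]
  push_cast
  rw [mul_left_comm]
  congr 1
  rw [Finset.mul_sum]
  apply Finset.sum_congr rfl
  intro i _
  rw [← Finset.mul_sum, mul_left_comm]
  congr 1
  split_ifs with hi
  · rw [Finset.sum_comm, Finset.mul_sum]
    apply Finset.sum_congr rfl
    intro ab _
    rw [← Finset.mul_sum, hsum]
    ring
  · simp

end FSig
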