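import Pool.Agent.Lib.FSig.CntDefs

/-!
# CntT3: the inner sum

`S = K p - 2 n` with `K ≥ 1`, `2 ≤ n`, `2 n ≤ p` (`n` is `n0` in the statement). For `a + b = S` and `e = w + a - b` with `w ≡ K p (mod 2p)`: `e = w + 2a - Kp + 2 n0`, so `2p ∣ e ↔ p ∣ a + n0` and `2p ∣ e - 2 ↔ p ∣ a + n0 - 1` (cancel `2`; `w - K p` is a multiple of `2p`).
Sum over `a ∈ range (S + 1)` (`Finset.Nat.sum_antidiagonal_eq_sum_range_succ`). `p ∣ a + n0`, `0 ≤ a ≤ Kp - 2 n0`: `a + n0 = k p` with `1 ≤ k ≤ K - 1`, i.e. `a = kp - n0`, `b = (K-k)p - n0`. `p ∣ a + n0 - 1`: `a + n0 - 1 = kp`, `1 ≤ k ≤ K-1` (`k = 0` impossible since `n0 ≥ 2`), `a = kp - n0 + 1`, `b = (K-k) p - n0 - 1`.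
So the sum is `∑_k (f(kp-n0) f((K-k)p-n0) - f(kp-n0+1) f((K-k)p-n0-1))` (`Finset.sum_filter`, `Finset.sum_bij'` with `Ico 1 K`; two separate sums, natural subtractions are honest).
-/

namespace FSig

open Finset

private theorem gF_eval (p K n0 : ℕ) (w : ℤ) (hn : 2 ≤ n0)
    (hw : (2 * p : ℤ) ∣ w - K * p) (a b : ℕ) (hab : a + b + 2 * n0 = K * p) :
    gF p (w + a - b) = (if p ∣ a + n0 then 1 else 0) - (if p ∣ a + n0 - 1 then 1 else 0) := by
  have hab' : (a : ℤ) + b + 2 * n0 = K * p := by exact_mod_cast hab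
  have h1 : w + a - b = (w - K * p) + 2 * ((a + n0 : ℕ) : ℤ) := by
    push_cast
    linarith
  have h2 : w + a - b - 2 = (w - K * p) + 2 * ((a + n0 - 1 : ℕ) : ℤ) := by
    have : ((a + n0 - 1 : ℕ) : ℤ) = a + n0 - 1 := by omega
    rw [this]
    linarith
  have key : ∀ x : ℕ, ((2 * p : ℤ) ∣ (w - K * p) + 2 * (x : ℤ)) ↔ p ∣ x := by
    intro x
    rw [Int.dvd_add_right hw]
    constructor
    · intro h
      have h3 := Int.dvd_of_mul_dvd_mul_left (by norm_num : (2 : ℤ) ≠ 0) h
      exact_mod_cast h3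
    · intro h
      exact mul_dvd_mul_left 2 (by exact_mod_cast h)
  unfold gF
  rw [h2, h1]
  simp only [key]

theorem inner_sum (p K n0 : ℕ) (w : ℤ) (hK : 1 ≤ K) (hn : 2 ≤ n0) (hp : 2 * n0 ≤ p)
    (hw : (2 * p : ℤ) ∣ w - K * p) (f : ℕ → ℤ) :
    ∑ ab ∈ antidiagonal (K * p - 2 * n0), f ab.1 * f ab.2 * gF p (w + ab.1 - ab.2) =
      ∑ k ∈ Ico 1 K, (f (k * p - n0) * f ((K - k) * p - n0)
        - f (k * p - n0 + 1) * f ((K - k) * p - n0 - 1)) := by
  have hKp : p ≤ K * p := Nat.le_mul_of_pos_left p hK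
  have h0 : ∑ ab ∈ antidiagonal (K * p - 2 * n0), f ab.1 * f ab.2 * gF p (w + ab.1 - ab.2) =
      ∑ a ∈ range (K * p - 2 * n0 + 1), ((if p ∣ a + n0 then f a * f (K * p - 2 * n0 - a) else 0) -
        (if p ∣ a + n0 - 1 then f a * f (K * p - 2 * n0 - a) else 0)) := by
    rw [Finset.Nat.sum_antidiagonal_eq_sum_range_succ_mk]
    refine Finset.sum_congr rfl fun a ha => ?_
    rw [Finset.mem_range] at ha
    simp only
    rw [gF_eval p K n0 w hn hw a (K * p - 2 * n0 - a) (by omega)]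
    split_ifs <;> ring
  rw [h0, Finset.sum_sub_distrib, Finset.sum_sub_distrib, ← Finset.sum_filter, ← Finset.sum_filter]
  have hmul : ∀ k ∈ Ico 1 K, p ≤ k * p ∧ k * p + p ≤ K * p ∧ (K - k) * p = K * p - k * p := by
    intro k hk
    rw [Finset.mem_Ico] at hk
    refine ⟨Nat.le_mul_of_pos_left p hk.1, ?_, Nat.sub_mul K k p⟩
    have : (k + 1) * p ≤ K * p := Nat.mul_le_mul_right p hk.2
    rwa [Nat.add_mul, Nat.one_mul] at this
  have hp0 : 0 < p := by omega
  congr 1
  · refine Finset.sum_nbij' (fun a => (a + n0) / p) (fun k => k * p - n0) ?_ ?_ ?_ ?_ ?_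
    · intro a ha
      rw [Finset.mem_filter, Finset.mem_range] at ha
      obtain ⟨c, hc⟩ := ha.2
      rw [hc, Nat.mul_div_cancel_left c hp0, Finset.mem_Ico]
      constructor
      · rcases Nat.eq_zero_or_pos c with h | h
        · rw [h, Nat.mul_zero] at hc
          omega
        · exact h
      · by_contra h
        have : K * p ≤ c * p := Nat.mul_le_mul_right p (not_lt.mp h)
        rw [Nat.mul_comm c p, ← hc] at this
        omega
    · intro k hk
      obtain ⟨h1, h2, h3⟩ := hmul k hk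
      rw [Finset.mem_filter, Finset.mem_range]
      refine ⟨by omega, ?_⟩
      rw [Nat.sub_add_cancel (by omega)]
      exact Nat.dvd_mul_left p k
    · intro a ha
      rw [Finset.mem_filter, Finset.mem_range] at ha
      rw [Nat.div_mul_cancel ha.2]
      omega
    · intro k hk
      obtain ⟨h1, h2, h3⟩ := hmul k hk
      rw [Nat.sub_add_cancel (by omega), Nat.mul_div_cancel k hp0]
    · intro a ha
      rw [Finset.mem_filter, Finset.mem_range] at ha
      have e1 : (a + n0) / p * p = a + n0 := Nat.div_mul_cancel ha.2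
      have e2 : (K - (a + n0) / p) * p = K * p - (a + n0) := by rw [Nat.sub_mul, e1]
      rw [e1, e2]
      congr 2 <;> omega
  · refine Finset.sum_nbij' (fun a => (a + n0 - 1) / p) (fun k => k * p - n0 + 1) ?_ ?_ ?_ ?_ ?_
    · intro a ha
      rw [Finset.mem_filter, Finset.mem_range] at ha
      obtain ⟨c, hc⟩ := ha.2
      rw [hc, Nat.mul_div_cancel_left c hp0, Finset.mem_Ico]
      constructor
      · rcases Nat.eq_zero_or_pos c with h | h
        · rw [h, Nat.mul_zero] at hc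
          omega
        · exact h
      · by_contra h
        have : K * p ≤ c * p := Nat.mul_le_mul_right p (not_lt.mp h)
        rw [Nat.mul_comm c p, ← hc] at this
        omega
    · intro k hk
      obtain ⟨h1, h2, h3⟩ := hmul k hk
      rw [Finset.mem_filter, Finset.mem_range]
      refine ⟨by omega, ?_⟩
      have e : k * p - n0 + 1 + n0 - 1 = k * p := by omega
      rw [e]
      exact Nat.dvd_mul_left p k
    · intro a ha
      rw [Finset.mem_filter, Finset.mem_range] at ha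
      have e1 : (a + n0 - 1) / p * p = a + n0 - 1 := Nat.div_mul_cancel ha.2
      have e3 : p ≤ a + n0 - 1 := Nat.le_of_dvd (by omega) ha.2
      rw [e1]
      omega
    · intro k hk
      obtain ⟨h1, h2, h3⟩ := hmul k hk
      have e : k * p - n0 + 1 + n0 - 1 = k * p := by omega
      rw [e, Nat.mul_div_cancel k hp0]
    · intro a ha
      rw [Finset.mem_filter, Finset.mem_range] at ha
      have e1 : (a + n0 - 1) / p * p = a + n0 - 1 := Nat.div_mul_cancel ha.2
      have e3 : p ≤ a + n0 - 1 := Nat.le_of_dvd (by omega) ha.2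
      have e2 : (K - (a + n0 - 1) / p) * p = K * p - (a + n0 - 1) := by rw [Nat.sub_mul, e1]
      rw [e1, e2]
      congr 2 <;> omega

end FSig
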