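import Pool.Agent.Lib.FSig.CntT2
import Pool.Agent.Lib.FSig.CntT3

/-!
# CntT4: the second and third sum

`fus_sum2`: `fus_sum1` with `V = Vx m n`, `card = m + n`, `M = c p - 2 n` (`c ≥ 1`). For `i` with `p i ≤ M`, i.e. `i < c` (as `0 < 2n ≤ p`): `M - p i = (c - i) p - 2 n`, `inner_sum` with `K = c - i`, `w = r p + i p`, `w - K p = (r - c + 2i) p`, `r ≡ c (mod 2)`; `f a = binom(a + (m+n) - 1, m+n-1)`: `f (kp - n) = pb m n p k 1`, `f (kp - n + 1) = pb m n p k 2`,
`f (kp - n - 1) = pb m n p k 0` for `k ≥ 1` (`m, n ≥ 3`, `n + 1 ≤ p`: `kp - n + (m+n) - 1 = kp + (m - 2) + 1`). The terms `i ∈ range (m+n+1)` with `i ≥ c` vanish (condition false), the terms of `TT` with `i > m + n` vanish (`choose = 0`).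
`A2_eq`: `s = Sum.isRight`, `#{s} = n`, `κ = 0`, `c = n`; `bxF m n 0 (p-2)` is the filtered cube (`Icc 0 (p-2)` and `range (p-1)` have the same elements; `BalF x ↔ sd s x = 0`, `Fintype.sum_sum_type`).
`A3_eq`: reindex `d = 2p - 2 - x`, `x = barF p d` (involution; `p ≤ d v ≤ 2p-2`, so `barF p d v = 2p-2-d v ≤ p - 2`), `BalF d ↔ sd s x = (n - m)(2p - 2)` with `s = Sum.isLeft` (`∑_rows (2p-2-x) = m(2p-2) - ∑_rows x`, ...), `r = m`. If `m < 2n`: `c = 2n - m`, `κ + m(p-2) = c p - 2n`.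
If `2n ≤ m`: no `x` satisfies the condition (`sd s x ≥ -m(p-2)` and `(n-m)(2p-2) + m(p-2) = (2n-m)p - 2n < 0`), the sum is `0` and `TT m n p 0 = 0`.
-/

namespace FSig

open Finset

private theorem t4_pb (m n p k : ℕ) (hm : 3 ≤ m) (hp : 2 * (m + n) < p) (hk : 1 ≤ k) :
    (((k * p - n) + (m + n) - 1).choose (m + n - 1) : ℤ) = pb m n p k 1 ∧
    (((k * p - n + 1) + (m + n) - 1).choose (m + n - 1) : ℤ) = pb m n p k 2 ∧
    (((k * p - n - 1) + (m + n) - 1).choose (m + n - 1) : ℤ) = pb m n p k 0 := by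
  have h1 : p ≤ k * p := Nat.le_mul_of_pos_left p hk
  unfold pb
  refine ⟨?_, ?_, ?_⟩
  · have e : (k * p - n) + (m + n) - 1 = k * p + (m - 2) + 1 := by omega
    rw [e]
  · have e : (k * p - n + 1) + (m + n) - 1 = k * p + (m - 2) + 2 := by omega
    rw [e]
  · have e : (k * p - n - 1) + (m + n) - 1 = k * p + (m - 2) + 0 := by omega
    rw [e]

theorem fus_sum2 (m n p : ℕ) (hm : 3 ≤ m) (hn : 3 ≤ n) (hp : 2 * (m + n) < p)
    (s : Vx m n → Bool) (κ : ℤ) (c : ℕ) (hc : 1 ≤ c)
    (hM : (c : ℤ) * p - 2 * n = κ + (univ.filter fun v => s v).card * ((p : ℤ) - 2))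
    (hr : (2 : ℤ) ∣ (c : ℤ) - (univ.filter fun v => s v).card) :
    ∑ x ∈ (Fintype.piFinset fun _ : Vx m n => range (p - 1)).filter (fun x => sd s x = κ),
      csw (gF p) x = (-1) ^ (univ.filter fun v => s v).card * TT m n p c := by
  have hcard : Fintype.card (Vx m n) = m + n := by simp
  have hcp : p ≤ c * p := Nat.le_mul_of_pos_left p hc
  have hMn : ((c * p - 2 * n : ℕ) : ℤ) =
      κ + (univ.filter fun v => s v).card * ((p : ℤ) - 2) := by
    rw [← hM, Nat.cast_sub (by omega)]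
    push_cast
    ring
  rw [fus_sum1 (V := Vx m n) (by rw [hcard]; omega) (by omega) s κ (c * p - 2 * n) hMn, hcard]
  congr 1
  set r := (univ.filter fun v => s v).card with hrdef
  -- the terms
  set F : ℕ → ℤ := fun i => (-1) ^ i * ((m + n).choose i : ℤ) *
    (if p * i ≤ c * p - 2 * n then ∑ ab ∈ antidiagonal (c * p - 2 * n - p * i),
      ((ab.1 + (m + n) - 1).choose (m + n - 1) : ℤ) *
      ((ab.2 + (m + n) - 1).choose (m + n - 1) : ℤ) *
        gF p ((r : ℤ) * (p : ℤ) + i * p + ab.1 - ab.2) else 0) with hF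
  have e1 : ∑ i ∈ range (m + n + 1), F i = ∑ i ∈ range (m + n + 1 + c), F i := by
    refine sum_subset (range_mono (by omega)) fun i _ hi => ?_
    rw [mem_range, not_lt] at hi
    rw [hF]
    beta_reduce
    rw [Nat.choose_eq_zero_of_lt (by omega), Nat.cast_zero, mul_zero, zero_mul]
  have e2 : ∑ i ∈ range c, F i = ∑ i ∈ range (m + n + 1 + c), F i := by
    refine sum_subset (range_mono (by omega)) fun i _ hi => ?_
    rw [mem_range, not_lt] at hi
    have h2 : ¬ (p * i ≤ c * p - 2 * n) := by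
      have : c * p ≤ p * i := by
        rw [mul_comm c p]
        exact Nat.mul_le_mul_left p hi
      omega
    rw [hF]
    beta_reduce
    rw [if_neg h2, mul_zero]
  rw [e1, ← e2]
  unfold TT
  refine sum_congr rfl fun i hi => ?_
  rw [mem_range] at hi
  rw [hF]
  beta_reduce
  have h3 : p * i + p ≤ c * p := by
    have : p * (i + 1) ≤ p * c := Nat.mul_le_mul_left p hi
    rw [mul_add, mul_one, mul_comm p c] at this
    exact this
  rw [if_pos (by omega)]
  congr 1
  have h4 : c * p - 2 * n - p * i = (c - i) * p - 2 * n := by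
    rw [Nat.sub_mul, mul_comm p i]
    omega
  rw [h4]
  have h5 := inner_sum p (c - i) n ((r : ℤ) * p + i * p) (by omega) (by omega) (by omega) ?_
    (fun a => ((a + (m + n) - 1).choose (m + n - 1) : ℤ))
  · rw [h5]
    refine sum_congr rfl fun k hk => ?_
    rw [mem_Ico] at hk
    obtain ⟨a1, a2, -⟩ := t4_pb m n p k hm hp hk.1
    obtain ⟨b1, -, b3⟩ := t4_pb m n p (c - i - k) hm hp (by omega)
    rw [a1, a2, b1, b3]
  · obtain ⟨t, ht⟩ := hr
    refine ⟨(i : ℤ) - t, ?_⟩
    rw [Nat.cast_sub hi.le]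
    have : (r : ℤ) = c - 2 * t := by linarith
    rw [this]
    ring

private theorem t4_cube (m n p : ℕ) (hp : 2 ≤ p) (x : Vx m n → ℕ) :
    x ∈ (Fintype.piFinset fun _ : Vx m n => range (p - 1)) ↔ ∀ v, x v ≤ p - 2 := by
  rw [Fintype.mem_piFinset]
  refine forall_congr' fun v => ?_
  rw [mem_range]
  omega

private theorem t4_right (m n : ℕ) :
    (univ.filter fun v : Vx m n => (Sum.isRight v : Bool)).card = n := by
  rw [card_filter, Fintype.sum_sum_type]
  simp

private theorem t4_left (m n : ℕ) :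
    (univ.filter fun v : Vx m n => (Sum.isLeft v : Bool)).card = m := by
  rw [card_filter, Fintype.sum_sum_type]
  simp

private theorem t4_sdR {m n : ℕ} (x : Vx m n → ℕ) : sd Sum.isRight x =
    ∑ i, (x (Sum.inl i) : ℤ) - ∑ j, (x (Sum.inr j) : ℤ) := by
  unfold sd
  rw [Fintype.sum_sum_type]
  simp [sub_eq_add_neg]

private theorem t4_sdL {m n : ℕ} (x : Vx m n → ℕ) : sd Sum.isLeft x =
    ∑ j, (x (Sum.inr j) : ℤ) - ∑ i, (x (Sum.inl i) : ℤ) := by
  unfold sd
  rw [Fintype.sum_sum_type]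
  simp [sub_eq_add_neg, add_comm]

theorem A2_eq (m n p : ℕ) (hm : 3 ≤ m) (hn : 3 ≤ n) (hp : 2 * (m + n) < p) :
    A2 m n p = (-1) ^ n * TT m n p n := by
  have h := fus_sum2 m n p hm hn hp Sum.isRight 0 n (by omega)
    (by rw [t4_right]; ring) (by rw [t4_right]; simp)
  rw [t4_right] at h
  rw [← h]
  unfold A2
  refine sum_congr ?_ fun _ _ => rfl
  ext x
  unfold bxF
  rw [mem_filter, mem_filter, t4_cube m n p (by omega), Fintype.mem_piFinset, t4_sdR]
  unfold BalF
  constructor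
  · rintro ⟨h1, h2⟩
    refine ⟨fun v => (mem_Icc.1 (h1 v)).2, ?_⟩
    rw [sub_eq_zero]
    exact_mod_cast h2
  · rintro ⟨h1, h2⟩
    refine ⟨fun v => mem_Icc.2 ⟨Nat.zero_le _, h1 v⟩, ?_⟩
    rw [sub_eq_zero] at h2
    exact_mod_cast h2

private theorem t4_sum {p : ℕ} {κ : Type} [Fintype κ] (d : κ → ℕ) (hd : ∀ v, d v ≤ 2 * p - 2)
    (hp : 1 ≤ p) :
    ∑ v, ((2 * p - 2 - d v : ℕ) : ℤ) = Fintype.card κ * (2 * (p : ℤ) - 2) - ∑ v, (d v : ℤ) := by
  have h1 : ∀ v, ((2 * p - 2 - d v : ℕ) : ℤ) = (2 * (p : ℤ) - 2) - d v := fun v => by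
    have := hd v
    omega
  rw [sum_congr rfl fun v _ => h1 v, sum_sub_distrib, sum_const, card_univ, nsmul_eq_mul]

theorem A3_eq (m n p : ℕ) (hm : 3 ≤ m) (hn : 3 ≤ n) (hp : 2 * (m + n) < p) :
    A3 m n p = (-1) ^ m * TT m n p (2 * n - m) := by
  have key : A3 m n p = ∑ x ∈ (Fintype.piFinset fun _ : Vx m n => range (p - 1)).filter
      (fun x => sd Sum.isLeft x = ((n : ℤ) - m) * (2 * (p : ℤ) - 2)), csw (gF p) x := by
    unfold A3
    refine sum_bij' (fun d _ => barF p d) (fun x _ => fun v => 2 * p - 2 - x v) ?_ ?_ ?_ ?_ ?_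
    · intro d hd
      unfold bxF at hd
      rw [mem_filter, Fintype.mem_piFinset] at hd
      obtain ⟨h1, h2⟩ := hd
      have h1' : ∀ v, p ≤ d v ∧ d v ≤ 2 * p - 2 := fun v => mem_Icc.1 (h1 v)
      have hb : ∀ v, barF p d v = 2 * p - 2 - d v := fun v => by
        unfold barF
        have := h1' v
        omega
      rw [mem_filter, t4_cube m n p (by omega), t4_sdL]
      refine ⟨fun v => ?_, ?_⟩
      · rw [hb]
        have := h1' v
        omega
      · simp only [hb]
        rw [t4_sum (fun j => d (Sum.inr j)) (fun j => (h1' _).2) (by omega),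
          t4_sum (fun i => d (Sum.inl i)) (fun i => (h1' _).2) (by omega), Fintype.card_fin,
          Fintype.card_fin]
        unfold BalF at h2
        have h2' : ∑ i, (d (Sum.inl i) : ℤ) = ∑ j, (d (Sum.inr j) : ℤ) := by exact_mod_cast h2
        rw [h2']
        ring
    · intro x hx
      rw [mem_filter, t4_cube m n p (by omega), t4_sdL] at hx
      obtain ⟨h1, h2⟩ := hx
      unfold bxF
      rw [mem_filter, Fintype.mem_piFinset]
      refine ⟨fun v => ?_, ?_⟩
      · rw [mem_Icc]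
        change p ≤ 2 * p - 2 - x v ∧ 2 * p - 2 - x v ≤ 2 * p - 2
        have := h1 v
        omega
      · unfold BalF
        have h3 : ∑ i, ((2 * p - 2 - x (Sum.inl i) : ℕ) : ℤ) =
            ∑ j, ((2 * p - 2 - x (Sum.inr j) : ℕ) : ℤ) := by
          rw [t4_sum (fun j => x (Sum.inr j)) (fun j => (h1 _).trans (by omega)) (by omega),
            t4_sum (fun i => x (Sum.inl i)) (fun i => (h1 _).trans (by omega)) (by omega),
            Fintype.card_fin, Fintype.card_fin]
          linarith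
        exact_mod_cast h3
    · intro d hd
      unfold bxF at hd
      rw [mem_filter, Fintype.mem_piFinset] at hd
      funext v
      have h1 := mem_Icc.1 (hd.1 v)
      unfold barF
      omega
    · intro x hx
      rw [mem_filter, t4_cube m n p (by omega)] at hx
      funext v
      have h1 := hx.1 v
      unfold barF
      change min (2 * p - 2 - x v) (2 * p - 2 - (2 * p - 2 - x v)) = x v
      omega
    · intro d _
      rfl
  rw [key]
  by_cases hmn : m < 2 * n
  · have h := fus_sum2 m n p hm hn hp Sum.isLeft (((n : ℤ) - m) * (2 * (p : ℤ) - 2)) (2 * n - m)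
      (by omega) (by rw [t4_left, Nat.cast_sub hmn.le]; push_cast; ring)
      (by
        rw [t4_left, Nat.cast_sub hmn.le]
        refine ⟨(n : ℤ) - m, ?_⟩
        push_cast
        ring)
    rw [t4_left] at h
    exact h
  · have h0 : 2 * n - m = 0 := by omega
    have h1 : TT m n p 0 = 0 := by
      unfold TT
      rw [range_zero, sum_empty]
    rw [h0, h1, mul_zero]
    refine sum_eq_zero fun x hx => ?_
    exfalso
    rw [mem_filter, t4_cube m n p (by omega), t4_sdL] at hx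
    obtain ⟨a1, a2⟩ := hx
    have a3 : ∑ i : Fin m, (x (Sum.inl i) : ℤ) ≤ m * ((p : ℤ) - 2) := by
      have : ∑ i : Fin m, (x (Sum.inl i) : ℤ) ≤ ∑ _i : Fin m, ((p : ℤ) - 2) := by
        refine sum_le_sum fun i _ => ?_
        have := a1 (Sum.inl i)
        omega
      rwa [sum_const, card_univ, Fintype.card_fin, nsmul_eq_mul] at this
    have a4 : 0 ≤ ∑ j : Fin n, (x (Sum.inr j) : ℤ) :=
      sum_nonneg fun j _ => Int.natCast_nonneg _
    have hmn' : (2 * (n : ℤ)) ≤ m := by
      push Not at hmn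
      exact_mod_cast hmn
    have hp' : (0 : ℤ) ≤ p := Int.natCast_nonneg _
    have hn' : (3 : ℤ) ≤ n := by exact_mod_cast hn
    nlinarith

end FSig
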