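import Pool.Agent.Lib.FSig.CntAs

/-!
# CntTAs: asymptotics of `TT`

`N = m + n`. `inner_As`: `I(K) = ∑_{k=1}^{K-1} (pb k 1 * pb (K-k) 1 - pb k 2 * pb (K-k) 0)`. By the reflection `k ↦ K - k` (`Finset.sum_bij'` or `Finset.sum_nbij'` on `Ico 1 K`) `∑ pb k 2 * pb (K-k) 0 = ∑ pb k 0 * pb (K-k) 2`, so
`2 I(K) = -∑_k (f2 g0 - 2 f1 g1 + f0 g2)`, `f_e = pb k e`, `g_e = pb (K-k) e`. `pb k e = binom(kp + (m-2) + e, N-1)`, `pb k (e+1) - pb k e = binom(kp + (m-2) + e, N-2)` (Pascal, `Nat.choose_succ_succ'`), `pb k 2 - 2 pb k 1 + pb k 0 = binom(kp + (m-2), N-3)`: `As.choose` gives the limits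
`k^(N-1)/(N-1)!`, `k^(N-2)/(N-2)!`, `k^(N-3)/(N-3)!`; `As.second` with `r = s = N - 3`.
With `a = k`, `b = K - k`, `r = N - 1`: `a^(r-2) b^r/((r-2)! r!) - 2 (ab)^(r-1)/((r-1)!)^2 + a^r b^(r-2)/(r! (r-2)!) = (r(r-1)(ab)^(r-2)(a-b)^2 - 2 r (ab)^(r-1)) / (r!)^2` (`r! = r (r-1)! = r (r-1) (r-2)!`;
`(a-b)^2 = a^2 + b^2 - 2ab`), which is the summand of `Gk r K` (as `K - 2a = b - a`).
`TT_As`: `TT = ∑_{i<c} (-1)^i binom(N,i) I(c-i)`; limit `-(∑_{i<c} (-1)^i binom(N,i) Gk (N-1) (c-i))/(2 (N-1)!^2)`, and with `k = c - i` (`Finset.sum_bij'`, `range c` and `Icc 1 c`) `∑_{i<c} (-1)^i binom(N,i) Gk (N-1) (c-i) = (-1)^c Hc N c`.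
-/

namespace FSig

open Finset

private theorem cntTAs_d1 (s t K : ℕ) :
    As (fun p => ((K * p + (s + 1)).choose (t + 2) : ℝ) - ((K * p + s).choose (t + 2) : ℝ))
      ((K : ℝ) ^ (t + 1) / ((t + 1).factorial : ℝ)) (t + 1) := by
  have h := As.choose K s (t + 1)
  have e : (fun p : ℕ => ((K * p + s).choose (t + 1) : ℝ)) = fun p =>
      ((K * p + (s + 1)).choose (t + 2) : ℝ) - ((K * p + s).choose (t + 2) : ℝ) := by
    funext p
    rw [← add_assoc, Nat.choose_succ_succ' (K * p + s) (t + 1)]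
    push_cast
    ring
  rw [e] at h
  exact h

private theorem cntTAs_dd (s t K : ℕ) :
    As (fun p => ((K * p + (s + 2)).choose (t + 2) : ℝ) -
        2 * ((K * p + (s + 1)).choose (t + 2) : ℝ) + ((K * p + s).choose (t + 2) : ℝ))
      ((K : ℝ) ^ t / (t.factorial : ℝ)) t := by
  have h := As.choose K s t
  have e : (fun p : ℕ => ((K * p + s).choose t : ℝ)) = fun p =>
      ((K * p + (s + 2)).choose (t + 2) : ℝ) -
        2 * ((K * p + (s + 1)).choose (t + 2) : ℝ) + ((K * p + s).choose (t + 2) : ℝ) := by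
    funext p
    have e1 : K * p + (s + 2) = K * p + s + 1 + 1 := by ring
    have e2 : K * p + (s + 1) = K * p + s + 1 := by ring
    rw [e1, e2, Nat.choose_succ_succ' (K * p + s + 1) (t + 1),
      Nat.choose_succ_succ' (K * p + s) t, Nat.choose_succ_succ' (K * p + s) (t + 1)]
    push_cast
    ring
  rw [e] at h
  exact h

private theorem cntTAs_second (s t k l : ℕ) :
    As (fun p => ((k * p + (s + 2)).choose (t + 2) : ℝ) * ((l * p + s).choose (t + 2) : ℝ) -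
        2 * (((k * p + (s + 1)).choose (t + 2) : ℝ) * ((l * p + (s + 1)).choose (t + 2) : ℝ)) +
        ((k * p + s).choose (t + 2) : ℝ) * ((l * p + (s + 2)).choose (t + 2) : ℝ))
      ((k : ℝ) ^ t / (t.factorial : ℝ) * ((l : ℝ) ^ (t + 2) / ((t + 2).factorial : ℝ)) -
        2 * ((k : ℝ) ^ (t + 1) / ((t + 1).factorial : ℝ) *
          ((l : ℝ) ^ (t + 1) / ((t + 1).factorial : ℝ))) +
        (k : ℝ) ^ (t + 2) / ((t + 2).factorial : ℝ) * ((l : ℝ) ^ t / (t.factorial : ℝ)))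
      (t + t + 2) :=
  As.second (As.choose k (s + 1) (t + 2)) (cntTAs_d1 (s + 1) t k) (cntTAs_d1 s t k)
    (cntTAs_dd s t k) (As.choose l (s + 1) (t + 2)) (cntTAs_d1 (s + 1) t l) (cntTAs_d1 s t l)
    (cntTAs_dd s t l)

private theorem cntTAs_lim (t k K : ℕ) (hk : k ≤ K) :
    (k : ℝ) ^ t / (t.factorial : ℝ) *
        (((K - k : ℕ) : ℝ) ^ (t + 2) / ((t + 2).factorial : ℝ)) -
        2 * ((k : ℝ) ^ (t + 1) / ((t + 1).factorial : ℝ) *
          (((K - k : ℕ) : ℝ) ^ (t + 1) / ((t + 1).factorial : ℝ))) +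
        (k : ℝ) ^ (t + 2) / ((t + 2).factorial : ℝ) *
          (((K - k : ℕ) : ℝ) ^ t / (t.factorial : ℝ)) =
    ((((((t + 2) * (t + 2 - 1) : ℕ) : ℚ) * ((k : ℚ) * ((K : ℚ) - k)) ^ (t + 2 - 2) *
        ((K : ℚ) - 2 * k) ^ 2 - 2 * ((t + 2 : ℕ) : ℚ) *
          ((k : ℚ) * ((K : ℚ) - k)) ^ (t + 2 - 1)) / ((t + 2).factorial : ℚ) ^ 2 : ℚ) : ℝ) := by
  have h1 : t + 2 - 1 = t + 1 := rfl
  have h2 : t + 2 - 2 = t := rfl
  rw [h1, h2, Nat.cast_sub hk, Nat.factorial_succ (t + 1), Nat.factorial_succ t]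
  have h3 : ((t.factorial : ℕ) : ℝ) ≠ 0 := by exact_mod_cast (Nat.factorial_pos t).ne'
  have h4 : ((t : ℝ) + 1) ≠ 0 := by positivity
  have h5 : ((t : ℝ) + 1 + 1) ≠ 0 := by positivity
  push_cast
  rw [mul_pow ((k : ℝ)), mul_pow ((k : ℝ))]
  field_simp
  ring

theorem inner_As (m n K : ℕ) (hm : 3 ≤ m) (hn : 3 ≤ n) :
    As (fun p => ((∑ k ∈ Ico 1 K, (pb m n p k 1 * pb m n p (K - k) 1
        - pb m n p k 2 * pb m n p (K - k) 0) : ℤ) : ℝ))
      ((-Gk (m + n - 1) K / (2 * ((m + n - 1).factorial : ℚ) ^ 2) : ℚ) : ℝ) (2 * (m + n) - 4) := by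
  obtain ⟨t, ht⟩ : ∃ t, m + n - 1 = t + 2 := ⟨m + n - 3, by omega⟩
  have hexp : 2 * (m + n) - 4 = t + t + 2 := by omega
  have hpb : ∀ p k e, ((pb m n p k e : ℤ) : ℝ) = ((k * p + (m - 2 + e)).choose (t + 2) : ℝ) := by
    intro p k e
    unfold pb
    rw [ht, add_assoc, Int.cast_natCast]
  have hrefl : ∀ p, ∑ k ∈ Ico 1 K, ((pb m n p k 2 : ℤ) : ℝ) * ((pb m n p (K - k) 0 : ℤ) : ℝ) =
      ∑ k ∈ Ico 1 K, ((pb m n p k 0 : ℤ) : ℝ) * ((pb m n p (K - k) 2 : ℤ) : ℝ) := by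
    intro p
    refine Finset.sum_nbij' (fun k => K - k) (fun k => K - k) ?_ ?_ ?_ ?_ ?_
    · intro k hk
      rw [Finset.mem_Ico] at hk ⊢
      omega
    · intro k hk
      rw [Finset.mem_Ico] at hk ⊢
      omega
    · intro k hk
      rw [Finset.mem_Ico] at hk
      omega
    · intro k hk
      rw [Finset.mem_Ico] at hk
      omega
    · intro k hk
      rw [Finset.mem_Ico] at hk
      have e1 : K - (K - k) = k := by omega
      rw [e1, mul_comm]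
  have h1 := As.const_mul (-1 / 2) (As.sum (Ico 1 K) (F := fun k p =>
    ((k * p + (m - 2 + 2)).choose (t + 2) : ℝ) * (((K - k) * p + (m - 2)).choose (t + 2) : ℝ) -
        2 * (((k * p + (m - 2 + 1)).choose (t + 2) : ℝ) *
          (((K - k) * p + (m - 2 + 1)).choose (t + 2) : ℝ)) +
        ((k * p + (m - 2)).choose (t + 2) : ℝ) *
          (((K - k) * p + (m - 2 + 2)).choose (t + 2) : ℝ))
    fun k _ => cntTAs_second (m - 2) t k (K - k))
  have hF : (fun p => ((∑ k ∈ Ico 1 K, (pb m n p k 1 * pb m n p (K - k) 1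
        - pb m n p k 2 * pb m n p (K - k) 0) : ℤ) : ℝ)) = fun p => -1 / 2 * ∑ k ∈ Ico 1 K,
      (((k * p + (m - 2 + 2)).choose (t + 2) : ℝ) *
        (((K - k) * p + (m - 2)).choose (t + 2) : ℝ) -
        2 * (((k * p + (m - 2 + 1)).choose (t + 2) : ℝ) *
          (((K - k) * p + (m - 2 + 1)).choose (t + 2) : ℝ)) +
        ((k * p + (m - 2)).choose (t + 2) : ℝ) *
          (((K - k) * p + (m - 2 + 2)).choose (t + 2) : ℝ)) := by
    funext p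
    have e1 : ∀ k, (((k * p + (m - 2 + 2)).choose (t + 2) : ℝ) *
        (((K - k) * p + (m - 2)).choose (t + 2) : ℝ) -
        2 * (((k * p + (m - 2 + 1)).choose (t + 2) : ℝ) *
          (((K - k) * p + (m - 2 + 1)).choose (t + 2) : ℝ)) +
        ((k * p + (m - 2)).choose (t + 2) : ℝ) *
          (((K - k) * p + (m - 2 + 2)).choose (t + 2) : ℝ)) =
        ((pb m n p k 2 : ℤ) : ℝ) * ((pb m n p (K - k) 0 : ℤ) : ℝ) -
        2 * (((pb m n p k 1 : ℤ) : ℝ) * ((pb m n p (K - k) 1 : ℤ) : ℝ)) +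
        ((pb m n p k 0 : ℤ) : ℝ) * ((pb m n p (K - k) 2 : ℤ) : ℝ) := by
      intro k
      rw [hpb, hpb, hpb, hpb, hpb, hpb, add_zero]
    have e2 : ∑ k ∈ Ico 1 K, (((pb m n p k 2 : ℤ) : ℝ) * ((pb m n p (K - k) 0 : ℤ) : ℝ) -
        2 * (((pb m n p k 1 : ℤ) : ℝ) * ((pb m n p (K - k) 1 : ℤ) : ℝ)) +
        ((pb m n p k 0 : ℤ) : ℝ) * ((pb m n p (K - k) 2 : ℤ) : ℝ)) =
        ∑ k ∈ Ico 1 K, ((pb m n p k 2 : ℤ) : ℝ) * ((pb m n p (K - k) 0 : ℤ) : ℝ) -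
        2 * ∑ k ∈ Ico 1 K, ((pb m n p k 1 : ℤ) : ℝ) * ((pb m n p (K - k) 1 : ℤ) : ℝ) +
        ∑ k ∈ Ico 1 K, ((pb m n p k 2 : ℤ) : ℝ) * ((pb m n p (K - k) 0 : ℤ) : ℝ) := by
      rw [Finset.sum_add_distrib, Finset.sum_sub_distrib, ← Finset.mul_sum, ← hrefl p]
    have e3 : ((∑ k ∈ Ico 1 K, (pb m n p k 1 * pb m n p (K - k) 1
        - pb m n p k 2 * pb m n p (K - k) 0) : ℤ) : ℝ) =
        ∑ k ∈ Ico 1 K, ((pb m n p k 1 : ℤ) : ℝ) * ((pb m n p (K - k) 1 : ℤ) : ℝ) -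
        ∑ k ∈ Ico 1 K, ((pb m n p k 2 : ℤ) : ℝ) * ((pb m n p (K - k) 0 : ℤ) : ℝ) := by
      rw [Int.cast_sum, ← Finset.sum_sub_distrib]
      refine Finset.sum_congr rfl fun k _ => ?_
      rw [Int.cast_sub, Int.cast_mul, Int.cast_mul]
    rw [Finset.sum_congr rfl fun k _ => e1 k, e2, e3]
    ring
  rw [hF, hexp]
  have hlim : ((-Gk (m + n - 1) K / (2 * ((m + n - 1).factorial : ℚ) ^ 2) : ℚ) : ℝ) =
      -1 / 2 * ∑ k ∈ Ico 1 K, ((k : ℝ) ^ t / (t.factorial : ℝ) *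
        (((K - k : ℕ) : ℝ) ^ (t + 2) / ((t + 2).factorial : ℝ)) -
        2 * ((k : ℝ) ^ (t + 1) / ((t + 1).factorial : ℝ) *
          (((K - k : ℕ) : ℝ) ^ (t + 1) / ((t + 1).factorial : ℝ))) +
        (k : ℝ) ^ (t + 2) / ((t + 2).factorial : ℝ) *
          (((K - k : ℕ) : ℝ) ^ t / (t.factorial : ℝ))) := by
    rw [Finset.sum_congr rfl fun k hk => cntTAs_lim t k K (Finset.mem_Ico.1 hk).2.le,
      ← Rat.cast_sum, ← Finset.sum_div, ht]
    have e1 : (-Gk (t + 2) K / (2 * ((t + 2).factorial : ℚ) ^ 2) : ℚ) =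
        -1 / 2 * (Gk (t + 2) K / ((t + 2).factorial : ℚ) ^ 2) := by
      rw [mul_comm (2 : ℚ), ← div_div]
      ring
    rw [e1, Rat.cast_mul]
    congr 1
    · norm_num
  rw [hlim]
  exact h1

theorem Hc_eq (N c : ℕ) :
    ∑ i ∈ range c, (-1) ^ i * (N.choose i : ℚ) * Gk (N - 1) (c - i) = (-1) ^ c * Hc N c := by
  unfold Hc
  rw [Finset.mul_sum]
  refine Finset.sum_nbij' (fun i => c - i) (fun i => c - i) ?_ ?_ ?_ ?_ ?_
  · intro i hi
    rw [Finset.mem_range] at hi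
    rw [Finset.mem_Icc]
    omega
  · intro i hi
    rw [Finset.mem_Icc] at hi
    rw [Finset.mem_range]
    omega
  · intro i hi
    rw [Finset.mem_range] at hi
    omega
  · intro i hi
    rw [Finset.mem_Icc] at hi
    omega
  · intro i hi
    rw [Finset.mem_range] at hi
    have e1 : c - (c - i) = i := by omega
    have e2 : ((-1 : ℚ)) ^ c * (-1) ^ (c - i) = (-1) ^ i := by
      rw [← pow_add]
      have e3 : c + (c - i) = 2 * (c - i) + i := by omega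
      rw [e3, pow_add, pow_mul, neg_one_sq, one_pow, one_mul]
    rw [e1, ← e2]
    ring

theorem TT_As (m n c : ℕ) (hm : 3 ≤ m) (hn : 3 ≤ n) :
    As (fun p => ((TT m n p c : ℤ) : ℝ))
      ((-((-1) ^ c * Hc (m + n) c) / (2 * ((m + n - 1).factorial : ℚ) ^ 2) : ℚ) : ℝ)
      (2 * (m + n) - 4) := by
  have h1 := As.sum (range c) (F := fun i p => ((-1) ^ i * ((m + n).choose i : ℝ)) *
    ((∑ k ∈ Ico 1 (c - i), (pb m n p k 1 * pb m n p (c - i - k) 1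
        - pb m n p k 2 * pb m n p (c - i - k) 0) : ℤ) : ℝ))
    fun i _ => As.const_mul ((-1) ^ i * ((m + n).choose i : ℝ)) (inner_As m n (c - i) hm hn)
  have hF : (fun p => ((TT m n p c : ℤ) : ℝ)) = fun p => ∑ i ∈ range c,
      ((-1) ^ i * ((m + n).choose i : ℝ)) *
    ((∑ k ∈ Ico 1 (c - i), (pb m n p k 1 * pb m n p (c - i - k) 1
        - pb m n p k 2 * pb m n p (c - i - k) 0) : ℤ) : ℝ) := by
    funext p
    unfold TT
    rw [Int.cast_sum]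
    refine Finset.sum_congr rfl fun i _ => ?_
    rw [Int.cast_mul, Int.cast_mul, Int.cast_pow, Int.cast_neg, Int.cast_one, Int.cast_natCast]
  rw [hF]
  have hlim : ((-((-1) ^ c * Hc (m + n) c) / (2 * ((m + n - 1).factorial : ℚ) ^ 2) : ℚ) : ℝ) =
      ∑ i ∈ range c, ((-1) ^ i * ((m + n).choose i : ℝ)) *
        ((-Gk (m + n - 1) (c - i) / (2 * ((m + n - 1).factorial : ℚ) ^ 2) : ℚ) : ℝ) := by
    rw [← Hc_eq, ← Finset.sum_neg_distrib, Finset.sum_div, Rat.cast_sum]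
    refine Finset.sum_congr rfl fun i _ => ?_
    push_cast
    ring
  rw [hlim]
  exact h1

end FSig
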