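import Pool.Agent.Lib.FSig.CntPair

/-!
# CntW: the first sum is a sum of second differences

The difference of the two weight functions at `2k` is a sum of indicators of `k = ±pl`, `k = ±pl+1`,
and the sums over pairs with `df u = k` are the products `DD k * DD (-k)`.
-/

namespace FSig

open Finset

theorem df_lower {m n p : ℕ} {u : Vx m n → ℕ} (hu : u ∈ sq m n p) :
    -((n : ℤ) * ((p : ℤ) - 1)) ≤ df u := by
  unfold sq at hu
  rw [Fintype.mem_piFinset] at hu
  have h1 : ∑ j : Fin n, (u (Sum.inr j) : ℤ) ≤ (n : ℤ) * ((p : ℤ) - 1) := by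
    have h2 : ∀ j ∈ (univ : Finset (Fin n)), (u (Sum.inr j) : ℤ) ≤ (p : ℤ) - 1 := by
      intro j _
      have h3 := Finset.mem_range.1 (hu (Sum.inr j))
      omega
    have h4 := Finset.sum_le_card_nsmul _ _ _ h2
    rwa [Finset.card_univ, Fintype.card_fin, nsmul_eq_mul] at h4
  have h5 : 0 ≤ ∑ i : Fin m, (u (Sum.inl i) : ℤ) :=
    Finset.sum_nonneg fun i _ => Int.natCast_nonneg _
  unfold df
  linarith

theorem sum_pair_eq (m n p : ℕ) (k : ℤ) :
    (∑ u ∈ sq m n p, ∑ u' ∈ sq m n p, if df u + df u' = 0 ∧ df u = k then (1 : ℤ) else 0) =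
      DD m n p k * DD m n p (-k) := by
  have h : ∀ c : ℤ, DD m n p c = ∑ u ∈ sq m n p, if df u = c then (1 : ℤ) else 0 := by
    intro c
    unfold DD
    rw [Finset.sum_boole]
  rw [h, h, Finset.sum_mul_sum]
  refine Finset.sum_congr rfl fun u _ => Finset.sum_congr rfl fun u' _ => ?_
  by_cases h1 : df u = k
  · by_cases h2 : df u' = -k
    · rw [if_pos h1, if_pos h2, if_pos ⟨by omega, h1⟩, one_mul]
    · rw [if_neg h2, mul_zero, if_neg]
      rintro ⟨h3, -⟩
      omega
  · rw [if_neg h1, zero_mul, if_neg fun h3 => h1 h3.2]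

private theorem cntW_dvd (n p : ℕ) (hp : 1 ≤ p) (k : ℤ) (h1 : -((n : ℤ) * p) < k)
    (h2 : k < (n : ℤ) * p) :
    ((if (p : ℤ) ∣ k then (1 : ℤ) else 0) - if k = 0 then (1 : ℤ) else 0) =
      ∑ l ∈ Ico 1 n, ((if k = (p : ℤ) * l then (1 : ℤ) else 0) +
        if k = -((p : ℤ) * l) then (1 : ℤ) else 0) := by
  have hp' : (0 : ℤ) < p := by exact_mod_cast hp
  by_cases hd : (p : ℤ) ∣ k
  · obtain ⟨c, rfl⟩ := hd
    rw [if_pos (dvd_mul_right _ _)]
    by_cases hc : c = 0
    · subst hc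
      rw [mul_zero, if_pos rfl, sub_self]
      refine (Finset.sum_eq_zero fun l hl => ?_).symm
      have hl1 := (Finset.mem_Ico.1 hl).1
      have hl2 : (0 : ℤ) < (p : ℤ) * l := mul_pos hp' (by exact_mod_cast hl1)
      rw [if_neg (by omega), if_neg (by omega), add_zero]
    · have hpc : (p : ℤ) * c ≠ 0 := mul_ne_zero hp'.ne' hc
      rw [if_neg hpc, sub_zero, mul_comm (n : ℤ)] at *
      have h3 : c < n := lt_of_mul_lt_mul_left h2 hp'.le
      have h4 : -(n : ℤ) < c := by
        refine lt_of_mul_lt_mul_left (a := (p : ℤ)) ?_ hp'.le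
        rw [mul_neg]
        exact h1
      rw [Finset.sum_eq_single c.natAbs]
      · rcases lt_or_gt_of_ne hc with h5 | h5
        · have h6 : ((c.natAbs : ℕ) : ℤ) = -c := by omega
          rw [h6, mul_neg, neg_neg, if_neg (by omega), if_pos rfl, zero_add]
        · have h6 : ((c.natAbs : ℕ) : ℤ) = c := by omega
          rw [h6, if_pos rfl, if_neg (by omega), add_zero]
      · intro l _ hl
        rw [if_neg, if_neg, add_zero]
        · intro h5
          rw [← mul_neg] at h5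
          have h6 := mul_left_cancel₀ hp'.ne' h5
          omega
        · intro h5
          have h6 := mul_left_cancel₀ hp'.ne' h5
          omega
      · intro h5
        exfalso
        apply h5
        rw [Finset.mem_Ico]
        omega
  · have hk0 : k ≠ 0 := fun h => hd (h ▸ dvd_zero _)
    rw [if_neg hd, if_neg hk0, sub_zero]
    refine (Finset.sum_eq_zero fun l _ => ?_).symm
    rw [if_neg, if_neg, add_zero]
    · intro h
      exact hd (h ▸ (dvd_neg.2 (dvd_mul_right _ _)))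
    · intro h
      exact hd (h ▸ dvd_mul_right _ _)

private theorem cntW_g (n p : ℕ) (hn : 2 ≤ n) (hp : 2 ≤ p) (k : ℤ)
    (h1 : -((n : ℤ) * ((p : ℤ) - 1)) ≤ k) (h2 : k ≤ (n : ℤ) * ((p : ℤ) - 1)) :
    gI (2 * k) - gF p (2 * k) =
      ∑ l ∈ Ico 1 n, (((if k = (p : ℤ) * l + 1 then (1 : ℤ) else 0) +
        if k = -((p : ℤ) * l - 1) then (1 : ℤ) else 0) -
        ((if k = (p : ℤ) * l then (1 : ℤ) else 0) +
        if k = -((p : ℤ) * l) then (1 : ℤ) else 0)) := by
  have hn' : (2 : ℤ) ≤ n := by exact_mod_cast hn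
  have hp' : (2 : ℤ) ≤ p := by exact_mod_cast hp
  have e1 : gI (2 * k) = (if k = 0 then (1 : ℤ) else 0) - if k - 1 = 0 then (1 : ℤ) else 0 := by
    unfold gI
    have a1 : (2 * k = 0) ↔ k = 0 := by omega
    have a2 : (2 * k = 2) ↔ k - 1 = 0 := by omega
    simp only [a1, a2]
  have e2 : gF p (2 * k) = (if (p : ℤ) ∣ k then (1 : ℤ) else 0) -
      if (p : ℤ) ∣ k - 1 then (1 : ℤ) else 0 := by
    unfold gF
    have a1 : ((2 * p : ℤ) ∣ 2 * k) ↔ (p : ℤ) ∣ k :=
      mul_dvd_mul_iff_left (by norm_num)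
    have a2 : ((2 * p : ℤ) ∣ 2 * k - 2) ↔ (p : ℤ) ∣ k - 1 := by
      rw [show 2 * k - 2 = 2 * (k - 1) by ring]
      exact mul_dvd_mul_iff_left (by norm_num)
    simp only [a1, a2]
  have e3 := cntW_dvd n p (by omega) k (by nlinarith) (by nlinarith)
  have e4 := cntW_dvd n p (by omega) (k - 1) (by nlinarith) (by nlinarith)
  rw [Finset.sum_sub_distrib, ← e3, e1, e2]
  have e5 : ∑ l ∈ Ico 1 n, ((if k = (p : ℤ) * l + 1 then (1 : ℤ) else 0) +
        if k = -((p : ℤ) * l - 1) then (1 : ℤ) else 0) =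
      ∑ l ∈ Ico 1 n, ((if k - 1 = (p : ℤ) * l then (1 : ℤ) else 0) +
        if k - 1 = -((p : ℤ) * l) then (1 : ℤ) else 0) := by
    refine Finset.sum_congr rfl fun l _ => ?_
    have a1 : (k = (p : ℤ) * l + 1) ↔ k - 1 = (p : ℤ) * l := by
      constructor <;> intro h <;> linarith
    have a2 : (k = -((p : ℤ) * l - 1)) ↔ k - 1 = -((p : ℤ) * l) := by
      constructor <;> intro h <;> linarith
    simp only [a1, a2]
  rw [e5, ← e4]
  ring

theorem A1_eq (m n p : ℕ) (hn : 2 ≤ n) (hp : 2 ≤ p) :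
    A1 m n p = ∑ l ∈ Ico 1 n,
      (DD m n p (p * l + 1) * DD m n p (-(p * l + 1)) - 2 * (DD m n p (p * l) * DD m n p (-(p * l)))
        + DD m n p (p * l - 1) * DD m n p (-(p * l - 1))) := by
  unfold A1
  rw [pair_sum m n p (by omega) fun j => gI j - gF p j]
  have e1 : ∀ u ∈ sq m n p, ∀ u' ∈ sq m n p,
      (if df u + df u' = 0 then gI (2 * df u) - gF p (2 * df u) else 0) =
      ∑ l ∈ Ico 1 n,
        (((if df u + df u' = 0 ∧ df u = (p : ℤ) * l + 1 then (1 : ℤ) else 0) +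
          if df u + df u' = 0 ∧ df u = -((p : ℤ) * l - 1) then (1 : ℤ) else 0) -
        ((if df u + df u' = 0 ∧ df u = (p : ℤ) * l then (1 : ℤ) else 0) +
          if df u + df u' = 0 ∧ df u = -((p : ℤ) * l) then (1 : ℤ) else 0)) := by
    intro u hu u' hu'
    by_cases h : df u + df u' = 0
    · rw [if_pos h]
      have h1 := df_lower hu
      have h2 := df_lower hu'
      rw [cntW_g n p hn hp (df u) h1 (by linarith)]
      simp only [h, true_and]
    · rw [if_neg h]
      symm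
      refine Finset.sum_eq_zero fun l _ => ?_
      simp only [h, false_and, if_false, add_zero, sub_zero]
  rw [Finset.sum_congr rfl fun u hu => Finset.sum_congr rfl fun u' hu' => e1 u hu u' hu']
  have e2 : ∀ u ∈ sq m n p, ∑ u' ∈ sq m n p, ∑ l ∈ Ico 1 n,
        (((if df u + df u' = 0 ∧ df u = (p : ℤ) * l + 1 then (1 : ℤ) else 0) +
          if df u + df u' = 0 ∧ df u = -((p : ℤ) * l - 1) then (1 : ℤ) else 0) -
        ((if df u + df u' = 0 ∧ df u = (p : ℤ) * l then (1 : ℤ) else 0) +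
          if df u + df u' = 0 ∧ df u = -((p : ℤ) * l) then (1 : ℤ) else 0)) =
      ∑ l ∈ Ico 1 n, ∑ u' ∈ sq m n p,
        (((if df u + df u' = 0 ∧ df u = (p : ℤ) * l + 1 then (1 : ℤ) else 0) +
          if df u + df u' = 0 ∧ df u = -((p : ℤ) * l - 1) then (1 : ℤ) else 0) -
        ((if df u + df u' = 0 ∧ df u = (p : ℤ) * l then (1 : ℤ) else 0) +
          if df u + df u' = 0 ∧ df u = -((p : ℤ) * l) then (1 : ℤ) else 0)) := fun u _ =>
    Finset.sum_comm
  rw [Finset.sum_congr rfl e2, Finset.sum_comm]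
  refine Finset.sum_congr rfl fun l _ => ?_
  simp only [Finset.sum_sub_distrib, Finset.sum_add_distrib]
  rw [sum_pair_eq, sum_pair_eq, sum_pair_eq, sum_pair_eq, neg_neg, neg_neg]
  ring

end FSig
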