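import Pool.Agent.Lib.FSig.CntBr
import Pool.Agent.Lib.FSig.CntD
import Pool.Agent.Lib.FSig.CntT4
import Pool.Agent.Lib.FSig.CntA1As
import Pool.Agent.Lib.FSig.CntTAs

/-!
# Count: the main sum (assembly)

For `p` prime, `p > 2(m+n)`: `Atot = A1 + A2 + A3` (`Atot_eq`), `A1_al`, `A2_eq`, `A3_eq`. The function `G p = (∑ .. al ..) + (-1)^n TT n + (-1)^m TT (2n-m)` satisfies `As G (sigma m n) (2N-4)`: `A1_As`, `TT_As`, `As.const_mul`, `As.add`;
`(-1)^n * (-((-1)^n Hc N n)/D) = -Hc N n / D`; `(-1)^m * (-((-1)^(2n-m) Hc N (2n-m))/D) = -Hc N (2n-m)/D` if `m ≤ 2n` (`(-1)^m (-1)^(2n-m) = (-1)^(2n) = 1`), and if `2n < m` then `2n - m = 0`, `Hc N 0 = 0`.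
Finally `|..| * p ≤ C p^(2N-4) = C p^(2N-5) * p`, divide by `p > 0`.
-/

namespace FSig

open Finset

private theorem sign_cancel (a : ℕ) (x : ℝ) : (-1 : ℝ) ^ a * ((-1) ^ a * x) = x := by
  rw [← mul_assoc, ← pow_add, ← two_mul, pow_mul]
  norm_num

theorem count (m n : ℕ) (hm : 3 ≤ m) (hn : 3 ≤ n) : ∃ C : ℝ, ∀ p : ℕ, p.Prime →
    2 * (m + n) < p → |((Atot m n p : ℤ) : ℝ) - ((sigma m n : ℚ) : ℝ) * (p : ℝ) ^ (2 * (m + n) - 4)|
      ≤ C * (p : ℝ) ^ (2 * (m + n) - 5) := by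
  have h1 := A1_As m n hm hn
  have h2 := (TT_As m n n hm hn).const_mul ((-1) ^ n)
  have h3 := (TT_As m n (2 * n - m) hm hn).const_mul ((-1) ^ m)
  obtain ⟨C, hC0, hC⟩ := (h1.add h2).add h3
  refine ⟨C, fun p hp hlt => ?_⟩
  have hp0 : 1 ≤ p := hp.one_lt.le
  have hpr : (0 : ℝ) < p := by exact_mod_cast hp0
  have hA : ((Atot m n p : ℤ) : ℝ) =
      ((∑ l ∈ Ico 1 n, (al m n p (n + l) 2 * al m n p (n - l) 0
        - 2 * (al m n p (n + l) 1 * al m n p (n - l) 1)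
        + al m n p (n + l) 0 * al m n p (n - l) 2) : ℤ) : ℝ)
      + (-1) ^ n * ((TT m n p n : ℤ) : ℝ) + (-1) ^ m * ((TT m n p (2 * n - m) : ℤ) : ℝ) := by
    rw [Atot_eq, A1_al m n p hm hn hlt, A2_eq m n p hm hn hlt, A3_eq m n p hm hn hlt]
    push_cast
    ring
  have hs : ((sigma m n : ℚ) : ℝ) =
      ((∑ j ∈ Ico 1 n, (bspl2 (m + n) (n + j) * bspl (m + n) (n - j)
        - 2 * bspl1 (m + n) (n + j) * bspl1 (m + n) (n - j)
        + bspl (m + n) (n + j) * bspl2 (m + n) (n - j)) : ℚ) : ℝ)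
      + (-1) ^ n * ((-((-1) ^ n * Hc (m + n) n) / (2 * ((m + n - 1).factorial : ℚ) ^ 2) : ℚ) : ℝ)
      + (-1) ^ m * ((-((-1) ^ (2 * n - m) * Hc (m + n) (2 * n - m)) /
          (2 * ((m + n - 1).factorial : ℚ) ^ 2) : ℚ) : ℝ) := by
    have e1 : (-1 : ℝ) ^ n * ((-((-1) ^ n * Hc (m + n) n) /
        (2 * ((m + n - 1).factorial : ℚ) ^ 2) : ℚ) : ℝ) =
        -((Hc (m + n) n / (2 * ((m + n - 1).factorial : ℚ) ^ 2) : ℚ) : ℝ) := by
      have := sign_cancel n (-((Hc (m + n) n / (2 * ((m + n - 1).factorial : ℚ) ^ 2) : ℚ) : ℝ))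
      rw [← this]
      push_cast
      ring
    have e2 : (-1 : ℝ) ^ m * ((-((-1) ^ (2 * n - m) * Hc (m + n) (2 * n - m)) /
          (2 * ((m + n - 1).factorial : ℚ) ^ 2) : ℚ) : ℝ) =
        -((Hc (m + n) (2 * n - m) / (2 * ((m + n - 1).factorial : ℚ) ^ 2) : ℚ) : ℝ) := by
      by_cases hmn : m ≤ 2 * n
      · have h5 : (-1 : ℝ) ^ (2 * n - m) = (-1) ^ m := by
          have h6 : (-1 : ℝ) ^ (2 * n - m) * (-1) ^ m = 1 := by
            rw [← pow_add, Nat.sub_add_cancel hmn, pow_mul]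
            norm_num
          have h7 : (-1 : ℝ) ^ m * (-1) ^ m = 1 := by
            rw [← pow_add, ← two_mul, pow_mul]
            norm_num
          calc (-1 : ℝ) ^ (2 * n - m) = (-1 : ℝ) ^ (2 * n - m) * ((-1) ^ m * (-1) ^ m) := by
                rw [h7, mul_one]
            _ = (-1) ^ m := by rw [← mul_assoc, h6, one_mul]
        have := sign_cancel m
          (-((Hc (m + n) (2 * n - m) / (2 * ((m + n - 1).factorial : ℚ) ^ 2) : ℚ) : ℝ))
        rw [← this]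
        push_cast
        rw [h5]
        ring
      · have h0 : 2 * n - m = 0 := by omega
        have hH : Hc (m + n) 0 = 0 := by simp [Hc]
        rw [h0, hH]
        simp
    rw [e1, e2]
    unfold sigma
    push_cast
    ring
  have hmain := hC p hp0
  rw [hA, hs]
  have hpow : (p : ℝ) ^ (2 * (m + n) - 4) = (p : ℝ) ^ (2 * (m + n) - 5) * p := by
    rw [← pow_succ]
    congr 1
    omega
  have h9 := hmain
  rw [show C * (p : ℝ) ^ (2 * (m + n) - 4) = (C * (p : ℝ) ^ (2 * (m + n) - 5)) * p by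
    rw [hpow]; ring] at h9
  exact le_of_mul_le_mul_right h9 hpr

end FSig
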