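import Mathlib

/-!
# MP_05de8f_ag : F-signature of the determinantal ring `R_{m,n,3}` (definitions)

Papers (team store): `MP_05de8f_paper76.md` (the number `rho_1`), `MP_05de8f_unif59.md` (general part),
`MP_05de8f_paper89.md` (independent version).

* `genMat m n K` generic matrix, `I3 m n K` the ideal of its `3 × 3` minors, `R3 m n K` the quotient,
  `ev0` evaluation at the origin, `irr` its kernel (the homogeneous maximal ideal), `L3 m n K` the
  localisation of `R3 m n K` at `irr`.
* `freeRank L q` : the largest `a` such that there is a surjective `L`-linear map `L^{1/q} → L^a`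
  (a `p^{-e}`-linear map: additive with `g (r ^ q * x) = r • g x`).
* `rk A q M` : the largest `a` such that there are `a` additive maps `φ_i : A → A` with
  `φ_i (r ^ q * x) = r * φ_i x` and `a` elements `f_j` with `det (φ_i (f_j)) ∉ M`.
-/

namespace FSig

open MvPolynomial

section

variable (m n : ℕ) (K : Type*) [Field K]

/-- The generic `m × n` matrix `(x_ij)` over `K[x_ij]`. -/
noncomputable def genMat : Matrix (Fin m) (Fin n) (MvPolynomial (Fin m × Fin n) K) :=
  Matrix.of fun i j => X (i, j)

/-- The ideal `I_3(X)` generated by the `3 × 3` minors of the generic matrix. -/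
noncomputable def I3 : Ideal (MvPolynomial (Fin m × Fin n) K) :=
  Ideal.span (Set.range fun rc : (Fin 3 ↪o Fin m) × (Fin 3 ↪o Fin n) =>
    ((genMat m n K).submatrix rc.1 rc.2).det)

/-- The determinantal ring `R_{m,n,3} = K[x_ij]/I_3(X)`. -/
abbrev R3 : Type _ := MvPolynomial (Fin m × Fin n) K ⧸ I3 m n K

lemma I3_le_ker : I3 m n K ≤ RingHom.ker (constantCoeff (σ := Fin m × Fin n) (R := K)) := by
  rw [I3, Ideal.span_le]
  rintro _ ⟨rc, rfl⟩
  simp only [SetLike.mem_coe, RingHom.mem_ker]
  rw [RingHom.map_det]
  have : (constantCoeff (σ := Fin m × Fin n) (R := K)).mapMatrix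
      ((genMat m n K).submatrix rc.1 rc.2) = 0 := by
    ext i j
    simp [genMat]
  rw [this]
  exact Matrix.det_zero

/-- Evaluation at the origin `R_{m,n,3} → K`. -/
noncomputable def ev0 : R3 m n K →+* K :=
  Ideal.Quotient.lift (I3 m n K) constantCoeff (fun a ha => by
    have := I3_le_ker m n K ha
    simpa [RingHom.mem_ker] using this)

/-- The homogeneous maximal ideal `(x_ij) R`, as the kernel of the evaluation at the origin. -/
noncomputable def irr : Ideal (R3 m n K) := RingHom.ker (ev0 m n K)

instance irr_isPrime : (irr m n K).IsPrime := by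
  unfold irr
  exact RingHom.ker_isPrime (ev0 m n K)

/-- The local ring of `R_{m,n,3}` at the origin. -/
abbrev L3 : Type _ := Localization.AtPrime (irr m n K)

end

/-- The largest rank of a free direct summand of `L^{1/q}` (`L` a local ring of characteristic `p`,
`q` a power of `p`): an `L`-linear surjection `L^{1/q} → L^a` is the same as an additive surjection
`g : L → L^a` with `g (r ^ q * x) = r • g x`. -/
noncomputable def freeRank (L : Type*) [CommRing L] (q : ℕ) : ℕ :=
  sSup {a : ℕ | ∃ g : L →+ (Fin a → L), (∀ r x, g (r ^ q * x) = r • g x) ∧ Function.Surjective g}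

/-- `q^{-1}`-linear endomorphisms of a commutative ring. -/
def PLin {A : Type*} [CommRing A] (q : ℕ) (φ : A →+ A) : Prop :=
  ∀ r x, φ (r ^ q * x) = r * φ x

/-- The set of `a` such that some `a × a` determinant `det (φ_i (f_j))` is not in `M`. -/
def rkSet (A : Type*) [CommRing A] (q : ℕ) (M : Ideal A) : Set ℕ :=
  {a : ℕ | ∃ (φ : Fin a → (A →+ A)) (f : Fin a → A), (∀ i, PLin q (φ i)) ∧
    (Matrix.of fun i j => φ i (f j)).det ∉ M}

/-- The rank of the pairing of `q^{-1}`-linear maps with elements, modulo `M`. -/
noncomputable def rk (A : Type*) [CommRing A] (q : ℕ) (M : Ideal A) : ℕ := sSup (rkSet A q M)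

end FSig
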