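import Mathlib

/-!
# MP_05de8f_ag : minors of a bilinear pairing (linear algebra, only Mathlib) (module DualMin)
-/

namespace FSig

private theorem pi_surj {K U : Type*} [Field K] [AddCommGroup U] [Module K U] {r : ℕ}
    (b : Fin r → U →ₗ[K] K) (hb : LinearIndependent K b) :
    Function.Surjective (LinearMap.pi b) := by
  rw [← LinearMap.range_eq_top]
  by_contra h
  obtain ⟨f, hf, hle⟩ := Submodule.exists_le_ker_of_lt_top _ (lt_top_iff_ne_top.2 h)
  apply hf
  have h1 : ∀ v : Fin r → K, f v = ∑ i, v i * f (Pi.single i 1) := by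
    intro v
    conv_lhs => rw [pi_eq_sum_univ' v, map_sum]
    refine Finset.sum_congr rfl fun i _ => ?_
    rw [map_smul, smul_eq_mul]
  have h2 : ∑ i, f (Pi.single i 1) • b i = 0 := by
    ext u
    have h3 : LinearMap.pi b u ∈ LinearMap.ker f := hle ⟨u, rfl⟩
    rw [LinearMap.mem_ker, h1] at h3
    rw [LinearMap.sum_apply, LinearMap.zero_apply, ← h3]
    refine Finset.sum_congr rfl fun i _ => ?_
    rw [LinearMap.smul_apply, smul_eq_mul, mul_comm]
    rfl
  have h4 := Fintype.linearIndependent_iff.1 hb _ h2
  ext i
  change f (Pi.single i 1) = 0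
  exact h4 i

private theorem ex_basis {K M : Type*} [Field K] [AddCommGroup M] [Module K M]
    (W : Submodule K M) [FiniteDimensional K W] :
    ∃ b : Fin (Module.finrank K W) → M, LinearIndependent K b ∧ ∀ i, b i ∈ W := by
  refine ⟨fun i => (Module.finBasis K W i : M), ?_, fun i => (Module.finBasis K W i).2⟩
  exact (Module.finBasis K W).linearIndependent.map' W.subtype (Submodule.ker_subtype _)

theorem exists_minor {K A U : Type*} [Field K] [AddCommGroup A] [Module K A] [AddCommGroup U] [Module K U]
    [FiniteDimensional K A] (B : A →ₗ[K] U →ₗ[K] K) :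
    ∃ (x : Fin (Module.finrank K (LinearMap.range B)) → A)
      (u : Fin (Module.finrank K (LinearMap.range B)) → U),
      (Matrix.of fun i j => B (x i) (u j)).det ≠ 0 := by
  obtain ⟨b, hb, hbm⟩ := ex_basis (LinearMap.range B)
  choose x hx using fun i => LinearMap.mem_range.1 (hbm i)
  have hind : LinearIndependent K fun i => B (x i) := by
    have h1 : (fun i => B (x i)) = b := funext hx
    rw [h1]
    exact hb
  have hs := pi_surj _ hind
  choose u hu using fun j : Fin (Module.finrank K (LinearMap.range B)) =>
    hs (Pi.single j 1)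
  refine ⟨x, u, ?_⟩
  have h2 : (Matrix.of fun i j => B (x i) (u j)) = 1 := by
    ext i j
    have h3 := congrFun (hu j) i
    rw [LinearMap.pi_apply] at h3
    rw [Matrix.of_apply, h3, Matrix.one_apply, Pi.single_apply]
  rw [h2, Matrix.det_one]
  exact one_ne_zero

theorem finrank_range_flip {K A U : Type*} [Field K] [AddCommGroup A] [Module K A] [AddCommGroup U]
    [Module K U] [FiniteDimensional K A] [FiniteDimensional K U] (B : A →ₗ[K] U →ₗ[K] K) :
    Module.finrank K (LinearMap.range B) = Module.finrank K (LinearMap.range B.flip) := by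
  have h1 : B.flip = (LinearMap.dualMap B) ∘ₗ (Module.evalEquiv K U).toLinearMap := by
    ext u a
    rfl
  rw [h1, LinearEquiv.range_comp]
  exact (LinearMap.finrank_range_dualMap_eq_finrank_range B).symm

theorem finrank_range_add_ker_flip {K A U : Type*} [Field K] [AddCommGroup A] [Module K A] [AddCommGroup U]
    [Module K U] [FiniteDimensional K A] [FiniteDimensional K U] (B : A →ₗ[K] U →ₗ[K] K) :
    Module.finrank K (LinearMap.range B) + Module.finrank K (LinearMap.ker B.flip) = Module.finrank K U := by
  rw [finrank_range_flip]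
  exact LinearMap.finrank_range_add_finrank_ker B.flip

end FSig
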