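import Pool.Agent.Lib.FSig.Count

/-!
# MP_05de8f_ag : closed form of `Atot` and small values of `sigma` (module Exact)

* `Atot_closed`: `Atot_eq`, `A1_al`, `A2_eq`, `A3_eq`.
* `Atot_33`: the binomials `binom(kp+1+e, 5)` as polynomials in `p`.
* `sigma_33`, `sigma_34`, `sigma_44`: evaluation.
-/

namespace FSig

open Finset

theorem Atot_closed (m n p : ℕ) (hm : 3 ≤ m) (hn : 3 ≤ n) (hp : 2 * (m + n) < p) :
    Atot m n p = ∑ l ∈ Ico 1 n, (al m n p (n + l) 2 * al m n p (n - l) 0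
      - 2 * (al m n p (n + l) 1 * al m n p (n - l) 1)
      + al m n p (n + l) 0 * al m n p (n - l) 2)
      + (-1) ^ n * TT m n p n + (-1) ^ m * TT m n p (2 * n - m) := by
  rw [Atot_eq, A1_al m n p hm hn hp, A2_eq m n p hm hn hp, A3_eq m n p hm hn hp]

private theorem choose5 (x : ℕ) (hx : 5 ≤ x) :
    (x.choose 5 : ℚ) = (x : ℚ) * (x - 1) * (x - 2) * (x - 3) * (x - 4) / 120 := by
  obtain ⟨y, rfl⟩ := Nat.exists_eq_add_of_le' hx
  have h := Nat.descFactorial_eq_factorial_mul_choose (y + 5) 5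
  have e1 : y + 5 - 1 = y + 4 := by omega
  have e2 : y + 5 - 2 = y + 3 := by omega
  have e3 : y + 5 - 3 = y + 2 := by omega
  have e4 : y + 5 - 4 = y + 1 := by omega
  have e0 : y + 5 - 0 = y + 5 := by omega
  have f5 : Nat.factorial 5 = 120 := rfl
  simp only [Nat.descFactorial_succ, Nat.descFactorial_zero, e0, e1, e2, e3, e4, f5] at h
  have g := congrArg (Nat.cast : ℕ → ℚ) h
  push_cast at g ⊢
  linarith

private theorem pb33 (p k e : ℕ) (hk : 1 ≤ k) (hp : 12 < p) : (pb 3 3 p k e : ℚ) =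
    ((k : ℚ) * p + 1 + e) * ((k : ℚ) * p + e) * ((k : ℚ) * p + e - 1) * ((k : ℚ) * p + e - 2) *
      ((k : ℚ) * p + e - 3) / 120 := by
  have h1 : p ≤ k * p := Nat.le_mul_of_pos_left p hk
  unfold pb
  rw [Int.cast_natCast, choose5 _ (by omega)]
  push_cast
  ring

theorem Atot_33 (p : ℕ) (hp : 12 < p) :
    480 * Atot 3 3 p = 241 * (p : ℤ) ^ 8 + 210 * (p : ℤ) ^ 6 + 9 * (p : ℤ) ^ 4 + 20 * (p : ℤ) ^ 2 := by
  rw [Atot_closed 3 3 p le_rfl le_rfl hp]
  have key : ((480 * (∑ l ∈ Ico 1 3, (al 3 3 p (3 + l) 2 * al 3 3 p (3 - l) 0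
      - 2 * (al 3 3 p (3 + l) 1 * al 3 3 p (3 - l) 1)
      + al 3 3 p (3 + l) 0 * al 3 3 p (3 - l) 2)
      + (-1) ^ 3 * TT 3 3 p 3 + (-1) ^ 3 * TT 3 3 p (2 * 3 - 3)) : ℤ) : ℚ) =
      ((241 * (p : ℤ) ^ 8 + 210 * (p : ℤ) ^ 6 + 9 * (p : ℤ) ^ 4 + 20 * (p : ℤ) ^ 2 : ℤ) : ℚ) := by
    have c0 : Nat.choose 6 0 = 1 := rfl
    have c1 : Nat.choose 6 1 = 6 := rfl
    have c2 : Nat.choose 6 2 = 15 := rfl
    have c3 : Nat.choose 6 3 = 20 := rfl
    have c4 : Nat.choose 6 4 = 15 := rfl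
    unfold al TT
    simp only [Finset.sum_Ico_succ_top (show 1 ≤ 2 by norm_num),
      Finset.sum_Ico_succ_top (show 1 ≤ 1 by norm_num), Finset.sum_range_succ,
      Finset.sum_range_zero, Finset.Ico_self, Finset.sum_empty, Nat.reduceAdd, Nat.reduceSub,
      Nat.reduceMul, c0, c1, c2, c3, c4]
    push_cast
    have q10 := pb33 p 1 0 (by norm_num) hp
    have q11 := pb33 p 1 1 (by norm_num) hp
    have q12 := pb33 p 1 2 (by norm_num) hp
    have q20 := pb33 p 2 0 (by norm_num) hp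
    have q21 := pb33 p 2 1 (by norm_num) hp
    have q22 := pb33 p 2 2 (by norm_num) hp
    have q30 := pb33 p 3 0 (by norm_num) hp
    have q31 := pb33 p 3 1 (by norm_num) hp
    have q32 := pb33 p 3 2 (by norm_num) hp
    have q40 := pb33 p 4 0 (by norm_num) hp
    have q41 := pb33 p 4 1 (by norm_num) hp
    have q42 := pb33 p 4 2 (by norm_num) hp
    have q50 := pb33 p 5 0 (by norm_num) hp
    have q51 := pb33 p 5 1 (by norm_num) hp
    have q52 := pb33 p 5 2 (by norm_num) hp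
    push_cast at q10 q11 q12 q20 q21 q22 q30 q31 q32 q40 q41 q42 q50 q51 q52
    rw [q10, q11, q12, q20, q21, q22, q30, q31, q32, q40, q41, q42, q50, q51, q52]
    ring
  exact_mod_cast key

theorem sigma_33 : sigma 3 3 = 241 / 480 := by
  decide +kernel

theorem sigma_34 : sigma 3 4 = 3899 / 14400 := by
  decide +kernel

theorem sigma_44 : sigma 4 4 = 70859 / 226800 := by
  decide +kernel

end FSig
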