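import Pool.Agent.Lib.FSig.UInv

/-!
# MP_05de8f_ag : invariants = polynomials in the brackets, balanced invariants = `Rp` (U2) (module Fft)

THEOREMS. `Inv_S`: for `f ∈ S d 0`: `f ∈ Inv ↔ f ∈ UI d 0 ↔ f ∈ BS d 0`. `V = Vx m n`: `f ∈ S d 0`, `d` balanced, `f ∈ Inv` ⟹ `f ∈ Rp`.
Conversely every `f ∈ Rp` is in `Inv`, its components `weightedHomogeneousComponent gr (d,w) f` are again in `Rp`, and they are `0` unless `w = 0` and
`d` is balanced.

PROOFS.
* `Inv → UI` clear (`mem_Inv_iff`); `UI d 0 = BS d 0` (`UI_eq_BS`, `w = 0`); a `bmon 0 M` is a product of brackets, each in `Inv`.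
* balanced: `bmon 0 M`, `M` a multiset of pairs of `Vx m n = Fin m ⊕ Fin n`, `∑ rows = ∑ cols` for `mdeg 0 M`. Show `bmon 0 M ∈ Rp` by strong induction on the number
  `r(M)` of pairs in `M` of type (row, row). Types of pairs: (row,row), (col,col), mixed. `#rows - #cols = 2 #(row,row) - 2 #(col,col) = 0`. If `r(M) = 0`: all pairs are mixed:
  `[inl i, inr j] ∈ Rp` (`= toT (X (i,j))`) and `[inr j, inl i] = -[inl i, inr j]`. If `r(M) > 0`: there is a pair `(v,v')` of rows and a pair `(w,w')` of columns, and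
  `[v v'][w w'] = [v w][v' w'] - [v w'][v' w]` (`ring` after unfolding; check the sign: `(a1 b2 - b1 a2)(a3 b4 - b3 a4) = (a1 b3 - b1 a3)(a2 b4 - b2 a4) - (a1 b4 - b1 a4)(a2 b3 - b2 a3)`).
  So `bmon 0 M` is the difference of two `bmon 0 M'` with `r(M') = r(M) - 1`, same multidegree.
* `Rp ≤ Inv`: generators `br_mem_Inv`. Components: `Rp` is spanned by the products of generators `[i j]`, which are homogeneous of balanced multidegree and weight `0`:
  `Algebra.adjoin`/range of `toT`: `f = toT g`, `g = ∑ monomials`; for a monomial `x^α`, `toT x^α = ∏ [i j]^(α ij) ∈ S d_α 0`, `d_α (inl i) = ∑_j α(i,j)`,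
  `d_α (inr j) = ∑_i α(i,j)`, balanced. The component of `toT g` is `toT (∑_{α : d_α = d} ..)`.
-/

namespace FSig

open MvPolynomial Finset

section general

variable {V : Type*} [DecidableEq V] (K : Type*) [Field K] (p : ℕ) [Fact p.Prime] [CharP K p]

private lemma bmon_zero_mem_Inv {V : Type*} (K : Type*) [Field K] (M : Multiset (V × V)) :
    bmon K 0 M ∈ Inv (V := V) K := by
  unfold bmon
  rw [Multiset.map_zero, Multiset.prod_zero, one_mul]
  apply Subalgebra.multiset_prod_mem
  intro x hx
  rw [Multiset.mem_map] at hx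
  obtain ⟨y, _, rfl⟩ := hx
  exact br_mem_Inv K y.1 y.2

private lemma BS_zero_le_Inv (d : V →₀ ℕ) :
    BS K d 0 ≤ Subalgebra.toSubmodule (Inv (V := V) K) := by
  unfold BS
  rw [Submodule.span_le]
  rintro x ⟨L, M, hL, _, rfl⟩
  rw [Multiset.card_eq_zero] at hL
  subst hL
  exact bmon_zero_mem_Inv K M

include p in
private lemma UI_zero_eq_BS (d : V →₀ ℕ) : UI K d 0 = BS K d 0 := by
  have h := UI_eq_BS K p d 0
  simpa using h

include p in
theorem mem_Inv_iff_BS {d : V →₀ ℕ} {f : T V K} (hf : f ∈ S K d 0) :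
    f ∈ Inv (V := V) K ↔ f ∈ BS K d 0 := by
  constructor
  · intro h
    rw [← UI_zero_eq_BS K p d, mem_UI]
    exact ⟨hf, fun k hk => ((mem_Inv_iff K f).1 h k hk).1⟩
  · intro h
    exact BS_zero_le_Inv K d h

include p in
theorem mem_Inv_iff_UI {d : V →₀ ℕ} {f : T V K} (hf : f ∈ S K d 0) :
    f ∈ Inv (V := V) K ↔ f ∈ UI K d 0 := by
  rw [UI_zero_eq_BS K p d]
  exact mem_Inv_iff_BS K p hf

end general

variable {m n : ℕ} (K : Type*) [Field K]

lemma plucker {V : Type*} (v v' w w' : V) :
    br K v v' * br K w w' = br K v w * br K v' w' - br K v w' * br K v' w := by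
  unfold br
  ring

lemma Rp_le_Inv : Rp m n K ≤ Inv (V := Vx m n) K := by
  rintro x ⟨g, rfl⟩
  induction g using MvPolynomial.induction_on with
  | C a =>
    have : (toT m n K).toRingHom (C a) = algebraMap K (T (Vx m n) K) a := by
      exact (toT m n K).commutes a
    rw [this]
    exact Subalgebra.algebraMap_mem _ a
  | add p q hp hq =>
    rw [map_add]
    exact Subalgebra.add_mem _ hp hq
  | mul_X p x hp =>
    rw [map_mul]
    refine Subalgebra.mul_mem _ hp ?_
    have : (toT m n K).toRingHom (X x) = br K (Sum.inl x.1 : Vx m n) (Sum.inr x.2) := by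
      change toT m n K (X x) = _
      unfold toT
      rw [aeval_X]
    rw [this]
    exact br_mem_Inv K _ _

private lemma toT_X (x : Fin m × Fin n) :
    toT m n K (X x) = br K (Sum.inl x.1 : Vx m n) (Sum.inr x.2) := by
  unfold toT
  rw [aeval_X]

/-- `#rows - #cols` -/
private def ell (d : Vx m n →₀ ℕ) : ℤ :=
  ∑ i : Fin m, (d (Sum.inl i) : ℤ) - ∑ j : Fin n, (d (Sum.inr j) : ℤ)

private lemma Bal_iff (d : Vx m n →₀ ℕ) : Bal d ↔ ell d = 0 := by
  unfold Bal ell
  rw [sub_eq_zero]
  norm_cast

private lemma ell_add (d e : Vx m n →₀ ℕ) : ell (d + e) = ell d + ell e := by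
  unfold ell
  simp only [Finsupp.add_apply, Nat.cast_add, Finset.sum_add_distrib]
  ring

private lemma ell_zero : ell (0 : Vx m n →₀ ℕ) = 0 := by
  unfold ell
  simp

/-- `1` on rows, `-1` on columns -/
private def sg (v : Vx m n) : ℤ := if v.isLeft then 1 else -1

private lemma ell_single (v : Vx m n) : ell (Finsupp.single v 1) = sg v := by
  unfold ell sg
  rcases v with i | j
  · have h1 : ∑ i' : Fin m, ((Finsupp.single (Sum.inl i : Vx m n) 1 (Sum.inl i') : ℕ) : ℤ) = 1 := by
      rw [Finset.sum_eq_single i]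
      · simp
      · intro b _ hb
        rw [Finsupp.single_apply, if_neg]
        · simp
        · intro h
          exact hb (Sum.inl_injective h).symm
      · intro h
        exact absurd (Finset.mem_univ _) h
    have h2 : ∑ j' : Fin n, ((Finsupp.single (Sum.inl i : Vx m n) 1 (Sum.inr j') : ℕ) : ℤ) = 0 := by
      apply Finset.sum_eq_zero
      intro b _
      rw [Finsupp.single_apply, if_neg]
      · simp
      · intro h
        exact Sum.inl_ne_inr h
    rw [h1, h2]
    simp
  · have h1 : ∑ i' : Fin m, ((Finsupp.single (Sum.inr j : Vx m n) 1 (Sum.inl i') : ℕ) : ℤ) = 0 := by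
      apply Finset.sum_eq_zero
      intro b _
      rw [Finsupp.single_apply, if_neg]
      · simp
      · intro h
        exact Sum.inr_ne_inl h
    have h2 : ∑ j' : Fin n, ((Finsupp.single (Sum.inr j : Vx m n) 1 (Sum.inr j') : ℕ) : ℤ) = 1 := by
      rw [Finset.sum_eq_single j]
      · simp
      · intro b _ hb
        rw [Finsupp.single_apply, if_neg]
        · simp
        · intro h
          exact hb (Sum.inr_injective h).symm
      · intro h
        exact absurd (Finset.mem_univ _) h
    rw [h1, h2]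
    simp

private lemma mdeg_zero_cons (x : Vx m n × Vx m n) (M : Multiset (Vx m n × Vx m n)) :
    mdeg 0 (x ::ₘ M) = Finsupp.single x.1 1 + Finsupp.single x.2 1 + mdeg 0 M := by
  unfold mdeg
  simp only [Multiset.map_cons, zero_add]
  rw [map_add, map_add, ← Multiset.singleton_add, ← Multiset.singleton_add, map_add, map_add,
    Multiset.toFinsupp_singleton, Multiset.toFinsupp_singleton]
  abel

private lemma bmon_zero_cons (x : Vx m n × Vx m n) (M : Multiset (Vx m n × Vx m n)) :
    bmon K 0 (x ::ₘ M) = br K x.1 x.2 * bmon K 0 M := by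
  unfold bmon
  simp only [Multiset.map_zero, Multiset.prod_zero, one_mul, Multiset.map_cons, Multiset.prod_cons]

/-- both entries rows -/
private def RR (x : Vx m n × Vx m n) : Prop := x.1.isLeft = true ∧ x.2.isLeft = true
/-- both entries columns -/
private def CC (x : Vx m n × Vx m n) : Prop := x.1.isLeft = false ∧ x.2.isLeft = false

private instance : DecidablePred (RR (m := m) (n := n)) := fun x => by unfold RR; infer_instance
private instance : DecidablePred (CC (m := m) (n := n)) := fun x => by unfold CC; infer_instance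

private lemma sg_pair (x : Vx m n × Vx m n) :
    sg x.1 + sg x.2 = 2 * (if RR x then 1 else 0) - 2 * (if CC x then 1 else 0) := by
  rcases x with ⟨a | a, b | b⟩ <;> simp [sg, RR, CC]

private lemma ell_mdeg (M : Multiset (Vx m n × Vx m n)) :
    ell (mdeg 0 M) = 2 * (Multiset.countP RR M : ℤ) - 2 * (Multiset.countP CC M : ℤ) := by
  induction M using Multiset.induction_on with
  | empty =>
    have : mdeg (0 : Multiset (Vx m n)) (0 : Multiset (Vx m n × Vx m n)) = 0 := by
      unfold mdeg
      simp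
    rw [this, ell_zero]
    simp
  | cons x M ih =>
    rw [mdeg_zero_cons, ell_add, ell_add, ell_single, ell_single, ih, sg_pair,
      Multiset.countP_cons, Multiset.countP_cons]
    push_cast
    ring

private lemma br_mixed_mem (x : Vx m n × Vx m n) (h1 : ¬ RR x) (h2 : ¬ CC x) :
    br K x.1 x.2 ∈ Rp m n K := by
  rcases x with ⟨a | a, b | b⟩
  · exact absurd ⟨rfl, rfl⟩ h1
  · exact ⟨X (a, b), toT_X K (a, b)⟩
  · have h : br K (Sum.inr a : Vx m n) (Sum.inl b) = - br K (Sum.inl b : Vx m n) (Sum.inr a) := by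
      unfold br
      ring
    change br K (Sum.inr a : Vx m n) (Sum.inl b) ∈ _
    rw [h]
    exact Subalgebra.neg_mem _ ⟨X (b, a), toT_X K (b, a)⟩
  · exact absurd ⟨rfl, rfl⟩ h2

private lemma bmon_mem_aux (k : ℕ) : ∀ M : Multiset (Vx m n × Vx m n),
    Multiset.countP RR M = k → ell (mdeg 0 M) = 0 → bmon K 0 M ∈ Rp m n K := by
  induction k with
  | zero =>
    intro M hM hb
    have h2 : Multiset.countP CC M = 0 := by
      rw [ell_mdeg, hM] at hb
      push_cast at hb
      omega
    rw [Multiset.countP_eq_zero] at hM h2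
    unfold bmon
    rw [Multiset.map_zero, Multiset.prod_zero, one_mul]
    apply Subalgebra.multiset_prod_mem
    intro x hx
    rw [Multiset.mem_map] at hx
    obtain ⟨y, hy, rfl⟩ := hx
    exact br_mixed_mem K y (hM y hy) (h2 y hy)
  | succ k ih =>
    intro M hM hb
    have hpos : 0 < Multiset.countP RR M := by omega
    rw [Multiset.countP_pos] at hpos
    obtain ⟨x, hxM, hx⟩ := hpos
    obtain ⟨M1, rfl⟩ := Multiset.exists_cons_of_mem hxM
    have hxC : ¬ CC x := by
      intro h
      rw [RR] at hx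
      rw [CC] at h
      rw [hx.1] at h
      exact absurd h.1 (by simp)
    have hc : 0 < Multiset.countP CC M1 := by
      have h3 := hb
      rw [ell_mdeg, hM, Multiset.countP_cons_of_neg _ hxC] at h3
      push_cast at h3
      omega
    rw [Multiset.countP_pos] at hc
    obtain ⟨y, hyM, hy⟩ := hc
    obtain ⟨M2, rfl⟩ := Multiset.exists_cons_of_mem hyM
    have hyR : ¬ RR y := by
      intro h
      rw [CC] at hy
      rw [RR] at h
      rw [hy.1] at h
      exact absurd h.1 (by simp)
    rw [Multiset.countP_cons_of_pos _ hx, Multiset.countP_cons_of_neg _ hyR] at hM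
    have hM2 : Multiset.countP RR M2 = k := by omega
    obtain ⟨v, v'⟩ := x
    obtain ⟨w, w'⟩ := y
    have hmix : ∀ a b : Vx m n, a.isLeft = true → b.isLeft = false →
        ¬ RR (a, b) := by
      intro a b _ h2 h
      rw [RR] at h
      have h3 : b.isLeft = true := h.2
      rw [h2] at h3
      exact absurd h3 (by simp)
    have hdeg1 : mdeg 0 ((v, w) ::ₘ (v', w') ::ₘ M2) = mdeg 0 ((v, v') ::ₘ (w, w') ::ₘ M2) := by
      simp only [mdeg_zero_cons]
      abel
    have hdeg2 : mdeg 0 ((v, w') ::ₘ (v', w) ::ₘ M2) = mdeg 0 ((v, v') ::ₘ (w, w') ::ₘ M2) := by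
      simp only [mdeg_zero_cons]
      abel
    have e1 : bmon K 0 ((v, v') ::ₘ (w, w') ::ₘ M2) =
        bmon K 0 ((v, w) ::ₘ (v', w') ::ₘ M2) - bmon K 0 ((v, w') ::ₘ (v', w) ::ₘ M2) := by
      simp only [bmon_zero_cons]
      have := plucker K v v' w w'
      linear_combination (bmon K 0 M2) * this
    rw [e1]
    apply Subalgebra.sub_mem
    · apply ih
      · rw [Multiset.countP_cons_of_neg _ (hmix v w hx.1 hy.1),
          Multiset.countP_cons_of_neg _ (hmix v' w' hx.2 hy.2), hM2]
      · rw [hdeg1]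
        exact hb
    · apply ih
      · rw [Multiset.countP_cons_of_neg _ (hmix v w' hx.1 hy.2),
          Multiset.countP_cons_of_neg _ (hmix v' w hx.2 hy.1), hM2]
      · rw [hdeg2]
        exact hb

lemma bmon_mem_Rp (M : Multiset (Vx m n × Vx m n)) (hb : Bal (mdeg 0 M)) : bmon K 0 M ∈ Rp m n K :=
  bmon_mem_aux K _ M rfl ((Bal_iff _).1 hb)

private lemma toT_monomial_mem (s : Fin m × Fin n →₀ ℕ) (a : K) :
    ∃ e : Vx m n →₀ ℕ, Bal e ∧ toT m n K (monomial s a) ∈ S K e 0 := by
  apply MvPolynomial.induction_on_monomial (motive := fun g => ∃ e : Vx m n →₀ ℕ, Bal e ∧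
    toT m n K g ∈ S K e 0)
  · intro a
    refine ⟨0, ?_, ?_⟩
    · rw [Bal_iff, ell_zero]
    · have : toT m n K (C a) = a • (1 : T (Vx m n) K) := by
        have h := (toT m n K).commutes a
        rw [Algebra.smul_def, mul_one]
        exact h
      rw [this]
      exact Submodule.smul_mem _ _ (one_mem_S K)
  · rintro g x ⟨e, he, hg⟩
    refine ⟨e + (Finsupp.single (Sum.inl x.1 : Vx m n) 1 + Finsupp.single (Sum.inr x.2 : Vx m n) 1),
      ?_, ?_⟩
    · rw [Bal_iff] at he ⊢
      rw [ell_add, ell_add, he, ell_single, ell_single]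
      simp [sg]
    · rw [map_mul, toT_X]
      have h := mul_mem_S K hg (br_mem_S K (Sum.inl x.1 : Vx m n) (Sum.inr x.2))
      simpa using h

private lemma Rp_component_both (g : MvPolynomial (Fin m × Fin n) K) (d : Vx m n →₀ ℕ) (w : ℤ) :
    weightedHomogeneousComponent (gr (V := Vx m n)) (d, w) (toT m n K g) ∈ Rp m n K ∧
    (¬ (Bal d ∧ w = 0) →
      weightedHomogeneousComponent (gr (V := Vx m n)) (d, w) (toT m n K g) = 0) := by
  classical
  induction g using MvPolynomial.induction_on' with
  | monomial s a =>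
    obtain ⟨e, he, hmem⟩ := toT_monomial_mem K s a
    have h := weightedHomogeneousComponent_of_mem (m := (d, w)) (show toT m n K (monomial s a) ∈
      weightedHomogeneousSubmodule K (gr (V := Vx m n)) (e, 0) from hmem)
    rw [h]
    constructor
    · split_ifs
      · exact ⟨monomial s a, rfl⟩
      · exact Subalgebra.zero_mem _
    · intro hn
      rw [if_neg]
      intro heq
      apply hn
      rw [Prod.mk.injEq] at heq
      exact ⟨heq.1 ▸ he, heq.2⟩
  | add p q hp hq =>
    rw [map_add, map_add]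
    constructor
    · exact Subalgebra.add_mem _ hp.1 hq.1
    · intro hn
      rw [hp.2 hn, hq.2 hn, add_zero]

lemma Rp_component {f : T (Vx m n) K} (hf : f ∈ Rp m n K) (d : Vx m n →₀ ℕ) (w : ℤ) :
    weightedHomogeneousComponent (gr (V := Vx m n)) (d, w) f ∈ Rp m n K := by
  obtain ⟨g, rfl⟩ := hf
  exact (Rp_component_both K g d w).1

lemma Rp_component_zero {f : T (Vx m n) K} (hf : f ∈ Rp m n K) (d : Vx m n →₀ ℕ) (w : ℤ)
    (h : ¬ (Bal d ∧ w = 0)) : weightedHomogeneousComponent (gr (V := Vx m n)) (d, w) f = 0 := by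
  obtain ⟨g, rfl⟩ := hf
  exact (Rp_component_both K g d w).2 h

/-- the balanced component of `Rp` -/
noncomputable def RS (d : Vx m n →₀ ℕ) : Submodule K (T (Vx m n) K) :=
  S K d 0 ⊓ (Rp m n K).toSubmodule

variable (p : ℕ) [Fact p.Prime] [CharP K p]

include p in
/-- (U2) -/
theorem mem_Rp_of_Inv {d : Vx m n →₀ ℕ} (hd : Bal d) {f : T (Vx m n) K} (hf : f ∈ S K d 0)
    (hI : f ∈ Inv (V := Vx m n) K) : f ∈ Rp m n K := by
  have h := (mem_Inv_iff_BS K p hf).1 hI
  have hle : BS K d 0 ≤ Subalgebra.toSubmodule (Rp m n K) := by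
    unfold BS
    rw [Submodule.span_le]
    rintro x ⟨L, M, hL, hM, rfl⟩
    rw [Multiset.card_eq_zero] at hL
    subst hL
    exact bmon_mem_Rp K M (hM ▸ hd)
  exact hle h

end FSig
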