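import Pool.Agent.Lib.FSig.General

/-!
# Module FrRk: the free rank of the local ring is the rank of the pairing on `Rp`
-/

namespace FSig

theorem freeRank_eq_rk (m n : ℕ) (hm : 2 ≤ m) (hn : 2 ≤ n) (p : ℕ) [Fact p.Prime]
    (K : Type*) [Field K] [CharP K p] [PerfectRing K p] (e : ℕ) :
    freeRank (L3 m n K) (p ^ e) = rk (Rp m n K) (p ^ e) (mRp m n K) := by
  rw [Pool.FSig.freeRank_L3 m n hm hn p K e, Pool.FSig.rk_Rp]

theorem freeRank_eq_rk_one (m n : ℕ) (hm : 2 ≤ m) (hn : 2 ≤ n) (p : ℕ) [Fact p.Prime]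
    (K : Type*) [Field K] [CharP K p] [PerfectRing K p] :
    freeRank (L3 m n K) p = rk (Rp m n K) p (mRp m n K) := by
  have h := freeRank_eq_rk m n hm hn p K 1
  rwa [pow_one] at h

end FSig
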