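import Pool.Agent.Lib.FSig.TDefs

/-!
# F-signature of the generic determinantal rings: definitions

`K` is a perfect field of characteristic `p`. For a ring `A` of characteristic `p` and `q = p ^ e` the
`A`-module `A ^ (1/q)` is `A` itself, on which `r : A` acts as multiplication by `r ^ q`; so a linear map
`A ^ (1/q) → A` is an additive map `φ : A → A` with `φ (r ^ q * x) = r * φ x`.
-/

namespace Pool.FSig

open MvPolynomial

/-- `φ` is an `A`-linear map from `A ^ (1/q)` to `A` -/
def PL {A : Type*} [CommRing A] (q : ℕ) (φ : A →+ A) : Prop :=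
  ∀ r x : A, φ (r ^ q * x) = r * φ x

/-- the free module `L ^ a` is a direct summand of `L ^ (1/q)`: there are linear maps
`i : L ^ a → L ^ (1/q)` and `g : L ^ (1/q) → L ^ a` with `g (i v) = v` -/
def IsFreeSummand (L : Type*) [CommRing L] (q a : ℕ) : Prop :=
  ∃ (i : (Fin a → L) →+ L) (g : L →+ (Fin a → L)),
    (∀ (r : L) (v : Fin a → L), i (r • v) = r ^ q * i v) ∧
    (∀ r x : L, g (r ^ q * x) = r • g x) ∧ ∀ v, g (i v) = v

/-- `a` is the rank of a free direct summand of `L ^ (1/q)` whose complement (the kernel of the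
projection `g`) has no nonzero free direct summand: there is no linear map `h` from the complement onto
`L` (`h` is given on all of `L ^ (1/q)`, which contains the complement as a direct summand) -/
def IsMaxFree (L : Type*) [CommRing L] (q a : ℕ) : Prop :=
  ∃ (i : (Fin a → L) →+ L) (g : L →+ (Fin a → L)),
    (∀ (r : L) (v : Fin a → L), i (r • v) = r ^ q * i v) ∧
    (∀ r x : L, g (r ^ q * x) = r • g x) ∧ (∀ v, g (i v) = v) ∧
    ¬ ∃ h : L →+ L, PL q h ∧ ∃ x, g x = 0 ∧ h x = 1

/-- the largest rank of a free direct summand of `L ^ (1/q)` -/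
noncomputable def freeRk (L : Type*) [CommRing L] (q : ℕ) : ℕ :=
  sSup {a : ℕ | IsFreeSummand L q a}

/-- `s` is the F-signature of the local ring `L` of dimension `d` and characteristic `p` -/
def IsFSignature (L : Type*) [CommRing L] (p d : ℕ) (s : ℝ) : Prop :=
  Filter.Tendsto (fun e : ℕ => (freeRk L (p ^ e) : ℝ) / ((p : ℝ) ^ e) ^ d) Filter.atTop (nhds s)


/-- `a` maps `φ i` and `a` elements `f j` such that the determinant of the values `φ i (f j)`, reduced by
`ε : A → K`, is not zero -/
def HasRk {A K : Type*} [CommRing A] [Field K] (ε : A →+* K) (q a : ℕ) : Prop :=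
  ∃ (φ : Fin a → (A →+ A)) (f : Fin a → A), (∀ i, PL q (φ i)) ∧
    (Matrix.of fun i j => ε (φ i (f j))).det ≠ 0

/-- the rank of the pairing of the linear maps `A ^ (1/q) → A` with `A ^ (1/q)` at the point `ε` -/
noncomputable def rk {A K : Type*} [CommRing A] [Field K] (ε : A →+* K) (q : ℕ) : ℕ :=
  sSup {a : ℕ | HasRk ε q a}

/-- the ideal generated by the `Q`-th powers of the elements of the kernel of `ε` -/
def frobPow {A K : Type*} [CommRing A] [Field K] (ε : A →+* K) (Q : ℕ) : Ideal A :=
  Ideal.span {z | ∃ y, ε y = 0 ∧ z = y ^ Q}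

/-- the `K`-algebra `A` is spanned over `K` by `D` elements modulo the ideal `I` -/
def SpanMod (K : Type*) {A : Type*} [Field K] [CommRing A] [Algebra K A] (I : Ideal A) (D : ℕ) : Prop :=
  ∃ g : Fin D → A, ∀ f : A, ∃ c : Fin D → K, f - ∑ k, c k • g k ∈ I

/-- A chart of the `K`-algebra `R`, generated by the `x k`: an injection `j` of `R` into a polynomial
ring `K[ι]` such that `s * X i ∈ R` for all variables `X i`, where `s` is a nonzero quadratic form in the `x k`;
every `j (x k)` is squarefree and of degree one in the variables of `Z`. -/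
structure IsChart {K R ι : Type*} [Field K] [CommRing R] [Algebra K R] {M : ℕ}
    (j : R →ₐ[K] MvPolynomial ι K) (x : Fin M → R) (s : R) (Z : Finset ι) : Prop where
  inj : Function.Injective j
  gen : Algebra.adjoin K (Set.range x) = ⊤
  sqf : ∀ k, ∀ μ ∈ (j (x k)).support, ∀ i, μ i ≤ 1
  deg : ∀ k, ∀ μ ∈ (j (x k)).support, ∑ i ∈ Z, μ i = 1
  totdeg : ∀ k, (j (x k)).totalDegree ≤ 2
  s_ne : s ≠ 0
  s_mem : s ∈ (Submodule.span K (Set.range x)) ^ 2
  mul : ∀ i, ∃ r, j r = j s * X i
  Z_ne : Z.Nonempty

end Pool.FSig
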