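import Mathlib

/-!
# Module LimS: a sequence with `|a (e+1) - a e| ≤ C / p^e`

`C / p ^ e = C * (1/p) ^ e` is summable (`1/p ≤ 1/2`), so `a` converges (`cauchySeq_of_le_geometric`,
`cauchySeq_tendsto_of_complete`); `|s - a 1| ≤ ∑_{e ≥ 1} C / p^e = C / (p - 1) ≤ 2 C / p` (`dist_le_of_le_geometric_of_tendsto`
for the sequence `e ↦ a (e + 1)` with constant `C / p`: the bound is `(C / p) / (1 - 1/p) = C / (p - 1)`).
-/

namespace Pool.FSig

theorem exists_limit (a : ℕ → ℝ) (C : ℝ) (p : ℕ) (hp : 2 ≤ p)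
    (h : ∀ e, |a (e + 1) - a e| ≤ C / (p : ℝ) ^ e) :
    ∃ s : ℝ, Filter.Tendsto a Filter.atTop (nhds s) ∧ |s - a 1| ≤ 2 * C / p := by
  have hp2 : (2 : ℝ) ≤ p := by exact_mod_cast hp
  have hp0 : (0 : ℝ) < p := by linarith
  have hC : 0 ≤ C := by
    have h0 := h 0
    rw [pow_zero, div_one] at h0
    exact le_trans (abs_nonneg _) h0
  have hr : (1 : ℝ) / p < 1 := by
    rw [div_lt_one hp0]
    linarith
  have hu : ∀ e, dist (a e) (a (e + 1)) ≤ C * (1 / (p : ℝ)) ^ e := by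
    intro e
    rw [dist_comm, Real.dist_eq]
    refine le_trans (h e) (le_of_eq ?_)
    rw [one_div, inv_pow]
    rfl
  have hu' : ∀ e, dist (a (e + 1)) (a (e + 1 + 1)) ≤ C / p * (1 / (p : ℝ)) ^ e := by
    intro e
    refine le_trans (hu (e + 1)) (le_of_eq ?_)
    rw [pow_succ]
    ring
  obtain ⟨s, hs⟩ := cauchySeq_tendsto_of_complete (cauchySeq_of_le_geometric (1 / (p : ℝ)) C hr hu)
  refine ⟨s, hs, ?_⟩
  have hs' : Filter.Tendsto (fun e => a (e + 1)) Filter.atTop (nhds s) :=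
    (Filter.tendsto_add_atTop_iff_nat 1).2 hs
  have h1 := dist_le_of_le_geometric_of_tendsto₀ (1 / (p : ℝ)) (C / p) hr hu' hs'
  rw [zero_add, dist_comm, Real.dist_eq] at h1
  refine le_trans h1 ?_
  have h2 : C / p / (1 - 1 / (p : ℝ)) = C / (p - 1) := by
    have : (p : ℝ) - 1 ≠ 0 := by linarith
    field_simp
  rw [h2, div_le_div_iff₀ (by linarith) hp0]
  nlinarith

end Pool.FSig
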