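import Pool.Agent.Lib.FSig.GDefs

/-!
# Module Loc2: linear maps `A ^ (1/q) → A` extend to localisations

* `exists_pl_loc`. `φ' (r / s) = φ (r * s ^ (q-1)) / s`. Well defined: if `r / s = r' / s'`, i.e.
  `t * (s' * r) = t * (s * r')` with `t ∈ M`, then multiply: `t ^ q * r * s ^ (q-1) * s' ^ q = t ^ q * r' * s' ^ (q-1) * s ^ q`
  (both are `t ^ (q-1) * (s s') ^ (q-1)` times the two sides), and apply `φ`:
  `t * s' * φ (r * s ^ (q-1)) = t * s * φ (r' * s' ^ (q-1))`. Additive:
  `φ' (r/s + r'/s') = φ ((r s' + r' s) (s s') ^ (q-1)) / (s s')` and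
  `(r s' + r' s) (s s') ^ (q-1) = s' ^ q * (r s ^ (q-1)) + s ^ q * (r' s' ^ (q-1))`. Linear:
  `φ' ((r/s) ^ q * (r'/s')) = φ (r ^ q r' (s ^ q s') ^ (q-1)) / (s ^ q s')` and
  `r ^ q r' (s ^ q s') ^ (q-1) = (r s ^ (q-1)) ^ q * (r' s' ^ (q-1))`, so this is
  `r s ^ (q-1) φ (r' s' ^ (q-1)) / (s ^ q s') = (r / s) * φ' (r'/s')`.
  (Possible implementation: choose `r, s` by `IsLocalization.mk'_surjective` / `IsLocalization.sec`, and prove
  first the formula `φ' (mk' r s) = mk' (φ (r * s ^ (q-1))) s` for all `r, s`.)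
* `HasRk.loc`: extend the `a` maps, take the images of the `a` elements; the matrix is the image of the old one.
-/

namespace Pool.FSig

private lemma loc2_wd {A L : Type*} [CommRing A] [CommRing L] [Algebra A L] (M : Submonoid A)
    [IsLocalization M L] {n : ℕ} (φ : A →+ A) (hφ : PL (n + 1) φ)
    (r r' : A) (s s' : M) (h : IsLocalization.mk' L r s = IsLocalization.mk' L r' s') :
    IsLocalization.mk' L (φ (r * (s : A) ^ n)) s
      = IsLocalization.mk' L (φ (r' * (s' : A) ^ n)) s' := by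
  rw [IsLocalization.mk'_eq_iff_eq, IsLocalization.eq_iff_exists M L] at h ⊢
  obtain ⟨c, hc⟩ := h
  refine ⟨c, ?_⟩
  rw [← mul_assoc, ← mul_assoc, ← hφ, ← hφ]
  congr 1
  calc ((c : A) * s') ^ (n + 1) * (r * (s : A) ^ n)
      = ((c : A) * s' * s) ^ n * ((c : A) * (s' * r)) := by ring
    _ = ((c : A) * s' * s) ^ n * ((c : A) * (s * r')) := by rw [hc]
    _ = _ := by ring

theorem exists_pl_loc {A L : Type*} [CommRing A] [CommRing L] [Algebra A L] (M : Submonoid A)
    [IsLocalization M L] {q : ℕ} (hq : 1 ≤ q) (φ : A →+ A) (hφ : PL q φ) :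
    ∃ φ' : L →+ L, PL q φ' ∧ ∀ r : A, φ' (algebraMap A L r) = algebraMap A L (φ r) := by
  obtain ⟨n, rfl⟩ : ∃ n, q = n + 1 := ⟨q - 1, by omega⟩
  set F : L → L := fun z => IsLocalization.mk' L
    (φ ((IsLocalization.sec M z).1 * ((IsLocalization.sec M z).2 : A) ^ n))
    (IsLocalization.sec M z).2 with hF
  have key : ∀ (r : A) (s : M), F (IsLocalization.mk' L r s)
      = IsLocalization.mk' L (φ (r * (s : A) ^ n)) s := by
    intro r s
    exact loc2_wd M φ hφ _ _ _ _ (IsLocalization.mk'_sec L _)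
  have hadd : ∀ x y : L, F (x + y) = F x + F y := by
    intro x y
    obtain ⟨r, s, rfl⟩ := IsLocalization.exists_mk'_eq M x
    obtain ⟨r', s', rfl⟩ := IsLocalization.exists_mk'_eq M y
    rw [← IsLocalization.mk'_add, key, key, key, ← IsLocalization.mk'_add]
    congr 1
    have e : (r * (s' : A) + r' * (s : A)) * (((s * s' : M) : A)) ^ n
        = (s' : A) ^ (n + 1) * (r * (s : A) ^ n) + (s : A) ^ (n + 1) * (r' * (s' : A) ^ n) := by
      rw [Submonoid.coe_mul]; ring
    rw [e, map_add, hφ, hφ]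
    ring
  refine ⟨AddMonoidHom.mk' F hadd, ?_, ?_⟩
  · intro x y
    show F (x ^ (n + 1) * y) = x * F y
    obtain ⟨r, s, rfl⟩ := IsLocalization.exists_mk'_eq M x
    obtain ⟨r', s', rfl⟩ := IsLocalization.exists_mk'_eq M y
    rw [← IsLocalization.mk'_pow, ← IsLocalization.mk'_mul, key, key,
      ← IsLocalization.mk'_mul, IsLocalization.mk'_eq_iff_eq]
    congr 1
    have e : r ^ (n + 1) * r' * (((s ^ (n + 1) * s' : M) : A)) ^ n
        = (r * (s : A) ^ n) ^ (n + 1) * (r' * (s' : A) ^ n) := by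
      push_cast; ring
    rw [e, hφ]
    push_cast
    ring
  · intro r
    show F (algebraMap A L r) = _
    rw [← IsLocalization.mk'_one (M := M) L r, key, ← IsLocalization.mk'_one (M := M) L (φ r)]
    simp

theorem HasRk.loc {A L k : Type*} [CommRing A] [CommRing L] [Algebra A L] [Field k] (M : Submonoid A)
    [IsLocalization M L] (ε : A →+* k) (εL : L →+* k) (hε : ∀ r, εL (algebraMap A L r) = ε r)
    {q a : ℕ} (hq : 1 ≤ q) (h : HasRk ε q a) : HasRk εL q a := by
  obtain ⟨φ, f, hφ, hdet⟩ := h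
  choose φ' h1 h2 using fun i => exists_pl_loc (L := L) M hq (φ i) (hφ i)
  refine ⟨φ', fun j => algebraMap A L (f j), h1, ?_⟩
  have e : (Matrix.of fun i j => εL (φ' i (algebraMap A L (f j))))
      = Matrix.of fun i j => ε (φ i (f j)) := by
    ext i j
    simp only [Matrix.of_apply, h2, hε]
  rw [e]
  exact hdet

end Pool.FSig
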