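import Pool.Agent.Lib.FSig.GDefs

/-!
# Module Loc3: the rank of the pairing does not grow by localisation

`A → L` injective localisation with respect to `M`, `εL : L → k`, `ε : A → k` compatible, `ε s ≠ 0` for
`s ∈ M` (automatic: `εL (algebraMap s)` is the image of a unit). `A` is generated by `g k` (`k : Fin G`)
over its `q`-th powers.

Proof of `HasRk.of_loc`. Given `φ i : L → L` linear and `f j : L` with `det (εL (φ i (f j))) ≠ 0`.
Write `f j = r j / t` with a common denominator `t ∈ M` (`IsLocalization.exist_integer_multiples_of_finset`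
or `IsLocalization.exist_integer_multiples`); `f' j = r j * t ^ (q-1) ∈ A` satisfies
`f j = f' j / t ^ q`, so `t * φ i (f j) = φ i (f' j)` (linearity with `r = 1/t`; in `L` `t` is a unit).
Choose `s ∈ M` with `s * φ i (g k) ∈ A` for all `i, k` (finitely many). Then `ψ i x = s * φ i x` maps `A`
into `A`: `x = ∑ k, c k ^ q * g k`, `s * φ i x = ∑ k, c k * (s * φ i (g k))`. As `A → L` is injective this
defines additive maps `ψ i : A → A` with `PL q (ψ i)` (choose preimages, e.g. by
`Function.Injective` and `AddMonoidHom.codRestrict` to the range). Finally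
`ε (ψ i (f' j)) = εL (s * φ i (f' j)) = εL s * εL t * εL (φ i (f j))`, so the determinant is
`(εL s * εL t) ^ a` times the old one, not zero (`εL` of a unit is not zero).
-/

namespace Pool.FSig

theorem HasRk.of_loc {A L k : Type*} [CommRing A] [CommRing L] [Algebra A L] [Field k]
    (M : Submonoid A) [IsLocalization M L] (hinj : Function.Injective (algebraMap A L))
    (ε : A →+* k) (εL : L →+* k) (hε : ∀ r, εL (algebraMap A L r) = ε r)
    {q a G : ℕ} (hq : 1 ≤ q) (g : Fin G → A) (hg : ∀ x : A, ∃ c : Fin G → A, x = ∑ k, c k ^ q * g k)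
    (h : HasRk εL q a) : HasRk ε q a := by
  obtain ⟨φ, f, hφ, hdet⟩ := h
  obtain ⟨t, ht⟩ := IsLocalization.exist_integer_multiples_of_finite M f
  obtain ⟨s, hs⟩ := IsLocalization.exist_integer_multiples_of_finite M
    (fun x : Fin a × Fin G => φ x.1 (algebraMap A L (g x.2)))
  choose r hr using ht
  choose u hu using hs
  have hr' : ∀ j, algebraMap A L (r j) = algebraMap A L t * f j := by
    intro j
    rw [hr j, Algebra.smul_def]
  have hu' : ∀ i k, algebraMap A L (u (i, k)) =
      algebraMap A L s * φ i (algebraMap A L (g k)) := by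
    intro i k
    rw [hu (i, k), Algebra.smul_def]
  have hex : ∀ (i : Fin a) (x : A), ∃ y : A, algebraMap A L y =
      algebraMap A L s * φ i (algebraMap A L x) := by
    intro i x
    obtain ⟨c, hc⟩ := hg x
    refine ⟨∑ k, c k * u (i, k), ?_⟩
    rw [hc]
    simp only [map_sum, map_mul, map_pow]
    rw [Finset.mul_sum]
    refine Finset.sum_congr rfl fun k _ => ?_
    rw [hφ i, hu' i k]
    ring
  choose y hy using hex
  let ψ : Fin a → (A →+ A) := fun i =>
    { toFun := y i
      map_zero' := by
        apply hinj
        rw [hy]; simp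
      map_add' := by
        intro v w
        apply hinj
        rw [hy, map_add, map_add, map_add, mul_add, hy, hy] }
  have hψ : ∀ i x, algebraMap A L (ψ i x) = algebraMap A L s * φ i (algebraMap A L x) :=
    fun i x => hy i x
  let f' : Fin a → A := fun j => r j * (t : A) ^ (q - 1)
  have hf' : ∀ j, algebraMap A L (f' j) = (algebraMap A L t) ^ q * f j := by
    intro j
    simp only [f', map_mul, map_pow, hr' j]
    obtain ⟨q', rfl⟩ : ∃ q', q = q' + 1 := ⟨q - 1, by omega⟩
    rw [Nat.add_sub_cancel]
    ring
  refine ⟨ψ, f', ?_, ?_⟩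
  · intro i v x
    apply hinj
    have h1 : algebraMap A L (v ^ q * x) = (algebraMap A L v) ^ q * algebraMap A L x := by
      rw [map_mul, map_pow]
    rw [hψ, h1, hφ i, map_mul, hψ]
    ring
  · have e : (Matrix.of fun i j => ε (ψ i (f' j))) =
        (εL (algebraMap A L s) * εL (algebraMap A L t)) •
          (Matrix.of fun i j => εL (φ i (f j))) := by
      ext i j
      simp only [Matrix.of_apply, Matrix.smul_apply, smul_eq_mul]
      rw [← hε, hψ, hf', hφ i, map_mul, map_mul]
      ring
    rw [e, Matrix.det_smul]
    refine mul_ne_zero (pow_ne_zero _ (mul_ne_zero ?_ ?_)) hdet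
    · exact ((IsLocalization.map_units L s).map εL).ne_zero
    · exact ((IsLocalization.map_units L t).map εL).ne_zero

end Pool.FSig
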