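import Pool.Agent.Lib.FSig.GDefs

/-!
# Module Loc1: free summands of `L ^ (1/q)` for a local ring `L`

`L` is a local ring, given by a homomorphism `ε : L → k` to a field such that every element with
`ε x ≠ 0` is a unit.

* `isFreeSummand_iff`. (→) Given `i, g` put `φ a x = g x a`, `f j = i (Pi.single j 1)`: the matrix
  `φ i (f j)` is the identity matrix, its image under `ε` too, determinant `1`.
  (←) `P = (φ i (f j))` has `ε (det P) = det (ε (φ i (f j))) ≠ 0` (`RingHom.map_det`), so `det P` is a
  unit and `P` is invertible (`Matrix.mul_nonsing_inv`). Put `g x = (φ i x)_i` and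
  `i v = ∑ j, ((P⁻¹ *ᵥ v) j) ^ q * f j`; the last map is additive because `x ↦ x ^ q`, `q = p ^ e`, is
  additive (`add_pow_char_pow`), `i (r • v) = r ^ q * i v`, and
  `g (i v) = ∑ j, (P⁻¹ *ᵥ v) j • g (f j) = P *ᵥ (P⁻¹ *ᵥ v) = v`.
* `freeRk_eq_rk`: immediate.
-/

namespace Pool.FSig

/-- `L ^ a` is a summand of `L ^ (1/q)` iff the pairing has rank `≥ a` at the closed point. -/
theorem isFreeSummand_iff {L k : Type*} [CommRing L] [Field k] (p : ℕ) [Fact p.Prime] [CharP L p]
    (ε : L →+* k) (hε : ∀ x, ε x ≠ 0 → IsUnit x) (e a : ℕ) :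
    IsFreeSummand L (p ^ e) a ↔ HasRk ε (p ^ e) a := by
  constructor
  · rintro ⟨i, g, hi, hg, hgi⟩
    refine ⟨fun b => (Pi.evalAddMonoidHom (fun _ : Fin a => L) b).comp g,
      fun j => i (Pi.single j 1), ?_, ?_⟩
    · intro b r x
      have h := congrFun (hg r x) b
      rw [Pi.smul_apply, smul_eq_mul] at h
      exact h
    · have h : (Matrix.of fun b j : Fin a => ε (((Pi.evalAddMonoidHom (fun _ : Fin a => L) b).comp g)
          (i (Pi.single j 1)))) = 1 := by
        ext b j
        rw [Matrix.of_apply, AddMonoidHom.comp_apply, Pi.evalAddMonoidHom_apply, hgi,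
          Matrix.one_apply]
        by_cases hbj : b = j
        · rw [if_pos hbj, hbj, Pi.single_eq_same, map_one]
        · rw [if_neg hbj, Pi.single_eq_of_ne hbj, map_zero]
      rw [h, Matrix.det_one]
      exact one_ne_zero
  · rintro ⟨φ, f, hφ, hdet⟩
    set P : Matrix (Fin a) (Fin a) L := Matrix.of fun i j => φ i (f j) with hP
    have hu : IsUnit P.det := by
      apply hε
      rw [RingHom.map_det]
      exact hdet
    set g : L →+ (Fin a → L) :=
      { toFun := fun x i => φ i x
        map_zero' := by
          funext i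
          exact map_zero _
        map_add' := by
          intro x y
          funext i
          exact map_add _ _ _ } with hg
    have hga : ∀ x i, g x i = φ i x := fun x i => rfl
    set w : (Fin a → L) →+ L :=
      { toFun := fun v => ∑ j, (P⁻¹.mulVec v j) ^ (p ^ e) * f j
        map_zero' := by
          refine Finset.sum_eq_zero fun j _ => ?_
          rw [Matrix.mulVec_zero, Pi.zero_apply, zero_pow (pow_ne_zero e (Fact.out : p.Prime).ne_zero),
            zero_mul]
        map_add' := by
          intro u v
          rw [← Finset.sum_add_distrib]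
          refine Finset.sum_congr rfl fun j _ => ?_
          rw [Matrix.mulVec_add, Pi.add_apply, add_pow_char_pow, add_mul] } with hw
    have hwa : ∀ v, w v = ∑ j, (P⁻¹.mulVec v j) ^ (p ^ e) * f j := fun v => rfl
    refine ⟨w, g, ?_, ?_, ?_⟩
    · intro r v
      rw [hwa, hwa, Finset.mul_sum]
      refine Finset.sum_congr rfl fun j _ => ?_
      rw [Matrix.mulVec_smul, Pi.smul_apply, smul_eq_mul, mul_pow, mul_assoc]
    · intro r x
      funext i
      rw [hga, hφ i r x, Pi.smul_apply, hga, smul_eq_mul]
    · intro v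
      have h1 : P.mulVec (P⁻¹.mulVec v) = v := by
        rw [Matrix.mulVec_mulVec, Matrix.mul_nonsing_inv P hu, Matrix.one_mulVec]
      funext k
      rw [hga, hwa, map_sum]
      have h2 := congrFun h1 k
      rw [Matrix.mulVec] at h2
      refine Eq.trans ?_ h2
      refine Finset.sum_congr rfl fun j _ => ?_
      rw [hφ k, mul_comm]
      rfl

/-- the free rank of `L ^ (1/q)` is the rank of the pairing. -/
theorem freeRk_eq_rk {L k : Type*} [CommRing L] [Field k] (p : ℕ) [Fact p.Prime] [CharP L p]
    (ε : L →+* k) (hε : ∀ x, ε x ≠ 0 → IsUnit x) (e : ℕ) :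
    freeRk L (p ^ e) = rk ε (p ^ e) := by
  unfold freeRk rk
  congr 1
  ext a
  exact isFreeSummand_iff p ε hε e a

end Pool.FSig
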