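import Pool.Agent.Lib.FSig.GDefs
import Pool.Agent.Lib.FSig.Loc1

/-!
# Module MaxF: the decomposition `L ^ (1/q) = L ^ a ⊕ M`, `M` without free summand, has `a = freeRk`

`L` is local as in `Loc1`.

* `IsMaxFree.le`. Let `i, g` be as in `IsMaxFree`. If `g x = 0` and `h` is linear (`PL`) then
  `ε (h x) = 0`: otherwise `u = h x` is a unit and `h' = u⁻¹ * h` is linear with `h' x = 1`. For linear `φ`
  and any `x : L` the element `x' = x - i (g x)` satisfies `g x' = 0`, so
  `ε (φ x) = ε (φ (i (g x))) = ∑ j, ε ((g x) j) * ε (φ (i (Pi.single j 1)))`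
  (`g x = ∑ j, (g x) j • Pi.single j 1`, `i (r • v) = r ^ q * i v`, `φ` linear). Hence for `φ : Fin b → _`,
  `f : Fin b → L` the matrix `ε (φ k (f l))` is a product of a `b × a` and an `a × b` matrix; if its
  determinant is not zero then `b ≤ a` (`Matrix.rank_mul_le_left`, `Matrix.rank_le_width`, `Matrix.rank_of_isUnit`).
* `freeRk_eq_of_isMaxFree`: `IsMaxFree` implies `IsFreeSummand`, so by `isFreeSummand_iff` and
  `IsMaxFree.le` the number `a` is the greatest element of the set in `freeRk` (`IsGreatest.csSup_eq`).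
* `isMaxFree_freeRk`: the set `{a | IsFreeSummand L q a}` contains `0` and is bounded, so it contains its
  supremum `a = freeRk` (`Nat.sSup_mem`); take its `i, g`. If there were a linear `h` and `x` with `g x = 0`,
  `h x = 1`, the `a + 1` maps `g · 0, …, g · (a-1), h` and the `a + 1` elements `i (e_0), …, i (e_(a-1)), x`
  would have the matrix `[[1, 0], [*, 1]]` of determinant `1` (`Matrix.det_fromBlocks_zero₁₂` after reindexing
  by `finSumFinEquiv`, or `Fin.snoc` and `Matrix.det_succ_column`), so `a + 1` would be in the set.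
-/

namespace Pool.FSig

private theorem maxF_key {L : Type*} [CommRing L] {q a : ℕ} (i : (Fin a → L) →+ L)
    (g : L →+ (Fin a → L)) (hi : ∀ (r : L) (v : Fin a → L), i (r • v) = r ^ q * i v)
    (φ : L →+ L) (hφ : PL q φ) (x : L) :
    φ (i (g x)) = ∑ j, g x j * φ (i (Pi.single j 1)) := by
  have h1 : g x = ∑ j, g x j • (Pi.single j 1 : Fin a → L) := by
    conv_lhs => rw [pi_eq_sum_univ' (g x)]
  have h2 : i (g x) = ∑ j, g x j ^ q * i (Pi.single j 1) := by
    conv_lhs => rw [h1, map_sum]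
    exact Finset.sum_congr rfl fun j _ => hi _ _
  rw [h2, map_sum]
  exact Finset.sum_congr rfl fun j _ => hφ _ _

theorem IsMaxFree.le {L k : Type*} [CommRing L] [Field k] (ε : L →+* k)
    (hε : ∀ x, ε x ≠ 0 → IsUnit x) {q a b : ℕ} (h : IsMaxFree L q a) (hb : HasRk ε q b) : b ≤ a := by
  obtain ⟨i, g, hi, hg, hgi, hno⟩ := h
  obtain ⟨φ, f, hφ, hdet⟩ := hb
  have key1 : ∀ h : L →+ L, PL q h → ∀ x, g x = 0 → ε (h x) = 0 := by
    intro h hh x hx
    by_contra hne
    obtain ⟨u, hu⟩ := hε _ hne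
    refine hno ⟨(AddMonoidHom.mulLeft ((u⁻¹ : Lˣ) : L)).comp h, ?_, x, hx, ?_⟩
    · intro r y
      change ((u⁻¹ : Lˣ) : L) * h (r ^ q * y) = r * (((u⁻¹ : Lˣ) : L) * h y)
      rw [hh r y]
      ring
    · change ((u⁻¹ : Lˣ) : L) * h x = 1
      rw [← hu, Units.inv_mul]
  have key2 : ∀ φ : L →+ L, PL q φ → ∀ x,
      ε (φ x) = ∑ j, ε (φ (i (Pi.single j 1))) * ε (g x j) := by
    intro φ hφ x
    have h1 : g (x - i (g x)) = 0 := by rw [map_sub, hgi, sub_self]
    have h2 := key1 φ hφ _ h1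
    rw [map_sub, map_sub, sub_eq_zero, maxF_key i g hi φ hφ x, map_sum] at h2
    rw [h2]
    refine Finset.sum_congr rfl fun j _ => ?_
    rw [map_mul, mul_comm]
  let P : Matrix (Fin b) (Fin a) k := Matrix.of fun l j => ε (φ l (i (Pi.single j 1)))
  let N : Matrix (Fin a) (Fin b) k := Matrix.of fun j l => ε (g (f l) j)
  have hPN : (Matrix.of fun i j => ε (φ i (f j))) = P * N := by
    ext l l'
    rw [Matrix.mul_apply, Matrix.of_apply, key2 (φ l) (hφ l) (f l')]
    rfl
  have hu : IsUnit (P * N) := by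
    rw [Matrix.isUnit_iff_isUnit_det, ← hPN]
    exact isUnit_iff_ne_zero.2 hdet
  have h1 := Matrix.rank_of_isUnit _ hu
  rw [Fintype.card_fin] at h1
  rw [← h1]
  exact (Matrix.rank_mul_le_left P N).trans (Matrix.rank_le_width P)

theorem freeRk_eq_of_isMaxFree {L k : Type*} [CommRing L] [Field k] (p : ℕ) [Fact p.Prime]
    [CharP L p] (ε : L →+* k) (hε : ∀ x, ε x ≠ 0 → IsUnit x) {e a : ℕ}
    (h : IsMaxFree L (p ^ e) a) : freeRk L (p ^ e) = a := by
  refine IsGreatest.csSup_eq ⟨?_, ?_⟩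
  · obtain ⟨i, g, hi, hg, hgi, _⟩ := h
    exact ⟨i, g, hi, hg, hgi⟩
  · intro b hb
    exact IsMaxFree.le ε hε h ((isFreeSummand_iff p ε hε e b).1 hb)

private theorem maxF_succ {L k : Type*} [CommRing L] [Field k] (ε : L →+* k) {q a : ℕ}
    (i : (Fin a → L) →+ L) (g : L →+ (Fin a → L)) (hg : ∀ r x : L, g (r ^ q * x) = r • g x)
    (hgi : ∀ v, g (i v) = v) (h : L →+ L) (hh : PL q h) (x : L) (hx : g x = 0) (hx1 : h x = 1) :
    HasRk ε q (a + 1) := by
  have hg' : ∀ j, PL q ((Pi.evalAddMonoidHom (fun _ : Fin a => L) j).comp g) := by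
    intro j r y
    change g (r ^ q * y) j = r * g y j
    rw [hg]
    rfl
  refine ⟨Fin.cons h fun j => (Pi.evalAddMonoidHom (fun _ : Fin a => L) j).comp g,
    Fin.cons x fun j => i (Pi.single j 1), ?_, ?_⟩
  · intro j
    refine Fin.cases ?_ (fun j => ?_) j
    · rw [Fin.cons_zero]
      exact hh
    · rw [Fin.cons_succ]
      exact hg' j
  · rw [Matrix.det_of_upperTriangular]
    · rw [Fin.prod_univ_succ]
      simp only [Matrix.of_apply, Fin.cons_zero, Fin.cons_succ, hx1, map_one, one_mul]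
      rw [Finset.prod_eq_one]
      · exact one_ne_zero
      · intro j _
        change ε (g (i (Pi.single j 1)) j) = 1
        rw [hgi, Pi.single_eq_same, map_one]
    · intro l l' hl
      rw [Matrix.of_apply]
      revert hl
      refine Fin.cases ?_ (fun l => ?_) l
      · intro hl
        exact absurd hl (Fin.not_lt_zero _)
      · refine Fin.cases ?_ (fun l' => ?_) l'
        · intro _
          rw [Fin.cons_succ, Fin.cons_zero]
          change ε (g x l) = 0
          rw [hx, Pi.zero_apply, map_zero]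
        · intro hl
          rw [Fin.cons_succ, Fin.cons_succ]
          change ε (g (i (Pi.single l' 1)) l) = 0
          have hne : l ≠ l' := by
            rintro rfl
            exact lt_irrefl _ hl
          rw [hgi, Pi.single_eq_of_ne hne, map_zero]

theorem isMaxFree_freeRk {L k : Type*} [CommRing L] [Field k] (p : ℕ) [Fact p.Prime]
    [CharP L p] (ε : L →+* k) (hε : ∀ x, ε x ≠ 0 → IsUnit x) (e B : ℕ)
    (hB : ∀ a, HasRk ε (p ^ e) a → a ≤ B) : IsMaxFree L (p ^ e) (freeRk L (p ^ e)) := by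
  have hne : {a : ℕ | IsFreeSummand L (p ^ e) a}.Nonempty := by
    refine ⟨0, 0, 0, ?_, ?_, ?_⟩
    · intro r v
      rw [AddMonoidHom.zero_apply, AddMonoidHom.zero_apply, mul_zero]
    · intro r x
      exact Subsingleton.elim _ _
    · intro v
      exact Subsingleton.elim _ _
  have hbd : BddAbove {a : ℕ | IsFreeSummand L (p ^ e) a} :=
    ⟨B, fun b hb => hB b ((isFreeSummand_iff p ε hε e b).1 hb)⟩
  obtain ⟨i, g, hi, hg, hgi⟩ := Nat.sSup_mem hne hbd
  refine ⟨i, g, hi, hg, hgi, ?_⟩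
  rintro ⟨h, hh, x, hx, hx1⟩
  have h1 := (isFreeSummand_iff p ε hε e _).2 (maxF_succ ε i g hg hgi h hh x hx hx1)
  have h2 := le_csSup hbd h1
  exact absurd h2 (Nat.not_succ_le_self _)

end Pool.FSig
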