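import Pool.Agent.Lib.FSig.Loc1
import Pool.Agent.Lib.FSig.MaxF
import Pool.Agent.Lib.FSig.Loc2
import Pool.Agent.Lib.FSig.Loc3
import Pool.Agent.Lib.FSig.GenQ

/-!
# Module LocG: the free rank of the localisation is the rank of the pairing of `R`

`R` is a finitely generated domain over the perfect field `K`, `ε : R → K`, `L` the localisation at `ker ε`.

Proof. `ε s ≠ 0` for `s ∉ ker ε`, so `ε` extends to `εL : L → K` (`IsLocalization.lift`), `εL (algebraMap r) = ε r`; `εL x ≠ 0`
implies that `x` is a unit (`x = r / s`, `ε r ≠ 0`, `r ∉ ker ε`). `L` has characteristic `p` (`R → L` injective, `R` is a `K`-algebra: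
`CharP` of `R` and `L` from `charP_of_injective_algebraMap` / `charP_of_injective_ringHom`). `freeRk_eq_rk` for `L`; the sets
`{a | HasRk εL q a}` and `{a | HasRk ε q a}` are equal by `HasRk.loc` and `HasRk.of_loc` (generators: `exists_gen`, reindex
`(ι → Fin q)` by `Fin G`, `Fintype.equivFin`), so `rk εL q = rk ε q`.
`freeRank_eq`: the set of helper76's `freeRank` equals the set of `freeRk`: a surjection `g` onto the free module has a linear section
(`i v = ∑ j, v j ^ q * f j` with `g (f j) = e_j`); conversely trivial. Or: `freeRank` set = `{a | HasRk εL q a}` as in `isFreeSummand_iff`.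
-/

/-!
# Module LocG: the free rank of the localisation is the rank of the pairing of `R`

`R` is a finitely generated domain over the perfect field `K`, `ε : R → K`, `L` the localisation at `ker ε`.
-/

namespace Pool.FSig

/-- the two definitions of the free rank agree -/
theorem freeRank_eq_freeRk (L : Type*) [CommRing L] (p : ℕ) [Fact p.Prime] [CharP L p] (e : ℕ) :
    _root_.FSig.freeRank L (p ^ e) = freeRk L (p ^ e) := by
  unfold _root_.FSig.freeRank freeRk
  congr 1
  ext a
  constructor
  · rintro ⟨g, hg, hs⟩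
    choose f hf using fun j : Fin a => hs (Pi.single j 1)
    refine ⟨{ toFun := fun v => ∑ j, v j ^ (p ^ e) * f j, map_zero' := ?_, map_add' := ?_ },
      g, ?_, hg, ?_⟩
    · have hq : p ^ e ≠ 0 := pow_ne_zero _ (Fact.out : p.Prime).ne_zero
      simp [zero_pow hq]
    · intro v w
      rw [← Finset.sum_add_distrib]
      refine Finset.sum_congr rfl fun j _ => ?_
      rw [Pi.add_apply, add_pow_char_pow, add_mul]
    · intro r v
      show ∑ j, (r • v) j ^ (p ^ e) * f j = r ^ (p ^ e) * ∑ j, v j ^ (p ^ e) * f j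
      rw [Finset.mul_sum]
      refine Finset.sum_congr rfl fun j _ => ?_
      rw [Pi.smul_apply, smul_eq_mul, mul_pow, mul_assoc]
    · intro v
      show g (∑ j, v j ^ (p ^ e) * f j) = v
      rw [map_sum]
      rw [Finset.sum_congr rfl fun j _ => (hg (v j) (f j)).trans (by rw [hf j])]
      ext k
      rw [Finset.sum_apply, Finset.sum_eq_single k]
      · simp
      · intro j _ hj
        simp [hj.symm]
      · intro h
        exact absurd (Finset.mem_univ k) h
  · rintro ⟨i, g, _, hg, hgi⟩
    exact ⟨g, hg, fun v => ⟨i v, hgi v⟩⟩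

private theorem locG_data {K R L : Type*} [Field K] [CommRing R] [IsDomain R] [Algebra K R]
    [CommRing L] [Algebra R L] (p : ℕ) [Fact p.Prime] [CharP K p]
    (hK : ∀ c : K, ∃ c' : K, c' ^ p = c) {M : ℕ}
    (x : Fin M → R) (hx : Algebra.adjoin K (Set.range x) = ⊤) (ε : R →ₐ[K] K)
    [(RingHom.ker (ε : R →+* K)).IsPrime] [IsLocalization.AtPrime L (RingHom.ker (ε : R →+* K))]
    (e : ℕ) : CharP L p ∧ ∃ εL : L →+* K, (∀ y, εL y ≠ 0 → IsUnit y) ∧
      ∀ a, HasRk εL (p ^ e) a ↔ HasRk (ε : R →+* K) (p ^ e) a := by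
  have hcR : CharP R p := charP_of_injective_algebraMap (algebraMap K R).injective p
  have hinj : Function.Injective (algebraMap R L) :=
    IsLocalization.injective L
      (RingHom.ker (ε : R →+* K)).primeCompl_le_nonZeroDivisors
  have hcL : CharP L p := charP_of_injective_algebraMap hinj p
  have hu : ∀ y : (RingHom.ker (ε : R →+* K)).primeCompl, IsUnit ((ε : R →+* K) y) := by
    intro y
    exact isUnit_iff_ne_zero.2 fun h => y.2 ((RingHom.mem_ker).2 h)
  refine ⟨hcL, IsLocalization.lift (M := (RingHom.ker (ε : R →+* K)).primeCompl) (S := L)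
    (g := (ε : R →+* K)) hu, ?_, ?_⟩
  · intro y hy
    obtain ⟨r, s, rfl⟩ := IsLocalization.exists_mk'_eq
      (RingHom.ker (ε : R →+* K)).primeCompl y
    rw [IsLocalization.AtPrime.isUnit_mk'_iff L (RingHom.ker (ε : R →+* K))]
    intro hr
    apply hy
    rw [IsLocalization.lift_mk']
    have hr' : (ε : R →+* K) r = 0 := (RingHom.mem_ker).1 hr
    rw [hr', zero_mul]
  · intro a
    have hq : 1 ≤ p ^ e := Nat.one_le_pow _ _ (Fact.out : p.Prime).pos
    have hε : ∀ r, (IsLocalization.lift (M := (RingHom.ker (ε : R →+* K)).primeCompl) (S := L)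
        (g := (ε : R →+* K)) hu) (algebraMap R L r) = (ε : R →+* K) r := by
      intro r
      exact IsLocalization.lift_eq hu r
    constructor
    · intro h
      let eq := Fintype.equivFin (Fin M → Fin (p ^ e))
      refine HasRk.of_loc (RingHom.ker (ε : R →+* K)).primeCompl hinj (ε : R →+* K) _ hε hq
        (G := Fintype.card (Fin M → Fin (p ^ e)))
        (fun k => ∏ i, x i ^ ((eq.symm k) i : ℕ)) ?_ h
      intro f
      obtain ⟨c, hc⟩ := exists_gen p hK e x hx f
      refine ⟨fun k => c (eq.symm k), ?_⟩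
      rw [hc]
      exact (Equiv.sum_comp eq.symm
        (fun b : Fin M → Fin (p ^ e) => c b ^ (p ^ e) * ∏ i, x i ^ (b i : ℕ))).symm
    · intro h
      exact HasRk.loc (RingHom.ker (ε : R →+* K)).primeCompl (ε : R →+* K) _ hε hq h

theorem freeRk_loc {K R L : Type*} [Field K] [CommRing R] [IsDomain R] [Algebra K R] [CommRing L]
    [Algebra R L] (p : ℕ) [Fact p.Prime] [CharP K p] (hK : ∀ c : K, ∃ c' : K, c' ^ p = c) {M : ℕ}
    (x : Fin M → R) (hx : Algebra.adjoin K (Set.range x) = ⊤) (ε : R →ₐ[K] K)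
    [(RingHom.ker (ε : R →+* K)).IsPrime] [IsLocalization.AtPrime L (RingHom.ker (ε : R →+* K))]
    (e : ℕ) : freeRk L (p ^ e) = rk (ε : R →+* K) (p ^ e) := by
  obtain ⟨hc, εL, h1, h2⟩ := locG_data (L := L) p hK x hx ε e
  have := hc
  rw [freeRk_eq_rk p εL h1 e]
  unfold rk
  congr 1
  ext a
  exact h2 a

/-- `L ^ (1/q)` has a decomposition `L ^ a ⊕ M` where `M` has no free summand, and for every such
decomposition `a` is the rank of the pairing. -/
theorem isMaxFree_loc {K R L : Type*} [Field K] [CommRing R] [IsDomain R] [Algebra K R] [CommRing L]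
    [Algebra R L] (p : ℕ) [Fact p.Prime] [CharP K p] (hK : ∀ c : K, ∃ c' : K, c' ^ p = c) {M : ℕ}
    (x : Fin M → R) (hx : Algebra.adjoin K (Set.range x) = ⊤) (ε : R →ₐ[K] K)
    [(RingHom.ker (ε : R →+* K)).IsPrime] [IsLocalization.AtPrime L (RingHom.ker (ε : R →+* K))]
    (e B : ℕ) (hB : ∀ a, HasRk (ε : R →+* K) (p ^ e) a → a ≤ B) (a : ℕ) :
    IsMaxFree L (p ^ e) a ↔ a = rk (ε : R →+* K) (p ^ e) := by
  have h0 := freeRk_loc (L := L) p hK x hx ε e
  obtain ⟨hc, εL, h1, h2⟩ := locG_data (L := L) p hK x hx ε e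
  have := hc
  constructor
  · intro h
    rw [← h0]
    exact (freeRk_eq_of_isMaxFree p εL h1 h).symm
  · rintro rfl
    rw [← h0]
    exact isMaxFree_freeRk p εL h1 e B fun b hb => hB b ((h2 b).1 hb)

end Pool.FSig
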