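import Pool.Agent.Lib.FSig.UnA
import Pool.Agent.Lib.FSig.LimS
import Pool.Agent.Lib.FSig.LocG
import Pool.Agent.Lib.FSig.ChD

/-!
# Module General: the F-signature of `R_{m,n,3}` exists and is `ρ₁ / p^d + O(1/p)`, uniformly in `p` and `K`

`d = 2 (m + n) - 4 = card (Iota m n)` (`card_Iota`).

* `rk_congr`: a ring isomorphism `A ≃ B` compatible with `M`, `N` gives `rk A q M = rk B q N` (transport `φ`, `f`; the sets `rkSet` are equal).
* `rk_eq`: helper76's `rk A q M` for `M = ker ε` is `rk ε q`: `det ∉ ker ε` iff `ε (det) = det (ε ..) ≠ 0` (`RingHom.map_det`).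
* `general`. `K` perfect: `hK c` from `surjective_frobenius`. `ε : R3 →ₐ[K] K` is `ev0` (as an algebra map: `Ideal.Quotient.liftₐ`, its underlying
  ring homomorphism is `ev0 m n K`, `irr = ker`); `ε (xg k) = 0`. `R3` is a domain: `jT_injective`. `unif_step` with `isChart_jQ`; `exists_limit` with
  `C₀ = 2 (2 m n + d) (m n + 1)^(d-1)`; `rk ev0 (p^e) = freeRk L3 (p^e) = freeRank L3 (p^e)` (`freeRk_loc`, `freeRank_eq_freeRk`; `L3` has characteristic `p`). For `e = 1`:
  `rk ev0 p = rk (Rp) p (mRp)` by `rk_congr` for `R3 ≃ Rp` (`jT` injective with range `Rp`: `AlgHom.range`, `toT = jT ∘ mk`), `mRp` corresponds to `ker ev0`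
  (the constant coefficient of `toT f` is the constant coefficient of `f`). `C = 2 C₀`. Note `(p^e)^d = p^(e*d)`.
-/

namespace Pool.FSig

open Filter Topology

private theorem rkSet_sub {A B : Type*} [CommRing A] [CommRing B] (f : A ≃+* B) (q : ℕ)
    (M : Ideal A) (N : Ideal B) (h : ∀ a, f a ∈ N → a ∈ M) :
    _root_.FSig.rkSet A q M ⊆ _root_.FSig.rkSet B q N := by
  rintro a ⟨φ, g, hφ, hdet⟩
  refine ⟨fun i => ((f : A →+* B).toAddMonoidHom.comp (φ i)).comp
    (f.symm : B →+* A).toAddMonoidHom, fun j => f (g j), ?_, ?_⟩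
  · intro i r x
    change f (φ i (f.symm (r ^ q * x))) = r * f (φ i (f.symm x))
    rw [map_mul, map_pow, hφ i, map_mul, RingEquiv.apply_symm_apply]
  · intro hN
    apply hdet
    apply h
    have e1 : (Matrix.of fun i j => (((f : A →+* B).toAddMonoidHom.comp (φ i)).comp
        (f.symm : B →+* A).toAddMonoidHom) (f (g j))) =
        (f : A →+* B).mapMatrix (Matrix.of fun i j => φ i (g j)) := by
      ext i j
      change f (φ i (f.symm (f (g j)))) = f (φ i (g j))
      rw [RingEquiv.symm_apply_apply]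
    rw [e1, ← RingHom.map_det] at hN
    exact hN

theorem rk_congr {A B : Type*} [CommRing A] [CommRing B] (f : A ≃+* B) (q : ℕ) (M : Ideal A)
    (N : Ideal B) (h : ∀ a, a ∈ M ↔ f a ∈ N) : _root_.FSig.rk A q M = _root_.FSig.rk B q N := by
  unfold _root_.FSig.rk
  congr 1
  refine Set.Subset.antisymm (rkSet_sub f q M N fun a => (h a).2) (rkSet_sub f.symm q N M ?_)
  intro b hb
  have := (h (f.symm b)).1 hb
  rwa [RingEquiv.apply_symm_apply] at this

theorem rk_eq {A K : Type*} [CommRing A] [Field K] (ε : A →+* K) (q : ℕ) :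
    _root_.FSig.rk A q (RingHom.ker ε) = rk ε q := by
  unfold _root_.FSig.rk rk
  congr 1
  ext a
  constructor
  · rintro ⟨φ, f, hφ, hdet⟩
    refine ⟨φ, f, hφ, ?_⟩
    rw [RingHom.mem_ker, RingHom.map_det] at hdet
    exact hdet
  · rintro ⟨φ, f, hφ, hdet⟩
    refine ⟨φ, f, hφ, ?_⟩
    rw [RingHom.mem_ker, RingHom.map_det]
    exact hdet

/-- the evaluation at the origin as an algebra map -/
private noncomputable def epsR (m n : ℕ) (K : Type*) [Field K] :
    _root_.FSig.R3 m n K →ₐ[K] K :=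
  { _root_.FSig.ev0 m n K with
    commutes' := by
      intro r
      change _root_.FSig.ev0 m n K (Ideal.Quotient.mk _ (MvPolynomial.C r)) = r
      rw [_root_.FSig.ev0, Ideal.Quotient.lift_mk, MvPolynomial.constantCoeff_C] }

private theorem epsR_coe (m n : ℕ) (K : Type*) [Field K] :
    ((epsR m n K : _root_.FSig.R3 m n K →ₐ[K] K) : _root_.FSig.R3 m n K →+* K) =
      _root_.FSig.ev0 m n K := rfl

private theorem epsR_xg (m n : ℕ) (K : Type*) [Field K] (k : Fin (m * n)) :
    epsR m n K (xg m n K k) = 0 := by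
  change _root_.FSig.ev0 m n K (xg m n K k) = 0
  unfold xg xR
  rw [dif_pos ⟨(finProdFinEquiv.symm k).1.2, (finProdFinEquiv.symm k).2.2⟩, _root_.FSig.ev0,
    Ideal.Quotient.lift_mk, MvPolynomial.constantCoeff_X]

private theorem isDomain_R3 (m n : ℕ) (K : Type*) [Field K] : IsDomain (_root_.FSig.R3 m n K) :=
  Function.Injective.isDomain (jT m n K).toRingHom (jT_injective m n K)

private theorem charP_L3 (m n : ℕ) (K : Type*) [Field K] (p : ℕ) [CharP K p] :
    CharP (_root_.FSig.L3 m n K) p := by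
  have := isDomain_R3 m n K
  have hcR : CharP (_root_.FSig.R3 m n K) p :=
    charP_of_injective_algebraMap (algebraMap K (_root_.FSig.R3 m n K)).injective p
  exact charP_of_injective_algebraMap (IsLocalization.injective (_root_.FSig.L3 m n K)
    (_root_.FSig.irr m n K).primeCompl_le_nonZeroDivisors) p

private theorem constantCoeff_jT (m n : ℕ) (K : Type*) [Field K] (a : _root_.FSig.R3 m n K) :
    MvPolynomial.constantCoeff (jT m n K a) = _root_.FSig.ev0 m n K a := by
  obtain ⟨f, rfl⟩ := Ideal.Quotient.mk_surjective a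
  rw [_root_.FSig.ev0, Ideal.Quotient.lift_mk]
  change MvPolynomial.constantCoeff (_root_.FSig.toT m n K f) = MvPolynomial.constantCoeff f
  induction f using MvPolynomial.induction_on with
  | C r =>
    rw [← MvPolynomial.algebraMap_eq, AlgHom.commutes, MvPolynomial.algebraMap_eq,
      MvPolynomial.constantCoeff_C, MvPolynomial.algebraMap_eq, MvPolynomial.constantCoeff_C]
  | add f g hf hg => rw [map_add, map_add, map_add, hf, hg]
  | mul_X f x hf =>
    have h0 : MvPolynomial.constantCoeff (_root_.FSig.toT m n K (MvPolynomial.X x)) = 0 := by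
      rw [_root_.FSig.toT, MvPolynomial.aeval_X]
      simp only [_root_.FSig.br, _root_.FSig.va, _root_.FSig.vb, map_sub, map_mul,
        MvPolynomial.constantCoeff_X, mul_zero, sub_zero]
    rw [map_mul, map_mul, map_mul, MvPolynomial.constantCoeff_X, mul_zero, h0, mul_zero]

private theorem range_jT (m n : ℕ) (K : Type*) [Field K] :
    (jT m n K).range = _root_.FSig.Rp m n K := by
  ext x
  constructor
  · rintro ⟨a, rfl⟩
    obtain ⟨f, rfl⟩ := Ideal.Quotient.mk_surjective a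
    exact ⟨f, rfl⟩
  · rintro ⟨f, rfl⟩
    exact ⟨Ideal.Quotient.mk _ f, rfl⟩

theorem rk_Rp (m n : ℕ) (K : Type*) [Field K] (q : ℕ) :
    _root_.FSig.rk (_root_.FSig.Rp m n K) q (_root_.FSig.mRp m n K) =
      rk (_root_.FSig.ev0 m n K) q := by
  rw [← rk_eq]
  symm
  refine rk_congr (((AlgEquiv.ofInjective (jT m n K) (jT_injective m n K)).trans
    (Subalgebra.equivOfEq _ _ (range_jT m n K))).toRingEquiv) q _ _ ?_
  intro a
  rw [RingHom.mem_ker, ← constantCoeff_jT]
  unfold _root_.FSig.mRp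
  rw [RingHom.mem_ker]
  rfl

theorem freeRank_L3 (m n : ℕ) (hm : 2 ≤ m) (hn : 2 ≤ n) (p : ℕ) [Fact p.Prime]
    (K : Type*) [Field K] [CharP K p] [PerfectRing K p] (e : ℕ) :
    _root_.FSig.freeRank (_root_.FSig.L3 m n K) (p ^ e) = rk (_root_.FSig.ev0 m n K) (p ^ e) := by
  have := isDomain_R3 m n K
  have := charP_L3 m n K p
  rw [freeRank_eq_freeRk (_root_.FSig.L3 m n K) p e]
  have h1 : (RingHom.ker ((epsR m n K : _root_.FSig.R3 m n K →ₐ[K] K) :
      _root_.FSig.R3 m n K →+* K)).IsPrime := RingHom.ker_isPrime _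
  have h2 : IsLocalization.AtPrime (_root_.FSig.L3 m n K)
      (RingHom.ker ((epsR m n K : _root_.FSig.R3 m n K →ₐ[K] K) :
        _root_.FSig.R3 m n K →+* K)) :=
    inferInstanceAs (IsLocalization.AtPrime (Localization.AtPrime (_root_.FSig.irr m n K))
      (_root_.FSig.irr m n K))
  exact freeRk_loc (L := _root_.FSig.L3 m n K) p
    (fun c => ⟨_root_.FSig.root p c, _root_.FSig.root_pow p c⟩) (xg m n K)
    (isChart_jQ m n hm hn K).gen (epsR m n K) e

theorem general.{u} (m n : ℕ) (hm : 3 ≤ m) (hn : 3 ≤ n) : ∃ C : ℝ, ∀ (p : ℕ) [Fact p.Prime]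
    (K : Type u) [Field K] [CharP K p] [PerfectRing K p], ∃ s : ℝ,
      Tendsto (fun e : ℕ => (_root_.FSig.freeRank (_root_.FSig.L3 m n K) (p ^ e) : ℝ) /
        (p : ℝ) ^ (e * (2 * (m + n) - 4))) atTop (𝓝 s) ∧
      |s - (_root_.FSig.rk (_root_.FSig.Rp m n K) p (_root_.FSig.mRp m n K) : ℝ) /
        (p : ℝ) ^ (2 * (m + n) - 4)| ≤ C / p := by
  refine ⟨2 * ((2 * (2 * (m * n) + (2 * (m + n) - 4)) *
    (m * n + 1) ^ ((2 * (m + n) - 4) - 1) : ℕ) : ℝ), ?_⟩
  intro p _ K _ _ _
  have hK : ∀ c : K, ∃ c' : K, c' ^ p = c :=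
    fun c => ⟨_root_.FSig.root p c, _root_.FSig.root_pow p c⟩
  have hp2 : 2 ≤ p := (Fact.out : p.Prime).two_le
  have hst := unif_step p hK (isChart_jQ m n (by omega) (by omega) K) (epsR m n K)
    (epsR_xg m n K)
  rw [epsR_coe, card_Iota m n (by omega)] at hst
  obtain ⟨s, hs1, hs2⟩ := exists_limit (fun e : ℕ => (rk (_root_.FSig.ev0 m n K) (p ^ e) : ℝ) /
    ((p : ℝ) ^ e) ^ (2 * (m + n) - 4)) _ p hp2 hst
  refine ⟨s, ?_, ?_⟩
  · refine hs1.congr fun e => ?_
    rw [freeRank_L3 m n (by omega) (by omega) p K e, pow_mul]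
  · rw [rk_Rp]
    rw [pow_one, pow_one] at hs2
    exact hs2

/-- the decomposition `L ^ (1/q) = L ^ a ⊕ M`, `M` without free summand -/
theorem isMaxFree_L3 (m n : ℕ) (hm : 2 ≤ m) (hn : 2 ≤ n) (p : ℕ) [Fact p.Prime]
    (K : Type*) [Field K] [CharP K p] [PerfectRing K p] (e a : ℕ) :
    IsMaxFree (_root_.FSig.L3 m n K) (p ^ e) a ↔
      a = _root_.FSig.freeRank (_root_.FSig.L3 m n K) (p ^ e) := by
  have := isDomain_R3 m n K
  have hK : ∀ c : K, ∃ c' : K, c' ^ p = c :=
    fun c => ⟨_root_.FSig.root p c, _root_.FSig.root_pow p c⟩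
  have h1 : (RingHom.ker ((epsR m n K : _root_.FSig.R3 m n K →ₐ[K] K) :
      _root_.FSig.R3 m n K →+* K)).IsPrime := RingHom.ker_isPrime _
  have h2 : IsLocalization.AtPrime (_root_.FSig.L3 m n K)
      (RingHom.ker ((epsR m n K : _root_.FSig.R3 m n K →ₐ[K] K) :
        _root_.FSig.R3 m n K →+* K)) :=
    inferInstanceAs (IsLocalization.AtPrime (Localization.AtPrime (_root_.FSig.irr m n K))
      (_root_.FSig.irr m n K))
  rw [freeRank_L3 m n hm hn p K e]
  exact isMaxFree_loc (L := _root_.FSig.L3 m n K) p hK (xg m n K)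
    (isChart_jQ m n hm hn K).gen (epsR m n K) e _
    (rk_bdd p hK (isChart_jQ m n hm hn K) (epsR m n K) (epsR_xg m n K) e) a

end Pool.FSig
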