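import Pool.Agent.Lib.FSig.GDefs

/-!
# Module HKA: first comparison of the Hilbert–Kunz lengths

`K` perfect of characteristic `p`, `ε : R → K`, `q = p ^ e`, `Q = p ^ (e+1)`. `hk ε q = dim_K R / frobPow ε q`.

* `finrank_le_of_spanMod`: the classes of the `D` elements span `R / I` over `K` (`finrank_le_of_span_eq_top`,
  `finrank_range_le_card`); `R / I` is a `K`-module through `Algebra K (R ⧸ I)`.
* `spanMod_finrank`: a basis of `R / I` (finite dimensional), lifted to `R`.
* `hk_le`. Let `g k`, `k < n = hk ε q`, span `R` modulo `frobPow ε q` (`spanMod_finrank`; finiteness from `hD0`). For `u : R` we have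
  `c ^ p * u = ∑ α, r α ^ p * y α`, `r α = ∑ k, b α k • g k + v α`, `v α ∈ frobPow ε q`, so
  `r α ^ p = ∑ k, (b α k) ^ p • g k ^ p + v α ^ p` (`sum_pow_char`, `add_pow_char`) and `v α ^ p ∈ frobPow ε Q` (a sum of multiples
  `a * y ^ q` has the `p`-th power `∑ a ^ p * y ^ Q`). So `c ^ p * u` is a combination of the `n * card P` elements `g k ^ p * y α`
  modulo `frobPow ε Q`. With `hD` `R` is spanned modulo `frobPow ε Q` by `D + card P * n` elements
  (`SpanMod` for the ideal `(c^p) + frobPow ε Q`: `f - ∑ c' k • g' k = c ^ p * u + v`, `Ideal.mem_span_singleton'`, `Submodule.mem_sup`).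
-/

namespace Pool.FSig

/-- the Hilbert–Kunz function at `q` -/
noncomputable def hk {A K : Type*} [CommRing A] [Field K] [Algebra K A] (ε : A →+* K) (q : ℕ) : ℕ :=
  Module.finrank K (A ⧸ frobPow ε q)

private theorem hka_mk {K A : Type*} [Field K] [CommRing A] [Algebra K A] (I : Ideal A)
    (c : K) (x : A) : Ideal.Quotient.mk I (c • x) = c • Ideal.Quotient.mk I x := by
  rw [Algebra.smul_def, Algebra.smul_def, map_mul]
  rfl

private theorem hka_sum {K A ι : Type*} [Field K] [CommRing A] [Algebra K A] [Fintype ι]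
    (I : Ideal A) (c : ι → K) (g : ι → A) (f : A) :
    f - ∑ k, c k • g k ∈ I ↔ Ideal.Quotient.mk I f = ∑ k, c k • Ideal.Quotient.mk I (g k) := by
  rw [← Ideal.Quotient.mk_eq_mk_iff_sub_mem, map_sum]
  simp only [hka_mk]

private theorem hka_fin {K A ι : Type*} [Field K] [CommRing A] [Algebra K A] [Fintype ι]
    (I : Ideal A) (g : ι → A) (h : ∀ f : A, ∃ c : ι → K, f - ∑ k, c k • g k ∈ I) :
    SpanMod K I (Fintype.card ι) := by
  let e := Fintype.equivFin ι
  refine ⟨fun k => g (e.symm k), fun f => ?_⟩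
  obtain ⟨c, hc⟩ := h f
  refine ⟨fun k => c (e.symm k), ?_⟩
  rw [Equiv.sum_comp e.symm (fun i => c i • g i)]
  exact hc

theorem finrank_le_of_spanMod {K A : Type*} [Field K] [CommRing A] [Algebra K A] {I : Ideal A}
    {D : ℕ} (h : SpanMod K I D) : Module.Finite K (A ⧸ I) ∧ Module.finrank K (A ⧸ I) ≤ D := by
  classical
  obtain ⟨g, hg⟩ := h
  have h1 : Submodule.span K (Set.range fun k => Ideal.Quotient.mk I (g k)) = ⊤ := by
    rw [eq_top_iff]
    intro x _
    obtain ⟨f, rfl⟩ := Ideal.Quotient.mk_surjective x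
    obtain ⟨c, hc⟩ := hg f
    rw [hka_sum] at hc
    rw [hc]
    exact Submodule.sum_mem _ fun k _ =>
      Submodule.smul_mem _ _ (Submodule.subset_span ⟨k, rfl⟩)
  constructor
  · refine ⟨⟨Finset.univ.image fun k => Ideal.Quotient.mk I (g k), ?_⟩⟩
    rw [Finset.coe_image, Finset.coe_univ, Set.image_univ]
    exact h1
  · exact (finrank_le_of_span_eq_top h1).trans_eq (Fintype.card_fin D)

theorem spanMod_finrank {K A : Type*} [Field K] [CommRing A] [Algebra K A] {I : Ideal A}
    (h : Module.Finite K (A ⧸ I)) : SpanMod K I (Module.finrank K (A ⧸ I)) := by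
  have h1 : ∀ k, ∃ g : A, Ideal.Quotient.mk I g = Module.finBasis K (A ⧸ I) k :=
    fun k => Ideal.Quotient.mk_surjective _
  choose g hg using h1
  refine ⟨g, fun f => ⟨(Module.finBasis K (A ⧸ I)).repr (Ideal.Quotient.mk I f), ?_⟩⟩
  rw [hka_sum]
  simp only [hg]
  rw [Module.Basis.sum_repr]

private theorem hka_frob {K R : Type*} [Field K] [CommRing R] (p : ℕ) [Fact p.Prime] [CharP R p]
    (ε : R →+* K) (e : ℕ) {v : R} (hv : v ∈ frobPow ε (p ^ e)) :
    v ^ p ∈ frobPow ε (p ^ (e + 1)) := by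
  have hp : p ≠ 0 := (Fact.out : p.Prime).ne_zero
  unfold frobPow at hv
  induction hv using Submodule.span_induction with
  | mem x h =>
    obtain ⟨y, hy, rfl⟩ := h
    refine Ideal.subset_span ⟨y, hy, ?_⟩
    rw [← pow_mul, ← pow_succ]
  | zero => rw [zero_pow hp]; exact zero_mem _
  | add x y _ _ h1 h2 => rw [add_pow_char]; exact add_mem h1 h2
  | smul c x _ h => rw [smul_eq_mul, mul_pow]; exact Ideal.mul_mem_left _ _ h

theorem hk_le {K R P : Type*} [Field K] [CommRing R] [Algebra K R] [Fintype P] (p : ℕ)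
    [Fact p.Prime] [CharP K p] (ε : R →ₐ[K] K) (e D D0 : ℕ)
    (y : P → R) (c : R) (hc : ∀ u : R, ∃ r : P → R, c ^ p * u = ∑ α, r α ^ p * y α)
    (hD : SpanMod K (Ideal.span {c ^ p} ⊔ frobPow (ε : R →+* K) (p ^ (e + 1))) D)
    (hD0 : SpanMod K (frobPow (ε : R →+* K) (p ^ e)) D0) :
    hk (ε : R →+* K) (p ^ (e + 1)) ≤ Fintype.card P * hk (ε : R →+* K) (p ^ e) + D := by
  have hnt : Nontrivial R := (ε : R →+* K).domain_nontrivial
  have hchar : CharP R p := charP_of_injective_algebraMap (algebraMap K R).injective p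
  have hexp : ExpChar R p := ExpChar.prime Fact.out
  obtain ⟨g, hg⟩ := spanMod_finrank (finrank_le_of_spanMod hD0).1
  obtain ⟨g', hg'⟩ := hD
  have key : SpanMod K (frobPow (ε : R →+* K) (p ^ (e + 1)))
      (Fintype.card ((P × Fin (Module.finrank K (R ⧸ frobPow (ε : R →+* K) (p ^ e)))) ⊕ Fin D)) := by
    refine hka_fin _ (Sum.elim (fun i => g i.2 ^ p * y i.1) g') fun f => ?_
    obtain ⟨c', hc'⟩ := hg' f
    obtain ⟨a, ha, b, hb, hab⟩ := Submodule.mem_sup.1 hc'
    obtain ⟨u, rfl⟩ := Ideal.mem_span_singleton'.1 ha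
    obtain ⟨r, hr⟩ := hc u
    have h1 : ∀ α, ∃ b : Fin (Module.finrank K (R ⧸ frobPow (ε : R →+* K) (p ^ e))) → K,
        r α - ∑ k, b k • g k ∈ frobPow (ε : R →+* K) (p ^ e) := fun α => hg (r α)
    choose bb hbb using h1
    refine ⟨Sum.elim (fun i => bb i.1 i.2 ^ p) c', ?_⟩
    rw [Fintype.sum_sum_type, Fintype.sum_prod_type]
    simp only [Sum.elim_inl, Sum.elim_inr]
    have h2 : f - (∑ α, ∑ k, bb α k ^ p • (g k ^ p * y α) + ∑ k, c' k • g' k) =
        b + ∑ α, (r α ^ p - ∑ k, bb α k ^ p • g k ^ p) * y α := by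
      have h3 : f = u * c ^ p + b + ∑ k, c' k • g' k := by rw [hab]; ring
      have h4 : u * c ^ p = ∑ α, r α ^ p * y α := by rw [← hr, mul_comm]
      have h5 : ∀ α, (r α ^ p - ∑ k, bb α k ^ p • g k ^ p) * y α =
          r α ^ p * y α - ∑ k, bb α k ^ p • (g k ^ p * y α) := by
        intro α
        rw [sub_mul, Finset.sum_mul]
        simp only [smul_mul_assoc]
      simp only [h5]
      rw [Finset.sum_sub_distrib, ← h4, h3]
      ring
    rw [h2]
    refine add_mem hb (Submodule.sum_mem _ fun α _ => Ideal.mul_mem_right _ _ ?_)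
    have h6 : r α ^ p - ∑ k, bb α k ^ p • g k ^ p = (r α - ∑ k, bb α k • g k) ^ p := by
      rw [sub_pow_char, sum_pow_char]
      simp only [smul_pow]
    rw [h6]
    exact hka_frob p _ e (hbb α)
  have h7 := (finrank_le_of_spanMod key).2
  rw [Fintype.card_sum, Fintype.card_prod, Fintype.card_fin, Fintype.card_fin] at h7
  exact h7

end Pool.FSig
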