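import Pool.Agent.Lib.FSig.HKA

/-!
# Module HKB: second comparison of the Hilbert–Kunz lengths

`κ α : R → R` linear (`PL p`), `κ α (r ^ p * y β) = c * r` if `α = β`, else `0`. `q = p ^ e`, `Q = p ^ (e+1)`, `n' = hk ε Q`.

Proof. `Θ f = (class of κ α f)_α ∈ (P → R / frobPow ε q)`, additive. `κ α` maps `frobPow ε Q` into `frobPow ε q`
(`κ α (y ^ Q * u) = y ^ q * κ α u`; the ideal consists of finite sums of multiples of the generators: `Submodule.span_induction`), and
`κ α (b ^ p • f) = b • κ α f`, so if `g' k` (`k < n'`) span `R` modulo `frobPow ε Q` (`spanMod_finrank`), then `Θ f` is in the span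
`W` of the `n'` vectors `Θ (g' k)` (`f = ∑ b k • g' k + v`, `b k = (b' k) ^ p` by `hK`), so `finrank W ≤ n'`.
Let `U ⊆ R / frobPow ε q` be the image of the ideal `c R`, a `K`-subspace, with `(R / frobPow ε q) / U` a quotient of
`R / ((c) + frobPow ε q)`, spanned by `D` elements, so `hk ε q ≤ finrank U + D` (e.g. `⊤ = U ⊔ span (g k)`,
`Submodule.finrank_add_le_finrank_add_finrank`). As `Θ (u ^ p * y β)` is the class of `c * u` at `β` and `0` elsewhere, `W` contains
`Pi`-many copies of `U`: `card P * finrank U ≤ finrank W` (the injective linear map `(P → U) → (P → R / _)` has its range in `W`). So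
`card P * hk ε q ≤ card P * finrank U + card P * D ≤ hk ε Q + card P * D`.
-/

namespace Pool.FSig

private theorem hkb_smul {K R : Type*} [Field K] [CommRing R] [Algebra K R] (p : ℕ)
    (κ : R →+ R) (hκ : PL p κ) (b : K) (f : R) : κ (b ^ p • f) = b • κ f := by
  rw [Algebra.smul_def, map_pow, hκ, Algebra.smul_def]

private theorem hkb_mem {K R : Type*} [Field K] [CommRing R] [Algebra K R] (p e : ℕ)
    (ε : R →+* K) (κ : R →+ R) (hκ : PL p κ) (v : R) (hv : v ∈ frobPow ε (p ^ (e + 1))) :
    κ v ∈ frobPow ε (p ^ e) := by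
  have key : ∀ a : R, κ (a * v) ∈ frobPow ε (p ^ e) := by
    unfold frobPow at hv
    induction hv using Submodule.span_induction with
    | mem x hx =>
      intro a
      obtain ⟨y, hy, rfl⟩ := hx
      have h1 : a * y ^ p ^ (e + 1) = (y ^ p ^ e) ^ p * a := by
        rw [← pow_mul, ← pow_succ, mul_comm]
      rw [h1, hκ]
      exact Ideal.mul_mem_right _ _ (Ideal.subset_span ⟨y, hy, rfl⟩)
    | zero => intro a; simp
    | add x y _ _ hx hy =>
      intro a
      rw [mul_add, map_add]
      exact Ideal.add_mem _ (hx a) (hy a)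
    | smul b x _ hx =>
      intro a
      rw [smul_eq_mul, ← mul_assoc]
      exact hx (a * b)
  simpa using key 1

theorem mul_hk_le {K R P : Type*} [Field K] [CommRing R] [Algebra K R] [Fintype P] [DecidableEq P]
    (p : ℕ) [Fact p.Prime] [CharP K p] (hK : ∀ c : K, ∃ c' : K, c' ^ p = c) (ε : R →ₐ[K] K)
    (e D D0 D1 : ℕ) (y : P → R) (c : R) (κ : P → (R →+ R)) (hκ : ∀ α, PL p (κ α))
    (hc : ∀ (r : R) (α β : P), κ α (r ^ p * y β) = if α = β then c * r else 0)
    (hD : SpanMod K (Ideal.span {c} ⊔ frobPow (ε : R →+* K) (p ^ e)) D)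
    (hD0 : SpanMod K (frobPow (ε : R →+* K) (p ^ e)) D0)
    (hD1 : SpanMod K (frobPow (ε : R →+* K) (p ^ (e + 1))) D1) :
    Fintype.card P * hk (ε : R →+* K) (p ^ e) ≤
      hk (ε : R →+* K) (p ^ (e + 1)) + Fintype.card P * D := by
  classical
  set I : Ideal R := frobPow (ε : R →+* K) (p ^ e) with hI
  set J : Ideal R := frobPow (ε : R →+* K) (p ^ (e + 1)) with hJ
  have hfI : Module.Finite K (R ⧸ I) := (finrank_le_of_spanMod hD0).1
  have hfJ : Module.Finite K (R ⧸ J) := (finrank_le_of_spanMod hD1).1
  obtain ⟨g', hg'⟩ := spanMod_finrank (I := J) hfJ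
  obtain ⟨g, hg⟩ := hD
  let Θ : R →+ (P → R ⧸ I) :=
    { toFun := fun f α => Ideal.Quotient.mk I (κ α f)
      map_zero' := by funext α; simp
      map_add' := by intro a b; funext α; simp }
  have hΘ : ∀ f α, Θ f α = Ideal.Quotient.mk I (κ α f) := fun f α => rfl
  have hΘJ : ∀ v ∈ J, Θ v = 0 := by
    intro v hv
    funext α
    rw [hΘ, Pi.zero_apply, Ideal.Quotient.eq_zero_iff_mem]
    exact hkb_mem p e (ε : R →+* K) (κ α) (hκ α) v hv
  have hΘs : ∀ (b : K) (f : R), Θ (b ^ p • f) = b • Θ f := by
    intro b f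
    funext α
    rw [hΘ, Pi.smul_apply, hΘ, hkb_smul p (κ α) (hκ α), Algebra.smul_def, Algebra.smul_def, map_mul]
    rfl
  let W : Submodule K (P → R ⧸ I) := Submodule.span K (Set.range fun k => Θ (g' k))
  have hW : ∀ f, Θ f ∈ W := by
    intro f
    obtain ⟨b, hb⟩ := hg' f
    choose b' hb' using fun k => hK (b k)
    have h1 : f = ∑ k, (b' k) ^ p • g' k + (f - ∑ k, b k • g' k) := by
      simp only [hb']
      abel
    rw [h1, map_add, hΘJ _ hb, add_zero, map_sum]
    refine Submodule.sum_mem _ fun k _ => ?_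
    rw [hΘs]
    exact Submodule.smul_mem _ _ (Submodule.subset_span ⟨k, rfl⟩)
  have hWle : Module.finrank K W ≤ Module.finrank K (R ⧸ J) := by
    have := finrank_range_le_card (R := K) (fun k => Θ (g' k))
    rwa [Fintype.card_fin] at this
  let L : R →ₗ[K] R ⧸ I := (Ideal.Quotient.mkₐ K I).toLinearMap ∘ₗ LinearMap.mulLeft K c
  have hL : ∀ r, L r = Ideal.Quotient.mk I (c * r) := fun r => rfl
  let U : Submodule K (R ⧸ I) := LinearMap.range L
  have hU : Module.finrank K (R ⧸ I) ≤ Module.finrank K U + D := by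
    have htop : (⊤ : Submodule K (R ⧸ I)) ≤
        U ⊔ Submodule.span K (Set.range fun k => Ideal.Quotient.mk I (g k)) := by
      intro z _
      obtain ⟨f, rfl⟩ := Ideal.Quotient.mk_surjective z
      obtain ⟨d, hd⟩ := hg f
      obtain ⟨u, hu, v, hv, huv⟩ := Submodule.mem_sup.1 hd
      obtain ⟨r, rfl⟩ := Ideal.mem_span_singleton'.1 hu
      have h1 : Ideal.Quotient.mk I f =
          L r + ∑ k, d k • Ideal.Quotient.mk I (g k) := by
        have h2 : f = r * c + v + ∑ k, d k • g k := by rw [huv]; ring
        rw [hL]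
        conv_lhs => rw [h2]
        rw [map_add, map_add, Ideal.Quotient.eq_zero_iff_mem.2 hv, add_zero, map_sum, mul_comm r c]
        congr 1
      rw [h1]
      refine Submodule.add_mem_sup ⟨r, rfl⟩ (Submodule.sum_mem _ fun k _ => ?_)
      exact Submodule.smul_mem _ _ (Submodule.subset_span ⟨k, rfl⟩)
    have h3 : Module.finrank K (R ⧸ I) ≤ Module.finrank K
        (U ⊔ Submodule.span K (Set.range fun k => Ideal.Quotient.mk I (g k)) :
          Submodule K (R ⧸ I)) := by
      rw [← finrank_top K (R ⧸ I)]
      exact Submodule.finrank_mono htop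
    have h4 := Submodule.finrank_add_le_finrank_add_finrank U
      (Submodule.span K (Set.range fun k => Ideal.Quotient.mk I (g k)))
    have h5 := finrank_range_le_card (R := K) (fun k => Ideal.Quotient.mk I (g k))
    rw [Fintype.card_fin] at h5
    unfold Set.finrank at h5
    omega
  have hPU : Fintype.card P * Module.finrank K U ≤ Module.finrank K W := by
    have h1 : Module.finrank K (P → U) = Fintype.card P * Module.finrank K U := by
      rw [Module.finrank_pi_fintype]
      simp
    rw [← h1]
    let F : (P → U) →ₗ[K] (P → R ⧸ I) := LinearMap.compLeft U.subtype P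
    have hF : ∀ u α, F u α = (u α : R ⧸ I) := fun u α => rfl
    have hFW : ∀ u, F u ∈ W := by
      intro u
      have h2 : F u = ∑ β, Pi.single β (u β : R ⧸ I) := by
        funext α
        rw [hF, Finset.sum_apply, Finset.sum_eq_single α]
        · simp
        · intro β _ hβ
          simp [hβ.symm]
        · intro h
          exact absurd (Finset.mem_univ α) h
      rw [h2]
      refine Submodule.sum_mem _ fun β _ => ?_
      obtain ⟨r, hr⟩ := (u β).2
      have h3 : Pi.single β (u β : R ⧸ I) = Θ (r ^ p * y β) := by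
        funext α
        rw [hΘ, hc, ← hr, hL]
        by_cases h : α = β
        · subst h
          simp
        · simp [h]
      rw [h3]
      exact hW _
    have hinj : Function.Injective (F.codRestrict W hFW) := by
      intro u v huv
      funext α
      apply Subtype.ext
      have := congrFun (congrArg Subtype.val huv) α
      exact this
    exact LinearMap.finrank_le_finrank_of_injective hinj
  unfold hk
  calc Fintype.card P * Module.finrank K (R ⧸ I)
      ≤ Fintype.card P * (Module.finrank K U + D) := Nat.mul_le_mul_left _ hU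
    _ = Fintype.card P * Module.finrank K U + Fintype.card P * D := by ring
    _ ≤ Module.finrank K (R ⧸ J) + Fintype.card P * D := by
        exact Nat.add_le_add_right (hPU.trans hWle) _

end Pool.FSig
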