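import Mathlib

/-!
# Module HLen: length over a local ring with residue field `K` is the dimension over `K`

`L` local, a `K`-algebra with `L = K + m_L`, `M` an `L`-module of finite dimension over `K`.

Proof. `IsLocalRing.length_restrictScalars` of Mathlib: the length over `K` is the length over `L` times the length of the
residue field of `L` over the residue field of `K`, and this is `1` because the map of residue fields is onto.
-/

namespace Pool.FSig

theorem length_eq_finrank {K L : Type*} [Field K] [CommRing L] [IsLocalRing L] [Algebra K L]
    (hres : ∀ x : L, ∃ c : K, x - algebraMap K L c ∈ IsLocalRing.maximalIdeal L)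
    (M : Type*) [AddCommGroup M] [Module K M] [Module L M] [IsScalarTower K L M]
    [Module.Finite K M] : Module.length L M = (Module.finrank K M : ℕ∞) := by
  haveI hloc : IsLocalHom (algebraMap K L) := by
    constructor
    intro a ha
    by_cases h : a = 0
    · subst h
      rw [map_zero] at ha
      exact absurd ha not_isUnit_zero
    · exact isUnit_iff_ne_zero.mpr h
  have hsurj : Function.Surjective
      (algebraMap (IsLocalRing.ResidueField K) (IsLocalRing.ResidueField L)) := by
    intro y
    obtain ⟨x, rfl⟩ := IsLocalRing.residue_surjective y
    obtain ⟨c, hc⟩ := hres x
    refine ⟨IsLocalRing.residue K c, ?_⟩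
    have h1 : IsLocalRing.residue L (x - algebraMap K L c) = 0 :=
      (IsLocalRing.residue_eq_zero_iff _).mpr hc
    rw [map_sub, sub_eq_zero] at h1
    rw [h1]
    exact IsLocalRing.ResidueField.algebraMap_residue c
  have h1 : Module.length (IsLocalRing.ResidueField K) (IsLocalRing.ResidueField L) = 1 := by
    rw [Module.length_eq_of_surjective (M := IsLocalRing.ResidueField L) hsurj]
    exact Module.length_eq_one _ _
  rw [← Module.length_eq_finrank K M, IsLocalRing.length_restrictScalars K L M, h1, mul_one]

end Pool.FSig
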