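import Pool.Agent.Lib.FSig.HKA
import Pool.Agent.Lib.FSig.HLen

/-!
# Module HLoc: `length (L / m_L^[q]) = dim_K (R / frobPow ε q)`, `L` the localisation of `R` at `ker ε`

`R` is generated as a `K`-algebra by the `x i`, `ε (x i) = 0`.

Proof. `A = R / frobPow ε q` has finite dimension over `K` (`hD`). Its elements outside the image of `ker ε` are units: for
`a = c + t`, `c = ε a ≠ 0`, `t ∈ ker ε`, `t ^ q ∈ frobPow`, so `t` is nilpotent in `A` and `c + t` is a unit (`IsNilpotent.isUnit_add_left_of_commute`,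
or `isUnit_add_right_iff`). Hence the map `R → A` extends to `ψ : L → A` (`IsLocalization.lift`), which is surjective, and its kernel is
`m_L^[q] = Ideal.span {x ^ q | x ∈ m_L}`: an element `r / s` goes to zero iff `r ∈ frobPow ε q` iff (as `s` is a unit) `r / s` is in the
ideal generated by the image of `frobPow ε q`; and `m_L` is generated by the image of `ker ε`: `(r / s) ^ q = r ^ q / s ^ q`, so this ideal is
`Ideal.span {x ^ q | x ∈ m_L}`. So `L / m_L^[q] ≃ A` as rings and as `L`-modules; the `L`-length of `A` is `finrank K A`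
(`length_eq_finrank`, with the `K`-algebra structure of `L` through `R`; `L = K + m_L` since `r / s - ε r / ε s ∈ m_L`).
(One may prove the statement for `A` as an `L`-module through `ψ` and transport by `LinearEquiv.length_eq`.)
-/

namespace Pool.FSig

private theorem hloc_aux {K L A : Type*} [Field K] [CommRing L] [IsLocalRing L] [Algebra K L]
    [CommRing A] [Algebra K A] [Algebra L A] [IsScalarTower K L A] [Module.Finite K A]
    (hres : ∀ x : L, ∃ c : K, x - algebraMap K L c ∈ IsLocalRing.maximalIdeal L)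
    (J : Ideal L) (hs : Function.Surjective (algebraMap L A))
    (hk : ∀ z, algebraMap L A z = 0 ↔ z ∈ J) :
    Module.length L (L ⧸ J) = (Module.finrank K A : ℕ∞) := by
  have e : (L ⧸ J) ≃ₗ[L] A :=
    (Submodule.quotEquivOfEq J (LinearMap.ker (Algebra.linearMap L A)) (by
      ext z
      rw [LinearMap.mem_ker, Algebra.linearMap_apply, hk])).trans
    (LinearMap.quotKerEquivOfSurjective (Algebra.linearMap L A) hs)
  rw [e.length_eq]
  exact length_eq_finrank hres A

theorem length_loc {K R L : Type*} [Field K] [CommRing R] [Algebra K R] [CommRing L] [IsLocalRing L]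
    [Algebra R L] {M D : ℕ} (x : Fin M → R) (hx : Algebra.adjoin K (Set.range x) = ⊤)
    (ε : R →ₐ[K] K) (hε : ∀ i, ε (x i) = 0)
    [(RingHom.ker (ε : R →+* K)).IsPrime] [IsLocalization.AtPrime L (RingHom.ker (ε : R →+* K))]
    (p : ℕ) [Fact p.Prime] [CharP K p] (e : ℕ)
    (hD : SpanMod K (frobPow (ε : R →+* K) (p ^ e)) D) :
    Module.length L (L ⧸ Ideal.span {z : L | ∃ y ∈ IsLocalRing.maximalIdeal L, z = y ^ (p ^ e)}) =
      (hk (ε : R →+* K) (p ^ e) : ℕ∞) := by
  have hmax : ∀ r : R, algebraMap R L r ∈ IsLocalRing.maximalIdeal L ↔ ε r = 0 := by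
    intro r
    rw [IsLocalization.AtPrime.to_map_mem_maximal_iff L (RingHom.ker (ε : R →+* K)) r]
    exact Iff.rfl
  have hunitL : ∀ r : R, ε r ≠ 0 → IsUnit (algebraMap R L r) := by
    intro r hr
    by_contra h
    exact hr ((hmax r).mp ((IsLocalRing.mem_maximalIdeal _).mpr h))
  -- units of the quotient
  have hunit : ∀ r : R, ε r ≠ 0 →
      IsUnit (Ideal.Quotient.mk (frobPow (ε : R →+* K) (p ^ e)) r) := by
    intro r hr
    have h1 : IsNilpotent (Ideal.Quotient.mk (frobPow (ε : R →+* K) (p ^ e))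
        (r - algebraMap K R (ε r))) := by
      refine ⟨p ^ e, ?_⟩
      rw [← map_pow, Ideal.Quotient.eq_zero_iff_mem]
      refine Ideal.subset_span ⟨_, ?_, rfl⟩
      show ε (r - algebraMap K R (ε r)) = 0
      rw [map_sub, AlgHom.commutes, Algebra.algebraMap_self_apply, sub_self]
    have h2 : IsUnit (Ideal.Quotient.mk (frobPow (ε : R →+* K) (p ^ e))
        (algebraMap K R (ε r))) :=
      ((isUnit_iff_ne_zero.mpr hr).map (algebraMap K R)).map _
    have h3 := IsNilpotent.isUnit_add_left_of_commute h1 h2 (Commute.all _ _)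
    rw [← map_add, add_sub_cancel] at h3
    exact h3
  let ψ : L →+* R ⧸ frobPow (ε : R →+* K) (p ^ e) :=
    IsLocalization.lift (M := (RingHom.ker (ε : R →+* K)).primeCompl)
      (g := Ideal.Quotient.mk (frobPow (ε : R →+* K) (p ^ e))) (fun y => hunit y.1 y.2)
  have hψ : ∀ r : R, ψ (algebraMap R L r) = Ideal.Quotient.mk _ r := fun r =>
    IsLocalization.lift_eq _ r
  -- fractions
  have hfrac : ∀ z : L, ∃ r s : R, ε s ≠ 0 ∧ z * algebraMap R L s = algebraMap R L r := by
    intro z
    obtain ⟨⟨r, s⟩, h⟩ := IsLocalization.surj (RingHom.ker (ε : R →+* K)).primeCompl z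
    exact ⟨r, s.1, s.2, h⟩
  letI : Algebra K L := ((algebraMap R L).comp (algebraMap K R)).toAlgebra
  letI : Algebra L (R ⧸ frobPow (ε : R →+* K) (p ^ e)) := ψ.toAlgebra
  haveI : IsScalarTower K L (R ⧸ frobPow (ε : R →+* K) (p ^ e)) := by
    refine IsScalarTower.of_algebraMap_eq fun c => ?_
    show _ = ψ (algebraMap R L (algebraMap K R c))
    rw [hψ]
    rfl
  haveI : Module.Finite K (R ⧸ frobPow (ε : R →+* K) (p ^ e)) := (finrank_le_of_spanMod hD).1
  refine hloc_aux (K := K) ?_ _ ?_ ?_
  · intro z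
    obtain ⟨r, s, hs, h⟩ := hfrac z
    refine ⟨ε r / ε s, ?_⟩
    rw [← Ideal.mul_unit_mem_iff_mem _ (hunitL s hs)]
    have h1 : (z - algebraMap K L (ε r / ε s)) * algebraMap R L s =
        algebraMap R L (r - algebraMap K R (ε r / ε s) * s) := by
      rw [sub_mul, h, map_sub, map_mul]
      rfl
    rw [h1, hmax, map_sub, map_mul, AlgHom.commutes, Algebra.algebraMap_self_apply,
      div_mul_cancel₀ _ hs, sub_self]
  · intro a
    obtain ⟨r, rfl⟩ := Ideal.Quotient.mk_surjective a
    exact ⟨algebraMap R L r, hψ r⟩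
  · intro z
    constructor
    · intro hz
      have hz' : ψ z = 0 := hz
      obtain ⟨r, s, hs, h⟩ := hfrac z
      have h1 : Ideal.Quotient.mk (frobPow (ε : R →+* K) (p ^ e)) r = 0 := by
        rw [← hψ, ← h, map_mul, hz', zero_mul]
      rw [Ideal.Quotient.eq_zero_iff_mem] at h1
      rw [← Ideal.mul_unit_mem_iff_mem _ (hunitL s hs), h]
      have h2 := Ideal.mem_map_of_mem (algebraMap R L) h1
      unfold frobPow at h2
      rw [Ideal.map_span] at h2
      refine (Ideal.span_mono ?_) h2
      rintro _ ⟨_, ⟨y, hy, rfl⟩, rfl⟩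
      exact ⟨algebraMap R L y, (hmax y).mpr hy, map_pow _ _ _⟩
    · intro hz
      have h1 : Ideal.span {z : L | ∃ y ∈ IsLocalRing.maximalIdeal L, z = y ^ (p ^ e)} ≤
          RingHom.ker ψ := by
        rw [Ideal.span_le]
        rintro _ ⟨y, hy, rfl⟩
        obtain ⟨r, s, hs, h⟩ := hfrac y
        have h2 : ε r = 0 := by
          rw [← hmax, ← h]
          exact Ideal.mul_mem_right _ _ hy
        have h3 : ψ y ^ (p ^ e) * Ideal.Quotient.mk (frobPow (ε : R →+* K) (p ^ e)) s ^ (p ^ e) =
            0 := by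
          rw [← mul_pow, ← hψ s, ← map_mul, h, hψ, ← map_pow, Ideal.Quotient.eq_zero_iff_mem]
          exact Ideal.subset_span ⟨r, h2, rfl⟩
        have h4 : ψ (y ^ (p ^ e)) = 0 := by
          rw [map_pow]
          exact (((hunit s hs).pow (p ^ e)).mul_left_eq_zero).mp h3
        exact h4
      exact h1 hz

end Pool.FSig
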