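import Pool.Agent.Lib.FSig.HKU
import Pool.Agent.Lib.FSig.HLoc
import Pool.Agent.Lib.FSig.LimS
import Pool.Agent.Lib.FSig.ChD

/-!
# Module HKGen: the Hilbert–Kunz multiplicity of `R_{m,n,3}` exists and is `ℓ(R/m^[p]) / p^d + O(1/p)`, uniformly

`d = 2 (m + n) - 4 = card (Iota m n)` (`card_Iota`). As in module `General`: `ε : R3 →ₐ[K] K` with underlying homomorphism `ev0`,
`ε (xg k) = 0`, `IsChart` by `isChart_jQ`. `hk_step`, `exists_limit` with `C₀ = 2 (2 m n + d) (m n + 1)^(d-1)`; `length_loc` for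
`L3 = Localization.AtPrime (irr m n K)` (`hD` from `spanMod_frob`). For `e = 1`: `hk ev0 p = finrank K (Rp / (x_ij ^ p))`: `frobPow_eq`, and the
algebra isomorphism `R3 ≃ₐ Rp` induced by `toT` (`jT` is injective with range `Rp`, `toT = jT ∘ mk`) maps the ideal generated by the `xg k ^ p` to the
ideal generated by the `[i j] ^ p`. `C = 2 C₀`. Note `(p^e)^d = p^(e*d)`.
-/

namespace Pool.FSig

open Filter Topology

/-- the generators of `Rp` -/
noncomputable def xRp (m n : ℕ) (K : Type*) [Field K] (i : Fin m) (j : Fin n) :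
    _root_.FSig.Rp m n K :=
  ⟨_root_.FSig.toT m n K (MvPolynomial.X (i, j)), ⟨MvPolynomial.X (i, j), rfl⟩⟩

/-- the length of `L / m_L^[q]` -/
noncomputable def hkLen (L : Type*) [CommRing L] [IsLocalRing L] (q : ℕ) : ℕ∞ :=
  Module.length L (L ⧸ Ideal.span {z : L | ∃ y ∈ IsLocalRing.maximalIdeal L, z = y ^ q})

private theorem hkgen_frob {K : Type*} [Field K] (p : ℕ) [Fact p.Prime] [CharP K p]
    [PerfectRing K p] (c : K) : ∃ c' : K, c' ^ p = c := by
  obtain ⟨c', hc⟩ := surjective_frobenius K p c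
  exact ⟨c', by rw [← hc, frobenius_def]⟩

/-- evaluation at the origin as an algebra map -/
private noncomputable def hkgenE (m n : ℕ) (K : Type*) [Field K] :
    _root_.FSig.R3 m n K →ₐ[K] K :=
  { _root_.FSig.ev0 m n K with
    commutes' := by
      intro r
      have h1 : algebraMap K (_root_.FSig.R3 m n K) r =
          Ideal.Quotient.mk (_root_.FSig.I3 m n K) (MvPolynomial.C r) := rfl
      show _root_.FSig.ev0 m n K (algebraMap K (_root_.FSig.R3 m n K) r) = _
      rw [h1, _root_.FSig.ev0, Ideal.Quotient.lift_mk, MvPolynomial.constantCoeff_C]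
      rfl }

private theorem hkgenE_coe (m n : ℕ) (K : Type*) [Field K] :
    ((hkgenE m n K : _root_.FSig.R3 m n K →ₐ[K] K) : _root_.FSig.R3 m n K →+* K) =
      _root_.FSig.ev0 m n K := rfl

private theorem hkgen_xg_eq (m n : ℕ) (K : Type*) [Field K] (k : Fin (m * n)) :
    xg m n K k = Ideal.Quotient.mk (_root_.FSig.I3 m n K)
      (MvPolynomial.X (finProdFinEquiv.symm k)) := by
  unfold xg xR
  rw [dif_pos ⟨(finProdFinEquiv.symm k).1.2, (finProdFinEquiv.symm k).2.2⟩]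

private theorem hkgenE_xg (m n : ℕ) (K : Type*) [Field K] (k : Fin (m * n)) :
    hkgenE m n K (xg m n K k) = 0 := by
  show _root_.FSig.ev0 m n K (xg m n K k) = 0
  rw [hkgen_xg_eq, _root_.FSig.ev0, Ideal.Quotient.lift_mk, MvPolynomial.constantCoeff_X]

private theorem hkgen_jT_mk (m n : ℕ) (K : Type*) [Field K]
    (f : MvPolynomial (Fin m × Fin n) K) :
    jT m n K (Ideal.Quotient.mk (_root_.FSig.I3 m n K) f) = _root_.FSig.toT m n K f := rfl

/-- `R3` and `Rp` are isomorphic -/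
private noncomputable def hkgenEquiv (m n : ℕ) (K : Type*) [Field K] :
    _root_.FSig.R3 m n K ≃ₐ[K] _root_.FSig.Rp m n K :=
  AlgEquiv.ofBijective ((jT m n K).codRestrict (_root_.FSig.Rp m n K) (by
      intro x
      obtain ⟨f, rfl⟩ := Ideal.Quotient.mk_surjective x
      exact ⟨f, (hkgen_jT_mk m n K f).symm⟩))
    ⟨by
      intro x y hxy
      have h := congrArg Subtype.val hxy
      exact jT_injective m n K h, by
      rintro ⟨y, f, rfl⟩
      exact ⟨Ideal.Quotient.mk _ f, Subtype.ext (hkgen_jT_mk m n K f)⟩⟩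

private theorem hkgenEquiv_xg (m n : ℕ) (K : Type*) [Field K] (k : Fin (m * n)) :
    hkgenEquiv m n K (xg m n K k) =
      xRp m n K (finProdFinEquiv.symm k).1 (finProdFinEquiv.symm k).2 := by
  apply Subtype.ext
  rw [hkgen_xg_eq]
  exact hkgen_jT_mk m n K _

private theorem hkgen_finrank (m n : ℕ) (hm : 2 ≤ m) (hn : 2 ≤ n) (K : Type*) [Field K] (p : ℕ)
    [Fact p.Prime] [CharP K p] :
    hk ((hkgenE m n K : _root_.FSig.R3 m n K →ₐ[K] K) : _root_.FSig.R3 m n K →+* K) (p ^ 1) =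
      Module.finrank K (_root_.FSig.Rp m n K ⧸
          Ideal.span (Set.range fun ij : Fin m × Fin n => xRp m n K ij.1 ij.2 ^ p)) := by
  have h1 := frobPow_eq p (xg m n K) (isChart_jQ m n hm hn K).gen (hkgenE m n K)
    (hkgenE_xg m n K) 1
  unfold hk
  rw [h1]
  have h2 : (Ideal.span (Set.range fun ij : Fin m × Fin n => xRp m n K ij.1 ij.2 ^ p)) =
      (Ideal.span (Set.range fun k => xg m n K k ^ (p ^ 1))).map
        ((hkgenEquiv m n K : _root_.FSig.R3 m n K ≃ₐ[K] _root_.FSig.Rp m n K) :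
          _root_.FSig.R3 m n K →+* _root_.FSig.Rp m n K) := by
    rw [Ideal.map_span]
    congr 1
    ext z
    constructor
    · rintro ⟨ij, rfl⟩
      refine ⟨xg m n K (finProdFinEquiv ij) ^ (p ^ 1), ⟨finProdFinEquiv ij, rfl⟩, ?_⟩
      have h3 := hkgenEquiv_xg m n K (finProdFinEquiv ij)
      rw [Equiv.symm_apply_apply] at h3
      show hkgenEquiv m n K _ = _
      rw [map_pow, h3, pow_one]
    · rintro ⟨_, ⟨k, rfl⟩, rfl⟩
      refine ⟨finProdFinEquiv.symm k, ?_⟩
      have h3 := hkgenEquiv_xg m n K k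
      show _ = hkgenEquiv m n K _
      rw [map_pow, h3, pow_one]
  exact (Ideal.quotientEquivAlg _ _ (hkgenEquiv m n K) h2).toLinearEquiv.finrank_eq

theorem hkGeneral.{u} (m n : ℕ) (hm : 3 ≤ m) (hn : 3 ≤ n) : ∃ C : ℝ, ∀ (p : ℕ) [Fact p.Prime]
    (K : Type u) [Field K] [CharP K p] [PerfectRing K p],
      (∀ e : ℕ, hkLen (_root_.FSig.L3 m n K) (p ^ e) ≠ ⊤) ∧ ∃ s : ℝ,
      Tendsto (fun e : ℕ => ((hkLen (_root_.FSig.L3 m n K) (p ^ e)).toNat : ℝ) /
        (p : ℝ) ^ (e * (2 * (m + n) - 4))) atTop (𝓝 s) ∧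
      |s - (Module.finrank K (_root_.FSig.Rp m n K ⧸
          Ideal.span (Set.range fun ij : Fin m × Fin n => xRp m n K ij.1 ij.2 ^ p)) : ℝ) /
        (p : ℝ) ^ (2 * (m + n) - 4)| ≤ C / p := by
  have hm2 : 2 ≤ m := by omega
  have hn2 : 2 ≤ n := by omega
  have hcard := card_Iota m n hm2
  refine ⟨2 * ((2 * (2 * (m * n) + Fintype.card (Iota m n)) *
    (m * n + 1) ^ (Fintype.card (Iota m n) - 1) : ℕ) : ℝ), ?_⟩
  intro p _ K _ _ _
  have hp2 : 2 ≤ p := (Fact.out : p.Prime).two_le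
  have hch := isChart_jQ m n hm2 hn2 K
  have hprime : (RingHom.ker ((hkgenE m n K : _root_.FSig.R3 m n K →ₐ[K] K) :
      _root_.FSig.R3 m n K →+* K)).IsPrime := _root_.FSig.irr_isPrime m n K
  have hloc : IsLocalization.AtPrime (_root_.FSig.L3 m n K)
      (RingHom.ker ((hkgenE m n K : _root_.FSig.R3 m n K →ₐ[K] K) :
      _root_.FSig.R3 m n K →+* K)) :=
    (inferInstance : IsLocalization.AtPrime (_root_.FSig.L3 m n K) (_root_.FSig.irr m n K))
  have hlen : ∀ e : ℕ, hkLen (_root_.FSig.L3 m n K) (p ^ e) =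
      (hk ((hkgenE m n K : _root_.FSig.R3 m n K →ₐ[K] K) :
        _root_.FSig.R3 m n K →+* K) (p ^ e) : ℕ∞) := by
    intro e
    exact length_loc (L := _root_.FSig.L3 m n K) (xg m n K) hch.gen (hkgenE m n K)
      (hkgenE_xg m n K) p e
      (spanMod_frob hch (hkgenE m n K) (hkgenE_xg m n K) (p ^ e) (Nat.one_le_pow _ _ (by omega)))
  refine ⟨fun e => by rw [hlen e]; exact ENat.natCast_ne_top _, ?_⟩
  obtain ⟨s, hs, hs1⟩ := exists_limit (fun e => (hk ((hkgenE m n K :
        _root_.FSig.R3 m n K →ₐ[K] K) : _root_.FSig.R3 m n K →+* K) (p ^ e) : ℝ) /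
          ((p : ℝ) ^ e) ^ Fintype.card (Iota m n))
    ((2 * (2 * (m * n) + Fintype.card (Iota m n)) *
      (m * n + 1) ^ (Fintype.card (Iota m n) - 1) : ℕ) : ℝ) p hp2
    (fun e => hk_step p (hkgen_frob p) hch (hkgenE m n K) (hkgenE_xg m n K) e)
  refine ⟨s, ?_, ?_⟩
  · refine hs.congr fun e => ?_
    rw [hlen e, ENat.toNat_natCast, ← pow_mul, hcard]
  · have h1 := hkgen_finrank m n hm2 hn2 K p
    rw [h1, pow_one, hcard] at hs1
    rw [hcard]
    exact hs1

end Pool.FSig
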