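import Pool.Agent.Lib.FSig.GDefs

/-!
# Module HilA: the graded pieces of `R` have dimension at most `(k + 1) ^ (d - 1)`

`V = span (x 0, …, x (M-1))`, `V ^ k` = span of the products of `k` generators, `d = card ι`.

Every element of `j (V ^ k)` is a combination of monomials `X ^ μ` with `μ i ≤ k` for all `i` and
`∑ i ∈ Z, μ i = k` (induction on `k`, `Submodule.pow_induction_on_left'` or `Submodule.pow_succ`, `Submodule.mul_induction_on`:
the support of a product is contained in the sum of the supports, `MvPolynomial.support_mul`). Fix `i₀ ∈ Z`; such `μ` is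
determined by its values at `i ≠ i₀`, which are in `[0, k]`; so there are at most `(k + 1) ^ (d - 1)` of them. As `j` is
injective, `finrank (V ^ k) ≤ ` dimension of the span of these monomials `≤ (k + 1) ^ (d - 1)`
(`Submodule.finrank_mono`, `LinearEquiv.finrank_eq` for `V ^ k ≃ j (V ^ k)`, `finrank_span_finset_le_card`; the span of finitely
many elements is finite dimensional).
-/

namespace Pool.FSig

private theorem supp_mem_span {K R ι : Type*} [Field K] [CommRing R] [Algebra K R]
    {M : ℕ} {j : R →ₐ[K] MvPolynomial ι K} {x : Fin M → R} {s : R} {Z : Finset ι}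
    (h : IsChart j x s Z) (b : R) (hb : b ∈ Submodule.span K (Set.range x)) :
    ∀ μ ∈ (j b).support, (∀ i, μ i ≤ 1) ∧ ∑ i ∈ Z, μ i = 1 := by
  classical
  induction hb using Submodule.span_induction with
  | mem y hy =>
    obtain ⟨k, rfl⟩ := hy
    intro μ hμ
    exact ⟨h.sqf k μ hμ, h.deg k μ hμ⟩
  | zero =>
    intro μ hμ
    simp at hμ
  | add a b _ _ ha hb =>
    intro μ hμ
    rw [map_add] at hμ
    rcases Finset.mem_union.mp (MvPolynomial.support_add hμ) with h1 | h1
    exacts [ha μ h1, hb μ h1]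
  | smul c a _ ha =>
    intro μ hμ
    rw [map_smul] at hμ
    exact ha μ (MvPolynomial.support_smul hμ)

private theorem supp_mem_pow {K R ι : Type*} [Field K] [CommRing R] [Algebra K R]
    {M : ℕ} {j : R →ₐ[K] MvPolynomial ι K} {x : Fin M → R} {s : R} {Z : Finset ι}
    (h : IsChart j x s Z) (k : ℕ) (b : R) (hb : b ∈ (Submodule.span K (Set.range x)) ^ k) :
    ∀ μ ∈ (j b).support, (∀ i, μ i ≤ k) ∧ ∑ i ∈ Z, μ i = k := by
  classical
  induction k generalizing b with
  | zero =>
    rw [pow_zero, Submodule.mem_one] at hb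
    obtain ⟨c, rfl⟩ := hb
    intro μ hμ
    rw [AlgHom.commutes, MvPolynomial.algebraMap_eq] at hμ
    have hz : μ = 0 := by
      by_contra hne
      exact (MvPolynomial.mem_support_iff.mp hμ) (by rw [MvPolynomial.coeff_C, if_neg (Ne.symm hne)])
    subst hz
    simp
  | succ k ih =>
    rw [pow_succ] at hb
    refine Submodule.mul_induction_on hb (fun a ha b hb => ?_) (fun a b ha hb => ?_)
    · intro μ hμ
      rw [map_mul] at hμ
      obtain ⟨μ1, h1, μ2, h2, rfl⟩ := Finset.mem_add.mp (MvPolynomial.support_mul _ _ hμ)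
      obtain ⟨a1, a2⟩ := ih a ha μ1 h1
      obtain ⟨b1, b2⟩ := supp_mem_span h b hb μ2 h2
      refine ⟨fun i => ?_, ?_⟩
      · rw [Finsupp.add_apply]
        exact add_le_add (a1 i) (b1 i)
      · simp only [Finsupp.add_apply]
        rw [Finset.sum_add_distrib, a2, b2]
    · intro μ hμ
      rw [map_add] at hμ
      rcases Finset.mem_union.mp (MvPolynomial.support_add hμ) with h1 | h1
      exacts [ha μ h1, hb μ h1]

private theorem exists_mons {ι : Type*} [Fintype ι] [DecidableEq ι] (Z : Finset ι)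
    (hZ : Z.Nonempty) (k : ℕ) : ∃ T : Finset (ι →₀ ℕ), T.card ≤ (k + 1) ^ (Fintype.card ι - 1) ∧
      ∀ μ : ι →₀ ℕ, (∀ i, μ i ≤ k) → ∑ i ∈ Z, μ i = k → μ ∈ T := by
  obtain ⟨i0, hi0⟩ := hZ
  refine ⟨(Finset.univ : Finset ({i : ι // i ≠ i0} → Fin (k + 1))).image (fun g =>
    Finsupp.equivFunOnFinite.symm (fun i => if hi : i ≠ i0 then (g ⟨i, hi⟩ : ℕ) else
      k - ∑ l ∈ Z.erase i0, (if hl : l ≠ i0 then (g ⟨l, hl⟩ : ℕ) else 0))), ?_, ?_⟩
  · refine Finset.card_image_le.trans ?_
    rw [Finset.card_univ, Fintype.card_fun, Fintype.card_fin, Fintype.card_subtype_compl,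
      Fintype.card_subtype_eq]
  · intro μ h1 h2
    rw [Finset.mem_image]
    refine ⟨fun i => ⟨μ i.1, Nat.lt_succ_of_le (h1 i.1)⟩, Finset.mem_univ _, ?_⟩
    ext i
    rw [Finsupp.equivFunOnFinite_symm_apply_apply]
    by_cases hi : i ≠ i0
    · rw [dif_pos hi]
    · rw [dif_neg hi]
      rw [not_not] at hi
      subst hi
      have h3 : ∑ l ∈ Z.erase i, (if hl : l ≠ i then μ l else 0) = ∑ l ∈ Z.erase i, μ l := by
        refine Finset.sum_congr rfl fun l hl => ?_
        rw [dif_pos (Finset.ne_of_mem_erase hl)]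
      have h4 := Finset.add_sum_erase Z (fun l => μ l) hi0
      simp only at h4 ⊢
      rw [h3]
      omega

theorem finrank_pow_le {K R ι : Type*} [Field K] [CommRing R] [Algebra K R] [Fintype ι]
    [DecidableEq ι] {M : ℕ} {j : R →ₐ[K] MvPolynomial ι K} {x : Fin M → R} {s : R} {Z : Finset ι}
    (h : IsChart j x s Z) (k : ℕ) :
    Module.Finite K ((Submodule.span K (Set.range x)) ^ k : Submodule K R) ∧
      Module.finrank K ((Submodule.span K (Set.range x)) ^ k : Submodule K R) ≤
        (k + 1) ^ (Fintype.card ι - 1) := by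
  obtain ⟨T, hT1, hT2⟩ := exists_mons Z h.Z_ne k
  classical
  set V : Submodule K R := (Submodule.span K (Set.range x)) ^ k with hV
  set F : Finset (MvPolynomial ι K) := T.image (fun μ => MvPolynomial.monomial μ (1 : K)) with hF
  set W : Submodule K (MvPolynomial ι K) := Submodule.span K (F : Set (MvPolynomial ι K)) with hW
  have hle : V.map j.toLinearMap ≤ W := by
    rintro _ ⟨v, hv, rfl⟩
    rw [AlgHom.toLinearMap_apply, ← MvPolynomial.support_sum_monomial_coeff (j v)]
    refine Submodule.sum_mem _ fun μ hμ => ?_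
    obtain ⟨h1, h2⟩ := supp_mem_pow h k v hv μ hμ
    have h3 : MvPolynomial.monomial μ (MvPolynomial.coeff μ (j v)) =
        MvPolynomial.coeff μ (j v) • MvPolynomial.monomial μ (1 : K) := by
      rw [MvPolynomial.smul_monomial, smul_eq_mul, mul_one]
    rw [h3]
    refine Submodule.smul_mem _ _ (Submodule.subset_span ?_)
    rw [Finset.mem_coe, hF, Finset.mem_image]
    exact ⟨μ, hT2 μ h1 h2, rfl⟩
  have hfin : Module.Finite K W := Module.Finite.span_finset K F
  have e : V ≃ₗ[K] V.map j.toLinearMap := Submodule.equivMapOfInjective j.toLinearMap h.inj V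
  have hfin2 : Module.Finite K (V.map j.toLinearMap) :=
    Module.Finite.of_injective (Submodule.inclusion hle) (Submodule.inclusion_injective hle)
  refine ⟨Module.Finite.equiv e.symm, ?_⟩
  calc Module.finrank K V = Module.finrank K (V.map j.toLinearMap) := e.finrank_eq
    _ ≤ Module.finrank K W := Submodule.finrank_mono hle
    _ ≤ F.card := finrank_span_finset_le_card F
    _ ≤ T.card := Finset.card_image_le
    _ ≤ _ := hT1

end Pool.FSig
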