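import Pool.Agent.Lib.FSig.GDefs
import Pool.Agent.Lib.FSig.HilA

/-!
# Module HilB: `R / (s ^ k, m ^ [Q])` has dimension at most `2 k (M Q + 1) ^ (d - 1)`

`V = span (x i)`, `F n = ⨆ i < n, V ^ i`, so `F (n + 1) = V ^ n ⊔ F n`. All are finite dimensional and
`finrank (F (a + i)) ≤ finrank (F a) + i * B` if `finrank (V ^ l) ≤ B` for `l < a + i`.

* `hil_top`: every element of `R` is in `F (M * Q + 1)` plus an element of `frobPow ε Q` (`Q ≥ 1`): `R` is spanned by
  the products `∏ x i ^ μ i` (`Algebra.adjoin_range_eq_range_aeval`); if `∑ μ i ≤ M * Q` it is in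
  `F (M * Q + 1)`, otherwise some `μ i ≥ Q` and it is a multiple of `x i ^ Q`, `ε (x i) = 0`.
* `spanMod_aux`: if `U ≤ W` are submodules, `U ⊆ I`, `W + I = R` and `finrank W ≤ finrank U + D` then
  `SpanMod K I D`.
* `spanMod_s`: `U = s ^ k * F (N - 2 k)`, `W = F N`, `N = M * Q + 1`.
* `spanMod_frob`: the same with `U = 0`.
* `SpanMod.mono`: `D ≤ D'` (pad by zeros), `I ≤ I'`.
-/

namespace Pool.FSig

theorem SpanMod.mono {K A : Type*} [Field K] [CommRing A] [Algebra K A] {I I' : Ideal A} {D D' : ℕ}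
    (h : SpanMod K I D) (hI : I ≤ I') (hD : D ≤ D') : SpanMod K I' D' := by
  obtain ⟨e, rfl⟩ := Nat.exists_eq_add_of_le hD
  obtain ⟨g, hg⟩ := h
  refine ⟨Fin.append g (fun _ => 0), fun f => ?_⟩
  obtain ⟨c, hc⟩ := hg f
  refine ⟨Fin.append c (fun _ => 0), hI ?_⟩
  rw [Fin.sum_univ_add]
  simpa [Fin.append_left, Fin.append_right] using hc

private theorem spanMod_of_finrank {K A : Type*} [Field K] [CommRing A] [Algebra K A] {I : Ideal A}
    {D : ℕ} [Module.Finite K (A ⧸ I)] (h : Module.finrank K (A ⧸ I) ≤ D) : SpanMod K I D := by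
  refine SpanMod.mono (I := I) (D := Module.finrank K (A ⧸ I)) ?_ le_rfl h
  have b := Module.finBasis K (A ⧸ I)
  choose g hg using fun k => Ideal.Quotient.mk_surjective (b k)
  refine ⟨g, fun f => ⟨fun k => b.repr (Ideal.Quotient.mk I f) k, ?_⟩⟩
  rw [← Ideal.Quotient.eq_zero_iff_mem, map_sub, map_sum, sub_eq_zero]
  conv_lhs => rw [← b.sum_repr (Ideal.Quotient.mk I f)]
  refine Finset.sum_congr rfl fun k _ => ?_
  rw [← hg k]
  exact (map_smul (Ideal.Quotient.mkₐ K I) _ (g k)).symm

private theorem spanMod_aux {K A : Type*} [Field K] [CommRing A] [Algebra K A] {I : Ideal A}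
    {D : ℕ} (U W : Submodule K A) [Module.Finite K W] (hUW : U ≤ W)
    (hUI : ∀ u ∈ U, u ∈ I) (hW : ∀ f : A, ∃ w ∈ W, f - w ∈ I)
    (hD : Module.finrank K W ≤ Module.finrank K U + D) : SpanMod K I D := by
  set π : W →ₗ[K] A ⧸ I := (Ideal.Quotient.mkₐ K I).toLinearMap.comp W.subtype with hπ
  have hsurj : Function.Surjective π := by
    intro y
    obtain ⟨f, rfl⟩ := Ideal.Quotient.mk_surjective y
    obtain ⟨w, hw, hfw⟩ := hW f
    refine ⟨⟨w, hw⟩, ?_⟩
    change Ideal.Quotient.mk I w = Ideal.Quotient.mk I f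
    exact ((Ideal.Quotient.eq (I := I)).mpr hfw).symm
  haveI : Module.Finite K (A ⧸ I) := Module.Finite.of_surjective π hsurj
  refine spanMod_of_finrank ?_
  have h1 := LinearMap.finrank_range_add_finrank_ker π
  rw [LinearMap.range_eq_top.mpr hsurj, finrank_top] at h1
  have h2 : Module.finrank K U ≤ Module.finrank K (LinearMap.ker π) := by
    have e : U.comap W.subtype ≃ₗ[K] U := Submodule.comapSubtypeEquivOfLe hUW
    rw [← e.finrank_eq]
    refine Submodule.finrank_mono ?_
    rintro w hw
    rw [LinearMap.mem_ker]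
    change Ideal.Quotient.mk I (w : A) = 0
    rw [Ideal.Quotient.eq_zero_iff_mem]
    exact hUI _ hw
  omega

private theorem filt_fg {K R : Type*} [Field K] [CommRing R] [Algebra K R]
    (V : Submodule K R) (hV : V.FG) (n : ℕ) : ((Finset.range n).sup (fun i => V ^ i)).FG := by
  induction n with
  | zero =>
    rw [Finset.range_zero, Finset.sup_empty]
    exact Submodule.fg_bot
  | succ n ih =>
    rw [Finset.range_add_one, Finset.sup_insert]
    exact (hV.pow n).sup ih

private theorem filt_finrank {K R : Type*} [Field K] [CommRing R] [Algebra K R]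
    (V : Submodule K R) (hV : V.FG) (a B N : ℕ)
    (hB : ∀ l, l < N → Module.finrank K (V ^ l : Submodule K R) ≤ B) (i : ℕ) (hi : a + i ≤ N) :
    Module.finrank K ((Finset.range (a + i)).sup (fun i => V ^ i) : Submodule K R) ≤
      Module.finrank K ((Finset.range a).sup (fun i => V ^ i) : Submodule K R) + i * B := by
  induction i with
  | zero => simp
  | succ i ih =>
    have h1 := ih (by omega)
    have h2 := hB (a + i) (by omega)
    haveI : Module.Finite K (V ^ (a + i) : Submodule K R) := Module.Finite.iff_fg.mpr (hV.pow _)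
    haveI : Module.Finite K ((Finset.range (a + i)).sup (fun i => V ^ i) : Submodule K R) :=
      Module.Finite.iff_fg.mpr (filt_fg V hV _)
    have h3 := Submodule.finrank_add_le_finrank_add_finrank (V ^ (a + i) : Submodule K R)
      ((Finset.range (a + i)).sup (fun i => V ^ i) : Submodule K R)
    rw [← add_assoc, Finset.range_add_one, Finset.sup_insert, add_mul, one_mul]
    omega

private theorem prod_mem_pow {K R σ : Type*} [Field K] [CommRing R] [Algebra K R]
    (V : Submodule K R) (x : σ → R) (hx : ∀ i, x i ∈ V) (μ : σ → ℕ) (S : Finset σ) :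
    ∏ i ∈ S, x i ^ μ i ∈ V ^ (∑ i ∈ S, μ i) := by
  classical
  induction S using Finset.induction_on with
  | empty =>
    rw [Finset.prod_empty, Finset.sum_empty, pow_zero]
    exact Submodule.one_le.mp le_rfl
  | insert a S ha ih =>
    rw [Finset.prod_insert ha, Finset.sum_insert ha, pow_add]
    exact Submodule.mul_mem_mul (Submodule.pow_mem_pow V (hx a) _) ih

private theorem hil_top {K R ι : Type*} [Field K] [CommRing R] [Algebra K R]
    {M : ℕ} {j : R →ₐ[K] MvPolynomial ι K} {x : Fin M → R} {s : R} {Z : Finset ι}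
    (h : IsChart j x s Z) (ε : R →ₐ[K] K) (hε : ∀ i, ε (x i) = 0) (Q : ℕ) (f : R) :
    ∃ w ∈ ((Finset.range (M * Q + 1)).sup
      (fun i => (Submodule.span K (Set.range x)) ^ i) : Submodule K R),
      f - w ∈ frobPow (ε : R →+* K) Q := by
  set V : Submodule K R := Submodule.span K (Set.range x) with hV
  set W : Submodule K R := (Finset.range (M * Q + 1)).sup (fun i => V ^ i) with hW
  have hf : f ∈ Algebra.adjoin K (Set.range x) := by
    rw [h.gen]
    exact Algebra.mem_top
  rw [Algebra.adjoin_range_eq_range_aeval] at hf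
  obtain ⟨P, rfl⟩ := hf
  have key : ∀ P : MvPolynomial (Fin M) K, ∃ w ∈ W,
      MvPolynomial.aeval x P - w ∈ frobPow (ε : R →+* K) Q := by
    intro P
    induction P using MvPolynomial.induction_on' with
    | monomial μ c =>
      rw [MvPolynomial.aeval_monomial]
      have hprod : (μ.prod fun i k => x i ^ k) = ∏ i, x i ^ μ i := by
        rw [Finsupp.prod_fintype]
        intro i
        rw [pow_zero]
      rw [hprod]
      by_cases hμ : ∑ i, μ i < M * Q + 1
      · refine ⟨algebraMap K R c * ∏ i, x i ^ μ i, ?_, by rw [sub_self]; exact Ideal.zero_mem _⟩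
        rw [← Algebra.smul_def]
        refine Submodule.smul_mem _ _ ?_
        have h1 : V ^ (∑ i, μ i) ≤ W :=
          Finset.le_sup (f := fun i => V ^ i) (Finset.mem_range.mpr hμ)
        exact h1 (prod_mem_pow V x (fun i => Submodule.subset_span ⟨i, rfl⟩) μ Finset.univ)
      · refine ⟨0, W.zero_mem, ?_⟩
        rw [sub_zero]
        refine Ideal.mul_mem_left _ _ ?_
        have hex : ∃ i, Q ≤ μ i := by
          by_contra hne
          push Not at hne
          have h2 : ∑ i : Fin M, μ i ≤ ∑ _i : Fin M, Q := Finset.sum_le_sum fun i _ => (hne i).le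
          rw [Finset.sum_const, Finset.card_univ, Fintype.card_fin, smul_eq_mul] at h2
          omega
        obtain ⟨i, hi⟩ := hex
        have h3 : x i ^ Q ∣ ∏ i, x i ^ μ i :=
          (pow_dvd_pow (x i) hi).trans (Finset.dvd_prod_of_mem (fun i => x i ^ μ i) (Finset.mem_univ i))
        refine Ideal.mem_of_dvd _ h3 ?_
        exact Ideal.subset_span ⟨x i, hε i, rfl⟩
    | add P P' hP hP' =>
      obtain ⟨w, hw, h1⟩ := hP
      obtain ⟨w', hw', h2⟩ := hP'
      refine ⟨w + w', W.add_mem hw hw', ?_⟩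
      rw [map_add, add_sub_add_comm]
      exact Ideal.add_mem _ h1 h2
  exact key P

private theorem mul_filt {K R : Type*} [Field K] [CommRing R] [Algebra K R]
    (V : Submodule K R) (a N : ℕ) (t : R) (ht : t ∈ V ^ a) :
    Submodule.map (LinearMap.mulLeft K t)
      ((Finset.range (N - a)).sup (fun i => V ^ i) : Submodule K R) ≤
      ((Finset.range N).sup (fun i => V ^ i) : Submodule K R) := by
  rw [Submodule.map_le_iff_le_comap, Finset.sup_le_iff]
  intro i hi y hy
  rw [Finset.mem_range] at hi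
  rw [Submodule.mem_comap, LinearMap.mulLeft_apply]
  have h1 : V ^ (a + i) ≤ (Finset.range N).sup (fun i => V ^ i) :=
    Finset.le_sup (f := fun i => V ^ i) (Finset.mem_range.mpr (by omega))
  refine h1 ?_
  rw [pow_add]
  exact Submodule.mul_mem_mul ht hy

theorem spanMod_s {K R ι : Type*} [Field K] [CommRing R] [Algebra K R] [Fintype ι]
    [DecidableEq ι] {M : ℕ} {j : R →ₐ[K] MvPolynomial ι K} {x : Fin M → R} {s : R} {Z : Finset ι}
    (h : IsChart j x s Z) (ε : R →ₐ[K] K) (hε : ∀ i, ε (x i) = 0) (k Q : ℕ) (hQ : 1 ≤ Q) :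
    SpanMod K (Ideal.span {s ^ k} ⊔ frobPow (ε : R →+* K) Q)
      (2 * k * (M * Q + 1) ^ (Fintype.card ι - 1)) := by
  set V : Submodule K R := Submodule.span K (Set.range x) with hV
  have hVfg : V.FG := Submodule.fg_span (Set.finite_range x)
  set N := M * Q + 1 with hN
  set B := N ^ (Fintype.card ι - 1) with hB
  have hVB : ∀ l, l < N → Module.finrank K (V ^ l : Submodule K R) ≤ B := fun l hl =>
    (finrank_pow_le h l).2.trans (Nat.pow_le_pow_left (by omega) _)
  haveI : Module.Finite K ((Finset.range N).sup (fun i => V ^ i) : Submodule K R) :=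
    Module.Finite.iff_fg.mpr (filt_fg V hVfg _)
  have hs : s ^ k ∈ V ^ (2 * k) := by
    rw [pow_mul]
    exact Submodule.pow_mem_pow _ h.s_mem k
  have hinj : Function.Injective (LinearMap.mulLeft K (s ^ k)) := by
    intro a b hab
    rw [LinearMap.mulLeft_apply, LinearMap.mulLeft_apply] at hab
    have h1 : j (s ^ k) * j a = j (s ^ k) * j b := by rw [← map_mul, ← map_mul, hab]
    have h2 : j (s ^ k) ≠ 0 := by
      rw [map_pow]
      refine pow_ne_zero _ fun h0 => h.s_ne (h.inj ?_)
      rw [h0, map_zero]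
    exact h.inj (mul_left_cancel₀ h2 h1)
  refine spanMod_aux (Submodule.map (LinearMap.mulLeft K (s ^ k))
      ((Finset.range (N - 2 * k)).sup (fun i => V ^ i) : Submodule K R))
    ((Finset.range N).sup (fun i => V ^ i) : Submodule K R) (mul_filt V (2 * k) N (s ^ k) hs)
    ?_ ?_ ?_
  · rintro _ ⟨y, _, rfl⟩
    rw [LinearMap.mulLeft_apply]
    refine Ideal.mem_sup_left (Ideal.mul_mem_right _ _ (Ideal.subset_span rfl))
  · intro f
    obtain ⟨w, hw, hfw⟩ := hil_top h ε hε Q f
    exact ⟨w, hw, Ideal.mem_sup_right hfw⟩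
  · rw [← (Submodule.equivMapOfInjective (LinearMap.mulLeft K (s ^ k)) hinj
      ((Finset.range (N - 2 * k)).sup (fun i => V ^ i) : Submodule K R)).finrank_eq]
    have h3 := filt_finrank V hVfg (N - 2 * k) B N hVB (N - (N - 2 * k)) (by omega)
    rw [Nat.add_sub_cancel' (Nat.sub_le N (2 * k))] at h3
    refine h3.trans (Nat.add_le_add_left ?_ _)
    exact Nat.mul_le_mul_right _ (by omega)

theorem spanMod_frob {K R ι : Type*} [Field K] [CommRing R] [Algebra K R] [Fintype ι]
    [DecidableEq ι] {M : ℕ} {j : R →ₐ[K] MvPolynomial ι K} {x : Fin M → R} {s : R} {Z : Finset ι}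
    (h : IsChart j x s Z) (ε : R →ₐ[K] K) (hε : ∀ i, ε (x i) = 0) (Q : ℕ) (hQ : 1 ≤ Q) :
    SpanMod K (frobPow (ε : R →+* K) Q) ((M * Q + 1) ^ Fintype.card ι) := by
  set V : Submodule K R := Submodule.span K (Set.range x) with hV
  have hVfg : V.FG := Submodule.fg_span (Set.finite_range x)
  set N := M * Q + 1 with hN
  set B := N ^ (Fintype.card ι - 1) with hB
  have hVB : ∀ l, l < N → Module.finrank K (V ^ l : Submodule K R) ≤ B := fun l hl =>
    (finrank_pow_le h l).2.trans (Nat.pow_le_pow_left (by omega) _)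
  haveI : Module.Finite K ((Finset.range N).sup (fun i => V ^ i) : Submodule K R) :=
    Module.Finite.iff_fg.mpr (filt_fg V hVfg _)
  refine spanMod_aux ⊥ ((Finset.range N).sup (fun i => V ^ i) : Submodule K R) bot_le
    ?_ (hil_top h ε hε Q) ?_
  · intro u hu
    rw [Submodule.mem_bot] at hu
    rw [hu]
    exact Ideal.zero_mem _
  · have h3 := filt_finrank V hVfg 0 B N hVB N (by omega)
    rw [Finset.range_zero, Finset.sup_empty, zero_add] at h3
    refine h3.trans (Nat.add_le_add_left ?_ _)
    obtain ⟨i, _⟩ := h.Z_ne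
    have hc : 0 < Fintype.card ι := Fintype.card_pos_iff.mpr ⟨i⟩
    rw [hB, ← pow_succ', Nat.sub_add_cancel hc]

end Pool.FSig
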