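import Pool.Agent.Lib.FSig.HKA
import Pool.Agent.Lib.FSig.HKB
import Pool.Agent.Lib.FSig.ChartK
import Pool.Agent.Lib.FSig.HilB

/-!
# Module HKU: the uniform estimate for the Hilbert–Kunz function, one step

The same as module `UnA` with `hk_le`, `mul_hk_le` instead of `rk_mul_le`, `mul_rk_le`. `d = card ι`, `N = 2 M + d`, `c = s ^ N`,
`P = (ι → Fin p)`, `card P = p ^ d`; `M p ^ e + 1 ≤ (M + 1) p ^ e`; `exists_kappa`, `spanMod_s`, `spanMod_frob`.
* `hk_le` with `D = 2 (N p) (M p^(e+1) + 1)^(d-1)` (`c ^ p = s ^ (N p)`); divide by `p^(d(e+1))`.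
* `mul_hk_le` with `D = 2 N (M p^e + 1)^(d-1)`; divide.
* `hk_bdd`: `finrank_le_of_spanMod`, `spanMod_frob`.
* `frobPow_eq`: `frobPow ε q` is generated by the `x i ^ q` (`q = p ^ e`): if `ε y = 0` then `y` is a polynomial without constant
  term in the `x i`, a sum of multiples `a i * x i`, `y ^ q = ∑ a i ^ q * x i ^ q`.
-/

/-!
# Module HKU: the uniform estimate for the Hilbert–Kunz function, one step

The same as module `UnA` with `hk_le`, `mul_hk_le` instead of `rk_mul_le`, `mul_rk_le`. `d = card ι`, `N = 2 M + d`, `c = s ^ N`,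
`P = (ι → Fin p)`, `card P = p ^ d`; `M p ^ e + 1 ≤ (M + 1) p ^ e`; `exists_kappa`, `spanMod_s`, `spanMod_frob`.
* `hk_le` with `D = 2 (N p) (M p^(e+1) + 1)^(d-1)` (`c ^ p = s ^ (N p)`); divide by `p^(d(e+1))`.
* `mul_hk_le` with `D = 2 N (M p^e + 1)^(d-1)`; divide.
* `hk_bdd`: `finrank_le_of_spanMod`, `spanMod_frob`.
* `frobPow_eq`: `frobPow ε q` is generated by the `x i ^ q` (`q = p ^ e`): if `ε y = 0` then `y` is a polynomial without constant
  term in the `x i`, a sum of multiples `a i * x i`, `y ^ q = ∑ a i ^ q * x i ^ q`.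
-/

namespace Pool.FSig

private theorem hku_num_step (p q M N a b n : ℕ) (hp : 1 ≤ p) (hq : 1 ≤ q)
    (h1 : a ≤ p ^ (n + 1) * b + 2 * (N * p) * (M * (q * p) + 1) ^ n)
    (h2 : p ^ (n + 1) * b ≤ a + p ^ (n + 1) * (2 * N * (M * q + 1) ^ n)) :
    |(a : ℝ) / ((q : ℝ) * p) ^ (n + 1) - (b : ℝ) / (q : ℝ) ^ (n + 1)| ≤
      (2 * N * (M + 1) ^ n : ℝ) / (q : ℝ) := by
  have hp0 : (0 : ℝ) < p := by exact_mod_cast hp
  have hq0 : (0 : ℝ) < q := by exact_mod_cast hq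
  have hqp1 : 1 ≤ q * p := Nat.mul_pos hq hp
  have e1 : ((M * (q * p) + 1 : ℕ) : ℝ) ^ n ≤ (((M : ℝ) + 1) * ((q : ℝ) * p)) ^ n := by
    apply pow_le_pow_left₀ (by positivity)
    have : ((1 : ℕ) : ℝ) ≤ ((q * p : ℕ) : ℝ) := by exact_mod_cast hqp1
    push_cast at this ⊢
    nlinarith
  have e2 : ((M * q + 1 : ℕ) : ℝ) ^ n ≤ (((M : ℝ) + 1) * (q : ℝ)) ^ n := by
    apply pow_le_pow_left₀ (by positivity)
    have : ((1 : ℕ) : ℝ) ≤ ((q : ℕ) : ℝ) := by exact_mod_cast hq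
    push_cast at this ⊢
    nlinarith
  have h1' : (a : ℝ) ≤ (p : ℝ) ^ (n + 1) * b + 2 * (N * p) * (((M : ℝ) + 1) * ((q : ℝ) * p)) ^ n := by
    have h : (a : ℝ) ≤ ((p ^ (n + 1) * b + 2 * (N * p) * (M * (q * p) + 1) ^ n : ℕ) : ℝ) := by
      exact_mod_cast h1
    refine h.trans ?_
    rw [Nat.cast_add, Nat.cast_mul, Nat.cast_mul, Nat.cast_pow, Nat.cast_pow]
    have h3 : ((2 * (N * p) : ℕ) : ℝ) = 2 * ((N : ℝ) * p) := by push_cast; ring
    rw [h3]
    have h4 : (0 : ℝ) ≤ 2 * ((N : ℝ) * p) := by positivity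
    have := mul_le_mul_of_nonneg_left e1 h4
    linarith
  have h2' : (p : ℝ) ^ (n + 1) * b ≤ a + (p : ℝ) ^ (n + 1) * (2 * N * (((M : ℝ) + 1) * q) ^ n) := by
    have h : ((p ^ (n + 1) * b : ℕ) : ℝ) ≤
        ((a + p ^ (n + 1) * (2 * N * (M * q + 1) ^ n) : ℕ) : ℝ) := by
      exact_mod_cast h2
    rw [Nat.cast_add, Nat.cast_mul, Nat.cast_mul, Nat.cast_mul, Nat.cast_pow, Nat.cast_pow] at h
    have h3 : ((2 * N : ℕ) : ℝ) = 2 * (N : ℝ) := by push_cast; ring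
    rw [h3] at h
    refine h.trans ?_
    have h4 : (0 : ℝ) ≤ (p : ℝ) ^ (n + 1) * (2 * N) := by positivity
    have := mul_le_mul_of_nonneg_left e2 h4
    nlinarith
  have hqn : (0 : ℝ) < (q : ℝ) ^ (n + 1) := by positivity
  have hpn : (0 : ℝ) < (p : ℝ) ^ (n + 1) := by positivity
  rw [abs_le]
  constructor
  · -- lower bound
    have hb : (b : ℝ) / (q : ℝ) ^ (n + 1) =
        ((p : ℝ) ^ (n + 1) * b) / ((q : ℝ) * p) ^ (n + 1) := by
      rw [mul_pow]; field_simp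
    have hc : (2 * N * ((M : ℝ) + 1) ^ n : ℝ) / (q : ℝ) =
        ((p : ℝ) ^ (n + 1) * (2 * N * (((M : ℝ) + 1) * q) ^ n)) / ((q : ℝ) * p) ^ (n + 1) := by
      rw [mul_pow, mul_pow, pow_succ (q : ℝ) n]; field_simp
    rw [hb, hc, neg_le_sub_iff_le_add, ← add_div]
    apply div_le_div_of_nonneg_right _ (by positivity)
    linarith
  · have hb : (b : ℝ) / (q : ℝ) ^ (n + 1) =
        ((p : ℝ) ^ (n + 1) * b) / ((q : ℝ) * p) ^ (n + 1) := by
      rw [mul_pow]; field_simp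
    have hc : (2 * N * ((M : ℝ) + 1) ^ n : ℝ) / (q : ℝ) =
        (2 * (N * p) * (((M : ℝ) + 1) * ((q : ℝ) * p)) ^ n) / ((q : ℝ) * p) ^ (n + 1) := by
      rw [mul_pow, pow_succ ((q : ℝ) * p) n]; field_simp
    rw [hb, hc, sub_le_iff_le_add, ← add_div]
    apply div_le_div_of_nonneg_right _ (by positivity)
    linarith

theorem hk_step {K R ι : Type*} [Field K] [CommRing R] [Algebra K R] [Fintype ι]
    [DecidableEq ι] (p : ℕ) [Fact p.Prime] [CharP K p] (hK : ∀ c : K, ∃ c' : K, c' ^ p = c) {M : ℕ}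
    {j : R →ₐ[K] MvPolynomial ι K} {x : Fin M → R} {s : R} {Z : Finset ι} (h : IsChart j x s Z)
    (ε : R →ₐ[K] K) (hε : ∀ i, ε (x i) = 0) (e : ℕ) :
    |(hk (ε : R →+* K) (p ^ (e + 1)) : ℝ) / ((p : ℝ) ^ (e + 1)) ^ Fintype.card ι -
      (hk (ε : R →+* K) (p ^ e) : ℝ) / ((p : ℝ) ^ e) ^ Fintype.card ι| ≤
      (2 * (2 * M + Fintype.card ι) * (M + 1) ^ (Fintype.card ι - 1) : ℕ) / (p : ℝ) ^ e := by
  classical
  have hpp : p.Prime := Fact.out
  have hp1 : 1 ≤ p := hpp.one_lt.le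
  have hq1 : 1 ≤ p ^ e := Nat.pos_of_ne_zero (pow_ne_zero _ hpp.ne_zero)
  have hQ1 : 1 ≤ p ^ (e + 1) := Nat.pos_of_ne_zero (pow_ne_zero _ hpp.ne_zero)
  have hd : 1 ≤ Fintype.card ι := by
    obtain ⟨z, _⟩ := h.Z_ne
    exact Fintype.card_pos_iff.2 ⟨z⟩
  obtain ⟨n, hn⟩ : ∃ n, Fintype.card ι = n + 1 := ⟨Fintype.card ι - 1, by omega⟩
  obtain ⟨κ, y, hκ, hky, hsum⟩ := exists_kappa p hK h
  have hcard : Fintype.card (ι → Fin p) = p ^ Fintype.card ι := by
    rw [Fintype.card_fun, Fintype.card_fin]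
  have hcp : (s ^ (2 * M + Fintype.card ι)) ^ p = s ^ ((2 * M + Fintype.card ι) * p) := by
    rw [← pow_mul]
  have H1 := hk_le (P := ι → Fin p) p ε e
    (2 * ((2 * M + Fintype.card ι) * p) * (M * p ^ (e + 1) + 1) ^ (Fintype.card ι - 1))
    ((M * p ^ e + 1) ^ Fintype.card ι)
    y (s ^ (2 * M + Fintype.card ι)) (fun u => ⟨fun α => κ α u, hsum u⟩)
    (by rw [hcp]; exact spanMod_s h ε hε ((2 * M + Fintype.card ι) * p) (p ^ (e + 1)) hQ1)
    (spanMod_frob h ε hε (p ^ e) hq1)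
  have H2 := mul_hk_le (P := ι → Fin p) p hK ε e
    (2 * (2 * M + Fintype.card ι) * (M * p ^ e + 1) ^ (Fintype.card ι - 1))
    ((M * p ^ e + 1) ^ Fintype.card ι) ((M * p ^ (e + 1) + 1) ^ Fintype.card ι)
    y (s ^ (2 * M + Fintype.card ι)) κ hκ (fun r α β => by rw [hky r α β])
    (spanMod_s h ε hε (2 * M + Fintype.card ι) (p ^ e) hq1)
    (spanMod_frob h ε hε (p ^ e) hq1) (spanMod_frob h ε hε (p ^ (e + 1)) hQ1)
  rw [hcard] at H1 H2
  rw [hn] at H1 H2 ⊢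
  rw [Nat.add_sub_cancel] at H1 H2 ⊢
  rw [pow_succ p e] at H1 H2
  have H := hku_num_step p (p ^ e) M (2 * M + (n + 1)) (hk (ε : R →+* K) (p ^ e * p))
    (hk (ε : R →+* K) (p ^ e)) n hp1 hq1 H1 H2
  rw [Nat.cast_pow p e] at H
  rw [pow_succ (p : ℝ) e, pow_succ p e]
  refine H.trans (le_of_eq ?_)
  push_cast
  ring

theorem hk_bdd {K R ι : Type*} [Field K] [CommRing R] [Algebra K R] [Fintype ι]
    [DecidableEq ι] {M : ℕ}
    {j : R →ₐ[K] MvPolynomial ι K} {x : Fin M → R} {s : R} {Z : Finset ι} (h : IsChart j x s Z)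
    (ε : R →ₐ[K] K) (hε : ∀ i, ε (x i) = 0) (Q : ℕ) (hQ : 1 ≤ Q) :
    hk (ε : R →+* K) Q ≤ (M * Q + 1) ^ Fintype.card ι :=
  (finrank_le_of_spanMod (spanMod_frob h ε hε Q hQ)).2

private theorem hku_ker {K R : Type*} [Field K] [CommRing R] [Algebra K R] {M : ℕ} (x : Fin M → R)
    (hx : Algebra.adjoin K (Set.range x) = ⊤) (ε : R →ₐ[K] K) (hε : ∀ i, ε (x i) = 0) (y : R)
    (hy : ε y = 0) : y ∈ Ideal.span (Set.range x) := by
  have h1 : ∀ z ∈ Algebra.adjoin K (Set.range x), ∃ c : K,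
      z - algebraMap K R c ∈ Ideal.span (Set.range x) := by
    intro z hz
    induction hz using Algebra.adjoin_induction with
    | mem z hz =>
      refine ⟨0, ?_⟩
      rw [map_zero, sub_zero]
      exact Ideal.subset_span hz
    | algebraMap r =>
      refine ⟨r, ?_⟩
      rw [sub_self]
      exact Ideal.zero_mem _
    | add a b _ _ ha hb =>
      obtain ⟨c, hc⟩ := ha
      obtain ⟨d, hd⟩ := hb
      refine ⟨c + d, ?_⟩
      rw [map_add]
      have : a + b - (algebraMap K R c + algebraMap K R d) =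
        (a - algebraMap K R c) + (b - algebraMap K R d) := by ring
      rw [this]
      exact Ideal.add_mem _ hc hd
    | mul a b _ _ ha hb =>
      obtain ⟨c, hc⟩ := ha
      obtain ⟨d, hd⟩ := hb
      refine ⟨c * d, ?_⟩
      rw [map_mul]
      have : a * b - (algebraMap K R c * algebraMap K R d) =
        b * (a - algebraMap K R c) + algebraMap K R c * (b - algebraMap K R d) := by ring
      rw [this]
      exact Ideal.add_mem _ (Ideal.mul_mem_left _ _ hc) (Ideal.mul_mem_left _ _ hd)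
  obtain ⟨c, hc⟩ := h1 y (by rw [hx]; exact Algebra.mem_top)
  have h2 : Ideal.span (Set.range x) ≤ RingHom.ker (ε : R →+* K) := by
    rw [Ideal.span_le]
    rintro _ ⟨i, rfl⟩
    exact hε i
  have h3 : ε (y - algebraMap K R c) = 0 := h2 hc
  rw [map_sub, hy, AlgHom.commutes, zero_sub, neg_eq_zero] at h3
  have h4 : c = 0 := h3
  rw [h4, map_zero, sub_zero] at hc
  exact hc

theorem frobPow_eq {K R : Type*} [Field K] [CommRing R] [Algebra K R] (p : ℕ) [Fact p.Prime]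
    [CharP K p] {M : ℕ} (x : Fin M → R) (hx : Algebra.adjoin K (Set.range x) = ⊤)
    (ε : R →ₐ[K] K) (hε : ∀ i, ε (x i) = 0) (e : ℕ) :
    frobPow (ε : R →+* K) (p ^ e) = Ideal.span (Set.range fun i => x i ^ (p ^ e)) := by
  have hnt : Nontrivial R := by
    refine ⟨⟨0, 1, fun h => ?_⟩⟩
    have := congrArg ε h
    rw [map_zero, map_one] at this
    exact zero_ne_one this
  have hch : CharP R p := charP_of_injective_algebraMap (algebraMap K R).injective p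
  apply le_antisymm
  · unfold frobPow
    rw [Ideal.span_le]
    rintro _ ⟨y, hy, rfl⟩
    have h1 := hku_ker x hx ε hε y hy
    rw [Ideal.mem_span_range_iff_exists_fun] at h1
    obtain ⟨c, hc⟩ := h1
    rw [← hc, SetLike.mem_coe, sum_pow_char_pow]
    refine Ideal.sum_mem _ fun i _ => ?_
    rw [mul_pow]
    exact Ideal.mul_mem_left _ _ (Ideal.subset_span ⟨i, rfl⟩)
  · rw [Ideal.span_le]
    rintro _ ⟨i, rfl⟩
    exact Ideal.subset_span ⟨x i, hε i, rfl⟩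

end Pool.FSig
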