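import Pool.Agent.Lib.FSig.OpsGr0

/-!
# MP_05de8f_ag : grading, second part: `E^(k)`, `F^(k)` (module OpsGr)

PROOFS.
* `E_mem_S`: by `S_induction` it is enough to treat `f = monomial μ c`; prove for all `μ` (with `(d, w)` = the degree and weight of `μ`) by
  induction on the monomial (`monomial (μ + single x 1) = monomial μ * X x`), using `E_mul` (each term of the antidiagonal sum is in `S (d+e) (w+2i + z+2j)`) and
  the values on generators `E_va`, `E_vb`, `E_one_vb`. (Or: `Et f` has all coefficients `coeff k ∈ S d (w+2k)`: the set of pairs is closed under products.)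
* `S_eq_bot`: a monomial of `S d w` has `#a + #b = |d|`, `#a - #b = w`, so `|w| ≤ |d|` (`mem_S_iff`; `wtm μ` against `d.degree`).
* `E_eq_zero`: `E k f ∈ S d (w+2k) = ⊥`.
* components: both sides are linear in `f`: check on monomials, or write `f` as a finite sum of its components (`exists_sum_component`) and use
  `weightedHomogeneousComponent_of_mem`.
* `component_mem_Inv`: `mem_Inv_iff` and `E_component`, `F_component`.
-/

namespace FSig

open MvPolynomial Finset

variable {V : Type*} (K : Type*) [CommRing K]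

private lemma OpsGr_C_mem (c : K) : (C c : T V K) ∈ S K 0 0 := by
  have h := (S (V := V) K 0 0).smul_mem c (one_mem_S K)
  rwa [MvPolynomial.smul_eq_C_mul, mul_one] at h

private lemma OpsGr_gen (D : ℕ → T V K →ₗ[K] T V K) (s : ℤ)
    (hmul : ∀ k f g, D k (f * g) = ∑ ij ∈ antidiagonal k, D ij.1 f * D ij.2 g)
    (hC : ∀ (c : K) (k : ℕ), D k (C c) ∈ S K 0 (0 + s * (k : ℤ)))
    (ha : ∀ (v : V) (k : ℕ), D k (va K v) ∈ S K (Finsupp.single v 1) (1 + s * (k : ℤ)))
    (hb : ∀ (v : V) (k : ℕ), D k (vb K v) ∈ S K (Finsupp.single v 1) (-1 + s * (k : ℤ)))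
    {d : V →₀ ℕ} {w : ℤ} {f : T V K} (hf : f ∈ S K d w) (k : ℕ) :
    D k f ∈ S K d (w + s * k) := by
  classical
  have key : ∀ (μ : V × Bool →₀ ℕ) (c : K), ∃ (d : V →₀ ℕ) (w : ℤ),
      (monomial μ c : T V K) ∈ S K d w ∧
        ∀ k : ℕ, D k (monomial μ c) ∈ S K d (w + s * (k : ℤ)) := by
    intro μ c
    refine MvPolynomial.induction_on_monomial
      (motive := fun p : T V K => ∃ (d : V →₀ ℕ) (w : ℤ),
        p ∈ S K d w ∧ ∀ k : ℕ, D k p ∈ S K d (w + s * (k : ℤ))) ?_ ?_ μ c
    · intro a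
      exact ⟨0, 0, OpsGr_C_mem K a, fun k => hC a k⟩
    · rintro p ⟨v, b⟩ ⟨d, w, h1, h2⟩
      have hx : ∃ z : ℤ, (X (v, b) : T V K) ∈ S K (Finsupp.single v 1) z ∧
          ∀ k : ℕ, D k (X (v, b)) ∈ S K (Finsupp.single v 1) (z + s * (k : ℤ)) := by
        cases b with
        | false => exact ⟨1, va_mem_S K v, fun k => ha v k⟩
        | true => exact ⟨-1, vb_mem_S K v, fun k => hb v k⟩
      obtain ⟨z, h3, h4⟩ := hx
      refine ⟨d + Finsupp.single v 1, w + z, mul_mem_S K h1 h3, fun k => ?_⟩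
      rw [hmul]
      refine Submodule.sum_mem _ fun ij hij => ?_
      rw [Finset.HasAntidiagonal.mem_antidiagonal] at hij
      have h5 := mul_mem_S K (h2 ij.1) (h4 ij.2)
      have e : w + s * (ij.1 : ℤ) + (z + s * (ij.2 : ℤ)) = w + z + s * (k : ℤ) := by
        rw [← hij]
        push_cast
        ring
      rwa [e] at h5
  refine S_induction K (fun f => D k f ∈ S K d (w + s * k)) ?_ ?_ ?_ hf
  · show D k 0 ∈ _
    rw [map_zero]
    exact Submodule.zero_mem _
  · intro f g h1 h2
    show D k (f + g) ∈ _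
    rw [map_add]
    exact Submodule.add_mem _ h1 h2
  · intro μ c h1 h2
    show D k (monomial μ c) ∈ _
    by_cases hc : c = 0
    · rw [hc, map_zero, map_zero]
      exact Submodule.zero_mem _
    obtain ⟨d', w', h3, h4⟩ := key μ c
    have h5 := (mem_S_iff K).1 h3 μ (by rwa [coeff_monomial, if_pos rfl])
    have e1 : d' = d := by
      ext v
      rw [← h1 v, ← h5.1 v]
    have e2 : w' = w := by rw [← h2, ← h5.2]
    subst e1
    subst e2
    exact h4 k

lemma E_mem_S {d : V →₀ ℕ} {w : ℤ} {f : T V K} (hf : f ∈ S K d w) (k : ℕ) :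
    E K k f ∈ S K d (w + 2 * k) := by
  refine OpsGr_gen K (E K) 2 (fun k f g => E_mul K k f g) ?_ ?_ ?_ hf k
  · intro c k
    rcases Nat.eq_zero_or_pos k with rfl | hk
    · rw [E_zero]
      simpa using OpsGr_C_mem K c
    · rw [E_C K k hk c]
      exact Submodule.zero_mem _
  · intro v k
    rcases Nat.eq_zero_or_pos k with rfl | hk
    · rw [E_zero]
      simpa using va_mem_S K v
    · rw [E_va K k hk v]
      exact Submodule.zero_mem _
  · intro v k
    rcases Nat.eq_zero_or_pos k with rfl | hk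
    · rw [E_zero]
      simpa using vb_mem_S K v
    · rcases Nat.lt_or_ge 1 k with h1 | h1
      · rw [E_vb K k h1 v]
        exact Submodule.zero_mem _
      · have e : k = 1 := by omega
        subst e
        rw [E_one_vb]
        have h2 := va_mem_S K v
        simpa using h2
lemma F_mem_S {d : V →₀ ℕ} {w : ℤ} {f : T V K} (hf : f ∈ S K d w) (k : ℕ) :
    F K k f ∈ S K d (w - 2 * k) := by
  have e : w - 2 * (k : ℤ) = w + (-2) * (k : ℤ) := by ring
  rw [e]
  refine OpsGr_gen K (F K) (-2) (fun k f g => F_mul K k f g) ?_ ?_ ?_ hf k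
  · intro c k
    rcases Nat.eq_zero_or_pos k with rfl | hk
    · rw [F_zero]
      simpa using OpsGr_C_mem K c
    · rw [F_C K k hk c]
      exact Submodule.zero_mem _
  · intro v k
    rcases Nat.eq_zero_or_pos k with rfl | hk
    · rw [F_zero]
      simpa using va_mem_S K v
    · rcases Nat.lt_or_ge 1 k with h1 | h1
      · rw [F_va K k h1 v]
        exact Submodule.zero_mem _
      · have e : k = 1 := by omega
        subst e
        rw [F_one_va]
        have h2 := vb_mem_S K v
        simpa using h2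
  · intro v k
    rcases Nat.eq_zero_or_pos k with rfl | hk
    · rw [F_zero]
      simpa using vb_mem_S K v
    · rw [F_vb K k hk v]
      exact Submodule.zero_mem _

lemma S_eq_bot {d : V →₀ ℕ} {w : ℤ} (h : (d.degree : ℤ) < |w|) : S K d w = ⊥ := by
  classical
  have key : ∀ (μ : V × Bool →₀ ℕ) (c : K), ∃ (d : V →₀ ℕ) (w : ℤ),
      (monomial μ c : T V K) ∈ S K d w ∧ |w| ≤ (d.degree : ℤ) := by
    intro μ c
    refine MvPolynomial.induction_on_monomial
      (motive := fun p : T V K => ∃ (d : V →₀ ℕ) (w : ℤ),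
        p ∈ S K d w ∧ |w| ≤ (d.degree : ℤ)) ?_ ?_ μ c
    · intro a
      exact ⟨0, 0, OpsGr_C_mem K a, by simp⟩
    · rintro p ⟨v, b⟩ ⟨d, w, h1, h2⟩
      have hx : ∃ z : ℤ, (X (v, b) : T V K) ∈ S K (Finsupp.single v 1) z ∧ |z| ≤ 1 := by
        cases b with
        | false => exact ⟨1, va_mem_S K v, by simp⟩
        | true => exact ⟨-1, vb_mem_S K v, by simp⟩
      obtain ⟨z, h3, h4⟩ := hx
      refine ⟨d + Finsupp.single v 1, w + z, mul_mem_S K h1 h3, ?_⟩
      have h5 : (d + Finsupp.single v 1).degree = d.degree + 1 := by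
        rw [map_add, Finsupp.degree_single]
      rw [h5]
      push_cast
      exact (abs_add_le w z).trans (add_le_add h2 h4)
  rw [eq_bot_iff]
  intro f hf
  rw [Submodule.mem_bot]
  by_contra hne
  obtain ⟨μ, hμ⟩ := MvPolynomial.ne_zero_iff.1 hne
  have h1 := (mem_S_iff K).1 hf μ hμ
  obtain ⟨d', w', h3, h4⟩ := key μ (coeff μ f)
  have h5 := (mem_S_iff K).1 h3 μ (by rwa [coeff_monomial, if_pos rfl])
  have e1 : d' = d := by
    ext v
    rw [← h1.1 v, ← h5.1 v]
  have e2 : w' = w := by rw [← h1.2, ← h5.2]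
  subst e1
  subst e2
  omega

lemma E_eq_zero {d : V →₀ ℕ} {w : ℤ} {f : T V K} (hf : f ∈ S K d w) {k : ℕ}
    (h : (d.degree : ℤ) < w + 2 * k) : E K k f = 0 := by
  have h1 := E_mem_S K hf k
  rw [S_eq_bot K (lt_of_lt_of_le h (le_abs_self _))] at h1
  exact (Submodule.mem_bot K).1 h1
lemma F_eq_zero {d : V →₀ ℕ} {w : ℤ} {f : T V K} (hf : f ∈ S K d w) {k : ℕ}
    (h : w - 2 * k < -(d.degree : ℤ)) : F K k f = 0 := by
  have h1 := F_mem_S K hf k
  have h2 : (d.degree : ℤ) < |w - 2 * k| := by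
    have h3 := neg_le_abs (w - 2 * (k : ℤ))
    omega
  rw [S_eq_bot K h2] at h1
  exact (Submodule.mem_bot K).1 h1

/-- `E^(k)` and homogeneous components -/
lemma E_component (k : ℕ) (d : V →₀ ℕ) (w : ℤ) (f : T V K) :
    weightedHomogeneousComponent (gr (V := V)) (d, w + 2 * (k : ℤ)) (E K k f)
      = E K k (weightedHomogeneousComponent (gr (V := V)) (d, w) f) := by
  classical
  obtain ⟨s, hs⟩ := exists_sum_component K f
  conv_lhs => rw [hs]
  conv_rhs => rw [hs]
  rw [map_sum, map_sum, map_sum, map_sum]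
  refine Finset.sum_congr rfl fun i _ => ?_
  obtain ⟨d', w'⟩ := i
  have h1 := component_mem K f d' w'
  have h2 := E_mem_S K h1 k
  have h3 := weightedHomogeneousComponent_of_mem (m := (d, w + 2 * (k : ℤ))) h2
  have h4 := weightedHomogeneousComponent_of_mem (m := (d, w)) h1
  rw [h3, h4]
  by_cases h : (d, w) = (d', w')
  · rw [if_pos h, if_pos]
    rw [Prod.mk.injEq] at h ⊢
    exact ⟨h.1, by rw [h.2]⟩
  · rw [if_neg h, if_neg, map_zero]
    intro h5
    rw [Prod.mk.injEq] at h h5
    exact h ⟨h5.1, by omega⟩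
lemma F_component (k : ℕ) (d : V →₀ ℕ) (w : ℤ) (f : T V K) :
    weightedHomogeneousComponent (gr (V := V)) (d, w - 2 * (k : ℤ)) (F K k f)
      = F K k (weightedHomogeneousComponent (gr (V := V)) (d, w) f) := by
  classical
  obtain ⟨s, hs⟩ := exists_sum_component K f
  conv_lhs => rw [hs]
  conv_rhs => rw [hs]
  rw [map_sum, map_sum, map_sum, map_sum]
  refine Finset.sum_congr rfl fun i _ => ?_
  obtain ⟨d', w'⟩ := i
  have h1 := component_mem K f d' w'
  have h2 := F_mem_S K h1 k
  have h3 := weightedHomogeneousComponent_of_mem (m := (d, w - 2 * (k : ℤ))) h2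
  have h4 := weightedHomogeneousComponent_of_mem (m := (d, w)) h1
  rw [h3, h4]
  by_cases h : (d, w) = (d', w')
  · rw [if_pos h, if_pos]
    rw [Prod.mk.injEq] at h ⊢
    exact ⟨h.1, by rw [h.2]⟩
  · rw [if_neg h, if_neg, map_zero]
    intro h5
    rw [Prod.mk.injEq] at h h5
    exact h ⟨h5.1, by omega⟩

lemma br_mem_S (v w : V) : br K v w ∈ S K (Finsupp.single v 1 + Finsupp.single w 1) 0 := by
  unfold br
  refine Submodule.sub_mem _ ?_ ?_
  · have h := mul_mem_S K (va_mem_S K v) (vb_mem_S K w)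
    simpa using h
  · have h := mul_mem_S K (vb_mem_S K v) (va_mem_S K w)
    simpa using h

/-- homogeneous components of invariants are invariants -/
lemma component_mem_Inv {f : T V K} (hf : f ∈ Inv (V := V) K) (d : V →₀ ℕ) (w : ℤ) :
    weightedHomogeneousComponent (gr (V := V)) (d, w) f ∈ Inv (V := V) K := by
  rw [mem_Inv_iff] at hf ⊢
  intro k hk
  refine ⟨?_, ?_⟩
  · rw [← E_component, (hf k hk).1, map_zero]
  · rw [← F_component, (hf k hk).2, map_zero]

lemma Lam_mem_S (p : ℕ) {d : V →₀ ℕ} {w : ℤ} {f : T V K} (hf : f ∈ S K d w) :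
    Lam K p f ∈ S K d w := by
  have h := F_mem_S K (E_mem_S K hf (p - 1)) (p - 1)
  rw [add_sub_cancel_right] at h
  exact h

end FSig
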