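import Pool.Agent.Lib.FSig.CDefs

/-!
# Rec1: weight sums over `q ≤ d` for `d : V →₀ ℕ`, splitting off one vector

`swS g d = ∑_{q ≤ d} g (|d| - 2|q|)`. `invN_swS`, `fus_swS`: write the cardinalities as sums of `if`-expressions (`Finset.card_filter`, `push_cast`, `Finset.sum_sub_distrib`).
`swS_split`: `q ↦ (q v, q.erase v)` is a bijection from `Icc 0 d` to `range (d v + 1) × Icc 0 (d.erase v)`, inverse `(x, q') ↦ q' + single v x` (`q' v = 0` as `q' ≤ d.erase v`); `Finsupp.single_add_erase : single v (q v) + q.erase v = q`, `degree` is additive, `degree (single v x) = x` (`Finsupp.degree_single`).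
(All inequalities pointwise: `Finsupp.le_def`, `Finsupp.erase_same`, `Finsupp.erase_ne`.) `Finset.sum_sigma'`, `Finset.sum_bij'`.
`swS_congr`, `swS_sub`, `swS_zero`, `swS_sum`: immediate.
-/

namespace FSig

open Finset

variable {V : Type*}

/-- sum over `q ≤ d` of a function of the weight -/
noncomputable def swS (g : ℤ → ℤ) (d : V →₀ ℕ) : ℤ := by
  classical
  exact ∑ q ∈ Icc (0 : V →₀ ℕ) d, g ((d.degree : ℤ) - 2 * (q.degree : ℤ))

/-- `[j = 0] - [j = 2]` -/
def hI (j : ℤ) : ℤ := (if j = 0 then 1 else 0) - (if j = 2 then 1 else 0)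

/-- `[2p ∣ j] - [2p ∣ j - 2]` -/
def hF (p : ℕ) (j : ℤ) : ℤ :=
  (if (2 * p : ℤ) ∣ j then 1 else 0) - (if (2 * p : ℤ) ∣ j - 2 then 1 else 0)

theorem wm_swS (d : V →₀ ℕ) (w : ℤ) : wm d w = swS (fun j => if j = w then 1 else 0) d := by
  classical
  unfold wm swS
  rw [Finset.card_filter]
  push_cast
  rfl

theorem invN_swS (d : V →₀ ℕ) : invN d = swS hI d := by
  classical
  unfold invN
  rw [wm_swS, wm_swS]
  unfold swS
  rw [← Finset.sum_sub_distrib]
  rfl

theorem fus_swS (p : ℕ) (d : V →₀ ℕ) : fus p d = swS (hF p) d := by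
  classical
  unfold fus swS
  rw [Finset.card_filter, Finset.card_filter]
  push_cast
  rw [← Finset.sum_sub_distrib]
  rfl

theorem swS_sum {ι : Type*} (A : Finset ι) (g : ι → ℤ → ℤ) (d : V →₀ ℕ) :
    swS (fun j => ∑ x ∈ A, g x j) d = ∑ x ∈ A, swS (g x) d := by
  classical
  unfold swS
  rw [Finset.sum_comm]

theorem swS_add (g h : ℤ → ℤ) (d : V →₀ ℕ) :
    swS (fun j => g j + h j) d = swS g d + swS h d := by
  classical
  unfold swS
  rw [Finset.sum_add_distrib]

theorem swS_zero_deg (g : ℤ → ℤ) : swS g (0 : V →₀ ℕ) = g 0 := by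
  classical
  unfold swS
  rw [Finset.Icc_self, Finset.sum_singleton, map_zero]
  simp

private theorem rec1_degree (d : V →₀ ℕ) (v : V) :
    (d.degree : ℤ) = ((d.erase v).degree : ℤ) + (d v : ℤ) := by
  have h1 : d.degree = (d.erase v).degree + d v := by
    conv_lhs => rw [← Finsupp.erase_add_single v d]
    rw [map_add, Finsupp.degree_single]
  exact_mod_cast h1

theorem swS_split (g : ℤ → ℤ) (d : V →₀ ℕ) (v : V) :
    swS g d = ∑ x ∈ range (d v + 1),
      swS (fun j => g (j + ((d v : ℤ) - 2 * (x : ℤ)))) (d.erase v) := by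
  classical
  unfold swS
  rw [Finset.sum_sigma']
  refine Finset.sum_bij' (fun q _ => (⟨q v, q.erase v⟩ : (_ : ℕ) × (V →₀ ℕ)))
    (fun y _ => y.2 + Finsupp.single v y.1) ?_ ?_ ?_ ?_ ?_
  · intro q hq
    have hq2 : q ≤ d := (Finset.mem_Icc.1 hq).2
    rw [Finset.mem_sigma]
    refine ⟨Finset.mem_range.2 (Nat.lt_succ_of_le (hq2 v)), Finset.mem_Icc.2 ⟨zero_le, ?_⟩⟩
    intro w
    by_cases hw : w = v
    · rw [hw, Finsupp.erase_same, Finsupp.erase_same]
    · rw [Finsupp.erase_ne hw, Finsupp.erase_ne hw]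
      exact hq2 w
  · intro y hy
    rw [Finset.mem_sigma] at hy
    obtain ⟨h1, h2⟩ := hy
    have h3 : y.1 ≤ d v := Nat.lt_succ_iff.1 (Finset.mem_range.1 h1)
    have h4 : y.2 ≤ d.erase v := (Finset.mem_Icc.1 h2).2
    refine Finset.mem_Icc.2 ⟨zero_le, ?_⟩
    intro w
    rw [Finsupp.add_apply]
    by_cases hw : w = v
    · subst hw
      have h5 := h4 w
      rw [Finsupp.erase_same] at h5
      rw [Finsupp.single_eq_same]
      omega
    · have h5 := h4 w
      rw [Finsupp.erase_ne hw] at h5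
      rw [Finsupp.single_eq_of_ne hw, add_zero]
      exact h5
  · intro q _
    exact Finsupp.erase_add_single v q
  · rintro ⟨x, q⟩ hy
    rw [Finset.mem_sigma] at hy
    have h4 : q ≤ d.erase v := (Finset.mem_Icc.1 hy.2).2
    have h5 := h4 v
    rw [Finsupp.erase_same] at h5
    have h6 : q v = 0 := Nat.le_zero.1 h5
    have h7 : (q + Finsupp.single v x) v = x := by
      rw [Finsupp.add_apply, Finsupp.single_eq_same, h6, zero_add]
    have h8 : (q + Finsupp.single v x).erase v = q := by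
      ext w
      by_cases hw : w = v
      · rw [hw, Finsupp.erase_same, h6]
      · rw [Finsupp.erase_ne hw, Finsupp.add_apply, Finsupp.single_eq_of_ne hw, add_zero]
    show (⟨(q + Finsupp.single v x) v, (q + Finsupp.single v x).erase v⟩ :
      (_ : ℕ) × (V →₀ ℕ)) = ⟨x, q⟩
    rw [h7, h8]
  · intro q _
    rw [rec1_degree d v, rec1_degree q v]
    show g _ = g _
    congr 1
    ring

theorem wm_split (d : V →₀ ℕ) (v : V) (w : ℤ) :
    wm d w = ∑ x ∈ range (d v + 1), wm (d.erase v) (w - ((d v : ℤ) - 2 * (x : ℤ))) := by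
  rw [wm_swS, swS_split _ d v]
  refine Finset.sum_congr rfl fun x _ => ?_
  rw [wm_swS]
  congr 1
  funext j
  have h1 : (j + ((d v : ℤ) - 2 * (x : ℤ)) = w) = (j = w - ((d v : ℤ) - 2 * (x : ℤ))) :=
    propext eq_sub_iff_add_eq.symm
  simp only [h1]

end FSig
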