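import Pool.Agent.Lib.FSig.LamDefs
import Pool.Agent.Lib.FSig.Rec1
import Pool.Agent.Lib.FSig.OpsGr

/-!
# LamTr: transfer along an embedding `ι : V ↪ W`

`d.embDomain ι` (`Finsupp.embDomain`). Write `d' = d.embDomain ι`.
* `wm_emb`: `q ↦ q.embDomain ι` is a bijection from `Icc 0 d` to `Icc 0 d'` (an element `q' ≤ d'` has its support in the range of `ι`: `Finsupp.embDomain_of_notMem_range`, `q' = (q'.comapDomain ι _).embDomain ι`), and `degree (q.embDomain ι) = degree q` (`Finsupp.degree`, `Finsupp.sum_embDomain`, `Finsupp.support_embDomain`). So `wm d' w = wm d w`, `invN d' = invN d`, `fus p d' = fus p d` (or by `swS`).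
* `R = rename (Prod.map ι id) : T V K → T W K`, an injective algebra map (`rename_injective`), `R (a_v) = a_(ι v)`, `R (b_v) = b_(ι v)`. `R (E^(k) f) = E^(k) (R f)`: the algebra maps `Et ∘ R` and `(Polynomial.mapAlgHom R) ∘ Et` agree on the generators (`MvPolynomial.algHom_ext`); coefficients. The same for `F`, so `R (Lam f) = Lam (R f)`, and `R f ∈ Inv ↔ f ∈ Inv` (`R` injective; `Polynomial.map_injective`).
* `R` maps `S d w` onto `S d' w`: into: a monomial `μ` goes to `μ.mapDomain` (`rename_monomial`; `mem_S_iff`, `monomial_mem_S`), weights agree. Onto (`S_induction` for `S d' w`): a monomial `μ'` with `μ' (x, false) + μ' (x, true) = d' x` has support in the range of `Prod.map ι id`, so it is `μ.mapDomain` with `μ = μ'.comapDomain`, and `monomial μ c ∈ S d w`.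
* `lamN_emb`: `R` restricts to a linear equivalence `lamS d → lamS d'`: `(lamS K p d).map R = lamS K p d'`; `LinearEquiv.finrank_eq (Submodule.equivMapOfInjective ..)` or `LinearMap.finrank_map_eq'`/`Submodule.finrank_map_...`.
-/

namespace FSig

open MvPolynomial Finset

variable {V W : Type*}

private lemma emb_degree (ι : V ↪ W) (q : V →₀ ℕ) : (q.embDomain ι).degree = q.degree := by
  rw [Finsupp.degree_apply, Finsupp.degree_apply, Finsupp.support_embDomain, Finset.sum_map]
  simp

private lemma emb_notin (ι : V ↪ W) (q : V →₀ ℕ) {x : W} (hx : x ∉ Set.range ι) : q.embDomain ι x = 0 :=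
  Finsupp.embDomain_of_notMem_range ι q x hx

private lemma swS_emb (ι : V ↪ W) (g : ℤ → ℤ) (d : V →₀ ℕ) : swS g (d.embDomain ι) = swS g d := by
  classical
  unfold swS
  symm
  refine Finset.sum_bij (fun q _ => q.embDomain ι) ?_ ?_ ?_ ?_
  · intro q hq
    rw [Finset.mem_Icc] at hq ⊢
    refine ⟨bot_le, fun x => ?_⟩
    by_cases hx : x ∈ Set.range ι
    · obtain ⟨v, rfl⟩ := hx
      rw [Finsupp.embDomain_apply_self, Finsupp.embDomain_apply_self]
      exact hq.2 v
    · rw [emb_notin ι q hx]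
      exact Nat.zero_le _
  · intro q _ q' _ h
    exact Finsupp.embDomain_injective ι h
  · intro q' hq'
    rw [Finset.mem_Icc] at hq'
    have hsup : (q'.support : Set W) ⊆ Set.range ι := by
      intro x hx
      by_contra hxr
      have h1 : q' x ≠ 0 := Finsupp.mem_support_iff.1 (Finset.mem_coe.1 hx)
      have h2 := hq'.2 x
      rw [emb_notin ι d hxr] at h2
      omega
    refine ⟨q'.comapDomain ι ι.injective.injOn, ?_, Finsupp.embDomain_comapDomain hsup⟩
    rw [Finset.mem_Icc]
    refine ⟨bot_le, fun v => ?_⟩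
    have h2 := hq'.2 (ι v)
    rw [Finsupp.embDomain_apply_self] at h2
    exact h2
  · intro q _
    rw [emb_degree, emb_degree]

theorem wm_emb (ι : V ↪ W) (d : V →₀ ℕ) (w : ℤ) : wm (d.embDomain ι) w = wm d w := by
  rw [wm_swS, wm_swS, swS_emb]

theorem invN_emb (ι : V ↪ W) (d : V →₀ ℕ) : invN (d.embDomain ι) = invN d := by
  rw [invN_swS, invN_swS, swS_emb]

theorem fus_emb (ι : V ↪ W) (p : ℕ) (d : V →₀ ℕ) : fus p (d.embDomain ι) = fus p d := by
  rw [fus_swS, fus_swS, swS_emb]

private def prE (ι : V ↪ W) : V × Bool ↪ W × Bool := ι.prodMap (Function.Embedding.refl Bool)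

private lemma prE_apply (ι : V ↪ W) (v : V) (b : Bool) : prE ι (v, b) = (ι v, b) := rfl

private noncomputable def emR (ι : V ↪ W) (K : Type*) [CommRing K] : T V K →ₐ[K] T W K :=
  rename (prE ι)

private lemma emR_inj (ι : V ↪ W) (K : Type*) [CommRing K] : Function.Injective (emR ι K) :=
  rename_injective _ (prE ι).injective

private lemma emR_Et (ι : V ↪ W) (K : Type*) [CommRing K] (f : T V K) :
    Et K (emR ι K f) = (Et K f).map (emR ι K).toRingHom := by
  have h : (Et K).comp (emR ι K) = (Polynomial.mapAlgHom (emR ι K)).comp (Et K) := by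
    apply MvPolynomial.algHom_ext
    rintro ⟨v, b⟩
    cases b <;> simp [Et, emR, prE_apply]
  exact DFunLike.congr_fun h f

private lemma emR_Ft (ι : V ↪ W) (K : Type*) [CommRing K] (f : T V K) :
    Ft K (emR ι K f) = (Ft K f).map (emR ι K).toRingHom := by
  have h : (Ft K).comp (emR ι K) = (Polynomial.mapAlgHom (emR ι K)).comp (Ft K) := by
    apply MvPolynomial.algHom_ext
    rintro ⟨v, b⟩
    cases b <;> simp [Ft, emR, prE_apply]
  exact DFunLike.congr_fun h f

private lemma emR_E (ι : V ↪ W) (K : Type*) [CommRing K] (k : ℕ) (f : T V K) :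
    E K k (emR ι K f) = emR ι K (E K k f) := by
  rw [E_apply, emR_Et, Polynomial.coeff_map, E_apply]
  rfl

private lemma emR_F (ι : V ↪ W) (K : Type*) [CommRing K] (k : ℕ) (f : T V K) :
    F K k (emR ι K f) = emR ι K (F K k f) := by
  rw [F_apply, emR_Ft, Polynomial.coeff_map, F_apply]
  rfl

private lemma emR_Lam (ι : V ↪ W) (K : Type*) [CommRing K] (p : ℕ) (f : T V K) :
    Lam K p (emR ι K f) = emR ι K (Lam K p f) := by
  simp only [Lam, LinearMap.comp_apply]
  rw [emR_E, emR_F]

private lemma emR_Inv (ι : V ↪ W) (K : Type*) [CommRing K] (f : T V K) :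
    emR ι K f ∈ Inv (V := W) K ↔ f ∈ Inv (V := V) K := by
  rw [mem_Inv_iff, mem_Inv_iff]
  constructor
  · intro h k hk
    obtain ⟨h1, h2⟩ := h k hk
    rw [emR_E] at h1
    rw [emR_F] at h2
    exact ⟨emR_inj ι K (by rw [h1, map_zero]), emR_inj ι K (by rw [h2, map_zero])⟩
  · intro h k hk
    obtain ⟨h1, h2⟩ := h k hk
    rw [emR_E, emR_F, h1, h2, map_zero]
    exact ⟨rfl, rfl⟩

private lemma emR_monomial (ι : V ↪ W) (K : Type*) [CommRing K] (μ : V × Bool →₀ ℕ) (c : K) :
    emR ι K (monomial μ c) = monomial (μ.embDomain (prE ι)) c := by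
  rw [emR, rename_monomial, Finsupp.embDomain_eq_mapDomain]

private lemma prE_notin (ι : V ↪ W) {x : W} (hx : x ∉ Set.range ι) (b : Bool) : (x, b) ∉ Set.range (prE ι) := by
  rintro ⟨⟨v, c⟩, h⟩
  rw [prE_apply] at h
  exact hx ⟨v, congrArg Prod.fst h⟩

private lemma wtm_emb (ι : V ↪ W) (μ : V × Bool →₀ ℕ) : wtm (μ.embDomain (prE ι)) = wtm μ := by
  unfold wtm
  rw [Finsupp.sum_embDomain]
  rfl

private lemma emR_mem_S (ι : V ↪ W) (K : Type*) [CommRing K] {d : V →₀ ℕ} {w : ℤ} {f : T V K}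
    (hf : f ∈ S K d w) : emR ι K f ∈ S K (d.embDomain ι) w := by
  refine S_induction K (fun f => emR ι K f ∈ S K (d.embDomain ι) w) ?_ ?_ ?_ hf
  · rw [map_zero]
    exact zero_mem _
  · intro f g h1 h2
    rw [map_add]
    exact add_mem h1 h2
  · intro μ c h1 h2
    rw [emR_monomial]
    refine monomial_mem_S K c (fun x => ?_) (by rw [wtm_emb, h2])
    by_cases hx : x ∈ Set.range ι
    · obtain ⟨v, rfl⟩ := hx
      rw [← prE_apply, ← prE_apply, Finsupp.embDomain_apply_self, Finsupp.embDomain_apply_self,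
        Finsupp.embDomain_apply_self]
      exact h1 v
    · rw [Finsupp.embDomain_of_notMem_range _ _ _ (prE_notin ι hx false),
        Finsupp.embDomain_of_notMem_range _ _ _ (prE_notin ι hx true), emb_notin ι d hx, add_zero]

private lemma emR_onto (ι : V ↪ W) (K : Type*) [CommRing K] {d : V →₀ ℕ} {w : ℤ} {g : T W K}
    (hg : g ∈ S K (d.embDomain ι) w) : ∃ f ∈ S K d w, emR ι K f = g := by
  refine S_induction K (fun g => ∃ f ∈ S K d w, emR ι K f = g) ?_ ?_ ?_ hg
  · exact ⟨0, zero_mem _, map_zero _⟩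
  · rintro f g ⟨f', h1, rfl⟩ ⟨g', h2, rfl⟩
    exact ⟨f' + g', add_mem h1 h2, map_add _ _ _⟩
  · intro μ' c h1 h2
    have hsup : (μ'.support : Set (W × Bool)) ⊆ Set.range (prE ι) := by
      rintro ⟨x, b⟩ hx
      have h3 : μ' (x, b) ≠ 0 := Finsupp.mem_support_iff.1 (Finset.mem_coe.1 hx)
      by_cases hxr : x ∈ Set.range ι
      · obtain ⟨v, rfl⟩ := hxr
        exact ⟨(v, b), rfl⟩
      · exfalso
        have h4 := h1 x
        rw [emb_notin ι d hxr] at h4
        cases b
        · omega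
        · omega
    have hemb := Finsupp.embDomain_comapDomain (f := prE ι) hsup
    refine ⟨monomial (μ'.comapDomain (prE ι) (prE ι).injective.injOn) c, ?_, ?_⟩
    · refine monomial_mem_S K c (fun v => ?_) ?_
      · have h3 := h1 (ι v)
        rw [Finsupp.embDomain_apply_self] at h3
        exact h3
      · rw [← wtm_emb ι, hemb, h2]
    · rw [emR_monomial, hemb]

theorem lamN_emb (ι : V ↪ W) (K : Type*) [Field K] (p : ℕ) (d : V →₀ ℕ) :
    lamN K p (d.embDomain ι) = lamN K p d := by
  have h : (lamS K p d).map (emR ι K).toLinearMap = lamS K p (d.embDomain ι) := by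
    ext y
    simp only [lamS, Submodule.mem_map, Submodule.mem_inf, Subalgebra.mem_toSubmodule,
      AlgHom.toLinearMap_apply]
    constructor
    · rintro ⟨x, ⟨⟨u, hu, rfl⟩, hx⟩, rfl⟩
      exact ⟨⟨emR ι K u, emR_mem_S ι K hu, emR_Lam ι K p u⟩, (emR_Inv ι K _).2 hx⟩
    · rintro ⟨⟨u', hu', rfl⟩, hy⟩
      obtain ⟨u, hu, rfl⟩ := emR_onto ι K hu'
      rw [emR_Lam] at hy ⊢
      exact ⟨Lam K p u, ⟨⟨u, hu, rfl⟩, (emR_Inv ι K _).1 hy⟩, rfl⟩
  unfold lamN
  rw [← h]
  have := (Submodule.equivMapOfInjective (emR ι K).toLinearMap (emR_inj ι K) (lamS K p d)).finrank_eq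
  exact_mod_cast this.symm

end FSig
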