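import Pool.Agent.Lib.FSig.Rec1

/-!
# Rec2: recursion, edge and one vector

`swS_two`: `swS_split` at `j`, then at `i` (`(d.erase j) i = d i` as `i ≠ j`), `swS_sum`: `swS g d = swS (fun w => ∑_{x ≤ d i} ∑_{y ≤ d j} g (w + (d i - 2x) + (d j - 2y))) ((d.erase i).erase j)`.
`swS_rec`: `d' = d + single i 1 - single j 1` has `d' i = d i + 1`, `d' j = 0`, `d'' = d - single i 1 - single j 1` has `d'' i = d i - 1`, `d'' j = 0`, and all three agree with `d` off `i, j`, so `((·).erase i).erase j` is the same (`Finsupp.ext`, cases). With `k = d i ≥ 1`: for every `w`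
`∑_{x ≤ k} (g (w + k - 2x + 1) + g (w + k - 2x - 1)) = ∑_{x ≤ k+1} g (w + k + 1 - 2x) + ∑_{x ≤ k-1} g (w + k - 1 - 2x)`: the term `x = k + 1` of the first sum on the right is the term `x = k` of the second part on the left (`Finset.sum_range_succ`, `Finset.sum_add_distrib`, `push_cast`, `ring_nf`).
`fus_edge`: `swS_split` at `v`, `swS_sum`: the inner function `∑_{x < p} ([2p ∣ w + p-1-2x] - [2p ∣ w + p-1-2x-2])` telescopes (`Finset.sum_range_sub'`) to `[2p ∣ w + p - 1] - [2p ∣ w - p - 1] = 0` (difference `2p`).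
`inv_single`, `fus_single`: `swS_split` at `v`, `(single v k).erase v = 0`, `swS_zero_deg`: `∑_{x ≤ k} hI (k - 2x)` telescopes to `[k = 0] - [-k-2 = 0] = [k = 0]`; `∑_{x ≤ k} hF p (k - 2x) = [2p ∣ k] - [2p ∣ -k-2] = [k = 0]` for `k ≤ p - 2` (`0 < k + 2 ≤ p < 2p`).
-/

namespace FSig

open Finset

variable {V : Type*}

private theorem rec2_two (g : ℤ → ℤ) (d : V →₀ ℕ) {i j : V} (hij : i ≠ j) :
    swS g d = swS (fun w => ∑ y ∈ range (d j + 1), ∑ x ∈ range (d i + 1),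
      g (w + ((d i : ℤ) - 2 * (x : ℤ)) + ((d j : ℤ) - 2 * (y : ℤ)))) ((d.erase j).erase i) := by
  rw [swS_split g d j, swS_sum]
  refine Finset.sum_congr rfl fun y _ => ?_
  rw [swS_split _ (d.erase j) i, swS_sum, Finsupp.erase_ne hij]

private theorem rec2_er (d d' : V →₀ ℕ) {i j : V} (h : ∀ v, v ≠ i → v ≠ j → d' v = d v) :
    (d'.erase j).erase i = (d.erase j).erase i := by
  ext v
  by_cases hi : v = i
  · subst hi
    rw [Finsupp.erase_same, Finsupp.erase_same]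
  · rw [Finsupp.erase_ne hi, Finsupp.erase_ne hi]
    by_cases hj : v = j
    · subst hj
      rw [Finsupp.erase_same, Finsupp.erase_same]
    · rw [Finsupp.erase_ne hj, Finsupp.erase_ne hj]
      exact h v hi hj

private theorem rec2_sum (g : ℤ → ℤ) (n : ℕ) (w : ℤ) :
    ∑ x ∈ range (n + 1 + 1), (g (w + (n + 1 - 2 * (x : ℤ)) + 1) + g (w + (n + 1 - 2 * (x : ℤ)) - 1))
      = ∑ x ∈ range (n + 1 + 1 + 1), g (w + (n + 2 - 2 * (x : ℤ))) +
        ∑ x ∈ range (n + 1), g (w + (n - 2 * (x : ℤ))) := by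
  rw [Finset.sum_add_distrib, Finset.sum_range_succ (fun x : ℕ => g (w + (n + 2 - 2 * (x : ℤ)))),
    Finset.sum_range_succ (fun x : ℕ => g (w + (n + 1 - 2 * (x : ℤ)) - 1))]
  have h1 : ∀ x : ℕ, w + (n + 1 - 2 * (x : ℤ)) + 1 = w + (n + 2 - 2 * (x : ℤ)) := by
    intro x
    ring
  have h2 : ∀ x : ℕ, w + (n + 1 - 2 * (x : ℤ)) - 1 = w + (n - 2 * (x : ℤ)) := by
    intro x
    ring
  have h3 : w + (n + 2 - 2 * ((n + 1 + 1 : ℕ) : ℤ)) = w + (n - 2 * ((n + 1 : ℕ) : ℤ)) := by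
    push_cast
    ring
  simp only [h1, h2, h3]
  ring

theorem swS_rec (g : ℤ → ℤ) (d : V →₀ ℕ) {i j : V} (hij : i ≠ j) (hj : d j = 1) (hi : 1 ≤ d i) :
    swS g d = swS g (d + Finsupp.single i 1 - Finsupp.single j 1)
      + swS g (d - Finsupp.single i 1 - Finsupp.single j 1) := by
  obtain ⟨n, hn⟩ : ∃ n, d i = n + 1 := ⟨d i - 1, by omega⟩
  have hd1i : (d + Finsupp.single i 1 - Finsupp.single j 1 : V →₀ ℕ) i = n + 1 + 1 := by
    rw [Finsupp.tsub_apply, Finsupp.add_apply, Finsupp.single_eq_same,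
      Finsupp.single_eq_of_ne hij, hn]
    omega
  have hd1j : (d + Finsupp.single i 1 - Finsupp.single j 1 : V →₀ ℕ) j = 0 := by
    rw [Finsupp.tsub_apply, Finsupp.add_apply, Finsupp.single_eq_same,
      Finsupp.single_eq_of_ne hij.symm, hj]
    rfl
  have hd2i : (d - Finsupp.single i 1 - Finsupp.single j 1 : V →₀ ℕ) i = n := by
    rw [Finsupp.tsub_apply, Finsupp.tsub_apply, Finsupp.single_eq_same,
      Finsupp.single_eq_of_ne hij, hn]
    omega
  have hd2j : (d - Finsupp.single i 1 - Finsupp.single j 1 : V →₀ ℕ) j = 0 := by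
    rw [Finsupp.tsub_apply, Finsupp.tsub_apply, Finsupp.single_eq_same,
      Finsupp.single_eq_of_ne hij.symm, hj]
    rfl
  have he1 := rec2_er d (d + Finsupp.single i 1 - Finsupp.single j 1) (i := i) (j := j) (by
    intro v hvi hvj
    rw [Finsupp.tsub_apply, Finsupp.add_apply, Finsupp.single_eq_of_ne hvi,
      Finsupp.single_eq_of_ne hvj]
    rfl)
  have he2 := rec2_er d (d - Finsupp.single i 1 - Finsupp.single j 1) (i := i) (j := j) (by
    intro v hvi hvj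
    rw [Finsupp.tsub_apply, Finsupp.tsub_apply, Finsupp.single_eq_of_ne hvi,
      Finsupp.single_eq_of_ne hvj]
    rfl)
  rw [rec2_two g d hij, rec2_two g (d + Finsupp.single i 1 - Finsupp.single j 1) hij,
    rec2_two g (d - Finsupp.single i 1 - Finsupp.single j 1) hij, he1, he2, hd1i, hd1j, hd2i, hd2j,
    hj, hn, ← swS_add]
  congr 1
  funext w
  have key := rec2_sum g n w
  have e1 : ∑ y ∈ range (1 + 1), ∑ x ∈ range (n + 1 + 1),
      g (w + (((n + 1 : ℕ) : ℤ) - 2 * (x : ℤ)) + (((1 : ℕ) : ℤ) - 2 * (y : ℤ))) =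
      ∑ x ∈ range (n + 1 + 1), (g (w + (n + 1 - 2 * (x : ℤ)) + 1) +
        g (w + (n + 1 - 2 * (x : ℤ)) - 1)) := by
    rw [Finset.sum_range_succ, Finset.sum_range_one, ← Finset.sum_add_distrib]
    refine Finset.sum_congr rfl fun x _ => ?_
    have e4 : (w + (((n + 1 : ℕ) : ℤ) - 2 * (x : ℤ)) + (((1 : ℕ) : ℤ) - 2 * ((0 : ℕ) : ℤ))) =
        w + (n + 1 - 2 * (x : ℤ)) + 1 := by
      push_cast
      ring
    have e5 : (w + (((n + 1 : ℕ) : ℤ) - 2 * (x : ℤ)) + (((1 : ℕ) : ℤ) - 2 * ((1 : ℕ) : ℤ))) =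
        w + (n + 1 - 2 * (x : ℤ)) - 1 := by
      push_cast
      ring
    rw [e4, e5]
  have e2 : ∑ y ∈ range (0 + 1), ∑ x ∈ range (n + 1 + 1 + 1),
      g (w + (((n + 1 + 1 : ℕ) : ℤ) - 2 * (x : ℤ)) + (((0 : ℕ) : ℤ) - 2 * (y : ℤ))) =
      ∑ x ∈ range (n + 1 + 1 + 1), g (w + (n + 2 - 2 * (x : ℤ))) := by
    rw [zero_add, Finset.sum_range_one]
    refine Finset.sum_congr rfl fun x _ => ?_
    push_cast
    congr 1
    ring
  have e3 : ∑ y ∈ range (0 + 1), ∑ x ∈ range (n + 1),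
      g (w + ((n : ℤ) - 2 * (x : ℤ)) + (((0 : ℕ) : ℤ) - 2 * (y : ℤ))) =
      ∑ x ∈ range (n + 1), g (w + (n - 2 * (x : ℤ))) := by
    rw [zero_add, Finset.sum_range_one]
    refine Finset.sum_congr rfl fun x _ => ?_
    push_cast
    congr 1
    ring
  rw [e1, e2, e3]
  exact key

theorem invN_rec (d : V →₀ ℕ) {i j : V} (hij : i ≠ j) (hj : d j = 1) (hi : 1 ≤ d i) :
    invN d = invN (d + Finsupp.single i 1 - Finsupp.single j 1)
      + invN (d - Finsupp.single i 1 - Finsupp.single j 1) := by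
  rw [invN_swS, invN_swS, invN_swS]
  exact swS_rec hI d hij hj hi

theorem fus_rec (p : ℕ) (d : V →₀ ℕ) {i j : V} (hij : i ≠ j) (hj : d j = 1) (hi : 1 ≤ d i) :
    fus p d = fus p (d + Finsupp.single i 1 - Finsupp.single j 1)
      + fus p (d - Finsupp.single i 1 - Finsupp.single j 1) := by
  rw [fus_swS, fus_swS, fus_swS]
  exact swS_rec (hF p) d hij hj hi

private theorem rec2_tel (p : ℕ) (n : ℕ) (w : ℤ) :
    ∑ x ∈ range n, hF p (w - 2 * (x : ℤ)) =
      (if (2 * p : ℤ) ∣ w then 1 else 0) - (if (2 * p : ℤ) ∣ w - 2 * (n : ℤ) then 1 else 0) := by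
  have h1 : ∀ x : ℕ, hF p (w - 2 * (x : ℤ)) =
      (fun y : ℕ => (if (2 * p : ℤ) ∣ w - 2 * (y : ℤ) then (1 : ℤ) else 0)) x -
      (fun y : ℕ => (if (2 * p : ℤ) ∣ w - 2 * (y : ℤ) then (1 : ℤ) else 0)) (x + 1) := by
    intro x
    unfold hF
    have h2 : w - 2 * (x : ℤ) - 2 = w - 2 * ((x + 1 : ℕ) : ℤ) := by
      push_cast
      ring
    rw [h2]
  rw [Finset.sum_congr rfl fun x _ => h1 x, Finset.sum_range_sub']
  rw [Nat.cast_zero, mul_zero, sub_zero]

private theorem rec2_telI (n : ℕ) (w : ℤ) :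
    ∑ x ∈ range n, hI (w - 2 * (x : ℤ)) =
      (if w = 0 then 1 else 0) - (if w - 2 * (n : ℤ) = 0 then 1 else 0) := by
  have h1 : ∀ x : ℕ, hI (w - 2 * (x : ℤ)) =
      (fun y : ℕ => (if w - 2 * (y : ℤ) = 0 then (1 : ℤ) else 0)) x -
      (fun y : ℕ => (if w - 2 * (y : ℤ) = 0 then (1 : ℤ) else 0)) (x + 1) := by
    intro x
    unfold hI
    have h2 : (w - 2 * (x : ℤ) = 2) ↔ (w - 2 * ((x + 1 : ℕ) : ℤ) = 0) := by
      push_cast
      constructor
      · intro h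
        linarith
      · intro h
        linarith
    simp only [h2]
  rw [Finset.sum_congr rfl fun x _ => h1 x, Finset.sum_range_sub']
  rw [Nat.cast_zero, mul_zero, sub_zero]

theorem fus_edge (p : ℕ) (hp : 1 ≤ p) (d : V →₀ ℕ) {v : V} (hv : d v = p - 1) :
    fus p d = 0 := by
  rw [fus_swS, swS_split _ d v, hv, Nat.sub_add_cancel hp, ← swS_sum]
  have h1 : (fun j : ℤ => ∑ x ∈ range p, hF p (j + (((p - 1 : ℕ) : ℤ) - 2 * (x : ℤ)))) =
      fun _ => 0 := by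
    funext j
    have h2 : ∀ x : ℕ, j + (((p - 1 : ℕ) : ℤ) - 2 * (x : ℤ)) =
        (j + ((p - 1 : ℕ) : ℤ)) - 2 * (x : ℤ) := by
      intro x
      ring
    rw [Finset.sum_congr rfl fun x _ => by rw [h2 x], rec2_tel]
    have h3 : ((2 * p : ℤ) ∣ (j + ((p - 1 : ℕ) : ℤ)) - 2 * (p : ℤ)) ↔
        ((2 * p : ℤ) ∣ (j + ((p - 1 : ℕ) : ℤ))) := dvd_sub_self_right
    simp only [h3, sub_self]
  rw [h1]
  unfold swS
  exact Finset.sum_const_zero

private theorem rec2_er_single (v : V) (k : ℕ) : (Finsupp.single v k).erase v = 0 := by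
  ext x
  by_cases h : x = v
  · subst h
    rw [Finsupp.erase_same]
    rfl
  · rw [Finsupp.erase_ne h, Finsupp.single_eq_of_ne h]
    rfl

theorem invN_single (v : V) (k : ℕ) :
    invN (Finsupp.single v k) = if k = 0 then 1 else 0 := by
  rw [invN_swS, swS_split _ _ v, rec2_er_single, Finsupp.single_eq_same]
  have h1 : ∀ x : ℕ, swS (fun j => hI (j + ((k : ℤ) - 2 * (x : ℤ)))) (0 : V →₀ ℕ) =
      hI ((k : ℤ) - 2 * (x : ℤ)) := by
    intro x
    rw [swS_zero_deg, zero_add]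
  rw [Finset.sum_congr rfl fun x _ => h1 x, rec2_telI]
  have h2 : ¬ ((k : ℤ) - 2 * ((k + 1 : ℕ) : ℤ) = 0) := by
    push_cast
    intro h
    have : (0 : ℤ) ≤ k := Int.natCast_nonneg k
    linarith
  rw [if_neg h2, sub_zero]
  by_cases hk : k = 0
  · rw [if_pos hk, if_pos (by exact_mod_cast hk)]
  · rw [if_neg hk, if_neg (by exact_mod_cast hk)]

theorem fus_single (p : ℕ) (v : V) (k : ℕ) (hk : k + 2 ≤ p) :
    fus p (Finsupp.single v k) = if k = 0 then 1 else 0 := by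
  rw [fus_swS, swS_split _ _ v, rec2_er_single, Finsupp.single_eq_same]
  have h1 : ∀ x : ℕ, swS (fun j => hF p (j + ((k : ℤ) - 2 * (x : ℤ)))) (0 : V →₀ ℕ) =
      hF p ((k : ℤ) - 2 * (x : ℤ)) := by
    intro x
    rw [swS_zero_deg, zero_add]
  rw [Finset.sum_congr rfl fun x _ => h1 x, rec2_tel]
  have h2 : ¬ ((2 * p : ℤ) ∣ (k : ℤ) - 2 * ((k + 1 : ℕ) : ℤ)) := by
    intro h
    have h3 : ((2 * p : ℕ) : ℤ) ∣ ((k + 2 : ℕ) : ℤ) := by
      have h4 : ((k + 2 : ℕ) : ℤ) = -((k : ℤ) - 2 * ((k + 1 : ℕ) : ℤ)) := by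
        push_cast
        ring
      rw [h4, dvd_neg]
      push_cast
      push_cast at h
      exact h
    have h5 := Nat.le_of_dvd (by omega) (Int.natCast_dvd_natCast.1 h3)
    omega
  rw [if_neg h2, sub_zero]
  by_cases hk0 : k = 0
  · subst hk0
    rw [if_pos rfl, if_pos (by rw [Nat.cast_zero]; exact dvd_zero _)]
  · rw [if_neg hk0, if_neg]
    intro h
    have h3 : ((2 * p : ℕ) : ℤ) ∣ ((k : ℕ) : ℤ) := by
      push_cast
      exact h
    have h5 := Nat.le_of_dvd (by omega) (Int.natCast_dvd_natCast.1 h3)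
    omega

end FSig
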