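import Mathlib

/-!
# Rec3: uniqueness

`V` infinite, `p ≥ 2`, `τ : (V →₀ ℕ) → ℤ` with `h1`, `h2`, `h3`. Then `τ d = 0` if all entries are `≤ p - 1`.
Step 1: `d` with at most one entry `≠ 0, 1`: claim for all `k`, all finite sets `A` with `k` elements, `v ∉ A`, `a ≤ p - 1`: `τ (single v a + ∑_{w ∈ A} single w 1) = 0`. Induction on `k`. If `a = p - 1`: `h2` (entries `≤ p - 1` since `p ≥ 2`). So `a ≤ p - 2`. `k = 0`: `h3`.
`k + 1`: choose `w ∈ A`. If `1 ≤ a`: `h1` with `i = v`, `j = w`: `τ d = τ (single v (a+1) + ∑_{A \ w}) + τ (single v (a-1) + ∑_{A \ w})` (`Finsupp.ext`, cases), both `0` by induction. If `a = 0`: `d = single w 1 + ∑_{A \ w}`, induction.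
Step 2: strong induction on `M d = ∑_{v ∈ d.support} (d v - 1)`. If all `d v ≤ 1`: `d = 0` (then `d = single v 0` for any `v`) or `d = single v 1 + ∑_{w ∈ support \ v} single w 1`: step 1. Otherwise choose `i` with `2 ≤ d i`, and `w ∉ d.support` (`Infinite.exists_notMem_finset`). If `d i = p - 1`: `h2`. (Also possible: no case distinction.)
`d' = d - single i 1 + single w 1`: `d' w = 1`, `1 ≤ d' i = d i - 1 ≤ p - 2`, entries `≤ p - 1`; `d' + single i 1 - single w 1 = d`, `d' - single i 1 - single w 1 = d - single i 2`. `h1`: `τ d' = τ d + τ (d - single i 2)`; `M d' = M d - 1`, `M (d - single i 2) < M d`, so `τ d' = 0`, `τ (d - single i 2) = 0`.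
(For `M` it is convenient to use `M d = d.sum fun _ x => x - 1` and `Finsupp.sum_of_support_subset` on a common finite set.)
-/

namespace FSig

open Finset

private noncomputable def I {V : Type*} (A : Finset V) : V →₀ ℕ := ∑ w ∈ A, Finsupp.single w 1

private theorem I_mem {V : Type*} {A : Finset V} {u : V} (h : u ∈ A) : I A u = 1 := by
  classical
  unfold I
  rw [Finsupp.finset_sum_apply, Finset.sum_eq_single u]
  · simp
  · intro b _ hb
    exact Finsupp.single_eq_of_ne (Ne.symm hb)
  · intro h'
    exact absurd h h'

private theorem I_nmem {V : Type*} {A : Finset V} {u : V} (h : u ∉ A) : I A u = 0 := by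
  classical
  unfold I
  rw [Finsupp.finset_sum_apply]
  refine Finset.sum_eq_zero fun b hb => ?_
  refine Finsupp.single_eq_of_ne ?_
  rintro rfl
  exact h hb

private theorem I_le {V : Type*} (A : Finset V) (u : V) : I A u ≤ 1 := by
  by_cases h : u ∈ A
  · rw [I_mem h]
  · rw [I_nmem h]
    exact Nat.zero_le _

private theorem st1 {V : Type*} (p : ℕ) (hp : 2 ≤ p) (τ : (V →₀ ℕ) → ℤ)
    (h1 : ∀ (d : V →₀ ℕ) (i j : V), i ≠ j → d j = 1 → 1 ≤ d i → d i ≤ p - 2 →
      (∀ v, d v ≤ p - 1) → τ d = τ (d + Finsupp.single i 1 - Finsupp.single j 1)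
        + τ (d - Finsupp.single i 1 - Finsupp.single j 1))
    (h2 : ∀ d : V →₀ ℕ, (∀ v, d v ≤ p - 1) → (∃ v, d v = p - 1) → τ d = 0)
    (h3 : ∀ (v : V) (k : ℕ), k ≤ p - 2 → τ (Finsupp.single v k) = 0) (k : ℕ) :
    ∀ (A : Finset V) (v : V) (a : ℕ), A.card = k → v ∉ A → a ≤ p - 1 →
      τ (Finsupp.single v a + I A) = 0 := by
  classical
  induction k with
  | zero =>
    intro A v a hA hv ha
    have hA' : A = ∅ := Finset.card_eq_zero.1 hA
    subst hA'
    have e : Finsupp.single v a + I (∅ : Finset V) = Finsupp.single v a := by
      unfold I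
      rw [Finset.sum_empty, add_zero]
    rw [e]
    by_cases h : a = p - 1
    · refine h2 _ (fun u => ?_) ⟨v, ?_⟩
      · by_cases hu : v = u
        · subst hu
          rw [Finsupp.single_eq_same]
          exact ha
        · rw [Finsupp.single_eq_of_ne (Ne.symm hu)]
          exact Nat.zero_le _
      · rw [Finsupp.single_eq_same, h]
    · exact h3 v a (by omega)
  | succ k ih =>
    intro A v a hA hv ha
    have hent : ∀ u, (Finsupp.single v a + I A) u ≤ p - 1 := by
      intro u
      rw [Finsupp.add_apply]
      by_cases hu : v = u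
      · subst hu
        rw [Finsupp.single_eq_same, I_nmem hv]
        omega
      · rw [Finsupp.single_eq_of_ne (Ne.symm hu)]
        have := I_le A u
        omega
    have hdv : (Finsupp.single v a + I A) v = a := by
      rw [Finsupp.add_apply, Finsupp.single_eq_same, I_nmem hv, add_zero]
    by_cases h : a = p - 1
    · exact h2 _ hent ⟨v, by rw [hdv, h]⟩
    · obtain ⟨w, hw⟩ : A.Nonempty := by
        rw [← Finset.card_pos]
        omega
      have hvw : v ≠ w := by
        rintro rfl
        exact hv hw
      have hc : (A.erase w).card = k := by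
        rw [Finset.card_erase_of_mem hw, hA]
        rfl
      have hIA : ∀ u, I A u = (if u = w then 1 else 0) + I (A.erase w) u := by
        intro u
        by_cases hu : u = w
        · subst hu
          rw [I_mem hw, I_nmem (Finset.notMem_erase _ _), if_pos rfl]
        · rw [if_neg hu, zero_add]
          by_cases hu' : u ∈ A
          · rw [I_mem hu', I_mem (Finset.mem_erase.2 ⟨hu, hu'⟩)]
          · rw [I_nmem hu', I_nmem fun h' => hu' (Finset.mem_of_mem_erase h')]
      by_cases ha0 : a = 0
      · subst ha0
        have e : Finsupp.single v 0 + I A = Finsupp.single w 1 + I (A.erase w) := by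
          ext u
          rw [Finsupp.add_apply, Finsupp.add_apply, hIA u, Finsupp.single_zero,
            Finsupp.coe_zero, Pi.zero_apply, zero_add, Finsupp.single_apply]
          simp only [eq_comm]
        rw [e]
        exact ih _ w 1 hc (Finset.notMem_erase _ _) (by omega)
      · have hdw : (Finsupp.single v a + I A) w = 1 := by
          rw [Finsupp.add_apply, Finsupp.single_eq_of_ne (Ne.symm hvw), I_mem hw]
        have hs := h1 (Finsupp.single v a + I A) v w hvw hdw (by rw [hdv]; omega)
          (by rw [hdv]; omega) hent
        have hv' : v ∉ A.erase w := fun h' => hv (Finset.mem_of_mem_erase h')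
        have e1 : Finsupp.single v a + I A + Finsupp.single v 1 - Finsupp.single w 1 =
            Finsupp.single v (a + 1) + I (A.erase w) := by
          ext u
          simp only [Finsupp.tsub_apply, Finsupp.add_apply, hIA u, Finsupp.single_apply]
          by_cases hu : u = w
          · subst hu
            rw [if_neg hvw, if_neg hvw, if_neg hvw, if_pos rfl]
            omega
          · rw [if_neg hu, if_neg (Ne.symm hu)]
            by_cases hu2 : v = u
            · rw [if_pos hu2, if_pos hu2, if_pos hu2]
              omega
            · rw [if_neg hu2, if_neg hu2, if_neg hu2]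
              omega
        have e2 : Finsupp.single v a + I A - Finsupp.single v 1 - Finsupp.single w 1 =
            Finsupp.single v (a - 1) + I (A.erase w) := by
          ext u
          simp only [Finsupp.tsub_apply, Finsupp.add_apply, hIA u, Finsupp.single_apply]
          by_cases hu : u = w
          · subst hu
            rw [if_neg hvw, if_neg hvw, if_neg hvw, if_pos rfl]
            omega
          · rw [if_neg hu, if_neg (Ne.symm hu)]
            by_cases hu2 : v = u
            · rw [if_pos hu2, if_pos hu2, if_pos hu2]
              omega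
            · rw [if_neg hu2, if_neg hu2, if_neg hu2]
              omega
        rw [hs, e1, e2, ih _ v (a + 1) hc hv' (by omega), ih _ v (a - 1) hc hv' (by omega),
          add_zero]

private noncomputable def MM {V : Type*} (d : V →₀ ℕ) : ℕ := d.sum fun _ x => x - 1

private theorem MM_lt {V : Type*} (S : Finset V) (d d' : V →₀ ℕ) (hd : d.support ⊆ S)
    (hd' : d'.support ⊆ S) (hle : ∀ v, d' v - 1 ≤ d v - 1) (i : V) (hi : d' i - 1 < d i - 1) :
    MM d' < MM d := by
  classical
  unfold MM
  rw [Finsupp.sum_of_support_subset d hd _ (fun _ _ => rfl),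
    Finsupp.sum_of_support_subset d' hd' _ (fun _ _ => rfl)]
  refine Finset.sum_lt_sum (fun v _ => hle v) ⟨i, ?_, hi⟩
  refine hd (Finsupp.mem_support_iff.2 ?_)
  omega

theorem uniq {V : Type*} [Infinite V] (p : ℕ) (hp : 2 ≤ p) (τ : (V →₀ ℕ) → ℤ)
    (h1 : ∀ (d : V →₀ ℕ) (i j : V), i ≠ j → d j = 1 → 1 ≤ d i → d i ≤ p - 2 →
      (∀ v, d v ≤ p - 1) → τ d = τ (d + Finsupp.single i 1 - Finsupp.single j 1)
        + τ (d - Finsupp.single i 1 - Finsupp.single j 1))
    (h2 : ∀ d : V →₀ ℕ, (∀ v, d v ≤ p - 1) → (∃ v, d v = p - 1) → τ d = 0)
    (h3 : ∀ (v : V) (k : ℕ), k ≤ p - 2 → τ (Finsupp.single v k) = 0)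
    (d : V →₀ ℕ) (hd : ∀ v, d v ≤ p - 1) : τ d = 0 := by
  classical
  obtain ⟨n, hn⟩ : ∃ n, MM d = n := ⟨_, rfl⟩
  induction n using Nat.strong_induction_on generalizing d with
  | _ n ih =>
    obtain ⟨w, hw⟩ := Infinite.exists_notMem_finset d.support
    have hw0 : d w = 0 := Finsupp.notMem_support_iff.1 hw
    by_cases hall : ∀ v, d v ≤ 1
    · have e : d = Finsupp.single w 0 + I d.support := by
        ext u
        rw [Finsupp.single_zero, zero_add]
        by_cases hu : u ∈ d.support
        · rw [I_mem hu]
          have h4 := hall u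
          have h5 := Finsupp.mem_support_iff.1 hu
          omega
        · rw [I_nmem hu]
          exact Finsupp.notMem_support_iff.1 hu
      rw [e]
      exact st1 p hp τ h1 h2 h3 _ _ w 0 rfl hw (Nat.zero_le _)
    · push Not at hall
      obtain ⟨i, hi⟩ := hall
      have hiw : i ≠ w := by
        rintro rfl
        omega
      have hdi := hd i
      have v1 : ∀ u, (d - Finsupp.single i 1 + Finsupp.single w 1 : V →₀ ℕ) u =
          d u - (if i = u then 1 else 0) + (if w = u then 1 else 0) := by
        intro u
        rw [Finsupp.add_apply, Finsupp.tsub_apply, Finsupp.single_apply, Finsupp.single_apply]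
      have v2 : ∀ u, (d - Finsupp.single i 2 : V →₀ ℕ) u = d u - (if i = u then 2 else 0) := by
        intro u
        rw [Finsupp.tsub_apply, Finsupp.single_apply]
      have hent : ∀ u, (d - Finsupp.single i 1 + Finsupp.single w 1 : V →₀ ℕ) u ≤ p - 1 := by
        intro u
        rw [v1 u]
        by_cases hu : w = u
        · subst hu
          rw [if_pos rfl, if_neg hiw]
          omega
        · rw [if_neg hu]
          have := hd u
          omega
      have hs := h1 (d - Finsupp.single i 1 + Finsupp.single w 1) i w hiw
        (by rw [v1 w, if_neg hiw, if_pos rfl]; omega)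
        (by rw [v1 i, if_pos rfl]; omega)
        (by rw [v1 i, if_pos rfl, if_neg (Ne.symm hiw)]; omega) hent
      have e1 : d - Finsupp.single i 1 + Finsupp.single w 1 + Finsupp.single i 1 -
          Finsupp.single w 1 = d := by
        ext u
        rw [Finsupp.tsub_apply, Finsupp.add_apply, v1 u, Finsupp.single_apply,
          Finsupp.single_apply]
        by_cases hu : i = u
        · subst hu
          rw [if_pos rfl, if_neg (Ne.symm hiw)]
          omega
        · rw [if_neg hu]
          omega
      have e2 : d - Finsupp.single i 1 + Finsupp.single w 1 - Finsupp.single i 1 -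
          Finsupp.single w 1 = d - Finsupp.single i 2 := by
        ext u
        rw [Finsupp.tsub_apply, Finsupp.tsub_apply, v1 u, v2 u, Finsupp.single_apply,
          Finsupp.single_apply]
        by_cases hu : i = u
        · subst hu
          rw [if_pos rfl, if_pos rfl, if_neg (Ne.symm hiw)]
          omega
        · rw [if_neg hu, if_neg hu]
          omega
      have hS1 : d.support ⊆ insert w d.support := Finset.subset_insert _ _
      have hS2 : (d - Finsupp.single i 1 + Finsupp.single w 1).support ⊆
          insert w d.support := by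
        intro u hu
        rw [Finsupp.mem_support_iff, v1 u] at hu
        rw [Finset.mem_insert, Finsupp.mem_support_iff]
        by_cases hu2 : w = u
        · exact Or.inl hu2.symm
        · rw [if_neg hu2] at hu
          right
          omega
      have hS3 : (d - Finsupp.single i 2).support ⊆ insert w d.support := by
        intro u hu
        rw [Finsupp.mem_support_iff, v2 u] at hu
        rw [Finset.mem_insert, Finsupp.mem_support_iff]
        right
        omega
      have m1 : MM (d - Finsupp.single i 1 + Finsupp.single w 1) < MM d := by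
        refine MM_lt _ _ _ hS1 hS2 (fun u => ?_) i ?_
        · rw [v1 u]
          by_cases hu2 : w = u
          · subst hu2
            rw [if_neg hiw, if_pos rfl]
            omega
          · rw [if_neg hu2]
            omega
        · rw [v1 i, if_pos rfl, if_neg (Ne.symm hiw)]
          omega
      have m2 : MM (d - Finsupp.single i 2) < MM d := by
        refine MM_lt _ _ _ hS1 hS3 (fun u => ?_) i ?_
        · rw [v2 u]
          omega
        · rw [v2 i, if_pos rfl]
          omega
      have t1 := ih _ (hn ▸ m1) _ hent rfl
      have t2 := ih _ (hn ▸ m2) _ (fun u => by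
        rw [v2 u]
        have := hd u
        omega) rfl
      rw [e1, e2, t1, t2, add_zero] at hs
      exact hs.symm

end FSig
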