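import Pool.Agent.Lib.FSig.LamEdge
import Pool.Agent.Lib.FSig.LamTr
import Pool.Agent.Lib.FSig.Rec2
import Pool.Agent.Lib.FSig.Rec3

/-!
# InvLam: `inv = lam + fus` (section 8, assembly)

First `V` infinite: `uniq` (module Rec3) for `τ d = invN d - lamN K p d - fus p d`: `h1`: `invN_rec`, `lamN_rec`, `fus_rec` (the last two for `d i ≤ p - 2`); `h2`: `lamN_edge`, `fus_edge`; `h3`: `invN_single`, `lamN_single`, `fus_single` (`k + 2 ≤ p` as `p ≥ 2`).
General `V`: the embedding `ι = Function.Embedding.inl : V ↪ V ⊕ ℕ`, `V ⊕ ℕ` is infinite, `d.embDomain ι` has entries `≤ p - 1` (`Finsupp.embDomain_apply`, `embDomain_notin_range`), and `invN_emb`, `lamN_emb`, `fus_emb`.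
-/

namespace FSig

open MvPolynomial Finset

private theorem invLam_inf {V : Type*} [Infinite V] (K : Type*) [Field K] (p : ℕ) [Fact p.Prime]
    [CharP K p] (d : V →₀ ℕ) (hd : ∀ v, d v ≤ p - 1) : invN d = lamN K p d + fus p d := by
  classical
  have hp2 : 2 ≤ p := (Fact.out : p.Prime).two_le
  have h := uniq p hp2 (fun d : V →₀ ℕ => invN d - lamN K p d - fus p d) ?_ ?_ ?_ d hd
  · linarith
  · intro d i j hij hj hi hip _
    have e1 := invN_rec d hij hj hi
    have e2 := lamN_rec K p hij hj hi hip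
    have e3 := fus_rec p d hij hj hi
    linarith
  · rintro d - ⟨v, hv⟩
    have e2 := lamN_edge K p hv
    have e3 := fus_edge p (by omega) d hv
    linarith
  · intro v k hk
    have e1 := invN_single v k
    have e2 := lamN_single K p v k
    have e3 := fus_single p v k (by omega)
    rw [e1, e2, e3]
    ring

theorem invN_eq_lamN_add_fus {V : Type*} (K : Type*) [Field K] (p : ℕ) [Fact p.Prime] [CharP K p]
    (d : V →₀ ℕ) (hd : ∀ v, d v ≤ p - 1) : invN d = lamN K p d + fus p d := by
  have h := invLam_inf K p (d.embDomain (Function.Embedding.inl : V ↪ V ⊕ ℕ)) ?_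
  · rwa [invN_emb, lamN_emb, fus_emb] at h
  · rintro (v | n)
    · have e : (d.embDomain (Function.Embedding.inl : V ↪ V ⊕ ℕ)) (Sum.inl v) = d v :=
        Finsupp.embDomain_apply_self _ d v
      rw [e]
      exact hd v
    · rw [Finsupp.embDomain_of_notMem_range]
      · exact Nat.zero_le _
      · rintro ⟨x, hx⟩
        exact Sum.inl_ne_inr hx

end FSig
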