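import Pool.Agent.Lib.FSig.UDim

/-!
# MP_05de8f_ag : the numbers `lam(d)` (definition)
-/

namespace FSig

open MvPolynomial

variable {V : Type*} (K : Type*) [CommRing K]

/-- `Lam (S d 0) ∩ Inv` -/
noncomputable def lamS (p : ℕ) (d : V →₀ ℕ) : Submodule K (T V K) :=
  ((S K d 0).map (Lam K p)) ⊓ (Inv (V := V) K).toSubmodule

/-- the dimension of `Lam (S d 0) ∩ Inv` -/
noncomputable def lamN (p : ℕ) (d : V →₀ ℕ) : ℤ := (Module.finrank K (lamS K p d) : ℤ)

end FSig
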