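import Pool.Agent.Lib.FSig.OpsPow

/-!
# MP_05de8f_ag : characteristic `p`: the operator `Lam = F^(p-1) E^(p-1)` (module OpsLam)

`K` a field of characteristic `p` (`p` prime). PROOFS.
* (O3), `u ∈ S d w`, `p ∣ w`:
  - `E1_Lam`: `E_one_F` for `z = E^(p-1) u` (weight `w+2(p-1)`), `k = p-1`:
    `E F^(p-1) z = F^(p-1) E z + (w+2(p-1)-(p-1)+1) F^(p-2) z`; the coefficient is `w + p = 0` in `K` and `E E^(p-1) = p E^(p) = 0`. (`p = 2` too.)
  - `F1_Lam`: `F F^(p-1) = p F^(p) = 0`, no condition on `u`. `Lam_E1`: `E^(p-1) E = p E^(p) = 0`, no condition.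
  - `EF_eq_Lam`: `E^(p-1) F^(p-1) u = ∑_l binom(w, l) F^(p-1-l) E^(p-1-l) u` and `binom(w,l) = 0` mod `p` for `1 ≤ l ≤ p-1`
    (`l! binom(w,l) = w (w-1) ...`, `p ∣ w`; `Ring.choose` and `descPochhammer`: `Ring.descPochhammer_eq_factorial_smul_choose`; or `w = p k` and
    Lucas for `Int`): a lemma `choose_eq_zero (p ∣ w) (1 ≤ l < p) : (Ring.choose w l : K) = 0`.
  - `Lam_F1` (`u ∈ S d w`, `p ∣ w - 2`): `E^(p-1) F u = F E^(p-1) u + (w+p-2) E^(p-2) u` (`E_F_comm`, `q = 1`, or `F_E_comm`), coefficient `0` in `K`,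
    then `F^(p-1) F = 0`.
  - `E_Lam_comm`: `E^(pk) F^(p-1) (E^(p-1) u) = ∑_{l ≤ min} binom(..) F^(p-1-l) E^(pk-l) E^(p-1) u`; for `1 ≤ l ≤ p-1`,
    `E^(pk-l) E^(p-1) = binom(pk-l+p-1, p-1) E^(..)` and `pk - l + p - 1 = pk + (p-1-l)` has last digit `p-1-l < p-1`, so the binomial is `0` mod `p`.
    (`k ≥ 1`; `k = 0` trivial.) The term `l = 0` is `F^(p-1) E^(p-1) E^(pk) u`.
  - `F_Lam_comm`: `Lam u = E^(p-1) F^(p-1) u` by `EF_eq_Lam`; mirror image of the previous item; then `EF_eq_Lam` for `F^(pk) u`, weight `w - 2pk`.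
  - `Lam_pow_mul`: `E^(j) (t^p u) = t^p E^(j) u` for `j < p` (`E_mul_pow`).
* `E_Lam_zero`: `k = k0 + p k1`, `0 < k0 < p`: `E^(k) = E^(k0) E^(p k1)` (`E_digit`), `E^(p k1) Lam u = Lam (E^(p k1) u)` is killed by `E`, hence by `E^(k0)`.
-/

namespace FSig

open MvPolynomial Finset

variable {V : Type*} (K : Type*) [Field K] (p : ℕ) [Fact p.Prime] [CharP K p]

include p in
private lemma oplam_nsmul {n : ℕ} (h : (n : K) = 0) (y : T V K) : n • y = 0 := by
  rw [← Nat.cast_smul_eq_nsmul K, h, zero_smul]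

include p in
private lemma oplam_zsmul {n : ℤ} (h : (p : ℤ) ∣ n) (y : T V K) : n • y = 0 := by
  rw [← Int.cast_smul_eq_zsmul K, (CharP.intCast_eq_zero_iff K p n).2 h, zero_smul]

private lemma oplam_pos : 0 < p := (Fact.out : p.Prime).pos

private lemma oplam_two : 2 ≤ p := (Fact.out : p.Prime).two_le

private lemma oplam_cast : ((p - 1 : ℕ) : ℤ) = (p : ℤ) - 1 := by
  have := oplam_pos p
  omega

include p in
private lemma oplam_choose {k l : ℕ} (hk : 1 ≤ k) (h1 : 1 ≤ l) (hl : l < p) :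
    (((p * k - l + (p - 1)).choose (p * k - l) : ℕ) : K) = 0 := by
  have hp : 0 < p := oplam_pos p
  have hpk : p ≤ p * k := Nat.le_mul_of_pos_right p hk
  have e1 : p * k - l + (p - 1) = (p - 1 - l) + p * k := by omega
  have e2 : (p * k - l + (p - 1)).choose (p * k - l) = ((p - 1 - l) + p * k).choose (p - 1) := by
    rw [Nat.choose_symm_add, e1]
  have h := Choose.choose_modEq_choose_mod_mul_choose_div_nat (n := (p - 1 - l) + p * k)
    (k := p - 1) (p := p)
  rw [Nat.add_mul_mod_self_left, Nat.mod_eq_of_lt (by omega : p - 1 - l < p),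
    Nat.mod_eq_of_lt (by omega : p - 1 < p), Nat.choose_eq_zero_of_lt (show p - 1 - l < p - 1 by omega),
    zero_mul] at h
  rw [e2]
  have h2 := (CharP.natCast_eq_natCast K p).mpr h
  rw [h2, Nat.cast_zero]

lemma F1_Lam (u : T V K) : F K 1 (Lam K p u) = 0 := by
  have hp := oplam_pos p
  show F K 1 (F K (p - 1) (E K (p - 1) u)) = 0
  rw [F_comp]
  refine oplam_nsmul K p ?_ _
  rw [Nat.choose_one_right, show 1 + (p - 1) = p by omega, CharP.cast_eq_zero]
lemma Lam_E1 (u : T V K) : Lam K p (E K 1 u) = 0 := by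
  have hp := oplam_pos p
  show F K (p - 1) (E K (p - 1) (E K 1 u)) = 0
  rw [E_comp, oplam_nsmul K p ?_ _, map_zero]
  rw [Nat.choose_symm_add, Nat.choose_one_right, show p - 1 + 1 = p by omega, CharP.cast_eq_zero]

section
variable {d : V →₀ ℕ} {w : ℤ} {u : T V K}

lemma E1_Lam (hu : u ∈ S K d w) (hw : (p : ℤ) ∣ w) : E K 1 (Lam K p u) = 0 := by
  have hp := oplam_two p
  have hc := oplam_cast p
  show E K 1 (F K (p - 1) (E K (p - 1) u)) = 0
  rw [E_one_F K (E_mem_S K hu (p - 1)) (p - 1) (by omega), E_comp, oplam_nsmul K p ?_ _, map_zero,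
    zero_add]
  · refine oplam_zsmul K p ?_ _
    rw [hc, show w + 2 * ((p : ℤ) - 1) - ((p : ℤ) - 1) + 1 = w + p by ring]
    exact dvd_add hw (dvd_refl _)
  · rw [Nat.choose_one_right, show 1 + (p - 1) = p by omega, CharP.cast_eq_zero]

lemma EF_eq_Lam (hu : u ∈ S K d w) (hw : (p : ℤ) ∣ w) :
    E K (p - 1) (F K (p - 1) u) = Lam K p u := by
  have hp := oplam_two p
  rw [E_F_comm K hu (p - 1) (p - 1), Nat.min_self, add_sub_cancel_right,
    Finset.sum_eq_single 0]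
  · rw [Ring.choose_zero_right, one_smul, Nat.sub_zero]
    rfl
  · intro l hl h0
    rw [mem_range] at hl
    rw [← Int.cast_smul_eq_zsmul K, choose_eq_zero_of_dvd K p hw (by omega) (by omega), zero_smul]
  · intro h
    exact absurd (mem_range.2 (by omega)) h

lemma Lam_F1 (hu : u ∈ S K d w) (hw : (p : ℤ) ∣ w - 2) : Lam K p (F K 1 u) = 0 := by
  have hp := oplam_two p
  have hc := oplam_cast p
  show F K (p - 1) (E K (p - 1) (F K 1 u)) = 0
  rw [E_F_comm K hu (p - 1) 1, Nat.min_eq_right (by omega), Finset.sum_range_succ,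
    Finset.sum_range_one, Ring.choose_zero_right, one_smul, Ring.choose_one_right,
    oplam_zsmul K p ?_ _, add_zero, Nat.sub_zero, F_comp]
  · refine oplam_nsmul K p ?_ _
    rw [Nat.choose_symm_add, Nat.choose_one_right, show p - 1 + 1 = p by omega,
      CharP.cast_eq_zero]
  · rw [hc, Nat.cast_one, show w + ((p : ℤ) - 1) - 1 = w - 2 + p by ring]
    exact dvd_add hw (dvd_refl _)

lemma E_Lam_comm (hu : u ∈ S K d w) (hw : (p : ℤ) ∣ w) (k : ℕ) :
    E K (p * k) (Lam K p u) = Lam K p (E K (p * k) u) := by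
  have hp := oplam_two p
  rcases Nat.eq_zero_or_pos k with rfl | hk
  · rw [mul_zero, E_zero, E_zero]
  have hpk : p ≤ p * k := Nat.le_mul_of_pos_right p hk
  show E K (p * k) (F K (p - 1) (E K (p - 1) u)) = F K (p - 1) (E K (p - 1) (E K (p * k) u))
  rw [E_F_comm K (E_mem_S K hu (p - 1)) (p * k) (p - 1), Finset.sum_eq_single 0]
  · rw [Ring.choose_zero_right, one_smul, Nat.sub_zero, Nat.sub_zero, E_comm K (p * k) (p - 1)]
  · intro l hl h0
    rw [mem_range] at hl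
    rw [E_comp, oplam_nsmul K p (oplam_choose K p hk (by omega) (by omega)), map_zero, smul_zero]
  · intro h
    exact absurd (mem_range.2 (by omega)) h
lemma F_Lam_comm (hu : u ∈ S K d w) (hw : (p : ℤ) ∣ w) (k : ℕ) :
    F K (p * k) (Lam K p u) = Lam K p (F K (p * k) u) := by
  have hp := oplam_two p
  rcases Nat.eq_zero_or_pos k with rfl | hk
  · rw [mul_zero, F_zero, F_zero]
  have hpk : p ≤ p * k := Nat.le_mul_of_pos_right p hk
  have hw2 : (p : ℤ) ∣ w - 2 * ((p * k : ℕ) : ℤ) := by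
    refine dvd_sub hw (Dvd.dvd.mul_left ?_ 2)
    push_cast
    exact dvd_mul_right _ _
  rw [← EF_eq_Lam K p hu hw, ← EF_eq_Lam K p (F_mem_S K hu (p * k)) hw2,
    F_E_comm K (F_mem_S K hu (p - 1)) (p * k) (p - 1), Finset.sum_eq_single 0]
  · rw [Ring.choose_zero_right, one_smul, Nat.sub_zero, Nat.sub_zero, F_comm K (p * k) (p - 1)]
  · intro l hl h0
    rw [mem_range] at hl
    rw [F_comp, oplam_nsmul K p (oplam_choose K p hk (by omega) (by omega)), map_zero, smul_zero]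
  · intro h
    exact absurd (mem_range.2 (by omega)) h

private lemma oplam_digit {k : ℕ} (hk : ¬ p ∣ k) :
    1 ≤ k % p ∧ k % p < p ∧ k % p + p * (k / p) = k := by
  refine ⟨?_, Nat.mod_lt _ (oplam_pos p), Nat.mod_add_div k p⟩
  rw [Nat.one_le_iff_ne_zero]
  intro h
  exact hk (Nat.dvd_of_mod_eq_zero h)

lemma E_Lam_zero (hu : u ∈ S K d w) (hw : (p : ℤ) ∣ w) {k : ℕ} (hk : ¬ p ∣ k) :
    E K k (Lam K p u) = 0 := by
  obtain ⟨h1, h2, h3⟩ := oplam_digit p hk
  rw [← h3, E_digit K p h2, E_Lam_comm K p hu hw]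
  refine E_of_E_one K p (E1_Lam K p (E_mem_S K hu _) ?_) h1 h2
  refine dvd_add hw (Dvd.dvd.mul_left ?_ 2)
  push_cast
  exact dvd_mul_right _ _
lemma F_Lam_zero (hu : u ∈ S K d w) (hw : (p : ℤ) ∣ w) {k : ℕ} (hk : ¬ p ∣ k) :
    F K k (Lam K p u) = 0 := by
  obtain ⟨h1, h2, h3⟩ := oplam_digit p hk
  rw [← h3, F_digit K p h2, F_Lam_comm K p hu hw]
  exact F_of_F_one K p (F1_Lam K p _) h1 h2

end

lemma Lam_pow_mul (t u : T V K) : Lam K p (t ^ p * u) = t ^ p * Lam K p u := by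
  have hp := oplam_pos p
  show F K (p - 1) (E K (p - 1) (t ^ p * u)) = t ^ p * F K (p - 1) (E K (p - 1) u)
  rw [E_pow_mul_of_lt K p (by omega), F_pow_mul_of_lt K p (by omega)]

end FSig
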