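import Pool.Agent.Lib.FSig.CDefs

/-!
# MP_05de8f_ag : combinatorics of weight multiplicities (module WmRec)

`wm d w = #{q ≤ d : |d| - 2|q| = w}`. PROOFS.
* `wm_zero`: only `q = 0`.
* `wm_symm`: `q ↦ d - q`.
* `wm_add_single` (`d v = 0`): `{q ≤ d + D e_v} ≃ {q' ≤ d} × [0, D]`, `q = q' + Q e_v` (bijection; `Finset.card_bij`/`card_sigma`), `|d| + D - 2|q'| - 2Q = w` iff
  `|d| - 2|q'| = w - D + 2Q`.
* `om_rec`: put `om d w = wm d w - wm d (w+2)`. For `w ≥ 0`: `om (d + D e_v) w = ∑_{Q ≤ D, Q ≤ w - D + 2Q} om d (w-D+2Q)`.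
  From `wm_add_single`: `om (d + D e_v) w = ∑_{Q=0}^{D} om d (w-D+2Q)`. The omitted terms are `Q < D - w`, `w' = w-D+2Q` runs through `w-D, w-D+2, .., D-w-2`
  (if `w < D`), and `om d (-w'-2) = - om d w'` (`wm_symm`), the involution `Q ↦ D-w-1-Q` maps `w'` to `-w'-2`: the sum of the omitted terms is its own negative.
-/

namespace FSig

open Finset

variable {V : Type*}

open Classical in
private lemma wmRec_def (d : V →₀ ℕ) (w : ℤ) : wm d w =
    ∑ q ∈ Icc (0 : V →₀ ℕ) d, if (d.degree : ℤ) - 2 * (q.degree : ℤ) = w then (1 : ℤ) else 0 := by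
  unfold wm
  rw [Finset.card_filter]
  push_cast
  rfl

private lemma wmRec_degree_sub {d q : V →₀ ℕ} (h : q ≤ d) :
    ((d - q).degree : ℤ) = (d.degree : ℤ) - (q.degree : ℤ) := by
  have h1 : (d.degree : ℤ) = ((q + (d - q)).degree : ℤ) := by rw [add_tsub_cancel_of_le h]
  rw [h1, map_add]
  push_cast
  ring

lemma wm_zero (w : ℤ) : wm (0 : V →₀ ℕ) w = if w = 0 then 1 else 0 := by
  classical
  rw [wmRec_def, Finset.Icc_self, Finset.sum_singleton, map_zero]
  by_cases h : w = 0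
  · rw [if_pos h, if_pos (by rw [h]; norm_num)]
  · rw [if_neg h, if_neg]
    intro h1
    apply h
    rw [← h1]
    norm_num

lemma wm_symm (d : V →₀ ℕ) (w : ℤ) : wm d (-w) = wm d w := by
  classical
  rw [wmRec_def, wmRec_def]
  refine Finset.sum_nbij' (fun q => d - q) (fun q => d - q) ?_ ?_ ?_ ?_ ?_
  · intro q _
    rw [Finset.mem_Icc]
    exact ⟨zero_le, tsub_le_self⟩
  · intro q _
    rw [Finset.mem_Icc]
    exact ⟨zero_le, tsub_le_self⟩
  · intro q hq
    rw [Finset.mem_Icc] at hq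
    exact tsub_tsub_cancel_of_le hq.2
  · intro q hq
    rw [Finset.mem_Icc] at hq
    exact tsub_tsub_cancel_of_le hq.2
  · intro q hq
    rw [Finset.mem_Icc] at hq
    rw [wmRec_degree_sub hq.2]
    have h1 : ((d.degree : ℤ) - 2 * (q.degree : ℤ) = -w) ↔
        ((d.degree : ℤ) - 2 * ((d.degree : ℤ) - (q.degree : ℤ)) = w) := by
      constructor <;> intro h <;> linarith
    by_cases h2 : (d.degree : ℤ) - 2 * (q.degree : ℤ) = -w
    · rw [if_pos h2, if_pos (h1.1 h2)]
    · rw [if_neg h2, if_neg (fun h => h2 (h1.2 h))]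

lemma wm_nonneg (d : V →₀ ℕ) (w : ℤ) : 0 ≤ wm d w := by
  classical
  rw [wmRec_def]
  refine Finset.sum_nonneg fun q _ => ?_
  split_ifs <;> norm_num

theorem wm_add_single {d : V →₀ ℕ} {v : V} (hv : d v = 0) (D : ℕ) (w : ℤ) :
    wm (d + Finsupp.single v D) w = ∑ Q ∈ range (D + 1), wm d (w - D + 2 * Q) := by
  classical
  have h1 : ∑ Q ∈ range (D + 1), wm d (w - D + 2 * Q) =
      ∑ p ∈ Icc (0 : V →₀ ℕ) d ×ˢ range (D + 1),
        if (d.degree : ℤ) - 2 * (p.1.degree : ℤ) = w - D + 2 * (p.2 : ℤ) then (1 : ℤ) else 0 := by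
    rw [Finset.sum_product_right]
    exact Finset.sum_congr rfl fun Q _ => wmRec_def _ _
  rw [h1, wmRec_def]
  refine Finset.sum_nbij' (fun q => (q.erase v, q v)) (fun p => p.1 + Finsupp.single v p.2)
    ?_ ?_ ?_ ?_ ?_
  · intro q hq
    rw [Finset.mem_Icc] at hq
    rw [Finset.mem_product, Finset.mem_Icc, Finset.mem_range]
    refine ⟨⟨zero_le, ?_⟩, ?_⟩
    · intro u
      by_cases hu : u = v
      · subst hu
        rw [Finsupp.erase_same]
        exact Nat.zero_le _
      · rw [Finsupp.erase_ne hu]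
        have h2 := hq.2 u
        rw [Finsupp.add_apply, Finsupp.single_apply, if_neg (fun h => hu h.symm), add_zero] at h2
        exact h2
    · have h2 := hq.2 v
      rw [Finsupp.add_apply, Finsupp.single_eq_same, hv, zero_add] at h2
      exact Nat.lt_succ_of_le h2
  · intro p hp
    rw [Finset.mem_product, Finset.mem_Icc, Finset.mem_range] at hp
    rw [Finset.mem_Icc]
    refine ⟨zero_le, add_le_add hp.1.2 ?_⟩
    exact Finsupp.single_le_single.2 (Nat.lt_succ_iff.1 hp.2)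
  · intro q _
    exact Finsupp.erase_add_single v q
  · intro p hp
    rw [Finset.mem_product, Finset.mem_Icc, Finset.mem_range] at hp
    have h2 : p.1 v = 0 := Nat.le_zero.1 (hv ▸ hp.1.2 v)
    refine Prod.ext ?_ ?_
    · ext u
      by_cases hu : u = v
      · subst hu
        rw [Finsupp.erase_same, h2]
      · rw [Finsupp.erase_ne hu, Finsupp.add_apply, Finsupp.single_apply,
          if_neg (fun h => hu h.symm), add_zero]
    · change (p.1 + Finsupp.single v p.2) v = p.2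
      rw [Finsupp.add_apply, Finsupp.single_eq_same, h2, zero_add]
  · intro q _
    have h2 : (q.degree : ℤ) = ((q.erase v).degree : ℤ) + (q v : ℤ) := by
      conv_lhs => rw [← Finsupp.erase_add_single v q]
      rw [map_add, Finsupp.degree_single]
      push_cast
      rfl
    have h3 : (((d + Finsupp.single v D).degree : ℕ) : ℤ) = (d.degree : ℤ) + D := by
      rw [map_add, Finsupp.degree_single]
      push_cast
      rfl
    have h4 : ((((d + Finsupp.single v D).degree : ℕ) : ℤ) - 2 * (q.degree : ℤ) = w) ↔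
        ((d.degree : ℤ) - 2 * ((q.erase v).degree : ℤ) = w - D + 2 * (q v : ℤ)) := by
      rw [h2, h3]
      constructor <;> intro h <;> linarith
    by_cases h5 : (((d + Finsupp.single v D).degree : ℕ) : ℤ) - 2 * (q.degree : ℤ) = w
    · rw [if_pos h5, if_pos (h4.1 h5)]
    · rw [if_neg h5, if_neg (fun h => h5 (h4.2 h))]

/-- `wm d w - wm d (w+2)`: the dimension of the `U`-invariants of weight `w ≥ 0` -/
noncomputable def om (d : V →₀ ℕ) (w : ℤ) : ℤ := wm d w - wm d (w + 2)

lemma om_zero_left (w : ℤ) (hw : 0 ≤ w) : om (0 : V →₀ ℕ) w = if w = 0 then 1 else 0 := by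
  rw [om, wm_zero, wm_zero, if_neg (by omega : ¬ (w + 2 = 0)), sub_zero]

lemma invN_eq_om (d : V →₀ ℕ) : invN d = om d 0 := by
  rw [invN, om, zero_add]

theorem om_rec {d : V →₀ ℕ} {v : V} (hv : d v = 0) (D : ℕ) {w : ℤ} (hw : 0 ≤ w) :
    om (d + Finsupp.single v D) w =
      ∑ Q ∈ (range (D + 1)).filter (fun Q : ℕ => (Q : ℤ) ≤ w - D + 2 * Q), om d (w - D + 2 * Q) := by
  have h1 : om (d + Finsupp.single v D) w = ∑ Q ∈ range (D + 1), om d (w - D + 2 * Q) := by
    rw [om, wm_add_single hv, wm_add_single hv, ← Finset.sum_sub_distrib]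
    refine Finset.sum_congr rfl fun Q _ => ?_
    rw [om]
    congr 2
    ring
  rw [h1, ← Finset.sum_filter_add_sum_filter_not (range (D + 1))
    (fun Q : ℕ => (Q : ℤ) ≤ w - D + 2 * Q)]
  have h2 : (range (D + 1)).filter (fun Q : ℕ => ¬ (Q : ℤ) ≤ w - D + 2 * Q) =
      range (D - w.toNat) := by
    ext Q
    rw [Finset.mem_filter, Finset.mem_range, Finset.mem_range]
    omega
  have h3 : ∑ Q ∈ (range (D + 1)).filter (fun Q : ℕ => ¬ (Q : ℤ) ≤ w - D + 2 * Q),
      om d (w - D + 2 * Q) = 0 := by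
    rw [h2]
    have h4 := Finset.sum_range_reflect (fun Q : ℕ => om d (w - D + 2 * Q)) (D - w.toNat)
    have h5 : ∑ Q ∈ range (D - w.toNat), om d (w - D + 2 * ((D - w.toNat - 1 - Q : ℕ) : ℤ)) =
        -∑ Q ∈ range (D - w.toNat), om d (w - D + 2 * Q) := by
      rw [← Finset.sum_neg_distrib]
      refine Finset.sum_congr rfl fun Q hQ => ?_
      rw [Finset.mem_range] at hQ
      have e1 : w - D + 2 * ((D - w.toNat - 1 - Q : ℕ) : ℤ) = -(w - D + 2 * Q + 2) := by omega
      have e2 : -(w - (D : ℤ) + 2 * Q + 2) + 2 = -(w - D + 2 * Q) := by ring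
      rw [e1, om, om, e2, wm_symm, wm_symm, neg_sub]
    rw [h5] at h4
    omega
  rw [h3, add_zero]

end FSig
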