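import Pool.Agent.Lib.FSig.Fft
import Pool.Agent.Lib.FSig.WmRec

/-!
# MP_05de8f_ag : dimension of the space of invariants (U3) (module UDim)

THEOREM `finrank_UI`: `finrank (UI d w) = om d w = wm d w - wm d (w+2)` for `w ≥ 0`. Hence `finrank (Inv ⊓ S d 0) = invN d` (`finrank_Inv`).

PROOF. `UI d w` is finite-dimensional (`finite_S`). Induction on `card (support d)` (or `Finsupp.induction`), all `w ≥ 0` at the same time. `d = 0`: `S 0 w` is the
line of constants for `w = 0` and `0` for `w > 0`; all constants are `U`-invariant; `om_zero_left`. Step `d + D e_v`, `d v = 0`: for `Q : ℕ` let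
`W Q = {f ∈ UI (d + D e_v) w : cf v q f = 0 for q ≥ Q}` (a submodule; `W 0 = ⊥` by `cf_ext`; `W (D+1)` = everything by `cf_eq_zero`).
`cf v Q` maps `W (Q+1)` to `UI d (w-D+2Q)` with kernel `W Q` (`top_coeff`); the image is `0` if `Q > w-D+2Q` (`top_coeff`), and everything if
`Q ≤ w - D + 2Q`, `Q ≤ D` (`UI d w' = BS d w'`, `lift_BS`; note `w' ≥ Q ≥ 0`; the lift is in `BS ≤ UI`). Rank-nullity (`LinearMap.finrank_range_add_finrank_ker` for the restriction):
`finrank W(Q+1) = finrank (W Q) + (if Q ≤ w' then finrank (UI d w') else 0)`. Sum over `Q ≤ D` and compare with `om_rec`.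
`finrank_Inv`: `Inv ⊓ S d 0 = UI d 0` (`mem_Inv_iff_UI`).
-/

namespace FSig

open MvPolynomial Finset

variable {V : Type*} [DecidableEq V] (K : Type*) [Field K] (p : ℕ) [Fact p.Prime] [CharP K p]

/-- the `U`-invariants without `b_v^q`, `q ≥ Q` -/
private noncomputable def uW (v : V) (U : Submodule K (T V K)) (Q : ℕ) : Submodule K (T V K) :=
  U ⊓ ⨅ q : ℕ, LinearMap.ker (cf K v (Q + q))

private lemma mem_uW {v : V} {U : Submodule K (T V K)} {Q : ℕ} {f : T V K} :
    f ∈ uW K v U Q ↔ f ∈ U ∧ ∀ q, Q ≤ q → cf K v q f = 0 := by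
  unfold uW
  rw [Submodule.mem_inf, Submodule.mem_iInf]
  constructor
  · rintro ⟨h1, h2⟩
    refine ⟨h1, fun q hq => ?_⟩
    have := h2 (q - Q)
    rw [LinearMap.mem_ker, Nat.add_sub_cancel' hq] at this
    exact this
  · rintro ⟨h1, h2⟩
    exact ⟨h1, fun q => LinearMap.mem_ker.2 (h2 _ (Nat.le_add_right _ _))⟩

omit [DecidableEq V] in
private lemma finite_le {d : V →₀ ℕ} {w : ℤ} {W : Submodule K (T V K)} (h : W ≤ S K d w) :
    Module.Finite K W := by
  have := finite_S K d w
  exact Submodule.finiteDimensional_of_le h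

private lemma uW_step {d : V →₀ ℕ} {v : V} (hv : d v = 0) {D : ℕ} {w : ℤ} (hw : 0 ≤ w)
    (hp : ∀ {f : T V K}, f ∈ UI K (d + Finsupp.single v D) w → ∀ {Q : ℕ},
      (∀ q, Q < q → cf K v q f = 0) →
      cf K v Q f ∈ UI K d (w - D + 2 * Q) ∧ (cf K v Q f ≠ 0 → (Q : ℤ) ≤ w - D + 2 * Q))
    (hB : ∀ (e : V →₀ ℕ) (z : ℕ), UI K e z = BS K e z) {Q : ℕ} (hQ : Q ≤ D) :
    Module.finrank K (uW K v (UI K (d + Finsupp.single v D) w) (Q + 1)) =
      (if (Q : ℤ) ≤ w - D + 2 * Q then Module.finrank K (UI K d (w - D + 2 * Q)) else 0) +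
      Module.finrank K (uW K v (UI K (d + Finsupp.single v D) w) Q) := by
  set U := UI K (d + Finsupp.single v D) w with hU
  have hUS : U ≤ S K (d + Finsupp.single v D) w := inf_le_left
  have : Module.Finite K (uW K v U (Q + 1)) :=
    finite_le K (d := d + Finsupp.single v D) (w := w) (inf_le_left.trans hUS)
  let φ : uW K v U (Q + 1) →ₗ[K] T V K := (cf K v Q).domRestrict (uW K v U (Q + 1))
  have h1 := LinearMap.finrank_range_add_finrank_ker φ
  -- the kernel
  have hker : (LinearMap.ker φ).map (uW K v U (Q + 1)).subtype = uW K v U Q := by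
    ext f
    rw [Submodule.mem_map, mem_uW]
    constructor
    · rintro ⟨⟨g, hg⟩, hg0, rfl⟩
      rw [LinearMap.mem_ker] at hg0
      have hg0' : cf K v Q g = 0 := hg0
      obtain ⟨h2, h3⟩ := (mem_uW K).1 hg
      refine ⟨h2, fun q hq => ?_⟩
      rcases Nat.eq_or_lt_of_le hq with h | h
      · rw [← h]; exact hg0'
      · exact h3 q h
    · rintro ⟨h2, h3⟩
      refine ⟨⟨f, (mem_uW K).2 ⟨h2, fun q hq => h3 q (by omega)⟩⟩, ?_, rfl⟩
      rw [LinearMap.mem_ker]
      exact h3 Q le_rfl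
  have hk : Module.finrank K (LinearMap.ker φ) = Module.finrank K (uW K v U Q) := by
    rw [← hker, Submodule.finrank_map_subtype_eq]
  -- the range
  have hr : LinearMap.range φ =
      if (Q : ℤ) ≤ w - D + 2 * Q then UI K d (w - D + 2 * Q) else ⊥ := by
    split_ifs with hc
    · apply le_antisymm
      · rintro _ ⟨⟨g, hg⟩, rfl⟩
        obtain ⟨h2, h3⟩ := (mem_uW K).1 hg
        exact (hp h2 (fun q hq => h3 q hq)).1
      · intro g hg
        obtain ⟨n, hn⟩ := Int.eq_ofNat_of_zero_le (le_trans (Int.natCast_nonneg Q) hc)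
        obtain ⟨m, hm⟩ := Int.eq_ofNat_of_zero_le hw
        rw [hn, hB] at hg
        obtain ⟨f, hf, hf1, hf2⟩ := lift_BS K (w := m) hv (Q := Q) (w' := n)
          (by rw [hn] at hc; exact_mod_cast hc) hQ (by rw [← hn, hm]) hg
        have hfU : f ∈ U := by
          rw [hU, hm, hB]; exact hf
        exact ⟨⟨f, (mem_uW K).2 ⟨hfU, fun q hq => hf1 q hq⟩⟩, hf2⟩
    · rw [eq_bot_iff]
      rintro _ ⟨⟨g, hg⟩, rfl⟩
      obtain ⟨h2, h3⟩ := (mem_uW K).1 hg
      by_contra h4
      exact hc ((hp h2 (fun q hq => h3 q hq)).2 h4)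
  rw [← h1, hk, hr]
  congr 1
  by_cases hc : (Q : ℤ) ≤ w - D + 2 * Q
  · rw [if_pos hc, if_pos hc]
  · rw [if_neg hc, if_neg hc]
    exact finrank_bot K (T V K)

private lemma UI_zero_zero : UI (V := V) K 0 0 = Submodule.span K {1} := by
  apply le_antisymm
  · intro f hf
    refine S_induction K (fun g => g ∈ Submodule.span K {(1 : T V K)}) (Submodule.zero_mem _)
      (fun _ _ => Submodule.add_mem _) ?_ ((mem_UI K).1 hf).1
    intro μ c h _
    have hμ : μ = 0 := by
      ext ⟨v, b⟩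
      have := h v
      rw [Finsupp.coe_zero, Pi.zero_apply] at this
      cases b <;> simp only [Finsupp.coe_zero, Pi.zero_apply] <;> omega
    rw [hμ]
    have : (monomial (0 : V × Bool →₀ ℕ) c : T V K) = c • 1 := by
      rw [smul_eq_C_mul, mul_one]; rfl
    rw [this]
    exact Submodule.smul_mem _ _ (Submodule.mem_span_singleton_self _)
  · rw [Submodule.span_singleton_le_iff_mem, mem_UI]
    refine ⟨one_mem_S K, fun k hk => ?_⟩
    rw [← C_1]
    exact E_C K k hk 1

include p in
theorem finrank_UI (d : V →₀ ℕ) {w : ℤ} (hw : 0 ≤ w) : (Module.finrank K (UI K d w) : ℤ) = om d w := by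
  induction d using Finsupp.induction₂ generalizing w with
  | zero =>
    rw [om_zero_left w hw]
    split_ifs with h
    · rw [h, UI_zero_zero, finrank_span_singleton one_ne_zero]
      rfl
    · have : UI (V := V) K 0 w = ⊥ := by
        rw [eq_bot_iff]
        refine inf_le_left.trans ?_
        rw [S_eq_bot K]
        rw [map_zero, Nat.cast_zero]
        exact abs_pos.2 h
      rw [this, finrank_bot]
      rfl
  | add_single v D d hv hD ih =>
    have hv0 : d v = 0 := Finsupp.notMem_support_iff.1 hv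
    have hstep := fun {Q : ℕ} (hQ : Q ≤ D) => uW_step K hv0 (D := D) hw
      (fun {f} hf {Q} hq => top_coeff K p hv0 hf hq) (UI_eq_BS K p) hQ
    have h0 : uW K v (UI K (d + Finsupp.single v D) w) 0 = ⊥ := by
      rw [eq_bot_iff]
      intro f hf
      obtain ⟨h1, h2⟩ := (mem_uW K).1 hf
      rw [Submodule.mem_bot]
      refine cf_ext K hv0 ((mem_UI K).1 h1).1 (Submodule.zero_mem _) fun q _ => ?_
      rw [h2 q (Nat.zero_le _), map_zero]
    have h1 : uW K v (UI K (d + Finsupp.single v D) w) (D + 1) =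
        UI K (d + Finsupp.single v D) w := by
      apply le_antisymm inf_le_left
      intro f hf
      refine (mem_uW K).2 ⟨hf, fun q hq => ?_⟩
      exact cf_eq_zero K hv0 ((mem_UI K).1 hf).1 hq
    have h2 : ∀ Q, Q ≤ D + 1 →
        (Module.finrank K (uW K v (UI K (d + Finsupp.single v D) w) Q) : ℤ) =
        ∑ q ∈ (range Q).filter (fun q : ℕ => (q : ℤ) ≤ w - D + 2 * q), om d (w - D + 2 * q) := by
      intro Q
      induction Q with
      | zero =>
        intro _
        rw [h0, finrank_bot]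
        simp
      | succ Q ihQ =>
        intro hQ
        rw [hstep (by omega), Finset.range_add_one, Finset.filter_insert]
        push_cast
        rw [ihQ (by omega)]
        split_ifs with hc
        · rw [Finset.sum_insert (by simp), ih (le_trans (Int.natCast_nonneg Q) hc)]
        · simp
    rw [← h1, h2 _ le_rfl, om_rec hv0 D hw]

/-- invariants of multidegree `d` -/
noncomputable def IS (d : V →₀ ℕ) : Submodule K (T V K) := S K d 0 ⊓ (Inv (V := V) K).toSubmodule

lemma mem_IS {d : V →₀ ℕ} {f : T V K} : f ∈ IS K d ↔ f ∈ S K d 0 ∧ f ∈ Inv (V := V) K := by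
  unfold IS
  rw [Submodule.mem_inf, Subalgebra.mem_toSubmodule]

include p in
theorem finrank_Inv (d : V →₀ ℕ) : (Module.finrank K (IS K d) : ℤ) = invN d := by
  have h : IS K d = UI K d 0 := by
    ext f
    rw [mem_IS]
    constructor
    · rintro ⟨h1, h2⟩
      exact (mem_Inv_iff_UI K p h1).1 h2
    · intro h
      have h1 := ((mem_UI K).1 h).1
      exact ⟨h1, (mem_Inv_iff_UI K p h1).2 h⟩
  rw [h, finrank_UI K p d le_rfl, invN_eq_om]

/-- (use `K = ZMod 2`, `p = 2`) -/
lemma invN_nonneg (d : V →₀ ℕ) : 0 ≤ invN d := by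
  have : Fact (Nat.Prime 2) := ⟨Nat.prime_two⟩
  rw [← finrank_Inv (ZMod 2) 2 d]
  exact Int.natCast_nonneg _

include p in
lemma RS_eq_IS {m n : ℕ} {d : Vx m n →₀ ℕ} (hd : Bal d) : RS K d = IS K d := by
  ext f
  rw [mem_IS]
  unfold RS
  rw [Submodule.mem_inf, Subalgebra.mem_toSubmodule]
  constructor
  · rintro ⟨h1, h2⟩
    exact ⟨h1, Rp_le_Inv K h2⟩
  · rintro ⟨h1, h2⟩
    exact ⟨h1, mem_Rp_of_Inv K p hd h1 h2⟩

end FSig
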