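import Pool.Agent.Lib.FSig.USplit

/-!
# MP_05de8f_ag : the components of a `U`-invariant (module UEcf)

* `E_free`: `E^(k)` maps `S d w`, `d v = 0`, into `S d (w+2k)`, so it stays free of `v`.
* `E_cf`: if `E^(k) f = 0` for all `k ≥ 1` (`f ∈ S (d + D e_v) w`, `d v = 0`) then `E^(m) (cf v i f) = (-1)^m binom(m+i, i) cf v (m+i) f`.
  Put `f_q = cf v q f` (`0` for `q > D`). `E^(k)(a_v^(D-q) b_v^q f_q) = ∑_i binom(q,i) a_v^(D-q+i) b_v^(q-i) E^(k-i) f_q` (`E_mul`, and
  `E^(i) (b_v^q) = binom(q,i) a_v^i b_v^(q-i)`, `E^(i) (a_v^q) = 0` for `i ≥ 1`). So the coefficient of `a_v^(D-j) b_v^j` of `E^(k) f = 0` is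
  `∑_i binom(j+i,i) E^(k-i) f_(j+i) = 0` for all `j` and `k ≥ 1`. Induct on `m` (all `i`): with `k = m`, `j = i`,
  `E^(m) f_i = - ∑_{l=1}^{m} binom(i+l,l) E^(m-l) f_(i+l) = - ∑_l binom(i+l,l) (-1)^(m-l) binom(m+i,i+l) f_(m+i)`
  `= - binom(m+i,i) f_(m+i) ∑_{l=1}^m (-1)^(m-l) binom(m,l) = (-1)^m binom(m+i,i) f_(m+i)` since `∑_{l=0}^m (-1)^(m-l) binom(m,l) = 0` for `m ≥ 1`.
  Note: for `q > D` use `cf v q f = 0`.
* `F_cf`-type statements are not needed.
-/

namespace FSig

open MvPolynomial Finset

variable {V : Type*} [DecidableEq V] (K : Type*) [CommRing K]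

variable {d : V →₀ ℕ} {v : V} (hv : d v = 0) {D : ℕ} {w : ℤ}

omit [DecidableEq V] in
private lemma uecf_E_mono (v : V) (s q i : ℕ) :
    E K i (va K v ^ s * vb K v ^ q) = q.choose i • (va K v ^ (s + i) * vb K v ^ (q - i)) := by
  have h1 : Et K (va K v ^ s * vb K v ^ q) = ∑ m ∈ range (q + 1),
      Polynomial.C (q.choose m • (va K v ^ (s + m) * vb K v ^ (q - m))) * Polynomial.X ^ m := by
    rw [map_mul, map_pow, map_pow, Et_va, Et_vb, add_comm (Polynomial.C (vb K v)), add_pow,
      Finset.mul_sum]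
    refine Finset.sum_congr rfl fun m _ => ?_
    rw [nsmul_eq_mul]
    simp only [Polynomial.C_mul, Polynomial.C_pow, Polynomial.C_eq_natCast, pow_add, map_natCast]
    ring
  rw [E_apply, h1, Polynomial.finset_sum_coeff]
  simp only [Polynomial.coeff_C_mul_X_pow]
  rw [Finset.sum_ite_eq]
  split_ifs with h
  · rfl
  · rw [mem_range, not_lt] at h
    rw [Nat.choose_eq_zero_of_lt (by omega), zero_smul]

omit [DecidableEq V] in
private lemma uecf_E_term (v : V) (k D q : ℕ) (g : T V K) :
    E K k (va K v ^ (D - q) * vb K v ^ q * g) = ∑ i ∈ range (k + 1),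
      q.choose i • (va K v ^ (D - q + i) * vb K v ^ (q - i) * E K (k - i) g) := by
  rw [E_mul, Finset.Nat.sum_antidiagonal_eq_sum_range_succ
    (fun a b => E K a (va K v ^ (D - q) * vb K v ^ q) * E K b g) k]
  refine Finset.sum_congr rfl fun i _ => ?_
  rw [uecf_E_mono, smul_mul_assoc]

include hv

private lemma uecf_rel {f : T V K} (hf : f ∈ S K (d + Finsupp.single v D) w) (k j : ℕ) :
    cf K v j (E K k f) =
      ∑ i ∈ range (k + 1), (j + i).choose i • E K (k - i) (cf K v (j + i) f) := by
  conv_lhs => rw [cf_expand K hv hf]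
  rw [map_sum, map_sum]
  simp only [uecf_E_term, map_sum, map_nsmul]
  rw [Finset.sum_comm]
  refine Finset.sum_congr rfl fun i _ => ?_
  have h1 : ∀ q, cf K v j (va K v ^ (D - q + i) * vb K v ^ (q - i) *
      E K (k - i) (cf K v q f)) = if q - i = j then E K (k - i) (cf K v q f) else 0 := by
    intro q
    exact cf_of_free K hv (E_mem_S K (cf_mem K hv hf q) (k - i)) _ _ _
  simp only [h1]
  by_cases hD : j + i ≤ D
  · rw [Finset.sum_eq_single (j + i)]
    · rw [if_pos (by omega)]
    · intro q _ hq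
      by_cases h2 : q < i
      · rw [Nat.choose_eq_zero_of_lt h2, zero_smul]
      · rw [if_neg (by omega), smul_zero]
    · intro h
      exact absurd (mem_range.2 (by omega)) h
  · rw [cf_eq_zero K hv hf (by omega), map_zero, smul_zero]
    refine Finset.sum_eq_zero fun q hq => ?_
    rw [mem_range] at hq
    by_cases h2 : q < i
    · rw [Nat.choose_eq_zero_of_lt h2, zero_smul]
    · rw [if_neg (by omega), smul_zero]

theorem E_cf {f : T V K} (hf : f ∈ S K (d + Finsupp.single v D) w) (hE : ∀ k, 1 ≤ k → E K k f = 0)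
    (m i : ℕ) : E K m (cf K v i f) = ((-1) ^ m * ((m + i).choose i : ℤ)) • cf K v (m + i) f := by
  induction m using Nat.strong_induction_on generalizing i with
  | _ m ih =>
    rcases Nat.eq_zero_or_pos m with rfl | hm
    · rw [E_zero, zero_add, Nat.choose_self, pow_zero, Nat.cast_one, mul_one, one_smul]
    · have h1 := uecf_rel K hv hf m i
      rw [hE m hm, map_zero, Finset.sum_range_succ', add_zero, Nat.choose_zero_right, one_smul,
        Nat.sub_zero] at h1
      have h2 : ∀ l ∈ range m, (i + (l + 1)).choose (l + 1) •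
          E K (m - (l + 1)) (cf K v (i + (l + 1)) f) =
          (((i + (l + 1)).choose (l + 1) : ℤ) *
            ((-1) ^ (m - (l + 1)) * ((m + i).choose (i + (l + 1)) : ℤ))) • cf K v (m + i) f := by
        intro l hl
        rw [mem_range] at hl
        rw [ih (m - (l + 1)) (by omega) (i + (l + 1)), mul_smul, natCast_zsmul,
          show m - (l + 1) + (i + (l + 1)) = m + i by omega, mul_smul, mul_smul, natCast_zsmul,
          natCast_zsmul]
      rw [Finset.sum_congr rfl h2, ← Finset.sum_smul] at h1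
      have h3 : ∑ l ∈ range m, (((i + (l + 1)).choose (l + 1) : ℤ) *
            ((-1) ^ (m - (l + 1)) * ((m + i).choose (i + (l + 1)) : ℤ))) =
          -((-1) ^ m * ((m + i).choose i : ℤ)) := by
        have h4 : ∀ l ∈ range m, (((i + (l + 1)).choose (l + 1) : ℤ) *
            ((-1) ^ (m - (l + 1)) * ((m + i).choose (i + (l + 1)) : ℤ))) =
            ((m + i).choose i : ℤ) * (-1) ^ m * ((-1) ^ (l + 1) * (m.choose (l + 1) : ℤ)) := by
          intro l hl
          rw [mem_range] at hl
          have h5 : ((m + i).choose (i + (l + 1)) : ℤ) * ((i + (l + 1)).choose (l + 1) : ℤ) =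
              ((m + i).choose i : ℤ) * (m.choose (l + 1) : ℤ) := by
            have h6 := Nat.choose_mul (n := m + i) (k := i + (l + 1)) (s := i) (by omega)
            rw [Nat.add_sub_cancel_left, Nat.add_sub_cancel, Nat.choose_symm_add] at h6
            exact_mod_cast h6
          have h7 : ((-1 : ℤ)) ^ (m - (l + 1)) = (-1) ^ m * (-1) ^ (l + 1) := by
            have h8 : ((-1 : ℤ)) ^ (m - (l + 1)) * (-1) ^ (l + 1) = (-1) ^ m := by
              rw [← pow_add, Nat.sub_add_cancel (by omega)]
            rw [← h8, mul_assoc, ← mul_pow, neg_one_mul, neg_neg, one_pow, mul_one]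
          rw [h7]
          linear_combination ((-1) ^ m * (-1) ^ (l + 1)) * h5
        rw [Finset.sum_congr rfl h4, ← Finset.mul_sum]
        have h9 := Int.alternating_sum_range_choose (n := m)
        rw [if_neg (by omega), Finset.sum_range_succ', pow_zero, Nat.choose_zero_right,
          Nat.cast_one, mul_one] at h9
        linear_combination ((m + i).choose i : ℤ) * (-1) ^ m * h9
      rw [h3, neg_smul] at h1
      exact (neg_add_eq_zero.1 h1.symm).symm

end FSig
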