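import Pool.Agent.Lib.FSig.LamRec
import Pool.Agent.Lib.FSig.OpsLam
import Pool.Agent.Lib.FSig.UEcf
import Pool.Agent.Lib.FSig.UDim
import Pool.Agent.Lib.FSig.Rec2

/-!
# LamEdge: `lam = inv` if some `d_v = p - 1`; one vector

`lamS_le_IS`: `lamS_le` and the definition of `IS`. So `0 ≤ lamN ≤ invN` (`finrank_Inv`, `Submodule.finrank_mono`; `IS` is finite-dimensional, as a submodule of `S d 0`).
`exists_Lam_edge`: `d v = p - 1`, `f ∈ IS d`. Put `c = d.erase v`, `d = c + single v (p-1)`, `c v = 0`, `g = cf v 0 f ∈ S c (-(p-1))` (`cf_mem`, weight `0 - (p-1) + 0`). Claim: `f = Lam (a_v^(p-1) g)`.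
(a) `f = ∑_{q ≤ p-1} a_v^(p-1-q) b_v^q (cf v q f)` (`cf_expand`) and `E^(q) g = (-1)^q cf v q f` (`E_cf` with `i = 0`, `m = q`, `binom(q,0) = 1`; `hE` by `mem_Inv_iff`).
(b) `F^(k) g = 0` for `k ≥ 1`: take the coefficient `cf v 0` of `F^(k) f = 0`: `F^(k) (a_v^(p-1-q) b_v^q f_q) = ∑ F^(i)(a_v^(p-1-q)) b_v^q F^(k-i) f_q` and `F^(i)(a_v^r) = binom(r,i) a_v^(r-i) b_v^i` (induction), so the part with `b_v^0` is only `q = 0`, `i = 0`: `a_v^(p-1) F^(k) g`. With `cf_of_free` (`F^(k-i) f_q ∈ S c _` by `F_mem_S`): `0 = cf v 0 (F^(k) f) = F^(k) g`.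
(c) `F^(p-1) (a_v^(p-1) g) = F^(p-1)(a_v^(p-1)) g = b_v^(p-1) g` (`F_mul`, (b), only the term with second index `0`).
(d) `E^(p-1)(b_v^(p-1) g) = ∑_{l} E^(l)(b_v^(p-1)) E^(p-1-l) g = ∑_l binom(p-1,l) a_v^l b_v^(p-1-l) E^(p-1-l) g`, `binom(p-1,l) = (-1)^l` in `K` (`Int.ModEq`/`Nat.choose` mod `p`: from `binom(p,l+1) = 0`: induction with Pascal, or `ZMod`), and with `q = p-1-l`, `(-1)^(p-1-q) = (-1)^q` in `K` (`p` odd, or `p = 2` and `-1 = 1`): this is `∑_q a_v^(p-1-q) b_v^q (-1)^q E^(q) g = f` by (a).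
(e) `Lam (a_v^(p-1) g) = E^(p-1) (F^(p-1) (a_v^(p-1) g))` (`EF_eq_Lam`, weight `0`: `a_v^(p-1) g ∈ S d 0` by `free_mem` or `mul_mem_S`).
`lamN_edge`: `lamS = IS`, `finrank_Inv`.
`lamN_single`: `k ≥ 1`: `0 ≤ lamN ≤ invN (single v k) = 0` (`invN_single` of module Rec2). `k = 0`: `S 0 0` consists of constants (`mem_S_iff`: only the monomial `0`) and `Lam (C c) = F^(p-1) (E^(p-1) (C c)) = 0` (`E_C`, `p - 1 ≥ 1`), so `lamS = ⊥`.
-/

namespace FSig

open MvPolynomial Finset

private lemma lamE_coeff {A : Type*} [CommRing A] (a b : A) (r i : ℕ) :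
    ((Polynomial.C a + Polynomial.X * Polynomial.C b) ^ r).coeff i =
      (r.choose i : A) * (a ^ (r - i) * b ^ i) := by
  rw [add_comm, add_pow, Polynomial.finsetSum_coeff]
  have h : ∀ m ∈ range (r + 1), ((Polynomial.X * Polynomial.C b) ^ m * Polynomial.C a ^ (r - m) *
      ((r.choose m : ℕ) : Polynomial A)).coeff i =
      if i = m then (r.choose m : A) * (a ^ (r - m) * b ^ m) else 0 := by
    intro m _
    have h1 : (Polynomial.X * Polynomial.C b) ^ m * Polynomial.C a ^ (r - m) *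
        ((r.choose m : ℕ) : Polynomial A) =
        Polynomial.C ((r.choose m : A) * (a ^ (r - m) * b ^ m)) * Polynomial.X ^ m := by
      rw [mul_pow, ← Polynomial.C_pow, ← Polynomial.C_pow, ← Polynomial.C_eq_natCast,
        Polynomial.C_mul, Polynomial.C_mul]
      ring
    rw [h1, Polynomial.coeff_C_mul_X_pow]
  rw [Finset.sum_congr rfl h, Finset.sum_ite_eq]
  split_ifs with h2
  · rfl
  · rw [Finset.mem_range] at h2
    rw [Nat.choose_eq_zero_of_lt (by omega)]
    simp

variable {V : Type*} [DecidableEq V] (K : Type*) [Field K] (p : ℕ) [Fact p.Prime] [CharP K p]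

omit [DecidableEq V] in
private lemma lamE_F_va (v : V) (r i : ℕ) :
    F K i (va K v ^ r) = (r.choose i : T V K) * (va K v ^ (r - i) * vb K v ^ i) := by
  rw [F_apply, map_pow, Ft_va, lamE_coeff]

omit [DecidableEq V] in
private lemma lamE_E_vb (v : V) (r i : ℕ) :
    E K i (vb K v ^ r) = (r.choose i : T V K) * (vb K v ^ (r - i) * va K v ^ i) := by
  rw [E_apply, map_pow, Et_vb, lamE_coeff]

omit [DecidableEq V] in
private lemma lamE_F_vb (v : V) (r i : ℕ) (h : T V K) :
    F K i (vb K v ^ r * h) = vb K v ^ r * F K i h := by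
  rw [F_apply, map_mul, map_pow, Ft_vb, ← Polynomial.C_pow, Polynomial.coeff_C_mul]
  rfl

private lemma lamE_cf {c : V →₀ ℕ} {v : V} (hc : c v = 0) {z : ℤ} {h : T V K} (hh : h ∈ S K c z)
    (r q k : ℕ) : cf K v 0 (F K k (va K v ^ r * vb K v ^ q * h)) = if q = 0 then F K k h else 0 := by
  have h1 : va K v ^ r * vb K v ^ q * h = vb K v ^ q * (va K v ^ r * h) := by ring
  rw [h1, lamE_F_vb, F_mul, Finset.mul_sum, map_sum]
  have h2 : ∀ ij ∈ antidiagonal k, cf K v 0 (vb K v ^ q * (F K ij.1 (va K v ^ r) * F K ij.2 h)) =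
      if q = 0 ∧ ij.1 = 0 then F K ij.2 h else 0 := by
    intro ij _
    have h3 : vb K v ^ q * (F K ij.1 (va K v ^ r) * F K ij.2 h) =
        (r.choose ij.1) • (va K v ^ (r - ij.1) * vb K v ^ (q + ij.1) * F K ij.2 h) := by
      rw [lamE_F_va, nsmul_eq_mul, pow_add]
      ring
    rw [h3, map_nsmul, cf_of_free K hc (F_mem_S K hh ij.2)]
    by_cases h4 : q = 0 ∧ ij.1 = 0
    · rw [if_pos h4, if_pos (by omega), h4.2, Nat.choose_zero_right, one_smul]
    · rw [if_neg h4, if_neg (by omega), smul_zero]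
  rw [Finset.sum_congr rfl h2]
  by_cases hq : q = 0
  · rw [if_pos hq, Finset.sum_eq_single (0, k)]
    · rw [if_pos ⟨hq, rfl⟩]
    · rintro ⟨i, j⟩ hij hne
      rw [Finset.HasAntidiagonal.mem_antidiagonal] at hij
      rw [if_neg]
      rintro ⟨_, h6⟩
      apply hne
      simp only at h6 hij
      rw [Prod.mk.injEq]
      exact ⟨h6, by omega⟩
    · intro h5
      exfalso
      apply h5
      rw [Finset.HasAntidiagonal.mem_antidiagonal]
      exact zero_add k
  · rw [if_neg hq]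
    exact Finset.sum_eq_zero fun ij _ => if_neg fun h => hq h.1

omit [DecidableEq V] in
private lemma lamE_choose (l : ℕ) (hl : l ≤ p - 1) :
    (((p - 1).choose l : ℕ) : T V K) = (-1) ^ l := by
  have hp : 0 < p := (Fact.out : p.Prime).pos
  have : CharP (T V K) p := inferInstance
  induction l with
  | zero => simp
  | succ l ih =>
    have h1 : p.choose (l + 1) = (p - 1).choose l + (p - 1).choose (l + 1) := by
      have h2 : p = (p - 1) + 1 := by omega
      conv_lhs => rw [h2]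
      exact Nat.choose_succ_succ _ _
    have h3 : ((p.choose (l + 1) : ℕ) : T V K) = 0 := by
      rw [CharP.cast_eq_zero_iff (T V K) p]
      exact (Fact.out : p.Prime).dvd_choose_self (by omega) (by omega)
    rw [h1, Nat.cast_add, ih (by omega)] at h3
    rw [pow_succ]
    linear_combination h3

omit [DecidableEq V] in
private lemma lamE_neg_one : (-1 : T V K) ^ (p - 1) = 1 := by
  have hp : 0 < p := (Fact.out : p.Prime).pos
  have h1 : ((p - 1).choose (p - 1) : ℕ) = 1 := Nat.choose_self _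
  have h2 := lamE_choose (V := V) K p (p - 1) le_rfl
  rw [h1, Nat.cast_one] at h2
  exact h2.symm

omit [Fact p.Prime] [CharP K p] in
lemma lamS_le_IS (d : V →₀ ℕ) : lamS K p d ≤ IS K d := by
  unfold IS
  exact le_inf (lamS_le K p d) inf_le_right

omit [DecidableEq V] in
lemma lamN_nonneg (d : V →₀ ℕ) : 0 ≤ lamN K p d := by
  unfold lamN
  exact Int.natCast_nonneg _

lemma lamN_le (d : V →₀ ℕ) : lamN K p d ≤ invN d := by
  rw [← finrank_Inv K p d]
  unfold lamN
  have h1 : IS K d ≤ S K d 0 := inf_le_left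
  have h2 : Module.Finite K (S K d 0) := finite_S K d 0
  have h3 : Module.Finite K (IS K d) := Submodule.finiteDimensional_of_le h1
  exact_mod_cast Submodule.finrank_mono (lamS_le_IS K p d)

theorem exists_Lam_edge {d : V →₀ ℕ} {v : V} (hv : d v = p - 1) {f : T V K} (hf : f ∈ IS K d) :
    ∃ u ∈ S K d 0, Lam K p u = f := by
  have hp : 0 < p := (Fact.out : p.Prime).pos
  obtain ⟨c, hc, hd⟩ : ∃ c : V →₀ ℕ, c v = 0 ∧ d = c + Finsupp.single v (p - 1) := by
    refine ⟨d.erase v, Finsupp.erase_same, ?_⟩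
    rw [← hv, Finsupp.erase_add_single]
  obtain ⟨hfS, hfI⟩ := (mem_IS K).1 hf
  rw [mem_Inv_iff] at hfI
  rw [hd] at hfS
  set g : T V K := cf K v 0 f with hg
  have hgS : g ∈ S K c (0 - ((p - 1 : ℕ) : ℤ) + 2 * ((0 : ℕ) : ℤ)) := cf_mem K hc hfS 0
  have hE : ∀ q, cf K v q f = (-1) ^ q * E K q g := by
    intro q
    have h1 := E_cf K hc hfS (fun k hk => (hfI k hk).1) q 0
    rw [add_zero, Nat.choose_zero_right, Nat.cast_one, mul_one] at h1
    rw [hg, h1, zsmul_eq_mul]
    push_cast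
    rw [← mul_assoc, ← mul_pow, neg_one_mul, neg_neg, one_pow, one_mul]
  have hF : ∀ k, 1 ≤ k → F K k g = 0 := by
    intro k hk
    have h1 : cf K v 0 (F K k f) = F K k g := by
      have h2 : F K k f = ∑ q ∈ range (p - 1 + 1),
          F K k (va K v ^ (p - 1 - q) * vb K v ^ q * cf K v q f) := by
        conv_lhs => rw [cf_expand K hc hfS]
        rw [map_sum]
      rw [h2, map_sum, Finset.sum_eq_single 0]
      · rw [lamE_cf K hc (cf_mem K hc hfS 0), if_pos rfl]
      · intro q _ hq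
        rw [lamE_cf K hc (cf_mem K hc hfS q), if_neg hq]
      · intro h3
        exfalso
        apply h3
        rw [Finset.mem_range]
        omega
    rw [← h1, (hfI k hk).2, map_zero]
  have hu : va K v ^ (p - 1) * g ∈ S K d 0 := by
    have h1 := free_mem K hc hgS (D := p - 1) (q := 0) (Nat.zero_le _)
    rw [Nat.sub_zero, pow_zero, mul_one, ← hd] at h1
    have h2 : (0 - ((p - 1 : ℕ) : ℤ) + 2 * ((0 : ℕ) : ℤ)) + ((p - 1 : ℕ) : ℤ) - 2 * ((0 : ℕ) : ℤ) = 0 := by
      push_cast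
      ring
    rwa [h2] at h1
  refine ⟨va K v ^ (p - 1) * g, hu, ?_⟩
  rw [← EF_eq_Lam K p hu (dvd_zero _)]
  have h1 : F K (p - 1) (va K v ^ (p - 1) * g) = vb K v ^ (p - 1) * g := by
    rw [F_mul, Finset.sum_eq_single (p - 1, 0)]
    · simp only
      rw [lamE_F_va, F_zero, Nat.choose_self, Nat.sub_self]
      simp
    · rintro ⟨i, j⟩ hij hne
      rw [Finset.HasAntidiagonal.mem_antidiagonal] at hij
      simp only at hij ⊢
      rcases Nat.eq_zero_or_pos j with h2 | h2
      · exfalso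
        apply hne
        rw [Prod.mk.injEq]
        exact ⟨by omega, h2⟩
      · rw [hF j h2, mul_zero]
    · intro h3
      exfalso
      apply h3
      rw [Finset.HasAntidiagonal.mem_antidiagonal]
      exact add_zero _
  rw [h1, E_mul]
  conv_rhs => rw [cf_expand K hc hfS]
  rw [Finset.Nat.sum_antidiagonal_eq_sum_range_succ_mk, ← Finset.sum_range_reflect]
  refine Finset.sum_congr rfl fun q hq => ?_
  rw [Finset.mem_range] at hq
  have h2 : p - 1 + 1 - 1 - q = p - 1 - q := by omega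
  have h3 : p - 1 - (p - 1 - q) = q := by omega
  simp only [h2, h3]
  rw [lamE_E_vb, lamE_choose K p _ (by omega), h3, hE q]
  have h4 : (-1 : T V K) ^ (p - 1 - q) = (-1) ^ q := by
    have h5 : (-1 : T V K) ^ (p - 1 - q) * (-1) ^ q = 1 := by
      rw [← pow_add, Nat.sub_add_cancel (by omega), lamE_neg_one]
    have h6 : (-1 : T V K) ^ q * (-1) ^ q = 1 := by
      rw [← mul_pow, neg_one_mul, neg_neg, one_pow]
    calc (-1 : T V K) ^ (p - 1 - q) = (-1) ^ (p - 1 - q) * ((-1) ^ q * (-1) ^ q) := by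
          rw [h6, mul_one]
      _ = ((-1) ^ (p - 1 - q) * (-1) ^ q) * (-1) ^ q := by ring
      _ = (-1) ^ q := by rw [h5, one_mul]
  rw [h4]
  ring

theorem lamN_edge {d : V →₀ ℕ} {v : V} (hv : d v = p - 1) : lamN K p d = invN d := by
  have h1 : lamS K p d = IS K d := by
    apply le_antisymm (lamS_le_IS K p d)
    intro f hf
    obtain ⟨u, hu, hu2⟩ := exists_Lam_edge K p hv hf
    unfold lamS
    rw [Submodule.mem_inf]
    refine ⟨⟨u, hu, hu2⟩, ?_⟩
    rw [Subalgebra.mem_toSubmodule]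
    exact ((mem_IS K).1 hf).2
  unfold lamN
  rw [h1, finrank_Inv K p d]

theorem lamN_single (v : V) (k : ℕ) : lamN K p (Finsupp.single v k) = 0 := by
  have hp : 2 ≤ p := (Fact.out : p.Prime).two_le
  rcases Nat.eq_zero_or_pos k with rfl | hk
  · rw [Finsupp.single_zero]
    have h1 : lamS K p (0 : V →₀ ℕ) = ⊥ := by
      rw [eq_bot_iff]
      rintro f ⟨⟨x, hx, rfl⟩, -⟩
      rw [Submodule.mem_bot]
      refine S_induction K (fun x => Lam K p x = 0) ?_ ?_ ?_ hx
      · show Lam K p 0 = 0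
        rw [map_zero]
      · intro f g h1 h2
        show Lam K p (f + g) = 0
        rw [map_add, h1, h2, add_zero]
      · intro μ c h _
        have hμ : μ = 0 := by
          ext ⟨u, b⟩
          have := h u
          rw [Finsupp.coe_zero, Pi.zero_apply] at this
          cases b <;> simp only [Finsupp.coe_zero, Pi.zero_apply] <;> omega
        show Lam K p (monomial μ c) = 0
        have h2 : (monomial μ c : T V K) = C c := by rw [hμ]; rfl
        unfold Lam
        rw [h2, LinearMap.comp_apply, E_C K _ (by omega), map_zero]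
    unfold lamN
    rw [h1, finrank_bot]
    rfl
  · apply le_antisymm _ (lamN_nonneg K p _)
    refine (lamN_le K p _).trans ?_
    rw [invN_single, if_neg (by omega)]

end FSig
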