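import Pool.Agent.Lib.FSig.UDim

/-!
# MP_05de8f_ag : invariants of large degree are in the image of `Lam` (section 4, (B), (B')) (module LamImage)

(B) `prod_br_eq_Lam`: `v ∈ V`, `w_1, .., w_p ∈ V` (a function `Fin p → V`), `w_l ≠ v`:  `∏_l [v w_l] = Lam u_X`,
`u_X = a_v b_v^(p-1) b_(w_1) ∏_{l ≥ 2} a_(w_l)`.
PROOF. `E^(p-1) u_X` = coefficient of `t^(p-1)` in `a_v (b_v + t a_v)^(p-1) (b_(w_1) + t a_(w_1)) ∏_{l≥2} a_(w_l)`
`= a_v [a_v^(p-1) b_(w_1) + (p-1) b_v a_v^(p-2) a_(w_1)] ∏ = a_v^(p-1) [v w_1] ∏_{l≥2} a_(w_l)` (`p - 1 = -1`).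
`F^(p-1)` of this: `[v w_1]` is invariant; coefficient of `t^(p-1)` in `(a_v + t b_v)^(p-1) ∏_{l≥2} (a_(w_l) + t b_(w_l))`
`= ∑_k binom(p-1,k) a_v^k b_v^(p-1-k) e_k`, `e_k` = coefficient of `t^k` of `∏_{l≥2}(a_(w_l) + t b_(w_l))` (the first factor contributes `t^(p-1-k)`),
`binom(p-1,k) = (-1)^k` in `K`. And `∑_k (-a_v)^k b_v^(p-1-k) e_k = ∏_{l≥2} (b_v a_(w_l) - a_v b_(w_l)) = ∏_{l≥2} (-[v w_l]) = (-1)^(p-1) ∏ = ∏_{l≥2} [v w_l]`
(homogenisation of the product: general lemma for a commutative ring: `∏_{l ∈ s} (x c_l + y d_l) = ∑_k x^(|s|-k) y^k coeff k (∏ (c_l + t d_l))`, with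
`x = b_v`, `y = -a_v`; `Finset`/`Multiset` induction; sign `(-1)^(p-1) = 1` in characteristic `p`).
(B') `exists_Lam`: `f ∈ Inv ⊓ S d 0`, `p ≤ d v` ⟹ `f = Lam u`, `u ∈ S d 0`.
PROOF. `f ∈ BS d 0` (`mem_Inv_iff_BS`); linear, so `f = bmon 0 M` with `mdeg 0 M = d`; if some pair of `M` is `(u,u)` then `f = 0`. Otherwise at least `p` pairs of `M` contain `v`
(each contains it at most once and `mdeg 0 M v = d v ≥ p`); replacing `(u,v)` by `(v,u)` changes the sign only. So `f = ± g ∏_{l=1}^{p} [v w_l]`, `g` a product of brackets, `g ∈ Inv`,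
`Lam (g u_X) = g Lam u_X` (`Lam_Inv_mul`), `g u_X ∈ S d 0`.
`x11`: for `v ≠ w`: `[v w]^p = Lam (a_v b_v^(p-1) b_w a_w^(p-1))` (all `w_l = w`).
-/

namespace FSig

open MvPolynomial Finset

variable {V : Type*} [DecidableEq V] (K : Type*) [Field K] (p : ℕ) [Fact p.Prime] [CharP K p]

omit [DecidableEq V] in
private lemma LamImage_coeff_lin (a b : T V K) (k : ℕ) (q : Polynomial (T V K)) :
    ((Polynomial.C a + Polynomial.X * Polynomial.C b) * q).coeff (k + 1)
      = a * q.coeff (k + 1) + b * q.coeff k := by
  rw [add_mul, Polynomial.coeff_add, Polynomial.coeff_C_mul, mul_assoc, Polynomial.coeff_X_mul,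
    Polynomial.coeff_C_mul]

omit [DecidableEq V] in
private lemma LamImage_coeff_lin0 (a b : T V K) (q : Polynomial (T V K)) :
    ((Polynomial.C a + Polynomial.X * Polynomial.C b) * q).coeff 0 = a * q.coeff 0 := by
  rw [add_mul, Polynomial.coeff_add, Polynomial.coeff_C_mul, mul_assoc,
    Polynomial.mul_coeff_zero Polynomial.X, Polynomial.coeff_X_zero, zero_mul, add_zero]

omit [DecidableEq V] in
private lemma LamImage_hom (x y : T V K) (W : Multiset (T V K × T V K)) :
    (∀ k, Multiset.card W < k →
      ((W.map fun c : T V K × T V K => Polynomial.C c.1 + Polynomial.X * Polynomial.C c.2).prod).coeff k = 0) ∧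
    (W.map fun c => x * c.1 + y * c.2).prod
      = ∑ k ∈ range (Multiset.card W + 1), x ^ (Multiset.card W - k) * y ^ k *
        ((W.map fun c : T V K × T V K => Polynomial.C c.1 + Polynomial.X * Polynomial.C c.2).prod).coeff k := by
  induction W using Multiset.induction_on with
  | empty =>
    refine ⟨?_, by simp⟩
    intro k hk
    simp only [Multiset.card_zero] at hk
    simp [Polynomial.coeff_one, hk.ne']
  | cons c W ih =>
    obtain ⟨h1, h2⟩ := ih
    simp only [Multiset.map_cons, Multiset.prod_cons, Multiset.card_cons]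
    set P := (W.map fun c : T V K × T V K => Polynomial.C c.1 + Polynomial.X * Polynomial.C c.2).prod with hP
    set n := Multiset.card W with hn
    refine ⟨?_, ?_⟩
    · intro k hk
      obtain ⟨k, rfl⟩ : ∃ j, k = j + 1 := ⟨k - 1, by omega⟩
      rw [LamImage_coeff_lin, h1 (k + 1) (by omega), h1 k (by omega)]
      ring
    · rw [h2]
      conv_rhs => rw [Finset.sum_range_succ', LamImage_coeff_lin0]
      have hA : ∑ k ∈ range (n + 1), x ^ (n + 1 - (k + 1)) * y ^ (k + 1) *
          ((Polynomial.C c.1 + Polynomial.X * Polynomial.C c.2) * P).coeff (k + 1)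
          = ∑ k ∈ range (n + 1), (x ^ (n - k) * y ^ (k + 1) * (c.1 * P.coeff (k + 1)))
            + y * c.2 * ∑ k ∈ range (n + 1), x ^ (n - k) * y ^ k * P.coeff k := by
        rw [Finset.mul_sum, ← Finset.sum_add_distrib]
        refine Finset.sum_congr rfl fun k hk => ?_
        rw [LamImage_coeff_lin, show n + 1 - (k + 1) = n - k by omega]
        ring
      rw [hA]
      have hB : x * c.1 * ∑ k ∈ range (n + 1), x ^ (n - k) * y ^ k * P.coeff k
          = ∑ k ∈ range (n + 1), (x ^ (n - k) * y ^ (k + 1) * (c.1 * P.coeff (k + 1)))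
            + x ^ (n + 1 - 0) * y ^ 0 * (c.1 * P.coeff 0) := by
        conv_rhs => rw [Finset.sum_range_succ, h1 (n + 1) (by omega), mul_zero, mul_zero, add_zero]
        rw [Finset.sum_range_succ', mul_add, Finset.mul_sum]
        refine congrArg₂ (fun a b => a + b) (Finset.sum_congr rfl fun k hk => ?_) ?_
        · rw [Finset.mem_range] at hk
          rw [show n - k = (n - (k + 1)) + 1 by omega]
          ring
        · rw [show n + 1 - 0 = (n - 0) + 1 by omega]
          ring
      rw [add_mul, hB]
      ring

omit [DecidableEq V] in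
private lemma LamImage_pow (a b : T V K) (n k : ℕ) :
    ((Polynomial.C a + Polynomial.X * Polynomial.C b) ^ n).coeff k
      = (n.choose k : T V K) * (a ^ (n - k) * b ^ k) := by
  induction n generalizing k with
  | zero =>
    rcases k with _ | k
    · simp
    · simp [Polynomial.coeff_one]
  | succ n ih =>
    rw [pow_succ']
    rcases k with _ | k
    · rw [LamImage_coeff_lin0, ih]
      simp only [Nat.choose_zero_right, Nat.cast_one, pow_zero, Nat.sub_zero]
      ring
    · rw [LamImage_coeff_lin, ih, ih, Nat.choose_succ_succ, Nat.cast_add,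
        show n + 1 - (k + 1) = n - k by omega]
      rcases Nat.lt_or_ge k n with h | h
      · rw [show n - k = (n - (k + 1)) + 1 by omega]
        ring
      · rw [Nat.choose_eq_zero_of_lt (show n < k + 1 by omega)]
        simp only [Nat.cast_zero]
        ring

include p in
omit [DecidableEq V] in
private lemma LamImage_choose (k : ℕ) (hk : k ≤ p - 1) :
    (((p - 1).choose k : ℕ) : T V K) = (-1) ^ k := by
  have hp : p.Prime := Fact.out
  have h1 : 1 < p := hp.one_lt
  have : CharP (T V K) p := inferInstance
  induction k with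
  | zero => simp
  | succ k ih =>
    have h2 := ih (by omega)
    have h3 : ((p.choose (k + 1) : ℕ) : T V K) = 0 := by
      rw [CharP.cast_eq_zero_iff (T V K) p]
      exact hp.dvd_choose_self (by omega) (by omega)
    have h4 : p.choose (k + 1) = (p - 1).choose k + (p - 1).choose (k + 1) := by
      conv_lhs => rw [show p = (p - 1) + 1 by omega]
      rw [Nat.choose_succ_succ]
    rw [h4, Nat.cast_add, h2] at h3
    rw [pow_succ]
    linear_combination h3

include p in
omit [DecidableEq V] in
private lemma LamImage_neg : ((-1 : T V K)) ^ (p - 1) = 1 := by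
  have hp : p.Prime := Fact.out
  have h := LamImage_choose (V := V) K p (p - 1) le_rfl
  rw [Nat.choose_self, Nat.cast_one] at h
  exact h.symm

omit [DecidableEq V] in
private lemma LamImage_formula (v w0 : V) (W : Multiset V) (hW : Multiset.card W = p - 1) :
    Lam K p (va K v * vb K v ^ (p - 1) * (vb K w0 * (W.map (va K)).prod))
      = br K v w0 * (W.map (br K v)).prod := by
  have hp : p.Prime := Fact.out
  have h1 : 1 < p := hp.one_lt
  have : CharP (T V K) p := inferInstance
  obtain ⟨n, hn⟩ : ∃ n, p = n + 2 := ⟨p - 2, by omega⟩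
  have hpn : p - 1 = n + 1 := by omega
  -- step 1
  have hE : E K (p - 1) (va K v * vb K v ^ (p - 1) * (vb K w0 * (W.map (va K)).prod))
      = br K v w0 * (va K v ^ (p - 1) * (W.map (va K)).prod) := by
    rw [E_apply]
    have hm : Et K ((W.map (va K)).prod) = Polynomial.C ((W.map (va K)).prod) := by
      clear hW
      induction W using Multiset.induction_on with
      | empty => simp
      | cons c W ih => rw [Multiset.map_cons, Multiset.prod_cons, map_mul, ih, Et_va,
          Polynomial.C_mul]
    rw [map_mul, map_mul, map_mul, map_pow, hm, Et_va, Et_vb, Et_vb]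
    have h2 : Polynomial.C (va K v) *
          (Polynomial.C (vb K v) + Polynomial.X * Polynomial.C (va K v)) ^ (p - 1) *
          ((Polynomial.C (vb K w0) + Polynomial.X * Polynomial.C (va K w0)) *
            Polynomial.C ((W.map (va K)).prod))
        = Polynomial.C (va K v * (W.map (va K)).prod) *
          ((Polynomial.C (vb K w0) + Polynomial.X * Polynomial.C (va K w0)) *
          (Polynomial.C (vb K v) + Polynomial.X * Polynomial.C (va K v)) ^ (p - 1)) := by
      rw [Polynomial.C_mul]
      ring
    rw [h2, Polynomial.coeff_C_mul, hpn, LamImage_coeff_lin, LamImage_pow, LamImage_pow,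
      Nat.choose_self, Nat.choose_succ_self_right]
    have h3 : (((n + 1 : ℕ)) : T V K) = -1 := by
      have : ((p : ℕ) : T V K) = 0 := CharP.cast_eq_zero _ p
      rw [hn] at this
      push_cast at this ⊢
      linear_combination this
    rw [h3, Nat.sub_self, show n + 1 - n = 1 by omega]
    unfold br
    push_cast
    ring
  unfold Lam
  rw [LinearMap.comp_apply, hE, F_Inv_mul K (br_mem_Inv K v w0)]
  refine congrArg (fun z => br K v w0 * z) ?_
  rw [F_apply, map_mul, map_pow, Ft_va]
  have hm : ∀ W : Multiset V, Ft K ((W.map (va K)).prod) =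
      ((W.map fun w => (va K w, vb K w)).map
        fun c : T V K × T V K => Polynomial.C c.1 + Polynomial.X * Polynomial.C c.2).prod := by
    intro W
    rw [map_multiset_prod, Multiset.map_map, Multiset.map_map]
    refine congrArg Multiset.prod ?_
    refine Multiset.map_congr rfl fun w _ => ?_
    simp only [Function.comp]
    exact Ft_va K w
  rw [hm]
  have hh := (LamImage_hom K (vb K v) (-va K v) (W.map fun w => (va K w, vb K w))).2
  rw [Multiset.card_map, hW] at hh
  rw [Polynomial.coeff_mul, Finset.Nat.sum_antidiagonal_eq_sum_range_succ_mk]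
  have h5 : (W.map (br K v)).prod = ((W.map fun w => (va K w, vb K w)).map
      fun c => vb K v * c.1 + -va K v * c.2).prod := by
    rw [Multiset.map_map]
    have h6 : (W.map ((fun c : T V K × T V K => vb K v * c.1 + -va K v * c.2) ∘
        fun w => (va K w, vb K w))) = (W.map fun w => (-1 : T V K) * br K v w) := by
      refine Multiset.map_congr rfl fun w _ => ?_
      simp only [Function.comp, br]
      ring
    rw [h6, Multiset.prod_map_mul, Multiset.map_const', Multiset.prod_replicate, hW,
      LamImage_neg K p, one_mul]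
  rw [h5, hh, ← Finset.sum_range_reflect]
  refine Finset.sum_congr rfl fun k hk => ?_
  rw [Finset.mem_range] at hk
  rw [show p - 1 + 1 - 1 - k = p - 1 - k by omega, LamImage_pow]
  rw [show p - 1 - (p - 1 - k) = k by omega, Nat.choose_symm (show k ≤ p - 1 by omega),
    LamImage_choose K p k (by omega)]
  rw [neg_pow (va K v) k]
  ring

omit [DecidableEq V] in
private lemma LamImage_prod_mem (W : Multiset V) :
    (W.map (va K)).prod ∈ S K (W.map fun x => Finsupp.single x 1).sum (Multiset.card W) := by
  induction W using Multiset.induction_on with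
  | empty => simpa using one_mem_S (V := V) K
  | cons c W ih =>
    simp only [Multiset.map_cons, Multiset.prod_cons, Multiset.sum_cons, Multiset.card_cons]
    have := mul_mem_S K (va_mem_S K c) ih
    have h2 : (((Multiset.card W + 1 : ℕ)) : ℤ) = 1 + (Multiset.card W : ℤ) := by push_cast; ring
    rw [h2]
    exact this

private lemma LamImage_exists (v : V) (W : Multiset V) (hW : Multiset.card W = p) :
    ∃ u ∈ S K (p • Finsupp.single v 1 + (W.map fun x => Finsupp.single x 1).sum) 0,
      Lam K p u = (W.map (br K v)).prod := by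
  have hp : p.Prime := Fact.out
  have h1 : 1 < p := hp.one_lt
  obtain ⟨w0, hw0⟩ : ∃ w0, w0 ∈ W := by
    refine Multiset.card_pos_iff_exists_mem.1 ?_
    omega
  obtain ⟨W', rfl⟩ := Multiset.exists_cons_of_mem hw0
  rw [Multiset.card_cons] at hW
  refine ⟨va K v * vb K v ^ (p - 1) * (vb K w0 * (W'.map (va K)).prod), ?_, ?_⟩
  rotate_left
  · rw [LamImage_formula K p v w0 W' (by omega), Multiset.map_cons, Multiset.prod_cons]
  · have h2 := mul_mem_S K (mul_mem_S K (va_mem_S K v) (pow_mem_S K (vb_mem_S K v) (p - 1)))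
      (mul_mem_S K (vb_mem_S K w0) (LamImage_prod_mem K W'))
    have hc : Multiset.card W' = p - 1 := by omega
    rw [hc] at h2
    have h3 : Finsupp.single v 1 + (p - 1) • Finsupp.single v 1 +
        (Finsupp.single w0 1 + (W'.map fun x => Finsupp.single x 1).sum)
        = p • Finsupp.single v 1 + ((w0 ::ₘ W').map fun x => Finsupp.single x 1).sum := by
      rw [Multiset.map_cons, Multiset.sum_cons]
      congr 1
      conv_rhs => rw [show p = 1 + (p - 1) by omega, add_smul, one_smul]
    have h4 : (1 : ℤ) + ((p - 1 : ℕ) : ℤ) * (-1) + (-1 + ((p - 1 : ℕ) : ℤ)) = 0 := by ring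
    rw [h3, h4] at h2
    exact h2

theorem prod_br_eq_Lam (v : V) (w : Fin p → V) (hw : ∀ l, w l ≠ v) :
    ∃ u ∈ S K (p • Finsupp.single v 1 + ∑ l, Finsupp.single (w l) 1) 0,
      Lam K p u = ∏ l, br K v (w l) := by
  have h := LamImage_exists K p v ((Finset.univ : Finset (Fin p)).val.map w) (by simp)
  rw [Multiset.map_map, Multiset.map_map] at h
  exact h

theorem br_pow_eq_Lam {v w : V} (h : w ≠ v) :
    Lam K p (va K v * vb K v ^ (p - 1) * (vb K w * va K w ^ (p - 1))) = br K v w ^ p := by
  have hp : p.Prime := Fact.out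
  have h1 : 1 < p := hp.one_lt
  have h2 := LamImage_formula K p v w (Multiset.replicate (p - 1) w) (by simp)
  rw [Multiset.map_replicate, Multiset.map_replicate, Multiset.prod_replicate,
    Multiset.prod_replicate] at h2
  rw [h2, ← pow_succ', show p - 1 + 1 = p by omega]

omit [DecidableEq V] in
private lemma LamImage_bmon_cons (x : V × V) (M : Multiset (V × V)) :
    bmon K 0 (x ::ₘ M) = br K x.1 x.2 * bmon K 0 M := by
  unfold bmon
  rw [Multiset.map_cons, Multiset.prod_cons]
  ring

private lemma LamImage_mdeg_cons (x : V × V) (M : Multiset (V × V)) :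
    mdeg 0 (x ::ₘ M) = Finsupp.single x.1 1 + Finsupp.single x.2 1 + mdeg 0 M := by
  unfold mdeg
  rw [Multiset.map_cons, Multiset.map_cons, zero_add, zero_add,
    ← Multiset.toFinsupp_singleton, ← Multiset.toFinsupp_singleton, ← map_add, ← map_add]
  congr 1
  rw [← Multiset.singleton_add, ← Multiset.singleton_add]
  abel

private lemma LamImage_extract (v : V) (M : Multiset (V × V)) :
    bmon K 0 M = 0 ∨ ∃ (W : Multiset V) (e : V →₀ ℕ) (g : T V K), g ∈ Inv (V := V) K ∧
      g ∈ S K e 0 ∧ e v = 0 ∧ (∀ y ∈ W, y ≠ v) ∧ bmon K 0 M = g * (W.map (br K v)).prod ∧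
      mdeg 0 M = e + Multiset.card W • Finsupp.single v 1
        + (W.map fun x => Finsupp.single x 1).sum := by
  induction M using Multiset.induction_on with
  | empty =>
    right
    refine ⟨0, 0, 1, one_mem _, one_mem_S K, rfl, by simp, by simp [bmon], by simp [mdeg]⟩
  | cons x M ih =>
    rw [LamImage_bmon_cons, LamImage_mdeg_cons]
    obtain ih | ⟨W, e, g, hg, hgS, hev, hWv, hM, hd⟩ := ih
    · left
      rw [ih, mul_zero]
    obtain ⟨x, y⟩ := x
    dsimp only
    by_cases hxy : x = y
    · left
      subst hxy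
      unfold br
      ring
    right
    by_cases hx : x = v
    · subst hx
      refine ⟨y ::ₘ W, e, g, hg, hgS, hev, ?_, ?_, ?_⟩
      · intro z hz
        rw [Multiset.mem_cons] at hz
        obtain rfl | hz := hz
        · exact fun h => hxy h.symm
        · exact hWv z hz
      · rw [hM, Multiset.map_cons, Multiset.prod_cons]
        ring
      · rw [hd, Multiset.map_cons, Multiset.sum_cons, Multiset.card_cons, add_smul, one_smul]
        abel
    by_cases hy : y = v
    · subst hy
      refine ⟨x ::ₘ W, e, -g, neg_mem hg, neg_mem hgS, hev, ?_, ?_, ?_⟩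
      · intro z hz
        rw [Multiset.mem_cons] at hz
        obtain rfl | hz := hz
        · exact hxy
        · exact hWv z hz
      · rw [hM, Multiset.map_cons, Multiset.prod_cons]
        have : br K x y = - br K y x := by unfold br; ring
        rw [this]
        ring
      · rw [hd, Multiset.map_cons, Multiset.sum_cons, Multiset.card_cons, add_smul, one_smul]
        abel
    · refine ⟨W, Finsupp.single x 1 + Finsupp.single y 1 + e, br K x y * g,
        mul_mem (br_mem_Inv K x y) hg, ?_, ?_, hWv, ?_, ?_⟩
      · have := mul_mem_S K (br_mem_S K x y) hgS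
        rwa [add_zero] at this
      · rw [Finsupp.add_apply, Finsupp.add_apply, hev, Finsupp.single_eq_of_ne (Ne.symm hx),
          Finsupp.single_eq_of_ne (Ne.symm hy), add_zero, add_zero]
      · rw [hM]
        ring
      · rw [hd]
        abel

omit [DecidableEq V] in
private lemma LamImage_sum_apply (v : V) (W : Multiset V) (hW : ∀ y ∈ W, y ≠ v) :
    ((W.map fun x => Finsupp.single x 1).sum : V →₀ ℕ) v = 0 := by
  induction W using Multiset.induction_on with
  | empty => simp
  | cons c W ih =>
    rw [Multiset.map_cons, Multiset.sum_cons, Finsupp.add_apply,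
      Finsupp.single_eq_of_ne (Ne.symm (hW c (Multiset.mem_cons_self c W))),
      ih fun y hy => hW y (Multiset.mem_cons_of_mem hy)]

/-- (B') -/
theorem exists_Lam {d : V →₀ ℕ} {v : V} (hv : p ≤ d v) {f : T V K} (hf : f ∈ IS K d) :
    ∃ u ∈ S K d 0, Lam K p u = f := by
  obtain ⟨hf1, hf2⟩ := (mem_IS K).1 hf
  rw [mem_Inv_iff_BS K p hf1] at hf2
  have key : BS K d 0 ≤ (S K d 0).map (Lam K p) := by
    unfold BS
    rw [Submodule.span_le]
    rintro _ ⟨L, M, hL, hd, rfl⟩
    have hL0 : L = 0 := Multiset.card_eq_zero.1 hL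
    subst hL0
    obtain h0 | ⟨W, e, g, hg, hgS, hev, hWv, hM, hdd⟩ := LamImage_extract K v M
    · rw [h0]
      exact zero_mem _
    have hcard : d v = Multiset.card W := by
      rw [← hd, hdd, Finsupp.add_apply, Finsupp.add_apply, hev, LamImage_sum_apply v W hWv,
        Finsupp.smul_apply, Finsupp.single_eq_same]
      simp
    obtain ⟨W1, hW1, hc1⟩ : ∃ W1 ≤ W, Multiset.card W1 = p := by
      have hpos : 0 < Multiset.card (Multiset.powersetCard p W) := by
        rw [Multiset.card_powersetCard]
        exact Nat.choose_pos (by omega)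
      obtain ⟨W1, h1⟩ := Multiset.card_pos_iff_exists_mem.1 hpos
      exact ⟨W1, Multiset.mem_powersetCard.1 h1⟩
    obtain ⟨W2, rfl⟩ := Multiset.le_iff_exists_add.1 hW1
    obtain ⟨u, hu, hLu⟩ := LamImage_exists K p v W1 hc1
    have hinv : g * (W2.map (br K v)).prod ∈ Inv (V := V) K := by
      refine mul_mem hg ?_
      refine multiset_prod_mem _ ?_
      intro x hx
      rw [Multiset.mem_map] at hx
      obtain ⟨y, _, rfl⟩ := hx
      exact br_mem_Inv K v y
    have hS2 : ∀ W : Multiset V, (W.map (br K v)).prod ∈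
        S K (Multiset.card W • Finsupp.single v 1 + (W.map fun x => Finsupp.single x 1).sum) 0 := by
      intro W
      induction W using Multiset.induction_on with
      | empty => simpa using one_mem_S (V := V) K
      | cons c W ih =>
        simp only [Multiset.map_cons, Multiset.prod_cons, Multiset.sum_cons, Multiset.card_cons]
        have := mul_mem_S K (br_mem_S K v c) ih
        rw [add_zero] at this
        convert this using 1
        rw [add_smul, one_smul]
        congr 1
        abel
    refine ⟨g * (W2.map (br K v)).prod * u, ?_, ?_⟩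
    · have := mul_mem_S K (mul_mem_S K hgS (hS2 W2)) hu
      rw [add_zero, add_zero] at this
      have he : e + (Multiset.card W2 • Finsupp.single v 1 +
          (W2.map fun x => Finsupp.single x 1).sum) +
          (p • Finsupp.single v 1 + (W1.map fun x => Finsupp.single x 1).sum) = d := by
        rw [← hd, hdd, Multiset.map_add, Multiset.sum_add, Multiset.card_add, hc1, add_smul]
        abel
      rw [he] at this
      exact this
    · rw [Lam_Inv_mul K p hinv, hLu, hM, Multiset.map_add, Multiset.prod_add]
      ring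
  exact key hf2

end FSig
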