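import Pool.Agent.Lib.FSig.RDefs
import Pool.Agent.Lib.FSig.OpsGr

/-!
# Pol3: polarisation operators and the grading

`K` any commutative ring, `i ≠ j`.
* `pda_mem`, `pdb_mem`: by `S_induction` for monomials (`pderiv_monomial`): `pderiv (v,false) (monomial μ c) = monomial (μ - single (v,false) 1) (c * μ (v,false))`, which is zero if `μ (v,false) = 0`, otherwise in `S d (w-1)` if `μ` has the degree `d + single v 1` and weight `w` (`monomial_mem_S`; `wtm` is additive: `wtm (μ - single (v,false) 1) = wtm μ - 1`; write `μ = ν + single (v,false) 1`).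
* `pd_free`: `f ∈ S d w`, `d v = 0`: all monomials of `f` have exponent `0` at `(v, false)`, `(v, true)`: `S_induction`, `pderiv_monomial`.
* `euler`: `a_v ∂_(a_v) f + b_v ∂_(b_v) f = (d v) f` on `S d w`: for a monomial `X x * pderiv x (monomial μ c) = μ x • monomial μ c` (`X_mul_pderiv_monomial`), `μ (v,false) + μ (v,true) = d v`.
* `polP_mem`: `pda_mem`, `pdb_mem`, `mul_mem_S` with `va_mem_S`, `vb_mem_S`; weights `w - 1 + 1`, `w + 1 - 1`. `omO_mem`: `pdb_mem`, `pda_mem` (weights `w + 1 - 1`).
* `pol_id`: expand with Leibniz (`Derivation.leibniz`; `pderiv_X`; `i ≠ j` so `∂_(x_i) x_j = 0`) and `∂∂` commute (`pderiv_pderiv_comm` or `Derivation.commute...`; a private lemma, by `induction_on`, if it is not in Mathlib): with `A_v = ∂_(a_v)`, `B_v = ∂_(b_v)`: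
`P_(ij)(P_(ji) f) = a_j A_i (a_i A_j f + b_i B_j f) + b_j B_i (a_i A_j f + b_i B_j f) = a_j A_j f + a_j a_i A_i A_j f + a_j b_i A_i B_j f + b_j a_i B_i A_j f + b_j B_j f + b_j b_i B_i B_j f`,
`[ij] Om f = (a_i b_j - b_i a_j)(A_i B_j f - B_i A_j f)`; the sum is `(a_j A_j + b_j B_j) f + (a_i A_i + b_i B_i)(a_j A_j + b_j B_j) f` (in the last expression expand too: `A_i (a_j A_j f) = a_j A_i A_j f`). `euler` for `j` (degree `1`) and for `i` (degree `c i + 1`) gives `(1 + (c i + 1)) x`.
* `pol_P`: `f ∈ S (c + 2 e_i)`, `c j = 0`: `A_j f = B_j f = 0` (`pd_free`), hence also `A_j A_i f = 0` etc. (commute), `P_(ji)(P_(ij) f) = a_i A_j (a_j A_i f + b_j B_i f) + b_i B_j (..) = a_i A_i f + b_i B_i f = (c i + 2) f` (`euler`). `Om (P_(ij) f) = A_i B_j (a_j A_i f + b_j B_i f) - B_i A_j (..) = A_i B_i f - B_i A_i f = 0`.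
* `pol_br`: `z ∈ S c`, `c j = 0`: `A_j z = B_j z = 0`, `A_j([ij] z) = -b_i z`, `B_j ([ij] z) = a_i z`, so `P_(ji)([ij] z) = a_i (-b_i z) + b_i a_i z = 0` and `Om ([ij] z) = A_i (a_i z) + B_i (b_i z) = 2 z + (a_i A_i + b_i B_i) z = (c i + 2) z`.
-/

namespace FSig

open MvPolynomial Finset

variable {V : Type*} (K : Type*) [CommRing K]

private lemma pd_comm (x y : V × Bool) (f : T V K) :
    pderiv x (pderiv y f) = pderiv y (pderiv x f) := by
  classical
  have h : ⁅(pderiv x : Derivation K (T V K) (T V K)), (pderiv y : Derivation K (T V K) (T V K))⁆ = 0 := by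
    apply MvPolynomial.derivation_ext
    intro i
    rw [Derivation.commutator_apply, pderiv_X, pderiv_X]
    rw [Pi.single_apply, Pi.single_apply]
    split_ifs <;> simp
  have h2 := congrArg (fun D : Derivation K (T V K) (T V K) => D f) h
  simp only [Derivation.commutator_apply, Derivation.coe_zero, Pi.zero_apply] at h2
  exact sub_eq_zero.1 h2

private lemma wtm_add' (μ ν : V × Bool →₀ ℕ) : wtm (μ + ν) = wtm μ + wtm ν := by
  unfold wtm
  classical
  rw [Finsupp.sum_add_index']
  · intro x
    split_ifs <;> simp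
  · intro x m n
    split_ifs
    · push_cast
      ring
    · push_cast
      ring

private lemma wtm_single (x : V × Bool) : wtm (Finsupp.single x 1) = if x.2 then -1 else 1 := by
  unfold wtm
  rw [Finsupp.sum_single_index (by split_ifs <;> simp)]
  split_ifs <;> simp

private lemma pd_mem_aux (v : V) (t : Bool) {d : V →₀ ℕ} {w : ℤ} {f : T V K}
    (hf : f ∈ S K (d + Finsupp.single v 1) w) :
    pderiv (v, t) f ∈ S K d (w - if t then -1 else 1) := by
  classical
  refine S_induction K (fun f => pderiv (v, t) f ∈ S K d (w - if t then -1 else 1)) ?_ ?_ ?_ hf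
  · show pderiv (v, t) (0 : T V K) ∈ _
    rw [map_zero]
    exact Submodule.zero_mem _
  · intro f g h1 h2
    show pderiv (v, t) (f + g) ∈ _
    rw [map_add]
    exact Submodule.add_mem _ h1 h2
  · intro μ c h1 h2
    show pderiv (v, t) (monomial μ c) ∈ _
    rw [pderiv_monomial]
    by_cases h0 : μ (v, t) = 0
    · rw [h0, Nat.cast_zero, mul_zero, map_zero]
      exact Submodule.zero_mem _
    have hμ : μ - Finsupp.single (v, t) 1 + Finsupp.single (v, t) 1 = μ :=
      Finsupp.sub_add_single_one_cancel h0
    apply monomial_mem_S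
    · intro u
      have h3 := h1 u
      rw [← hμ] at h3
      simp only [Finsupp.add_apply] at h3
      by_cases hu : u = v
      · subst hu
        cases t
        · rw [Finsupp.single_eq_same, Finsupp.single_eq_same,
            Finsupp.single_eq_of_ne (by simp)] at h3
          omega
        · rw [Finsupp.single_eq_same, Finsupp.single_eq_same,
            Finsupp.single_eq_of_ne (by simp)] at h3
          omega
      · rw [Finsupp.single_eq_of_ne (by simp [hu]),
          Finsupp.single_eq_of_ne (by simp [hu]),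
          Finsupp.single_eq_of_ne (by simp [hu])] at h3
        omega
    · have h4 : wtm μ = wtm (μ - Finsupp.single (v, t) 1) + wtm (Finsupp.single (v, t) 1) := by
        rw [← wtm_add', hμ]
      rw [wtm_single] at h4
      rw [← h2, h4]
      simp only
      ring

lemma pda_mem (v : V) {d : V →₀ ℕ} {w : ℤ} {f : T V K} (hf : f ∈ S K (d + Finsupp.single v 1) w) :
    pderiv (v, false) f ∈ S K d (w - 1) := by
  have h := pd_mem_aux K v false hf
  simpa using h

lemma pdb_mem (v : V) {d : V →₀ ℕ} {w : ℤ} {f : T V K} (hf : f ∈ S K (d + Finsupp.single v 1) w) :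
    pderiv (v, true) f ∈ S K d (w + 1) := by
  have h := pd_mem_aux K v true hf
  simpa using h

lemma pd_free (v : V) (t : Bool) {d : V →₀ ℕ} {w : ℤ} {f : T V K} (hf : f ∈ S K d w)
    (hv : d v = 0) : pderiv (v, t) f = 0 := by
  refine S_induction K (fun f => pderiv (v, t) f = 0) ?_ ?_ ?_ hf
  · show pderiv (v, t) (0 : T V K) = 0
    rw [map_zero]
  · intro f g h1 h2
    show pderiv (v, t) (f + g) = 0
    rw [map_add]
    rw [show pderiv (v, t) f = 0 from h1, show pderiv (v, t) g = 0 from h2, add_zero]
  · intro μ c h1 h2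
    show pderiv (v, t) (monomial μ c) = 0
    have h3 := h1 v
    have h0 : μ (v, t) = 0 := by
      cases t <;> omega
    rw [pderiv_monomial, h0, Nat.cast_zero, mul_zero, map_zero]

lemma euler (v : V) {d : V →₀ ℕ} {w : ℤ} {f : T V K} (hf : f ∈ S K d w) :
    va K v * pderiv (v, false) f + vb K v * pderiv (v, true) f = d v • f := by
  refine S_induction K (fun f => va K v * pderiv (v, false) f + vb K v * pderiv (v, true) f
    = d v • f) ?_ ?_ ?_ hf
  · show va K v * pderiv (v, false) (0 : T V K) + vb K v * pderiv (v, true) (0 : T V K)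
      = d v • (0 : T V K)
    rw [map_zero, map_zero]
    simp
  · intro f g h1 h2
    show va K v * pderiv (v, false) (f + g) + vb K v * pderiv (v, true) (f + g) = d v • (f + g)
    have h1' : va K v * pderiv (v, false) f + vb K v * pderiv (v, true) f = d v • f := h1
    have h2' : va K v * pderiv (v, false) g + vb K v * pderiv (v, true) g = d v • g := h2
    rw [map_add, map_add, smul_add, ← h1', ← h2']
    ring
  · intro μ c h1 h2
    show va K v * pderiv (v, false) (monomial μ c) + vb K v * pderiv (v, true) (monomial μ c)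
      = d v • monomial μ c
    have e1 : va K v * pderiv (v, false) (monomial μ c) = μ (v, false) • monomial μ c :=
      X_mul_pderiv_monomial
    have e2 : vb K v * pderiv (v, true) (monomial μ c) = μ (v, true) • monomial μ c :=
      X_mul_pderiv_monomial
    rw [e1, e2, ← add_smul, h1 v]

lemma polP_mem (i j : V) {d : V →₀ ℕ} {w : ℤ} {f : T V K}
    (hf : f ∈ S K (d + Finsupp.single i 1) w) : polP K i j f ∈ S K (d + Finsupp.single j 1) w := by
  rw [polP_apply]
  refine Submodule.add_mem _ ?_ ?_
  · have h := mul_mem_S K (va_mem_S K j) (pda_mem K i hf)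
    rwa [add_comm (Finsupp.single j 1) d, show (1 : ℤ) + (w - 1) = w by ring] at h
  · have h := mul_mem_S K (vb_mem_S K j) (pdb_mem K i hf)
    rwa [add_comm (Finsupp.single j 1) d, show (-1 : ℤ) + (w + 1) = w by ring] at h

lemma omO_mem (i j : V) {d : V →₀ ℕ} {w : ℤ} {f : T V K}
    (hf : f ∈ S K (d + Finsupp.single i 1 + Finsupp.single j 1) w) : omO K i j f ∈ S K d w := by
  rw [omO_apply]
  refine Submodule.sub_mem _ ?_ ?_
  · have h := pda_mem K i (pdb_mem K j hf)
    rwa [show w + 1 - 1 = w by ring] at h
  · have h := pdb_mem K i (pda_mem K j hf)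
    rwa [show w - 1 + 1 = w by ring] at h

private lemma d_va (i j : V) (t : Bool) (h : (j, false) ≠ (i, t)) :
    pderiv (i, t) (va K j) = 0 := pderiv_X_of_ne h

private lemma d_vb (i j : V) (t : Bool) (h : (j, true) ≠ (i, t)) :
    pderiv (i, t) (vb K j) = 0 := pderiv_X_of_ne h

private lemma d_va_self (i : V) : pderiv (i, false) (va K i) = 1 := pderiv_X_self _

private lemma d_vb_self (i : V) : pderiv (i, true) (vb K i) = 1 := pderiv_X_self _

theorem pol_id {i j : V} (hij : i ≠ j) {c : V →₀ ℕ} (hj : c j = 0) {w : ℤ} {x : T V K}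
    (hx : x ∈ S K (c + Finsupp.single i 1 + Finsupp.single j 1) w) :
    polP K i j (polP K j i x) + br K i j * omO K i j x = (c i + 2) • x := by
  have hEj := euler K j hx
  have hEi := euler K i hx
  have dj : (c + Finsupp.single i 1 + Finsupp.single j 1 : V →₀ ℕ) j = 1 := by
    rw [Finsupp.add_apply, Finsupp.add_apply, hj, Finsupp.single_eq_same,
      Finsupp.single_eq_of_ne (Ne.symm hij), zero_add, zero_add]
  have di : (c + Finsupp.single i 1 + Finsupp.single j 1 : V →₀ ℕ) i = c i + 1 := by
    rw [Finsupp.add_apply, Finsupp.add_apply, Finsupp.single_eq_same,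
      Finsupp.single_eq_of_ne hij, add_zero]
  rw [dj, one_smul] at hEj
  rw [di, nsmul_eq_mul] at hEi
  have h1 := congrArg (pderiv (i, false)) hEj
  have h2 := congrArg (pderiv (i, true)) hEj
  have e1 : pderiv (i, false) (va K j) = 0 := d_va K i j false (by simp [Ne.symm hij])
  have e2 : pderiv (i, false) (vb K j) = 0 := d_vb K i j false (by simp)
  have e3 : pderiv (i, true) (va K j) = 0 := d_va K i j true (by simp)
  have e4 : pderiv (i, true) (vb K j) = 0 := d_vb K i j true (by simp [Ne.symm hij])
  have e5 : pderiv (i, false) (vb K i) = 0 := d_vb K i i false (by simp)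
  have e6 : pderiv (i, true) (va K i) = 0 := d_va K i i true (by simp)
  have e7 := d_va_self K i
  have e8 := d_vb_self K i
  simp only [map_add, pderiv_mul, e1, e2, e3, e4, zero_mul, zero_add] at h1 h2
  simp only [polP_apply, omO_apply, map_add, pderiv_mul, e5, e6, e7, e8, br, nsmul_eq_mul,
    zero_mul, zero_add, one_mul]
  push_cast at hEi ⊢
  linear_combination hEj + va K i * h1 + vb K i * h2 + hEi

theorem pol_P {i j : V} (hij : i ≠ j) {c : V →₀ ℕ} (hj : c j = 0) {w : ℤ} {y : T V K}
    (hy : y ∈ S K (c + Finsupp.single i 2) w) :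
    polP K j i (polP K i j y) = (c i + 2) • y ∧ omO K i j (polP K i j y) = 0 := by
  have dj : (c + Finsupp.single i 2 : V →₀ ℕ) j = 0 := by
    rw [Finsupp.add_apply, hj, Finsupp.single_eq_of_ne (Ne.symm hij), zero_add]
  have di : (c + Finsupp.single i 2 : V →₀ ℕ) i = c i + 2 := by
    rw [Finsupp.add_apply, Finsupp.single_eq_same]
  have hEi := euler K i hy
  rw [di] at hEi
  have f1 := pd_free K j false hy dj
  have f2 := pd_free K j true hy dj
  have e1 : pderiv (j, false) (vb K j) = 0 := d_vb K j j false (by simp)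
  have e2 : pderiv (j, true) (va K j) = 0 := d_va K j j true (by simp)
  have e3 := d_va_self K j
  have e4 := d_vb_self K j
  have g1 : pderiv (j, false) (pderiv (i, false) y) = 0 := by rw [pd_comm, f1, map_zero]
  have g2 : pderiv (j, false) (pderiv (i, true) y) = 0 := by rw [pd_comm, f1, map_zero]
  have g3 : pderiv (j, true) (pderiv (i, false) y) = 0 := by rw [pd_comm, f2, map_zero]
  have g4 : pderiv (j, true) (pderiv (i, true) y) = 0 := by rw [pd_comm, f2, map_zero]
  constructor
  · rw [← hEi]
    simp only [polP_apply, map_add, pderiv_mul, e1, e2, e3, e4, g1, g2, g3, g4, mul_zero,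
      zero_mul, zero_add, add_zero, one_mul]
  · have k1 : pderiv (j, true) (polP K i j y) = pderiv (i, true) y := by
      simp only [polP_apply, map_add, pderiv_mul, e2, e4, g3, g4, mul_zero, zero_mul, zero_add,
        add_zero, one_mul]
    have k2 : pderiv (j, false) (polP K i j y) = pderiv (i, false) y := by
      simp only [polP_apply, map_add, pderiv_mul, e1, e3, g1, g2, mul_zero, zero_mul, 
        add_zero, one_mul]
    rw [omO_apply, k1, k2, pd_comm, sub_self]

theorem pol_br {i j : V} (hij : i ≠ j) {c : V →₀ ℕ} (hj : c j = 0) {w : ℤ} {z : T V K}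
    (hz : z ∈ S K c w) :
    polP K j i (br K i j * z) = 0 ∧ omO K i j (br K i j * z) = (c i + 2) • z := by
  have hEi := euler K i hz
  have f1 := pd_free K j false hz hj
  have f2 := pd_free K j true hz hj
  have e1 : pderiv (j, false) (vb K j) = 0 := d_vb K j j false (by simp)
  have e2 : pderiv (j, true) (va K j) = 0 := d_va K j j true (by simp)
  have e3 := d_va_self K j
  have e4 := d_vb_self K j
  have e5 : pderiv (j, false) (va K i) = 0 := d_va K j i false (by simp [hij])
  have e6 : pderiv (j, false) (vb K i) = 0 := d_vb K j i false (by simp)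
  have e7 : pderiv (j, true) (va K i) = 0 := d_va K j i true (by simp)
  have e8 : pderiv (j, true) (vb K i) = 0 := d_vb K j i true (by simp [hij])
  have h1 : pderiv (j, false) (br K i j * z) = -(vb K i * z) := by
    simp only [br, map_sub, pderiv_mul, e1, e3, e5, e6, f1]
    ring
  have h2 : pderiv (j, true) (br K i j * z) = va K i * z := by
    simp only [br, map_sub, pderiv_mul, e2, e4, e7, e8, f2]
    ring
  have e9 : pderiv (i, false) (va K i) = 1 := d_va_self K i
  have e10 : pderiv (i, true) (vb K i) = 1 := d_vb_self K i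
  constructor
  · rw [polP_apply, h1, h2]
    ring
  · rw [omO_apply, h1, h2, map_neg, pderiv_mul, pderiv_mul, e9, e10]
    rw [nsmul_eq_mul] at hEi ⊢
    push_cast
    linear_combination hEi

end FSig
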