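import Pool.Agent.Lib.FSig.Pol2
import Pool.Agent.Lib.FSig.Pol3
import Pool.Agent.Lib.FSig.LamDefs

/-!
# LamRec: the recursion for `lam`

`K` a field of characteristic `p`. `c j = 0`, `c i + 2 ≤ p - 1`, so `(c i + 2 : K) ≠ 0` (`CharP.cast_eq_zero_iff`, `Nat.le_of_dvd`). Put `d = c + e_i + e_j`, `d' = c + 2 e_i`.
`finite_lamS`: `lamS K p d ≤ S K d 0` (`Lam_mem_S`), which is finite-dimensional (`finite_S`).
`lamN_rec0`: `f ↦ (P_(ji) f, Om f)` is a linear equivalence `lamS d → lamS d' × lamS c` with the inverse `(y, z) ↦ (c i + 2)⁻¹ (P_(ij) y + [ij] z)`.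
(1) `P_(ji)` maps `lamS d` to `lamS d'`: `f = Lam x`, `x ∈ S d 0`: `P_(ji) f = Lam (P_(ji) x)`, `P_(ji) x ∈ S d' 0` (`polP_mem` with `c + e_i + e_j → c + e_i + e_i`; `single_add`), and `polP_mem_Inv`. `Om` maps `lamS d` to `lamS c` (`omO_mem`, `omO_Lam`, `omO_mem_Inv`).
(2) `P_(ij) y + [ij] z ∈ lamS d`: `y = Lam y'`, `z = Lam z'`: `= Lam (P_(ij) y' + [ij] z')` (`polP_Lam`, `Lam_Inv_mul` with `br_mem_Inv`), `P_(ij) y' ∈ S d 0` (`polP_mem`), `[ij] z' ∈ S d 0` (`br_mem_S`, `mul_mem_S`); invariance: `polP_mem_Inv`, `Subalgebra.mul_mem`.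
(3) composition one way: `pol_id` (for `f ∈ S d 0`), the other way: `pol_P`, `pol_br` (for `y ∈ S d' 0`, `z ∈ S c 0`; additivity).
`LinearEquiv.finrank_eq`, `Module.finrank_prod`. (Instead of an equivalence one can use an injective linear map in both directions.)
`lamN_rec`: `c := d - e_i - e_j`: `d = c + e_i + e_j`, `d + e_i - e_j = c + 2 e_i` (`Finsupp.ext`, cases `v = i`, `v = j`), `c i + 2 = d i + 1 ≤ p - 1`.
-/

namespace FSig

open MvPolynomial Finset

variable {V : Type*} (K : Type*) [Field K] (p : ℕ) [Fact p.Prime] [CharP K p]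

omit [Fact p.Prime] [CharP K p] in
lemma lamS_le (d : V →₀ ℕ) : lamS K p d ≤ S K d 0 := by
  rintro x ⟨⟨u, hu, rfl⟩, -⟩
  exact Lam_mem_S K p hu

omit [Fact p.Prime] [CharP K p] in
lemma finite_lamS (d : V →₀ ℕ) : Module.Finite K (lamS K p d) := by
  have := finite_S K d 0
  exact Submodule.finiteDimensional_of_le (lamS_le K p d)

theorem lamN_rec0 {c : V →₀ ℕ} {i j : V} (hij : i ≠ j) (hj : c j = 0) (hi : c i + 2 ≤ p - 1) :
    lamN K p (c + Finsupp.single i 1 + Finsupp.single j 1) =
      lamN K p (c + Finsupp.single i 2) + lamN K p c := by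
  have hu : ((c i + 2 : ℕ) : K) ≠ 0 := by
    intro h0
    rw [CharP.cast_eq_zero_iff K p] at h0
    have h1 := Nat.le_of_dvd (by omega) h0
    have hp := (Fact.out : p.Prime).two_le
    omega
  have hd' : c + Finsupp.single i 1 + Finsupp.single i 1 = c + Finsupp.single i 2 := by
    rw [add_assoc, ← Finsupp.single_add]
  have h1 : ∀ x ∈ lamS K p (c + Finsupp.single i 1 + Finsupp.single j 1),
      polP K j i x ∈ lamS K p (c + Finsupp.single i 2) := by
    rintro x ⟨⟨u, hu, rfl⟩, hx⟩
    refine ⟨⟨polP K j i u, ?_, ?_⟩, polP_mem_Inv K j i hx⟩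
    · rw [← hd']
      exact polP_mem K j i hu
    · exact (polP_Lam K j i p u).symm
  have h2 : ∀ x ∈ lamS K p (c + Finsupp.single i 1 + Finsupp.single j 1),
      omO K i j x ∈ lamS K p c := by
    rintro x ⟨⟨u, hu, rfl⟩, hx⟩
    refine ⟨⟨omO K i j u, omO_mem K i j hu, ?_⟩, omO_mem_Inv K i j hx⟩
    exact (omO_Lam K i j p u).symm
  have h3 : ∀ y ∈ lamS K p (c + Finsupp.single i 2), ∀ z ∈ lamS K p c,
      polP K i j y + br K i j * z ∈
        lamS K p (c + Finsupp.single i 1 + Finsupp.single j 1) := by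
    rintro y ⟨⟨u, hu, rfl⟩, hy⟩ z ⟨⟨v, hv, rfl⟩, hz⟩
    refine ⟨⟨polP K i j u + br K i j * v, ?_, ?_⟩, ?_⟩
    · refine Submodule.add_mem _ ?_ ?_
      · have hu' : u ∈ S K (c + Finsupp.single i 1 + Finsupp.single i 1) 0 := by
          rw [hd']; exact hu
        exact polP_mem K i j hu'
      · have h4 := mul_mem_S K (br_mem_S K i j) hv
        have h5 : (Finsupp.single i 1 + Finsupp.single j 1 + c : V →₀ ℕ) =
            c + Finsupp.single i 1 + Finsupp.single j 1 := by
          rw [add_comm, add_assoc]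
        rw [h5, add_zero] at h4
        exact h4
    · rw [map_add, Lam_Inv_mul K p (br_mem_Inv K i j), polP_Lam]
    · exact Submodule.add_mem _ (polP_mem_Inv K i j hy)
        ((Inv (V := V) K).mul_mem (br_mem_Inv K i j) hz)
  let A : lamS K p (c + Finsupp.single i 1 + Finsupp.single j 1) →ₗ[K]
      (lamS K p (c + Finsupp.single i 2)) × (lamS K p c) :=
    LinearMap.prod ((polP K j i).restrict h1) ((omO K i j).restrict h2)
  have hA1 : ∀ x, ((A x).1 : T V K) = polP K j i (x : T V K) := fun x => rfl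
  have hA2 : ∀ x, ((A x).2 : T V K) = omO K i j (x : T V K) := fun x => rfl
  have hinj : Function.Injective A := by
    rw [← LinearMap.ker_eq_bot, LinearMap.ker_eq_bot']
    intro x hx
    have e1 : polP K j i (x : T V K) = 0 := by rw [← hA1, hx]; rfl
    have e2 : omO K i j (x : T V K) = 0 := by rw [← hA2, hx]; rfl
    have e3 := pol_id K hij hj (lamS_le K p _ x.2)
    rw [e1, e2, map_zero, mul_zero, add_zero, ← Nat.cast_smul_eq_nsmul K] at e3
    rcases smul_eq_zero.1 e3.symm with e4 | e4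
    · exact absurd e4 hu
    · exact Subtype.ext e4
  have hsurj : Function.Surjective A := by
    rintro ⟨y, z⟩
    have hw := h3 y y.2 z z.2
    have hy := pol_P K hij hj (lamS_le K p _ y.2)
    have hz := pol_br K hij hj (lamS_le K p _ z.2)
    refine ⟨((c i + 2 : ℕ) : K)⁻¹ • ⟨_, hw⟩, ?_⟩
    refine Prod.ext (Subtype.ext ?_) (Subtype.ext ?_)
    · rw [hA1]
      show polP K j i (((c i + 2 : ℕ) : K)⁻¹ • (polP K i j (y : T V K) + br K i j * (z : T V K)))
        = y
      rw [map_smul, map_add, hy.1, hz.1, add_zero, ← Nat.cast_smul_eq_nsmul K, smul_smul,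
        inv_mul_cancel₀ hu, one_smul]
    · rw [hA2]
      show omO K i j (((c i + 2 : ℕ) : K)⁻¹ • (polP K i j (y : T V K) + br K i j * (z : T V K)))
        = z
      rw [map_smul, map_add, hy.2, hz.2, zero_add, ← Nat.cast_smul_eq_nsmul K, smul_smul,
        inv_mul_cancel₀ hu, one_smul]
  have i1 := finite_lamS K p (c + Finsupp.single i 2)
  have i2 := finite_lamS K p c
  have hfin := (LinearEquiv.ofBijective A ⟨hinj, hsurj⟩).finrank_eq
  rw [Module.finrank_prod] at hfin
  unfold lamN
  rw [hfin]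
  push_cast
  rfl

theorem lamN_rec {d : V →₀ ℕ} {i j : V} (hij : i ≠ j) (hj : d j = 1) (hi : 1 ≤ d i)
    (hip : d i ≤ p - 2) :
    lamN K p d = lamN K p (d + Finsupp.single i 1 - Finsupp.single j 1)
      + lamN K p (d - Finsupp.single i 1 - Finsupp.single j 1) := by
  classical
  have e1 : d - Finsupp.single i 1 - Finsupp.single j 1 + Finsupp.single i 1 +
      Finsupp.single j 1 = d := by
    ext v
    simp only [Finsupp.coe_add, Finsupp.coe_tsub, Pi.add_apply, Pi.sub_apply]
    rw [Finsupp.single_apply, Finsupp.single_apply]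
    by_cases hvi : i = v
    · subst hvi
      rw [if_pos rfl, if_neg (Ne.symm hij)]
      omega
    · rw [if_neg hvi]
      by_cases hvj : j = v
      · subst hvj
        rw [if_pos rfl]
        omega
      · rw [if_neg hvj]
        omega
  have e2 : d - Finsupp.single i 1 - Finsupp.single j 1 + Finsupp.single i 2 =
      d + Finsupp.single i 1 - Finsupp.single j 1 := by
    ext v
    simp only [Finsupp.coe_add, Finsupp.coe_tsub, Pi.add_apply, Pi.sub_apply]
    rw [Finsupp.single_apply, Finsupp.single_apply, Finsupp.single_apply]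
    by_cases hvi : i = v
    · subst hvi
      rw [if_pos rfl, if_pos rfl, if_neg (Ne.symm hij)]
      omega
    · rw [if_neg hvi, if_neg hvi]
      by_cases hvj : j = v
      · subst hvj
        rw [if_pos rfl]
        omega
      · rw [if_neg hvj]
        omega
  have e3 : (d - Finsupp.single i 1 - Finsupp.single j 1 : V →₀ ℕ) j = 0 := by
    simp only [Finsupp.coe_tsub, Pi.sub_apply]
    rw [Finsupp.single_apply, Finsupp.single_apply, if_neg hij, if_pos rfl]
    omega
  have e4 : (d - Finsupp.single i 1 - Finsupp.single j 1 : V →₀ ℕ) i + 2 ≤ p - 1 := by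
    simp only [Finsupp.coe_tsub, Pi.sub_apply]
    rw [Finsupp.single_apply, Finsupp.single_apply, if_pos rfl, if_neg (Ne.symm hij)]
    omega
  have h := lamN_rec0 K p hij e3 e4
  rw [e1, e2] at h
  exact h

end FSig
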