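import Pool.Agent.Lib.FSig.SDefs

/-!
# Module Lap: identities modulo the `3 × 3` minors

All `3 × 3` minors of `xx` vanish (`Min3`: expansion along the first row; a `3 × 3` determinant can be
expanded along any row or column, all expansions are equal by `ring`).

* `lap_col`: expansion of the minor with rows `a, c, d` and columns `g, h, s` along the column `s`.
* `lap_row`: the transposed statement.
* `plu_left`: `[ab|R][cd|S] = [ad|R][cb|S] - [ac|R][db|S]`. Proof: with `R = (r, r')`, `S = (s, s')`,
  `[ab|R][cd|S] + [ac|R][db|S] + [ad|R][bc|S]`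
  `= x_{a r} (x_{b r'} [cd|S] + x_{c r'} [db|S] + x_{d r'} [bc|S]) - x_{a r'} (x_{b r} [cd|S] + …)`, and each bracket is the
  expansion along the first column of the minor with rows `b, c, d` and columns `r', s, s'` resp. `r, s, s'`.
* `plu_right`: transposed.
* `mi_swap`: `[ab|R][cd|S] = [ab|S][cd|R]`. Proof: `plu_left` says `L(ab;cd) = L(ad;cb) - L(ac;db)` for
  `L(ab;cd) = [ab|R][cd|S]`; the same proof with the first letter of the second factor fixed gives
  `L(ab;cd) + L(bc;ad) + L(ca;bd) = 0` (expansion of `x_{d s'} ([ab|R] x_{c s} + [bc|R] x_{a s} + [ca|R] x_{b s}) - …`).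
  Comparing (`L(ac;bd) = - L(ca;bd)`, …) gives `L(ad;bc) = L(bc;ad)` for all `a, b, c, d`.
* `entry_swap`: definition of `mi`.
(If convenient prove everything by `linear_combination` of the hypotheses `h a b c d e f`.)
-/

namespace Pool.FSig

variable {A : Type*} [CommRing A] {xx : ℕ → ℕ → A}

theorem lap_col (h : Min3 xx) (a c d g k s : ℕ) :
    xx a s * mi xx c d g k = xx c s * mi xx a d g k - xx d s * mi xx a c g k := by
  have h1 := h a c d s g k
  simp only [mi] at h1 ⊢
  linear_combination h1

theorem lap_row (h : Min3 xx) (s a b g k l : ℕ) :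
    xx s g * mi xx a b k l = xx s k * mi xx a b g l - xx s l * mi xx a b g k := by
  have h1 := h s a b g k l
  simp only [mi] at h1 ⊢
  linear_combination h1

theorem plu_left (h : Min3 xx) (a b c d r r' s s' : ℕ) :
    mi xx a b r r' * mi xx c d s s' =
      mi xx a d r r' * mi xx c b s s' - mi xx a c r r' * mi xx d b s s' := by
  have h1 := h b c d r' s s'
  have h2 := h b c d r s s'
  simp only [mi] at h1 h2 ⊢
  linear_combination (xx a r) * h1 - (xx a r') * h2

theorem plu_right (h : Min3 xx) (r r' s s' a b c d : ℕ) :
    mi xx r r' a b * mi xx s s' c d =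
      mi xx r r' a d * mi xx s s' c b - mi xx r r' a c * mi xx s s' d b := by
  have h1 := h r' s s' b c d
  have h2 := h r s s' b c d
  simp only [mi] at h1 h2 ⊢
  linear_combination (xx r a) * h1 - (xx r' a) * h2

theorem mi_swap (h : Min3 xx) (a b c d r r' s s' : ℕ) :
    mi xx a b r r' * mi xx c d s s' = mi xx a b s s' * mi xx c d r r' := by
  have h1 := h c d b r' s s'
  have h2 := h c d b r s s'
  have h3 := h a c d r r' s
  have h4 := h a c d r r' s'
  simp only [mi] at h1 h2 h3 h4 ⊢
  linear_combination (xx a r) * h1 - (xx a r') * h2 - (xx b s') * h3 + (xx b s) * h4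

theorem entry_swap (a b c d : ℕ) : xx a c * xx b d = xx a d * xx b c + mi xx a b c d := by
  simp only [mi]
  ring

/-- a ring homomorphism maps `Min3` matrices to `Min3` matrices and `cval` to `cval` -/
theorem map_lval {B : Type*} [CommRing B] (φ : A →+* B) (m : ℕ) (τ : List Cell) :
    φ (lval m xx τ) = lval m (fun a c => φ (xx a c)) τ := by
  unfold lval
  rw [map_list_prod, List.map_map]
  congr 1
  apply List.map_congr_left
  intro C _
  simp only [Function.comp_apply, cval]
  split_ifs with hC
  · rfl
  · simp [mi]

end Pool.FSig
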