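import Pool.Agent.Lib.FSig.GDefs

/-!
# Module LinT: linear algebra of the pairing

* `exists_minor`: vectors `v j : κ → K` (`j : J`) spanning a space of dimension `a`: there are injections
  `r : Fin a → κ`, `c : Fin a → J` with `det (v (c j) (r i)) ≠ 0`. Proof. Choose `c` with `v ∘ c` linearly
  independent (a basis of the span inside the spanning set: `exists_linearIndependent'`,
  `Module.Basis.extend`/`Submodule.exists_fun_fin_finrank_span_eq`); the `a × κ` matrix `v (c j) i` has rank `a`
  (`LinearIndependent.rank_matrix`), so its transpose has `a` linearly independent rows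
  (`Matrix.rank_transpose`, the columns span a space of dimension `a`, choose again), and the resulting
  `a × a` matrix has linearly independent rows, so its determinant is not zero
  (`Matrix.linearIndependent_rows_iff_isUnit`).
* `finrank_span_le_rk`: `J = A`, `v f = (ε (φ i f))_i`, `a = finrank` of the span: `exists_minor` gives
  `HasRk ε q a` (maps `φ (r i)`, elements `c j`), and `a ≤ rk` because the set is bounded (`le_csSup`).
* `exists_hasRk_rk`: `0` is in the set (empty determinant `1`), it is bounded: `Nat.sSup_mem`.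
* `span_eq_top_of_det`: if `det (ε (φ i (f j))) ≠ 0` the vectors `(ε (φ i (f j)))_i`, `j : Fin a`, are `a` linearly
  independent vectors of `Fin a → K`.
-/

namespace Pool.FSig

theorem exists_minor {K κ J : Type*} [Field K] [Fintype κ] (v : J → κ → K) :
    ∃ (r : Fin (Module.finrank K (Submodule.span K (Set.range v))) → κ)
      (c : Fin (Module.finrank K (Submodule.span K (Set.range v))) → J),
      (Matrix.of fun i j => v (c j) (r i)).det ≠ 0 := by
  obtain ⟨f, hf1, -, hf3⟩ := Submodule.exists_fun_fin_finrank_span_eq K (Set.range v)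
  choose c hc using hf1
  set M : Matrix (Fin (Module.finrank K (Submodule.span K (Set.range v)))) κ K :=
    Matrix.of fun j i => v (c j) i with hM
  have hrow : M.row = f := by
    funext j
    exact hc j
  have hrk : M.rank = Module.finrank K (Submodule.span K (Set.range v)) := by
    have h1 : LinearIndependent K M.row := by
      rw [hrow]
      exact hf3
    rw [h1.rank_matrix, Fintype.card_fin]
  rw [Matrix.rank_eq_finrank_span_cols] at hrk
  obtain ⟨g, hg1, -, hg3⟩ := Submodule.exists_fun_fin_finrank_span_eq K (Set.range M.col)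
  choose r hr using hg1
  refine ⟨fun i => r (finCongr hrk.symm i), c, ?_⟩
  set N : Matrix (Fin (Module.finrank K (Submodule.span K (Set.range v))))
    (Fin (Module.finrank K (Submodule.span K (Set.range v)))) K :=
    Matrix.of fun i j => v (c j) (r (finCongr hrk.symm i)) with hN
  have hNrow : N.row = fun i => g (finCongr hrk.symm i) := by
    funext i
    rw [← hr]
    rfl
  have h2 : LinearIndependent K N.row := by
    rw [hNrow]
    exact hg3.comp _ (finCongr hrk.symm).injective
  have h3 := Matrix.linearIndependent_rows_iff_isUnit.1 h2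
  exact ((Matrix.isUnit_iff_isUnit_det _).1 h3).ne_zero

theorem finrank_span_le_rk {A K κ : Type*} [CommRing A] [Field K] [Fintype κ] (ε : A →+* K)
    {q B : ℕ} (hB : ∀ a, HasRk ε q a → a ≤ B) (φ : κ → (A →+ A)) (hφ : ∀ i, PL q (φ i)) :
    Module.finrank K (Submodule.span K (Set.range fun f : A => fun i => ε (φ i f))) ≤ rk ε q := by
  obtain ⟨r, c, h⟩ := exists_minor (K := K) fun f : A => fun i => ε (φ i f)
  refine le_csSup ⟨B, fun a ha => hB a ha⟩ ?_
  exact ⟨fun i => φ (r i), c, fun i => hφ (r i), h⟩

theorem exists_hasRk_rk {A K : Type*} [CommRing A] [Field K] (ε : A →+* K) {q B : ℕ}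
    (hB : ∀ a, HasRk ε q a → a ≤ B) : HasRk ε q (rk ε q) := by
  refine Nat.sSup_mem (s := {a : ℕ | HasRk ε q a}) ⟨0, ?_⟩ ⟨B, fun a ha => hB a ha⟩
  refine ⟨fun i => i.elim0, fun i => i.elim0, fun i => i.elim0, ?_⟩
  rw [Matrix.det_isEmpty]
  exact one_ne_zero

theorem span_eq_top_of_det {A K : Type*} [CommRing A] [Field K] (ε : A →+* K) {a : ℕ}
    (φ : Fin a → (A →+ A)) (f : Fin a → A) (h : (Matrix.of fun i j => ε (φ i (f j))).det ≠ 0) :
    Submodule.span K (Set.range fun x : A => fun i => ε (φ i x)) = ⊤ := by
  set N : Matrix (Fin a) (Fin a) K := Matrix.of fun i j => ε (φ i (f j)) with hN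
  have h1 : IsUnit N := (Matrix.isUnit_iff_isUnit_det _).2 (isUnit_iff_ne_zero.2 h)
  have h2 : LinearIndependent K N.col := Matrix.linearIndependent_cols_iff_isUnit.2 h1
  have h3 : Submodule.span K (Set.range N.col) = ⊤ := by
    refine h2.span_eq_top_of_card_eq_finrank' ?_
    rw [Fintype.card_fin, Module.finrank_fin_fun]
  rw [eq_top_iff, ← h3]
  refine Submodule.span_mono ?_
  rintro _ ⟨j, rfl⟩
  exact ⟨f j, rfl⟩

end Pool.FSig
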