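import Pool.Agent.Lib.FSig.TrA

/-!
# MP_05de8f_ag : the trace `Phi` (module TrBasic)

`coeff ν (Phi f) = (coeff (p ν + (p-1)) f)^{1/p}` (`coeff_Phi`). PROOFS.
* (T1) `Phi_E`: `Phi (E^(k) u) = E^(k/p) (Phi u)` if `p ∣ k`, `0` otherwise. For `u = r^p x^β`, `β x ≤ p-1` for all `x`:
  `E^(k) u = ∑_i (E^(i) r)^p E^(k-pi) (x^β)` (`E_pow_mul`), so `Phi (E^(k) u) = ∑_i E^(i) r · Phi (E^(k-pi) x^β)`, and for `j ≥ 1`: `Phi (E^(j) x^β) = 0` because every
  monomial of `E^(j) x^β` (`j ≥ 1`) has some exponent of a `b_v` which is `< β(v,true) ≤ p-1` (`E_monomial_coeff`: if `coeff ν (E^(j) x^β) ≠ 0` then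
  `ν (v,true) ≤ β (v,true)` for all `v`, with `<` for some `v` when `j ≥ 1`: the total number of `b`'s drops by `j`), so `coeff (pν' + (p-1)) = 0`:
  an exponent `≤ p-1` of the form `p ν' + (p-1)` equals `p-1`.
  Only the term with `k = p i` remains: `E^(k/p) r · Phi (x^β)`, and `E^(k/p) (Phi (r^p x^β)) = E^(k/p) (r Phi(x^β))`, `Phi(x^β)` is `0` or `1`.
* `Phi_F`: mirror image (`Phi (sw f) = sw (Phi f)`: `coeff_Phi` and the permutation of the exponents).
* `Phi_E1_mul`: `Phi (E x · y) = - Phi (x · E y)` from (T1) for `k = 1` and `E_one_mul`. `Phi_Epm1`: `Phi (E^(p-1) x · y) = Phi (x · E^(p-1) y)`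
  (`(p-1)! E^(p-1) = E^{p-1}`, sign `(-1)^(p-1) = 1` in characteristic `p`, also for `p = 2`; `((p-1)! : K)⁻¹` is in the prime field, `Phi_smul_prime`).
* (T2) `Phi_Lam`: `Phi (Lam u · w) = Phi (u · Lam w)` for `w` of weight divisible by `p`: move `F^(p-1)`, then `E^(p-1)`, use `EF_eq_Lam` for `w`.
-/

namespace FSig

open MvPolynomial Finset

variable {V : Type*} [Fintype V] {K : Type*} [Field K] (p : ℕ) [Fact p.Prime] [CharP K p] [PerfectRing K p]

private lemma trb_gr {β μ : V × Bool →₀ ℕ} {ν : V × Bool →₀ ℕ} (hβ : ∀ x, β x < p)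
    (hμ : μ = p • ν + cst V (p - 1))
    (h : ∀ v, μ (v, false) + μ (v, true) = β (v, false) + β (v, true)) : μ = β := by
  have hx : ∀ x, μ x = p * ν x + (p - 1) := fun x => by
    rw [hμ, Finsupp.add_apply, Finsupp.smul_apply, smul_eq_mul, cst_apply]
  ext ⟨v, b⟩
  have h1 := h v
  have h2 := hβ (v, false)
  have h3 := hβ (v, true)
  have h4 := hx (v, false)
  have h5 := hx (v, true)
  cases b
  · omega
  · omega

private lemma trb_mono {β : V × Bool →₀ ℕ} :
    monomial β (1 : K) ∈ S K (Finsupp.equivFunOnFinite.symm fun v => β (v, false) + β (v, true))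
      (wtm β) :=
  monomial_mem_S K 1 (fun v => rfl) rfl

private lemma trb_E {β : V × Bool →₀ ℕ} (hβ : ∀ x, β x < p) {j : ℕ} (hj : 1 ≤ j) :
    Phi p (E K j (monomial β (1 : K))) = 0 := by
  ext ν
  rw [coeff_Phi, coeff_zero]
  by_contra hne
  have hc : coeff (p • ν + cst V (p - 1)) (E K j (monomial β (1 : K))) ≠ 0 := fun h =>
    hne (by rw [h, map_zero])
  obtain ⟨h1, h2⟩ := (mem_S_iff K).1 (E_mem_S K trb_mono j) _ hc
  rw [trb_gr p hβ rfl h1] at h2
  omega

private lemma trb_F {β : V × Bool →₀ ℕ} (hβ : ∀ x, β x < p) {j : ℕ} (hj : 1 ≤ j) :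
    Phi p (F K j (monomial β (1 : K))) = 0 := by
  ext ν
  rw [coeff_Phi, coeff_zero]
  by_contra hne
  have hc : coeff (p • ν + cst V (p - 1)) (F K j (monomial β (1 : K))) ≠ 0 := fun h =>
    hne (by rw [h, map_zero])
  obtain ⟨h1, h2⟩ := (mem_S_iff K).1 (F_mem_S K trb_mono j) _ hc
  rw [trb_gr p hβ rfl h1] at h2
  omega

/-- (T1) -/
theorem Phi_E (k : ℕ) (u : T V K) : Phi p (E K k u) = if p ∣ k then E K (k / p) (Phi p u) else 0 := by
  have hp : 0 < p := (Fact.out : p.Prime).pos
  revert k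
  refine T_induction p (P := fun u => ∀ k, Phi p (E K k u) =
    if p ∣ k then E K (k / p) (Phi p u) else 0) ?_ ?_ ?_ u
  · intro k
    simp
  · intro f g hf hg k
    rw [map_add, map_add, hf k, hg k, map_add, map_add]
    split_ifs
    · rfl
    · rw [add_zero]
  · intro r β hβ k
    rw [E_pow_mul, map_sum]
    simp only [Phi_pow_mul]
    have hz : ∀ i, i ≤ k / p → k - p * i ≠ 0 →
        E K i r * Phi p (E K (k - p * i) (monomial β (1 : K))) = 0 := fun i _ h => by
      rw [trb_E p hβ (Nat.one_le_iff_ne_zero.2 h), mul_zero]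
    by_cases hk : p ∣ k
    · obtain ⟨m, rfl⟩ := hk
      rw [if_pos (Dvd.intro m rfl), Nat.mul_div_cancel_left m hp]
      rw [Finset.sum_eq_single m]
      · rw [Nat.sub_self, E_zero, Phi_monomial p hβ]
        split_ifs
        · rw [mul_one, mul_one]
        · rw [mul_zero, mul_zero, map_zero]
      · intro i hi him
        rw [Finset.mem_range] at hi
        have h1 : i < m := by omega
        refine hz i (by rw [Nat.mul_div_cancel_left m hp]; omega) ?_
        have := Nat.mul_lt_mul_of_pos_left h1 hp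
        omega
      · intro h
        exact absurd (Finset.mem_range.2 (Nat.lt_succ_self m)) h
    · rw [if_neg hk]
      refine Finset.sum_eq_zero fun i hi => ?_
      rw [Finset.mem_range] at hi
      refine hz i (by omega) fun h => hk ?_
      have h1 : p * i ≤ k := by
        calc p * i ≤ p * (k / p) := Nat.mul_le_mul_left p (by omega)
          _ ≤ k := Nat.mul_div_le k p
      exact ⟨i, by omega⟩

theorem Phi_F (k : ℕ) (u : T V K) : Phi p (F K k u) = if p ∣ k then F K (k / p) (Phi p u) else 0 := by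
  have hp : 0 < p := (Fact.out : p.Prime).pos
  revert k
  refine T_induction p (P := fun u => ∀ k, Phi p (F K k u) =
    if p ∣ k then F K (k / p) (Phi p u) else 0) ?_ ?_ ?_ u
  · intro k
    simp
  · intro f g hf hg k
    rw [map_add, map_add, hf k, hg k, map_add, map_add]
    split_ifs
    · rfl
    · rw [add_zero]
  · intro r β hβ k
    rw [F_pow_mul, map_sum]
    simp only [Phi_pow_mul]
    have hz : ∀ i, i ≤ k / p → k - p * i ≠ 0 →
        F K i r * Phi p (F K (k - p * i) (monomial β (1 : K))) = 0 := fun i _ h => by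
      rw [trb_F p hβ (Nat.one_le_iff_ne_zero.2 h), mul_zero]
    by_cases hk : p ∣ k
    · obtain ⟨m, rfl⟩ := hk
      rw [if_pos (Dvd.intro m rfl), Nat.mul_div_cancel_left m hp]
      rw [Finset.sum_eq_single m]
      · rw [Nat.sub_self, F_zero, Phi_monomial p hβ]
        split_ifs
        · rw [mul_one, mul_one]
        · rw [mul_zero, mul_zero, map_zero]
      · intro i hi him
        rw [Finset.mem_range] at hi
        have h1 : i < m := by omega
        refine hz i (by rw [Nat.mul_div_cancel_left m hp]; omega) ?_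
        have := Nat.mul_lt_mul_of_pos_left h1 hp
        omega
      · intro h
        exact absurd (Finset.mem_range.2 (Nat.lt_succ_self m)) h
    · rw [if_neg hk]
      refine Finset.sum_eq_zero fun i hi => ?_
      rw [Finset.mem_range] at hi
      refine hz i (by omega) fun h => hk ?_
      have h1 : p * i ≤ k := by
        calc p * i ≤ p * (k / p) := Nat.mul_le_mul_left p (by omega)
          _ ≤ k := Nat.mul_div_le k p
      exact ⟨i, by omega⟩

private lemma trb_not_dvd_one : ¬ p ∣ 1 := by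
  rw [Nat.dvd_one]
  exact (Fact.out : p.Prime).one_lt.ne'

lemma Phi_E1_mul (x y : T V K) : Phi p (E K 1 x * y) = - Phi p (x * E K 1 y) := by
  have h := Phi_E p 1 (x * y)
  rw [if_neg (trb_not_dvd_one p), E_one_mul, map_add] at h
  exact eq_neg_of_add_eq_zero_left h

lemma Phi_F1_mul (x y : T V K) : Phi p (F K 1 x * y) = - Phi p (x * F K 1 y) := by
  have h := Phi_F p 1 (x * y)
  rw [if_neg (trb_not_dvd_one p), F_one_mul, map_add] at h
  exact eq_neg_of_add_eq_zero_left h

private lemma trb_sign : ((-1 : T V K)) ^ (p - 1) = 1 := by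
  have hp : 0 < p := (Fact.out : p.Prime).pos
  have h1 : ((-1 : K)) ^ (p - 1) = 1 := by
    have h2 : ((-1 : K)) ^ p = -1 := by
      have := map_neg (frobenius K p) 1
      rwa [map_one, frobenius_def] at this
    have h3 : ((-1 : K)) ^ p = (-1) ^ (p - 1) * (-1) := by
      rw [← pow_succ, Nat.sub_add_cancel hp]
    rw [h3] at h2
    have h4 : ((-1 : K)) ^ (p - 1) = (-1) ^ (p - 1) * (-1) * (-1) := by ring
    rw [h4, h2]
    ring
  have h5 : (-1 : T V K) = C (-1) := by rw [map_neg, map_one]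
  rw [h5, ← map_pow, h1, map_one]

private lemma trb_iter (D : T V K →ₗ[K] T V K)
    (hD : ∀ x y, Phi p (D x * y) = - Phi p (x * D y)) (k : ℕ) :
    ∀ x y, Phi p ((D ^ k) x * y) = (-1) ^ k * Phi p (x * (D ^ k) y) := by
  induction k with
  | zero =>
    intro x y
    rw [pow_zero, pow_zero, one_mul]
    rfl
  | succ k ih =>
    intro x y
    have h1 : (D ^ (k + 1)) x = (D ^ k) (D x) := by rw [pow_succ]; rfl
    have h2 : (D ^ (k + 1)) y = D ((D ^ k) y) := by rw [pow_succ']; rfl
    rw [h1, ih (D x) y, hD, h2, pow_succ]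
    ring

private lemma trb_fact : ((Nat.factorial (p - 1) : ℕ) : K) ≠ 0 := by
  have hpp : p.Prime := Fact.out
  rw [Ne, CharP.cast_eq_zero_iff K p, hpp.dvd_factorial]
  have := hpp.pos
  omega

private lemma trb_pm1 (D Dk : T V K →ₗ[K] T V K)
    (hD : ∀ x y, Phi p (D x * y) = - Phi p (x * D y))
    (hk : ∀ x, (p - 1).factorial • Dk x = (D ^ (p - 1)) x) (x y : T V K) :
    Phi p (Dk x * y) = Phi p (x * Dk y) := by
  have h0 := trb_fact (K := K) p
  have h1 : ∀ z, Dk z = ((((p - 1).factorial : ℕ) : K))⁻¹ • (D ^ (p - 1)) z := fun z => by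
    rw [← hk z, ← Nat.cast_smul_eq_nsmul K, smul_smul, inv_mul_cancel₀ h0, one_smul]
  rw [h1 x, h1 y, smul_mul_assoc, mul_smul_comm, Phi_smul_prime, Phi_smul_prime,
    trb_iter p D hD, trb_sign, one_mul]

/-- (T2) -/
theorem Phi_Lam {d : V →₀ ℕ} {z : ℤ} (u : T V K) {w : T V K} (hw : w ∈ S K d z) (hz : (p : ℤ) ∣ z) :
    Phi p (Lam K p u * w) = Phi p (u * Lam K p w) := by
  have h1 : Phi p (Lam K p u * w) = Phi p (E K (p - 1) u * F K (p - 1) w) :=
    trb_pm1 p (F K 1) (F K (p - 1)) (Phi_F1_mul p) (fun x => factorial_smul_F K (p - 1) x) _ _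
  have h2 : Phi p (E K (p - 1) u * F K (p - 1) w) = Phi p (u * E K (p - 1) (F K (p - 1) w)) :=
    trb_pm1 p (E K 1) (E K (p - 1)) (Phi_E1_mul p) (fun x => factorial_smul_E K (p - 1) x) _ _
  rw [h1, h2, EF_eq_Lam K p hw hz]

end FSig
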