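import Pool.Agent.Lib.FSig.OpsProj
import Pool.Agent.Lib.FSig.TrBasic
import Pool.Agent.Lib.FSig.UDim

/-!
# MP_05de8f_ag : the norm `π Lam u` and the projector next to the trace (module Norm)

PROOFS. `e := E^(p)`, `f := F^(p)`, `prj e f J` from OpsProj.
* `norm_mem`: `u ∈ S d 0`, `|d| < 2p(J+1)`, `J+1 < p` ⟹ `y = prj e f J (Lam u) ∈ Inv ⊓ S d 0`. `x = Lam u ∈ Xp d 0` (`Lam_mem_S`, `E1_Lam`, `F1_Lam`),
  `e^(J+1) x ∈ S d (2p(J+1)) = ⊥` (`S_eq_bot`, iterate `E_mem_S`), the same for `f`. `e_prj`, `f_prj` with `X = Xp d` (`Xp_E`, `Xp_F`, `H_p`), `hJ`: `j(j+1)` is not divisible by `p`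
  for `1 ≤ j ≤ J < p - 1`. So `e y = f y = 0`; `y ∈ Xp d 0` (`prj_mem`) gives `E y = F y = 0`; `mem_Inv_of` (`|d| < 2p(J+1) ≤ 2p²`).
* `norm_comm`: `prj_comm` with `θ = Lam`, `X = S d 0` (`E_Lam_comm`, `F_Lam_comm` for `k = 1`: `Lam (f (e x)) = f (Lam (e x)) = f (e (Lam x))`).
* `norm_of_Inv`: `x ∈ Inv ⟹ prj e f J x = x` (`prj_of_e_eq_zero`).
* `Phi_prj`: `g ∈ Inv`: `Phi (g · prj e f J w) = prj E F J (Phi (g w))`: `prj_comm_add` with `θ = Phi (g · )` (`Phi_smul_prime`), `X = ⊤`: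
  `Phi (g f(e w)) = Phi (f (g e(w))) = F (Phi (g e(w))) = F (E (Phi (g w)))` (`F_Inv_mul`, `Phi_F` with `k = p`).
* `prj_kill`: `y ∈ S d 0`, `E^{J+1} y = 0` resp. `F^{J+1} y = 0` (iterates), `J+1 < p` ⟹ `E^(k) (prj E F J y) = 0`, `1 ≤ k < p`: `e_prj`, `f_prj` with
  `X j = S d (2j)` (`H_one`), then `E_of_E_one`.
* `constantCoeff_prj`: `prj_sub_mem` with `Y = ker constantCoeff` (`F 1 z` has constant coefficient `0`: by linearity for monomials; or `F 1 z ∈ ` the ideal of the variables: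
  `MvPolynomial.induction_on z` and `F_one_mul`).
* `constantCoeff_Phi_prj`: combination.
-/

namespace FSig

open MvPolynomial Finset

section one

variable {V : Type*} [DecidableEq V] (K : Type*) [Field K] (p : ℕ) [Fact p.Prime] [CharP K p]

/-- the norm operator -/
noncomputable def Nm (J : ℕ) (u : T V K) : T V K := prj (E K p) (F K p) J (Lam K p u)

omit [DecidableEq V] in
private lemma nm_ne (J : ℕ) (hJp : J + 1 < p) :
    ∀ j : ℕ, 1 ≤ j → j ≤ J → ((j * (j + 1) : ℕ) : K) ≠ 0 := by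
  intro j h1 h2 h0
  rw [CharP.cast_eq_zero_iff K p] at h0
  rcases (Nat.Prime.dvd_mul (Fact.out : p.Prime)).1 h0 with h | h
  · exact absurd (Nat.le_of_dvd (by omega) h) (by omega)
  · exact absurd (Nat.le_of_dvd (by omega) h) (by omega)

private lemma nm_FE {d : V →₀ ℕ} (x : T V K) (hx : x ∈ S K d 0) :
    F K p (E K p x) ∈ S K d 0 := by
  have h := F_mem_S K (E_mem_S K hx p) p
  have h1 : (0 : ℤ) + 2 * p - 2 * p = 0 := by ring
  rw [h1] at h
  exact h

private lemma nm_XFE {d : V →₀ ℕ} (x : T V K) (hx : x ∈ Xp K p d 0) :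
    F K p (E K p x) ∈ Xp K p d 0 := by
  have h := Xp_F K p _ _ (Xp_E K p 0 x hx)
  have h1 : (0 : ℤ) + 1 - 1 = 0 := by ring
  rw [h1] at h
  exact h

theorem norm_mem {d : V →₀ ℕ} {u : T V K} (hu : u ∈ S K d 0) {J : ℕ} (hJ : d.degree < 2 * p * (J + 1))
    (hJp : J + 1 < p) : Nm K p J u ∈ IS K d := by
  have hx0 : Lam K p u ∈ S K d 0 := Lam_mem_S K p hu
  have hxX : Lam K p u ∈ Xp K p d 0 := by
    unfold Xp
    refine ⟨⟨?_, ?_⟩, ?_⟩
    · rw [mul_zero]
      exact hx0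
    · exact E1_Lam K p hu (dvd_zero _)
    · exact F1_Lam K p u
  have hcast : (d.degree : ℤ) < 2 * ((p * (J + 1) : ℕ) : ℤ) := by
    have h1 : ((2 * p * (J + 1) : ℕ) : ℤ) = 2 * ((p * (J + 1) : ℕ) : ℤ) := by push_cast; ring
    rw [← h1]
    exact_mod_cast hJ
  have he0 : ((E K p) ^ (J + 1)) (Lam K p u) = 0 := by
    rw [E_p_pow, E_eq_zero K hx0 (by rw [zero_add]; exact hcast), smul_zero]
  have hf0 : ((F K p) ^ (J + 1)) (Lam K p u) = 0 := by
    rw [F_p_pow, F_eq_zero K hx0 (by linarith), smul_zero]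
  have hy : prj (E K p) (F K p) J (Lam K p u) ∈ Xp K p d 0 :=
    prj_mem (E K p) (F K p) (Xp K p d 0) (nm_XFE K p) J hxX
  have hye := e_prj (E K p) (F K p) (Xp K p d) (fun j x hx => Xp_E K p j x hx)
    (fun j x hx => Xp_F K p j x hx) (fun j x hx => H_p K p j x hx) J (nm_ne K p J hJp) hxX he0
  have hyf := f_prj (E K p) (F K p) (Xp K p d) (fun j x hx => Xp_E K p j x hx)
    (fun j x hx => Xp_F K p j x hx) (fun j x hx => H_p K p j x hx) J (nm_ne K p J hJp) hxX hf0
  have hyS : prj (E K p) (F K p) J (Lam K p u) ∈ S K d 0 := by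
    have h1 := hy.1.1
    rw [mul_zero] at h1
    exact h1
  rw [mem_IS]
  refine ⟨hyS, mem_Inv_of K p hyS ?_ hy.1.2 hye hy.2 hyf⟩
  calc d.degree < 2 * p * (J + 1) := hJ
    _ ≤ 2 * p * p := Nat.mul_le_mul_left _ hJp.le
    _ = 2 * p ^ 2 := by ring

theorem norm_comm {d : V →₀ ℕ} {u : T V K} (hu : u ∈ S K d 0) (J : ℕ) :
    Nm K p J u = Lam K p (prj (E K p) (F K p) J u) := by
  unfold Nm
  symm
  refine prj_comm (E K p) (F K p) (E K p) (F K p) (S K d 0) (nm_FE K p) (Lam K p) ?_ J hu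
  intro x hx
  have h1 := E_Lam_comm K p hx (dvd_zero _) 1
  have hx2 := E_mem_S K hx p
  have h2 := F_Lam_comm K p hx2 (by rw [zero_add]; exact Dvd.intro_left 2 rfl) 1
  rw [mul_one] at h1 h2
  rw [← h2, ← h1]

lemma prj_mem_S {d : V →₀ ℕ} {u : T V K} (hu : u ∈ S K d 0) (J : ℕ) :
    prj (E K p) (F K p) J u ∈ S K d 0 :=
  prj_mem (E K p) (F K p) (S K d 0) (nm_FE K p) J hu

omit [DecidableEq V] in
lemma norm_of_Inv {x : T V K} (hx : x ∈ Inv (V := V) K) (J : ℕ) : prj (E K p) (F K p) J x = x :=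
  prj_of_e_eq_zero (E K p) (F K p) J
    ((mem_Inv_iff K x).1 hx p (Fact.out : p.Prime).one_lt.le).1

omit [DecidableEq V] in
lemma prj_kill_E {d : V →₀ ℕ} {y : T V K} (hy : y ∈ S K d 0) {J : ℕ} (hJp : J + 1 < p)
    (h0 : ((E K 1) ^ (J + 1)) y = 0) {k : ℕ} (h1 : 1 ≤ k) (hk : k < p) :
    E K k (prj (E K 1) (F K 1) J y) = 0 := by
  refine E_of_E_one K p ?_ h1 hk
  refine e_prj (E K 1) (F K 1) (fun j => S K d (2 * j)) ?_ ?_ ?_ J (nm_ne K p J hJp) ?_ h0
  · intro j x hx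
    have h := E_mem_S K hx 1
    have h2 : 2 * j + 2 * ((1 : ℕ) : ℤ) = 2 * (j + 1) := by push_cast; ring
    rw [h2] at h
    exact h
  · intro j x hx
    have h := F_mem_S K hx 1
    have h2 : 2 * j - 2 * ((1 : ℕ) : ℤ) = 2 * (j - 1) := by push_cast; ring
    rw [h2] at h
    exact h
  · intro j x hx
    exact H_one K hx
  · show y ∈ S K d (2 * 0)
    rw [mul_zero]
    exact hy
omit [DecidableEq V] in
lemma prj_kill_F {d : V →₀ ℕ} {y : T V K} (hy : y ∈ S K d 0) {J : ℕ} (hJp : J + 1 < p)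
    (h0 : ((F K 1) ^ (J + 1)) y = 0) {k : ℕ} (h1 : 1 ≤ k) (hk : k < p) :
    F K k (prj (E K 1) (F K 1) J y) = 0 := by
  refine F_of_F_one K p ?_ h1 hk
  refine f_prj (E K 1) (F K 1) (fun j => S K d (2 * j)) ?_ ?_ ?_ J (nm_ne K p J hJp) ?_ h0
  · intro j x hx
    have h := E_mem_S K hx 1
    have h2 : 2 * j + 2 * ((1 : ℕ) : ℤ) = 2 * (j + 1) := by push_cast; ring
    rw [h2] at h
    exact h
  · intro j x hx
    have h := F_mem_S K hx 1
    have h2 : 2 * j - 2 * ((1 : ℕ) : ℤ) = 2 * (j - 1) := by push_cast; ring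
    rw [h2] at h
    exact h
  · intro j x hx
    exact H_one K hx
  · show y ∈ S K d (2 * 0)
    rw [mul_zero]
    exact hy

omit [DecidableEq V] [Fact p.Prime] [CharP K p] in
private lemma nm_cc (z : T V K) : constantCoeff (F K 1 z) = 0 := by
  induction z using MvPolynomial.induction_on with
  | C a => rw [F_C K 1 le_rfl a, map_zero]
  | add p q hp hq => rw [map_add, map_add, hp, hq, add_zero]
  | mul_X q i hq =>
    rw [F_one_mul, map_add, map_mul, map_mul, hq, zero_mul, zero_add]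
    have h1 : constantCoeff (F K 1 (X i : T V K)) = 0 := by
      obtain ⟨v, b⟩ := i
      cases b
      · have h2 : F K 1 (X (v, false) : T V K) = vb K v := F_one_va K v
        rw [h2]
        unfold vb
        exact constantCoeff_X (R := K) (σ := V × Bool) (v, true)
      · have h2 : F K 1 (X (v, true) : T V K) = 0 := F_vb K 1 le_rfl v
        rw [h2, map_zero]
    rw [h1, mul_zero]

omit [DecidableEq V] [Fact p.Prime] [CharP K p] in
lemma constantCoeff_prj (J : ℕ) (y : T V K) :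
    constantCoeff (prj (E K 1) (F K 1) J y) = constantCoeff y := by
  let Y : Submodule K (T V K) :=
    { carrier := {f | constantCoeff f = 0}
      add_mem' := by
        intro a b ha hb
        show constantCoeff (a + b) = 0
        rw [map_add, show constantCoeff a = 0 from ha, show constantCoeff b = 0 from hb, add_zero]
      zero_mem' := map_zero (constantCoeff (σ := V × Bool) (R := K))
      smul_mem' := by
        intro c a ha
        show constantCoeff (c • a) = 0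
        rw [MvPolynomial.smul_eq_C_mul, map_mul, show constantCoeff a = 0 from ha, mul_zero] }
  have h := prj_sub_mem (E K 1) (F K 1) Y (fun y => nm_cc K (E K 1 y)) J y
  have h1 : constantCoeff (prj (E K 1) (F K 1) J y - y) = 0 := h
  rw [map_sub, sub_eq_zero] at h1
  exact h1

end one

section two

variable {V : Type*} [DecidableEq V] [Fintype V] {K : Type*} [Field K] (p : ℕ) [Fact p.Prime] [CharP K p]
  [PerfectRing K p]

omit [DecidableEq V] in
theorem Phi_prj {g : T V K} (hg : g ∈ Inv (V := V) K) (J : ℕ) (w : T V K) :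
    Phi p (g * prj (E K p) (F K p) J w) = prj (E K 1) (F K 1) J (Phi p (g * w)) := by
  have hp : 0 < p := (Fact.out : p.Prime).pos
  refine prj_comm_add (E K p) (F K p) (E K 1) (F K 1) ⊤ (fun _ _ => Submodule.mem_top)
    ((Phi p).comp (AddMonoidHom.mulLeft g)) ?_ ?_ J (Submodule.mem_top (x := w))
  · intro c x
    show Phi p (g * (((c : K))⁻¹ • x)) = ((c : K))⁻¹ • Phi p (g * x)
    rw [mul_smul_comm, Phi_smul_prime]
  · intro x _
    show Phi p (g * F K p (E K p x)) = F K 1 (E K 1 (Phi p (g * x)))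
    rw [← F_Inv_mul K hg, Phi_F, if_pos dvd_rfl, Nat.div_self hp, ← E_Inv_mul K hg, Phi_E,
      if_pos dvd_rfl, Nat.div_self hp]

omit [DecidableEq V] in
lemma constantCoeff_Phi_prj {g : T V K} (hg : g ∈ Inv (V := V) K) (J : ℕ) (w : T V K) :
    constantCoeff (Phi p (g * prj (E K p) (F K p) J w)) = constantCoeff (Phi p (g * w)) := by
  rw [Phi_prj p hg, constantCoeff_prj]

end two

end FSig
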