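import Pool.Agent.Lib.FSig.UDim
import Pool.Agent.Lib.FSig.CDefs

/-!
# MP_05de8f_ag : definitions for the rank assembly (ZDefs)

`NS p` = elements without small monomials (all exponents `≤ p-1`), `lamFun`: the `K`-linear functional `f ↦ (constantCoeff (φ f))^p` of a `p^{-1}`-linear map `φ : Rp → Rp`;
`ub`, `lb`: the local upper and lower bounds.
-/

namespace FSig

open MvPolynomial Finset

/-- elements without small monomials -/
def NS {V : Type*} (K : Type*) [Field K] (p : ℕ) : Submodule K (T V K) where
  carrier := {f | ∀ μ, Small p μ → coeff μ f = 0}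
  add_mem' := by
    intro f g hf hg μ hμ
    rw [coeff_add, hf μ hμ, hg μ hμ, add_zero]
  zero_mem' := by
    intro μ _
    exact coeff_zero μ
  smul_mem' := by
    intro c f hf μ hμ
    rw [coeff_smul, hf μ hμ, smul_zero]

lemma mem_NS {V : Type*} (K : Type*) [Field K] (p : ℕ) {f : T V K} :
    f ∈ NS K p ↔ ∀ μ, Small p μ → coeff μ f = 0 := Iff.rfl

section

variable {m n : ℕ}

/-- local upper bound -/
noncomputable def ub (p : ℕ) (d : Vx m n →₀ ℕ) : ℤ := by
  classical
  exact if ∃ v, p ≤ d v then
      (if ∃ v, d v ≤ p - 2 then invN (bar p d) - fus p (bar p d) else invN (bar p d))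
    else invN d

/-- local lower bound -/
noncomputable def lb (p : ℕ) (d : Vx m n →₀ ℕ) : ℤ := by
  classical
  exact if ∀ v, p ≤ d v then invN (bar p d)
    else if ∃ v, p ≤ d v then invN (bar p d) - fus p (bar p d)
    else invN d

end

section

variable {m n : ℕ} {K : Type*} [Field K] (p : ℕ) [Fact p.Prime] [CharP K p] [PerfectRing K p]

/-- the `K`-linear functional `f ↦ (constantCoeff (φ f))^p` on `Rp` -/
noncomputable def lamFun (φ : Rp m n K →+ Rp m n K) (hφ : PLin p φ) : Rp m n K →ₗ[K] K where
  toFun f := (constantCoeff (φ f : T (Vx m n) K)) ^ p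
  map_add' := by
    intro f g
    rw [map_add, Subalgebra.coe_add, map_add, add_pow_char]
  map_smul' := by
    intro c f
    have h : c • f = (algebraMap K (Rp m n K) (root p c)) ^ p * f := by
      rw [← map_pow, root_pow, Algebra.smul_def]
    rw [h, hφ, Subalgebra.coe_mul, map_mul, mul_pow]
    have h2 : constantCoeff ((algebraMap K (Rp m n K) (root p c) : Rp m n K) : T (Vx m n) K) = root p c := by
      rw [Subalgebra.coe_algebraMap, MvPolynomial.algebraMap_eq, constantCoeff_C]
    rw [h2, root_pow]
    rfl

lemma lamFun_apply (φ : Rp m n K →+ Rp m n K) (hφ : PLin p φ) (f : Rp m n K) :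
    lamFun p φ hφ f = (constantCoeff (φ f : T (Vx m n) K)) ^ p := rfl

end

end FSig
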