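import Pool.Agent.Lib.FSig.ThetaAll
import Pool.Agent.Lib.FSig.ZDefs
import Pool.Agent.Lib.FSig.LamDefs
import Pool.Agent.Lib.FSig.LamImage
import Pool.Agent.Lib.FSig.Norm

/-!
# MP_05de8f_ag : dimension of `IS d` modulo `NS p` when some degree is large (section 7 (D6)) (module ThetaDim)

THEOREM `finrank_small`: `d v ≤ 2p-2` for all `v`, some `d v ≥ p`, `|d| < 2p(J+1)`, `J+1 < p`:
`finrank (IS d) - finrank (IS d ⊓ NS p) = lamN p (bar p d)`.

PROOF. `θ` from `theta_exists`, restricted to `IS d` (finite-dimensional, `≤ S d 0`). Kernel `= IS d ⊓ NS p` (last property). Claim: the image is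
`L := (S (bar p d) 0).map (Lam p) ⊓ Inv`. Then rank-nullity. `θ (Lam u) = Lam (θ u)` for `u ∈ S d 0` (`E^(p-1) u ∈ S d (2(p-1))`, `E_mem_S`).
(⊆) `f ∈ IS d`: `f = Lam u`, `u ∈ S d 0` (`exists_Lam`), `θ f = Lam (θ u)`, `θ u ∈ S (bar p d) 0`; `E^(k) θ f = θ (E^(k) f) = 0`, `k ≥ 1`, the same for `F`: `θ f ∈ Inv` (`mem_Inv_iff`).
(⊇) `g = Lam u' ∈ Inv`, `u' ∈ S (bar p d) 0`; choose `u ∈ S d 0`, `θ u = u'`. `f := Nm K p J u ∈ IS d` (`norm_mem`). `θ f = θ (prj E^(p) F^(p) J (Lam u)) = prj E^(p) F^(p) J (θ (Lam u))`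
(`prj_comm` with `X = S d 0`: `F^(p) (E^(p) x) ∈ S d 0`, `θ (F^(p) E^(p) x) = F^(p) E^(p) θ x`) `= prj .. (Lam u') = prj .. g = g` (`norm_of_Inv`).
`NS_inf_eq_bot`: if all `d v ≤ p-1` then every monomial of `S d w` is small, so `S d w ⊓ NS p = ⊥`.
-/

namespace FSig

open MvPolynomial Finset

variable {V : Type*} [DecidableEq V] (K : Type*) [Field K] (p : ℕ) [Fact p.Prime] [CharP K p]

theorem finrank_small (d : V →₀ ℕ) (hd : ∀ v, d v ≤ 2 * p - 2) {v : V} (hv : p ≤ d v) {J : ℕ}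
    (hJ : d.degree < 2 * p * (J + 1)) (hJp : J + 1 < p) :
    (Module.finrank K (IS K d) : ℤ) - (Module.finrank K ((IS K d ⊓ NS K p : Submodule K (T V K))) : ℤ)
      = lamN K p (bar p d) := by
  obtain ⟨θ, hE, hF, hS, hsurj, hsm⟩ := theta_exists K p d hd
  have hLam : ∀ w, ∀ u ∈ S K d w, θ (Lam K p u) = Lam K p (θ u) := by
    intro w u hu
    unfold Lam
    rw [LinearMap.comp_apply, LinearMap.comp_apply, hF _ _ (E_mem_S K hu (p - 1)), hE _ _ hu]
  have hFE : ∀ x ∈ S K d 0, F K p (E K p x) ∈ S K d 0 := by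
    intro x hx
    have h := F_mem_S K (E_mem_S K hx p) p
    rwa [add_sub_cancel_right] at h
  have hfin : Module.Finite K (IS K d) := by
    have h1 := finite_S K d 0
    exact Submodule.finiteDimensional_of_le (inf_le_left : IS K d ≤ S K d 0)
  let φ : IS K d →ₗ[K] T V K := θ.domRestrict (IS K d)
  have hφ : ∀ f : IS K d, φ f = θ (f : T V K) := fun _ => rfl
  have hrn := LinearMap.finrank_range_add_finrank_ker φ
  have hker : (LinearMap.ker φ).map (IS K d).subtype = IS K d ⊓ NS K p := by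
    ext f
    rw [Submodule.mem_map, Submodule.mem_inf, mem_NS]
    constructor
    · rintro ⟨⟨g, hg⟩, hg0, rfl⟩
      rw [LinearMap.mem_ker] at hg0
      have hg0' : θ g = 0 := hg0
      exact ⟨hg, (hsm 0 g ((mem_IS K).1 hg).1).1 hg0'⟩
    · rintro ⟨h1, h2⟩
      refine ⟨⟨f, h1⟩, ?_, rfl⟩
      rw [LinearMap.mem_ker]
      exact (hsm 0 f ((mem_IS K).1 h1).1).2 h2
  have hk : Module.finrank K (LinearMap.ker φ) =
      Module.finrank K ((IS K d ⊓ NS K p : Submodule K (T V K))) := by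
    rw [← hker, Submodule.finrank_map_subtype_eq]
  have hrange : LinearMap.range φ = lamS K p (bar p d) := by
    ext g
    unfold lamS
    rw [LinearMap.mem_range, Submodule.mem_inf, Submodule.mem_map, Subalgebra.mem_toSubmodule]
    constructor
    · rintro ⟨⟨f, hf⟩, rfl⟩
      rw [hφ]
      obtain ⟨hf1, hf2⟩ := (mem_IS K).1 hf
      obtain ⟨u, hu, hLu⟩ := exists_Lam K p hv hf
      refine ⟨⟨θ u, hS 0 u hu, ?_⟩, ?_⟩
      · rw [← hLam 0 u hu, hLu]
      · rw [mem_Inv_iff]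
        intro k hk
        have h := (mem_Inv_iff K f).1 hf2 k hk
        show E K k (θ f) = 0 ∧ F K k (θ f) = 0
        rw [← hE 0 f hf1 k, ← hF 0 f hf1 k, h.1, h.2, map_zero]
        exact ⟨rfl, rfl⟩
    · rintro ⟨⟨u', hu', rfl⟩, hg⟩
      obtain ⟨u, hu, rfl⟩ := hsurj 0 u' hu'
      refine ⟨⟨Nm K p J u, norm_mem K p hu hJ hJp⟩, ?_⟩
      rw [hφ]
      show θ (prj (E K p) (F K p) J (Lam K p u)) = Lam K p (θ u)
      rw [prj_comm (E K p) (F K p) (E K p) (F K p) (S K d 0) hFE θ ?_ J (Lam_mem_S K p hu),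
        hLam 0 u hu, norm_of_Inv K p hg]
      intro x hx
      rw [hF _ _ (E_mem_S K hx p), hE _ _ hx]
  rw [hk, hrange] at hrn
  unfold lamN
  rw [← hrn]
  push_cast
  ring

omit [CharP K p] in
lemma NS_inf_eq_bot (d : V →₀ ℕ) (hd : ∀ v, d v ≤ p - 1) (w : ℤ) : S K d w ⊓ NS K p = ⊥ := by
  rw [eq_bot_iff]
  rintro f ⟨h1, h2⟩
  rw [Submodule.mem_bot]
  ext μ
  rw [coeff_zero]
  by_contra hne
  apply hne
  refine h2 μ ?_
  rintro ⟨v, b⟩
  have h3 := ((mem_S_iff K).1 h1 μ hne).1 v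
  have h4 := hd v
  cases b <;> omega

end FSig
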