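import Pool.Agent.Lib.FSig.TrBasic

/-!
# MP_05de8f_ag : (T3) every `p^{-1}`-linear map `T → T` is `Phi (h · )` (module TrRep)

PROOF. For exponents `β, μ` with entries in `[0, p-1]`: `Phi (x^((p-1)-μ) x^β) = 1` if `β = μ`, else `0` (the exponent `(p-1) - μ + β ≤ 2p-2` is
`≡ p-1` mod `p` only if it equals `p-1`; `Phi_monomial` is only for exponents `< p`, so use `coeff_Phi`). Put
`h = ∑_μ ψ(x^μ)^p x^((p-1)-μ)` (`μ` over `Fintype.piFinset (range p)` or `Finset.Iic (cst (p-1))`). Both `ψ` and `Phi (h ·)` are additive and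
`p^{-1}`-linear, so by `T_induction` it is enough to compare on `r^p x^β`: `r ψ(x^β)`.
`Phi_nondeg`: `h ≠ 0`, `coeff μ h ≠ 0`, `β x = (p-1) - μ x % p`, `ν = μ / p`: `μ + β = pν + (p-1)`, `coeff ν (Phi (h x^β)) = root (coeff μ h) ≠ 0`.
`Phi_pair_nondeg`: for homogeneous `h ∈ S e z` and the complementary degree: `coeff (cst (p-1)) (h * monomial (cst (p-1) - μ) 1) = coeff μ h` if `Small p μ`.
-/

namespace FSig

open MvPolynomial Finset

variable {V : Type*} [Fintype V] {K : Type*} [Field K] (p : ℕ) [Fact p.Prime] [CharP K p] [PerfectRing K p]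

private lemma Phi_dual {β μ : V × Bool →₀ ℕ} (hβ : ∀ x, β x < p) (hμ : ∀ x, μ x < p) :
    Phi p (monomial (cst V (p - 1) - μ) (1 : K) * monomial β 1) = if β = μ then 1 else 0 := by
  classical
  ext ν
  rw [coeff_Phi, monomial_mul, one_mul, coeff_monomial]
  by_cases h : cst V (p - 1) - μ + β = p • ν + cst V (p - 1)
  · have hx : ∀ x, ν x = 0 ∧ β x = μ x := by
      intro x
      have h1 := DFunLike.congr_fun h x
      simp only [Finsupp.add_apply, Finsupp.tsub_apply, Finsupp.smul_apply, cst_apply,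
        smul_eq_mul] at h1
      have h2 := hβ x
      have h3 := hμ x
      rcases Nat.eq_zero_or_pos (ν x) with h4 | h4
      · rw [h4, mul_zero] at h1
        exact ⟨h4, by omega⟩
      · exfalso
        have h5 : p ≤ p * ν x := Nat.le_mul_of_pos_right p h4
        omega
    have hν : ν = 0 := by
      ext x
      exact (hx x).1
    have hb : β = μ := by
      ext x
      exact (hx x).2
    rw [if_pos h, if_pos hb, hν, map_one]
    simp
  · rw [if_neg h, map_zero]
    by_cases hb : β = μ
    · rw [if_pos hb]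
      symm
      rw [coeff_one, if_neg]
      intro hν
      apply h
      ext x
      have h3 := hμ x
      simp only [Finsupp.add_apply, Finsupp.tsub_apply, Finsupp.smul_apply, cst_apply,
        smul_eq_mul]
      rw [hb, ← hν]
      simp only [Finsupp.coe_zero, Pi.zero_apply, mul_zero, zero_add]
      omega
    · rw [if_neg hb, coeff_zero]

theorem PL_rep (ψ : T V K →+ T V K) (hψ : PLin p ψ) : ∃ h : T V K, ∀ u, ψ u = Phi p (h * u) := by
  classical
  have hp : 0 < p := (Fact.out : p.Prime).pos
  refine ⟨∑ μ ∈ Finset.Iic (cst V (p - 1)),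
    (ψ (monomial μ 1)) ^ p * monomial (cst V (p - 1) - μ) 1, ?_⟩
  intro u
  refine T_induction p (fun u => ψ u = Phi p ((∑ μ ∈ Finset.Iic (cst V (p - 1)),
    (ψ (monomial μ 1)) ^ p * monomial (cst V (p - 1) - μ) 1) * u)) ?_ ?_ ?_ u
  · simp
  · intro f g hf hg
    rw [map_add, mul_add, map_add, hf, hg]
  · intro r β hβ
    have h1 : (∑ μ ∈ Finset.Iic (cst V (p - 1)),
        (ψ (monomial μ 1)) ^ p * monomial (cst V (p - 1) - μ) 1) * (r ^ p * monomial β (1 : K)) =
        r ^ p * ∑ μ ∈ Finset.Iic (cst V (p - 1)),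
          ((ψ (monomial μ 1)) ^ p * (monomial (cst V (p - 1) - μ) 1 * monomial β 1)) := by
      rw [Finset.sum_mul, Finset.mul_sum]
      refine Finset.sum_congr rfl fun μ _ => ?_
      ring
    rw [h1, Phi_pow_mul, map_sum, hψ r]
    congr 1
    rw [Finset.sum_congr rfl (g := fun μ => if β = μ then ψ (monomial μ 1) else 0)]
    · rw [Finset.sum_ite_eq, if_pos]
      rw [Finset.mem_Iic]
      intro x
      have := hβ x
      rw [cst_apply]
      omega
    · intro μ hμ
      rw [Finset.mem_Iic] at hμ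
      have hμ' : ∀ x, μ x < p := by
        intro x
        have := hμ x
        rw [cst_apply] at this
        omega
      rw [Phi_pow_mul, Phi_dual p hβ hμ']
      split_ifs
      · rw [mul_one]
      · rw [mul_zero]

theorem Phi_nondeg (h : T V K) (H : ∀ u, Phi p (h * u) = 0) : h = 0 := by
  classical
  have hp : 0 < p := (Fact.out : p.Prime).pos
  ext μ
  rw [coeff_zero]
  set ν : V × Bool →₀ ℕ := μ.mapRange (· / p) (Nat.zero_div p) with hν
  set β : V × Bool →₀ ℕ := cst V (p - 1) - μ.mapRange (· % p) (Nat.zero_mod p) with hβ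
  have h1 : p • ν + cst V (p - 1) = μ + β := by
    ext x
    simp only [hν, hβ, Finsupp.add_apply, Finsupp.tsub_apply, Finsupp.smul_apply, cst_apply,
      smul_eq_mul, Finsupp.mapRange_apply]
    have h2 := Nat.div_add_mod (μ x) p
    have h3 := Nat.mod_lt (μ x) hp
    omega
  have h2 : coeff ν (Phi p (h * monomial β (1 : K))) = 0 := by
    rw [H, coeff_zero]
  rw [coeff_Phi, h1, coeff_mul_monomial, mul_one] at h2
  exact (map_eq_zero_iff (root p) (root p).injective).mp h2

omit [PerfectRing K p] [CharP K p] in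
lemma coeff_cst_mul (h : T V K) {μ : V × Bool →₀ ℕ} (hμ : Small p μ) :
    coeff (cst V (p - 1)) (h * monomial (cst V (p - 1) - μ) 1) = coeff μ h := by
  have h1 : cst V (p - 1) = μ + (cst V (p - 1) - μ) := by
    ext x
    have := hμ x
    simp only [Finsupp.add_apply, Finsupp.tsub_apply, cst_apply]
    omega
  conv_lhs => rw [h1]
  rw [add_tsub_cancel_left, coeff_mul_monomial, mul_one]

end FSig
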