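import Pool.Agent.Lib.FSig.LowerOne
import Pool.Agent.Lib.FSig.ThetaDim
import Pool.Agent.Lib.FSig.InvLam
import Pool.Agent.Lib.FSig.DualMin
import Pool.Agent.Lib.FSig.TrRep

/-!
# MP_05de8f_ag : local lower bound, not all degrees large (module LowA)

THEOREM `low_A`: `d` balanced, `d v ≤ 2p-2`, not all `d v ≥ p`, `m + n < p`. There are `r` with `(r : ℤ) = lb p d`, additive `p^{-1}`-linear `φ_i : Rp → Rp`, `f_j ∈ Rp ⊓ S d 0` (`i, j : Fin r`) with
`det (constantCoeff (φ_i f_j)) ≠ 0`, and `constantCoeff (φ_i g) = 0` for `g ∈ Rp ⊓ S d' 0`, `d' ≠ d`.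

PROOF. `e = 2p-2-d`, `A = S e 0`, `U = RS d` (both finite-dimensional), `B w0 f = coeff (cst (p-1)) (f w0)`. `ker B.flip = RS d ⊓ NS p`: for a small monomial `μ` of `f ∈ S d 0` the monomial `cst (p-1) - μ` is in `S e 0`
(`monomial_mem_S`) and `coeff (cst (p-1)) (f * monomial (cst (p-1) - μ) 1) = coeff μ f` (`coeff_cst_mul`); conversely if `f ∈ NS p` then `coeff (cst (p-1)) (f w0) = 0` (`cst (p-1) = α + β` has small parts). So
`r := finrank (range B) = finrank (RS d) - finrank (RS d ⊓ NS p)` (`finrank_range_add_ker_flip`), `RS d = IS d` (`RS_eq_IS`). It equals `lb p d`: if all `d v ≤ p-1`: `NS_inf_eq_bot`, `finrank_Inv`: `invN d`. If some `d v ≥ p`: `finrank_small`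
(`J = m+n-1`) and `invN_eq_lamN_add_fus` for `bar p d`. `exists_minor` gives `x_i ∈ S e 0`, `f_j ∈ RS d`; `φ_i` from `lower_one` with `w0 = x_i`: `constantCoeff (φ_i g) = root (coeff (cst (p-1)) (g x_i))`;
`det (root (B x_i f_j)) = root (det (B x_i f_j)) ≠ 0` (`RingHom.map_det`, `root` is a ring isomorphism). For `g ∈ S d' 0`, `d' ≠ d`: `g x_i ∈ S (d'+e) 0` and `cst (p-1)` has multidegree `2p-2 ≠ d' + e`, so the coefficient is `0` (`mem_S_iff`).
-/

namespace FSig

open MvPolynomial Finset

variable {m n : ℕ} (K : Type*) [Field K] (p : ℕ) [Fact p.Prime] [CharP K p] [PerfectRing K p]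

private lemma wtm_sub {V : Type*} [Fintype V] (p : ℕ) {μ : V × Bool →₀ ℕ} (hμ : Small p μ)
    (h : wtm μ = 0) : wtm (cst V (p - 1) - μ) = 0 := by
  unfold wtm at h ⊢
  rw [Finsupp.sum_fintype _ _ (by intro x; simp)] at h ⊢
  have h1 : ∀ x : V × Bool, (if x.2 then -(((cst V (p - 1) - μ) x : ℕ) : ℤ)
      else (((cst V (p - 1) - μ) x : ℕ) : ℤ))
      = (if x.2 then -((p - 1 : ℕ) : ℤ) else ((p - 1 : ℕ) : ℤ))
        - (if x.2 then -(μ x : ℤ) else (μ x : ℤ)) := by
    intro x
    have h2 := hμ x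
    have h3 : (((cst V (p - 1) - μ) x : ℕ) : ℤ) = ((p - 1 : ℕ) : ℤ) - (μ x : ℤ) := by
      rw [Finsupp.tsub_apply, cst_apply]
      omega
    rw [h3]
    split_ifs <;> ring
  rw [Finset.sum_congr rfl fun x _ => h1 x, Finset.sum_sub_distrib, h, sub_zero,
    Fintype.sum_prod_type]
  simp

/-- the pairing of `S e 0` with `RS d` -/
private noncomputable def pairB (d e : Vx m n →₀ ℕ) : S K e 0 →ₗ[K] RS K d →ₗ[K] K :=
  LinearMap.mk₂ K (fun w f => coeff (cst (Vx m n) (p - 1)) ((f : T (Vx m n) K) * w))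
    (by
      intro w w' f
      rw [Submodule.coe_add, mul_add, coeff_add])
    (by
      intro c w f
      rw [Submodule.coe_smul, mul_smul_comm, coeff_smul])
    (by
      intro w f f'
      rw [Submodule.coe_add, add_mul, coeff_add])
    (by
      intro c w f
      rw [Submodule.coe_smul, smul_mul_assoc, coeff_smul])

omit [CharP K p] [PerfectRing K p] [Fact p.Prime] in
private lemma pairB_apply (d e : Vx m n →₀ ℕ) (w : S K e 0) (f : RS K d) :
    pairB K p d e w f
      = coeff (cst (Vx m n) (p - 1)) ((f : T (Vx m n) K) * (w : T (Vx m n) K)) := rfl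

omit [CharP K p] [PerfectRing K p] in
private lemma ker_map {d e : Vx m n →₀ ℕ} (hde : ∀ v, d v + e v = 2 * p - 2) :
    (LinearMap.ker (pairB K p d e).flip).map (RS K d).subtype = RS K d ⊓ NS K p := by
  classical
  ext f
  rw [Submodule.mem_map, Submodule.mem_inf]
  constructor
  · rintro ⟨g, hg, rfl⟩
    refine ⟨g.2, ?_⟩
    rw [LinearMap.mem_ker] at hg
    rw [mem_NS]
    intro μ hμ
    by_contra hne
    have hS : (g : T (Vx m n) K) ∈ S K d 0 := (Submodule.mem_inf.1 g.2).1
    obtain ⟨h1, h2⟩ := (mem_S_iff K).1 hS μ hne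
    have hν : (monomial (cst (Vx m n) (p - 1) - μ) (1 : K)) ∈ S K e 0 := by
      refine monomial_mem_S K 1 (fun v => ?_) ?_
      · have a1 := h1 v
        have a2 := hde v
        have a3 := hμ (v, false)
        have a4 := hμ (v, true)
        simp only [Finsupp.tsub_apply, cst_apply]
        omega
      · exact wtm_sub p hμ h2
    have h3 := LinearMap.congr_fun hg (⟨_, hν⟩ : S K e 0)
    rw [LinearMap.flip_apply, pairB_apply] at h3
    simp only [LinearMap.zero_apply] at h3
    rw [coeff_cst_mul p _ hμ] at h3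
    exact hne h3
  · rintro ⟨h1, h2⟩
    refine ⟨⟨f, h1⟩, ?_, rfl⟩
    rw [LinearMap.mem_ker]
    ext w
    rw [LinearMap.flip_apply, pairB_apply, LinearMap.zero_apply]
    simp only
    rw [coeff_mul]
    refine Finset.sum_eq_zero fun x hx => ?_
    rw [HasAntidiagonal.mem_antidiagonal] at hx
    have hsm : Small p x.1 := by
      intro v
      have := DFunLike.congr_fun hx v
      simp only [Finsupp.add_apply, cst_apply] at this
      omega
    rw [(mem_NS K p).1 h2 _ hsm, zero_mul]

theorem low_A (hN : m + n < p) {d : Vx m n →₀ ℕ} (hd : Bal d) (hd2 : ∀ v, d v ≤ 2 * p - 2)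
    (hA : ¬ ∀ v, p ≤ d v) : ∃ (r : ℕ) (φ : Fin r → (Rp m n K →+ Rp m n K)) (f : Fin r → Rp m n K),
      (r : ℤ) = lb p d ∧ (∀ i, PLin p (φ i)) ∧ (∀ j, (f j : T (Vx m n) K) ∈ S K d 0) ∧
      (Matrix.of fun i j => constantCoeff (φ i (f j) : T (Vx m n) K)).det ≠ 0 ∧
      ∀ i, ∀ d' : Vx m n →₀ ℕ, d' ≠ d → ∀ g : Rp m n K, (g : T (Vx m n) K) ∈ S K d' 0 →
        constantCoeff (φ i g : T (Vx m n) K) = 0 := by
  classical
  have hp2 : 2 ≤ p := (Fact.out : p.Prime).two_le
  obtain ⟨e, he⟩ : ∃ e : Vx m n →₀ ℕ, ∀ v, e v = 2 * p - 2 - d v :=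
    ⟨Finsupp.equivFunOnFinite.symm fun v => 2 * p - 2 - d v, fun v => rfl⟩
  have hde : ∀ v, d v + e v = 2 * p - 2 := by
    intro v
    have h1 := hd2 v
    have h2 := he v
    omega
  have hfinA : FiniteDimensional K (S K e 0) := finite_S K e 0
  have hfinS : FiniteDimensional K (S K d 0) := finite_S K d 0
  have hfinU : FiniteDimensional K (RS K d) := Submodule.finiteDimensional_of_le inf_le_left
  have hcount := finrank_range_add_ker_flip (pairB K p d e)
  have hker : Module.finrank K (LinearMap.ker (pairB K p d e).flip)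
      = Module.finrank K ((RS K d ⊓ NS K p : Submodule K (T (Vx m n) K))) := by
    rw [← ker_map K p hde]
    exact (Submodule.finrank_map_subtype_eq (RS K d) _).symm
  have hr : (Module.finrank K (LinearMap.range (pairB K p d e)) : ℤ) = lb p d := by
    have h1 : (Module.finrank K (LinearMap.range (pairB K p d e)) : ℤ)
        = (Module.finrank K (RS K d) : ℤ)
          - (Module.finrank K ((RS K d ⊓ NS K p : Submodule K (T (Vx m n) K))) : ℤ) := by
      rw [← hker]
      omega
    rw [h1, RS_eq_IS K p hd]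
    unfold lb
    rw [if_neg hA]
    by_cases hv : ∃ v, p ≤ d v
    · rw [if_pos hv]
      obtain ⟨v, hv⟩ := hv
      have hmn : 0 < m + n := by
        rcases v with i | j
        · have := i.2
          omega
        · have := j.2
          omega
      have hdeg : d.degree < 2 * p * (m + n - 1 + 1) := by
        rw [Finsupp.degree_eq_sum]
        have h2 : ∑ v, d v ≤ (m + n) * (2 * p - 2) := by
          calc ∑ v, d v ≤ ∑ _v : Vx m n, (2 * p - 2) := Finset.sum_le_sum fun v _ => hd2 v
            _ = (m + n) * (2 * p - 2) := by simp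
        have h3 : (m + n) * (2 * p - 2) < (m + n) * (2 * p) :=
          Nat.mul_lt_mul_of_pos_left (by omega) hmn
        have h4 : m + n - 1 + 1 = m + n := by omega
        rw [h4]
        calc ∑ v, d v < (m + n) * (2 * p) := by omega
          _ = 2 * p * (m + n) := by ring
      rw [finrank_small K p d hd2 hv hdeg (by omega)]
      have h5 := invN_eq_lamN_add_fus K p (bar p d) (by
        intro v
        have h6 : bar p d v = min (d v) (2 * p - 2 - d v) := rfl
        rw [h6]
        omega)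
      linarith
    · rw [if_neg hv]
      push Not at hv
      have h2 : (IS K d ⊓ NS K p : Submodule K (T (Vx m n) K)) = ⊥ := by
        rw [eq_bot_iff, ← NS_inf_eq_bot K p d (fun v => by have := hv v; omega) 0]
        exact inf_le_inf_right _ inf_le_left
      rw [h2, finrank_bot, finrank_Inv K p]
      simp
  obtain ⟨x, u, hdet⟩ := exists_minor (pairB K p d e)
  have hφ : ∀ i, ∃ φ : Rp m n K →+ Rp m n K, PLin p φ ∧ ∀ g : Rp m n K,
      constantCoeff (φ g : T (Vx m n) K) =
        root p (coeff (cst (Vx m n) (p - 1)) ((g : T (Vx m n) K) * (x i : T (Vx m n) K))) :=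
    fun i => lower_one p hN hd hde (x i).2
  choose φ hφ1 hφ2 using hφ
  refine ⟨_, φ, fun j => ⟨(u j : T (Vx m n) K), (Submodule.mem_inf.1 (u j).2).2⟩, hr, hφ1,
    fun j => (Submodule.mem_inf.1 (u j).2).1, ?_, ?_⟩
  · have h1 : (Matrix.of fun i j => constantCoeff (φ i
        (⟨(u j : T (Vx m n) K), (Submodule.mem_inf.1 (u j).2).2⟩ : Rp m n K) :
          T (Vx m n) K)) = (root p : K ≃+* K).toRingHom.mapMatrix
        (Matrix.of fun i j => pairB K p d e (x i) (u j)) := by
      ext i j
      rw [Matrix.of_apply, hφ2]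
      rfl
    rw [h1, ← RingHom.map_det]
    intro h0
    exact hdet ((map_eq_zero_iff _ (root p : K ≃+* K).injective).1 h0)
  · intro i d' hd' g hg
    rw [hφ2]
    have h1 : (g : T (Vx m n) K) * (x i : T (Vx m n) K) ∈ S K (d' + e) (0 + 0) :=
      mul_mem_S K hg (x i).2
    have h2 : coeff (cst (Vx m n) (p - 1)) ((g : T (Vx m n) K) * (x i : T (Vx m n) K)) = 0 := by
      by_contra hne
      obtain ⟨h3, _⟩ := (mem_S_iff K).1 h1 _ hne
      apply hd'
      ext v
      have h4 := h3 v
      have h5 := hde v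
      simp only [cst_apply, Finsupp.add_apply] at h4
      omega
    rw [h2, map_zero]

end FSig
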