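import Pool.Agent.Lib.FSig.LowerTwo
import Pool.Agent.Lib.FSig.ZDefs
import Pool.Agent.Lib.FSig.DualMin
import Pool.Agent.Lib.FSig.TrRep

/-!
# MP_05de8f_ag : local lower bound, all degrees large (module LowB)

THEOREM `low_B`: the same as `low_A` for `d` balanced with `p ≤ d v ≤ 2p-2` for all `v`; `lb p d = invN (bar p d)`.

PROOF. `e = 2p-2-d = bar p d`, `e v ≤ p-2`. `A = IS e`, `U = RS d = IS d`. Every `f ∈ IS d` is `Lam u`, `u ∈ S d 0` (`exists_Lam`); choose a linear section `σ : IS d →ₗ S d 0`, `Lam (σ f) = f`. `B h f = coeff (cst (p-1)) (h σ f)`, bilinear.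
`B` is injective in `h`: let `h ≠ 0`, `coeff ν h ≠ 0`; `ν x ≤ e x.1 ≤ p-2`, `μ := cst (p-1) - ν`, `u := monomial μ 1 ∈ S d 0`, `f := Nm K p (m+n-1) u ∈ IS d` (`norm_mem`, `|d| ≤ (m+n)(2p-2)`). By `norm_comm` `f = Lam (prj E^(p) F^(p) J u)`.
For any `u' ∈ S d 0` with `Lam u' = f`: `coeff (cst (p-1)) (h u') = (constantCoeff (φ f))^p` for the `φ` of `lower_two` does not depend on `u'`; so `B h f = coeff (cst (p-1)) (h prj(u)) = (constantCoeff (Phi (h prj u)))^p`
`= (constantCoeff (Phi (h u)))^p` (`constantCoeff_Phi_prj`, `h ∈ Inv`) `= coeff (cst (p-1)) (h * monomial μ 1) = coeff ν h ≠ 0` (`coeff_cst_mul` with `ν` small: `μ = cst (p-1) - ν`). So `r := finrank (range B) = finrank (IS e) = invN e`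
(`LinearMap.finrank_range_of_inj`, `finrank_Inv`). `exists_minor`: `x_i ∈ IS e`, `f_j ∈ IS d`; `φ_i` from `lower_two` for `h = x_i`: `constantCoeff (φ_i f_j) = constantCoeff (φ_i (Lam (σ f_j))) = root (B x_i f_j)`.
Other degrees: `g ∈ Rp ⊓ S d' 0`, `d' ≠ d`: `g = 0` or `d'` balanced (`Rp_component_zero`, or `g ∈ IS d'`); if all `d' v ≤ p-1`: `φ_i g = 0` (`lower_two`); otherwise `g = Lam u'`, `u' ∈ S d' 0` (`exists_Lam`, `g ∈ Inv` by `Rp_le_Inv`),
`constantCoeff = root (coeff (cst (p-1)) (x_i u')) = 0` since `d' + e ≠ 2p-2`.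
-/

namespace FSig

open MvPolynomial Finset

variable {m n : ℕ} (K : Type*) [Field K] (p : ℕ) [Fact p.Prime] [CharP K p] [PerfectRing K p]

private lemma lowb_wtm (μ : Vx m n × Bool →₀ ℕ) :
    wtm μ = ∑ v : Vx m n, ((μ (v, false) : ℤ) - (μ (v, true) : ℤ)) := by
  unfold wtm
  rw [Finsupp.sum_fintype _ _ (fun x => by simp), Fintype.sum_prod_type]
  refine Finset.sum_congr rfl fun v _ => ?_
  rw [Fintype.sum_bool]
  simp
  ring

private lemma lowb_deg {p : ℕ} {d : Vx m n →₀ ℕ} (hd2 : ∀ v, d v ≤ 2 * p - 2) :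
    d.degree ≤ (m + n) * (2 * p - 2) := by
  rw [Finsupp.degree_eq_sum]
  refine (Finset.sum_le_card_nsmul _ _ _ fun v _ => hd2 v).trans ?_
  rw [Finset.card_univ, smul_eq_mul]
  simp [Fintype.card_sum, Fintype.card_fin]

private lemma lowb_section {d : Vx m n →₀ ℕ} {v : Vx m n} (hv : p ≤ d v) :
    ∃ σ : IS K d →ₗ[K] T (Vx m n) K, ∀ f : IS K d, σ f ∈ S K d 0 ∧ Lam K p (σ f) = f := by
  classical
  let b := Module.Basis.ofVectorSpace K (IS K d)
  have h : ∀ i, ∃ u ∈ S K d 0, Lam K p u = ((b i : IS K d) : T (Vx m n) K) :=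
    fun i => exists_Lam K p hv (b i).2
  choose s hs1 hs2 using h
  refine ⟨b.constr K s, fun f => ⟨?_, ?_⟩⟩
  · rw [b.constr_apply]
    exact Submodule.sum_mem _ fun i _ => Submodule.smul_mem _ _ (hs1 i)
  · have h1 : (Lam K p).comp (b.constr K s) = (IS K d).subtype := by
      refine b.ext fun i => ?_
      rw [LinearMap.comp_apply, b.constr_basis, hs2]
      rfl
    exact LinearMap.congr_fun h1 f

private noncomputable def lowbB {e d : Vx m n →₀ ℕ} (σ : IS K d →ₗ[K] T (Vx m n) K) :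
    IS K e →ₗ[K] IS K d →ₗ[K] K :=
  LinearMap.mk₂ K (fun h f => coeff (cst (Vx m n) (p - 1)) ((h : T (Vx m n) K) * σ f))
    (fun h h' f => by rw [Submodule.coe_add, add_mul, coeff_add])
    (fun c h f => by rw [Submodule.coe_smul, smul_mul_assoc, coeff_smul])
    (fun h f f' => by rw [map_add, mul_add, coeff_add])
    (fun c h f => by rw [map_smul, mul_smul_comm, coeff_smul])

private lemma lowbB_apply {e d : Vx m n →₀ ℕ} (σ : IS K d →ₗ[K] T (Vx m n) K) (h : IS K e)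
    (f : IS K d) : lowbB K p σ h f = coeff (cst (Vx m n) (p - 1)) ((h : T (Vx m n) K) * σ f) :=
  rfl

private lemma lowb_inj (hm : 3 ≤ m) (hn : 3 ≤ n) (hN : m + n < p) {d e : Vx m n →₀ ℕ} (hd : Bal d)
    (hd2 : ∀ v, d v ≤ 2 * p - 2) (hde : ∀ v, d v + e v = 2 * p - 2) (he : ∀ v, e v ≤ p - 2)
    (σ : IS K d →ₗ[K] T (Vx m n) K) (hσ : ∀ f : IS K d, σ f ∈ S K d 0 ∧ Lam K p (σ f) = f) :
    Function.Injective (lowbB (e := e) K p σ) := by
  classical
  have hp : p.Prime := Fact.out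
  have hp1 : 1 < p := hp.one_lt
  rw [← LinearMap.ker_eq_bot, LinearMap.ker_eq_bot']
  intro h hh
  by_contra hne
  have hne' : (h : T (Vx m n) K) ≠ 0 := fun h0 => hne (Subtype.ext h0)
  obtain ⟨ν, hν⟩ := MvPolynomial.ne_zero_iff.1 hne'
  obtain ⟨hhS, hhI⟩ := (mem_IS K).1 h.2
  obtain ⟨hν1, hν2⟩ := (mem_S_iff K).1 hhS ν hν
  have hνle : ∀ x, ν x ≤ p - 1 := by
    rintro ⟨v, b⟩
    have h1 := hν1 v
    have h2 := he v
    cases b <;> omega
  set μ : Vx m n × Bool →₀ ℕ := cst (Vx m n) (p - 1) - ν with hμ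
  have hμx : ∀ x, μ x = (p - 1) - ν x := by
    intro x
    rw [hμ, Finsupp.tsub_apply, cst_apply]
  have hu : monomial μ (1 : K) ∈ S K d 0 := by
    refine monomial_mem_S K 1 ?_ ?_
    · intro v
      rw [hμx, hμx]
      have h1 := hν1 v
      have h2 := hde v
      have h3 := hνle (v, false)
      have h4 := hνle (v, true)
      omega
    · rw [lowb_wtm]
      rw [lowb_wtm] at hν2
      have h5 : ∑ v : Vx m n, ((μ (v, false) : ℤ) - (μ (v, true) : ℤ)) =
          - ∑ v : Vx m n, ((ν (v, false) : ℤ) - (ν (v, true) : ℤ)) := by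
        rw [← Finset.sum_neg_distrib]
        refine Finset.sum_congr rfl fun v _ => ?_
        rw [hμx, hμx, Nat.cast_sub (hνle _), Nat.cast_sub (hνle _)]
        ring
      rw [h5, hν2, neg_zero]
  have hJ : m + n - 1 + 1 = m + n := by omega
  have hdeg : d.degree < 2 * p * (m + n - 1 + 1) := by
    rw [hJ]
    have h1 := lowb_deg hd2
    have h2 : (m + n) * (2 * p - 2) < (m + n) * (2 * p) :=
      Nat.mul_lt_mul_of_pos_left (by omega) (by omega)
    calc d.degree ≤ (m + n) * (2 * p - 2) := h1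
      _ < (m + n) * (2 * p) := h2
      _ = 2 * p * (m + n) := by ring
  have hJp : m + n - 1 + 1 < p := by omega
  have hfmem := norm_mem K p hu hdeg hJp
  set f : IS K d := ⟨Nm K p (m + n - 1) (monomial μ 1), hfmem⟩ with hf
  have hB0 : lowbB K p σ h f = 0 := by
    rw [hh]
    rfl
  rw [lowbB_apply] at hB0
  set u' := prj (E K p) (F K p) (m + n - 1) (monomial μ (1 : K)) with hu'
  have hu'S : u' ∈ S K d 0 := prj_mem_S K p hu (m + n - 1)
  have hu'L : Lam K p u' = (f : T (Vx m n) K) := (norm_comm K p hu (m + n - 1)).symm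
  obtain ⟨hfS, hfI⟩ := (mem_IS K).1 f.2
  have hfR : (f : T (Vx m n) K) ∈ Rp m n K := mem_Rp_of_Inv K p hd hfS hfI
  obtain ⟨φ, -, hφ, -⟩ := lower_two p hm hn hd hde he h.2
  have h1 := hφ d (σ f) (hσ f).1 (by rw [(hσ f).2]; exact hfR)
  have h2 := hφ d u' hu'S (by rw [hu'L]; exact hfR)
  have h3 : (⟨Lam K p (σ f), by rw [(hσ f).2]; exact hfR⟩ : Rp m n K) =
      ⟨Lam K p u', by rw [hu'L]; exact hfR⟩ := by
    exact Subtype.ext ((hσ f).2.trans hu'L.symm)
  rw [h3, h2, hB0] at h1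
  have h4 := constantCoeff_Phi_prj p hhI (m + n - 1) (monomial μ (1 : K))
  rw [constantCoeff_Phi, constantCoeff_Phi, ← hu', h1, map_zero] at h4
  rw [hμ, coeff_cst_mul p (h : T (Vx m n) K) hνle] at h4
  exact hν ((map_eq_zero_iff (root p) (root p).injective).1 h4.symm)

theorem low_B (hm : 3 ≤ m) (hn : 3 ≤ n) (hN : m + n < p) {d : Vx m n →₀ ℕ} (hd : Bal d)
    (hd2 : ∀ v, d v ≤ 2 * p - 2) (hA : ∀ v, p ≤ d v) :
    ∃ (r : ℕ) (φ : Fin r → (Rp m n K →+ Rp m n K)) (f : Fin r → Rp m n K),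
      (r : ℤ) = lb p d ∧ (∀ i, PLin p (φ i)) ∧ (∀ j, (f j : T (Vx m n) K) ∈ S K d 0) ∧
      (Matrix.of fun i j => constantCoeff (φ i (f j) : T (Vx m n) K)).det ≠ 0 ∧
      ∀ i, ∀ d' : Vx m n →₀ ℕ, d' ≠ d → ∀ g : Rp m n K, (g : T (Vx m n) K) ∈ S K d' 0 →
        constantCoeff (φ i g : T (Vx m n) K) = 0 := by
  classical
  have hp : p.Prime := Fact.out
  have hp1 : 1 < p := hp.one_lt
  have hbar : ∀ v, bar p d v = 2 * p - 2 - d v := by
    intro v
    unfold bar
    rw [Finsupp.mapRange_apply]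
    have h1 := hA v
    omega
  have hde : ∀ v, d v + bar p d v = 2 * p - 2 := by
    intro v
    rw [hbar]
    have h1 := hd2 v
    omega
  have he : ∀ v, bar p d v ≤ p - 2 := by
    intro v
    rw [hbar]
    have h1 := hA v
    omega
  have v0 : Vx m n := Sum.inl ⟨0, by omega⟩
  obtain ⟨σ, hσ⟩ := lowb_section K p (hA v0)
  have hinj := lowb_inj K p hm hn hN hd hd2 hde he σ hσ
  have : Module.Finite K (S K (bar p d) 0) := finite_S K (bar p d) 0
  have hle : IS K (bar p d) ≤ S K (bar p d) 0 := inf_le_left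
  have : Module.Finite K (IS K (bar p d)) := Submodule.finiteDimensional_of_le hle
  obtain ⟨x, u, hdet⟩ := exists_minor (lowbB (e := bar p d) K p σ)
  have hR : ∀ f : IS K d, (f : T (Vx m n) K) ∈ Rp m n K := by
    intro f
    obtain ⟨h1, h2⟩ := (mem_IS K).1 f.2
    exact mem_Rp_of_Inv K p hd h1 h2
  have hφ := fun i => lower_two p hm hn hd hde he (x i).2
  choose φ hφ1 hφ2 hφ3 using hφ
  refine ⟨_, φ, fun j => ⟨(u j : T (Vx m n) K), hR (u j)⟩, ?_, hφ1, ?_, ?_, ?_⟩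
  · rw [LinearMap.finrank_range_of_inj hinj, finrank_Inv K p]
    unfold lb
    rw [if_pos hA]
  · intro j
    exact ((mem_IS K).1 (u j).2).1
  · have h1 : (Matrix.of fun i j => constantCoeff (φ i ⟨(u j : T (Vx m n) K), hR (u j)⟩ :
        T (Vx m n) K)) = (root (K := K) p).toRingHom.mapMatrix
          (Matrix.of fun i j => lowbB (e := bar p d) K p σ (x i) (u j)) := by
      ext i j
      rw [Matrix.of_apply, RingHom.mapMatrix_apply, Matrix.map_apply, Matrix.of_apply, lowbB_apply]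
      have h2 := hφ2 i d (σ (u j)) (hσ (u j)).1 (by rw [(hσ (u j)).2]; exact hR (u j))
      have h3 : (⟨Lam K p (σ (u j)), by rw [(hσ (u j)).2]; exact hR (u j)⟩ : Rp m n K) =
          ⟨(u j : T (Vx m n) K), hR (u j)⟩ := Subtype.ext (hσ (u j)).2
      rw [h3] at h2
      exact h2
    rw [h1, ← RingHom.map_det]
    intro h0
    exact hdet ((map_eq_zero_iff (root p) (root p).injective).1 h0)
  · intro i d' hdd g hg
    by_cases hs : ∀ v, d' v ≤ p - 1
    · rw [hφ3 i d' g hg hs]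
      simp
    · push Not at hs
      obtain ⟨v, hv⟩ := hs
      have hgI : (g : T (Vx m n) K) ∈ IS K d' := (mem_IS K).2 ⟨hg, Rp_le_Inv K g.2⟩
      obtain ⟨u', hu', hL⟩ := exists_Lam K p (v := v) (by omega) hgI
      have h1 := hφ2 i d' u' hu' (by rw [hL]; exact g.2)
      have h3 : (⟨Lam K p u', by rw [hL]; exact g.2⟩ : Rp m n K) = g := Subtype.ext hL
      rw [h3] at h1
      rw [h1]
      have h4 : coeff (cst (Vx m n) (p - 1)) ((x i : T (Vx m n) K) * u') = 0 := by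
        by_contra hne
        have hxS := ((mem_IS K).1 (x i).2).1
        obtain ⟨h5, -⟩ := (mem_S_iff K).1 (mul_mem_S K hxS hu') _ hne
        apply hdd
        ext w
        have h6 := h5 w
        rw [cst_apply, cst_apply, Finsupp.add_apply] at h6
        have h7 := hde w
        omega
      rw [h4, map_zero]

end FSig
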