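import Pool.Agent.Lib.FSig.Norm

/-!
# MP_05de8f_ag : `p^{-1}`-linear maps of `Rp` from complementary elements (section 5) (module LowerOne)

`V = Vx m n`, `N = m + n < p`. `d` balanced, `e = 2p-2-d`, `w0 ∈ S e 0`.
THEOREM `lower_one`: there is an additive `φ : Rp → Rp`, `PLin p φ`, with `constantCoeff (φ g) = root (coeff (cst (p-1)) (g w0))` for all `g ∈ Rp`.

PROOF. `J = N - 1`, `w = prj E^(p) F^(p) J w0 ∈ S e 0` (`prj_mem_S`), `φ g = Phi (g w)`. Additive, `PLin` (`Phi_pow_mul`). Claim: `Phi (g w) ∈ Rp` for `g ∈ Rp`. `Rp` is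
the sum of its components (`exists_sum_component`, `Rp_component`, `Rp_component_zero`), so let `g ∈ Rp ⊓ S d' 0`, `d'` balanced, so `g ∈ Inv`. `g w ∈ S (d'+e) 0`. If `d' + e` is not of the form
`p d'' + (2p-2)` then `Phi (g w) = 0` (`Phi_eq_zero_of_ne`). Otherwise `d' v + e v = p d'' v + 2p-2`, `e v = 2p-2-d v`: `d' v = p d'' v + d v`, so `d''` is balanced, and
`y := Phi (g w0) ∈ S d'' 0`, `Phi (g w) = prj E F J y =: z ∈ S d'' 0` (`Phi_prj`). `E^{J+1} y = Phi (g (E^(p))^{J+1} w0) = 0` as `(E^(p))^{J+1} w0 ∈ S e (2pN) = ⊥`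
(`|e| ≤ N(2p-2) < 2pN`); here `E (Phi (g u)) = Phi (E^(p) (g u)) = Phi (g E^(p) u)` for `g ∈ Inv`. The same for `F`. So `E^(k) z = F^(k) z = 0` for `1 ≤ k < p` (`prj_kill_E`, `prj_kill_F`).
For `k ≥ p`: `E^(k) z = E^(k) Phi (g w) = Phi (g E^(pk) w)` and `E^(pk) w ∈ S e (2pk) = ⊥` as `2pk ≥ 2p² > |e|`. So `z ∈ Inv` (`mem_Inv_iff`), `z ∈ Rp` (`mem_Rp_of_Inv`).
Constant coefficient: `constantCoeff_Phi_prj` (`g ∈ Inv`), `constantCoeff_Phi`.
-/

namespace FSig

open MvPolynomial Finset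

variable {m n : ℕ} {K : Type*} [Field K] (p : ℕ) [Fact p.Prime] [CharP K p] [PerfectRing K p]

/-- a `p^{-1}`-linear additive map `ψ : T → T` which maps `Rp` to `Rp` -/
theorem restrict_PL (ψ : T (Vx m n) K →+ T (Vx m n) K) (hψ : PLin p ψ)
    (h : ∀ g ∈ Rp m n K, ψ g ∈ Rp m n K) :
    ∃ φ : Rp m n K →+ Rp m n K, PLin p φ ∧ ∀ g : Rp m n K, (φ g : T (Vx m n) K) = ψ g := by
  refine ⟨{ toFun := fun g => ⟨ψ g, h g g.2⟩, map_zero' := ?_, map_add' := ?_ }, ?_, ?_⟩
  · apply Subtype.ext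
    simp
  · intro x y
    apply Subtype.ext
    simp
  · intro r x
    apply Subtype.ext
    exact hψ r x
  · intro g
    rfl

private lemma E_one_pow_Phi {g : T (Vx m n) K} (hg : g ∈ Inv (V := Vx m n) K) (u : T (Vx m n) K) (j : ℕ) :
    ((E K 1) ^ j) (Phi p (g * u)) = Phi p (g * ((E K p) ^ j) u) := by
  have hp : 0 < p := (Fact.out : p.Prime).pos
  induction j with
  | zero => simp
  | succ j ih =>
    rw [pow_succ', Module.End.mul_apply, ih, pow_succ', Module.End.mul_apply, ← E_Inv_mul K hg]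
    rw [Phi_E p p, if_pos dvd_rfl, Nat.div_self hp]

private lemma F_one_pow_Phi {g : T (Vx m n) K} (hg : g ∈ Inv (V := Vx m n) K) (u : T (Vx m n) K) (j : ℕ) :
    ((F K 1) ^ j) (Phi p (g * u)) = Phi p (g * ((F K p) ^ j) u) := by
  have hp : 0 < p := (Fact.out : p.Prime).pos
  induction j with
  | zero => simp
  | succ j ih =>
    rw [pow_succ', Module.End.mul_apply, ih, pow_succ', Module.End.mul_apply, ← F_Inv_mul K hg]
    rw [Phi_F p p, if_pos dvd_rfl, Nat.div_self hp]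

omit [PerfectRing K p] [CharP K p] [Fact p.Prime] in
private lemma degree_le {d e : Vx m n →₀ ℕ} (hde : ∀ v, d v + e v = 2 * p - 2) :
    e.degree ≤ (m + n) * (2 * p - 2) := by
  rw [Finsupp.degree_eq_sum]
  calc ∑ v, e v ≤ ∑ _v : Vx m n, (2 * p - 2) := Finset.sum_le_sum fun v _ => by
        have := hde v
        omega
    _ = (m + n) * (2 * p - 2) := by simp

private lemma Phi_mem_Rp_hom (hN : m + n < p) {d e : Vx m n →₀ ℕ} (hd : Bal d) (hde : ∀ v, d v + e v = 2 * p - 2)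
    {w0 : T (Vx m n) K} (hw : w0 ∈ S K e 0) {g : T (Vx m n) K} (hg : g ∈ Rp m n K)
    {d' : Vx m n →₀ ℕ} (hgd : g ∈ S K d' 0) (hd' : Bal d') :
    Phi p (g * prj (E K p) (F K p) (m + n - 1) w0) ∈ Rp m n K := by
  classical
  have hp2 : 2 ≤ p := (Fact.out : p.Prime).two_le
  have hp : 0 < p := by omega
  set J := m + n - 1 with hJ
  have hJp : J + 1 < p := by omega
  have hdeg := degree_le p hde
  have hdegJ : e.degree < 2 * (p * (J + 1)) := by
    have h1 : m + n ≤ J + 1 := by omega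
    have h2 : (m + n) * (2 * p - 2) ≤ (J + 1) * (2 * p - 2) := Nat.mul_le_mul_right _ h1
    have h3 : (J + 1) * (2 * p - 2) < (J + 1) * (2 * p) := Nat.mul_lt_mul_of_pos_left (by omega) (by omega)
    calc e.degree < (J + 1) * (2 * p) := by omega
      _ = 2 * (p * (J + 1)) := by ring
  set w := prj (E K p) (F K p) J w0 with hwdef
  have hwS : w ∈ S K e 0 := prj_mem_S K p hw J
  have hgI : g ∈ Inv (V := Vx m n) K := Rp_le_Inv K hg
  have hgw : g * w ∈ S K (d' + e) (0 + 0) := mul_mem_S K hgd hwS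
  have hgw0 : g * w0 ∈ S K (d' + e) (0 + 0) := mul_mem_S K hgd hw
  by_cases hex : ∃ d'' : Vx m n →₀ ℕ, ∀ v, (d' + e) v = p * d'' v + (2 * p - 2)
  · obtain ⟨d'', hd''⟩ := hex
    have hz : Phi p (g * w) ∈ S K d'' 0 := Phi_mem_S p hgw hd'' (by simp)
    have hy : Phi p (g * w0) ∈ S K d'' 0 := Phi_mem_S p hgw0 hd'' (by simp)
    have hv : ∀ v, d' v = p * d'' v + d v := by
      intro v
      have h1 := hd'' v
      have h2 := hde v
      rw [Finsupp.add_apply] at h1
      omega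
    have hB : Bal d'' := by
      unfold Bal at hd hd' ⊢
      have h1 : ∑ i : Fin m, d' (Sum.inl i) = p * ∑ i : Fin m, d'' (Sum.inl i) + ∑ i : Fin m, d (Sum.inl i) := by
        rw [Finset.mul_sum, ← Finset.sum_add_distrib]
        exact Finset.sum_congr rfl fun i _ => hv _
      have h2 : ∑ j : Fin n, d' (Sum.inr j) = p * ∑ j : Fin n, d'' (Sum.inr j) + ∑ j : Fin n, d (Sum.inr j) := by
        rw [Finset.mul_sum, ← Finset.sum_add_distrib]
        exact Finset.sum_congr rfl fun i _ => hv _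
      have h3 : p * ∑ i : Fin m, d'' (Sum.inl i) = p * ∑ j : Fin n, d'' (Sum.inr j) := by
        have := hd'
        rw [h1, h2, hd] at this
        exact Nat.add_right_cancel this
      exact Nat.eq_of_mul_eq_mul_left hp h3
    have hzp : Phi p (g * w) = prj (E K 1) (F K 1) J (Phi p (g * w0)) := Phi_prj p hgI J w0
    have hE0 : ((E K 1) ^ (J + 1)) (Phi p (g * w0)) = 0 := by
      rw [E_one_pow_Phi p hgI, E_p_pow, E_eq_zero K hw (k := p * (J + 1)) (by push_cast; zify at hdegJ; linarith)]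
      simp
    have hF0 : ((F K 1) ^ (J + 1)) (Phi p (g * w0)) = 0 := by
      rw [F_one_pow_Phi p hgI, F_p_pow, F_eq_zero K hw (k := p * (J + 1)) (by push_cast; zify at hdegJ; linarith)]
      simp
    have hI : Phi p (g * w) ∈ Inv (V := Vx m n) K := by
      rw [mem_Inv_iff]
      intro k hk
      by_cases hkp : k < p
      · rw [hzp]
        exact ⟨prj_kill_E K p hy hJp hE0 hk hkp, prj_kill_F K p hy hJp hF0 hk hkp⟩
      · have hkp' : p ≤ k := not_lt.1 hkp
        have hdk : e.degree < 2 * (p * k) := by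
          have h1 : p * (J + 1) ≤ p * k := Nat.mul_le_mul_left _ (by omega)
          omega
        constructor
        · have h1 := Phi_E p (p * k) (g * w)
          rw [if_pos (dvd_mul_right p k), Nat.mul_div_cancel_left _ hp, E_Inv_mul K hgI,
            E_eq_zero K hwS (k := p * k) (by push_cast; zify at hdk; linarith)] at h1
          rw [← h1]
          simp
        · have h1 := Phi_F p (p * k) (g * w)
          rw [if_pos (dvd_mul_right p k), Nat.mul_div_cancel_left _ hp, F_Inv_mul K hgI,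
            F_eq_zero K hwS (k := p * k) (by push_cast; zify at hdk; linarith)] at h1
          rw [← h1]
          simp
    exact mem_Rp_of_Inv K p hB hz hI
  · rw [Phi_eq_zero_of_ne p hgw hex]
    exact zero_mem _

theorem Phi_mem_Rp (hN : m + n < p) {d e : Vx m n →₀ ℕ} (hd : Bal d) (hde : ∀ v, d v + e v = 2 * p - 2)
    {w0 : T (Vx m n) K} (hw : w0 ∈ S K e 0) {g : T (Vx m n) K} (hg : g ∈ Rp m n K) :
    Phi p (g * prj (E K p) (F K p) (m + n - 1) w0) ∈ Rp m n K := by
  obtain ⟨s, hs⟩ := exists_sum_component K g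
  rw [hs, Finset.sum_mul, map_sum]
  refine sum_mem fun i _ => ?_
  obtain ⟨d', z⟩ := i
  by_cases h : Bal d' ∧ z = 0
  · obtain ⟨h1, rfl⟩ := h
    exact Phi_mem_Rp_hom p hN hd hde hw (Rp_component K hg d' 0) (component_mem K g d' 0) h1
  · rw [Rp_component_zero K hg d' z h]
    simp

theorem lower_one (hN : m + n < p) {d e : Vx m n →₀ ℕ} (hd : Bal d) (hde : ∀ v, d v + e v = 2 * p - 2)
    {w0 : T (Vx m n) K} (hw : w0 ∈ S K e 0) :
    ∃ φ : Rp m n K →+ Rp m n K, PLin p φ ∧ ∀ g : Rp m n K,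
      constantCoeff (φ g : T (Vx m n) K) =
        root p (coeff (cst (Vx m n) (p - 1)) ((g : T (Vx m n) K) * w0)) := by
  set w := prj (E K p) (F K p) (m + n - 1) w0 with hwdef
  have hψ : PLin p ((Phi p).comp (AddMonoidHom.mulRight w)) := by
    intro r x
    simp only [AddMonoidHom.comp_apply, AddMonoidHom.mulRight_apply]
    rw [mul_assoc, Phi_pow_mul]
  obtain ⟨φ, h1, h2⟩ := restrict_PL p ((Phi p).comp (AddMonoidHom.mulRight w)) hψ
    (fun g hg => Phi_mem_Rp p hN hd hde hw hg)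
  refine ⟨φ, h1, fun g => ?_⟩
  rw [h2 g]
  simp only [AddMonoidHom.comp_apply, AddMonoidHom.mulRight_apply]
  rw [hwdef, constantCoeff_Phi_prj p (Rp_le_Inv K g.2), constantCoeff_Phi]

end FSig
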