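import Pool.Agent.Lib.FSig.Norm
import Pool.Agent.Lib.FSig.LamImage

/-!
# MP_05de8f_ag : `p^{-1}`-linear maps of `Rp` from invariants, all degrees large (section 7 (D4)) (module LowerTwo)

`V = Vx m n`, `m, n ≥ 3`. `d` balanced, `e = 2p-2-d` with all `e v ≤ p-2` (so `d v ≥ p`), `h ∈ Inv ⊓ S e 0`.
THEOREM `lower_two`: there is an additive `φ : Rp → Rp`, `PLin p φ`, such that for `g ∈ Rp ⊓ S d' 0`
 * `φ g = 0` if all `d' v ≤ p-1`;
 * `constantCoeff (φ g) = root (coeff (cst (p-1)) (h u))` whenever `g = Lam u`, `u ∈ S d' 0`.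

PROOF. `1 = inl 0`, `1' = inr 0`, `x = [1 1'] ∈ Rp`, `u1 = a_1 b_1^(p-1) b_1' a_1'^(p-1)`, `Lam u1 = x^p` (`br_pow_eq_Lam`), `u1 ∈ S (p e_1 + p e_1') 0`. CLAIM: for each `g ∈ Rp` there is `y ∈ Rp`
with `x y = Phi (u1 g h)`. (`y` is unique, `T` is a domain, so `g ↦ y` is additive and `PLin`: `Phi (u1 (r^p g) h) = r Phi (u1 g h)`.) By additivity let `g ∈ Rp ⊓ S d' 0`, `d'` balanced
(`exists_sum_component`, `Rp_component`, `Rp_component_zero`).
(i) all `d' v ≤ p-1`: a third vector `v` (`v ≠ 1, 1'`) has degree `d' v + e v ≤ 2p-3 < 2p-2` in `u1 g h`, so `Phi = 0` (`Phi_eq_zero_of_lt`), `y = 0`.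
(ii) some `d' v ≥ p`: `g = Lam u`, `u ∈ S d' 0` (`exists_Lam`; `g ∈ IS d'` by `Rp_le_Inv`). `Phi (u1 h Lam u) = Phi (Lam (u1 h) u)` (`Phi_Lam`), `Lam (u1 h) = h Lam u1 = h x^p`, so it is
`Phi (x^p h u) = x Phi (h u)`: `y = Phi (h u)`. `y ∈ Inv`: `y ∈ S d'' 0` or `y = 0` (`Phi_mem_S`, `Phi_eq_zero_of_ne`; `d' + e = p d'' + 2p-2`, i.e. `d' = d + p d''`, so `d''` is balanced). For `k ≥ 1`:
`x E^(k) y = x E^(k) Phi (h u) = x Phi (E^(pk) (h u)) = x Phi (h E^(pk) u) = Phi (x^p h E^(pk) u) = Phi (Lam (u1 h) E^(pk) u) = Phi (u1 h Lam (E^(pk) u))` (`Phi_Lam`, the weight `2pk` is divisible by `p`)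
`= Phi (u1 h E^(pk) (Lam u)) = 0` (`E_Lam_comm`; `Lam u = g ∈ Inv`, `pk ≥ 1`). The same for `F`. `y ∈ Rp` by `mem_Rp_of_Inv`.
Constant coefficient of `y = Phi (h u)`: `constantCoeff_Phi`. (In case (i) with `g = Lam u` the formula also holds: `x Phi (h u) = Phi (u1 h Lam u) = 0`, so `Phi (h u) = 0`.)
-/

namespace FSig

open MvPolynomial Finset

variable {m n : ℕ} {K : Type*} [Field K] (p : ℕ) [Fact p.Prime] [CharP K p] [PerfectRing K p]

private lemma mapU_mem (v w : Vx m n) :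
    va K v * vb K v ^ (p - 1) * (vb K w * va K w ^ (p - 1)) ∈
      S K (Finsupp.single v 1 + (p - 1) • Finsupp.single v 1 +
        (Finsupp.single w 1 + (p - 1) • Finsupp.single w 1)) 0 := by
  have h1 := mul_mem_S K (mul_mem_S K (va_mem_S K v) (pow_mem_S K (vb_mem_S K v) (p - 1)))
    (mul_mem_S K (vb_mem_S K w) (pow_mem_S K (va_mem_S K w) (p - 1)))
  have h2 : (1 : ℤ) + ((p - 1 : ℕ) : ℤ) * (-1) + (-1 + ((p - 1 : ℕ) : ℤ) * 1) = 0 := by ring
  rw [h2] at h1
  exact h1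

private lemma D1_zero {v w z : Vx m n} (h1 : z ≠ v) (h2 : z ≠ w) :
    (Finsupp.single v 1 + (p - 1) • Finsupp.single v 1 +
        (Finsupp.single w 1 + (p - 1) • Finsupp.single w 1) : Vx m n →₀ ℕ) z = 0 := by
  rw [Finsupp.add_apply, Finsupp.add_apply, Finsupp.add_apply, Finsupp.smul_apply,
    Finsupp.smul_apply, Finsupp.single_eq_of_ne h1, Finsupp.single_eq_of_ne h2]
  simp

private lemma br_ne_zero' {v w : Vx m n} (h : w ≠ v) : br K v w ≠ 0 := by
  classical
  intro h0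
  have h1 := congrArg (MvPolynomial.eval (fun x : Vx m n × Bool =>
    if x = (v, false) then (1 : K) else if x = (w, true) then 1 else 0)) h0
  unfold br va vb at h1
  have e1 : ((v, true) : Vx m n × Bool) ≠ (v, false) := by simp
  have e2 : ((w, true) : Vx m n × Bool) ≠ (v, false) := by simp
  have e3 : ((v, true) : Vx m n × Bool) ≠ (w, true) := by
    intro h'
    exact h (Prod.mk.inj h').1.symm
  simp only [map_sub, map_mul, eval_X, map_zero, if_true, if_neg e1, if_neg e2, if_neg e3,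
    zero_mul, mul_one, sub_zero, one_ne_zero] at h1

private lemma key {v w : Vx m n} (hvw : w ≠ v) {e : Vx m n →₀ ℕ} {h : T (Vx m n) K}
    (hh : h ∈ IS K e) (u : T (Vx m n) K) :
    Phi p (va K v * vb K v ^ (p - 1) * (vb K w * va K w ^ (p - 1)) * Lam K p u * h) =
      br K v w * Phi p (h * u) := by
  obtain ⟨U, hU⟩ : ∃ U : T (Vx m n) K,
      U = va K v * vb K v ^ (p - 1) * (vb K w * va K w ^ (p - 1)) := ⟨_, rfl⟩
  have hUm := mapU_mem (K := K) p v w
  have hLU := br_pow_eq_Lam K p hvw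
  rw [← hU] at hUm hLU ⊢
  obtain ⟨hhS, hhI⟩ := (mem_IS K).1 hh
  have hUh := mul_mem_S K hUm hhS
  rw [add_zero] at hUh
  have e1 : U * Lam K p u * h = Lam K p u * (U * h) := by ring
  have e2 : Lam K p (U * h) = h * br K v w ^ p := by
    rw [mul_comm U h, Lam_Inv_mul K p hhI, hLU]
  have e3 : u * (h * br K v w ^ p) = br K v w ^ p * (h * u) := by ring
  rw [e1, Phi_Lam p u hUh (dvd_zero _), e2, e3, Phi_pow_mul]

private lemma claim_hom (hm : 3 ≤ m) {d e : Vx m n →₀ ℕ} (hd : Bal d)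
    (hde : ∀ v, d v + e v = 2 * p - 2) (he : ∀ v, e v ≤ p - 2) {h : T (Vx m n) K}
    (hh : h ∈ IS K e) {v w : Vx m n} (hvw : w ≠ v) {z : Vx m n} (hz1 : z ≠ v) (hz2 : z ≠ w)
    {g : T (Vx m n) K} (hg : g ∈ Rp m n K) {d' : Vx m n →₀ ℕ} (hgd : g ∈ S K d' 0)
    (hd' : Bal d') :
    (∃ y ∈ Rp m n K, br K v w * y =
      Phi p (va K v * vb K v ^ (p - 1) * (vb K w * va K w ^ (p - 1)) * g * h)) ∧
    ((∀ x, d' x ≤ p - 1) →
      Phi p (va K v * vb K v ^ (p - 1) * (vb K w * va K w ^ (p - 1)) * g * h) = 0) := by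
  classical
  have hp2 : 2 ≤ p := (Fact.out : p.Prime).two_le
  have hp : 0 < p := by omega
  have hx0 : br K v w ≠ 0 := br_ne_zero' hvw
  have hgI : g ∈ Inv (V := Vx m n) K := Rp_le_Inv K hg
  obtain ⟨hhS, hhI⟩ := (mem_IS K).1 hh
  have hsmall : (∀ x, d' x ≤ p - 1) →
      Phi p (va K v * vb K v ^ (p - 1) * (vb K w * va K w ^ (p - 1)) * g * h) = 0 := by
    intro hs
    have h1 := mul_mem_S K (mul_mem_S K (mapU_mem (K := K) p v w) hgd) hhS
    refine Phi_eq_zero_of_lt p h1 (v := z) ?_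
    rw [Finsupp.add_apply, Finsupp.add_apply, D1_zero p hz1 hz2]
    have h2 := hs z
    have h3 := he z
    omega
  refine ⟨?_, hsmall⟩
  by_cases hs : ∀ x, d' x ≤ p - 1
  · exact ⟨0, Subalgebra.zero_mem _, by rw [mul_zero, hsmall hs]⟩
  · push Not at hs
    obtain ⟨x, hx⟩ := hs
    obtain ⟨u, huS, hu⟩ := exists_Lam K p (v := x) (by omega) ((mem_IS K).2 ⟨hgd, hgI⟩)
    refine ⟨Phi p (h * u), ?_, by rw [← key p hvw hh u, hu]⟩
    have hhu : h * u ∈ S K (e + d') (0 + 0) := mul_mem_S K hhS huS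
    by_cases hex : ∃ d'' : Vx m n →₀ ℕ, ∀ x, (e + d') x = p * d'' x + (2 * p - 2)
    · obtain ⟨d'', hd''⟩ := hex
      have hy : Phi p (h * u) ∈ S K d'' 0 := Phi_mem_S p hhu hd'' (by simp)
      have hv : ∀ x, d' x = p * d'' x + d x := by
        intro x
        have h1 := hd'' x
        have h2 := hde x
        rw [Finsupp.add_apply] at h1
        omega
      have hB : Bal d'' := by
        unfold Bal at hd hd' ⊢
        have h1 : ∑ i : Fin m, d' (Sum.inl i) =
            p * ∑ i : Fin m, d'' (Sum.inl i) + ∑ i : Fin m, d (Sum.inl i) := by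
          rw [Finset.mul_sum, ← Finset.sum_add_distrib]
          exact Finset.sum_congr rfl fun i _ => hv _
        have h2 : ∑ j : Fin n, d' (Sum.inr j) =
            p * ∑ j : Fin n, d'' (Sum.inr j) + ∑ j : Fin n, d (Sum.inr j) := by
          rw [Finset.mul_sum, ← Finset.sum_add_distrib]
          exact Finset.sum_congr rfl fun i _ => hv _
        have h3 : p * ∑ i : Fin m, d'' (Sum.inl i) = p * ∑ j : Fin n, d'' (Sum.inr j) := by
          have := hd'
          rw [h1, h2, hd] at this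
          exact Nat.add_right_cancel this
        exact Nat.eq_of_mul_eq_mul_left hp h3
      have hI : Phi p (h * u) ∈ Inv (V := Vx m n) K := by
        rw [mem_Inv_iff]
        intro k hk
        have hpk : 1 ≤ p * k := Nat.mul_pos hp hk
        have hgz := (mem_Inv_iff K g).1 hgI (p * k) hpk
        obtain ⟨U, hU⟩ : ∃ U : T (Vx m n) K,
            U = va K v * vb K v ^ (p - 1) * (vb K w * va K w ^ (p - 1)) := ⟨_, rfl⟩
        have hUm := mapU_mem (K := K) p v w
        have hLU := br_pow_eq_Lam K p hvw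
        rw [← hU] at hUm hLU
        have e2 : Lam K p (U * h) = h * br K v w ^ p := by
          rw [mul_comm U h, Lam_Inv_mul K p hhI, hLU]
        have e4 : ∀ y : T (Vx m n) K, br K v w * Phi p (h * y) = Phi p (Lam K p (U * h) * y) := by
          intro y
          rw [e2, ← Phi_pow_mul]
          congr 1
          ring
        constructor
        · have h1 := Phi_E p (p * k) (h * u)
          rw [if_pos (dvd_mul_right p k), Nat.mul_div_cancel_left _ hp, E_Inv_mul K hhI] at h1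
          rw [← h1]
          have h2 : br K v w * Phi p (h * E K (p * k) u) = 0 := by
            rw [e4, Phi_Lam p _ (E_mem_S K huS (p * k))
              (by rw [zero_add]; push_cast; exact Dvd.intro (2 * (k : ℤ)) (by ring)),
              ← E_Lam_comm K p huS (dvd_zero _), hu, hgz.1, mul_zero, map_zero]
          exact (mul_eq_zero.1 h2).resolve_left hx0
        · have h1 := Phi_F p (p * k) (h * u)
          rw [if_pos (dvd_mul_right p k), Nat.mul_div_cancel_left _ hp, F_Inv_mul K hhI] at h1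
          rw [← h1]
          have h2 : br K v w * Phi p (h * F K (p * k) u) = 0 := by
            rw [e4, Phi_Lam p _ (F_mem_S K huS (p * k))
              (by rw [zero_sub]; push_cast; exact Dvd.intro (-(2 * (k : ℤ))) (by ring)),
              ← F_Lam_comm K p huS (dvd_zero _), hu, hgz.2, mul_zero, map_zero]
          exact (mul_eq_zero.1 h2).resolve_left hx0
      exact mem_Rp_of_Inv K p hB hy hI
    · rw [Phi_eq_zero_of_ne p hhu hex]
      exact Subalgebra.zero_mem _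

private lemma claim (hm : 3 ≤ m) {d e : Vx m n →₀ ℕ} (hd : Bal d)
    (hde : ∀ v, d v + e v = 2 * p - 2) (he : ∀ v, e v ≤ p - 2) {h : T (Vx m n) K}
    (hh : h ∈ IS K e) {v w : Vx m n} (hvw : w ≠ v) {z : Vx m n} (hz1 : z ≠ v) (hz2 : z ≠ w)
    {g : T (Vx m n) K} (hg : g ∈ Rp m n K) :
    ∃ y ∈ Rp m n K, br K v w * y =
      Phi p (va K v * vb K v ^ (p - 1) * (vb K w * va K w ^ (p - 1)) * g * h) := by
  classical
  obtain ⟨s, hs⟩ := exists_sum_component K g
  have h1 : ∀ i : (Vx m n →₀ ℕ) × ℤ, ∃ y ∈ Rp m n K, br K v w * y =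
      Phi p (va K v * vb K v ^ (p - 1) * (vb K w * va K w ^ (p - 1)) *
        weightedHomogeneousComponent (gr (V := Vx m n)) i g * h) := by
    rintro ⟨d', w'⟩
    by_cases hb : Bal d' ∧ w' = 0
    · obtain ⟨hb1, rfl⟩ := hb
      exact (claim_hom p hm hd hde he hh hvw hz1 hz2 (Rp_component K hg d' 0)
        (component_mem K g d' 0) hb1).1
    · refine ⟨0, Subalgebra.zero_mem _, ?_⟩
      rw [Rp_component_zero K hg d' w' hb, mul_zero, mul_zero, zero_mul, map_zero]
  choose y hy1 hy2 using h1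
  refine ⟨∑ i ∈ s, y i, Subalgebra.sum_mem _ fun i _ => hy1 i, ?_⟩
  rw [Finset.mul_sum, Finset.sum_congr rfl fun i _ => hy2 i, ← map_sum]
  congr 1
  conv_rhs => rw [hs]
  rw [Finset.mul_sum, Finset.sum_mul]

theorem lower_two (hm : 3 ≤ m) (hn : 3 ≤ n) {d e : Vx m n →₀ ℕ} (hd : Bal d)
    (hde : ∀ v, d v + e v = 2 * p - 2) (he : ∀ v, e v ≤ p - 2) {h : T (Vx m n) K} (hh : h ∈ IS K e) :
    ∃ φ : Rp m n K →+ Rp m n K, PLin p φ ∧
      (∀ (d' : Vx m n →₀ ℕ) (u : T (Vx m n) K) (hu : u ∈ S K d' 0) (hL : Lam K p u ∈ Rp m n K),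
        constantCoeff (φ ⟨Lam K p u, hL⟩ : T (Vx m n) K) = root p (coeff (cst (Vx m n) (p - 1)) (h * u))) ∧
      (∀ (d' : Vx m n →₀ ℕ) (g : Rp m n K), (g : T (Vx m n) K) ∈ S K d' 0 → (∀ v, d' v ≤ p - 1) → φ g = 0) := by
  classical
  obtain ⟨v, hv⟩ : ∃ v : Vx m n, v = Sum.inl ⟨0, by omega⟩ := ⟨_, rfl⟩
  obtain ⟨w, hw⟩ : ∃ w : Vx m n, w = Sum.inr ⟨0, by omega⟩ := ⟨_, rfl⟩
  obtain ⟨z, hz⟩ : ∃ z : Vx m n, z = Sum.inl ⟨1, by omega⟩ := ⟨_, rfl⟩
  have hvw : w ≠ v := by rw [hv, hw]; exact Sum.inr_ne_inl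
  have hz2 : z ≠ w := by rw [hz, hw]; exact Sum.inl_ne_inr
  have hz1 : z ≠ v := by
    rw [hz, hv]
    intro h'
    have := Fin.mk.inj (Sum.inl.inj h')
    omega
  have hx0 : br K v w ≠ 0 := br_ne_zero' hvw
  have hcl : ∀ g : Rp m n K, ∃ y : Rp m n K, br K v w * (y : T (Vx m n) K) =
      Phi p (va K v * vb K v ^ (p - 1) * (vb K w * va K w ^ (p - 1)) *
        (g : T (Vx m n) K) * h) := by
    intro g
    obtain ⟨y, hy, hy2⟩ := claim p hm hd hde he hh hvw hz1 hz2 g.2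
    exact ⟨⟨y, hy⟩, hy2⟩
  choose f hf using hcl
  have huniq : ∀ (a b : Rp m n K), br K v w * (a : T (Vx m n) K) = br K v w * b → a = b :=
    fun a b hab => Subtype.ext (mul_left_cancel₀ hx0 hab)
  refine ⟨{ toFun := f, map_zero' := ?_, map_add' := ?_ }, ?_, ?_, ?_⟩
  · apply huniq
    rw [hf 0]
    simp
  · intro a b
    apply huniq
    have e1 : br K v w * ((f a + f b : Rp m n K) : T (Vx m n) K) =
        br K v w * (f a : T (Vx m n) K) + br K v w * (f b : T (Vx m n) K) := by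
      rw [Subalgebra.coe_add, mul_add]
    rw [e1, hf (a + b), hf a, hf b, ← map_add, Subalgebra.coe_add]
    congr 1
    ring
  · intro r a
    apply huniq
    show br K v w * (f (r ^ p * a) : T (Vx m n) K) = br K v w * ((r * f a : Rp m n K) : T (Vx m n) K)
    have e1 : br K v w * ((r * f a : Rp m n K) : T (Vx m n) K) =
        (r : T (Vx m n) K) * (br K v w * (f a : T (Vx m n) K)) := by
      rw [Subalgebra.coe_mul]
      ring
    rw [e1, hf (r ^ p * a), hf a, ← Phi_pow_mul, Subalgebra.coe_mul, Subalgebra.coe_pow]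
    congr 1
    ring
  · intro d' u hu hL
    have h1 : (f ⟨Lam K p u, hL⟩ : T (Vx m n) K) = Phi p (h * u) := by
      refine mul_left_cancel₀ hx0 ?_
      rw [hf, ← key p hvw hh u]
    show constantCoeff (f ⟨Lam K p u, hL⟩ : T (Vx m n) K) = _
    rw [h1, constantCoeff_Phi]
  · intro d' g hg hs
    have hsm : Phi p (va K v * vb K v ^ (p - 1) * (vb K w * va K w ^ (p - 1)) *
        (g : T (Vx m n) K) * h) = 0 := by
      obtain ⟨hhS, hhI⟩ := (mem_IS K).1 hh
      have h1 := mul_mem_S K (mul_mem_S K (mapU_mem (K := K) p v w) hg) hhS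
      refine Phi_eq_zero_of_lt p h1 (v := z) ?_
      rw [Finsupp.add_apply, Finsupp.add_apply, D1_zero p hz1 hz2]
      have h2 := hs z
      have h3 := he z
      have hp2 : 2 ≤ p := (Fact.out : p.Prime).two_le
      omega
    apply huniq
    show br K v w * (f g : T (Vx m n) K) = _
    rw [hf g, hsm]
    simp

end FSig
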