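import Pool.Agent.Lib.FSig.General

/-!
# Module RkLe: a bound for the rank which does not depend on `K`

`Rp` is generated over `K` by the `m n` elements `toT (X (i, j))` (`xRp`-like; `Rp = (toT).range`, `MvPolynomial` is generated by the variables), indexed by `Fin (m * n)` through
`finProdFinEquiv`. By `Pool.FSig.exists_gen` (`e = 1`) every `f : Rp` is `∑ b, c b ^ p * ∏ x i ^ b i`, `b : Fin (m*n) → Fin p`. With `ε` = constant coefficient (a `K`-algebra map `Rp → K`, `mRp = ker ε`),
`c b = ε (c b) + t b`, `ε (t b) = 0`, `c b ^ p = (ε (c b)) ^ p + (t b) ^ p`, so `f` is a `K`-combination of the `p ^ (m n)` elements `∏ x i ^ b i` modulo `frobPow ε p`: `SpanMod K (frobPow ε (p ^ 1)) (p ^ (m * n))`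
(reindex `Fin (m*n) → Fin p` by `Fin (p ^ (m*n))`, `Fintype.equivFinOfCardEq`, `Fintype.card_fun`). `Pool.FSig.hasRk_le` bounds all `a` in the set, `Pool.FSig.rk_eq` identifies the two ranks
(`mRp m n K = RingHom.ker ..` by definition), `csSup_le'`.
-/

namespace FSig

/-- the constant coefficient as an algebra map -/
private noncomputable def epsP (m n : ℕ) (K : Type*) [Field K] : Rp m n K →ₐ[K] K :=
  { (MvPolynomial.constantCoeff (σ := Vx m n × Bool) (R := K)).comp (Rp m n K).val.toRingHom with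
    commutes' := by
      intro r
      change MvPolynomial.constantCoeff (MvPolynomial.C r) = r
      rw [MvPolynomial.constantCoeff_C] }

private theorem epsP_coe (m n : ℕ) (K : Type*) [Field K] :
    ((epsP m n K : Rp m n K →ₐ[K] K) : Rp m n K →+* K) =
      (MvPolynomial.constantCoeff (σ := Vx m n × Bool) (R := K)).comp
        (Rp m n K).val.toRingHom := rfl

/-- the projection of the polynomial ring to `Rp` -/
private noncomputable def rr (m n : ℕ) (K : Type*) [Field K] :
    MvPolynomial (Fin m × Fin n) K →ₐ[K] Rp m n K :=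
  (toT m n K).rangeRestrict

private theorem rr_surj (m n : ℕ) (K : Type*) [Field K] : Function.Surjective (rr m n K) :=
  (toT m n K).rangeRestrict_surjective

/-- the generators -/
private noncomputable def xP (m n : ℕ) (K : Type*) [Field K] (i : Fin m × Fin n) : Rp m n K :=
  rr m n K (MvPolynomial.X i)

private theorem adjoin_xP (m n : ℕ) (K : Type*) [Field K] :
    Algebra.adjoin K (Set.range (xP m n K)) = ⊤ := by
  have h1 : (MvPolynomial.aeval (xP m n K) : MvPolynomial (Fin m × Fin n) K →ₐ[K] Rp m n K) =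
      rr m n K := by
    apply MvPolynomial.algHom_ext
    intro i
    rw [MvPolynomial.aeval_X]
    rfl
  rw [Algebra.adjoin_range_eq_range_aeval, h1, AlgHom.range_eq_top]
  exact rr_surj m n K

private theorem span_mod (m n : ℕ) (K : Type*) [Field K] (p : ℕ) [Fact p.Prime] [CharP K p]
    (hK : ∀ c : K, ∃ c' : K, c' ^ p = c) :
    Pool.FSig.SpanMod K (Pool.FSig.frobPow ((epsP m n K : Rp m n K →ₐ[K] K) : Rp m n K →+* K)
      (p ^ 1)) (p ^ (m * n)) := by
  classical
  have hch : CharP (Rp m n K) p :=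
    charP_of_injective_algebraMap (algebraMap K (Rp m n K)).injective p
  have hcard : Fintype.card (Fin m × Fin n → Fin (p ^ 1)) = p ^ (m * n) := by
    rw [Fintype.card_fun, Fintype.card_fin, Fintype.card_prod, Fintype.card_fin, Fintype.card_fin,
      pow_one]
  let E := Fintype.equivFinOfCardEq hcard
  refine ⟨fun k => ∏ i, xP m n K i ^ (E.symm k i : ℕ), fun f => ?_⟩
  obtain ⟨c, hc⟩ := Pool.FSig.exists_gen p hK 1 (xP m n K) (adjoin_xP m n K) f
  refine ⟨fun k => epsP m n K (c (E.symm k)) ^ p, ?_⟩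
  have h1 : ∑ k, epsP m n K (c (E.symm k)) ^ p • ∏ i, xP m n K i ^ (E.symm k i : ℕ) =
      ∑ b, epsP m n K (c b) ^ p • ∏ i, xP m n K i ^ (b i : ℕ) :=
    Equiv.sum_comp E.symm (fun b => epsP m n K (c b) ^ p • ∏ i, xP m n K i ^ (b i : ℕ))
  have h3 : f - ∑ b, epsP m n K (c b) ^ p • ∏ i, xP m n K i ^ (b i : ℕ) =
      ∑ b, (c b ^ p ^ 1 * ∏ i, xP m n K i ^ (b i : ℕ) -
        epsP m n K (c b) ^ p • ∏ i, xP m n K i ^ (b i : ℕ)) := by
    rw [Finset.sum_sub_distrib, ← hc]
  rw [h1, h3]
  refine Ideal.sum_mem _ fun b _ => ?_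
  have h2 : c b ^ p ^ 1 * ∏ i, xP m n K i ^ (b i : ℕ) -
      epsP m n K (c b) ^ p • ∏ i, xP m n K i ^ (b i : ℕ) =
      (∏ i, xP m n K i ^ (b i : ℕ)) *
        (c b - algebraMap K (Rp m n K) (epsP m n K (c b))) ^ (p ^ 1) := by
    generalize ∏ i, xP m n K i ^ (b i : ℕ) = y
    rw [pow_one, sub_pow_char, Algebra.smul_def, map_pow]
    ring
  rw [h2]
  refine Ideal.mul_mem_left _ _ (Ideal.subset_span ⟨_, ?_, rfl⟩)
  change epsP m n K (c b - algebraMap K (Rp m n K) (epsP m n K (c b))) = 0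
  rw [map_sub, AlgHom.commutes]
  exact sub_self _

theorem rk_le (m n : ℕ) (K : Type*) [Field K] (p : ℕ) [Fact p.Prime] [CharP K p]
    [PerfectRing K p] : rk (Rp m n K) p (mRp m n K) ≤ p ^ (m * n) := by
  have hK : ∀ c : K, ∃ c' : K, c' ^ p = c := fun c => ⟨root p c, root_pow p c⟩
  unfold mRp
  rw [Pool.FSig.rk_eq, ← epsP_coe]
  unfold Pool.FSig.rk
  apply csSup_le'
  intro a ha
  refine Pool.FSig.hasRk_le p hK (epsP m n K) 1 (p ^ (m * n)) (span_mod m n K p hK) a ?_
  rw [pow_one]
  exact ha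

end FSig
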