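import Pool.Agent.Lib.FSig.ZDefs
import Pool.Agent.Lib.FSig.Rec2

/-!
# MP_05de8f_ag : `∑ lb = Atot` and `ub = lb` (module SumLb)

PROOFS (`p ≥ 2`, everything over `boxS m n 0 (2p-2)`; `m, n ≥ 1`, so `Vx m n` is nonempty; `m + n ≥ 1`).
* `sum_lb`: `Atot = ∑_d ((invN (bar p d) - fus p (bar p d)) + [all d v ≤ p-2] fus p d + [all d v ≥ p] fus p (bar p d))`: the second and third sums of `Atot` are over subsets of the box (`Finset.sum_filter`; `boxS m n 0 (p-2)` is the filter of the box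
  by `∀ v, d v ≤ p-2`, `boxS m n p (2p-2)` by `∀ v, p ≤ d v`). Compare with `lb p d`: all `d v ≥ p`: `invN (bar) - fus (bar) + fus (bar)` (and not all `≤ p-2` since there is a `v`). Some but not all `d v ≥ p`: no extra terms. No `d v ≥ p`, i.e. all `d v ≤ p-1`: `bar p d = d`;
  if all `≤ p-2`: `invN d - fus d + fus d`; otherwise some `d v = p-1` and `fus p d = 0` (`fus_edge`).
* `ub_eq_lb`: the definitions differ only if some `d v ≥ p`, not all `≥ p`, and no `d v ≤ p-2` (or: all `d v ≥ p`, `p ≥ 2`, then no `d v ≤ p-2` and both are `invN (bar p d)`); then some `d v = p-1`, `bar p d v = p-1`, `fus p (bar p d) = 0` (`fus_edge`), and both are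
  `invN (bar p d)`.
-/

namespace FSig

open Finset

variable {m n : ℕ}

private lemma mem_box {lo hi : ℕ} {d : Vx m n →₀ ℕ} :
    d ∈ boxS m n lo hi ↔ (∀ v, lo ≤ d v ∧ d v ≤ hi) ∧ Bal d := by
  classical
  unfold boxS
  rw [Finset.mem_filter, Finset.mem_Icc, Finsupp.le_def, Finsupp.le_def]
  refine and_congr_left fun _ => ?_
  constructor
  · rintro ⟨h1, h2⟩ v
    exact ⟨h1 v, h2 v⟩
  · intro h
    exact ⟨fun v => (h v).1, fun v => (h v).2⟩

private lemma bar_app (p : ℕ) (d : Vx m n →₀ ℕ) (v : Vx m n) :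
    bar p d v = min (d v) (2 * p - 2 - d v) := by
  unfold bar
  rw [Finsupp.mapRange_apply]

open Classical in
private lemma sum_sub1 (p : ℕ) (hp : 2 ≤ p) (F : (Vx m n →₀ ℕ) → ℤ) :
    ∑ d ∈ boxS m n 0 (p - 2), F d =
      ∑ d ∈ boxS m n 0 (2 * p - 2), if ∀ v, d v ≤ p - 2 then F d else 0 := by
  rw [← Finset.sum_filter]
  refine Finset.sum_congr ?_ fun _ _ => rfl
  ext d
  rw [Finset.mem_filter, mem_box, mem_box]
  constructor
  · rintro ⟨h1, h2⟩
    exact ⟨⟨fun v => ⟨(h1 v).1, by have := (h1 v).2; omega⟩, h2⟩, fun v => (h1 v).2⟩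
  · rintro ⟨⟨h1, h2⟩, h3⟩
    exact ⟨fun v => ⟨(h1 v).1, h3 v⟩, h2⟩

open Classical in
private lemma sum_sub2 (p : ℕ) (F : (Vx m n →₀ ℕ) → ℤ) :
    ∑ d ∈ boxS m n p (2 * p - 2), F d =
      ∑ d ∈ boxS m n 0 (2 * p - 2), if ∀ v, p ≤ d v then F d else 0 := by
  rw [← Finset.sum_filter]
  refine Finset.sum_congr ?_ fun _ _ => rfl
  ext d
  rw [Finset.mem_filter, mem_box, mem_box]
  constructor
  · rintro ⟨h1, h2⟩
    exact ⟨⟨fun v => ⟨Nat.zero_le _, (h1 v).2⟩, h2⟩, fun v => (h1 v).1⟩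
  · rintro ⟨⟨h1, h2⟩, h3⟩
    exact ⟨fun v => ⟨h3 v, (h1 v).2⟩, h2⟩

theorem sum_lb (hm : 1 ≤ m) (p : ℕ) (hp : 2 ≤ p) :
    (∑ d ∈ boxS m n 0 (2 * p - 2), lb p d) = Atot m n p := by
  classical
  unfold Atot
  rw [sum_sub1 p hp, sum_sub2 p, ← Finset.sum_add_distrib, ← Finset.sum_add_distrib]
  refine Finset.sum_congr rfl fun d _ => ?_
  have v0 : Vx m n := Sum.inl ⟨0, hm⟩
  unfold lb
  by_cases h1 : ∀ v, p ≤ d v
  · rw [if_pos h1, if_pos h1, if_neg]
    · ring
    · intro h2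
      have := h1 v0
      have := h2 v0
      omega
  · by_cases h2 : ∃ v, p ≤ d v
    · rw [if_neg h1, if_pos h2, if_neg h1, if_neg]
      · ring
      · intro h3
        obtain ⟨v, hv⟩ := h2
        have := h3 v
        omega
    · have hb : bar p d = d := by
        ext v
        rw [bar_app]
        have h3 : ¬ p ≤ d v := fun h => h2 ⟨v, h⟩
        exact min_eq_left (by omega)
      rw [if_neg h1, if_neg h2, if_neg h1, hb]
      by_cases h3 : ∀ v, d v ≤ p - 2
      · rw [if_pos h3]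
        ring
      · rw [if_neg h3]
        push Not at h3
        obtain ⟨v, hv⟩ := h3
        have h4 : ¬ p ≤ d v := fun h => h2 ⟨v, h⟩
        rw [fus_edge p (by omega) d (v := v) (by omega)]
        ring

theorem ub_eq_lb (hm : 1 ≤ m) (p : ℕ) (hp : 2 ≤ p) (d : Vx m n →₀ ℕ) : ub p d = lb p d := by
  have v0 : Vx m n := Sum.inl ⟨0, hm⟩
  unfold ub lb
  by_cases h1 : ∀ v, p ≤ d v
  · have h2 : ¬ ∃ v, d v ≤ p - 2 := by
      rintro ⟨v, hv⟩
      have := h1 v
      omega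
    rw [if_pos ⟨v0, h1 v0⟩, if_neg h2, if_pos h1]
  · by_cases h2 : ∃ v, p ≤ d v
    · rw [if_pos h2, if_neg h1, if_pos h2]
      by_cases h3 : ∃ v, d v ≤ p - 2
      · rw [if_pos h3]
      · have h4 : ∃ v, d v = p - 1 := by
          push Not at h1
          obtain ⟨v, hv⟩ := h1
          refine ⟨v, ?_⟩
          have h5 : ¬ d v ≤ p - 2 := fun h => h3 ⟨v, h⟩
          omega
        obtain ⟨v, hv⟩ := h4
        have hb : bar p d v = p - 1 := by
          rw [bar_app, hv]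
          exact min_eq_left (by omega)
        rw [if_neg h3, fus_edge p (by omega) (bar p d) hb, sub_zero]
    · rw [if_neg h2, if_neg h1, if_neg h2]

end FSig
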