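import Pool.Agent.Lib.FSig.RkLow
import Pool.Agent.Lib.FSig.SumLb
import Pool.Agent.Lib.FSig.Count
import Pool.Agent.Lib.FSig.General
import Pool.Agent.Lib.FSig.RkLe

/-!
# MP_05de8f_ag : the main theorem (module Main)

PROOF. `C1` from `general`, `C2` from `count`. Let `N = m+n`, `D = 2N-4`.
* `rk_eq_Atot` (`p > N`): `rk_bounds`, `ub_eq_lb`, `sum_lb`.
* `p > 2N`: `|rk - sigma p^D| ≤ C2 p^(D-1)`, divide by `p^D` (`D ≥ 8`): `|s - sigma| ≤ (C1 + C2)/p`.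
* `p ≤ 2N`: `rk ≤ p^(mn)` (`rk_le`), so `|s - sigma| ≤ C1/p + (2N)^(mn) + |sigma| ≤ (C1 + 2N((2N)^(mn) + |sigma|))/p`.
Take `C` = the sum of all constants (absolute values).
-/

namespace FSig

open Filter Topology

/-- the rank of the pairing for `q = p` -/
theorem rk_eq_Atot {m n : ℕ} (hm : 3 ≤ m) (hn : 3 ≤ n) (p : ℕ) [Fact p.Prime] (K : Type*) [Field K] [CharP K p]
    [PerfectRing K p] (hN : m + n < p) : (rk (Rp m n K) p (mRp m n K) : ℤ) = Atot m n p := by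
  have hp2 : 2 ≤ p := (Fact.out : p.Prime).two_le
  obtain ⟨h1, h2⟩ := rk_bounds K p hm hn hN
  have h3 : (∑ d ∈ boxS m n 0 (2 * p - 2), ub p d) = ∑ d ∈ boxS m n 0 (2 * p - 2), lb p d :=
    Finset.sum_congr rfl fun d _ => ub_eq_lb (by omega) p hp2 d
  rw [h3] at h2
  rw [sum_lb (by omega) p hp2] at h1 h2
  exact le_antisymm h2 h1

theorem main.{u} (m n : ℕ) (hm : 3 ≤ m) (hn : 3 ≤ n) : ∃ C : ℝ, ∀ (p : ℕ) [Fact p.Prime]
    (K : Type u) [Field K] [CharP K p] [PerfectRing K p], ∃ s : ℝ,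
      Tendsto (fun e : ℕ => (freeRank (L3 m n K) (p ^ e) : ℝ) / (p : ℝ) ^ (e * (2 * (m + n) - 4)))
        atTop (𝓝 s) ∧ |s - ((sigma m n : ℚ) : ℝ)| ≤ C / p := by
  obtain ⟨C1, h1⟩ := Pool.FSig.general.{u} m n hm hn
  obtain ⟨C2, h2⟩ := count m n hm hn
  refine ⟨|C1| + |C2| + (2 * (m + n) : ℝ) *
    ((2 * (m + n) : ℝ) ^ (m * n) + |((sigma m n : ℚ) : ℝ)|), ?_⟩
  intro p _ K _ _ _
  obtain ⟨s, hs, hb⟩ := h1 p K
  refine ⟨s, hs, ?_⟩
  have hp := (Fact.out : p.Prime)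
  have hp0 : (0 : ℝ) < p := by exact_mod_cast hp.pos
  have hp1 : (1 : ℝ) ≤ p := by exact_mod_cast hp.one_lt.le
  have hX : (0 : ℝ) ≤ (2 * (m + n) : ℝ) *
    ((2 * (m + n) : ℝ) ^ (m * n) + |((sigma m n : ℚ) : ℝ)|) := by positivity
  have hb' : |s - (rk (Rp m n K) p (mRp m n K) : ℝ) / (p : ℝ) ^ (2 * (m + n) - 4)| ≤ |C1| / p :=
    hb.trans (by gcongr; exact le_abs_self C1)
  by_cases hN : 2 * (m + n) < p
  · have e := rk_eq_Atot hm hn p K (by omega)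
    have c := h2 p hp hN
    rw [← e] at c
    have hD : (p : ℝ) ^ (2 * (m + n) - 4) = p ^ (2 * (m + n) - 5) * p := by
      rw [← pow_succ]; congr 1; omega
    have hPD : (0 : ℝ) < (p : ℝ) ^ (2 * (m + n) - 4) := by positivity
    have key : |(rk (Rp m n K) p (mRp m n K) : ℝ) / (p : ℝ) ^ (2 * (m + n) - 4) -
        ((sigma m n : ℚ) : ℝ)| ≤ |C2| / p := by
      have h4 : (rk (Rp m n K) p (mRp m n K) : ℝ) / (p : ℝ) ^ (2 * (m + n) - 4) -
        ((sigma m n : ℚ) : ℝ) = ((rk (Rp m n K) p (mRp m n K) : ℝ) -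
        ((sigma m n : ℚ) : ℝ) * (p : ℝ) ^ (2 * (m + n) - 4)) / (p : ℝ) ^ (2 * (m + n) - 4) := by
        rw [sub_div, mul_div_assoc, div_self hPD.ne', mul_one]
      rw [h4, abs_div, abs_of_pos hPD, div_le_div_iff₀ hPD hp0]
      have h5 : (C2 : ℝ) * (p : ℝ) ^ (2 * (m + n) - 5) ≤ |C2| * (p : ℝ) ^ (2 * (m + n) - 5) := by
        gcongr; exact le_abs_self C2
      have h6 : |(rk (Rp m n K) p (mRp m n K) : ℝ) -
        ((sigma m n : ℚ) : ℝ) * (p : ℝ) ^ (2 * (m + n) - 4)| ≤ |C2| * (p : ℝ) ^ (2 * (m + n) - 5) := by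
        refine le_trans ?_ h5
        simpa using c
      calc _ ≤ (|C2| * (p : ℝ) ^ (2 * (m + n) - 5)) * p := by gcongr
        _ = |C2| * (p : ℝ) ^ (2 * (m + n) - 4) := by rw [hD]; ring
    have h7 := abs_sub_le s ((rk (Rp m n K) p (mRp m n K) : ℝ) / (p : ℝ) ^ (2 * (m + n) - 4))
      ((sigma m n : ℚ) : ℝ)
    calc _ ≤ |C1| / p + |C2| / p := by linarith
      _ = (|C1| + |C2|) / p := by ring
      _ ≤ _ := div_le_div_of_nonneg_right (by linarith) hp0.le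
  · push Not at hN
    have hr := rk_le m n K p
    have hN' : (p : ℝ) ≤ 2 * (m + n) := by exact_mod_cast hN
    have hPD : (1 : ℝ) ≤ (p : ℝ) ^ (2 * (m + n) - 4) := one_le_pow₀ hp1
    have h8 : |(rk (Rp m n K) p (mRp m n K) : ℝ) / (p : ℝ) ^ (2 * (m + n) - 4)| ≤
        (2 * (m + n) : ℝ) ^ (m * n) := by
      rw [abs_of_nonneg (by positivity)]
      calc _ ≤ (rk (Rp m n K) p (mRp m n K) : ℝ) := div_le_self (by positivity) hPD
        _ ≤ ((p ^ (m * n) : ℕ) : ℝ) := by exact_mod_cast hr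
        _ = (p : ℝ) ^ (m * n) := by push_cast; rfl
        _ ≤ _ := by gcongr
    have h9 : |s - ((sigma m n : ℚ) : ℝ)| ≤ |C1| / p + ((2 * (m + n) : ℝ) ^ (m * n) +
        |((sigma m n : ℚ) : ℝ)|) := by
      have t1 := abs_sub_le s ((rk (Rp m n K) p (mRp m n K) : ℝ) / (p : ℝ) ^ (2 * (m + n) - 4))
        ((sigma m n : ℚ) : ℝ)
      have t2 := abs_sub ((rk (Rp m n K) p (mRp m n K) : ℝ) / (p : ℝ) ^ (2 * (m + n) - 4))
        ((sigma m n : ℚ) : ℝ)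
      linarith
    have h10 : ((2 * (m + n) : ℝ) ^ (m * n) + |((sigma m n : ℚ) : ℝ)|) ≤
        ((2 * (m + n) : ℝ) * ((2 * (m + n) : ℝ) ^ (m * n) + |((sigma m n : ℚ) : ℝ)|)) / p := by
      rw [le_div_iff₀ hp0, mul_comm]
      gcongr
    have h11 : 0 ≤ |C2| / p := by positivity
    calc _ ≤ |C1| / p + ((2 * (m + n) : ℝ) *
            ((2 * (m + n) : ℝ) ^ (m * n) + |((sigma m n : ℚ) : ℝ)|)) / p + |C2| / p := by linarith
      _ = _ := by ring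

end FSig
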