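import Pool.Agent.Lib.FSig.NDefs

/-!
# Module NDer: the four derivations

* `E_one`, `F_one`: `E K 1` is a derivation: `Et (f g) = Et f * Et g`, coefficient of `t`, and the coefficient of `t^0` of `Et f` is `f`
  (`Polynomial.coeff_mul`/`Polynomial.mul_coeff_one`, `MvPolynomial.induction_on`); it agrees with `dE` on the variables. So for all `f`,
  `E K 1 f = dE f` (induction on `f`: constants, sums, products with variables).
* `killed_Rp`: `dE, dF, dH, dZ` kill the brackets `[v w]`, `v` a row, `w` a column (`Derivation.leibniz`, `ring`), and the set of killed elements is a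
  subalgebra, so they kill `Rp`, the range of `toT` (`MvPolynomial.induction_on`).
* `der_jP`: for a derivation `d` of `T` over `K` which kills `Rp` and maps `a_{y i}`, `b_{y i}` to `jP (g (i, false))`, `jP (g (i, true))`:
  `d (jP c) = jP (∑ x, g x * pderiv x c)` for all `c` (induction on `c`: `C r`, sums, products with variables; `Derivation.leibniz`).
  (State it with `Finset.univ : Finset (Fin 2 × Bool)`.)
-/

namespace FSig

open MvPolynomial

private theorem nd_E (m n : ℕ) (K : Type*) [Field K] (f : T (Vx m n) K) :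
    (Et K f).coeff 0 = f ∧ (Et K f).coeff 1 = dE m n K f := by
  induction f using MvPolynomial.induction_on with
  | C a =>
    have h1 : Et K (C a : T (Vx m n) K) = Polynomial.C (C a) := by
      unfold Et
      rw [aeval_C]
      rfl
    rw [h1]
    refine ⟨Polynomial.coeff_C_zero, ?_⟩
    rw [Polynomial.coeff_C_succ]
    exact ((dE m n K).map_algebraMap a).symm
  | add p q hp hq =>
    rw [map_add, Polynomial.coeff_add, Polynomial.coeff_add, map_add, hp.1, hp.2, hq.1, hq.2]
    exact ⟨rfl, rfl⟩
  | mul_X p i hp =>
    have h1 : Et K (X i : T (Vx m n) K) = if i.2 then Polynomial.C (X i) +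
        Polynomial.X * Polynomial.C (X (i.1, false)) else Polynomial.C (X i) := by
      unfold Et
      rw [aeval_X]
    have h2 : dE m n K (X i) = if i.2 then X (i.1, false) else 0 := by
      unfold dE
      rw [mkDerivation_X]
    have h3 : (Et K (X i : T (Vx m n) K)).coeff 0 = X i := by
      rw [h1]
      split_ifs <;> simp
    have h4 : (Et K (X i : T (Vx m n) K)).coeff 1 = dE m n K (X i) := by
      rw [h1, h2]
      split_ifs
      · simp [Polynomial.coeff_C]
      · simp [Polynomial.coeff_C]
    rw [map_mul, Polynomial.mul_coeff_zero, Polynomial.mul_coeff_one, hp.1, hp.2, h3, h4,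
      Derivation.leibniz, smul_eq_mul, smul_eq_mul]
    refine ⟨rfl, by ring⟩

private theorem nd_F (m n : ℕ) (K : Type*) [Field K] (f : T (Vx m n) K) :
    (Ft K f).coeff 0 = f ∧ (Ft K f).coeff 1 = dF m n K f := by
  induction f using MvPolynomial.induction_on with
  | C a =>
    have h1 : Ft K (C a : T (Vx m n) K) = Polynomial.C (C a) := by
      unfold Ft
      rw [aeval_C]
      rfl
    rw [h1]
    refine ⟨Polynomial.coeff_C_zero, ?_⟩
    rw [Polynomial.coeff_C_succ]
    exact ((dF m n K).map_algebraMap a).symm
  | add p q hp hq =>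
    rw [map_add, Polynomial.coeff_add, Polynomial.coeff_add, map_add, hp.1, hp.2, hq.1, hq.2]
    exact ⟨rfl, rfl⟩
  | mul_X p i hp =>
    have h1 : Ft K (X i : T (Vx m n) K) = if i.2 then Polynomial.C (X i) else
        Polynomial.C (X i) + Polynomial.X * Polynomial.C (X (i.1, true)) := by
      unfold Ft
      rw [aeval_X]
    have h2 : dF m n K (X i) = if i.2 then 0 else X (i.1, true) := by
      unfold dF
      rw [mkDerivation_X]
    have h3 : (Ft K (X i : T (Vx m n) K)).coeff 0 = X i := by
      rw [h1]
      split_ifs <;> simp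
    have h4 : (Ft K (X i : T (Vx m n) K)).coeff 1 = dF m n K (X i) := by
      rw [h1, h2]
      split_ifs
      · simp [Polynomial.coeff_C]
      · simp [Polynomial.coeff_C]
    rw [map_mul, Polynomial.mul_coeff_zero, Polynomial.mul_coeff_one, hp.1, hp.2, h3, h4,
      Derivation.leibniz, smul_eq_mul, smul_eq_mul]
    refine ⟨rfl, by ring⟩

private theorem nd_kill (m n : ℕ) (K : Type*) [Field K]
    (d : Derivation K (T (Vx m n) K) (T (Vx m n) K))
    (hd : ∀ i j, d (br K (Sum.inl i : Vx m n) (Sum.inr j)) = 0) (r : T (Vx m n) K)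
    (hr : r ∈ Rp m n K) : d r = 0 := by
  obtain ⟨g, rfl⟩ := (AlgHom.mem_range _).1 hr
  induction g using MvPolynomial.induction_on with
  | C a =>
    have h1 : toT m n K (C a) = algebraMap K _ a := by
      unfold toT
      rw [aeval_C]
    rw [h1]
    exact d.map_algebraMap a
  | add p q hp hq =>
    rw [map_add, map_add, hp ((AlgHom.mem_range _).2 ⟨p, rfl⟩),
      hq ((AlgHom.mem_range _).2 ⟨q, rfl⟩), add_zero]
  | mul_X p i hp =>
    have h1 : toT m n K (X i) = br K (Sum.inl i.1 : Vx m n) (Sum.inr i.2) := by
      unfold toT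
      rw [aeval_X]
    rw [map_mul, Derivation.leibniz, h1, hd, hp ((AlgHom.mem_range _).2 ⟨p, rfl⟩), smul_zero,
      smul_zero, add_zero]

theorem E_one (m n : ℕ) (K : Type*) [Field K] (f : T (Vx m n) K) : E K 1 f = dE m n K f :=
  (nd_E m n K f).2

theorem F_one (m n : ℕ) (K : Type*) [Field K] (f : T (Vx m n) K) : F K 1 f = dF m n K f :=
  (nd_F m n K f).2

theorem killed_Rp (m n : ℕ) (K : Type*) [Field K] (r : Rp m n K) :
    Killed (r : T (Vx m n) K) := by
  refine ⟨nd_kill m n K _ (fun i j => ?_) _ r.2, nd_kill m n K _ (fun i j => ?_) _ r.2,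
    nd_kill m n K _ (fun i j => ?_) _ r.2, nd_kill m n K _ (fun i j => ?_) _ r.2⟩
  · simp only [br, va, vb, map_sub, Derivation.leibniz, dE, mkDerivation_X, smul_eq_mul]
    simp
    try ring
  · simp only [br, va, vb, map_sub, Derivation.leibniz, dF, mkDerivation_X, smul_eq_mul]
    simp
    try ring
  · simp only [br, va, vb, map_sub, Derivation.leibniz, dH, mkDerivation_X, smul_eq_mul]
    simp
    try ring
  · simp only [br, va, vb, map_sub, Derivation.leibniz, dZ, mkDerivation_X, smul_eq_mul]
    simp
    try ring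

theorem der_jP (m n : ℕ) (K : Type*) [Field K] (y : Fin 2 → Fin m)
    (d : Derivation K (T (Vx m n) K) (T (Vx m n) K)) (hd : ∀ r : Rp m n K, d (r : T (Vx m n) K) = 0)
    (g : Fin 2 × Bool → MvPolynomial (Fin 2 × Bool) (Rp m n K))
    (hg : ∀ x : Fin 2 × Bool, d (X ((Sum.inl (y x.1) : Vx m n), x.2)) = jP m n K y (g x))
    (c : MvPolynomial (Fin 2 × Bool) (Rp m n K)) :
    d (jP m n K y c) = jP m n K y (∑ x, g x * pderiv x c) := by
  classical
  induction c using MvPolynomial.induction_on with
  | C r =>
    have h1 : jP m n K y (C r) = (r : T (Vx m n) K) := by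
      unfold jP
      rw [aeval_C]
      rfl
    rw [h1, hd]
    simp
  | add p q hp hq =>
    rw [map_add, map_add, hp, hq, ← map_add, ← Finset.sum_add_distrib]
    congr 1
    refine Finset.sum_congr rfl fun x _ => ?_
    rw [map_add, mul_add]
  | mul_X p i hp =>
    have h1 : jP m n K y (X i) = X ((Sum.inl (y i.1) : Vx m n), i.2) := by
      unfold jP
      rw [aeval_X]
    have h2 : ∑ x, g x * pderiv x (p * X i) = g i * p + X i * ∑ x, g x * pderiv x p := by
      have h3 : ∀ x, g x * pderiv x (p * X i) =
          (if x = i then g x * p else 0) + X i * (g x * pderiv x p) := by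
        intro x
        rw [Derivation.leibniz, pderiv_X, smul_eq_mul, smul_eq_mul, Pi.single_apply]
        by_cases h : x = i
        · subst h
          rw [if_pos rfl, if_pos rfl]
          ring
        · rw [if_neg (Ne.symm h), if_neg h]
          ring
      rw [Finset.sum_congr rfl fun x _ => h3 x, Finset.sum_add_distrib, Finset.sum_ite_eq',
        if_pos (Finset.mem_univ _), Finset.mul_sum]
    rw [map_mul, Derivation.leibniz, h1, hg, hp, h2, map_add, map_mul, map_mul, h1, smul_eq_mul,
      smul_eq_mul]
    ring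

end FSig
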