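import Pool.Agent.Lib.FSig.NDefs
import Pool.Agent.Lib.FSig.NDer

/-!
# Module NCl: closure properties of the relation `NR`

* `NR.zero`: `N = 0`, `s = 1`. `NR.add`: `s s'`, the families `(r k, s' t k)` and `(r' l, s t' l)` (`Fin.append`). `NR.smul`: `t k ↦ t * t k`.
  `NR.coe`: `N = 1`, `r`, `t = 1`, `s = 1`. `NR.sum`: for `v = ∑ r k t k ^ p`: `s = 1`.
* `NR.cancel`: if `NR φ p (D ^ p * v) (D * x)` with `D ≠ 0` then `NR φ p v x` (replace `s` by `s D`).
* `NR.E`: from `s ^ p v = ∑ r k t k ^ p`, `s x = ∑ φ (r k) t k` to `NR φ p (E^(p) v) (E^(1) x)`. We use `Et`: it is a ring homomorphism `T → T[t]`, `Et (r) = C r` for `r ∈ Rp`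
  (on the brackets `ring`, then on `toT`), `Et (t ^ p) = (Et t) ^ p`, and in characteristic `p` the coefficient of `t^p` of `f ^ p` is
  `(coeff 1 f) ^ p`, of `t^i`, `0 < i < p`, is zero (`Polynomial.expand_char`/`Polynomial.map_frobenius_expand`: `f ^ p = expand p (map frobenius f)`). So the coefficient of `t^p` in `Et (s ^ p v)` is
  `s ^ p * E^(p) v + (E s) ^ p * v` and on the right `∑ r k * (E t k) ^ p`, where `E = E^(1)`. Multiply by `s ^ p`:
  `s^(2p) E^(p) v = ∑ r k (s E t k) ^ p - (E s) ^ p ∑ r k t k ^ p = ∑ r k (s E t k - (E s) t k) ^ p` (`sub_pow_char`).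
  `E` is a derivation which kills `Rp` (`E_one`, `killed_Rp`): `(E s) x + s E x = ∑ φ (r k) E t k`, times `s`:
  `s ^ 2 E x = ∑ φ (r k) (s E t k - (E s) t k)`. So `s ^ 2` and the family `(r k, s E t k - (E s) t k)` do it. `NR.F` in the same way.
-/

namespace FSig

open MvPolynomial

variable {m n : ℕ} {K : Type*} [Field K] {p : ℕ} {φ : Rp m n K →+ Rp m n K}

theorem NR.zero (hp : p ≠ 0) : NR φ p (0 : T (Vx m n) K) 0 := by
  refine ⟨0, fun k => k.elim0, fun k => k.elim0, 1, one_ne_zero, ?_, ?_⟩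
  · rw [mul_zero, Fin.sum_univ_zero]
  · rw [mul_zero, Fin.sum_univ_zero]

theorem NR.add {v v' x x' : T (Vx m n) K} (h : NR φ p v x)
    (h' : NR φ p v' x') : NR φ p (v + v') (x + x') := by
  obtain ⟨N, r, t, s, hs, h1, h2⟩ := h
  obtain ⟨N', r', t', s', hs', h1', h2'⟩ := h'
  refine ⟨N + N', Fin.append r r', Fin.append (fun k => s' * t k) (fun k => s * t' k), s * s',
    mul_ne_zero hs hs', ?_, ?_⟩
  · rw [Fin.sum_univ_add]
    simp only [Fin.append_left, Fin.append_right]
    have e1 : ∑ k, (r k : T (Vx m n) K) * (s' * t k) ^ p = s' ^ p * (s ^ p * v) := by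
      rw [h1, Finset.mul_sum]
      refine Finset.sum_congr rfl fun k _ => ?_
      rw [mul_pow]
      ring
    have e2 : ∑ k, (r' k : T (Vx m n) K) * (s * t' k) ^ p = s ^ p * (s' ^ p * v') := by
      rw [h1', Finset.mul_sum]
      refine Finset.sum_congr rfl fun k _ => ?_
      rw [mul_pow]
      ring
    rw [e1, e2, mul_pow]
    ring
  · rw [Fin.sum_univ_add]
    simp only [Fin.append_left, Fin.append_right]
    have e1 : ∑ k, (φ (r k) : T (Vx m n) K) * (s' * t k) = s' * (s * x) := by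
      rw [h2, Finset.mul_sum]
      refine Finset.sum_congr rfl fun k _ => ?_
      ring
    have e2 : ∑ k, (φ (r' k) : T (Vx m n) K) * (s * t' k) = s * (s' * x') := by
      rw [h2', Finset.mul_sum]
      refine Finset.sum_congr rfl fun k _ => ?_
      ring
    rw [e1, e2]
    ring

theorem NR.smul {v x : T (Vx m n) K} (t : T (Vx m n) K) (h : NR φ p v x) :
    NR φ p (t ^ p * v) (t * x) := by
  obtain ⟨N, r, u, s, hs, h1, h2⟩ := h
  refine ⟨N, r, fun k => t * u k, s, hs, ?_, ?_⟩
  · have e1 : ∑ k, (r k : T (Vx m n) K) * (t * u k) ^ p = t ^ p * (s ^ p * v) := by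
      rw [h1, Finset.mul_sum]
      refine Finset.sum_congr rfl fun k _ => ?_
      rw [mul_pow]
      ring
    rw [e1]
    ring
  · have e1 : ∑ k, (φ (r k) : T (Vx m n) K) * (t * u k) = t * (s * x) := by
      rw [h2, Finset.mul_sum]
      refine Finset.sum_congr rfl fun k _ => ?_
      ring
    rw [e1]
    ring

theorem NR.coe (r : Rp m n K) : NR φ p (r : T (Vx m n) K) (φ r : T (Vx m n) K) := by
  refine ⟨1, fun _ => r, fun _ => 1, 1, one_ne_zero, ?_, ?_⟩
  · rw [Fin.sum_univ_one, one_pow, one_mul, mul_one]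
  · rw [Fin.sum_univ_one, one_mul, mul_one]

theorem NR.sum {N : ℕ} (r : Fin N → Rp m n K) (t : Fin N → T (Vx m n) K) :
    NR φ p (∑ k, (r k : T (Vx m n) K) * t k ^ p) (∑ k, (φ (r k) : T (Vx m n) K) * t k) := by
  refine ⟨N, r, t, 1, one_ne_zero, ?_, ?_⟩
  · rw [one_pow, one_mul]
  · rw [one_mul]

theorem NR.cancel {v x D : T (Vx m n) K} (hD : D ≠ 0) (h : NR φ p (D ^ p * v) (D * x)) :
    NR φ p v x := by
  obtain ⟨N, r, t, s, hs, h1, h2⟩ := h
  refine ⟨N, r, t, s * D, mul_ne_zero hs hD, ?_, ?_⟩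
  · rw [← h1, mul_pow, mul_assoc]
  · rw [← h2, mul_assoc]

private theorem ncl_powcoeff [Fact p.Prime] [CharP K p] (f : Polynomial (T (Vx m n) K)) (j : ℕ) :
    (f ^ p).coeff j = if p ∣ j then f.coeff (j / p) ^ p else 0 := by
  have hp : 0 < p := (Fact.out : p.Prime).pos
  rw [← Polynomial.map_frobenius_expand (p := p) (f := f), Polynomial.coeff_map, Polynomial.coeff_expand hp]
  split_ifs
  · rw [frobenius_def]
  · rw [map_zero]

private theorem ncl_gen [Fact p.Prime] [CharP K p]
    (Θ : T (Vx m n) K →ₐ[K] Polynomial (T (Vx m n) K)) (h0 : ∀ f, (Θ f).coeff 0 = f)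
    (hR : ∀ r : Rp m n K, Θ (r : T (Vx m n) K) = Polynomial.C (r : T (Vx m n) K))
    {v x : T (Vx m n) K} (h : NR φ p v x) : NR φ p ((Θ v).coeff p) ((Θ x).coeff 1) := by
  obtain ⟨N, r, t, s, hs, h1, h2⟩ := h
  have hp : 0 < p := (Fact.out : p.Prime).pos
  have hp1 : p / p = 1 := Nat.div_self hp
  set dd : T (Vx m n) K → T (Vx m n) K := fun f => (Θ f).coeff 1 with hdd
  -- the coefficient of `t ^ p`
  have hA : s ^ p * (Θ v).coeff p + dd s ^ p * v = ∑ k, (r k : T (Vx m n) K) * dd (t k) ^ p := by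
    have e := congrArg (fun g => (Θ g).coeff p) h1
    simp only [map_mul, map_pow, map_sum, hR] at e
    rw [Polynomial.finset_sum_coeff] at e
    have e2 : ∑ k, (Polynomial.C (r k : T (Vx m n) K) * Θ (t k) ^ p).coeff p =
        ∑ k, (r k : T (Vx m n) K) * dd (t k) ^ p := by
      refine Finset.sum_congr rfl fun k _ => ?_
      rw [Polynomial.coeff_C_mul, ncl_powcoeff, if_pos dvd_rfl, hp1]
    rw [e2, Polynomial.coeff_mul] at e
    rw [← e]
    have e3 : ∀ y ∈ Finset.HasAntidiagonal.antidiagonal p, y ≠ (0, p) → y ≠ (p, 0) →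
        (Θ s ^ p).coeff y.1 * (Θ v).coeff y.2 = 0 := by
      rintro ⟨a, b⟩ hab hn1 hn2
      rw [Finset.HasAntidiagonal.mem_antidiagonal] at hab
      simp only at hab ⊢
      rw [ncl_powcoeff, if_neg, zero_mul]
      rintro ⟨c, rfl⟩
      rcases Nat.eq_zero_or_pos c with hc | hc
      · subst hc
        apply hn1
        rw [mul_zero] at hab ⊢
        rw [zero_add] at hab
        rw [hab]
      · have : p * 1 ≤ p * c := Nat.mul_le_mul_left p hc
        apply hn2
        have hb : b = 0 := by omega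
        rw [hb, add_zero] at hab
        rw [hab, hb]
    have hne : ((0, p) : ℕ × ℕ) ≠ (p, 0) := by
      intro h
      have := congrArg Prod.fst h
      simp only at this
      omega
    rw [Finset.sum_eq_add (0, p) (p, 0) hne (fun y hy hy2 => e3 y hy hy2.1 hy2.2)
      (fun h => absurd (Finset.HasAntidiagonal.mem_antidiagonal.2 (zero_add p)) h)
      (fun h => absurd (Finset.HasAntidiagonal.mem_antidiagonal.2 (add_zero p)) h)]
    simp only
    rw [ncl_powcoeff, if_pos (dvd_zero p), ncl_powcoeff, if_pos dvd_rfl, hp1, Nat.zero_div, h0, h0]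
  -- the coefficient of `t`
  have hder : ∀ f g, dd (f * g) = dd f * g + f * dd g := by
    intro f g
    simp only [hdd]
    rw [map_mul, Polynomial.mul_coeff_one, h0, h0]
    ring
  have hB : dd s * x + s * dd x = ∑ k, (φ (r k) : T (Vx m n) K) * dd (t k) := by
    rw [← hder, h2]
    simp only [hdd]
    rw [map_sum, Polynomial.finset_sum_coeff]
    refine Finset.sum_congr rfl fun k _ => ?_
    rw [map_mul, hR, Polynomial.coeff_C_mul]
  refine ⟨N, r, fun k => s * dd (t k) - dd s * t k, s ^ 2, pow_ne_zero 2 hs, ?_, ?_⟩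
  · have e1 : ∑ k, (r k : T (Vx m n) K) * (s * dd (t k) - dd s * t k) ^ p =
        s ^ p * ∑ k, (r k : T (Vx m n) K) * dd (t k) ^ p -
          dd s ^ p * ∑ k, (r k : T (Vx m n) K) * t k ^ p := by
      rw [Finset.mul_sum, Finset.mul_sum, ← Finset.sum_sub_distrib]
      refine Finset.sum_congr rfl fun k _ => ?_
      rw [sub_pow_char, mul_pow, mul_pow]
      ring
    rw [e1, ← hA, ← h1]
    ring
  · have e1 : ∑ k, (φ (r k) : T (Vx m n) K) * (s * dd (t k) - dd s * t k) =
        s * ∑ k, (φ (r k) : T (Vx m n) K) * dd (t k) -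
          dd s * ∑ k, (φ (r k) : T (Vx m n) K) * t k := by
      rw [Finset.mul_sum, Finset.mul_sum, ← Finset.sum_sub_distrib]
      refine Finset.sum_congr rfl fun k _ => ?_
      ring
    rw [e1, ← hB, ← h2]
    change s ^ 2 * dd x = _
    ring

private theorem ncl_Rp (Θ : T (Vx m n) K →ₐ[K] Polynomial (T (Vx m n) K))
    (h : ∀ (i : Fin m) (j : Fin n), Θ (br K (Sum.inl i : Vx m n) (Sum.inr j)) =
      Polynomial.C (br K (Sum.inl i : Vx m n) (Sum.inr j))) (r : Rp m n K) :
    Θ (r : T (Vx m n) K) = Polynomial.C (r : T (Vx m n) K) := by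
  obtain ⟨r, q, rfl⟩ := r
  change Θ (toT m n K q) = Polynomial.C (toT m n K q)
  induction q using MvPolynomial.induction_on with
  | C a =>
    rw [← MvPolynomial.algebraMap_eq, AlgHom.commutes, AlgHom.commutes]
    rfl
  | add f g hf hg => rw [map_add, map_add, map_add, hf, hg]
  | mul_X f x hf =>
    rw [map_mul, map_mul, map_mul, hf]
    congr 1
    have e : toT m n K (X x) = br K (Sum.inl x.1 : Vx m n) (Sum.inr x.2) := by
      unfold toT
      rw [aeval_X]
    rw [e, h]

private theorem ncl_zero (Θ : T (Vx m n) K →ₐ[K] Polynomial (T (Vx m n) K))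
    (h : ∀ x, (Θ (X x)).coeff 0 = X x) (f : T (Vx m n) K) : (Θ f).coeff 0 = f := by
  induction f using MvPolynomial.induction_on with
  | C a =>
    rw [← MvPolynomial.algebraMap_eq, AlgHom.commutes]
    change (Polynomial.C (algebraMap K (T (Vx m n) K) a)).coeff 0 = _
    rw [Polynomial.coeff_C_zero]
  | add f g hf hg => rw [map_add, Polynomial.coeff_add, hf, hg]
  | mul_X f x hf => rw [map_mul, Polynomial.mul_coeff_zero, hf, h]

private theorem ncl_Et_X (x : Vx m n × Bool) : Et K (X x : T (Vx m n) K) =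
    if x.2 then Polynomial.C (X x) + Polynomial.X * Polynomial.C (X (x.1, false))
      else Polynomial.C (X x) := by
  unfold Et
  rw [aeval_X]

private theorem ncl_Ft_X (x : Vx m n × Bool) : Ft K (X x : T (Vx m n) K) =
    if x.2 then Polynomial.C (X x)
      else Polynomial.C (X x) + Polynomial.X * Polynomial.C (X (x.1, true)) := by
  unfold Ft
  rw [aeval_X]

theorem NR.E [Fact p.Prime] [CharP K p] {v x : T (Vx m n) K} (h : NR φ p v x) :
    NR φ p (FSig.E K p v) (FSig.E K 1 x) := by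
  refine ncl_gen (Et K) (ncl_zero _ ?_) (ncl_Rp _ ?_) h
  · intro y
    rw [ncl_Et_X]
    split_ifs
    · rw [Polynomial.coeff_add, Polynomial.coeff_C_zero, Polynomial.mul_coeff_zero,
        Polynomial.coeff_X_zero, zero_mul, add_zero]
    · rw [Polynomial.coeff_C_zero]
  · intro i j
    unfold br va vb
    rw [map_sub, map_mul, map_mul, ncl_Et_X, ncl_Et_X, ncl_Et_X, ncl_Et_X]
    simp only [Polynomial.C_sub, Polynomial.C_mul, if_true, Bool.false_eq_true, if_false]
    ring

theorem NR.F [Fact p.Prime] [CharP K p] {v x : T (Vx m n) K} (h : NR φ p v x) :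
    NR φ p (FSig.F K p v) (FSig.F K 1 x) := by
  refine ncl_gen (Ft K) (ncl_zero _ ?_) (ncl_Rp _ ?_) h
  · intro y
    rw [ncl_Ft_X]
    split_ifs
    · rw [Polynomial.coeff_C_zero]
    · rw [Polynomial.coeff_add, Polynomial.coeff_C_zero, Polynomial.mul_coeff_zero,
        Polynomial.coeff_X_zero, zero_mul, add_zero]
  · intro i j
    unfold br va vb
    rw [map_sub, map_mul, map_mul, ncl_Ft_X, ncl_Ft_X, ncl_Ft_X, ncl_Ft_X]
    simp only [Polynomial.C_sub, Polynomial.C_mul, if_true, Bool.false_eq_true, if_false]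
    ring

end FSig
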