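import Pool.Agent.Lib.FSig.TDefs

/-!
# Representation of the `p^{-1}`-linear maps of `Rp` (section 6 of `MP_05de8f_paper76.md`): definitions

`y : Fin 2 → Fin m` two rows, `z : Fin 2 → Fin n` two columns.
* `jP y : Rp[X (i, false), X (i, true) : i : Fin 2] → T`, `X (i, false) ↦ a_{y i}`, `X (i, true) ↦ b_{y i}`.
* `Dl y z = [y0 y1]^2 [z0 z1]`.
* `dE, dF, dH, dZ`: the derivations `E^(1)`, `F^(1)`, weight, row degree minus column degree of `T`.
* `NR φ p v x`: there are `s ≠ 0` and finitely many `r k ∈ Rp`, `t k ∈ T` with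
  `s ^ p * v = ∑ r k * t k ^ p` and `s * x = ∑ φ (r k) * t k`.
-/

namespace FSig

open MvPolynomial

variable (m n : ℕ) (K : Type*) [Field K]

/-- polynomials in the coordinates of the rows `y 0`, `y 1` with coefficients in `Rp` -/
noncomputable def jP (y : Fin 2 → Fin m) :
    MvPolynomial (Fin 2 × Bool) (Rp m n K) →ₐ[Rp m n K] T (Vx m n) K :=
  aeval fun x => X ((Sum.inl (y x.1) : Vx m n), x.2)

/-- `[y0 y1]^2 [z0 z1]` -/
noncomputable def Dl (y : Fin 2 → Fin m) (z : Fin 2 → Fin n) : T (Vx m n) K :=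
  br K (Sum.inl (y 0) : Vx m n) (Sum.inl (y 1)) ^ 2 * br K (Sum.inr (z 0) : Vx m n) (Sum.inr (z 1))

/-- the derivation `b ↦ a`, `a ↦ 0` -/
noncomputable def dE : Derivation K (T (Vx m n) K) (T (Vx m n) K) :=
  mkDerivation K fun x => if x.2 then X (x.1, false) else 0

/-- the derivation `a ↦ b`, `b ↦ 0` -/
noncomputable def dF : Derivation K (T (Vx m n) K) (T (Vx m n) K) :=
  mkDerivation K fun x => if x.2 then 0 else X (x.1, true)

/-- the weight derivation `a ↦ a`, `b ↦ -b` -/
noncomputable def dH : Derivation K (T (Vx m n) K) (T (Vx m n) K) :=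
  mkDerivation K fun x => if x.2 then - X x else X x

/-- row degree minus column degree -/
noncomputable def dZ : Derivation K (T (Vx m n) K) (T (Vx m n) K) :=
  mkDerivation K fun x => if x.1.isLeft then X x else - X x

variable {m n K}

/-- `v` is killed by the four derivations -/
def Killed (v : T (Vx m n) K) : Prop :=
  dE m n K v = 0 ∧ dF m n K v = 0 ∧ dH m n K v = 0 ∧ dZ m n K v = 0

/-- the relation `x = φ_N v` -/
def NR (φ : Rp m n K →+ Rp m n K) (p : ℕ) (v x : T (Vx m n) K) : Prop :=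
  ∃ (N : ℕ) (r : Fin N → Rp m n K) (t : Fin N → T (Vx m n) K) (s : T (Vx m n) K), s ≠ 0 ∧
    s ^ p * v = ∑ k, (r k : T (Vx m n) K) * t k ^ p ∧
    s * x = ∑ k, (φ (r k) : T (Vx m n) K) * t k

/-- the part of `u` of weight and of `row degree - column degree` divisible by `p` -/
noncomputable def pr0 (p : ℕ) (u : T (Vx m n) K) : T (Vx m n) K := by
  classical
  exact ∑ μ ∈ u.support.filter (fun μ : Vx m n × Bool →₀ ℕ =>
    (p : ℤ) ∣ (μ.sum fun x k => (k : ℤ) * (if x.2 then -1 else 1)) ∧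
    (p : ℤ) ∣ (μ.sum fun x k => (k : ℤ) * (if x.1.isLeft then 1 else -1))), monomial μ (coeff μ u)

end FSig
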