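import Pool.Agent.Lib.FSig.NDefs

/-!
# Module NDen: every element of `T`, times a power of `Dl y z`, is in the range of `jP y` (C1)

`B = [y0 y1]` is in the range of `jP y` (a polynomial in the `X (i, ·)`), and `B * [z0 z1] = x_{y0 z0} x_{y1 z1} - x_{y0 z1} x_{y1 z0}` is in `Rp`
(`[v w] = toT (X (v, w))` for a row `v` and a column `w`; identity by `ring` after unfolding `br`), so `Dl y z = B * (B * [z0 z1])` is in the range.
* columns `w`: `B * a_w = [w y1] * a_{y0} - [w y0] * a_{y1}` with `[w y_i] = - x_{y_i w} ∈ Rp`, the same for `b_w`. So `B * a_w`, `B * b_w` are in the range, and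
  `Dl y z * a_w = (B * [z0 z1]) * (B * a_w)` too.
* rows `v`: `[z0 z1] * a_v = [v z1] * a_{z0} - [v z0] * a_{z1}` (Cramer), `[v z_i] ∈ Rp`; times `B`: `B * [z0 z1] * a_v = [v z1] * (B a_{z0}) - [v z0] * (B a_{z1})` is
  in the range, hence also `Dl y z * a_v`; the same for `b_v`.
So `Dl y z * X x` is in the range for all variables `x`. The set of `u` with `∃ M, Dl ^ M * u ∈ range` contains the constants and is closed under
sums (take the maximum of the two exponents; `Dl` is in the range) and under multiplication by variables: `MvPolynomial.induction_on`.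
* `exists_common_den`: finitely many elements: take the maximum (`Finset.sup`), multiply by powers of `Dl`, which is in the range.
-/

namespace FSig

open MvPolynomial

private lemma br_mem_Rp (m n : ℕ) (K : Type*) [Field K] (i : Fin m) (j : Fin n) :
    br K (Sum.inl i : Vx m n) (Sum.inr j) ∈ Rp m n K := by
  refine ⟨X (i, j), ?_⟩
  show toT m n K (X (i, j)) = _
  rw [toT, aeval_X]

private lemma rng_Rp (m n : ℕ) (K : Type*) [Field K] (y : Fin 2 → Fin m) {r : T (Vx m n) K}
    (hr : r ∈ Rp m n K) : r ∈ (jP m n K y).range :=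
  (jP m n K y).range.algebraMap_mem ⟨r, hr⟩

private lemma rng_row (m n : ℕ) (K : Type*) [Field K] (y : Fin 2 → Fin m) (i : Fin 2) (s : Bool) :
    (X ((Sum.inl (y i) : Vx m n), s) : T (Vx m n) K) ∈ (jP m n K y).range := by
  refine ⟨X (i, s), ?_⟩
  show jP m n K y (X (i, s)) = _
  rw [jP, aeval_X]

private lemma rng_B (m n : ℕ) (K : Type*) [Field K] (y : Fin 2 → Fin m) :
    br K (Sum.inl (y 0) : Vx m n) (Sum.inl (y 1)) ∈ (jP m n K y).range := by
  unfold br va vb
  exact sub_mem (mul_mem (rng_row m n K y 0 false) (rng_row m n K y 1 true))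
    (mul_mem (rng_row m n K y 0 true) (rng_row m n K y 1 false))

private lemma rng_BZ (m n : ℕ) (K : Type*) [Field K] (y : Fin 2 → Fin m) (z : Fin 2 → Fin n) :
    br K (Sum.inl (y 0) : Vx m n) (Sum.inl (y 1)) * br K (Sum.inr (z 0) : Vx m n) (Sum.inr (z 1))
      ∈ (jP m n K y).range := by
  have h : br K (Sum.inl (y 0) : Vx m n) (Sum.inl (y 1)) *
      br K (Sum.inr (z 0) : Vx m n) (Sum.inr (z 1)) =
      br K (Sum.inl (y 0) : Vx m n) (Sum.inr (z 0)) * br K (Sum.inl (y 1) : Vx m n) (Sum.inr (z 1))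
      - br K (Sum.inl (y 0) : Vx m n) (Sum.inr (z 1)) *
        br K (Sum.inl (y 1) : Vx m n) (Sum.inr (z 0)) := by
    unfold br
    ring
  rw [h]
  exact rng_Rp m n K y (sub_mem (mul_mem (br_mem_Rp m n K _ _) (br_mem_Rp m n K _ _))
    (mul_mem (br_mem_Rp m n K _ _) (br_mem_Rp m n K _ _)))

private lemma rng_col (m n : ℕ) (K : Type*) [Field K] (y : Fin 2 → Fin m) (w : Fin n) (s : Bool) :
    br K (Sum.inl (y 0) : Vx m n) (Sum.inl (y 1)) * X ((Sum.inr w : Vx m n), s)
      ∈ (jP m n K y).range := by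
  have h : br K (Sum.inl (y 0) : Vx m n) (Sum.inl (y 1)) * X ((Sum.inr w : Vx m n), s) =
      br K (Sum.inl (y 0) : Vx m n) (Sum.inr w) * X ((Sum.inl (y 1) : Vx m n), s)
      - br K (Sum.inl (y 1) : Vx m n) (Sum.inr w) * X ((Sum.inl (y 0) : Vx m n), s) := by
    cases s <;>
    · unfold br va vb
      ring
  rw [h]
  exact sub_mem (mul_mem (rng_Rp m n K y (br_mem_Rp m n K _ _)) (rng_row m n K y 1 s))
    (mul_mem (rng_Rp m n K y (br_mem_Rp m n K _ _)) (rng_row m n K y 0 s))

private lemma rng_Dl (m n : ℕ) (K : Type*) [Field K] (y : Fin 2 → Fin m) (z : Fin 2 → Fin n) :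
    Dl m n K y z ∈ (jP m n K y).range := by
  have h : Dl m n K y z = br K (Sum.inl (y 0) : Vx m n) (Sum.inl (y 1)) *
      (br K (Sum.inl (y 0) : Vx m n) (Sum.inl (y 1)) *
        br K (Sum.inr (z 0) : Vx m n) (Sum.inr (z 1))) := by
    unfold Dl
    ring
  rw [h]
  exact mul_mem (rng_B m n K y) (rng_BZ m n K y z)

private lemma rng_var (m n : ℕ) (K : Type*) [Field K] (y : Fin 2 → Fin m) (z : Fin 2 → Fin n)
    (x : Vx m n × Bool) : Dl m n K y z * X x ∈ (jP m n K y).range := by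
  obtain ⟨v | w, s⟩ := x
  · have h : Dl m n K y z * X ((Sum.inl v : Vx m n), s) =
        br K (Sum.inl (y 0) : Vx m n) (Sum.inl (y 1)) *
        (br K (Sum.inl v : Vx m n) (Sum.inr (z 1)) *
          (br K (Sum.inl (y 0) : Vx m n) (Sum.inl (y 1)) * X ((Sum.inr (z 0) : Vx m n), s))
        - br K (Sum.inl v : Vx m n) (Sum.inr (z 0)) *
          (br K (Sum.inl (y 0) : Vx m n) (Sum.inl (y 1)) * X ((Sum.inr (z 1) : Vx m n), s))) := by
      cases s <;>
      · unfold Dl br va vb
        ring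
    rw [h]
    exact mul_mem (rng_B m n K y)
      (sub_mem (mul_mem (rng_Rp m n K y (br_mem_Rp m n K _ _)) (rng_col m n K y _ s))
        (mul_mem (rng_Rp m n K y (br_mem_Rp m n K _ _)) (rng_col m n K y _ s)))
  · have h : Dl m n K y z * X ((Sum.inr w : Vx m n), s) =
        (br K (Sum.inl (y 0) : Vx m n) (Sum.inl (y 1)) *
          br K (Sum.inr (z 0) : Vx m n) (Sum.inr (z 1))) *
        (br K (Sum.inl (y 0) : Vx m n) (Sum.inl (y 1)) * X ((Sum.inr w : Vx m n), s)) := by
      unfold Dl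
      ring
    rw [h]
    exact mul_mem (rng_BZ m n K y z) (rng_col m n K y w s)

private lemma rng_den (m n : ℕ) (K : Type*) [Field K] (y : Fin 2 → Fin m) (z : Fin 2 → Fin n)
    (u : T (Vx m n) K) : ∃ M : ℕ, Dl m n K y z ^ M * u ∈ (jP m n K y).range := by
  induction u using MvPolynomial.induction_on with
  | C a =>
    refine ⟨0, ?_⟩
    rw [pow_zero, one_mul]
    exact rng_Rp m n K y ((Rp m n K).algebraMap_mem a)
  | add f g hf hg =>
    obtain ⟨M, hM⟩ := hf
    obtain ⟨N, hN⟩ := hg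
    refine ⟨M + N, ?_⟩
    have h : Dl m n K y z ^ (M + N) * (f + g) =
        Dl m n K y z ^ N * (Dl m n K y z ^ M * f) + Dl m n K y z ^ M * (Dl m n K y z ^ N * g) := by
      ring
    rw [h]
    exact add_mem (mul_mem (pow_mem (rng_Dl m n K y z) N) hM)
      (mul_mem (pow_mem (rng_Dl m n K y z) M) hN)
  | mul_X f x hf =>
    obtain ⟨M, hM⟩ := hf
    refine ⟨M + 1, ?_⟩
    have h : Dl m n K y z ^ (M + 1) * (f * X x) =
        (Dl m n K y z ^ M * f) * (Dl m n K y z * X x) := by
      ring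
    rw [h]
    exact mul_mem hM (rng_var m n K y z x)

theorem Dl_mem_range (m n : ℕ) (K : Type*) [Field K] (y : Fin 2 → Fin m) (z : Fin 2 → Fin n) :
    ∃ c, jP m n K y c = Dl m n K y z := by
  obtain ⟨c, hc⟩ := rng_Dl m n K y z
  exact ⟨c, hc⟩

private lemma br_ne_zero' {V : Type*} (K : Type*) [Field K] {v w : V} (h : v ≠ w) :
    br K v w ≠ 0 := by
  classical
  intro h0
  have h1 := congrArg (eval (fun x : V × Bool =>
    if x = (v, false) ∨ x = (w, true) then (1 : K) else 0)) h0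
  simp [br, va, vb, h, h.symm] at h1

theorem Dl_ne_zero (m n : ℕ) (K : Type*) [Field K] (y : Fin 2 → Fin m) (z : Fin 2 → Fin n)
    (hy : y 0 ≠ y 1) (hz : z 0 ≠ z 1) : Dl m n K y z ≠ 0 := by
  unfold Dl
  refine mul_ne_zero (pow_ne_zero 2 (br_ne_zero' K ?_)) (br_ne_zero' K ?_)
  · intro h
    exact hy (Sum.inl_injective h)
  · intro h
    exact hz (Sum.inr_injective h)

theorem exists_den (m n : ℕ) (K : Type*) [Field K] (y : Fin 2 → Fin m) (z : Fin 2 → Fin n)
    (u : T (Vx m n) K) : ∃ (M : ℕ) (c : MvPolynomial (Fin 2 × Bool) (Rp m n K)),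
      jP m n K y c = Dl m n K y z ^ M * u := by
  obtain ⟨M, c, hc⟩ := rng_den m n K y z u
  exact ⟨M, c, hc⟩

theorem exists_common_den (m n : ℕ) (K : Type*) [Field K] (y : Fin 2 → Fin m) (z : Fin 2 → Fin n)
    {N : ℕ} (t : Fin N → T (Vx m n) K) :
    ∃ (M : ℕ) (c : Fin N → MvPolynomial (Fin 2 × Bool) (Rp m n K)),
      ∀ k, jP m n K y (c k) = Dl m n K y z ^ M * t k := by
  choose M c hc using fun k => exists_den m n K y z (t k)
  obtain ⟨d, hd⟩ := Dl_mem_range m n K y z
  refine ⟨∑ k, M k, fun k => d ^ ((∑ j, M j) - M k) * c k, fun k => ?_⟩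
  have hk : M k ≤ ∑ j, M j := Finset.single_le_sum (fun _ _ => Nat.zero_le _) (Finset.mem_univ k)
  rw [map_mul, map_pow, hd, hc, ← mul_assoc, ← pow_add, Nat.sub_add_cancel hk]

end FSig
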