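import Pool.Agent.Lib.FSig.NDefs

/-!
# Module NInj: the coordinates of two rows are algebraically independent over `Rp` (C3)

Proof. Let `M = MvPolynomial (Fin 2 × Bool) T` (variables `Y (i, ·)`), `L = FractionRing M`, `T → L` injective. In `L` put
`D = [y0 y1]` (`≠ 0`, since `y 0 ≠ y 1`), and let `G` be the `2 × 2` matrix with
`(a_{y i}, b_{y i}) * G = (Y (i, false), Y (i, true))`, i.e. `G = Z⁻¹ * Y` where `Z = (a_{y i}, b_{y i})_i`: explicitly
`G = D⁻¹ * ![![b1 * Y0f - b0 * Y1f, b1 * Y0t - b0 * Y1t], ![a0 * Y1f - a1 * Y0f, a0 * Y1t - a1 * Y0t]]` with `a_i = a_{y i}`, `b_i = b_{y i}`.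
`δ = det G = (Y0f * Y1t - Y0t * Y1f) / D ≠ 0`. Let `Γ : T →ₐ[K] L` (`aeval`) map the row vector `(a_v, b_v)` to `(a_v, b_v) * G` and the column
vector `(a_w, b_w)` to `(a_w, b_w) * G / δ`. Then `Γ [v w] = [v w]` for a row `v` and a column `w`
(`[vG, wG/δ] = [v w] * det G / δ`), so `Γ` is the inclusion on `Rp` (`Rp` is generated by these brackets:
`AlgHom` equality on `toT`, `MvPolynomial.algHom_ext`), and `Γ (a_{y i}) = Y (i, false)`, `Γ (b_{y i}) = Y (i, true)`. Hence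
`Γ ∘ jP y` is the composition of `MvPolynomial.map (Rp → T)` and `M → L`, both injective (`MvPolynomial.map_injective`,
`IsFractionRing.injective`), so `jP y` is injective.
-/

namespace FSig

open MvPolynomial

/-- `2 x 2` determinant identity -/
private theorem ninj_aux {L : Type*} [Field L] (D a0 b0 a1 b1 s0 t0 s1 t1 a b c d : L)
    (hD : D = a0 * b1 - b0 * a1) (hD0 : D ≠ 0) (hY : s0 * t1 - t0 * s1 ≠ 0) :
    (a * (D⁻¹ * (b1 * s0 - b0 * s1)) + b * (D⁻¹ * (a0 * s1 - a1 * s0))) *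
      ((c * (D⁻¹ * (b1 * t0 - b0 * t1)) + d * (D⁻¹ * (a0 * t1 - a1 * t0))) /
        ((s0 * t1 - t0 * s1) / D)) -
    (a * (D⁻¹ * (b1 * t0 - b0 * t1)) + b * (D⁻¹ * (a0 * t1 - a1 * t0))) *
      ((c * (D⁻¹ * (b1 * s0 - b0 * s1)) + d * (D⁻¹ * (a0 * s1 - a1 * s0))) /
        ((s0 * t1 - t0 * s1) / D)) = a * d - b * c := by
  have h : (a * (D⁻¹ * (b1 * s0 - b0 * s1)) + b * (D⁻¹ * (a0 * s1 - a1 * s0))) *
      (c * (D⁻¹ * (b1 * t0 - b0 * t1)) + d * (D⁻¹ * (a0 * t1 - a1 * t0))) -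
      (a * (D⁻¹ * (b1 * t0 - b0 * t1)) + b * (D⁻¹ * (a0 * t1 - a1 * t0))) *
      (c * (D⁻¹ * (b1 * s0 - b0 * s1)) + d * (D⁻¹ * (a0 * s1 - a1 * s0))) =
      (a * d - b * c) * ((s0 * t1 - t0 * s1) / D) := by
    have h1 : (a * (b1 * s0 - b0 * s1) + b * (a0 * s1 - a1 * s0)) *
      (c * (b1 * t0 - b0 * t1) + d * (a0 * t1 - a1 * t0)) -
      (a * (b1 * t0 - b0 * t1) + b * (a0 * t1 - a1 * t0)) *
      (c * (b1 * s0 - b0 * s1) + d * (a0 * s1 - a1 * s0)) =
      (a * d - b * c) * (s0 * t1 - t0 * s1) * D := by rw [hD]; ring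
    have h2 : D⁻¹ * D = 1 := inv_mul_cancel₀ hD0
    calc _ = D⁻¹ * D⁻¹ * ((a * (b1 * s0 - b0 * s1) + b * (a0 * s1 - a1 * s0)) *
          (c * (b1 * t0 - b0 * t1) + d * (a0 * t1 - a1 * t0)) -
          (a * (b1 * t0 - b0 * t1) + b * (a0 * t1 - a1 * t0)) *
          (c * (b1 * s0 - b0 * s1) + d * (a0 * s1 - a1 * s0))) := by ring
      _ = D⁻¹ * (D⁻¹ * D) * ((a * d - b * c) * (s0 * t1 - t0 * s1)) := by rw [h1]; ring
      _ = _ := by rw [h2]; ring
  have h3 : (s0 * t1 - t0 * s1) / D ≠ 0 := div_ne_zero hY hD0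
  rw [← mul_div_assoc, ← mul_div_assoc, ← sub_div, h, mul_div_assoc, div_self h3, mul_one]

theorem jP_injective (m n : ℕ) (K : Type*) [Field K] (y : Fin 2 → Fin m) (hy : y 0 ≠ y 1) :
    Function.Injective (jP m n K y) := by
  classical
  let M := MvPolynomial (Fin 2 × Bool) (T (Vx m n) K)
  let L := FractionRing M
  let ι : M →+* L := algebraMap M L
  have hι : Function.Injective ι := IsFractionRing.injective M L
  let τ : T (Vx m n) K →+* L := ι.comp C
  have hτ : Function.Injective τ := hι.comp (C_injective _ _)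
  let a0 : L := τ (X ((Sum.inl (y 0) : Vx m n), false))
  let b0 : L := τ (X ((Sum.inl (y 0) : Vx m n), true))
  let a1 : L := τ (X ((Sum.inl (y 1) : Vx m n), false))
  let b1 : L := τ (X ((Sum.inl (y 1) : Vx m n), true))
  let s0 : L := ι (X ((0 : Fin 2), false))
  let t0 : L := ι (X ((0 : Fin 2), true))
  let s1 : L := ι (X ((1 : Fin 2), false))
  let t1 : L := ι (X ((1 : Fin 2), true))
  have hv : (Sum.inl (y 0) : Vx m n) ≠ Sum.inl (y 1) := fun h => hy (Sum.inl_injective h)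
  let D : L := a0 * b1 - b0 * a1
  have hD0 : D ≠ 0 := by
    have h1 : D = τ (X ((Sum.inl (y 0) : Vx m n), false) * X ((Sum.inl (y 1) : Vx m n), true) -
        X ((Sum.inl (y 0) : Vx m n), true) * X ((Sum.inl (y 1) : Vx m n), false)) := by
      simp only [map_sub, map_mul]
      rfl
    rw [h1]
    intro h2
    have h3 := hτ (h2.trans (map_zero τ).symm)
    have h4 := congrArg (eval fun x : Vx m n × Bool =>
      if x = ((Sum.inl (y 0) : Vx m n), false) ∨ x = ((Sum.inl (y 1) : Vx m n), true)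
        then (1 : K) else 0) h3
    simp only [map_sub, map_mul, eval_X, map_zero, Prod.mk.injEq] at h4
    simp [hy, hy.symm] at h4
  have hY0 : s0 * t1 - t0 * s1 ≠ 0 := by
    have h1 : s0 * t1 - t0 * s1 = ι (X ((0 : Fin 2), false) * X ((1 : Fin 2), true) -
        X ((0 : Fin 2), true) * X ((1 : Fin 2), false)) := by
      simp only [map_sub, map_mul]
      rfl
    rw [h1]
    intro h2
    have h3 := hι (h2.trans (map_zero ι).symm)
    have h4 := congrArg (eval fun x : Fin 2 × Bool =>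
      if x = ((0 : Fin 2), false) ∨ x = ((1 : Fin 2), true)
        then (1 : T (Vx m n) K) else 0) h3
    simp only [map_sub, map_mul, eval_X, map_zero, Prod.mk.injEq] at h4
    simp at h4
  let δ : L := (s0 * t1 - t0 * s1) / D
  let Γ : T (Vx m n) K →+* L := eval₂Hom (τ.comp C) (fun x =>
    match x with
    | (Sum.inl i, false) => τ (X (Sum.inl i, false)) * (D⁻¹ * (b1 * s0 - b0 * s1)) +
        τ (X (Sum.inl i, true)) * (D⁻¹ * (a0 * s1 - a1 * s0))
    | (Sum.inl i, true) => τ (X (Sum.inl i, false)) * (D⁻¹ * (b1 * t0 - b0 * t1)) +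
        τ (X (Sum.inl i, true)) * (D⁻¹ * (a0 * t1 - a1 * t0))
    | (Sum.inr j, false) => (τ (X (Sum.inr j, false)) * (D⁻¹ * (b1 * s0 - b0 * s1)) +
        τ (X (Sum.inr j, true)) * (D⁻¹ * (a0 * s1 - a1 * s0))) / δ
    | (Sum.inr j, true) => (τ (X (Sum.inr j, false)) * (D⁻¹ * (b1 * t0 - b0 * t1)) +
        τ (X (Sum.inr j, true)) * (D⁻¹ * (a0 * t1 - a1 * t0))) / δ)
  have hΓC : ∀ c : K, Γ (C c) = τ (C c) := fun c => eval₂Hom_C _ _ _
  have hΓif : ∀ i : Fin m, Γ (X ((Sum.inl i : Vx m n), false)) =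
      τ (X (Sum.inl i, false)) * (D⁻¹ * (b1 * s0 - b0 * s1)) +
        τ (X (Sum.inl i, true)) * (D⁻¹ * (a0 * s1 - a1 * s0)) := fun i => eval₂Hom_X' _ _ _
  have hΓit : ∀ i : Fin m, Γ (X ((Sum.inl i : Vx m n), true)) =
      τ (X (Sum.inl i, false)) * (D⁻¹ * (b1 * t0 - b0 * t1)) +
        τ (X (Sum.inl i, true)) * (D⁻¹ * (a0 * t1 - a1 * t0)) := fun i => eval₂Hom_X' _ _ _
  have hΓjf : ∀ j : Fin n, Γ (X ((Sum.inr j : Vx m n), false)) =
      (τ (X (Sum.inr j, false)) * (D⁻¹ * (b1 * s0 - b0 * s1)) +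
        τ (X (Sum.inr j, true)) * (D⁻¹ * (a0 * s1 - a1 * s0))) / δ := fun j => eval₂Hom_X' _ _ _
  have hΓjt : ∀ j : Fin n, Γ (X ((Sum.inr j : Vx m n), true)) =
      (τ (X (Sum.inr j, false)) * (D⁻¹ * (b1 * t0 - b0 * t1)) +
        τ (X (Sum.inr j, true)) * (D⁻¹ * (a0 * t1 - a1 * t0))) / δ := fun j => eval₂Hom_X' _ _ _
  have h1 : Γ.comp (toT m n K).toRingHom = τ.comp (toT m n K).toRingHom := by
    apply MvPolynomial.ringHom_ext
    · intro c
      have h2 : (toT m n K).toRingHom (C c) = C c := (toT m n K).commutes c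
      simp only [RingHom.comp_apply, h2]
      exact hΓC c
    · rintro ⟨i, j⟩
      have h2 : (toT m n K).toRingHom (X (i, j)) =
          br K (Sum.inl i : Vx m n) (Sum.inr j) := by
        show toT m n K (X (i, j)) = _
        rw [toT, aeval_X]
      rw [RingHom.comp_apply, RingHom.comp_apply, h2]
      unfold br va vb
      rw [map_sub, map_mul, map_mul, hΓif, hΓit, hΓjf, hΓjt, map_sub, map_mul, map_mul]
      exact ninj_aux D a0 b0 a1 b1 s0 t0 s1 t1 _ _ _ _ rfl hD0 hY0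
  have h2 : ∀ r : Rp m n K, Γ (r : T (Vx m n) K) = τ (r : T (Vx m n) K) := by
    rintro ⟨r, f, rfl⟩
    exact congrArg (fun g : _ →+* L => g f) h1
  have h3 : Γ.comp (jP m n K y).toRingHom =
      ι.comp (MvPolynomial.map (algebraMap (Rp m n K) (T (Vx m n) K))) := by
    apply MvPolynomial.ringHom_ext
    · intro r
      have h4 : (jP m n K y).toRingHom (C r) = (r : T (Vx m n) K) := (jP m n K y).commutes r
      have h5 : MvPolynomial.map (σ := Fin 2 × Bool) (algebraMap (Rp m n K) (T (Vx m n) K)) (C r) =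
          C (r : T (Vx m n) K) := MvPolynomial.map_C _ _
      rw [RingHom.comp_apply, RingHom.comp_apply, h4, h5]
      exact h2 r
    · rintro ⟨i, c⟩
      have h4 : (jP m n K y).toRingHom (X (i, c)) = X ((Sum.inl (y i) : Vx m n), c) := by
        show jP m n K y (X (i, c)) = _
        rw [jP, aeval_X]
      have h5 : MvPolynomial.map (algebraMap (Rp m n K) (T (Vx m n) K)) (X (i, c)) =
          X (i, c) := MvPolynomial.map_X _ _
      rw [RingHom.comp_apply, RingHom.comp_apply, h4, h5]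
      have hDi : D⁻¹ * D = 1 := inv_mul_cancel₀ hD0
      have e0s : a0 * (D⁻¹ * (b1 * s0 - b0 * s1)) + b0 * (D⁻¹ * (a0 * s1 - a1 * s0)) = s0 := by
        calc _ = D⁻¹ * D * s0 := by ring
          _ = s0 := by rw [hDi, one_mul]
      have e0t : a0 * (D⁻¹ * (b1 * t0 - b0 * t1)) + b0 * (D⁻¹ * (a0 * t1 - a1 * t0)) = t0 := by
        calc _ = D⁻¹ * D * t0 := by ring
          _ = t0 := by rw [hDi, one_mul]
      have e1s : a1 * (D⁻¹ * (b1 * s0 - b0 * s1)) + b1 * (D⁻¹ * (a0 * s1 - a1 * s0)) = s1 := by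
        calc _ = D⁻¹ * D * s1 := by ring
          _ = s1 := by rw [hDi, one_mul]
      have e1t : a1 * (D⁻¹ * (b1 * t0 - b0 * t1)) + b1 * (D⁻¹ * (a0 * t1 - a1 * t0)) = t1 := by
        calc _ = D⁻¹ * D * t1 := by ring
          _ = t1 := by rw [hDi, one_mul]
      fin_cases i <;> cases c
      · exact (hΓif (y 0)).trans e0s
      · exact (hΓit (y 0)).trans e0t
      · exact (hΓif (y 1)).trans e1s
      · exact (hΓit (y 1)).trans e1t
  intro P Q hPQ
  have h5 : ι (MvPolynomial.map (algebraMap (Rp m n K) (T (Vx m n) K)) P) =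
      ι (MvPolynomial.map (algebraMap (Rp m n K) (T (Vx m n) K)) Q) := by
    have e1 := congrArg (fun g : _ →+* L => g P) h3
    have e2 := congrArg (fun g : _ →+* L => g Q) h3
    simp only [RingHom.comp_apply] at e1 e2
    rw [← e1, ← e2]
    exact congrArg Γ hPQ
  exact MvPolynomial.map_injective _ Subtype.val_injective (hι h5)

end FSig
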