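import Pool.Agent.Lib.FSig.NDefs
import Pool.Agent.Lib.FSig.NInj
import Pool.Agent.Lib.FSig.NDen

/-!
# Module NFun: the relation `NR` is functional (C4)

* `sum_phi_eq_zero`: if `∑ r k * t k ^ p = 0` then `∑ φ (r k) * t k = 0`. Let `y, z` be two rows and two columns, `jP (τ k) = Dl ^ M * t k` (`exists_common_den`). Then
  `jP (∑ C (r k) * τ k ^ p) = Dl ^ (p M) * ∑ r k * t k ^ p = 0`, so `∑ C (r k) * τ k ^ p = 0` (`jP_injective`). The coefficient of `p β` in `τ k ^ p` is
  `(coeff β (τ k)) ^ p` (`MvPolynomial.expand`/`frobenius`: `τ ^ p = ∑ monomial (p β) (c_β ^ p)` by `sum_pow_char`), so `∑ k, r k * (coeff β (τ k)) ^ p = 0` in `Rp`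
  for every `β`. Apply `φ` (additive, `PLin p`): `∑ k, coeff β (τ k) * φ (r k) = 0`. So `∑ k, C (φ (r k)) * τ k = 0`, apply `jP`:
  `Dl ^ M * ∑ φ (r k) * t k = 0` and `Dl ≠ 0` (`Dl_ne_zero`).
* `NR.unique`: `s ^ p v = ∑ r k t k ^ p`, `s x = ∑ φ (r k) t k`, `s' ^ p v = ∑ r' l t' l ^ p`, `s' x' = ∑ φ (r' l) t' l`. Then `∑ r k (s' t k) ^ p - ∑ r' l (s t' l) ^ p = 0` (a sum over
  `Fin (N + N')`, `Fin.addCases` or `Fin.append`, with coefficients `r k`, `- r' l`), so by the first part
  `s' * (s x) - s * (s' x') = 0` and `x = x'` (`T` is a domain).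
-/

namespace FSig

open MvPolynomial

private theorem nf_coeff {σ R : Type*} [CommRing R] (p : ℕ) [Fact p.Prime] [CharP R p] (c : MvPolynomial σ R)
    (β : σ →₀ ℕ) : coeff (p • β) (c ^ p) = (coeff β c) ^ p := by
  have : ExpChar R p := ExpChar.prime Fact.out
  rw [← map_frobenius_expand (p := p), coeff_map, coeff_expand_smul _ (Fact.out : p.Prime).ne_zero]
  rfl

theorem sum_phi_eq_zero (m n : ℕ) (hm : 2 ≤ m) (hn : 2 ≤ n) (K : Type*) [Field K] (p : ℕ)
    [Fact p.Prime] [CharP K p] (φ : Rp m n K →+ Rp m n K) (hφ : PLin p φ) {N : ℕ}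
    (r : Fin N → Rp m n K) (t : Fin N → T (Vx m n) K)
    (h : ∑ k, (r k : T (Vx m n) K) * t k ^ p = 0) :
    ∑ k, (φ (r k) : T (Vx m n) K) * t k = 0 := by
  classical
  let y : Fin 2 → Fin m := fun i => ⟨i, by omega⟩
  let z : Fin 2 → Fin n := fun i => ⟨i, by omega⟩
  have hy : y 0 ≠ y 1 := fun e => by
    have := congrArg Fin.val e
    simp [y] at this
  have hz : z 0 ≠ z 1 := fun e => by
    have := congrArg Fin.val e
    simp [z] at this
  obtain ⟨M, c, hc⟩ := exists_common_den m n K y z t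
  have hD := Dl_ne_zero m n K y z hy hz
  have hinj := jP_injective m n K y hy
  have : CharP (Rp m n K) p :=
    charP_of_injective_algebraMap (algebraMap K (Rp m n K)).injective p
  have hC : ∀ a : Rp m n K, jP m n K y (C a) = (a : T (Vx m n) K) := by
    intro a
    rw [jP, aeval_C]
    rfl
  have h1 : ∑ k, C (r k) * c k ^ p = 0 := by
    apply hinj
    rw [map_sum, map_zero]
    have e : ∀ k, jP m n K y (C (r k) * c k ^ p)
        = (Dl m n K y z ^ M) ^ p * ((r k : T (Vx m n) K) * t k ^ p) := by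
      intro k
      rw [map_mul, map_pow, hc k, hC, mul_pow]
      ring
    rw [Finset.sum_congr rfl fun k _ => e k, ← Finset.mul_sum, h, mul_zero]
  have h2 : ∀ β, ∑ k, r k * coeff β (c k) ^ p = 0 := by
    intro β
    have := congrArg (coeff (p • β)) h1
    rw [coeff_sum, coeff_zero] at this
    rw [← this]
    exact Finset.sum_congr rfl fun k _ => by rw [coeff_C_mul, nf_coeff]
  have h3 : ∀ β, ∑ k, φ (r k) * coeff β (c k) = 0 := by
    intro β
    have := congrArg φ (h2 β)
    rw [map_sum, map_zero] at this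
    rw [← this]
    exact Finset.sum_congr rfl fun k _ => by rw [mul_comm (r k), hφ, mul_comm]
  have h4 : ∑ k, C (φ (r k)) * c k = 0 := by
    refine MvPolynomial.ext _ _ fun β => ?_
    rw [coeff_sum, coeff_zero, ← h3 β]
    exact Finset.sum_congr rfl fun k _ => by rw [coeff_C_mul]
  have h5 := congrArg (jP m n K y) h4
  rw [map_sum, map_zero] at h5
  have e : ∀ k, jP m n K y (C (φ (r k)) * c k)
      = Dl m n K y z ^ M * ((φ (r k) : T (Vx m n) K) * t k) := by
    intro k
    rw [map_mul, hc k, hC]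
    ring
  rw [Finset.sum_congr rfl fun k _ => e k, ← Finset.mul_sum] at h5
  exact (mul_eq_zero.1 h5).resolve_left (pow_ne_zero _ hD)

theorem NR.unique {m n : ℕ} (hm : 2 ≤ m) (hn : 2 ≤ n) {K : Type*} [Field K] {p : ℕ}
    [Fact p.Prime] [CharP K p] {φ : Rp m n K →+ Rp m n K} (hφ : PLin p φ)
    {v x x' : T (Vx m n) K} (h : NR φ p v x) (h' : NR φ p v x') : x = x' := by
  obtain ⟨N, r, t, s, hs, e1, e2⟩ := h
  obtain ⟨N', r', t', s', hs', e1', e2'⟩ := h'
  have key := sum_phi_eq_zero m n hm hn K p φ hφ (N := N + N') (Fin.append r fun l => - r' l)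
    (Fin.append (fun k => s' * t k) fun l => s * t' l) (by
      rw [Fin.sum_univ_add]
      simp only [Fin.append_left, Fin.append_right]
      have a1 : ∑ k, (r k : T (Vx m n) K) * (s' * t k) ^ p = s' ^ p * (s ^ p * v) := by
        rw [e1, Finset.mul_sum]
        exact Finset.sum_congr rfl fun k _ => by rw [mul_pow]; ring
      have a2 : ∑ l, ((- r' l : Rp m n K) : T (Vx m n) K) * (s * t' l) ^ p
          = - (s ^ p * (s' ^ p * v)) := by
        rw [e1', Finset.mul_sum, ← Finset.sum_neg_distrib]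
        exact Finset.sum_congr rfl fun l _ => by
          rw [mul_pow, NegMemClass.coe_neg]
          ring
      rw [a1, a2]
      ring)
  rw [Fin.sum_univ_add] at key
  simp only [Fin.append_left, Fin.append_right] at key
  have a1 : ∑ k, (φ (r k) : T (Vx m n) K) * (s' * t k) = s' * (s * x) := by
    rw [e2, Finset.mul_sum]
    exact Finset.sum_congr rfl fun k _ => by ring
  have a2 : ∑ l, ((φ (- r' l) : Rp m n K) : T (Vx m n) K) * (s * t' l) = - (s * (s' * x')) := by
    rw [e2', Finset.mul_sum, ← Finset.sum_neg_distrib]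
    exact Finset.sum_congr rfl fun l _ => by
      rw [map_neg, NegMemClass.coe_neg]
      ring
  rw [a1, a2] at key
  have key2 : (s * s') * (x - x') = 0 := by
    rw [← key]
    ring
  exact sub_eq_zero.1 ((mul_eq_zero.1 key2).resolve_left (mul_ne_zero hs hs'))

end FSig
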