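import Pool.Agent.Lib.FSig.NDefs

/-!
# Module NPrime: brackets are prime and pairwise coprime

* `br_prime`: `[v w] = a_v b_w - b_v a_w`, `v ≠ w`, is prime in `T` (any `V`, `K` a field): `T` is a unique factorisation domain, so it is enough that it is irreducible.
  It is `a_v * X (w, true) + (- b_v a_w)`: `MvPolynomial.irreducible_mul_X_add` (a polynomial of degree one in the variable
  `X (w, true)` with coprime coefficients `a_v`, `- b_v a_w` in which this variable does not occur). See the exact hypotheses of this Mathlib lemma; `a_v` is prime (`MvPolynomial.X_prime`) and does not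
  divide `b_v a_w` (a product of two other variables), so `a_v` and `b_v a_w` are relatively prime.
* `br_isRelPrime`: if `{v, w} ≠ {v', w'}` (`v ≠ w`, `v' ≠ w'`) then `[v w]` and `[v' w']` are relatively prime: `[v w]` is prime, so otherwise it divides `[v' w']`; by symmetry of the hypothesis we may
  assume... One of `v, w` is not in `{v', w'}`, say `v` (the case of `w` is the same, `[v w] = - [w v]`): substitute `a_v = b_v = 0` (an algebra map `T → T`): `[v w] ↦ 0`, `[v' w'] ↦ [v' w'] ≠ 0`,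
  contradiction to divisibility (`map_dvd`). (If both `v` and `w` are in `{v', w'}` then, as `v ≠ w`, the sets are equal.)
* `Dl_isRelPrime`: `Dl y z` and `Dl y' z'` are relatively prime if `{y 0, y 1} ≠ {y' 0, y' 1}` and `{z 0, z 1} ≠ {z' 0, z' 1}`: products and powers of relatively prime brackets (row brackets and column brackets
  are different too). `IsRelPrime.mul_left`, `IsRelPrime.mul_right`, `IsRelPrime.pow`.
-/

namespace FSig

open MvPolynomial

theorem br_prime {V : Type*} (K : Type*) [Field K] {v w : V} (h : v ≠ w) :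
    Prime (br K v w) := by
  have h1 : br K v w = X (v, false) * X (w, true) + -(X (v, true) * X (w, false)) := by
    unfold br va vb
    ring
  have h2 : Irreducible (br K v w) := by
    classical
    rw [h1]
    apply irreducible_mul_X_add
    · exact X_ne_zero _
    · rw [vars_X, Finset.mem_singleton, Prod.mk.injEq]
      rintro ⟨_, h3⟩
      exact absurd h3 (by decide)
    · intro h3
      rw [vars_neg] at h3
      have h4 := vars_mul _ _ h3
      rw [vars_X, vars_X, Finset.mem_union, Finset.mem_singleton, Finset.mem_singleton,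
        Prod.mk.injEq, Prod.mk.injEq] at h4
      rcases h4 with h4 | h4
      · exact h h4.1.symm
      · exact absurd h4.2 (by decide)
    · have hp : Prime (X (v, false) : MvPolynomial (V × Bool) K) := X_prime
      rw [hp.irreducible.isRelPrime_iff_not_dvd, dvd_neg, hp.dvd_mul, X_dvd_X, X_dvd_X,
        Prod.mk.injEq, Prod.mk.injEq]
      rintro (h3 | h3)
      · exact absurd h3.2 (by decide)
      · exact h h3.1
  exact h2.prime

private theorem np_not_dvd {V : Type*} (K : Type*) [Field K] {v w v' w' u : V}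
    (h' : v' ≠ w') (hu : u = v ∨ u = w) (h1 : u ≠ v') (h2 : u ≠ w') :
    ¬ br K v w ∣ br K v' w' := by
  classical
  intro hd
  let φ : T V K →ₐ[K] T V K := aeval fun x => if x.1 = u then 0 else X x
  have hφX : ∀ x : V × Bool, φ (X x) = if x.1 = u then 0 else X x := fun x => aeval_X _ _
  have hφ1 : φ (br K v w) = 0 := by
    unfold br va vb
    rw [map_sub, map_mul, map_mul, hφX, hφX, hφX, hφX]
    rcases hu with rfl | rfl
    · simp
    · simp
  have hφ2 : φ (br K v' w') = br K v' w' := by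
    unfold br va vb
    rw [map_sub, map_mul, map_mul, hφX, hφX, hφX, hφX]
    simp only [if_neg h1.symm, if_neg h2.symm]
  have h3 := map_dvd φ hd
  rw [hφ1, hφ2, zero_dvd_iff] at h3
  exact (br_prime K h').ne_zero h3

theorem br_isRelPrime {V : Type*} (K : Type*) [Field K] {v w v' w' : V} (h : v ≠ w)
    (h' : v' ≠ w') (hne : ¬ (v = v' ∧ w = w') ∧ ¬ (v = w' ∧ w = v')) :
    IsRelPrime (br K v w) (br K v' w') := by
  rw [(br_prime K h).irreducible.isRelPrime_iff_not_dvd]
  by_cases h1 : v = v'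
  · subst h1
    refine np_not_dvd K h' (Or.inr rfl) h.symm ?_
    intro h2
    exact hne.1 ⟨rfl, h2⟩
  · by_cases h2 : v = w'
    · subst h2
      refine np_not_dvd K h' (Or.inr rfl) ?_ h.symm
      intro h3
      exact hne.2 ⟨rfl, h3⟩
    · exact np_not_dvd K h' (Or.inl rfl) h1 h2

theorem Dl_isRelPrime (m n : ℕ) (K : Type*) [Field K] (y y' : Fin 2 → Fin m) (z z' : Fin 2 → Fin n)
    (hy : y 0 ≠ y 1) (hz : z 0 ≠ z 1) (hy' : y' 0 ≠ y' 1) (hz' : z' 0 ≠ z' 1)
    (h1 : ¬ (y 0 = y' 0 ∧ y 1 = y' 1) ∧ ¬ (y 0 = y' 1 ∧ y 1 = y' 0))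
    (h2 : ¬ (z 0 = z' 0 ∧ z 1 = z' 1) ∧ ¬ (z 0 = z' 1 ∧ z 1 = z' 0)) :
    IsRelPrime (Dl m n K y z) (Dl m n K y' z') := by
  have hl : ∀ {a b : Fin m}, a ≠ b → (Sum.inl a : Vx m n) ≠ Sum.inl b :=
    fun h e => h (Sum.inl.inj e)
  have hr : ∀ {a b : Fin n}, a ≠ b → (Sum.inr a : Vx m n) ≠ Sum.inr b :=
    fun h e => h (Sum.inr.inj e)
  have e1 : IsRelPrime (br K (Sum.inl (y 0) : Vx m n) (Sum.inl (y 1)))
      (br K (Sum.inl (y' 0) : Vx m n) (Sum.inl (y' 1))) := by
    refine br_isRelPrime K (hl hy) (hl hy') ⟨?_, ?_⟩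
    · rintro ⟨e, e'⟩
      exact h1.1 ⟨Sum.inl.inj e, Sum.inl.inj e'⟩
    · rintro ⟨e, e'⟩
      exact h1.2 ⟨Sum.inl.inj e, Sum.inl.inj e'⟩
  have e2 : IsRelPrime (br K (Sum.inl (y 0) : Vx m n) (Sum.inl (y 1)))
      (br K (Sum.inr (z' 0) : Vx m n) (Sum.inr (z' 1))) := by
    refine br_isRelPrime K (hl hy) (hr hz') ⟨?_, ?_⟩
    · rintro ⟨e, _⟩
      exact absurd e (by simp)
    · rintro ⟨e, _⟩
      exact absurd e (by simp)
  have e3 : IsRelPrime (br K (Sum.inr (z 0) : Vx m n) (Sum.inr (z 1)))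
      (br K (Sum.inl (y' 0) : Vx m n) (Sum.inl (y' 1))) := by
    refine br_isRelPrime K (hr hz) (hl hy') ⟨?_, ?_⟩
    · rintro ⟨e, _⟩
      exact absurd e (by simp)
    · rintro ⟨e, _⟩
      exact absurd e (by simp)
  have e4 : IsRelPrime (br K (Sum.inr (z 0) : Vx m n) (Sum.inr (z 1)))
      (br K (Sum.inr (z' 0) : Vx m n) (Sum.inr (z' 1))) := by
    refine br_isRelPrime K (hr hz) (hr hz') ⟨?_, ?_⟩
    · rintro ⟨e, e'⟩
      exact h2.1 ⟨Sum.inr.inj e, Sum.inr.inj e'⟩
    · rintro ⟨e, e'⟩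
      exact h2.2 ⟨Sum.inr.inj e, Sum.inr.inj e'⟩
  unfold Dl
  exact IsRelPrime.mul_left (IsRelPrime.mul_right e1.pow e2.pow_left)
    (IsRelPrime.mul_right e3.pow_right e4)

end FSig
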