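import Pool.Agent.Lib.FSig.NFrob
import Pool.Agent.Lib.FSig.NFun
import Pool.Agent.Lib.FSig.NCl
import Pool.Agent.Lib.FSig.NPrime

/-!
# Module NEx: every killed element has a value (C5)

Proof. `m, n ≥ 3`: `y = (0, 1)`, `z = (0, 1)`, `y' = (0, 2)`, `z' = (0, 2)`, `D = Dl y z`, `D' = Dl y' z'`, both not zero and relatively prime (`Dl_isRelPrime`).
By `exists_frob` `D ^ (p M) * v = ∑ r k t k ^ p`, so `NR φ p (D ^ (p M) * v) x₁` with `x₁ = ∑ φ (r k) t k` (`NR.sum`); similarly `NR φ p (D' ^ (p M') * v) x₂`. By `NR.smul`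
`NR φ p ((D' ^ M') ^ p * (D ^ M) ^ p * v) (D' ^ M' * x₁)` and the same with `D ^ M * x₂`, so `D' ^ M' * x₁ = D ^ M * x₂` (`NR.unique`). `D ^ M` divides `D' ^ M' * x₁` and is relatively prime to
`D' ^ M'` (`IsRelPrime.pow`), so `D ^ M ∣ x₁` (`IsRelPrime.dvd_of_dvd_mul_left`; `T` is a UFD, a `DecompositionMonoid`), `x₁ = D ^ M * x`, and `NR.cancel` gives `NR φ p v x`.
-/

namespace FSig

open MvPolynomial

theorem exists_NR (m n : ℕ) (hm : 3 ≤ m) (hn : 3 ≤ n) (K : Type*) [Field K] (p : ℕ)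
    [Fact p.Prime] [CharP K p] (hp : 3 ≤ p) (φ : Rp m n K →+ Rp m n K) (hφ : PLin p φ)
    (v : T (Vx m n) K) (hv : Killed v) : ∃ x, NR φ p v x := by
  obtain ⟨y, hy0, hy1⟩ : ∃ y : Fin 2 → Fin m, y 0 = ⟨0, by omega⟩ ∧ y 1 = ⟨1, by omega⟩ :=
    ⟨![⟨0, by omega⟩, ⟨1, by omega⟩], rfl, rfl⟩
  obtain ⟨z, hz0, hz1⟩ : ∃ z : Fin 2 → Fin n, z 0 = ⟨0, by omega⟩ ∧ z 1 = ⟨1, by omega⟩ :=
    ⟨![⟨0, by omega⟩, ⟨1, by omega⟩], rfl, rfl⟩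
  obtain ⟨y', hy'0, hy'1⟩ : ∃ y : Fin 2 → Fin m, y 0 = ⟨0, by omega⟩ ∧ y 1 = ⟨2, by omega⟩ :=
    ⟨![⟨0, by omega⟩, ⟨2, by omega⟩], rfl, rfl⟩
  obtain ⟨z', hz'0, hz'1⟩ : ∃ z : Fin 2 → Fin n, z 0 = ⟨0, by omega⟩ ∧ z 1 = ⟨2, by omega⟩ :=
    ⟨![⟨0, by omega⟩, ⟨2, by omega⟩], rfl, rfl⟩
  have hy : y 0 ≠ y 1 := by rw [hy0, hy1]; simp
  have hz : z 0 ≠ z 1 := by rw [hz0, hz1]; simp
  have hy' : y' 0 ≠ y' 1 := by rw [hy'0, hy'1]; simp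
  have hz' : z' 0 ≠ z' 1 := by rw [hz'0, hz'1]; simp
  have hrel : IsRelPrime (Dl m n K y z) (Dl m n K y' z') := by
    apply Dl_isRelPrime m n K y y' z z' hy hz hy' hz'
    · rw [hy0, hy1, hy'0, hy'1]; simp
    · rw [hz0, hz1, hz'0, hz'1]; simp
  have hD : Dl m n K y z ≠ 0 := Dl_ne_zero m n K y z hy hz
  obtain ⟨M, N, r, t, h1⟩ := exists_frob m n K p hp y z hy v hv
  obtain ⟨M', N', r', t', h2⟩ := exists_frob m n K p hp y' z' hy' v hv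
  have e1 := NR.smul (Dl m n K y' z' ^ M') (NR.sum (φ := φ) (p := p) r t)
  have e2 := NR.smul (Dl m n K y z ^ M) (NR.sum (φ := φ) (p := p) r' t')
  have e1' := NR.sum (φ := φ) (p := p) r t
  rw [← h1] at e1 e1'
  rw [← h2] at e2
  have hcomm : (Dl m n K y z ^ M) ^ p * (Dl m n K y' z' ^ (p * M') * v) =
      (Dl m n K y' z' ^ M') ^ p * (Dl m n K y z ^ (p * M) * v) := by
    rw [← pow_mul, ← pow_mul, mul_comm M p, mul_comm M' p]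
    ring
  rw [hcomm] at e2
  have hu := NR.unique (by omega) (by omega) hφ e1 e2
  have hdvd : Dl m n K y z ^ M ∣ Dl m n K y' z' ^ M' *
      ∑ k, (φ (r k) : T (Vx m n) K) * t k := by
    rw [hu]
    exact dvd_mul_right _ _
  obtain ⟨x, hx⟩ := (hrel.pow (m := M) (n := M')).dvd_of_dvd_mul_left hdvd
  refine ⟨x, NR.cancel (D := Dl m n K y z ^ M) (pow_ne_zero _ hD) ?_⟩
  rw [hx, mul_comm p M, pow_mul] at e1'
  exact e1'

end FSig
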