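import Pool.Agent.Lib.FSig.NDefs
import Pool.Agent.Lib.FSig.NInj
import Pool.Agent.Lib.FSig.NDen
import Pool.Agent.Lib.FSig.NDer

/-!
# Module NFrob: killed elements are, up to a denominator, in `Rp * T^p` (C2)

`p` an odd prime, `K` of characteristic `p`.

* `exists_pth`: if all partial derivatives of `c : MvPolynomial σ A` (`A` a domain of characteristic `p`) are zero, all exponents of `c` are
  divisible by `p`: the coefficient of `μ - single x 1` in `pderiv x c` is `μ x * coeff μ c` (`MvPolynomial.coeff_pderiv` or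
  `pderiv_monomial`), so `(μ x : A) = 0` for `μ` in the support, `p ∣ μ x` (`CharP.cast_eq_zero_iff`).
* `exists_frob`. Let `v` be killed and `jP c = Dl ^ M * v` (`exists_den`); multiply by `Dl ^ ((p-1) M)` to have `jP c = Dl ^ (p M) * v =: v'` (change `c`; `Dl` is in
  the range). `v'` is killed (`d (Dl ^ (p M)) = 0` in characteristic `p`: `Derivation.leibniz_pow`, `p M = 0` in `K`). Apply `der_jP` (`killed_Rp`) to the four derivations: with
  `f i = pderiv (i, false) c`, `t i = pderiv (i, true) c`, `x i = X (i, false)`, `w i = X (i, true)` and the injectivity of `jP`: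
  `dE`: `∑ i, x i * t i = 0`; `dF`: `∑ i, w i * f i = 0`; `dH`: `∑ i, (x i * f i - w i * t i) = 0`; `dZ`: `∑ i, (x i * f i + w i * t i) = 0`. As `2 ≠ 0`: `∑ x i * f i = 0`, `∑ w i * t i = 0`.
  So `(f 0, f 1)` solves the system with rows `(w 0, w 1)`, `(x 0, x 1)` and `(t 0, t 1)` too; the determinant `x 0 * w 1 - x 1 * w 0 ≠ 0`, the ring is a domain
  (`Rp` is a subring of `T`), so `f = t = 0` (Cramer by `linear_combination`). By `exists_pth` `c = ∑ μ ∈ support, C (coeff μ c) * X ^ μ` with `μ = p ν`, hence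
  `v' = jP c = ∑ (coeff μ c) * (jP (X ^ ν)) ^ p`. Enumerate the support by `Fin N` (`Finset.equivFin`).
-/

namespace FSig

open MvPolynomial

theorem exists_pth {σ A : Type*} [CommRing A] [IsDomain A] (p : ℕ) [CharP A p]
    (c : MvPolynomial σ A) (h : ∀ x, pderiv x c = 0) (μ : σ →₀ ℕ) (hμ : μ ∈ c.support) (x : σ) :
    p ∣ μ x := by
  classical
  by_cases hx : μ x = 0
  · rw [hx]
    exact dvd_zero p
  · have h1 : coeff (μ - Finsupp.single x 1) (pderiv x c) = coeff μ c * (μ x : A) := by
      have h2 : pderiv x c = ∑ ν ∈ c.support,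
          monomial (ν - Finsupp.single x 1) (coeff ν c * (ν x : A)) := by
        conv_lhs => rw [c.as_sum]
        rw [map_sum]
        refine Finset.sum_congr rfl fun ν _ => ?_
        rw [pderiv_monomial]
      rw [h2, coeff_sum, Finset.sum_eq_single μ]
      · rw [coeff_monomial, if_pos rfl]
      · intro ν _ hν
        rw [coeff_monomial]
        split_ifs with h3
        · by_cases h4 : ν x = 0
          · rw [h4, Nat.cast_zero, mul_zero]
          · exfalso
            apply hν
            ext a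
            have h5 := DFunLike.congr_fun h3 a
            rw [Finsupp.tsub_apply, Finsupp.tsub_apply] at h5
            by_cases ha : x = a
            · subst ha
              rw [Finsupp.single_eq_same] at h5
              omega
            · rw [Finsupp.single_eq_of_ne (Ne.symm ha)] at h5
              omega
        · rfl
      · intro h3
        exact absurd hμ h3
    rw [h x, coeff_zero] at h1
    rcases mul_eq_zero.1 h1.symm with h2 | h2
    · exact absurd h2 (mem_support_iff.1 hμ)
    · exact (CharP.cast_eq_zero_iff A p (μ x)).1 h2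

private theorem nfr_kill (m n : ℕ) (K : Type*) [Field K] (p : ℕ) [CharP K p]
    (d : Derivation K (T (Vx m n) K) (T (Vx m n) K)) (a v : T (Vx m n) K) (M : ℕ)
    (hv : d v = 0) : d (a ^ (p * M) * v) = 0 := by
  have h0 : ((p * M : ℕ) : T (Vx m n) K) = 0 := by
    have : CharP (T (Vx m n) K) p := inferInstance
    rw [Nat.cast_mul, CharP.cast_eq_zero, zero_mul]
  rw [Derivation.leibniz, hv, smul_zero, zero_add, Derivation.leibniz_pow, ← Nat.cast_smul_eq_nsmul (T (Vx m n) K),
    h0, zero_smul, smul_zero]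

private theorem nfr_det {A : Type*} [CommRing A] [IsDomain A] :
    (X (0, false) * X (1, true) - X (1, false) * X (0, true) :
      MvPolynomial (Fin 2 × Bool) A) ≠ 0 := by
  intro h
  have h1 := congrArg (MvPolynomial.eval (fun x : Fin 2 × Bool =>
    if x = (0, false) ∨ x = (1, true) then (1 : A) else 0)) h
  simp at h1

private theorem nfr_solve {A : Type*} [CommRing A] [IsDomain A] {x0 x1 w0 w1 f0 f1 : A}
    (hD : x0 * w1 - x1 * w0 ≠ 0) (h1 : w0 * f0 + w1 * f1 = 0) (h2 : x0 * f0 + x1 * f1 = 0) :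
    f0 = 0 ∧ f1 = 0 := by
  constructor
  · have : (x0 * w1 - x1 * w0) * f0 = 0 := by linear_combination w1 * h2 - x1 * h1
    exact (mul_eq_zero.1 this).resolve_left hD
  · have : (x0 * w1 - x1 * w0) * f1 = 0 := by linear_combination x0 * h1 - w0 * h2
    exact (mul_eq_zero.1 this).resolve_left hD

private theorem nfr_pd (m n : ℕ) (K : Type*) [Field K] (p : ℕ) [Fact p.Prime] [CharP K p]
    (hp : 3 ≤ p) (y : Fin 2 → Fin m) (hy : y 0 ≠ y 1)
    (c : MvPolynomial (Fin 2 × Bool) (Rp m n K)) (hc : Killed (jP m n K y c)) (x : Fin 2 × Bool) :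
    pderiv x c = 0 := by
  classical
  have : CharP (Rp m n K) p := charP_of_injective_algebraMap (algebraMap K (Rp m n K)).injective p
  have : CharP (MvPolynomial (Fin 2 × Bool) (Rp m n K)) p := inferInstance
  have h2 : (2 : MvPolynomial (Fin 2 × Bool) (Rp m n K)) ≠ 0 := by
    intro h
    have h3 : ((2 : ℕ) : MvPolynomial (Fin 2 × Bool) (Rp m n K)) = 0 := by exact_mod_cast h
    have h4 := Nat.le_of_dvd (by norm_num) ((CharP.cast_eq_zero_iff _ p 2).1 h3)
    omega
  have hj : ∀ x : Fin 2 × Bool, jP m n K y (X x) = X ((Sum.inl (y x.1) : Vx m n), x.2) := by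
    intro x
    unfold jP
    rw [aeval_X]
  have hinj : ∀ q, jP m n K y q = 0 → q = 0 := by
    intro q hq
    exact jP_injective m n K y hy (by rw [hq, map_zero])
  obtain ⟨hE, hF, hH, hZ⟩ := hc
  have hE' := der_jP m n K y (dE m n K) (fun r => (killed_Rp m n K r).1)
    (fun x => if x.2 then X (x.1, false) else 0) (by
      rintro ⟨i, b⟩
      unfold dE
      rw [mkDerivation_X]
      cases b
      · simp
      · simp [hj]) c
  have hF' := der_jP m n K y (dF m n K) (fun r => (killed_Rp m n K r).2.1)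
    (fun x => if x.2 then 0 else X (x.1, true)) (by
      rintro ⟨i, b⟩
      unfold dF
      rw [mkDerivation_X]
      cases b
      · simp [hj]
      · simp) c
  have hH' := der_jP m n K y (dH m n K) (fun r => (killed_Rp m n K r).2.2.1)
    (fun x => if x.2 then - X x else X x) (by
      rintro ⟨i, b⟩
      unfold dH
      rw [mkDerivation_X]
      cases b
      · simp [hj]
      · simp [hj]) c
  have hZ' := der_jP m n K y (dZ m n K) (fun r => (killed_Rp m n K r).2.2.2)
    (fun x => X x) (by
      rintro ⟨i, b⟩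
      unfold dZ
      rw [mkDerivation_X]
      simp [hj]) c
  rw [hE] at hE'
  rw [hF] at hF'
  rw [hH] at hH'
  rw [hZ] at hZ'
  have hE2 := hinj _ hE'.symm
  have hF2 := hinj _ hF'.symm
  have hH2 := hinj _ hH'.symm
  have hZ2 := hinj _ hZ'.symm
  rw [Fintype.sum_prod_type, Fin.sum_univ_two, Fintype.sum_bool, Fintype.sum_bool] at hE2 hF2 hH2 hZ2
  simp only [if_true, Bool.false_eq_true, if_false, zero_mul, add_zero, zero_add] at hE2 hF2 hH2
  have e1 : X (0, false) * pderiv (0, false) c + X (1, false) * pderiv (1, false) c = 0 := by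
    have : (2 : MvPolynomial (Fin 2 × Bool) (Rp m n K)) *
        (X (0, false) * pderiv (0, false) c + X (1, false) * pderiv (1, false) c) = 0 := by
      linear_combination hH2 + hZ2
    exact (mul_eq_zero.1 this).resolve_left h2
  have e2 : X (0, true) * pderiv (0, true) c + X (1, true) * pderiv (1, true) c = 0 := by
    have : (2 : MvPolynomial (Fin 2 × Bool) (Rp m n K)) *
        (X (0, true) * pderiv (0, true) c + X (1, true) * pderiv (1, true) c) = 0 := by
      linear_combination hZ2 - hH2
    exact (mul_eq_zero.1 this).resolve_left h2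
  have s1 := nfr_solve nfr_det hF2 e1
  have s2 := nfr_solve nfr_det e2 hE2
  obtain ⟨i, b⟩ := x
  fin_cases i <;> cases b
  · exact s1.1
  · exact s2.1
  · exact s1.2
  · exact s2.2

theorem exists_frob (m n : ℕ) (K : Type*) [Field K] (p : ℕ) [Fact p.Prime] [CharP K p]
    (hp : 3 ≤ p) (y : Fin 2 → Fin m) (z : Fin 2 → Fin n) (hy : y 0 ≠ y 1)
    (v : T (Vx m n) K) (hv : Killed v) :
    ∃ (M N : ℕ) (r : Fin N → Rp m n K) (t : Fin N → T (Vx m n) K),
      Dl m n K y z ^ (p * M) * v = ∑ k, (r k : T (Vx m n) K) * t k ^ p := by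
  classical
  obtain ⟨M, c0, hc0⟩ := exists_den m n K y z v
  obtain ⟨δ, hδ⟩ := Dl_mem_range m n K y z
  obtain ⟨c, hc⟩ : ∃ c, jP m n K y c = Dl m n K y z ^ (p * M) * v := by
    refine ⟨δ ^ ((p - 1) * M) * c0, ?_⟩
    rw [map_mul, map_pow, hδ, hc0, ← mul_assoc, ← pow_add]
    congr 2
    obtain ⟨q, rfl⟩ : ∃ q, p = q + 1 := ⟨p - 1, by omega⟩
    rw [Nat.add_sub_cancel]
    ring
  have hk : Killed (jP m n K y c) := by
    rw [hc]
    exact ⟨nfr_kill m n K p _ _ _ _ hv.1, nfr_kill m n K p _ _ _ _ hv.2.1,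
      nfr_kill m n K p _ _ _ _ hv.2.2.1, nfr_kill m n K p _ _ _ _ hv.2.2.2⟩
  have : CharP (Rp m n K) p := charP_of_injective_algebraMap (algebraMap K (Rp m n K)).injective p
  have hpd : ∀ μ ∈ c.support, ∀ x, p ∣ μ x := fun μ hμ x =>
    exists_pth p c (nfr_pd m n K p hp y hy c hk) μ hμ x
  have hterm : ∀ μ ∈ c.support, jP m n K y (monomial μ (coeff μ c)) =
      ((coeff μ c : Rp m n K) : T (Vx m n) K) *
        jP m n K y (monomial (μ.mapRange (· / p) (Nat.zero_div p)) 1) ^ p := by
    intro μ hμ
    have h1 : monomial μ (coeff μ c) = C (coeff μ c) *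
        (monomial (μ.mapRange (· / p) (Nat.zero_div p)) (1 : Rp m n K)) ^ p := by
      have h3 : p • μ.mapRange (· / p) (Nat.zero_div p) = μ := by
        ext x
        rw [Finsupp.smul_apply, Finsupp.mapRange_apply, smul_eq_mul,
          Nat.mul_div_cancel' (hpd μ hμ x)]
      rw [monomial_pow, one_pow, C_mul_monomial, mul_one, h3]
    have h2 : jP m n K y (C (coeff μ c)) = ((coeff μ c : Rp m n K) : T (Vx m n) K) := by
      unfold jP
      rw [aeval_C]
      rfl
    conv_lhs => rw [h1]
    rw [map_mul, map_pow, h2]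
  let e := c.support.equivFin
  refine ⟨M, c.support.card, fun k => coeff (e.symm k : Fin 2 × Bool →₀ ℕ) c,
    fun k => jP m n K y (monomial (((e.symm k : Fin 2 × Bool →₀ ℕ)).mapRange (· / p) (Nat.zero_div p)) 1), ?_⟩
  rw [← hc]
  conv_lhs => rw [c.as_sum]
  rw [map_sum, ← Finset.sum_coe_sort, ← Equiv.sum_comp e.symm]
  refine Finset.sum_congr rfl fun k _ => ?_
  exact hterm _ (e.symm k).2

end FSig
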