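import Pool.Agent.Lib.FSig.NDefs
import Pool.Agent.Lib.FSig.NDer
import Pool.Agent.Lib.FSig.OpsLam

/-!
# Module NPr: the projection `pr0` and `Lam`

`pr0 p u` = sum of the terms of `u` with weight and (row degree - column degree) divisible by `p`.

* `pr0_mem`: for `u ∈ S d w` all monomials of `u` have weight `w` and multidegree `d` (`mem_S_iff`; the first sum in the definition of `pr0` is `wtm μ`, the second is
  `∑ i, (μ (inl i, false) + μ (inl i, true)) - ∑ j, (..)`, i.e. row degree minus column degree of `d`; `Finsupp.sum_fintype`).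
* `pr0_add`: `coeff μ (pr0 p u) = if cond μ then coeff μ u else 0` (`MvPolynomial.coeff_sum`, `coeff_monomial`).
* `pr0_pow_mul`: by additivity in `t` (`add_pow_char`) and `u` take monomials: `(monomial α c) ^ p * monomial μ c'` has exponent `p α + μ` and `cond (p α + μ) ↔ cond μ`.
  (Or: `t ^ p` is a sum of monomials with exponents `p α` and the coefficients of the product.)
* The other statements are additive in `u`, so (`exists_sum_component`) we may assume `u ∈ S d w`; `Lam p u ∈ S d w` (`Lam_mem_S`).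
  - `killed_Lam_pr0`: if the condition fails `pr0 p u = 0`. Otherwise `p ∣ w` and `p ∣ |d|_rows - |d|_cols`: `dE` by `E_one`, `E1_Lam`; `dF` by `F_one`, `F1_Lam`; on `S d w` the derivation `dH` is
    multiplication by `w`, `dZ` is multiplication by `|d|_rows - |d|_cols` (on a monomial `mkDerivation` gives `∑ x, μ x • ..`: `MvPolynomial.mkDerivation_monomial` or induction; Euler), both zero in `K`.
  - `Lam_pr0_E1`: `E 1 u ∈ S d (w+2)`, `pr0` of it is itself or `0`; `Lam_E1`. `Lam_pr0_F1`: `F 1 u ∈ S d (w-2)`; if `p ∣ w - 2` then `Lam_F1`, otherwise `pr0 = 0`.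
  - `Lam_pr0_Ep`: `E p u ∈ S d (w + 2 p)`; the conditions for `(d, w)` and `(d, w + 2p)` are equivalent; `E_Lam_comm` with `k = 1`. The same for `F`.
-/

namespace FSig

open MvPolynomial

variable {m n : ℕ} {K : Type*} [Field K] (p : ℕ)

/-- the two weights of a monomial -/
private noncomputable def npr_wt (W : Vx m n × Bool → ℤ) (μ : Vx m n × Bool →₀ ℕ) : ℤ :=
  μ.sum fun x k => (k : ℤ) * W x

private theorem npr_wt_add (W : Vx m n × Bool → ℤ) (μ ν : Vx m n × Bool →₀ ℕ) :
    npr_wt W (μ + ν) = npr_wt W μ + npr_wt W ν := by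
  classical
  unfold npr_wt
  rw [Finsupp.sum_add_index']
  · intro x
    simp
  · intro x a b
    push_cast
    ring

private theorem npr_wt_smul (W : Vx m n × Bool → ℤ) (q : ℕ) (μ : Vx m n × Bool →₀ ℕ) :
    npr_wt W (q • μ) = q * npr_wt W μ := by
  unfold npr_wt
  rw [Finsupp.sum_smul_index' (fun x => by simp), Finsupp.mul_sum]
  refine Finsupp.sum_congr fun x _ => ?_
  rw [smul_eq_mul]
  push_cast
  ring

private theorem npr_wt_single (W : Vx m n × Bool → ℤ) (x : Vx m n × Bool) (k : ℕ) :
    npr_wt W (Finsupp.single x k) = k * W x := by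
  unfold npr_wt
  rw [Finsupp.sum_single_index (by simp)]

private theorem npr_coeff (u : T (Vx m n) K) (μ : Vx m n × Bool →₀ ℕ)
    [Decidable ((p : ℤ) ∣ npr_wt (fun x => if x.2 then -1 else 1) μ ∧
      (p : ℤ) ∣ npr_wt (fun x => if x.1.isLeft then 1 else -1) μ)] :
    coeff μ (pr0 p u) = if (p : ℤ) ∣ npr_wt (fun x => if x.2 then -1 else 1) μ ∧
      (p : ℤ) ∣ npr_wt (fun x => if x.1.isLeft then 1 else -1) μ then coeff μ u else 0 := by
  classical
  unfold pr0
  rw [coeff_sum]
  simp only [coeff_monomial]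
  rw [Finset.sum_ite_eq']
  by_cases h : (p : ℤ) ∣ npr_wt (fun x => if x.2 then -1 else 1) μ ∧
      (p : ℤ) ∣ npr_wt (fun x => if x.1.isLeft then 1 else -1) μ
  · rw [if_pos h]
    by_cases h0 : coeff μ u = 0
    · rw [h0, ite_self]
    · rw [if_pos]
      rw [Finset.mem_filter, mem_support_iff]
      exact ⟨h0, h⟩
  · rw [if_neg h, if_neg]
    rw [Finset.mem_filter]
    exact fun h1 => h h1.2

private theorem npr_wtm (μ : Vx m n × Bool →₀ ℕ) :
    npr_wt (fun x => if x.2 then -1 else 1) μ = wtm μ := by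
  unfold npr_wt wtm
  refine Finsupp.sum_congr fun x _ => ?_
  by_cases h : x.2 = true
  · simp [h]
  · simp [h]

private theorem npr_z {d : Vx m n →₀ ℕ} {μ : Vx m n × Bool →₀ ℕ}
    (h : ∀ v, μ (v, false) + μ (v, true) = d v) :
    npr_wt (fun x => if x.1.isLeft then 1 else -1) μ =
      (∑ i : Fin m, (d (Sum.inl i) : ℤ)) - ∑ j : Fin n, (d (Sum.inr j) : ℤ) := by
  unfold npr_wt
  rw [Finsupp.sum_fintype _ _ (by simp), Fintype.sum_prod_type, Fintype.sum_sum_type,
    sub_eq_add_neg, ← Finset.sum_neg_distrib]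
  congr 1
  · refine Finset.sum_congr rfl fun i _ => ?_
    rw [Fintype.sum_bool, ← h]
    push_cast
    simp
    ring
  · refine Finset.sum_congr rfl fun i _ => ?_
    rw [Fintype.sum_bool, ← h]
    push_cast
    simp

theorem pr0_mem {d : Vx m n →₀ ℕ} {w : ℤ} {u : T (Vx m n) K} (hu : u ∈ S K d w) :
    pr0 p u = if (p : ℤ) ∣ w ∧ (p : ℤ) ∣ ((∑ i : Fin m, (d (Sum.inl i) : ℤ)) -
      ∑ j : Fin n, (d (Sum.inr j) : ℤ)) then u else 0 := by
  classical
  ext μ
  rw [npr_coeff]
  by_cases h0 : coeff μ u = 0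
  · rw [h0, ite_self]
    split_ifs
    · exact h0.symm
    · rw [coeff_zero]
  · obtain ⟨h1, h2⟩ := (mem_S_iff K).1 hu μ h0
    rw [npr_wtm, npr_z h1, h2]
    split_ifs
    · rfl
    · rw [coeff_zero]

theorem pr0_add (u v : T (Vx m n) K) : pr0 p (u + v) = pr0 p u + pr0 p v := by
  classical
  ext μ
  rw [coeff_add, npr_coeff, npr_coeff, npr_coeff, coeff_add]
  split_ifs
  · rfl
  · rw [add_zero]

private theorem npr_zero : pr0 p (0 : T (Vx m n) K) = 0 := by
  classical
  ext μ
  rw [npr_coeff, coeff_zero, ite_self]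

private theorem npr_monomial (μ : Vx m n × Bool →₀ ℕ) (c : K)
    [Decidable ((p : ℤ) ∣ npr_wt (fun x => if x.2 then -1 else 1) μ ∧
      (p : ℤ) ∣ npr_wt (fun x => if x.1.isLeft then 1 else -1) μ)] :
    pr0 p (monomial μ c : T (Vx m n) K) =
      if (p : ℤ) ∣ npr_wt (fun x => if x.2 then -1 else 1) μ ∧
      (p : ℤ) ∣ npr_wt (fun x => if x.1.isLeft then 1 else -1) μ then monomial μ c else 0 := by
  classical
  ext ν
  rw [npr_coeff]
  by_cases h : μ = ν
  · subst h
    split_ifs <;> simp
  · rw [coeff_monomial, if_neg h, ite_self]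
    split_ifs
    · rw [coeff_monomial, if_neg h]
    · rw [coeff_zero]

theorem pr0_pow_mul [Fact p.Prime] [CharP K p] (t u : T (Vx m n) K) :
    pr0 p (t ^ p * u) = t ^ p * pr0 p u := by
  classical
  have hcond : ∀ α μ : Vx m n × Bool →₀ ℕ, ∀ W : Vx m n × Bool → ℤ,
      ((p : ℤ) ∣ npr_wt W (p • α + μ) ↔ (p : ℤ) ∣ npr_wt W μ) := by
    intro α μ W
    rw [npr_wt_add, npr_wt_smul]
    exact dvd_add_right (dvd_mul_right _ _)
  induction t using MvPolynomial.induction_on' with
  | monomial α c =>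
    induction u using MvPolynomial.induction_on' with
    | monomial μ e =>
      rw [monomial_pow, monomial_mul, npr_monomial, npr_monomial]
      simp only [hcond]
      split_ifs
      · rw [monomial_mul]
      · rw [mul_zero]
    | add u v hu hv => rw [mul_add, pr0_add, pr0_add, hu, hv, mul_add]
  | add s t hs ht =>
    rw [add_pow_char, add_mul, pr0_add, hs, ht, add_mul]

private theorem npr_D_monomial (D : Derivation K (T (Vx m n) K) (T (Vx m n) K))
    (W : Vx m n × Bool → ℤ) (hD : ∀ x, D (X x) = W x • (X x : T (Vx m n) K))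
    (μ : Vx m n × Bool →₀ ℕ) :
    D (monomial μ (1 : K)) = npr_wt W μ • (monomial μ (1 : K) : T (Vx m n) K) := by
  induction μ using Finsupp.induction_linear with
  | zero =>
    have h1 : (monomial 0 (1 : K) : T (Vx m n) K) = 1 := rfl
    rw [h1, Derivation.map_one_eq_zero]
    simp [npr_wt]
  | add f g hf hg =>
    have h1 : (monomial (f + g) (1 : K) : T (Vx m n) K) = monomial f 1 * monomial g 1 := by
      rw [monomial_mul, one_mul]
    rw [h1, Derivation.leibniz, hf, hg, npr_wt_add, smul_eq_mul, smul_eq_mul, add_smul,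
      mul_smul_comm, mul_smul_comm, mul_comm (monomial g (1 : K))]
    rw [add_comm]
  | single x k =>
    have h1 : (monomial (Finsupp.single x k) (1 : K) : T (Vx m n) K) = X x ^ k := by
      rw [X_pow_eq_monomial]
    rw [h1, Derivation.leibniz_pow, hD, npr_wt_single]
    rcases Nat.eq_zero_or_pos k with hk | hk
    · subst hk
      simp
    · have h2 : (X x : T (Vx m n) K) ^ (k - 1) * X x = X x ^ k := by
        rw [← pow_succ, Nat.sub_add_cancel hk]
      rw [smul_eq_mul, mul_smul_comm, h2, mul_smul, Nat.cast_smul_eq_nsmul]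

private theorem npr_D_zero [Fact p.Prime] [CharP K p]
    (D : Derivation K (T (Vx m n) K) (T (Vx m n) K))
    (W : Vx m n × Bool → ℤ) (hD : ∀ x, D (X x) = W x • (X x : T (Vx m n) K))
    (u : T (Vx m n) K) (h : ∀ μ, coeff μ u ≠ 0 → (p : ℤ) ∣ npr_wt W μ) : D u = 0 := by
  rw [u.as_sum, map_sum]
  refine Finset.sum_eq_zero fun μ hμ => ?_
  rw [mem_support_iff] at hμ
  have h1 : (monomial μ (coeff μ u) : T (Vx m n) K) = coeff μ u • monomial μ (1 : K) := by
    rw [smul_monomial, smul_eq_mul, mul_one]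
  have h2 : (npr_wt W μ : T (Vx m n) K) = 0 := (CharP.intCast_eq_zero_iff _ p _).2 (h μ hμ)
  rw [h1, Derivation.map_smul, npr_D_monomial D W hD, zsmul_eq_mul, h2, zero_mul, smul_zero]

private theorem npr_induct (P : T (Vx m n) K → Prop) (h0 : P 0)
    (hadd : ∀ u v, P u → P v → P (u + v))
    (hS : ∀ (d : Vx m n →₀ ℕ) (w : ℤ) (u : T (Vx m n) K), u ∈ S K d w → P u)
    (u : T (Vx m n) K) : P u := by
  obtain ⟨s, hs⟩ := exists_sum_component K u
  rw [hs]
  refine Finset.sum_induction _ P hadd h0 ?_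
  rintro ⟨d, w⟩ _
  exact hS d w _ (component_mem K u d w)

theorem killed_Lam_pr0 [Fact p.Prime] [CharP K p] (u : T (Vx m n) K) :
    Killed (Lam K p (pr0 p u)) := by
  classical
  refine npr_induct (fun u => Killed (Lam K p (pr0 p u))) ?_ ?_ ?_ u
  · simp only [npr_zero, map_zero]
    exact ⟨map_zero _, map_zero _, map_zero _, map_zero _⟩
  · intro u v hu hv
    simp only [pr0_add, map_add]
    refine ⟨?_, ?_, ?_, ?_⟩
    · rw [map_add, hu.1, hv.1, add_zero]
    · rw [map_add, hu.2.1, hv.2.1, add_zero]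
    · rw [map_add, hu.2.2.1, hv.2.2.1, add_zero]
    · rw [map_add, hu.2.2.2, hv.2.2.2, add_zero]
  · intro d w u hu
    simp only [pr0_mem p hu]
    split_ifs with h
    · have hL := Lam_mem_S K p hu
      refine ⟨?_, ?_, ?_, ?_⟩
      · rw [← E_one]
        exact E1_Lam K p hu h.1
      · rw [← F_one]
        exact F1_Lam K p u
      · refine npr_D_zero p _ (fun x => if x.2 then -1 else 1) ?_ _ ?_
        · intro x
          unfold dH
          rw [mkDerivation_X]
          split_ifs <;> simp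
        · intro μ hμ
          rw [npr_wtm, ((mem_S_iff K).1 hL μ hμ).2]
          exact h.1
      · refine npr_D_zero p _ (fun x => if x.1.isLeft then 1 else -1) ?_ _ ?_
        · intro x
          unfold dZ
          rw [mkDerivation_X]
          split_ifs <;> simp
        · intro μ hμ
          rw [npr_z ((mem_S_iff K).1 hL μ hμ).1]
          exact h.2
    · rw [map_zero]
      exact ⟨map_zero _, map_zero _, map_zero _, map_zero _⟩

theorem Lam_pr0_E1 [Fact p.Prime] [CharP K p] (u : T (Vx m n) K) :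
    Lam K p (pr0 p (E K 1 u)) = 0 := by
  classical
  refine npr_induct (fun u => Lam K p (pr0 p (E K 1 u)) = 0) ?_ ?_ ?_ u
  · simp only [npr_zero, map_zero]
  · intro u v hu hv
    simp only [pr0_add, map_add, hu, hv, add_zero]
  · intro d w u hu
    simp only [pr0_mem p (E_mem_S K hu 1)]
    split_ifs
    · exact Lam_E1 K p u
    · exact map_zero _

theorem Lam_pr0_F1 [Fact p.Prime] [CharP K p] (u : T (Vx m n) K) :
    Lam K p (pr0 p (F K 1 u)) = 0 := by
  classical
  refine npr_induct (fun u => Lam K p (pr0 p (F K 1 u)) = 0) ?_ ?_ ?_ u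
  · simp only [npr_zero, map_zero]
  · intro u v hu hv
    simp only [pr0_add, map_add, hu, hv, add_zero]
  · intro d w u hu
    simp only [pr0_mem p (F_mem_S K hu 1)]
    split_ifs with h
    · refine Lam_F1 K p hu ?_
      have h1 := h.1
      simpa using h1
    · exact map_zero _

theorem Lam_pr0_Ep [Fact p.Prime] [CharP K p] (u : T (Vx m n) K) :
    Lam K p (pr0 p (E K p u)) = E K p (Lam K p (pr0 p u)) := by
  classical
  refine npr_induct (fun u => Lam K p (pr0 p (E K p u)) = E K p (Lam K p (pr0 p u))) ?_ ?_ ?_ u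
  · simp only [npr_zero, map_zero]
  · intro u v hu hv
    simp only [pr0_add, map_add, hu, hv]
  · intro d w u hu
    have hiff : (p : ℤ) ∣ w + 2 * (p : ℤ) ↔ (p : ℤ) ∣ w :=
      (dvd_add_left (dvd_mul_left _ _))
    simp only [pr0_mem p (E_mem_S K hu p), pr0_mem p hu, hiff]
    split_ifs with h
    · have h1 := E_Lam_comm K p hu h.1 1
      rw [mul_one] at h1
      exact h1.symm
    · rw [map_zero, map_zero]

theorem Lam_pr0_Fp [Fact p.Prime] [CharP K p] (u : T (Vx m n) K) :
    Lam K p (pr0 p (F K p u)) = F K p (Lam K p (pr0 p u)) := by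
  classical
  refine npr_induct (fun u => Lam K p (pr0 p (F K p u)) = F K p (Lam K p (pr0 p u))) ?_ ?_ ?_ u
  · simp only [npr_zero, map_zero]
  · intro u v hu hv
    simp only [pr0_add, map_add, hu, hv]
  · intro d w u hu
    have hiff : (p : ℤ) ∣ w - 2 * (p : ℤ) ↔ (p : ℤ) ∣ w :=
      (dvd_sub_left (dvd_mul_left _ _))
    simp only [pr0_mem p (F_mem_S K hu p), pr0_mem p hu, hiff]
    split_ifs with h
    · have h1 := F_Lam_comm K p hu h.1 1
      rw [mul_one] at h1
      exact h1.symm
    · rw [map_zero, map_zero]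

end FSig
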