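import Pool.Agent.Lib.FSig.TDefs

/-!
# MP_05de8f_ag : basic rules for the divided powers `E^(k)`, `F^(k)` (module OpsBasic)

`K` any commutative ring, `V` any type. `Et`, `Ft` are `K`-algebra maps `T → T[t]`, `E k f = coeff k (Et f)`.

PROOFS.
* `Et_va` .. : `aeval_X`.
* `E_zero`: `coeff 0 ∘ Et` (`Polynomial.constantCoeff`) is an algebra map which fixes the generators (`MvPolynomial.algHom_ext`).
* `E_mul`: `Polynomial.coeff_mul` and `Et (f*g) = Et f * Et g`.
* `E_comp`: `MvPolynomial.induction_on` on `f` (all `k, l` at the same time). Constants: `E k (C c) = if k = 0 ..`. Sums: linearity.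
  Products `f * X`: it is enough to know the rule for `f` (all `k`, `l`) and for `X` and to use `E_mul` twice and Vandermonde
  (`Nat.add_choose_eq`): `∑ binom(i1+j1,i1) binom(i2+j2,i2)` over `i1+i2=k`, `j1+j2=l`, with `i1+j1 = a`, `i2+j2 = b` fixed is `binom(a+b,k)`.
  Alternatively: `f ↦ (map Et)(Et f)` and `f ↦ (Et f)(s+t)` are algebra maps `T → T[s][t]` which agree on the generators;
  compare coefficients (`Polynomial.coeff_add_pow`-type lemma or `Polynomial.taylor`).
* `factorial_smul_E`: `E 1 (E k f) = (k+1) • E (k+1) f` (from `E_comp`) and induction on `k`.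
* `mem_Inv_iff`: compare coefficients (`Polynomial.ext`, coefficient `0` is `E_zero`).
* `F` is the mirror image of `E` (module Swap transports statements, but here it is easier to repeat the proof).
-/

namespace FSig

open MvPolynomial Finset

variable {V : Type*} (K : Type*) [CommRing K]

/-- `p ↦ p (s + t)` -/
private noncomputable def obS (A : Type*) [CommRing A] :
    Polynomial A →+* Polynomial (Polynomial A) :=
  Polynomial.eval₂RingHom ((Polynomial.C : Polynomial A →+* Polynomial (Polynomial A)).comp
    (Polynomial.C : A →+* Polynomial A)) (Polynomial.X + Polynomial.C Polynomial.X)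

private lemma obS_C {A : Type*} [CommRing A] (a : A) :
    obS A (Polynomial.C a) = Polynomial.C (Polynomial.C a) := by
  unfold obS
  rw [Polynomial.coe_eval₂RingHom, Polynomial.eval₂_C]
  rfl

private lemma obS_X {A : Type*} [CommRing A] :
    obS A Polynomial.X = Polynomial.X + Polynomial.C Polynomial.X := by
  unfold obS
  rw [Polynomial.coe_eval₂RingHom, Polynomial.eval₂_X]

/-- coefficients of `p (s + t)` -/
private lemma ob_coeff {A : Type*} [CommRing A] (p : Polynomial A) (k l : ℕ) :
    ((obS A p).coeff l).coeff k = (k + l).choose k • p.coeff (k + l) := by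
  induction p using Polynomial.induction_on' with
  | add p q hp hq =>
    rw [map_add, Polynomial.coeff_add, Polynomial.coeff_add, hp, hq,
      Polynomial.coeff_add, smul_add]
  | monomial n a =>
    rw [← Polynomial.C_mul_X_pow_eq_monomial, map_mul, map_pow, obS_C, obS_X,
      Polynomial.coeff_C_mul,
      Polynomial.coeff_X_add_C_pow, Polynomial.coeff_C_mul, ← Polynomial.C_eq_natCast,
      Polynomial.coeff_mul_C, Polynomial.coeff_X_pow, Polynomial.coeff_C_mul_X_pow]
    by_cases h : n = k + l
    · subst h
      rw [if_pos rfl, if_pos (by omega), nsmul_eq_mul, one_mul, mul_comm,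
        Nat.choose_symm_add]
    · rw [if_neg (Ne.symm h), smul_zero]
      by_cases h2 : k = n - l
      · rw [Nat.choose_eq_zero_of_lt (by omega)]
        simp
      · rw [if_neg h2]
        simp

/-- additivity in the parameter implies the composition rule -/
private lemma ob_comp (φ : T V K →ₐ[K] Polynomial (T V K))
    (h : ∀ x, Polynomial.map (φ : T V K →+* Polynomial (T V K)) (φ (X x)) =
      obS (T V K) (φ (X x))) (k l : ℕ) (f : T V K) :
    (φ ((φ f).coeff l)).coeff k = (k + l).choose k • (φ f).coeff (k + l) := by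
  have h1 : (Polynomial.mapRingHom (φ : T V K →+* Polynomial (T V K))).comp
      (φ : T V K →+* Polynomial (T V K)) =
      (obS (T V K)).comp (φ : T V K →+* Polynomial (T V K)) := by
    apply MvPolynomial.ringHom_ext
    · intro r
      have h2 : φ (C r) = Polynomial.C (C r) := φ.commutes r
      simp only [RingHom.comp_apply, RingHom.coe_coe, Polynomial.coe_mapRingHom,
        h2, Polynomial.map_C, obS_C]
    · intro x
      exact h x
  have h3 := congrArg (fun g => ((g f).coeff l).coeff k) h1
  simp only [RingHom.comp_apply, RingHom.coe_coe, Polynomial.coe_mapRingHom,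
    Polynomial.coeff_map] at h3
  rw [h3, ob_coeff]

lemma Et_va (v : V) : Et K (va K v) = Polynomial.C (va K v) := by
  unfold Et va
  rw [aeval_X]
  simp
lemma Et_vb (v : V) : Et K (vb K v) = Polynomial.C (vb K v) + Polynomial.X * Polynomial.C (va K v) := by
  unfold Et va vb
  rw [aeval_X]
  simp
lemma Ft_va (v : V) : Ft K (va K v) = Polynomial.C (va K v) + Polynomial.X * Polynomial.C (vb K v) := by
  unfold Ft va vb
  rw [aeval_X]
  simp
lemma Ft_vb (v : V) : Ft K (vb K v) = Polynomial.C (vb K v) := by
  unfold Ft vb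
  rw [aeval_X]
  simp

lemma E_apply (k : ℕ) (f : T V K) : E K k f = (Et K f).coeff k := rfl
lemma F_apply (k : ℕ) (f : T V K) : F K k f = (Ft K f).coeff k := rfl

@[simp] lemma E_zero (f : T V K) : E K 0 f = f := by
  have h : (Polynomial.constantCoeff).comp ((Et K : T V K →ₐ[K] Polynomial (T V K)) :
      T V K →+* Polynomial (T V K)) = RingHom.id (T V K) := by
    apply MvPolynomial.ringHom_ext
    · intro r
      have h2 : Et K (C r : T V K) = Polynomial.C (C r) := (Et K).commutes r
      simp only [RingHom.comp_apply, RingHom.coe_coe, h2]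
      simp
    · rintro ⟨v, b⟩
      cases b
      · have h2 := Et_va K v
        unfold va at h2
        simp only [RingHom.comp_apply, RingHom.coe_coe, h2]
        simp
      · have h2 := Et_vb K v
        unfold vb at h2
        simp only [RingHom.comp_apply, RingHom.coe_coe, h2]
        simp
  exact congrArg (fun g => g f) h
@[simp] lemma F_zero (f : T V K) : F K 0 f = f := by
  have h : (Polynomial.constantCoeff).comp ((Ft K : T V K →ₐ[K] Polynomial (T V K)) :
      T V K →+* Polynomial (T V K)) = RingHom.id (T V K) := by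
    apply MvPolynomial.ringHom_ext
    · intro r
      have h2 : Ft K (C r : T V K) = Polynomial.C (C r) := (Ft K).commutes r
      simp only [RingHom.comp_apply, RingHom.coe_coe, h2]
      simp
    · rintro ⟨v, b⟩
      cases b
      · have h2 := Ft_va K v
        unfold va at h2
        simp only [RingHom.comp_apply, RingHom.coe_coe, h2]
        simp
      · have h2 := Ft_vb K v
        unfold vb at h2
        simp only [RingHom.comp_apply, RingHom.coe_coe, h2]
        simp
  exact congrArg (fun g => g f) h

lemma E_mul (k : ℕ) (f g : T V K) :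
    E K k (f * g) = ∑ ij ∈ antidiagonal k, E K ij.1 f * E K ij.2 g := by
  rw [E_apply, map_mul, Polynomial.coeff_mul]
  rfl
lemma F_mul (k : ℕ) (f g : T V K) :
    F K k (f * g) = ∑ ij ∈ antidiagonal k, F K ij.1 f * F K ij.2 g := by
  rw [F_apply, map_mul, Polynomial.coeff_mul]
  rfl

lemma E_one_mul (f g : T V K) : E K 1 (f * g) = E K 1 f * g + f * E K 1 g := by
  rw [E_mul, Finset.Nat.antidiagonal_succ]
  simp [add_comm]
lemma F_one_mul (f g : T V K) : F K 1 (f * g) = F K 1 f * g + f * F K 1 g := by
  rw [F_mul, Finset.Nat.antidiagonal_succ]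
  simp [add_comm]

lemma E_C (k : ℕ) (hk : 1 ≤ k) (c : K) : E K k (C c : T V K) = 0 := by
  have h2 : Et K (C c : T V K) = Polynomial.C (C c) := (Et K).commutes c
  rw [E_apply, h2, Polynomial.coeff_C, if_neg (by omega)]
lemma F_C (k : ℕ) (hk : 1 ≤ k) (c : K) : F K k (C c : T V K) = 0 := by
  have h2 : Ft K (C c : T V K) = Polynomial.C (C c) := (Ft K).commutes c
  rw [F_apply, h2, Polynomial.coeff_C, if_neg (by omega)]

lemma E_va (k : ℕ) (hk : 1 ≤ k) (v : V) : E K k (va K v) = 0 := by
  rw [E_apply, Et_va, Polynomial.coeff_C, if_neg (by omega)]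
lemma E_one_vb (v : V) : E K 1 (vb K v) = va K v := by
  rw [E_apply, Et_vb, Polynomial.coeff_add, Polynomial.coeff_C, if_neg one_ne_zero, zero_add,
    Polynomial.coeff_mul_C, Polynomial.coeff_X_one, one_mul]
lemma E_vb (k : ℕ) (hk : 2 ≤ k) (v : V) : E K k (vb K v) = 0 := by
  rw [E_apply, Et_vb, Polynomial.coeff_add, Polynomial.coeff_C, if_neg (by omega), zero_add,
    Polynomial.coeff_mul_C, Polynomial.coeff_X, if_neg (by omega), zero_mul]
lemma F_vb (k : ℕ) (hk : 1 ≤ k) (v : V) : F K k (vb K v) = 0 := by
  rw [F_apply, Ft_vb, Polynomial.coeff_C, if_neg (by omega)]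
lemma F_one_va (v : V) : F K 1 (va K v) = vb K v := by
  rw [F_apply, Ft_va, Polynomial.coeff_add, Polynomial.coeff_C, if_neg one_ne_zero, zero_add,
    Polynomial.coeff_mul_C, Polynomial.coeff_X_one, one_mul]
lemma F_va (k : ℕ) (hk : 2 ≤ k) (v : V) : F K k (va K v) = 0 := by
  rw [F_apply, Ft_va, Polynomial.coeff_add, Polynomial.coeff_C, if_neg (by omega), zero_add,
    Polynomial.coeff_mul_C, Polynomial.coeff_X, if_neg (by omega), zero_mul]

lemma E_comp (k l : ℕ) (f : T V K) : E K k (E K l f) = ((k + l).choose k) • E K (k + l) f := by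
  refine ob_comp K (Et K) ?_ k l f
  have h0 : ∀ v : V, Et K (X (v, false) : T V K) = _ := Et_va K
  have h1 : ∀ v : V, Et K (X (v, true) : T V K) = _ := Et_vb K
  simp only [va, vb] at h0 h1
  rintro ⟨v, b⟩
  cases b
  all_goals
    simp only [h0, h1, RingHom.coe_coe, Polynomial.map_add, Polynomial.map_mul, Polynomial.map_C,
      Polynomial.map_X, obS_C, obS_X, map_add, map_mul]
    try ring
lemma F_comp (k l : ℕ) (f : T V K) : F K k (F K l f) = ((k + l).choose k) • F K (k + l) f := by
  refine ob_comp K (Ft K) ?_ k l f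
  have h0 : ∀ v : V, Ft K (X (v, false) : T V K) = _ := Ft_va K
  have h1 : ∀ v : V, Ft K (X (v, true) : T V K) = _ := Ft_vb K
  simp only [va, vb] at h0 h1
  rintro ⟨v, b⟩
  cases b
  all_goals
    simp only [h0, h1, RingHom.coe_coe, Polynomial.map_add, Polynomial.map_mul, Polynomial.map_C,
      Polynomial.map_X, obS_C, obS_X, map_add, map_mul]
    try ring

lemma E_comm (k l : ℕ) (f : T V K) : E K k (E K l f) = E K l (E K k f) := by
  rw [E_comp, E_comp, add_comm l k, Nat.choose_symm_add]
lemma F_comm (k l : ℕ) (f : T V K) : F K k (F K l f) = F K l (F K k f) := by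
  rw [F_comp, F_comp, add_comm l k, Nat.choose_symm_add]

/-- `k! E^(k) = E^k` -/
lemma factorial_smul_E (k : ℕ) (f : T V K) : k.factorial • E K k f = ((E K 1) ^ k) f := by
  induction k with
  | zero => simp
  | succ k ih =>
    rw [pow_succ', Module.End.mul_apply, ← ih, map_nsmul, E_comp, smul_smul,
      Nat.choose_one_right, Nat.factorial_succ, mul_comm, add_comm 1 k]
lemma factorial_smul_F (k : ℕ) (f : T V K) : k.factorial • F K k f = ((F K 1) ^ k) f := by
  induction k with
  | zero => simp
  | succ k ih =>
    rw [pow_succ', Module.End.mul_apply, ← ih, map_nsmul, F_comp, smul_smul,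
      Nat.choose_one_right, Nat.factorial_succ, mul_comm, add_comm 1 k]

lemma mem_Inv_iff (f : T V K) :
    f ∈ Inv (V := V) K ↔ ∀ k, 1 ≤ k → E K k f = 0 ∧ F K k f = 0 := by
  constructor
  · rintro ⟨h1, h2⟩ k hk
    rw [E_apply, F_apply, h1, h2, Polynomial.coeff_C, if_neg (by omega)]
    exact ⟨rfl, rfl⟩
  · intro h
    constructor
    · ext1 k
      rw [Polynomial.coeff_C]
      rcases Nat.eq_zero_or_pos k with hk | hk
      · rw [hk, if_pos rfl]
        exact E_zero K f
      · rw [if_neg (by omega)]
        exact (h k hk).1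
    · ext1 k
      rw [Polynomial.coeff_C]
      rcases Nat.eq_zero_or_pos k with hk | hk
      · rw [hk, if_pos rfl]
        exact F_zero K f
      · rw [if_neg (by omega)]
        exact (h k hk).2

lemma br_mem_Inv (v w : V) : br K v w ∈ Inv (V := V) K := by
  constructor
  · unfold br
    rw [map_sub, map_mul, map_mul, Et_va, Et_vb, Et_va, Et_vb, Polynomial.C_sub, Polynomial.C_mul,
      Polynomial.C_mul]
    ring
  · unfold br
    rw [map_sub, map_mul, map_mul, Ft_va, Ft_vb, Ft_va, Ft_vb, Polynomial.C_sub, Polynomial.C_mul,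
      Polynomial.C_mul]
    ring

lemma E_Inv_mul {g : T V K} (hg : g ∈ Inv (V := V) K) (k : ℕ) (f : T V K) :
    E K k (g * f) = g * E K k f := by
  rw [E_apply, map_mul, hg.1, Polynomial.coeff_C_mul]
  rfl
lemma F_Inv_mul {g : T V K} (hg : g ∈ Inv (V := V) K) (k : ℕ) (f : T V K) :
    F K k (g * f) = g * F K k f := by
  rw [F_apply, map_mul, hg.2, Polynomial.coeff_C_mul]
  rfl
lemma Lam_Inv_mul (p : ℕ) {g : T V K} (hg : g ∈ Inv (V := V) K) (f : T V K) :
    Lam K p (g * f) = g * Lam K p f := by
  unfold Lam
  rw [LinearMap.comp_apply, LinearMap.comp_apply, E_Inv_mul K hg, F_Inv_mul K hg]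

end FSig
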