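import Pool.Agent.Lib.FSig.OpsGr

/-!
# MP_05de8f_ag : Kostant commutation rule (module OpsComm)

For `x` of weight `w`:  `E^(r) F^(q) x = ∑_{l=0}^{min(r,q)} binom(w + r - q, l) F^(q-l) E^(r-l) x` (`binom` with an integer top,
`Ring.choose`), and the mirror image.

PROOF.
(1) `E_one_F`: `E F^(k) z = F^(k) E z + (w - k + 1) F^(k-1) z` for `z` of weight `w`, `k ≥ 1`. Over any ring. Consider the additive maps
  `T → T[t]`: `A z = E (Ft z)` (coefficientwise `E`), `B z = Ft (E z) + t Ft(H z) - t² (coefficientwise F) ...`; simplest: by linearity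
  and induction on monomials: if the rule holds for `x` (weight `w1`) and `y` (weight `w2`) then it holds for `x*y` (weight `w1+w2`):
  `E F^(k)(xy) = ∑_{i+j=k} (E F^(i) x) F^(j) y + F^(i) x (E F^(j) y)`
  `= ∑ (F^(i) E x) F^(j) y + (w1-i+1) F^(i-1)x F^(j) y + F^(i)x F^(j) E y + (w2-j+1) F^(i)x F^(j-1) y`, and in the two middle sums the pair
  `(a,b)`, `a+b = k-1`, of `F^(a) x F^(b) y` has the coefficient `(w1-(a+1)+1) + (w2-(b+1)+1) = w1+w2-(k-1) = w-k+1`. Generators: direct
  (`E_va`, `E_one_vb`, `F_vb`, `F_one_va`, `E_C`, `F_C`).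
(2) the rule (O2) for a torsion-free ring (only `ℤ` is needed), `x ∈ S d w`, by induction on `r`. `r = 0` is clear. Step:
  `(r+1) E^(r+1) F^(q) x = E (E^(r) F^(q) x)`. Put `c = w+r-q`. By induction `= ∑_l binom(c,l) E F^(q-l) E^(r-l) x`, and by (1) for
  `z = E^(r-l) x` (weight `w+2(r-l)`): `E F^(q-l) z = F^(q-l) E z + (w+2(r-l)-(q-l)+1) F^(q-l-1) z`, `E E^(r-l) x = (r-l+1) E^(r-l+1) x`.
  Coefficient of `F^(q-l) E^(r+1-l) x`: `(r+1-l) binom(c,l) + (w + 2r - q - l + 3 ... )`: precisely the second family with index `l-1` gives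
  `binom(c,l-1) (w+2(r-l+1)-(q-l+1)+1) = binom(c,l-1) (c + r - l + 2)`. And
  `(r+1-l) binom(c,l) + (c+r-l+2) binom(c,l-1) = (r+1) binom(c+1,l)` since `binom(c+1,l) = binom(c,l)+binom(c,l-1)` and
  `l binom(c,l) = (c-l+1) binom(c,l-1)`. Cancel `r+1` (`T V ℤ` is torsion free).
(3) base change: for a monomial `x = monomial μ 1` the rule over `K` is the image of the rule over `ℤ` under
  `MvPolynomial.map (Int.castRingHom K)`, which commutes with `E^(k)`, `F^(k)` (`E_map`, on generators). Then linearity (`S_induction`).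
(4) `F_E_comm`: the mirror image (repeat, or use the ring automorphism `a_v ↔ b_v`, which exchanges `E` and `F` and `S d w`, `S d (-w)`).
-/

namespace FSig

open MvPolynomial Finset

variable {V : Type*} (K : Type*) [CommRing K]

/-- the automorphism `a_v ↔ b_v` -/
noncomputable def sw : T V K ≃ₐ[K] T V K :=
  renameEquiv K ((Equiv.refl V).prodCongr ⟨not, not, Bool.not_not, Bool.not_not⟩)

private lemma oc_sw_X (v : V) (b : Bool) : sw K (X (v, b) : T V K) = X (v, !b) := by
  simp [sw, renameEquiv_apply, rename_X]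

@[simp] lemma sw_va (v : V) : sw K (va K v) = vb K v := by
  rw [va, vb, oc_sw_X]; rfl
@[simp] lemma sw_vb (v : V) : sw K (vb K v) = va K v := by
  rw [va, vb, oc_sw_X]; rfl
lemma sw_sw (f : T V K) : sw K (sw K f) = f := by
  have h : (sw K : T V K ≃ₐ[K] T V K).toAlgHom.comp (sw K : T V K ≃ₐ[K] T V K).toAlgHom =
      AlgHom.id K (T V K) := by
    apply MvPolynomial.algHom_ext
    rintro ⟨v, b⟩
    show sw K (sw K (X (v, b))) = X (v, b)
    rw [oc_sw_X, oc_sw_X, Bool.not_not]
  exact congrArg (fun g : T V K →ₐ[K] T V K => g f) h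

private lemma oc_Et_sw (f : T V K) :
    Et K (sw K f) = Polynomial.mapAlgHom (sw K : T V K ≃ₐ[K] T V K).toAlgHom (Ft K f) := by
  have h : (Et K).comp (sw K : T V K ≃ₐ[K] T V K).toAlgHom =
      (Polynomial.mapAlgHom (sw K : T V K ≃ₐ[K] T V K).toAlgHom).comp (Ft K) := by
    apply MvPolynomial.algHom_ext
    rintro ⟨v, b⟩
    show Et K (sw K (X (v, b))) = Polynomial.mapAlgHom _ (Ft K (X (v, b)))
    rw [oc_sw_X]
    cases b
    · show Et K (vb K v) = Polynomial.mapAlgHom _ (Ft K (va K v))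
      rw [Et_vb, Ft_va]
      simp
    · show Et K (va K v) = Polynomial.mapAlgHom _ (Ft K (vb K v))
      rw [Et_va, Ft_vb]
      simp
  exact congrArg (fun g : T V K →ₐ[K] Polynomial (T V K) => g f) h

lemma E_sw (k : ℕ) (f : T V K) : E K k (sw K f) = sw K (F K k f) := by
  rw [E_apply, F_apply, oc_Et_sw]
  simp
lemma F_sw (k : ℕ) (f : T V K) : F K k (sw K f) = sw K (E K k f) := by
  have h := E_sw K k (sw K f)
  rw [sw_sw] at h
  rw [h, sw_sw]

private lemma oc_wtm_add (μ ν : V × Bool →₀ ℕ) : wtm (μ + ν) = wtm μ + wtm ν := by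
  unfold wtm
  refine Finsupp.sum_add_index' ?_ ?_
  · intro x
    split_ifs <;> simp
  · intro x a b
    split_ifs <;> push_cast <;> ring

private lemma oc_wtm_single (x : V × Bool) : wtm (Finsupp.single x 1) = if x.2 then -1 else 1 := by
  unfold wtm
  rw [Finsupp.sum_single_index]
  · simp
  · split_ifs <;> simp

lemma sw_mem_S {d : V →₀ ℕ} {w : ℤ} {f : T V K} (hf : f ∈ S K d w) : sw K f ∈ S K d (-w) := by
  refine S_induction K (fun f => sw K f ∈ S K d (-w)) ?_ ?_ ?_ hf
  · rw [map_zero]; exact zero_mem _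
  · intro f g h1 h2
    rw [map_add]; exact add_mem h1 h2
  · intro μ c h1 h2
    set e : V × Bool ≃ V × Bool :=
      (Equiv.refl V).prodCongr ⟨not, not, Bool.not_not, Bool.not_not⟩ with he
    have hs : sw K (monomial μ c) = monomial (μ.mapDomain e) c := by
      show rename e (monomial μ c) = _
      rw [rename_monomial]
    rw [hs]
    refine monomial_mem_S K c ?_ ?_
    · intro v
      have e1 : (v, false) = e (v, true) := rfl
      have e2 : (v, true) = e (v, false) := rfl
      have a1 : (μ.mapDomain e) (v, false) = μ (v, true) := by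
        rw [e1, Finsupp.mapDomain_apply e.injective]
      have a2 : (μ.mapDomain e) (v, true) = μ (v, false) := by
        rw [e2, Finsupp.mapDomain_apply e.injective]
      rw [a1, a2, add_comm]
      exact h1 v
    · rw [← h2, wtm, Finsupp.sum_mapDomain_index_inj e.injective, wtm, Finsupp.sum, Finsupp.sum,
        ← Finset.sum_neg_distrib]
      refine Finset.sum_congr rfl ?_
      rintro ⟨v, b⟩ _
      cases b <;> simp [he]
lemma sw_mem_Inv {f : T V K} (hf : f ∈ Inv (V := V) K) : sw K f ∈ Inv (V := V) K := by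
  rw [mem_Inv_iff] at hf ⊢
  intro k hk
  obtain ⟨h1, h2⟩ := hf k hk
  rw [E_sw, F_sw, h1, h2, map_zero]
  exact ⟨rfl, rfl⟩

/-- integer indexed divided powers -/
private noncomputable def Ez (k : ℤ) : T V K →ₗ[K] T V K := if 0 ≤ k then E K k.toNat else 0
private noncomputable def Fz (k : ℤ) : T V K →ₗ[K] T V K := if 0 ≤ k then F K k.toNat else 0

private lemma Ez_nat (k : ℕ) : (Ez K (k : ℤ) : T V K →ₗ[K] T V K) = E K k := by
  simp [Ez]
private lemma Fz_nat (k : ℕ) : (Fz K (k : ℤ) : T V K →ₗ[K] T V K) = F K k := by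
  simp [Fz]
private lemma Ez_neg {k : ℤ} (hk : k < 0) : (Ez K k : T V K →ₗ[K] T V K) = 0 := by
  simp [Ez, not_le.2 hk]
private lemma Fz_neg {k : ℤ} (hk : k < 0) : (Fz K k : T V K →ₗ[K] T V K) = 0 := by
  simp [Fz, not_le.2 hk]

private lemma oc_E_mul_va (k : ℕ) (x : T V K) (v : V) :
    E K k (x * va K v) = E K k x * va K v := by
  rw [E_mul, Finset.sum_eq_single (k, 0)]
  · rw [E_zero]
  · rintro ⟨i, j⟩ hij hne
    have hij' := HasAntidiagonal.mem_antidiagonal.1 hij
    have hj : 1 ≤ j := by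
      rcases Nat.eq_zero_or_pos j with h0 | h0
      · exfalso
        apply hne
        simp only at hij'
        rw [Prod.mk.injEq]
        omega
      · exact h0
    show E K i x * E K j (va K v) = 0
    rw [E_va K j hj, mul_zero]
  · intro h
    exact absurd (HasAntidiagonal.mem_antidiagonal.2 (by simp)) h

private lemma oc_F_mul_vb (k : ℕ) (x : T V K) (v : V) :
    F K k (x * vb K v) = F K k x * vb K v := by
  rw [F_mul, Finset.sum_eq_single (k, 0)]
  · rw [F_zero]
  · rintro ⟨i, j⟩ hij hne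
    have hij' := HasAntidiagonal.mem_antidiagonal.1 hij
    have hj : 1 ≤ j := by
      rcases Nat.eq_zero_or_pos j with h0 | h0
      · exfalso
        apply hne
        simp only at hij'
        rw [Prod.mk.injEq]
        omega
      · exact h0
    show F K i x * F K j (vb K v) = 0
    rw [F_vb K j hj, mul_zero]
  · intro h
    exact absurd (HasAntidiagonal.mem_antidiagonal.2 (by simp)) h

private lemma oc_E_mul_vb (k : ℕ) (x : T V K) (v : V) :
    E K (k + 1) (x * vb K v) = E K (k + 1) x * vb K v + E K k x * va K v := by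
  rw [E_mul, Finset.sum_eq_add (k + 1, 0) (k, 1)]
  · rw [E_zero, E_one_vb]
  · intro h
    rw [Prod.mk.injEq] at h
    omega
  · rintro ⟨i, j⟩ hij hne
    have hij' := HasAntidiagonal.mem_antidiagonal.1 hij
    simp only [ne_eq, Prod.mk.injEq] at hne hij'
    show E K i x * E K j (vb K v) = 0
    rw [E_vb K j (by omega), mul_zero]
  · intro h
    exact absurd (HasAntidiagonal.mem_antidiagonal.2 (by simp)) h
  · intro h
    exact absurd (HasAntidiagonal.mem_antidiagonal.2 (by simp)) h

private lemma oc_F_mul_va (k : ℕ) (x : T V K) (v : V) :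
    F K (k + 1) (x * va K v) = F K (k + 1) x * va K v + F K k x * vb K v := by
  rw [F_mul, Finset.sum_eq_add (k + 1, 0) (k, 1)]
  · rw [F_zero, F_one_va]
  · intro h
    rw [Prod.mk.injEq] at h
    omega
  · rintro ⟨i, j⟩ hij hne
    have hij' := HasAntidiagonal.mem_antidiagonal.1 hij
    simp only [ne_eq, Prod.mk.injEq] at hne hij'
    show F K i x * F K j (va K v) = 0
    rw [F_va K j (by omega), mul_zero]
  · intro h
    exact absurd (HasAntidiagonal.mem_antidiagonal.2 (by simp)) h
  · intro h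
    exact absurd (HasAntidiagonal.mem_antidiagonal.2 (by simp)) h

private lemma oc_Ez_va (k : ℤ) (x : T V K) (v : V) :
    Ez K k (x * va K v) = Ez K k x * va K v := by
  rcases lt_or_ge k 0 with h | h
  · rw [Ez_neg K h]; simp
  · obtain ⟨n, rfl⟩ := Int.eq_ofNat_of_zero_le h
    rw [Ez_nat, oc_E_mul_va]

private lemma oc_Fz_vb (k : ℤ) (x : T V K) (v : V) :
    Fz K k (x * vb K v) = Fz K k x * vb K v := by
  rcases lt_or_ge k 0 with h | h
  · rw [Fz_neg K h]; simp
  · obtain ⟨n, rfl⟩ := Int.eq_ofNat_of_zero_le h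
    rw [Fz_nat, oc_F_mul_vb]

private lemma oc_Ez_vb (k : ℤ) (x : T V K) (v : V) :
    Ez K k (x * vb K v) = Ez K k x * vb K v + Ez K (k - 1) x * va K v := by
  rcases lt_or_ge k 0 with h | h
  · rw [Ez_neg K h, Ez_neg K (by omega : k - 1 < 0)]; simp
  · obtain ⟨n, rfl⟩ := Int.eq_ofNat_of_zero_le h
    rcases n with _ | n
    · have h0 : (((0 : ℕ) : ℤ) - 1) < 0 := by norm_num
      rw [Ez_neg K h0, Ez_nat, E_zero, E_zero]
      simp
    · have h0 : (((n + 1 : ℕ) : ℤ) - 1) = (n : ℤ) := by push_cast; ring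
      rw [h0, Ez_nat, Ez_nat, oc_E_mul_vb]

private lemma oc_Fz_va (k : ℤ) (x : T V K) (v : V) :
    Fz K k (x * va K v) = Fz K k x * va K v + Fz K (k - 1) x * vb K v := by
  rcases lt_or_ge k 0 with h | h
  · rw [Fz_neg K h, Fz_neg K (by omega : k - 1 < 0)]; simp
  · obtain ⟨n, rfl⟩ := Int.eq_ofNat_of_zero_le h
    rcases n with _ | n
    · have h0 : (((0 : ℕ) : ℤ) - 1) < 0 := by norm_num
      rw [Fz_neg K h0, Fz_nat, F_zero, F_zero]
      simp
    · have h0 : (((n + 1 : ℕ) : ℤ) - 1) = (n : ℤ) := by push_cast; ring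
      rw [h0, Fz_nat, Fz_nat, oc_F_mul_va]

private lemma oc_pascal {M : Type*} [AddCommGroup M] (n : ℤ) (N : ℕ) (g : ℕ → M) (hg : g N = 0) :
    ∑ l ∈ range N, (Ring.choose (n + 1) l : ℤ) • g l =
      ∑ l ∈ range N, (Ring.choose n l : ℤ) • g l +
        ∑ l ∈ range N, (Ring.choose n l : ℤ) • g (l + 1) := by
  have h1 : ∑ l ∈ range N, (Ring.choose (n + 1) l : ℤ) • g l =
      ∑ l ∈ range (N + 1), (Ring.choose (n + 1) l : ℤ) • g l := by
    rw [Finset.sum_range_succ, hg, smul_zero, add_zero]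
  have h2 : ∑ l ∈ range N, (Ring.choose n l : ℤ) • g l =
      ∑ l ∈ range (N + 1), (Ring.choose n l : ℤ) • g l := by
    rw [Finset.sum_range_succ, hg, smul_zero, add_zero]
  rw [h1, h2, Finset.sum_range_succ', Finset.sum_range_succ', Ring.choose_zero_right,
    Ring.choose_zero_right]
  simp only [Ring.choose_succ_succ, add_smul, Finset.sum_add_distrib]
  abel

/-- the commutation rule with integer indices -/
private def Rl (x : T V K) (w : ℤ) : Prop :=
  ∀ (N : ℕ) (r q : ℤ), r < N → Ez K r (Fz K q x) =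
    ∑ l ∈ range N, (Ring.choose (w + r - q) l : ℤ) • Fz K (q - l) (Ez K (r - l) x)

private lemma oc_va {x : T V K} {w : ℤ} (h : Rl K x w) (v : V) : Rl K (x * va K v) (w + 1) := by
  intro N r q hr
  rw [oc_Fz_va, map_add, oc_Ez_va, oc_Ez_vb, h N r q hr, h N r (q - 1) hr,
    h N (r - 1) (q - 1) (by omega)]
  have hR : ∑ l ∈ range N, (Ring.choose (w + 1 + r - q) l : ℤ) •
        Fz K (q - l) (Ez K (r - l) (x * va K v)) =
      (∑ l ∈ range N, (Ring.choose (w + r - q + 1) l : ℤ) • Fz K (q - l) (Ez K (r - l) x)) *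
        va K v +
      (∑ l ∈ range N, (Ring.choose (w + r - (q - 1)) l : ℤ) • Fz K (q - 1 - l) (Ez K (r - l) x)) *
        vb K v := by
    rw [Finset.sum_mul, Finset.sum_mul, ← Finset.sum_add_distrib]
    refine Finset.sum_congr rfl fun l _ => ?_
    rw [oc_Ez_va, oc_Fz_va, smul_add, smul_mul_assoc, smul_mul_assoc]
    rw [show w + 1 + r - q = w + r - q + 1 by ring, show w + r - (q - 1) = w + r - q + 1 by ring,
      show q - (l : ℤ) - 1 = q - 1 - l by ring]
  rw [hR, oc_pascal (w + r - q) N (fun l => Fz K (q - l) (Ez K (r - l) x))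
    (by rw [Ez_neg K (by omega : r - (N : ℤ) < 0)]; simp)]
  have hS : ∑ l ∈ range N, (Ring.choose (w + r - q) l : ℤ) •
        Fz K (q - ((l + 1 : ℕ) : ℤ)) (Ez K (r - ((l + 1 : ℕ) : ℤ)) x) =
      ∑ l ∈ range N, (Ring.choose (w + (r - 1) - (q - 1)) l : ℤ) •
        Fz K (q - 1 - l) (Ez K (r - 1 - l) x) := by
    refine Finset.sum_congr rfl fun l _ => ?_
    rw [show w + (r - 1) - (q - 1) = w + r - q by ring,
      show q - ((l + 1 : ℕ) : ℤ) = q - 1 - l by push_cast; ring,
      show r - ((l + 1 : ℕ) : ℤ) = r - 1 - l by push_cast; ring]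
  rw [hS]
  ring

private lemma oc_vb {x : T V K} {w : ℤ} (h : Rl K x w) (v : V) : Rl K (x * vb K v) (w - 1) := by
  intro N r q hr
  rw [oc_Fz_vb, oc_Ez_vb, h N r q hr, h N (r - 1) q (by omega)]
  have hR : ∑ l ∈ range N, (Ring.choose (w - 1 + r - q) l : ℤ) •
        Fz K (q - l) (Ez K (r - l) (x * vb K v)) =
      (∑ l ∈ range N, (Ring.choose (w - 1 + r - q) l : ℤ) • Fz K (q - l) (Ez K (r - l) x)) *
        vb K v +
      (∑ l ∈ range N, (Ring.choose (w - 1 + r - q) l : ℤ) •
        Fz K (q - ((l + 1 : ℕ) : ℤ)) (Ez K (r - ((l + 1 : ℕ) : ℤ)) x)) * vb K v +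
      (∑ l ∈ range N, (Ring.choose (w + (r - 1) - q) l : ℤ) • Fz K (q - l) (Ez K (r - 1 - l) x)) *
        va K v := by
    rw [Finset.sum_mul, Finset.sum_mul, Finset.sum_mul, ← Finset.sum_add_distrib,
      ← Finset.sum_add_distrib]
    refine Finset.sum_congr rfl fun l _ => ?_
    rw [oc_Ez_vb, map_add, oc_Fz_vb, oc_Fz_va, smul_add, smul_add, smul_mul_assoc, smul_mul_assoc,
      smul_mul_assoc]
    rw [show w + (r - 1) - q = w - 1 + r - q by ring,
      show q - ((l + 1 : ℕ) : ℤ) = q - l - 1 by push_cast; ring,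
      show r - ((l + 1 : ℕ) : ℤ) = r - l - 1 by push_cast; ring,
      show r - 1 - (l : ℤ) = r - l - 1 by ring]
    abel
  rw [hR, ← add_mul, ← oc_pascal (w - 1 + r - q) N (fun l => Fz K (q - l) (Ez K (r - l) x))
    (by rw [Ez_neg K (by omega : r - (N : ℤ) < 0)]; simp)]
  rw [show w - 1 + r - q + 1 = w + r - q by ring]

private lemma oc_C (c : K) : Rl K (C c : T V K) 0 := by
  intro N r q hr
  have hE : ∀ k : ℤ, Ez K k (C c : T V K) = if k = 0 then C c else 0 := by
    intro k
    split_ifs with h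
    · subst h
      rw [show (0 : ℤ) = ((0 : ℕ) : ℤ) by rfl, Ez_nat, E_zero]
    · rcases lt_or_ge k 0 with h' | h'
      · rw [Ez_neg K h']; rfl
      · obtain ⟨n, rfl⟩ := Int.eq_ofNat_of_zero_le h'
        rw [Ez_nat, E_C K n (by omega)]
  have hF : ∀ k : ℤ, Fz K k (C c : T V K) = if k = 0 then C c else 0 := by
    intro k
    split_ifs with h
    · subst h
      rw [show (0 : ℤ) = ((0 : ℕ) : ℤ) by rfl, Fz_nat, F_zero]
    · rcases lt_or_ge k 0 with h' | h'
      · rw [Fz_neg K h']; rfl
      · obtain ⟨n, rfl⟩ := Int.eq_ofNat_of_zero_le h'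
        rw [Fz_nat, F_C K n (by omega)]
  have hG : ∀ a b : ℤ, Fz K a (Ez K b (C c : T V K)) = if a = 0 ∧ b = 0 then C c else 0 := by
    intro a b
    rw [hE]
    by_cases hb : b = 0
    · simp [hb, hF]
    · simp [hb]
  have hL : Ez K r (Fz K q (C c : T V K)) = if q = 0 ∧ r = 0 then C c else 0 := by
    rw [hF]
    by_cases hb : q = 0
    · simp [hb, hE]
    · simp [hb]
  rw [hL]
  simp only [hG]
  by_cases hrq : r = q
  · subst hrq
    by_cases h0 : 0 ≤ r
    · obtain ⟨n, rfl⟩ := Int.eq_ofNat_of_zero_le h0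
      rw [Finset.sum_eq_single n]
      · rcases n with _ | n
        · simp
        · have e1 : (0 : ℤ) + ((n + 1 : ℕ) : ℤ) - ((n + 1 : ℕ) : ℤ) = 0 := by ring
          rw [e1, Ring.choose_zero_succ, zero_smul]
          rw [if_neg]
          rintro ⟨h, -⟩
          push_cast at h
          omega
      · intro l _ hl
        rw [if_neg, smul_zero]
        rintro ⟨h, -⟩
        apply hl
        omega
      · intro h
        rw [mem_range] at h
        omega
    · rw [if_neg (by omega)]
      symm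
      refine Finset.sum_eq_zero fun l _ => ?_
      rw [if_neg, smul_zero]
      omega
  · rw [if_neg (by omega)]
    symm
    refine Finset.sum_eq_zero fun l _ => ?_
    rw [if_neg, smul_zero]
    omega

private lemma oc_mon (μ : V × Bool →₀ ℕ) : ∀ c : K, Rl K (monomial μ c : T V K) (wtm μ) := by
  induction μ using Finsupp.induction with
  | zero =>
    intro c
    have : wtm (0 : V × Bool →₀ ℕ) = 0 := by simp [wtm]
    rw [this]
    exact oc_C K c
  | single_add x b ν _ _ ih =>
    clear * - ih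
    induction b with
    | zero => simpa using ih
    | succ b ihb =>
      intro c
      have e1 : Finsupp.single x (b + 1) + ν = Finsupp.single x b + ν + Finsupp.single x 1 := by
        rw [Finsupp.single_add]; abel
      rw [e1, oc_wtm_add, oc_wtm_single]
      have e2 : (monomial (Finsupp.single x b + ν + Finsupp.single x 1) c : T V K) =
          monomial (Finsupp.single x b + ν) c * X x := by
        rw [X, monomial_mul, mul_one]
      rw [e2]
      obtain ⟨v, t⟩ := x
      cases t
      · exact oc_va K (ihb c) v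
      · exact oc_vb K (ihb c) v

lemma E_map {L : Type*} [CommRing L] (φ : K →+* L) (k : ℕ) (f : T V K) :
    MvPolynomial.map φ (E K k f) = E L k (MvPolynomial.map φ f) := by
  have h : (Polynomial.mapRingHom (MvPolynomial.map φ)).comp (Et K : T V K →ₐ[K] _).toRingHom =
      (Et L : T V L →ₐ[L] _).toRingHom.comp (MvPolynomial.map φ) := by
    apply MvPolynomial.ringHom_ext
    · intro c
      show Polynomial.map (MvPolynomial.map φ) (Et K (C c)) = Et L (MvPolynomial.map φ (C c))
      have h1 : Et K (C c : T V K) = Polynomial.C (C c) := (Et K).commutes c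
      have h2 : Et L (C (φ c) : T V L) = Polynomial.C (C (φ c)) := (Et L).commutes (φ c)
      rw [MvPolynomial.map_C, h1, h2, Polynomial.map_C, MvPolynomial.map_C]
    · rintro ⟨v, b⟩
      show Polynomial.map (MvPolynomial.map φ) (Et K (X (v, b))) =
        Et L (MvPolynomial.map φ (X (v, b)))
      rw [MvPolynomial.map_X]
      cases b
      · show Polynomial.map (MvPolynomial.map φ) (Et K (va K v)) = Et L (va L v)
        rw [Et_va, Et_va]
        simp [va]
      · show Polynomial.map (MvPolynomial.map φ) (Et K (vb K v)) = Et L (vb L v)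
        rw [Et_vb, Et_vb]
        simp [va, vb]
  have h' : Polynomial.map (MvPolynomial.map φ) (Et K f) = Et L (MvPolynomial.map φ f) :=
    congrArg (fun g : T V K →+* Polynomial (T V L) => g f) h
  rw [E_apply, E_apply, ← h', Polynomial.coeff_map]
lemma F_map {L : Type*} [CommRing L] (φ : K →+* L) (k : ℕ) (f : T V K) :
    MvPolynomial.map φ (F K k f) = F L k (MvPolynomial.map φ f) := by
  have h : (Polynomial.mapRingHom (MvPolynomial.map φ)).comp (Ft K : T V K →ₐ[K] _).toRingHom =
      (Ft L : T V L →ₐ[L] _).toRingHom.comp (MvPolynomial.map φ) := by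
    apply MvPolynomial.ringHom_ext
    · intro c
      show Polynomial.map (MvPolynomial.map φ) (Ft K (C c)) = Ft L (MvPolynomial.map φ (C c))
      have h1 : Ft K (C c : T V K) = Polynomial.C (C c) := (Ft K).commutes c
      have h2 : Ft L (C (φ c) : T V L) = Polynomial.C (C (φ c)) := (Ft L).commutes (φ c)
      rw [MvPolynomial.map_C, h1, h2, Polynomial.map_C, MvPolynomial.map_C]
    · rintro ⟨v, b⟩
      show Polynomial.map (MvPolynomial.map φ) (Ft K (X (v, b))) =
        Ft L (MvPolynomial.map φ (X (v, b)))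
      rw [MvPolynomial.map_X]
      cases b
      · show Polynomial.map (MvPolynomial.map φ) (Ft K (va K v)) = Ft L (va L v)
        rw [Ft_va, Ft_va]
        simp [va, vb]
      · show Polynomial.map (MvPolynomial.map φ) (Ft K (vb K v)) = Ft L (vb L v)
        rw [Ft_vb, Ft_vb]
        simp [vb]
  have h' : Polynomial.map (MvPolynomial.map φ) (Ft K f) = Ft L (MvPolynomial.map φ f) :=
    congrArg (fun g : T V K →+* Polynomial (T V L) => g f) h
  rw [F_apply, F_apply, ← h', Polynomial.coeff_map]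

private lemma oc_nat {x : T V K} {w : ℤ} (h : Rl K x w) (r q : ℕ) :
    E K r (F K q x) =
      ∑ l ∈ range (min r q + 1), (Ring.choose (w + r - q) l : ℤ) • F K (q - l) (E K (r - l) x) := by
  have h1 := h (r + 1) r q (by push_cast; omega)
  rw [Fz_nat, Ez_nat] at h1
  rw [h1]
  symm
  rw [← Finset.sum_subset (Finset.range_mono (by omega : min r q + 1 ≤ r + 1))]
  · refine Finset.sum_congr rfl fun l hl => ?_
    rw [mem_range] at hl
    rw [show ((q : ℤ) - l) = ((q - l : ℕ) : ℤ) by omega,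
      show ((r : ℤ) - l) = ((r - l : ℕ) : ℤ) by omega, Fz_nat, Ez_nat]
  · intro l _ hl
    rw [mem_range] at hl
    rcases lt_or_ge ((r : ℤ) - l) 0 with h2 | h2
    · rw [Ez_neg K h2]; simp
    · rw [Fz_neg K (by omega : (q : ℤ) - l < 0)]; simp

/-- (O2) -/
theorem E_F_comm {d : V →₀ ℕ} {w : ℤ} {x : T V K} (hx : x ∈ S K d w) (r q : ℕ) :
    E K r (F K q x) =
      ∑ l ∈ range (min r q + 1), (Ring.choose (w + r - q) l : ℤ) • F K (q - l) (E K (r - l) x) := by
  refine S_induction K (fun x => E K r (F K q x) =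
      ∑ l ∈ range (min r q + 1), (Ring.choose (w + r - q) l : ℤ) • F K (q - l) (E K (r - l) x))
      ?_ ?_ ?_ hx
  · simp
  · intro f g h1 h2
    simp only [map_add, smul_add, Finset.sum_add_distrib]
    rw [h1, h2]
  · intro μ c _ h2
    rw [← h2]
    exact oc_nat K (oc_mon K μ c) r q

lemma E_one_F {d : V →₀ ℕ} {w : ℤ} {z : T V K} (hz : z ∈ S K d w) (k : ℕ) (hk : 1 ≤ k) :
    E K 1 (F K k z) = F K k (E K 1 z) + (w - k + 1) • F K (k - 1) z := by
  rw [E_F_comm K hz 1 k, Nat.min_eq_left hk, Finset.sum_range_succ, Finset.sum_range_succ,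
    Finset.sum_range_zero, zero_add, Ring.choose_zero_right, Ring.choose_one_right, one_smul]
  simp only [Nat.sub_zero, Nat.sub_self, E_zero, Nat.cast_one]
  rw [show w + 1 - (k : ℤ) = w - k + 1 by ring]

/-- (O2), mirror image -/
theorem F_E_comm {d : V →₀ ℕ} {w : ℤ} {x : T V K} (hx : x ∈ S K d w) (r q : ℕ) :
    F K r (E K q x) =
      ∑ l ∈ range (min r q + 1), (Ring.choose (-w + r - q) l : ℤ) • E K (q - l) (F K (r - l) x) := by
  have h := E_F_comm K (sw_mem_S K hx) r q
  apply (sw K : T V K ≃ₐ[K] T V K).injective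
  rw [← E_sw, ← F_sw, h, map_sum]
  refine Finset.sum_congr rfl fun l _ => ?_
  rw [map_zsmul, ← F_sw, ← E_sw]

end FSig
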