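import Pool.Agent.Lib.FSig.OpsBasic

/-!
# MP_05de8f_ag : grading, first part (module OpsGr0)

`S d w` = span of the monomials with `μ(v,false) + μ(v,true) = d v` for all `v` and `#a - #b = w`
(`weightedHomogeneousSubmodule` for `gr x = (single x.1 1, ±1)`).

PROOFS.
* `mem_S_iff`: `weight gr μ = μ.sum (fun x n => n • gr x)` (`Finsupp.weight_apply`); first component evaluated at `v` is
  `μ(v,false)+μ(v,true)`, second component is `wtm μ`. (`Prod.ext_iff`, `Finsupp.ext_iff`; `Finsupp.sum` of pairs componentwise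
  through the additive maps `AddMonoidHom.fst/snd`, `Finsupp.applyAddHom v`; the sum over the support of `μ` of
  `n • single x.1 1` at `v` only sees `x = (v,false), (v,true)`; prove it by `Finsupp.induction_linear μ`.)
* `S_induction`: `f = ∑ μ ∈ f.support, monomial μ (coeff μ f)` (`MvPolynomial.as_sum`), `Finset.sum_induction`-like.
* `exists_sum_component`: `sum_weightedHomogeneousComponent`/finite support of the components, or `support`-image of the weights.
* `finite_S`: `S d w` is contained in the span of the finitely many monomials with `μ x ≤ d x.1` (or `Submodule.span` of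
  `monomial μ 1`, `μ` in the finite set of all `μ` with support in `d.support × Bool` and entries `≤ d`): `S d w` is finitely generated by the
  monomials `monomial μ 1` in it (`S_induction`), and there are finitely many of them.
* products, powers: `IsWeightedHomogeneous.mul`, `pow`.
-/

namespace FSig

open MvPolynomial Finset

variable {V : Type*} (K : Type*) [CommRing K]

/-- the weight of a monomial -/
noncomputable def wtm (μ : V × Bool →₀ ℕ) : ℤ := μ.sum fun x n => if x.2 then -(n : ℤ) else (n : ℤ)

private lemma wtm_add (μ ν : V × Bool →₀ ℕ) : wtm (μ + ν) = wtm μ + wtm ν := by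
  unfold wtm
  classical
  rw [Finsupp.sum_add_index']
  · intro x
    split_ifs <;> simp
  · intro x m n
    split_ifs
    · push_cast
      ring
    · push_cast
      ring

private lemma weight_gr_snd (μ : V × Bool →₀ ℕ) : (Finsupp.weight (gr (V := V)) μ).2 = wtm μ := by
  induction μ using Finsupp.induction_linear with
  | zero => simp [wtm]
  | add f g hf hg => rw [map_add, wtm_add, Prod.snd_add, hf, hg]
  | single x n =>
    rw [Finsupp.weight_apply, Finsupp.sum_single_index (h := fun i c => c • gr i) (zero_smul ℕ _)]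
    unfold wtm
    rw [Finsupp.sum_single_index (by split_ifs <;> simp)]
    unfold gr
    simp only [Prod.smul_snd]
    split_ifs
    · simp
    · simp

private lemma weight_gr_fst (μ : V × Bool →₀ ℕ) (v : V) :
    (Finsupp.weight (gr (V := V)) μ).1 v = μ (v, false) + μ (v, true) := by
  induction μ using Finsupp.induction_linear with
  | zero => simp
  | add f g hf hg =>
    rw [map_add, Prod.fst_add, Finsupp.add_apply, hf, hg, Finsupp.add_apply, Finsupp.add_apply]
    ring
  | single x n =>
    rw [Finsupp.weight_apply, Finsupp.sum_single_index (h := fun i c => c • gr i) (zero_smul ℕ _)]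
    unfold gr
    simp only [Prod.smul_fst, Finsupp.smul_apply, smul_eq_mul]
    obtain ⟨u, b⟩ := x
    classical
    cases b <;> by_cases h : u = v <;> simp [Finsupp.single_apply, h]

private lemma weight_gr_eq (μ : V × Bool →₀ ℕ) (d : V →₀ ℕ) (w : ℤ) :
    Finsupp.weight (gr (V := V)) μ = (d, w) ↔
      (∀ v, μ (v, false) + μ (v, true) = d v) ∧ wtm μ = w := by
  rw [Prod.ext_iff, Finsupp.ext_iff]
  simp only [weight_gr_fst, weight_gr_snd]

lemma mem_S_iff {d : V →₀ ℕ} {w : ℤ} {f : T V K} :
    f ∈ S K d w ↔ ∀ μ, coeff μ f ≠ 0 → (∀ v, μ (v, false) + μ (v, true) = d v) ∧ wtm μ = w := by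
  unfold S
  rw [mem_weightedHomogeneousSubmodule]
  unfold IsWeightedHomogeneous
  refine ⟨fun h μ hμ => (weight_gr_eq μ d w).1 (h hμ), fun h μ hμ => (weight_gr_eq μ d w).2 (h μ hμ)⟩

lemma monomial_mem_S {d : V →₀ ℕ} {w : ℤ} {μ : V × Bool →₀ ℕ} (c : K)
    (h1 : ∀ v, μ (v, false) + μ (v, true) = d v) (h2 : wtm μ = w) : monomial μ c ∈ S K d w := by
  unfold S
  rw [mem_weightedHomogeneousSubmodule]
  exact isWeightedHomogeneous_monomial _ _ _ ((weight_gr_eq μ d w).2 ⟨h1, h2⟩)

/-- a linear statement on `S d w` only has to be checked on monomials -/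
lemma S_induction {d : V →₀ ℕ} {w : ℤ} (P : T V K → Prop) (h0 : P 0)
    (hadd : ∀ f g, P f → P g → P (f + g))
    (hmon : ∀ (μ : V × Bool →₀ ℕ) (c : K), (∀ v, μ (v, false) + μ (v, true) = d v) → wtm μ = w →
      P (monomial μ c)) {f : T V K} (hf : f ∈ S K d w) : P f := by
  rw [f.as_sum]
  refine Finset.sum_induction _ P hadd h0 ?_
  intro μ hμ
  rw [mem_support_iff] at hμ
  obtain ⟨h1, h2⟩ := (mem_S_iff K).1 hf μ hμ
  exact hmon μ _ h1 h2

/-- every `f` is a finite sum of its components -/
lemma exists_sum_component (f : T V K) : ∃ s : Finset ((V →₀ ℕ) × ℤ),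
    f = ∑ i ∈ s, weightedHomogeneousComponent (gr (V := V)) i f := by
  have hfin := weightedHomogeneousComponent_finsupp (w := gr (V := V)) f
  refine ⟨hfin.toFinset, ?_⟩
  rw [← finsum_eq_sum _ hfin]
  exact (finsum_weightedHomogeneousComponent (gr (V := V)) f).symm

lemma component_mem (f : T V K) (d : V →₀ ℕ) (w : ℤ) :
    weightedHomogeneousComponent (gr (V := V)) (d, w) f ∈ S K d w := by
  unfold S
  rw [mem_weightedHomogeneousSubmodule]
  exact weightedHomogeneousComponent_isWeightedHomogeneous _ _

/-- `S d w` is finite-dimensional (finitely many monomials) -/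
lemma finite_S (d : V →₀ ℕ) (w : ℤ) : Module.Finite K (S K d w) := by
  classical
  let M : V × Bool →₀ ℕ := Finsupp.onFinset (d.support ×ˢ (Finset.univ : Finset Bool))
    (fun x => d x.1) (by
      intro x hx
      rw [Finset.mem_product]
      exact ⟨Finsupp.mem_support_iff.2 hx, Finset.mem_univ _⟩)
  let A : Set (V × Bool →₀ ℕ) := {μ | (∀ v, μ (v, false) + μ (v, true) = d v) ∧ wtm μ = w}
  have hA : A.Finite := by
    refine (Set.finite_Iic M).subset ?_
    rintro μ ⟨h1, -⟩
    rw [Set.mem_Iic]
    intro x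
    obtain ⟨v, b⟩ := x
    have h2 := h1 v
    change μ (v, b) ≤ d v
    cases b <;> omega
  rw [Module.Finite.iff_fg, Submodule.fg_def]
  refine ⟨(fun μ => (monomial μ (1 : K) : T V K)) '' A, hA.image _, ?_⟩
  apply le_antisymm
  · rw [Submodule.span_le]
    rintro _ ⟨μ, ⟨h1, h2⟩, rfl⟩
    exact monomial_mem_S K 1 h1 h2
  · intro f hf
    refine S_induction K (fun f => f ∈ Submodule.span K ((fun μ => (monomial μ (1 : K) : T V K)) '' A))
      (Submodule.zero_mem _) (fun f g => Submodule.add_mem _) ?_ hf
    intro μ c h1 h2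
    have h3 : (monomial μ c : T V K) = c • monomial μ (1 : K) := by
      rw [smul_monomial, smul_eq_mul, mul_one]
    rw [h3]
    exact Submodule.smul_mem _ _ (Submodule.subset_span ⟨μ, ⟨h1, h2⟩, rfl⟩)

lemma va_mem_S (v : V) : va K v ∈ S K (Finsupp.single v 1) 1 := by
  unfold S
  rw [mem_weightedHomogeneousSubmodule]
  exact isWeightedHomogeneous_X K (gr (V := V)) (v, false)
lemma vb_mem_S (v : V) : vb K v ∈ S K (Finsupp.single v 1) (-1) := by
  unfold S
  rw [mem_weightedHomogeneousSubmodule]
  exact isWeightedHomogeneous_X K (gr (V := V)) (v, true)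

lemma mul_mem_S {d e : V →₀ ℕ} {w z : ℤ} {f g : T V K} (hf : f ∈ S K d w) (hg : g ∈ S K e z) :
    f * g ∈ S K (d + e) (w + z) := by
  unfold S at hf hg ⊢
  rw [mem_weightedHomogeneousSubmodule] at hf hg ⊢
  exact IsWeightedHomogeneous.mul hf hg
lemma one_mem_S : (1 : T V K) ∈ S K 0 0 := by
  unfold S
  rw [mem_weightedHomogeneousSubmodule]
  exact isWeightedHomogeneous_one K (gr (V := V))
lemma pow_mem_S {d : V →₀ ℕ} {w : ℤ} {f : T V K} (hf : f ∈ S K d w) (n : ℕ) :
    f ^ n ∈ S K (n • d) (n * w) := by
  unfold S at hf ⊢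
  rw [mem_weightedHomogeneousSubmodule] at hf ⊢
  have h := IsWeightedHomogeneous.pow hf n
  have h2 : n • ((d, w) : (V →₀ ℕ) × ℤ) = (n • d, (n : ℤ) * w) := by
    rw [Prod.smul_mk, nsmul_eq_mul]
  rwa [h2] at h

end FSig
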