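import Pool.Agent.Lib.FSig.OpsComm

/-!
# MP_05de8f_ag : characteristic `p`: `p`-th powers and digits (module OpsPow)

`K` a field of characteristic `p`. PROOFS.
* `E_pow`: `Et (f^p) = (Et f)^p = (∑ t^k E^(k) f)^p = ∑ t^(pk) (E^(k) f)^p` (for `g ∈ T[t]`, `g^p = expand p (map frobenius g)`:
  `Polynomial.expand_char`/`Polynomial.map_frobenius_expand`), compare coefficients (`Polynomial.coeff_expand`).
* `E_pow_mul`: from `E_mul` and `E_pow`: only the terms `ij.1 = p i` of the antidiagonal survive.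
* `E_of_E_one`: `k! E^(k) = E^k` (`factorial_smul_E`) and `k!` is a unit of `K` for `k < p`.
* `E_digit`: `E^(k0) E^(p k1) = binom(k0 + p k1, k0) E^(k0 + p k1)` (`E_comp`), `binom(k0+p k1, k0) = 1` mod `p` for `k0 < p` (Lucas:
  `Choose.choose_modEq_choose_mod_mul_choose_div_nat`).
* `E_p_pow`: induction, `E^(p) E^(pj) = binom(p(j+1), p) E^(p(j+1))`, `binom(p(j+1), p) = j+1` mod `p` (Lucas).
* `choose_eq_zero_of_dvd`: `l! binom(w,l) = w (w-1) ⋯ (w-l+1)` (`Ring.descPochhammer_eq_factorial_smul_choose`), divisible by `w`, hence `0` in `K`; `l!` is a unit.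
  (Or: `w = p k`; `Ring.choose (p k) l` for `k : ℤ`.)
* the `F`-versions: `sw` (`F_sw`, `E_sw`) or repeat.
-/

namespace FSig

open MvPolynomial Finset

variable {V : Type*} (K : Type*) [Field K] (p : ℕ) [Fact p.Prime] [CharP K p]

private lemma opow_coeff {A : Type*} [CommRing A] (q : ℕ) [Fact q.Prime] [CharP A q]
    (g : Polynomial A) (k : ℕ) :
    (g ^ q).coeff k = if q ∣ k then (g.coeff (k / q)) ^ q else 0 := by
  have hq : 0 < q := (Fact.out : q.Prime).pos
  have : ExpChar A q := ExpChar.prime (Fact.out : q.Prime)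
  rw [← Polynomial.map_frobenius_expand, Polynomial.coeff_map, Polynomial.coeff_expand hq]
  split_ifs with h
  · rw [frobenius_def]
  · rw [map_zero]

lemma E_pow (k : ℕ) (f : T V K) : E K k (f ^ p) = if p ∣ k then (E K (k / p) f) ^ p else 0 := by
  rw [E_apply, map_pow, opow_coeff p (Et K f) k]
  rfl
lemma F_pow (k : ℕ) (f : T V K) : F K k (f ^ p) = if p ∣ k then (F K (k / p) f) ^ p else 0 := by
  rw [F_apply, map_pow, opow_coeff p (Ft K f) k]
  rfl

private lemma opow_sum {A : Type*} [CommRing A] {q : ℕ} (hq : 0 < q) (k : ℕ) (g h : ℕ → A) :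
    ∑ ij ∈ antidiagonal k, (if q ∣ ij.1 then g (ij.1 / q) else 0) * h ij.2 =
      ∑ i ∈ range (k / q + 1), g i * h (k - q * i) := by
  rw [Finset.Nat.sum_antidiagonal_eq_sum_range_succ
    (fun a b => (if q ∣ a then g (a / q) else 0) * h b) k]
  symm
  refine Finset.sum_bij_ne_zero (fun i _ _ => q * i) ?_ ?_ ?_ ?_
  · intro i hi _
    rw [mem_range] at hi ⊢
    have h1 : q * i ≤ k := by
      calc q * i ≤ q * (k / q) := Nat.mul_le_mul_left q (Nat.lt_succ_iff.mp hi)
        _ ≤ k := Nat.mul_div_le k q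
    exact Nat.lt_succ_of_le h1
  · intro i _ _ j _ _ hij
    exact Nat.eq_of_mul_eq_mul_left hq hij
  · intro j hj hne
    by_cases hd : q ∣ j
    · obtain ⟨i, rfl⟩ := hd
      rw [if_pos (dvd_mul_right q i), Nat.mul_div_cancel_left i hq] at hne
      refine ⟨i, ?_, hne, rfl⟩
      rw [mem_range] at hj ⊢
      rw [Nat.lt_succ_iff, Nat.le_div_iff_mul_le hq, mul_comm]
      exact Nat.lt_succ_iff.mp hj
    · rw [if_neg hd, zero_mul] at hne
      exact absurd rfl hne
  · intro i _ _
    rw [if_pos (dvd_mul_right q i), Nat.mul_div_cancel_left i hq]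

lemma E_pow_mul (k : ℕ) (r u : T V K) :
    E K k (r ^ p * u) = ∑ i ∈ range (k / p + 1), (E K i r) ^ p * E K (k - p * i) u := by
  rw [E_mul]
  simp only [E_pow K p]
  exact opow_sum (Fact.out : p.Prime).pos k (fun i => (E K i r) ^ p) (fun j => E K j u)
lemma F_pow_mul (k : ℕ) (r u : T V K) :
    F K k (r ^ p * u) = ∑ i ∈ range (k / p + 1), (F K i r) ^ p * F K (k - p * i) u := by
  rw [F_mul]
  simp only [F_pow K p]
  exact opow_sum (Fact.out : p.Prime).pos k (fun i => (F K i r) ^ p) (fun j => F K j u)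

lemma E_pow_mul_of_lt {k : ℕ} (hk : k < p) (r u : T V K) : E K k (r ^ p * u) = r ^ p * E K k u := by
  rw [E_pow_mul, Nat.div_eq_of_lt hk, zero_add, sum_range_one, E_zero, mul_zero, Nat.sub_zero]
lemma F_pow_mul_of_lt {k : ℕ} (hk : k < p) (r u : T V K) : F K k (r ^ p * u) = r ^ p * F K k u := by
  rw [F_pow_mul, Nat.div_eq_of_lt hk, zero_add, sum_range_one, F_zero, mul_zero, Nat.sub_zero]

include p in
private lemma opow_factorial {k : ℕ} (hk : k < p) : (k.factorial : K) ≠ 0 := by
  rw [Ne, CharP.cast_eq_zero_iff K p, (Fact.out : p.Prime).dvd_factorial]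
  exact not_le.mpr hk

include p in
private lemma opow_smul {k : ℕ} (hk : k < p) {y : T V K} (h : k.factorial • y = 0) : y = 0 := by
  rw [← Nat.cast_smul_eq_nsmul K] at h
  exact (smul_eq_zero.mp h).resolve_left (opow_factorial K p hk)

lemma E_of_E_one {x : T V K} (hx : E K 1 x = 0) {k : ℕ} (h1 : 1 ≤ k) (hk : k < p) : E K k x = 0 := by
  refine opow_smul K p hk ?_
  obtain ⟨j, rfl⟩ := Nat.exists_eq_add_of_le' h1
  rw [factorial_smul_E, pow_succ, Module.End.mul_apply, hx, map_zero]
lemma F_of_F_one {x : T V K} (hx : F K 1 x = 0) {k : ℕ} (h1 : 1 ≤ k) (hk : k < p) : F K k x = 0 := by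
  refine opow_smul K p hk ?_
  obtain ⟨j, rfl⟩ := Nat.exists_eq_add_of_le' h1
  rw [factorial_smul_F, pow_succ, Module.End.mul_apply, hx, map_zero]

include p in
private lemma opow_choose_one {k0 k1 : ℕ} (hk : k0 < p) :
    (((k0 + p * k1).choose k0 : ℕ) : K) = 1 := by
  have hp : 0 < p := (Fact.out : p.Prime).pos
  have h := Choose.choose_modEq_choose_mod_mul_choose_div_nat (n := k0 + p * k1) (k := k0) (p := p)
  rw [Nat.add_mul_mod_self_left, Nat.mod_eq_of_lt hk, Nat.add_mul_div_left _ _ hp,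
    Nat.div_eq_of_lt hk, Nat.choose_self, Nat.choose_zero_right, one_mul] at h
  have h2 := (CharP.natCast_eq_natCast K p).mpr h
  rw [h2, Nat.cast_one]

include p in
private lemma opow_choose_succ (j : ℕ) : (((p + p * j).choose p : ℕ) : K) = (j + 1 : ℕ) := by
  have hp : 0 < p := (Fact.out : p.Prime).pos
  have h := Choose.choose_modEq_choose_mod_mul_choose_div_nat (n := p + p * j) (k := p) (p := p)
  rw [Nat.add_mul_mod_self_left, Nat.mod_self, Nat.add_mul_div_left _ _ hp,
    Nat.div_self hp, Nat.choose_self, Nat.choose_one_right, one_mul, add_comm 1 j] at h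
  exact (CharP.natCast_eq_natCast K p).mpr h

lemma E_digit {k0 k1 : ℕ} (hk : k0 < p) (x : T V K) :
    E K (k0 + p * k1) x = E K k0 (E K (p * k1) x) := by
  rw [E_comp, ← Nat.cast_smul_eq_nsmul K, opow_choose_one K p hk, one_smul]
lemma F_digit {k0 k1 : ℕ} (hk : k0 < p) (x : T V K) :
    F K (k0 + p * k1) x = F K k0 (F K (p * k1) x) := by
  rw [F_comp, ← Nat.cast_smul_eq_nsmul K, opow_choose_one K p hk, one_smul]

lemma E_p_pow (j : ℕ) (x : T V K) : ((E K p) ^ j) x = (j.factorial : K) • E K (p * j) x := by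
  induction j with
  | zero => rw [pow_zero, Module.End.one_apply, mul_zero, E_zero, Nat.factorial_zero, Nat.cast_one,
      one_smul]
  | succ j ih =>
    rw [pow_succ', Module.End.mul_apply, ih, map_smul, E_comp, ← Nat.cast_smul_eq_nsmul K,
      opow_choose_succ K p, smul_smul, Nat.factorial_succ, Nat.cast_mul, mul_comm (j.factorial : K),
      Nat.mul_succ, add_comm p]
lemma F_p_pow (j : ℕ) (x : T V K) : ((F K p) ^ j) x = (j.factorial : K) • F K (p * j) x := by
  induction j with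
  | zero => rw [pow_zero, Module.End.one_apply, mul_zero, F_zero, Nat.factorial_zero, Nat.cast_one,
      one_smul]
  | succ j ih =>
    rw [pow_succ', Module.End.mul_apply, ih, map_smul, F_comp, ← Nat.cast_smul_eq_nsmul K,
      opow_choose_succ K p, smul_smul, Nat.factorial_succ, Nat.cast_mul, mul_comm (j.factorial : K),
      Nat.mul_succ, add_comm p]

lemma choose_eq_zero_of_dvd {w : ℤ} (hw : (p : ℤ) ∣ w) {l : ℕ} (h1 : 1 ≤ l) (hl : l < p) :
    ((Ring.choose w l : ℤ) : K) = 0 := by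
  obtain ⟨j, rfl⟩ := Nat.exists_eq_add_of_le' h1
  rw [CharP.intCast_eq_zero_iff K p]
  have h2 := Ring.descPochhammer_eq_factorial_smul_choose w (j + 1)
  rw [← Polynomial.eval_eq_smeval, descPochhammer_succ_left, Polynomial.eval_mul,
    Polynomial.eval_X, nsmul_eq_mul] at h2
  have h3 : (p : ℤ) ∣ ((j + 1).factorial : ℤ) * Ring.choose w (j + 1) := by
    rw [← h2]
    exact dvd_mul_of_dvd_left hw _
  have hpZ : Prime (p : ℤ) := Nat.prime_iff_prime_int.mp (Fact.out : p.Prime)
  rcases hpZ.dvd_or_dvd h3 with h4 | h4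
  · exfalso
    rw [Int.natCast_dvd_natCast, (Fact.out : p.Prime).dvd_factorial] at h4
    omega
  · exact h4

end FSig
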