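import Mathlib

/-!
# MP_05de8f_ag : the abstract projector (O4) (module ProjAbs)

PROOFS.
* ABSTRACT PROJECTOR. `M` a `K`-vector space, `e f : M →ₗ M`, `X : ℤ → Submodule K M`, `e (X j) ⊆ X (j+1)`, `f (X j) ⊆ X (j-1)`,
  `e (f x) - f (e x) = (2 j) • x` for `x ∈ X j`. `prj e f J = ∏_{j=1}^{J} (1 - (j(j+1))⁻¹ f∘e)` (recursion `prj (J+1) x = prj J (x - ((J+1)(J+2))⁻¹ f (e x))`).
  `e_prj`: `x ∈ X 0`, `e^(J+1) x = 0`, `j(j+1) ≠ 0` in `K` for `1 ≤ j ≤ J` ⟹ `e (prj J x) = 0`; `f^(J+1) x = 0` ⟹ `f (prj J x) = 0`.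
  Proof. For `x ∈ X 0`: `e (prj J x) = c_J f^J (e^(J+1) x)`, `c_J = ∏_{j≤J} (-1/(j(j+1)))`. Induction on `J`, for all `x ∈ X 0`: `J = 0` clear.
  `e (prj (J+1) x) = e (prj J y)`, `y = x - ((J+1)(J+2))⁻¹ f e x ∈ X 0`, `= c_J f^J e^(J+1) y`, and
  `e^(J+1) f (e x) = f e^(J+2) x + (J+1)(J+2) e^(J+1) x`: general rule for `z ∈ X 1` (here `z = e x`):
  `e^k f z = f e^k z + k (k+1) e^(k-1) z` (induction on `k`: `e^(k+1) f z = e (f e^k z) + k(k+1) e^k z = f e^(k+1) z + 2(k+1) e^k z + k(k+1) e^k z`,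
  as `e^k z ∈ X (k+1)`). So `e^(J+1) y = -((J+1)(J+2))⁻¹ f e^(J+2) x`. The statement for `f`: `prj J` is also the product of the `1 - (j(j+1))⁻¹ e∘f` on
  `X 0` because `e f = f e` on `X 0`; then exchange `e` and `f`, `X j` and `X (-j)`, signs: `f e - e f = -2j` on `X j`, i.e. for
  `X' j = X (-j)`, `e' = f`, `f' = e`: `e' f' - f' e' = f e - e f = -2(-j) = 2j` on `X' j = X (-j)`.
* `prj_of_e_eq_zero`: `e x = 0 ⟹ prj J x = x`. `prj_comm`: a map commuting with `e` and `f` commutes with `prj`.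
  `prj_sub_mem`: `prj J x - x = f (e (y))` for some `y` in the span of the `(f e)^i x`; stated as: if `Y` is a submodule with `f (e y) ∈ Y` for all `y`
  then `prj J x - x ∈ Y`.
-/

/-!
# MP_05de8f_ag : the abstract projector (O4) (module ProjAbs)

PROOFS.
* ABSTRACT PROJECTOR. `M` a `K`-vector space, `e f : M →ₗ M`, `X : ℤ → Submodule K M`, `e (X j) ⊆ X (j+1)`, `f (X j) ⊆ X (j-1)`,
  `e (f x) - f (e x) = (2 j) • x` for `x ∈ X j`. `prj e f J = ∏_{j=1}^{J} (1 - (j(j+1))⁻¹ f∘e)` (recursion `prj (J+1) x = prj J (x - ((J+1)(J+2))⁻¹ f (e x))`).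
  `e_prj`: `x ∈ X 0`, `e^(J+1) x = 0`, `j(j+1) ≠ 0` in `K` for `1 ≤ j ≤ J` ⟹ `e (prj J x) = 0`; `f^(J+1) x = 0` ⟹ `f (prj J x) = 0`.
  Proof. For `x ∈ X 0`: `e (prj J x) = c_J f^J (e^(J+1) x)`, `c_J = ∏_{j≤J} (-1/(j(j+1)))`. Induction on `J`, for all `x ∈ X 0`: `J = 0` clear.
  `e (prj (J+1) x) = e (prj J y)`, `y = x - ((J+1)(J+2))⁻¹ f e x ∈ X 0`, `= c_J f^J e^(J+1) y`, and
  `e^(J+1) f (e x) = f e^(J+2) x + (J+1)(J+2) e^(J+1) x`: general rule for `z ∈ X 1` (here `z = e x`):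
  `e^k f z = f e^k z + k (k+1) e^(k-1) z` (induction on `k`: `e^(k+1) f z = e (f e^k z) + k(k+1) e^k z = f e^(k+1) z + 2(k+1) e^k z + k(k+1) e^k z`,
  as `e^k z ∈ X (k+1)`). So `e^(J+1) y = -((J+1)(J+2))⁻¹ f e^(J+2) x`. The statement for `f`: `prj J` is also the product of the `1 - (j(j+1))⁻¹ e∘f` on
  `X 0` because `e f = f e` on `X 0`; then exchange `e` and `f`, `X j` and `X (-j)`, signs: `f e - e f = -2j` on `X j`, i.e. for
  `X' j = X (-j)`, `e' = f`, `f' = e`: `e' f' - f' e' = f e - e f = -2(-j) = 2j` on `X' j = X (-j)`.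
* `prj_of_e_eq_zero`: `e x = 0 ⟹ prj J x = x`. `prj_comm`: a map commuting with `e` and `f` commutes with `prj`.
  `prj_sub_mem`: `prj J x - x = f (e (y))` for some `y` in the span of the `(f e)^i x`; stated as: if `Y` is a submodule with `f (e y) ∈ Y` for all `y`
  then `prj J x - x ∈ Y`.
-/

namespace FSig

open Finset

section abstract_projector

variable {K : Type*} [Field K] {M : Type*} [AddCommGroup M] [Module K M]

/-- `prj e f J = ∏_{j=1}^{J} (1 - (j(j+1))⁻¹ f∘e)` -/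
noncomputable def prj (e f : M →ₗ[K] M) : ℕ → M →ₗ[K] M
  | 0 => LinearMap.id
  | (J + 1) => (prj e f J).comp (LinearMap.id - ((((J + 1) * (J + 2) : ℕ) : K))⁻¹ • f.comp e)

private theorem prj_succ_apply (e f : M →ₗ[K] M) (J : ℕ) (x : M) :
    prj e f (J + 1) x = prj e f J (x - ((((J + 1) * (J + 2) : ℕ) : K))⁻¹ • f (e x)) := rfl

private theorem ProjAbs_mem (e : M →ₗ[K] M) (X : ℤ → Submodule K M)
    (he : ∀ j, ∀ x ∈ X j, e x ∈ X (j + 1)) {z : M} (hz : z ∈ X 1) (k : ℕ) :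
    (e ^ k) z ∈ X (k + 1) := by
  induction k with
  | zero =>
    simpa using hz
  | succ k ih =>
    rw [pow_succ', Module.End.mul_apply]
    have h := he _ _ ih
    push_cast
    exact h

private theorem ProjAbs_rule (e f : M →ₗ[K] M) (X : ℤ → Submodule K M)
    (he : ∀ j, ∀ x ∈ X j, e x ∈ X (j + 1))
    (hc : ∀ j, ∀ x ∈ X j, e (f x) - f (e x) = (2 * j : ℤ) • x) {z : M} (hz : z ∈ X 1) (k : ℕ) :
    (e ^ (k + 1)) (f z) = f ((e ^ (k + 1)) z) + (((k + 1) * (k + 2) : ℕ) : K) • (e ^ k) z := by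
  induction k with
  | zero =>
    have h := hc 1 z hz
    rw [sub_eq_iff_eq_add] at h
    rw [zero_add, pow_one, pow_zero, h, Module.End.one_apply, add_comm]
    congr 1
    rw [← Int.cast_smul_eq_zsmul K]
    norm_num
  | succ k ih =>
    have h1 := ProjAbs_mem e X he hz (k + 1)
    have h2 := hc _ _ h1
    rw [sub_eq_iff_eq_add] at h2
    have h3 : e ((e ^ k) z) = (e ^ (k + 1)) z := by
      rw [pow_succ' e k, Module.End.mul_apply]
    have h4 : (((k + 1 + 1) * (k + 1 + 2) : ℕ) : K) =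
        ((2 * (((k + 1 : ℕ) : ℤ) + 1) : ℤ) : K) + (((k + 1) * (k + 2) : ℕ) : K) := by
      push_cast
      ring
    rw [pow_succ' e (k + 1), Module.End.mul_apply, ih, map_add, h2, map_smul, h3,
      Module.End.mul_apply, ← Int.cast_smul_eq_zsmul K, h4, add_smul]
    abel

private theorem ProjAbs_key (e f : M →ₗ[K] M) (X : ℤ → Submodule K M)
    (he : ∀ j, ∀ x ∈ X j, e x ∈ X (j + 1))
    (hf : ∀ j, ∀ x ∈ X j, f x ∈ X (j - 1))
    (hc : ∀ j, ∀ x ∈ X j, e (f x) - f (e x) = (2 * j : ℤ) • x) (J : ℕ)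
    (hJ : ∀ j : ℕ, 1 ≤ j → j ≤ J → ((j * (j + 1) : ℕ) : K) ≠ 0) :
    ∃ c : K, ∀ x ∈ X 0, e (prj e f J x) = c • (f ^ J) ((e ^ (J + 1)) x) := by
  induction J with
  | zero =>
    refine ⟨1, fun x _ => ?_⟩
    rw [one_smul, zero_add, pow_one, pow_zero]
    rfl
  | succ J ih =>
    obtain ⟨c, hc'⟩ := ih (fun j h1 h2 => hJ j h1 (by omega))
    have ha := hJ (J + 1) (by omega) le_rfl
    obtain ⟨a, haeq⟩ : ∃ a : K, a = (((J + 1) * (J + 2) : ℕ) : K) := ⟨_, rfl⟩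
    have ha' : a ≠ 0 := by
      rw [haeq]
      exact ha
    refine ⟨-(c * a⁻¹), fun x hx => ?_⟩
    have hex : e x ∈ X 1 := by
      have := he 0 x hx
      rwa [zero_add] at this
    have hfex : f (e x) ∈ X 0 := by
      have := hf 1 _ hex
      rwa [sub_self] at this
    rw [prj_succ_apply, ← haeq]
    have hy : x - a⁻¹ • f (e x) ∈ X 0 := (X 0).sub_mem hx ((X 0).smul_mem _ hfex)
    rw [hc' _ hy, map_sub, map_smul, ProjAbs_rule e f X he hc hex J, ← haeq, smul_add,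
      smul_smul, inv_mul_cancel₀ ha', one_smul]
    have h1 : (e ^ (J + 1)) x = (e ^ J) (e x) := by
      rw [pow_succ, Module.End.mul_apply]
    have h2 : (e ^ (J + 1 + 1)) x = (e ^ (J + 1)) (e x) := by
      rw [pow_succ e (J + 1), Module.End.mul_apply]
    rw [h1, h2, sub_add_cancel_right, map_neg, map_smul, smul_neg, smul_smul, ← neg_smul,
      ← Module.End.mul_apply (f ^ J) f, ← pow_succ]

theorem e_prj (e f : M →ₗ[K] M) (X : ℤ → Submodule K M) (he : ∀ j, ∀ x ∈ X j, e x ∈ X (j + 1))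
    (hf : ∀ j, ∀ x ∈ X j, f x ∈ X (j - 1))
    (hc : ∀ j, ∀ x ∈ X j, e (f x) - f (e x) = (2 * j : ℤ) • x) (J : ℕ)
    (hJ : ∀ j : ℕ, 1 ≤ j → j ≤ J → ((j * (j + 1) : ℕ) : K) ≠ 0) {x : M} (hx : x ∈ X 0)
    (h0 : (e ^ (J + 1)) x = 0) : e (prj e f J x) = 0 := by
  obtain ⟨c, h⟩ := ProjAbs_key e f X he hf hc J hJ
  rw [h x hx, h0, map_zero, smul_zero]

private theorem ProjAbs_swap (e f : M →ₗ[K] M) (X : ℤ → Submodule K M)
    (he : ∀ j, ∀ x ∈ X j, e x ∈ X (j + 1))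
    (hf : ∀ j, ∀ x ∈ X j, f x ∈ X (j - 1))
    (hc : ∀ j, ∀ x ∈ X j, e (f x) - f (e x) = (2 * j : ℤ) • x) (J : ℕ) :
    ∀ x ∈ X 0, prj e f J x = prj f e J x := by
  induction J with
  | zero => exact fun x _ => rfl
  | succ J ih =>
    intro x hx
    have hex : e x ∈ X 1 := by
      have := he 0 x hx
      rwa [zero_add] at this
    have hfex : f (e x) ∈ X 0 := by
      have := hf 1 _ hex
      rwa [sub_self] at this
    have h1 : e (f x) = f (e x) := by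
      have := hc 0 x hx
      rw [mul_zero, zero_smul, sub_eq_zero] at this
      exact this
    rw [prj_succ_apply, prj_succ_apply, h1]
    exact ih _ ((X 0).sub_mem hx ((X 0).smul_mem _ hfex))

theorem f_prj (e f : M →ₗ[K] M) (X : ℤ → Submodule K M) (he : ∀ j, ∀ x ∈ X j, e x ∈ X (j + 1))
    (hf : ∀ j, ∀ x ∈ X j, f x ∈ X (j - 1))
    (hc : ∀ j, ∀ x ∈ X j, e (f x) - f (e x) = (2 * j : ℤ) • x) (J : ℕ)
    (hJ : ∀ j : ℕ, 1 ≤ j → j ≤ J → ((j * (j + 1) : ℕ) : K) ≠ 0) {x : M} (hx : x ∈ X 0)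
    (h0 : (f ^ (J + 1)) x = 0) : f (prj e f J x) = 0 := by
  rw [ProjAbs_swap e f X he hf hc J x hx]
  refine e_prj f e (fun j => X (-j)) ?_ ?_ ?_ J hJ (by simpa using hx) h0
  · intro j y hy
    have := hf _ _ hy
    have h1 : -(j + 1) = -j - 1 := by ring
    rw [h1]
    exact this
  · intro j y hy
    have := he _ _ hy
    have h1 : -(j - 1) = -j + 1 := by ring
    rw [h1]
    exact this
  · intro j y hy
    have := hc _ _ hy
    rw [← neg_sub, this, ← neg_smul]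
    congr 1
    ring

lemma prj_of_e_eq_zero (e f : M →ₗ[K] M) (J : ℕ) {x : M} (hx : e x = 0) : prj e f J x = x := by
  induction J with
  | zero => rfl
  | succ J ih => rw [prj_succ_apply, hx, map_zero, smul_zero, sub_zero, ih]

lemma prj_comm {M' : Type*} [AddCommGroup M'] [Module K M'] (e f : M →ₗ[K] M) (e' f' : M' →ₗ[K] M')
    (X : Submodule K M) (hX : ∀ x ∈ X, f (e x) ∈ X)
    (θ : M →ₗ[K] M') (h : ∀ x ∈ X, θ (f (e x)) = f' (e' (θ x))) (J : ℕ) {x : M} (hx : x ∈ X) :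
    θ (prj e f J x) = prj e' f' J (θ x) := by
  induction J generalizing x with
  | zero => rfl
  | succ J ih =>
    rw [prj_succ_apply, prj_succ_apply, ih (X.sub_mem hx (X.smul_mem _ (hX x hx))), map_sub,
      map_smul, h x hx]

/-- the same for an additive map which is only linear over the prime field (e.g. `Phi`) -/
lemma prj_comm_add {M' : Type*} [AddCommGroup M'] [Module K M'] (e f : M →ₗ[K] M) (e' f' : M' →ₗ[K] M')
    (X : Submodule K M) (hX : ∀ x ∈ X, f (e x) ∈ X) (θ : M →+ M')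
    (hθ : ∀ (c : ℕ) (x : M), θ (((c : K))⁻¹ • x) = ((c : K))⁻¹ • θ x)
    (h : ∀ x ∈ X, θ (f (e x)) = f' (e' (θ x))) (J : ℕ) {x : M} (hx : x ∈ X) :
    θ (prj e f J x) = prj e' f' J (θ x) := by
  induction J generalizing x with
  | zero => rfl
  | succ J ih =>
    rw [prj_succ_apply, prj_succ_apply, ih (X.sub_mem hx (X.smul_mem _ (hX x hx))), map_sub,
      hθ, h x hx]

lemma prj_sub_mem (e f : M →ₗ[K] M) (Y : Submodule K M) (hY : ∀ y, f (e y) ∈ Y) (J : ℕ) (x : M) :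
    prj e f J x - x ∈ Y := by
  induction J generalizing x with
  | zero =>
    have : prj e f 0 x - x = 0 := sub_self x
    rw [this]
    exact Y.zero_mem
  | succ J ih =>
    rw [prj_succ_apply]
    have h1 := ih (x - ((((J + 1) * (J + 2) : ℕ) : K))⁻¹ • f (e x))
    have h2 : ((((J + 1) * (J + 2) : ℕ) : K))⁻¹ • f (e x) ∈ Y := Y.smul_mem _ (hY x)
    have h3 := Y.sub_mem h1 h2
    convert h3 using 1
    abel

lemma prj_mem (e f : M →ₗ[K] M) (X : Submodule K M) (hX : ∀ x ∈ X, f (e x) ∈ X) (J : ℕ) {x : M}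
    (hx : x ∈ X) : prj e f J x ∈ X := by
  induction J generalizing x with
  | zero => exact hx
  | succ J ih =>
    rw [prj_succ_apply]
    exact ih (X.sub_mem hx (X.smul_mem _ (hX x hx)))

end abstract_projector

end FSig
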