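import Pool.Agent.Lib.FSig.OpsLam
import Pool.Agent.Lib.FSig.ProjAbs

/-!
# MP_05de8f_ag : the relations for the projector, (O5) (module OpsProj)

PROOFS.
* `H_one`: `E (F x) - F (E x) = w x`, `x ∈ S d w` (`E_F_comm` or `E_one_F` with `k = 1`).
* `H_p`: `E x = F x = 0`, `x ∈ S d (p j)`: `E^(p) F^(p) x - F^(p) E^(p) x = j x`: `E_F_comm` with `r = q = p`: `E^(p-l) x = 0` for `1 ≤ l ≤ p-1`, the
  terms `l = 0`, `l = p` remain, `binom(p j, p) = j` mod `p` (`j ∈ ℤ`; Lucas for `j ≥ 0`; for negative `j` use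
  `Ring.choose (w) p` in `ZMod p`: `∏_{i<p} (pj - i) = p j ∏_{0<i<p}(pj - i)`, divided by `p!`: `j ∏_{0<i<p}(pj-i)/(p-1)! = j` mod `p`).
* `Gp`: the operators `E^(p)`, `F^(p)` preserve `{x : E x = F x = 0}` on weights divisible by `p`: `E E^(p) = E^(p) E`; `F E^(p) x = 0` for `E x = F x = 0`, weight
  of `x` divisible by `p`: `F_E_comm` with `r = 1`, `q = p`: `= E^(p) F x + binom(-w+1-p, 1) E^(p-1) x = 0` since `E^(p-1) x = 0` (`E_of_E_one`; `p = 2` also:
  `E^(1) x = 0`). In the same way `E F^(p) x = 0`.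
* (O5) `E_all_zero`: `E x = 0`, `E^(p) x = 0`, `x ∈ S d w`, `|d| - w < 2 p²` ⟹ `E^(k) x = 0` for all `k ≥ 1`: if `2k > |d| - w` clear (`E_eq_zero`), otherwise
  `k < p²`, `k = k0 + p k1`, `k0, k1 < p`: if `k0 > 0` use `E_digit` and commute, `E^(k0) x = 0`; if `k0 = 0` then `k1 ≥ 1` and `k1! E^(p k1) x = (E^(p))^k1 x = 0`, `k1!` unit.
-/

namespace FSig

open MvPolynomial Finset

variable {V : Type*} (K : Type*) [Field K] (p : ℕ) [Fact p.Prime] [CharP K p]

omit [Fact p.Prime] [CharP K p] in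
lemma H_one {d : V →₀ ℕ} {w : ℤ} {x : T V K} (hx : x ∈ S K d w) :
    E K 1 (F K 1 x) - F K 1 (E K 1 x) = w • x := by
  rw [E_one_F K hx 1 le_rfl, add_sub_cancel_left]
  simp

/-- `{x ∈ S d (2 p j) : E x = F x = 0}` -/
noncomputable def Xp (d : V →₀ ℕ) (j : ℤ) : Submodule K (T V K) :=
  S K d (2 * p * j) ⊓ LinearMap.ker (E K 1) ⊓ LinearMap.ker (F K 1)

omit [Fact p.Prime] [CharP K p] in
private lemma mem_Xp {d : V →₀ ℕ} {j : ℤ} {x : T V K} :
    x ∈ Xp K p d j ↔ x ∈ S K d (2 * p * j) ∧ E K 1 x = 0 ∧ F K 1 x = 0 := by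
  unfold Xp
  rw [Submodule.mem_inf, Submodule.mem_inf, LinearMap.mem_ker, LinearMap.mem_ker, and_assoc]

lemma Xp_E {d : V →₀ ℕ} (j : ℤ) (x : T V K) (hx : x ∈ Xp K p d j) : E K p x ∈ Xp K p d (j + 1) := by
  have hp : p.Prime := Fact.out
  rw [mem_Xp] at hx ⊢
  obtain ⟨h1, h2, h3⟩ := hx
  refine ⟨?_, ?_, ?_⟩
  · have := E_mem_S K h1 p
    have e : (2 * p * (j + 1) : ℤ) = 2 * p * j + 2 * p := by ring
    rw [e]
    exact this
  · rw [E_comm, h2, map_zero]
  · rw [F_E_comm K h1 1 p]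
    have e : min 1 p = 1 := min_eq_left hp.one_lt.le
    rw [e, Finset.sum_range_succ, Finset.sum_range_succ, Finset.sum_range_zero]
    have h4 : E K (p - 1) x = 0 := E_of_E_one K p h2 (by have := hp.two_le; omega)
      (by have := hp.pos; omega)
    simp only [Nat.sub_zero, h3, map_zero, smul_zero, Nat.sub_self, F_zero, h4, add_zero]

lemma Xp_F {d : V →₀ ℕ} (j : ℤ) (x : T V K) (hx : x ∈ Xp K p d j) : F K p x ∈ Xp K p d (j - 1) := by
  have hp : p.Prime := Fact.out
  rw [mem_Xp] at hx ⊢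
  obtain ⟨h1, h2, h3⟩ := hx
  refine ⟨?_, ?_, ?_⟩
  · have := F_mem_S K h1 p
    have e : (2 * p * (j - 1) : ℤ) = 2 * p * j - 2 * p := by ring
    rw [e]
    exact this
  · rw [E_F_comm K h1 1 p]
    have e : min 1 p = 1 := min_eq_left hp.one_lt.le
    rw [e, Finset.sum_range_succ, Finset.sum_range_succ, Finset.sum_range_zero]
    have h4 : F K (p - 1) x = 0 := F_of_F_one K p h3 (by have := hp.two_le; omega)
      (by have := hp.pos; omega)
    simp only [Nat.sub_zero, h2, map_zero, smul_zero, Nat.sub_self, E_zero, h4, add_zero]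
  · rw [F_comm, h3, map_zero]

omit [Fact p.Prime] [CharP K p] in
private lemma choose_step (hp : p.Prime) (a : ℤ) :
    (p : ℤ) ∣ Ring.choose (a + p) p - (Ring.choose a p + 1) := by
  rw [Ring.add_choose_eq p (Commute.all a (p : ℤ))]
  have hne : (p, 0) ≠ (0, p) := by
    intro h
    exact hp.ne_zero (Prod.mk.inj h).1
  have h1 : ∑ ij ∈ antidiagonal p, Ring.choose a ij.1 * Ring.choose (p : ℤ) ij.2 =
      ∑ ij ∈ ((antidiagonal p).erase (p, 0)).erase (0, p),
        Ring.choose a ij.1 * Ring.choose (p : ℤ) ij.2 + (Ring.choose a p + 1) := by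
    rw [← Finset.add_sum_erase (antidiagonal p) _ (show (p, 0) ∈ antidiagonal p by simp),
      ← Finset.add_sum_erase ((antidiagonal p).erase (p, 0)) _
        (show (0, p) ∈ (antidiagonal p).erase (p, 0) by
          rw [Finset.mem_erase]
          exact ⟨hne.symm, by simp⟩)]
    simp only [Ring.choose_zero_right, Ring.choose_natCast, Nat.choose_self]
    push_cast
    ring
  rw [h1, add_sub_cancel_right]
  refine Finset.dvd_sum fun ij hij => ?_
  rw [Finset.mem_erase, Finset.mem_erase, Finset.HasAntidiagonal.mem_antidiagonal] at hij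
  obtain ⟨h2, h3, h4⟩ := hij
  refine Dvd.dvd.mul_left ?_ _
  rw [Ring.choose_natCast]
  have h5 : ij.2 ≠ 0 := by
    intro h
    apply h3
    ext
    · simp only
      omega
    · exact h
  have h6 : ij.2 < p := by
    rcases Nat.lt_or_ge ij.2 p with h | h
    · exact h
    · exfalso
      apply h2
      ext
      · simp only
        omega
      · simp only
        omega
  exact_mod_cast hp.dvd_choose_self h5 h6

omit [Fact p.Prime] [CharP K p] in
private lemma choose_p (hp : p.Prime) (m : ℤ) : (p : ℤ) ∣ Ring.choose (p * m) p - m := by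
  induction m using Int.induction_on with
  | zero =>
    rw [mul_zero, sub_zero]
    have h : Ring.choose ((0 : ℕ) : ℤ) p = ((Nat.choose 0 p : ℕ) : ℤ) := Ring.choose_natCast 0 p
    rw [Nat.choose_eq_zero_of_lt hp.pos] at h
    simp only [Nat.cast_zero] at h
    rw [h]
    exact dvd_zero _
  | succ i ih =>
    have h := choose_step p hp (p * (i : ℤ))
    have e : (p : ℤ) * ((i : ℤ) + 1) = p * (i : ℤ) + p := by ring
    rw [e]
    have h2 := dvd_add h ih
    have e2 : Ring.choose (p * (i : ℤ) + p) p - (Ring.choose (p * (i : ℤ)) p + 1) +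
        (Ring.choose (p * (i : ℤ)) p - (i : ℤ)) =
        Ring.choose (p * (i : ℤ) + p) p - ((i : ℤ) + 1) := by ring
    rw [e2] at h2
    exact h2
  | pred i ih =>
    have h := choose_step p hp (p * (-(i : ℤ) - 1))
    have e : (p : ℤ) * (-(i : ℤ) - 1) + p = p * (-(i : ℤ)) := by ring
    rw [e] at h
    have h2 := dvd_sub ih h
    have e2 : Ring.choose (p * (-(i : ℤ))) p - (-(i : ℤ)) -
        (Ring.choose (p * (-(i : ℤ))) p - (Ring.choose (p * (-(i : ℤ) - 1)) p + 1)) =
        Ring.choose (p * (-(i : ℤ) - 1)) p - (-(i : ℤ) - 1) := by ring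
    rw [e2] at h2
    exact h2

lemma H_p {d : V →₀ ℕ} (j : ℤ) (x : T V K) (hx : x ∈ Xp K p d j) :
    E K p (F K p x) - F K p (E K p x) = (2 * j : ℤ) • x := by
  have hp : p.Prime := Fact.out
  rw [mem_Xp] at hx
  obtain ⟨h1, h2, h3⟩ := hx
  rw [E_F_comm K h1 p p, min_self]
  have e0 : (2 * p * j + p - p : ℤ) = p * (2 * j) := by ring
  rw [e0, Finset.sum_range_succ, Finset.sum_eq_single 0]
  · rw [Ring.choose_zero_right, one_smul, Nat.sub_zero, Nat.sub_self, E_zero, F_zero,
      add_sub_cancel_left]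
    obtain ⟨c, hc⟩ := choose_p p hp (2 * j)
    have e1 : Ring.choose ((p : ℤ) * (2 * j)) p = 2 * j + p * c := by linarith
    rw [e1, add_smul]
    have e2 : ((p : ℤ) * c) • x = 0 := by
      rw [← Int.cast_smul_eq_zsmul K, Int.cast_mul, Int.cast_natCast, CharP.cast_eq_zero, zero_mul,
        zero_smul]
    rw [e2, add_zero]
  · intro l hl hl0
    rw [Finset.mem_range] at hl
    rw [E_of_E_one K p h2 (by omega) (by omega), map_zero, smul_zero]
  · intro h
    exact absurd (Finset.mem_range.mpr hp.pos) h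

/-- (O5) -/
lemma E_all_zero {d : V →₀ ℕ} {w : ℤ} {x : T V K} (hx : x ∈ S K d w) (hd : (d.degree : ℤ) - w < 2 * p ^ 2)
    (h1 : E K 1 x = 0) (h2 : E K p x = 0) (k : ℕ) (hk : 1 ≤ k) : E K k x = 0 := by
  have hp : p.Prime := Fact.out
  rcases lt_or_ge (d.degree : ℤ) (w + 2 * k) with h | h
  · exact E_eq_zero K hx h
  · have hkp : k < p * p := by
      have : (k : ℤ) < p * p := by nlinarith
      exact_mod_cast this
    have hk0 : k % p < p := Nat.mod_lt k hp.pos
    have hk1 : k / p < p := Nat.div_lt_of_lt_mul hkp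
    have hk2 : k = k % p + p * (k / p) := (Nat.mod_add_div k p).symm
    rcases Nat.eq_zero_or_pos (k % p) with h0 | h0
    · have hk3 : 1 ≤ k / p := by
        rcases Nat.eq_zero_or_pos (k / p) with h4 | h4
        · rw [h0, h4] at hk2
          omega
        · exact h4
      have h5 := E_p_pow K p (k / p) x
      have h6 : ((E K p) ^ (k / p)) x = 0 := by
        obtain ⟨m, hm⟩ : ∃ m, k / p = m + 1 := ⟨k / p - 1, by omega⟩
        rw [hm, pow_succ, Module.End.mul_apply, h2, map_zero]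
      rw [h6] at h5
      have h7 : (((k / p).factorial : ℕ) : K) ≠ 0 := by
        intro h8
        rw [CharP.cast_eq_zero_iff K p, hp.dvd_factorial] at h8
        omega
      have h9 := (smul_eq_zero.mp h5.symm).resolve_left h7
      rw [h0, zero_add] at hk2
      rw [hk2]
      exact h9
    · rw [hk2, E_digit K p hk0, E_comm, E_of_E_one K p h1 h0 hk0, map_zero]

lemma F_all_zero {d : V →₀ ℕ} {w : ℤ} {x : T V K} (hx : x ∈ S K d w) (hd : (d.degree : ℤ) + w < 2 * p ^ 2)
    (h1 : F K 1 x = 0) (h2 : F K p x = 0) (k : ℕ) (hk : 1 ≤ k) : F K k x = 0 := by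
  have hp : p.Prime := Fact.out
  rcases lt_or_ge (w - 2 * k) (-(d.degree : ℤ)) with h | h
  · exact F_eq_zero K hx h
  · have hkp : k < p * p := by
      have : (k : ℤ) < p * p := by nlinarith
      exact_mod_cast this
    have hk0 : k % p < p := Nat.mod_lt k hp.pos
    have hk1 : k / p < p := Nat.div_lt_of_lt_mul hkp
    have hk2 : k = k % p + p * (k / p) := (Nat.mod_add_div k p).symm
    rcases Nat.eq_zero_or_pos (k % p) with h0 | h0
    · have hk3 : 1 ≤ k / p := by
        rcases Nat.eq_zero_or_pos (k / p) with h4 | h4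
        · rw [h0, h4] at hk2
          omega
        · exact h4
      have h5 := F_p_pow K p (k / p) x
      have h6 : ((F K p) ^ (k / p)) x = 0 := by
        obtain ⟨m, hm⟩ : ∃ m, k / p = m + 1 := ⟨k / p - 1, by omega⟩
        rw [hm, pow_succ, Module.End.mul_apply, h2, map_zero]
      rw [h6] at h5
      have h7 : (((k / p).factorial : ℕ) : K) ≠ 0 := by
        intro h8
        rw [CharP.cast_eq_zero_iff K p, hp.dvd_factorial] at h8
        omega
      have h9 := (smul_eq_zero.mp h5.symm).resolve_left h7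
      rw [h0, zero_add] at hk2
      rw [hk2]
      exact h9
    · rw [hk2, F_digit K p hk0, F_comm, F_of_F_one K p h1 h0 hk0, map_zero]

lemma mem_Inv_of {d : V →₀ ℕ} {x : T V K} (hx : x ∈ S K d 0) (hd : d.degree < 2 * p ^ 2)
    (h1 : E K 1 x = 0) (h2 : E K p x = 0) (h3 : F K 1 x = 0) (h4 : F K p x = 0) :
    x ∈ Inv (V := V) K := by
  have hd' : (d.degree : ℤ) < 2 * p ^ 2 := by exact_mod_cast hd
  rw [mem_Inv_iff]
  intro k hk
  exact ⟨E_all_zero K p hx (by rw [sub_zero]; exact hd') h1 h2 k hk,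
    F_all_zero K p hx (by rw [add_zero]; exact hd') h3 h4 k hk⟩

end FSig
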