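import Pool.Agent.Lib.FSig.OpsLam

/-!
# MP_05de8f_ag : weights of `U`-invariants are `≥ 0` (O6) (module OpsWt)

THEOREM. `K` field of characteristic `p`. `x ∈ S d w`, `E^(Q) x ≠ 0`, `E^(q) x = 0` for all `q > Q`. Then `0 ≤ w + Q`.

PROOF. Suppose `c := -(w+Q) ≥ 1`. Let `M = p^L` with `M > c` and `M > |d| + Q`. `F^(M) x = 0` (`F_eq_zero`, as `w - 2M < -|d|`, note `w < 0`... use
`w ≤ |d|` in general: if `x ≠ 0` then `|w| ≤ |d|`; take `M > |d|`). By `E_F_comm` with `r = M + Q`, `q = M`: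
`0 = E^(M+Q) F^(M) x = ∑_{l ≤ M} binom(w+Q, l) F^(M-l) E^(M+Q-l) x`, and `E^(M+Q-l) x = 0` for `l < M`. So
`binom(w+Q, M) • E^(Q) x = 0`. But `binom(-c, M) = (-1)^M binom(c+M-1, M)` (`Ring.choose_neg`), and `binom(M + (c-1), M) = 1` mod `p` by Lucas
(`c - 1 < M = p^L`; `Choose.choose_modEq..` for the base `p^L`: or: `(1+X)^(M+c-1) = (1+X^M)(1+X)^(c-1)` over `ZMod p`, coefficient of `X^M` is `1`).
Hence `E^(Q) x = 0`, contradiction.

COROLLARIES: `wt_nonneg` (`Q = 0`): a nonzero `x ∈ S d w` with `E^(k) x = 0` for all `k ≥ 1` has `w ≥ 0`; mirror image `wt_nonpos` for `F` (apply `sw`);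
`inv_wt`: a nonzero invariant in `S d w` has `w = 0`.
-/

namespace FSig

open MvPolynomial Finset

variable {V : Type*} (K : Type*) [Field K] (p : ℕ) [Fact p.Prime] [CharP K p]

private lemma OpsWt_choose (L c' : ℕ) (hc : c' < p ^ L) :
    (((p ^ L + c').choose (p ^ L) : ℕ) : K) = 1 := by
  have h1 : (((p ^ L + c').choose (p ^ L) : ℕ) : K) =
      (((Polynomial.X + 1 : Polynomial K)) ^ (p ^ L + c')).coeff (p ^ L) :=
    (Polynomial.coeff_X_add_one_pow K _ _).symm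
  rw [h1, pow_add, add_pow_char_pow, one_pow, add_mul, one_mul, Polynomial.coeff_add,
    Polynomial.coeff_X_pow_mul', if_pos le_rfl, Nat.sub_self, Polynomial.coeff_X_add_one_pow,
    Polynomial.coeff_X_add_one_pow, Nat.choose_zero_right, Nat.choose_eq_zero_of_lt hc]
  simp

private lemma OpsWt_exists (K : Type*) [Field K] (B c : ℕ) :
    ∃ M : ℕ, B < M ∧ (((M + c).choose M : ℕ) : K) ≠ 0 := by
  obtain ⟨q, hq⟩ := CharP.exists K
  rcases CharP.char_is_prime_or_zero K q with hp | rfl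
  · have : Fact q.Prime := ⟨hp⟩
    obtain ⟨L, hL⟩ : ∃ L : ℕ, B + c < q ^ L := ⟨_, Nat.lt_pow_self hp.one_lt⟩
    refine ⟨q ^ L, by omega, ?_⟩
    rw [OpsWt_choose K q L c (by omega)]
    exact one_ne_zero
  · have : CharZero K := CharP.charP_to_charZero K
    refine ⟨B + 1, by omega, ?_⟩
    exact_mod_cast (Nat.choose_pos (by omega)).ne'

theorem wt_bound {d : V →₀ ℕ} {w : ℤ} {x : T V K} (hx : x ∈ S K d w) {Q : ℕ} (hQ : E K Q x ≠ 0)
    (h : ∀ q, Q < q → E K q x = 0) : 0 ≤ w + Q := by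
  by_contra hneg
  obtain ⟨c, hc⟩ : ∃ c : ℕ, -(w + Q) = (c : ℤ) + 1 := by
    refine ⟨(-(w + Q) - 1).toNat, ?_⟩
    rw [Int.toNat_of_nonneg (by omega)]
    ring
  obtain ⟨M, hL, hM⟩ := OpsWt_exists K (c + d.degree) c
  have hF : F K M x = 0 := by
    refine F_eq_zero K hx ?_
    have h1 : ((c : ℤ) + (d.degree : ℤ)) < (M : ℤ) := by exact_mod_cast hL
    omega
  have key := E_F_comm K hx (M + Q) M
  rw [hF, map_zero] at key
  have hmin : min (M + Q) M = M := by omega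
  rw [hmin, Finset.sum_range_succ, Finset.sum_eq_zero, zero_add, Nat.sub_self, F_zero,
    Nat.add_sub_cancel_left] at key
  swap
  · intro l hl
    rw [Finset.mem_range] at hl
    rw [h (M + Q - l) (by omega), map_zero, smul_zero]
  have hcast : (w + ((M + Q : ℕ) : ℤ) - (M : ℤ)) = -((c : ℤ) + 1) := by
    push_cast
    linarith
  rw [hcast, Ring.choose_neg] at key
  have h2 : ((c : ℤ) + 1 + (M : ℤ) - 1) = ((M + c : ℕ) : ℤ) := by push_cast; ring
  rw [h2, Ring.choose_natCast] at key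
  have h3 : ((Int.negOnePow M • (((M + c).choose M : ℕ) : ℤ) : ℤ) : K) ≠ 0 := by
    rw [Units.smul_def, smul_eq_mul, Int.cast_mul, Int.cast_natCast]
    refine mul_ne_zero ?_ hM
    rcases Int.units_eq_one_or (Int.negOnePow M) with h | h <;> rw [h] <;> simp
  have h4 : ((Int.negOnePow M • (((M + c).choose M : ℕ) : ℤ) : ℤ) : K) • E K Q x = 0 := by
    rw [Int.cast_smul_eq_zsmul]
    exact key.symm
  exact hQ ((smul_eq_zero.1 h4).resolve_left h3)

lemma wt_nonneg {d : V →₀ ℕ} {w : ℤ} {x : T V K} (hx : x ∈ S K d w) (h0 : x ≠ 0)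
    (h : ∀ k, 1 ≤ k → E K k x = 0) : 0 ≤ w := by
  have := wt_bound K hx (Q := 0) (by rw [E_zero]; exact h0) (fun q hq => h q hq)
  simpa using this

lemma wt_nonpos {d : V →₀ ℕ} {w : ℤ} {x : T V K} (hx : x ∈ S K d w) (h0 : x ≠ 0)
    (h : ∀ k, 1 ≤ k → F K k x = 0) : w ≤ 0 := by
  have h1 : sw K x ≠ 0 := by
    intro h2
    exact h0 ((map_eq_zero_iff (sw K (V := V)) (sw K (V := V)).injective).1 h2)
  have := wt_nonneg K (sw_mem_S K hx) h1 (fun k hk => by rw [E_sw, h k hk, map_zero])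
  linarith

lemma inv_wt {d : V →₀ ℕ} {w : ℤ} {x : T V K} (hx : x ∈ S K d w) (h0 : x ≠ 0)
    (h : x ∈ Inv (V := V) K) : w = 0 := by
  have h1 := (mem_Inv_iff K x).1 h
  have h2 := wt_nonneg K hx h0 (fun k hk => (h1 k hk).1)
  have h3 := wt_nonpos K hx h0 (fun k hk => (h1 k hk).2)
  omega

end FSig
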