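import Pool.Agent.Lib.FSig.RDefs
import Pool.Agent.Lib.FSig.OpsBasic

/-!
# Pol1: chain rules for `∂/∂a_v`, `∂/∂b_v` and `E^(k)`, `F^(k)`

`K` any commutative ring. For all `f` and `k`
`∂_(b_v) E^(k) f = E^(k) ∂_(b_v) f`, `∂_(a_v) E^(k+1) f = E^(k+1) ∂_(a_v) f + E^(k) ∂_(b_v) f` (as `Et b_v = b_v + t a_v`), and the mirror image for `F`.

PROOF by `MvPolynomial.induction_on f` (for all `k` at once). Constants `C c`: derivatives are `0` (`pderiv_C`), `E k (C c) = 0` for `k ≥ 1` (`E_C`), `E 0 = id` (`E_zero`). Sums: linearity. Products `f * X (u, t)`:
`E (k+1) (f * b_u) = E (k+1) f * b_u + E k f * a_u`, `E k (f * a_u) = E k f * a_u` (auxiliary lemmas from `E_mul`, `Finset.Nat.antidiagonal_succ`, or `Finset.sum_eq_...`; only the terms with second index `0` or `1` survive: `E_va`, `E_vb`, `E_one_vb`, `E_zero`), Leibniz for `pderiv`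
(`Derivation.leibniz`, `pderiv_X`), and the induction hypothesis; then cases `u = v` or not, `ring`. (`X (u, false) = va K u`, `X (u, true) = vb K u` by `rfl`.)
-/

namespace FSig

open MvPolynomial Finset

variable {V : Type*} (K : Type*) [CommRing K]

lemma E_mul_va (k : ℕ) (f : T V K) (u : V) : E K k (f * va K u) = E K k f * va K u := by
  rw [E_apply, E_apply, map_mul, Et_va, Polynomial.coeff_mul_C]
lemma E_mul_vb (k : ℕ) (f : T V K) (u : V) :
    E K (k + 1) (f * vb K u) = E K (k + 1) f * vb K u + E K k f * va K u := by
  rw [E_apply, E_apply, E_apply, map_mul, Et_vb, mul_add, Polynomial.coeff_add,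
    Polynomial.coeff_mul_C, mul_comm Polynomial.X, ← mul_assoc, Polynomial.coeff_mul_X,
    Polynomial.coeff_mul_C]
lemma F_mul_vb (k : ℕ) (f : T V K) (u : V) : F K k (f * vb K u) = F K k f * vb K u := by
  rw [F_apply, F_apply, map_mul, Ft_vb, Polynomial.coeff_mul_C]
lemma F_mul_va (k : ℕ) (f : T V K) (u : V) :
    F K (k + 1) (f * va K u) = F K (k + 1) f * va K u + F K k f * vb K u := by
  rw [F_apply, F_apply, F_apply, map_mul, Ft_va, mul_add, Polynomial.coeff_add,
    Polynomial.coeff_mul_C, mul_comm Polynomial.X, ← mul_assoc, Polynomial.coeff_mul_X,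
    Polynomial.coeff_mul_C]

private lemma pol1_same (v u : V) (t : Bool) :
    pderiv (v, t) (X (u, t) : T V K) = 0 ∨ pderiv (v, t) (X (u, t) : T V K) = 1 := by
  classical
  by_cases h : u = v
  · right
    rw [h, pderiv_X_self]
  · left
    exact pderiv_X_of_ne fun e => h (Prod.mk.inj e).1

private lemma pol1_ne (v u : V) {t t' : Bool} (h : t' ≠ t) :
    pderiv (v, t) (X (u, t') : T V K) = 0 :=
  pderiv_X_of_ne fun e => h (Prod.mk.inj e).2

private lemma pol1_mul (v : V × Bool) (f g : T V K) :
    pderiv v (f * g) = f * pderiv v g + pderiv v f * g := by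
  rw [Derivation.leibniz, smul_eq_mul, smul_eq_mul]
  ring

private lemma pol1_EC (k : ℕ) (a : K) (v : V × Bool) : pderiv v (E K k (C a : T V K)) = 0 := by
  have h : Et K (C a : T V K) = Polynomial.C (C a) := (Et K).commutes a
  rw [E_apply, h, Polynomial.coeff_C]
  split_ifs
  · exact pderiv_C
  · exact map_zero _

private lemma pol1_FC (k : ℕ) (a : K) (v : V × Bool) : pderiv v (F K k (C a : T V K)) = 0 := by
  have h : Ft K (C a : T V K) = Polynomial.C (C a) := (Ft K).commutes a
  rw [F_apply, h, Polynomial.coeff_C]
  split_ifs
  · exact pderiv_C
  · exact map_zero _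

private lemma pol1_ca (u : V) : (X (u, false) : T V K) = va K u := rfl

private lemma pol1_cb (u : V) : (X (u, true) : T V K) = vb K u := rfl

theorem pdb_E (v : V) (k : ℕ) (f : T V K) :
    pderiv (v, true) (E K k f) = E K k (pderiv (v, true) f) := by
  induction f using MvPolynomial.induction_on generalizing k with
  | C a => rw [pol1_EC, pderiv_C, map_zero]
  | add f g hf hg => rw [map_add, map_add, map_add, map_add, hf, hg]
  | mul_X f x hf =>
    obtain ⟨u, t⟩ := x
    cases t
    · have h0 := pol1_ne K v u (t := true) (t' := false) (by decide)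
      rw [pol1_ca] at h0 ⊢
      rw [E_mul_va, pol1_mul, pol1_mul, h0, mul_zero, mul_zero, zero_add, zero_add, hf, E_mul_va]
    · cases k with
      | zero => rw [E_zero, E_zero]
      | succ k =>
        have ha := pol1_ne K v u (t := true) (t' := false) (by decide)
        rw [pol1_ca] at ha
        have hb := pol1_same K v u true
        rw [pol1_cb] at hb ⊢
        rw [E_mul_vb, map_add, pol1_mul, pol1_mul, pol1_mul, map_add, E_mul_vb, ha, hf, hf]
        rcases hb with hb | hb
        · rw [hb]
          simp only [mul_zero, map_zero]
          ring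
        · rw [hb]
          simp only [mul_one, mul_zero]
          ring

theorem pda_E (v : V) (k : ℕ) (f : T V K) :
    pderiv (v, false) (E K (k + 1) f) =
      E K (k + 1) (pderiv (v, false) f) + E K k (pderiv (v, true) f) := by
  induction f using MvPolynomial.induction_on generalizing k with
  | C a => rw [pol1_EC, pderiv_C, pderiv_C, map_zero, map_zero, add_zero]
  | add f g hf hg =>
    rw [map_add, map_add, map_add, map_add, map_add, map_add, hf, hg]
    ring
  | mul_X f x hf =>
    obtain ⟨u, t⟩ := x
    cases t
    · have h0 := pol1_ne K v u (t := true) (t' := false) (by decide)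
      have ha := pol1_same K v u false
      rw [pol1_ca] at h0 ha ⊢
      rw [E_mul_va, pol1_mul, pol1_mul, pol1_mul, h0, hf, map_add, map_add, E_mul_va, E_mul_va]
      rcases ha with ha | ha
      · rw [ha]
        simp only [mul_zero, map_zero]
        ring
      · rw [ha]
        simp only [mul_one, mul_zero, map_zero]
        ring
    · have h0 := pol1_ne K v u (t := false) (t' := true) (by decide)
      have ha := pol1_same K v u false
      have hb := pol1_same K v u true
      rw [pol1_ca] at ha
      rw [pol1_cb] at h0 hb ⊢
      have hab : pderiv (v, false) (va K u) = pderiv (v, true) (vb K u) := by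
        classical
        by_cases h : u = v
        · subst h
          change pderiv (u, false) (X (u, false)) = pderiv (u, true) (X (u, true))
          rw [pderiv_X_self, pderiv_X_self]
        · change pderiv (v, false) (X (u, false)) = pderiv (v, true) (X (u, true))
          rw [pderiv_X_of_ne fun e => h (Prod.mk.inj e).1,
            pderiv_X_of_ne fun e => h (Prod.mk.inj e).1]
      rw [E_mul_vb, map_add, pol1_mul, pol1_mul, pol1_mul, pol1_mul, h0, hab, hf]
      simp only [mul_zero, zero_add]
      rw [E_mul_vb, map_add]
      cases k with
      | zero =>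
        simp only [E_zero]
        ring
      | succ k =>
        rw [hf, E_mul_vb]
        rcases hb with hb | hb
        · rw [hb]
          simp only [mul_zero, map_zero]
          ring
        · rw [hb]
          simp only [mul_one]
          ring

theorem pda_F (v : V) (k : ℕ) (f : T V K) :
    pderiv (v, false) (F K k f) = F K k (pderiv (v, false) f) := by
  induction f using MvPolynomial.induction_on generalizing k with
  | C a => rw [pol1_FC, pderiv_C, map_zero]
  | add f g hf hg => rw [map_add, map_add, map_add, map_add, hf, hg]
  | mul_X f x hf =>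
    obtain ⟨u, t⟩ := x
    cases t
    · cases k with
      | zero => rw [F_zero, F_zero]
      | succ k =>
        have ha := pol1_ne K v u (t := false) (t' := true) (by decide)
        rw [pol1_cb] at ha
        have hb := pol1_same K v u false
        rw [pol1_ca] at hb ⊢
        rw [F_mul_va, map_add, pol1_mul, pol1_mul, pol1_mul, map_add, F_mul_va, ha, hf, hf]
        rcases hb with hb | hb
        · rw [hb]
          simp only [mul_zero, map_zero]
          ring
        · rw [hb]
          simp only [mul_one, mul_zero]
          ring
    · have h0 := pol1_ne K v u (t := false) (t' := true) (by decide)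
      rw [pol1_cb] at h0 ⊢
      rw [F_mul_vb, pol1_mul, pol1_mul, h0, mul_zero, mul_zero, zero_add, zero_add, hf, F_mul_vb]

theorem pdb_F (v : V) (k : ℕ) (f : T V K) :
    pderiv (v, true) (F K (k + 1) f) =
      F K (k + 1) (pderiv (v, true) f) + F K k (pderiv (v, false) f) := by
  induction f using MvPolynomial.induction_on generalizing k with
  | C a => rw [pol1_FC, pderiv_C, pderiv_C, map_zero, map_zero, add_zero]
  | add f g hf hg =>
    rw [map_add, map_add, map_add, map_add, map_add, map_add, hf, hg]
    ring
  | mul_X f x hf =>
    obtain ⟨u, t⟩ := x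
    cases t
    · have h0 := pol1_ne K v u (t := true) (t' := false) (by decide)
      have ha := pol1_same K v u true
      have hb := pol1_same K v u false
      rw [pol1_cb] at ha
      rw [pol1_ca] at h0 hb ⊢
      have hab : pderiv (v, true) (vb K u) = pderiv (v, false) (va K u) := by
        classical
        by_cases h : u = v
        · subst h
          change pderiv (u, true) (X (u, true)) = pderiv (u, false) (X (u, false))
          rw [pderiv_X_self, pderiv_X_self]
        · change pderiv (v, true) (X (u, true)) = pderiv (v, false) (X (u, false))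
          rw [pderiv_X_of_ne fun e => h (Prod.mk.inj e).1,
            pderiv_X_of_ne fun e => h (Prod.mk.inj e).1]
      rw [F_mul_va, map_add, pol1_mul, pol1_mul, pol1_mul, pol1_mul, h0, hab, hf]
      simp only [mul_zero, zero_add]
      rw [F_mul_va, map_add]
      cases k with
      | zero =>
        simp only [F_zero]
        ring
      | succ k =>
        rw [hf, F_mul_va]
        rcases hb with hb | hb
        · rw [hb]
          simp only [mul_zero, map_zero]
          ring
        · rw [hb]
          simp only [mul_one]
          ring
    · have h0 := pol1_ne K v u (t := false) (t' := true) (by decide)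
      have ha := pol1_same K v u true
      rw [pol1_cb] at h0 ha ⊢
      rw [F_mul_vb, pol1_mul, pol1_mul, pol1_mul, h0, hf, map_add, map_add, F_mul_vb, F_mul_vb]
      rcases ha with ha | ha
      · rw [ha]
        simp only [mul_zero, map_zero]
        ring
      · rw [ha]
        simp only [mul_one, mul_zero, map_zero]
        ring

end FSig
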