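import Pool.Agent.Lib.FSig.Pol1

/-!
# Pol2: the polarisation operators commute with `E^(k)`, `F^(k)`

For `k = 0` use `E_zero`. For `k + 1`:
`polP_E`: `P (E^(k+1) f) = a_j ∂_(a_i) E^(k+1) f + b_j ∂_(b_i) E^(k+1) f = a_j (E^(k+1) ∂_(a_i) f + E^(k) ∂_(b_i) f) + b_j E^(k+1) ∂_(b_i) f` (`pda_E`, `pdb_E`), and `E^(k+1)(a_j ∂_(a_i) f + b_j ∂_(b_i) f)` is the same by `E_mul_va`, `E_mul_vb` (and `mul_comm`). `polP_F` alike (`F_mul_va`, `F_mul_vb`).
`omO_E`: `∂_(a_i) ∂_(b_j) E^(k+1) f = ∂_(a_i) E^(k+1) ∂_(b_j) f = E^(k+1) ∂_(a_i) ∂_(b_j) f + E^(k) ∂_(b_i) ∂_(b_j) f`, `∂_(b_i) ∂_(a_j) E^(k+1) f = ∂_(b_i)(E^(k+1) ∂_(a_j) f + E^(k) ∂_(b_j) f) = E^(k+1) ∂_(b_i)∂_(a_j) f + E^(k) ∂_(b_i)∂_(b_j) f`; subtract. `omO_F` alike (with `pda_F`, `pdb_F`; here `∂_(a_i) ∂_(a_j)` appears twice).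
`polP_Lam`, `omO_Lam`: `Lam f = F^(p-1) (E^(p-1) f)`.
`polP_mem_Inv`, `omO_mem_Inv`: `mem_Inv_iff`.
-/

namespace FSig

open MvPolynomial Finset

variable {V : Type*} (K : Type*) [CommRing K]

theorem polP_E (i j : V) (k : ℕ) (f : T V K) : polP K i j (E K k f) = E K k (polP K i j f) := by
  cases k with
  | zero => rw [E_zero, E_zero]
  | succ k =>
    rw [polP_apply, polP_apply, pda_E, pdb_E, map_add, mul_comm (va K j) (pderiv (i, false) f),
      mul_comm (vb K j) (pderiv (i, true) f), E_mul_va, E_mul_vb]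
    ring

theorem polP_F (i j : V) (k : ℕ) (f : T V K) : polP K i j (F K k f) = F K k (polP K i j f) := by
  cases k with
  | zero => rw [F_zero, F_zero]
  | succ k =>
    rw [polP_apply, polP_apply, pda_F, pdb_F, map_add, mul_comm (va K j) (pderiv (i, false) f),
      mul_comm (vb K j) (pderiv (i, true) f), F_mul_va, F_mul_vb]
    ring

theorem omO_E (i j : V) (k : ℕ) (f : T V K) : omO K i j (E K k f) = E K k (omO K i j f) := by
  cases k with
  | zero => rw [E_zero, E_zero]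
  | succ k =>
    rw [omO_apply, omO_apply, pdb_E, pda_E, pda_E, map_add, pdb_E, pdb_E, map_sub]
    ring

theorem omO_F (i j : V) (k : ℕ) (f : T V K) : omO K i j (F K k f) = F K k (omO K i j f) := by
  cases k with
  | zero => rw [F_zero, F_zero]
  | succ k =>
    rw [omO_apply, omO_apply, pdb_F, map_add, pda_F, pda_F, pda_F, pdb_F, map_sub]
    ring

theorem polP_Lam (i j : V) (p : ℕ) (f : T V K) : polP K i j (Lam K p f) = Lam K p (polP K i j f) := by
  unfold Lam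
  rw [LinearMap.comp_apply, LinearMap.comp_apply, polP_F, polP_E]

theorem omO_Lam (i j : V) (p : ℕ) (f : T V K) : omO K i j (Lam K p f) = Lam K p (omO K i j f) := by
  unfold Lam
  rw [LinearMap.comp_apply, LinearMap.comp_apply, omO_F, omO_E]

theorem polP_mem_Inv (i j : V) {f : T V K} (hf : f ∈ Inv (V := V) K) :
    polP K i j f ∈ Inv (V := V) K := by
  rw [mem_Inv_iff] at hf ⊢
  intro k hk
  rw [← polP_E, ← polP_F, (hf k hk).1, (hf k hk).2, map_zero]
  exact ⟨rfl, rfl⟩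

theorem omO_mem_Inv (i j : V) {f : T V K} (hf : f ∈ Inv (V := V) K) :
    omO K i j f ∈ Inv (V := V) K := by
  rw [mem_Inv_iff] at hf ⊢
  intro k hk
  rw [← omO_E, ← omO_F, (hf k hk).1, (hf k hk).2, map_zero]
  exact ⟨rfl, rfl⟩

end FSig
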