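import Pool.Agent.Lib.FSig.NEx
import Pool.Agent.Lib.FSig.NPr
import Pool.Agent.Lib.FSig.TrRep

/-!
# Module PsiRep: every `p^{-1}`-linear map of `Rp` is given by the trace on the image of `Lam` (C6)

Proof. By `killed_Lam_pr0` and `exists_NR` choose for every `u` an `x = ψ u` with `NR φ p (Lam p (pr0 p u)) (ψ u)`; it is unique (`NR.unique`).
* `ψ` is additive (`pr0_add`, linearity of `Lam`, `NR.add`, uniqueness) and `PLin p`: `pr0_pow_mul`, `Lam_pow_mul`, `NR.smul`. `PL_rep`: `ψ u = Phi p (h * u)`.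
* `ψ (E 1 u) = 0` (`Lam_pr0_E1`, `NR.zero`), so `Phi (h * E 1 u) = 0`, hence (`Phi_E1_mul`, commutativity) `Phi (E 1 h * u) = 0` for all `u` and `E 1 h = 0` (`Phi_nondeg`). The same for `F 1`.
* `NR.E`: `NR φ p (E p (Lam (pr0 u))) (E 1 (ψ u))`, and `E p (Lam (pr0 u)) = Lam (pr0 (E p u))` (`Lam_pr0_Ep`), so `ψ (E p u) = E 1 (ψ u)`, i.e. `Phi (h * E p u) = E 1 (Phi (h * u)) = Phi (E p (h * u))`
  (`Phi_E` with `k = p`: `p / p = 1`). By `E_mul` `E p (h * u) = ∑ E i h * E (p-i) u`, and `E i h = 0` for `0 < i < p` (`E_of_E_one`), so `E p (h * u) = h * E p u + E p h * u` and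
  `Phi (E p h * u) = 0` for all `u`: `E p h = 0`. The same for `F p`.
* `d` balanced, `u ∈ S d 0`, `Lam p u ∈ Rp`: `pr0 p u = u` (`pr0_mem`, the two numbers are `0`), so `NR φ p (Lam p u) (ψ u)`; `NR.coe` gives `NR φ p (Lam p u) (φ ⟨Lam p u, _⟩)`; uniqueness.
-/

namespace FSig

open MvPolynomial

private theorem psr_E {m n : ℕ} {K : Type*} [Field K] {p : ℕ} [Fact p.Prime] [CharP K p]
    {h : T (Vx m n) K} (h1 : E K 1 h = 0) (u : T (Vx m n) K) :
    E K p (h * u) = h * E K p u + E K p h * u := by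
  have hp : 0 < p := (Fact.out : p.Prime).pos
  rw [E_mul, Finset.sum_eq_add (0, p) (p, 0)]
  · rw [E_zero, E_zero]
  · intro e
    have := congrArg Prod.fst e
    simp only at this
    omega
  · rintro ⟨i, j⟩ hc hne
    rw [Finset.HasAntidiagonal.mem_antidiagonal] at hc
    simp only at hc
    have hi0 : i ≠ 0 := by
      intro hi
      apply hne.1
      rw [hi] at hc ⊢
      rw [zero_add] at hc
      rw [hc]
    have hip : i ≠ p := by
      intro hi
      apply hne.2
      have hj : j = 0 := by omega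
      rw [hi, hj]
    show E K i h * E K j u = 0
    rw [E_of_E_one K p h1 (by omega) (by omega), zero_mul]
  · intro hc
    exact absurd (Finset.HasAntidiagonal.mem_antidiagonal.2 (by simp)) hc
  · intro hc
    exact absurd (Finset.HasAntidiagonal.mem_antidiagonal.2 (by simp)) hc

private theorem psr_F {m n : ℕ} {K : Type*} [Field K] {p : ℕ} [Fact p.Prime] [CharP K p]
    {h : T (Vx m n) K} (h1 : F K 1 h = 0) (u : T (Vx m n) K) :
    F K p (h * u) = h * F K p u + F K p h * u := by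
  have hp : 0 < p := (Fact.out : p.Prime).pos
  rw [F_mul, Finset.sum_eq_add (0, p) (p, 0)]
  · rw [F_zero, F_zero]
  · intro e
    have := congrArg Prod.fst e
    simp only at this
    omega
  · rintro ⟨i, j⟩ hc hne
    rw [Finset.HasAntidiagonal.mem_antidiagonal] at hc
    simp only at hc
    have hi0 : i ≠ 0 := by
      intro hi
      apply hne.1
      rw [hi] at hc ⊢
      rw [zero_add] at hc
      rw [hc]
    have hip : i ≠ p := by
      intro hi
      apply hne.2
      have hj : j = 0 := by omega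
      rw [hi, hj]
    show F K i h * F K j u = 0
    rw [F_of_F_one K p h1 (by omega) (by omega), zero_mul]
  · intro hc
    exact absurd (Finset.HasAntidiagonal.mem_antidiagonal.2 (by simp)) hc
  · intro hc
    exact absurd (Finset.HasAntidiagonal.mem_antidiagonal.2 (by simp)) hc

theorem upper_rep {m n : ℕ} {K : Type*} [Field K] {p : ℕ} [Fact p.Prime] [CharP K p]
    [PerfectRing K p] (hm : 3 ≤ m) (hn : 3 ≤ n) (hp : 3 ≤ p) (phi : Rp m n K →+ Rp m n K)
    (hphi : PLin p phi) :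
    ∃ h : T (Vx m n) K, E K 1 h = 0 ∧ F K 1 h = 0 ∧ E K p h = 0 ∧ F K p h = 0 ∧
      ∀ (d : Vx m n →₀ ℕ) (_ : Bal d) (u : T (Vx m n) K) (_ : u ∈ S K d 0)
        (hL : Lam K p u ∈ Rp m n K),
        (phi ⟨Lam K p u, hL⟩ : T (Vx m n) K) = Phi p (h * u) := by
  have hp0 : 0 < p := (Fact.out : p.Prime).pos
  choose ψ hψ using fun u : T (Vx m n) K =>
    exists_NR m n hm hn K p hp phi hphi _ (killed_Lam_pr0 p u)
  have uniq : ∀ {v x x' : T (Vx m n) K}, NR phi p v x → NR phi p v x' → x = x' :=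
    fun h h' => NR.unique (by omega) (by omega) hphi h h'
  have hadd : ∀ u v, ψ (u + v) = ψ u + ψ v := by
    intro u v
    have e1 := hψ (u + v)
    rw [pr0_add, map_add] at e1
    exact uniq e1 (NR.add (hψ u) (hψ v))
  have hmul : ∀ r u, ψ (r ^ p * u) = r * ψ u := by
    intro r u
    have e1 := hψ (r ^ p * u)
    rw [pr0_pow_mul, Lam_pow_mul] at e1
    exact uniq e1 (NR.smul r (hψ u))
  obtain ⟨h, hh⟩ := PL_rep p (AddMonoidHom.mk' ψ hadd) (fun r u => hmul r u)
  have hh' : ∀ u, ψ u = Phi p (h * u) := hh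
  have hE1 : E K 1 h = 0 := by
    refine Phi_nondeg p _ fun u => ?_
    have e1 := hψ (E K 1 u)
    rw [Lam_pr0_E1] at e1
    have e2 : ψ (E K 1 u) = 0 := uniq e1 (NR.zero hp0.ne')
    rw [Phi_E1_mul, ← hh', e2, neg_zero]
  have hF1 : F K 1 h = 0 := by
    refine Phi_nondeg p _ fun u => ?_
    have e1 := hψ (F K 1 u)
    rw [Lam_pr0_F1] at e1
    have e2 : ψ (F K 1 u) = 0 := uniq e1 (NR.zero hp0.ne')
    rw [Phi_F1_mul, ← hh', e2, neg_zero]
  refine ⟨h, hE1, hF1, ?_, ?_, ?_⟩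
  · refine Phi_nondeg p _ fun u => ?_
    have e1 := hψ (E K p u)
    rw [Lam_pr0_Ep] at e1
    have e2 : ψ (E K p u) = E K 1 (ψ u) := uniq e1 (NR.E (hψ u))
    have e3 := Phi_E p p (h * u)
    rw [if_pos dvd_rfl, Nat.div_self hp0, psr_E hE1, map_add, ← hh', ← hh', e2] at e3
    exact left_eq_add.1 e3.symm
  · refine Phi_nondeg p _ fun u => ?_
    have e1 := hψ (F K p u)
    rw [Lam_pr0_Fp] at e1
    have e2 : ψ (F K p u) = F K 1 (ψ u) := uniq e1 (NR.F (hψ u))
    have e3 := Phi_F p p (h * u)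
    rw [if_pos dvd_rfl, Nat.div_self hp0, psr_F hF1, map_add, ← hh', ← hh', e2] at e3
    exact left_eq_add.1 e3.symm
  · intro d hd u hu hL
    have e1 := hψ u
    have e0 : pr0 p u = u := by
      rw [pr0_mem p hu, if_pos]
      refine ⟨dvd_zero _, ?_⟩
      have e2 : (∑ i : Fin m, (d (Sum.inl i) : ℤ)) = ∑ j : Fin n, (d (Sum.inr j) : ℤ) := by
        have := hd
        unfold Bal at this
        exact_mod_cast this
      rw [e2, sub_self]
      exact dvd_zero _
    rw [e0] at e1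
    rw [← hh']
    exact uniq (NR.coe ⟨Lam K p u, hL⟩) e1

end FSig
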