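import Pool.Agent.Lib.FSig.TDefs

/-!
# MP_05de8f_ag : polarisation operators (definitions for the recursion, section 8)
-/

namespace FSig

open MvPolynomial

variable {V : Type*} (K : Type*) [CommRing K]

/-- polarisation `a_j ∂/∂a_i + b_j ∂/∂b_i` (replaces one vector `i` by `j`) -/
noncomputable def polP (i j : V) : T V K →ₗ[K] T V K :=
  (LinearMap.mulLeft K (va K j)).comp (pderiv (R := K) (i, false)).toLinearMap
    + (LinearMap.mulLeft K (vb K j)).comp (pderiv (R := K) (i, true)).toLinearMap

/-- `∂/∂a_i ∂/∂b_j - ∂/∂b_i ∂/∂a_j` -/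
noncomputable def omO (i j : V) : T V K →ₗ[K] T V K :=
  (pderiv (R := K) (i, false)).toLinearMap.comp (pderiv (R := K) (j, true)).toLinearMap
    - (pderiv (R := K) (i, true)).toLinearMap.comp (pderiv (R := K) (j, false)).toLinearMap

lemma polP_apply (i j : V) (f : T V K) :
    polP K i j f = va K j * pderiv (i, false) f + vb K j * pderiv (i, true) f := rfl

lemma omO_apply (i j : V) (f : T V K) :
    omO K i j f = pderiv (i, false) (pderiv (j, true) f)
      - pderiv (i, true) (pderiv (j, false) f) := rfl

end FSig
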