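import Pool.Agent.Lib.FSig.GDefs
import Pool.Agent.Lib.FSig.LinT

/-!
# Module RkA: the rank is bounded, and the first comparison

Everywhere `ε : R → K` is a `K`-algebra homomorphism, `K` perfect of characteristic `p`, `q = p ^ e`.
For `φ` with `PL q φ` the map `f ↦ ε (φ f)` is additive, kills `frobPow ε q` and multiplies
`c ^ q • f` by `c : K`.
-/

namespace Pool.FSig

section aux

variable {K R : Type*} [Field K] [CommRing R] [Algebra K R]

private theorem rkA_kill (ε : R →ₐ[K] K) {q : ℕ} {φ : R →+ R} (hφ : PL q φ) {z : R}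
    (hz : z ∈ frobPow (ε : R →+* K) q) : ε (φ z) = 0 := by
  have h : ∀ u : R, ε (φ (u * z)) = 0 := by
    unfold frobPow at hz
    induction hz using Submodule.span_induction with
    | mem x hx =>
      intro u
      obtain ⟨y, hy, rfl⟩ := hx
      rw [mul_comm, hφ, map_mul]
      have hy' : ε y = 0 := hy
      rw [hy', zero_mul]
    | zero =>
      intro u
      rw [mul_zero, map_zero, map_zero]
    | add x y _ _ hx hy =>
      intro u
      rw [mul_add, map_add, map_add, hx, hy, add_zero]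
    | smul a x _ hx =>
      intro u
      rw [smul_eq_mul, ← mul_assoc]
      exact hx (u * a)
  have h1 := h 1
  rwa [one_mul] at h1

private theorem rkA_smul (ε : R →ₐ[K] K) {q : ℕ} {φ : R →+ R} (hφ : PL q φ) (c : K) (f : R) :
    ε (φ (c ^ q • f)) = c * ε (φ f) := by
  rw [Algebra.smul_def, map_pow, hφ, map_mul, AlgHom.commutes]
  rfl

private theorem rkA_root {p : ℕ} (hK : ∀ c : K, ∃ c' : K, c' ^ p = c) (e : ℕ) (c : K) :
    ∃ c' : K, c' ^ p ^ e = c := by
  induction e with
  | zero => exact ⟨c, by rw [pow_zero, pow_one]⟩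
  | succ e ih =>
    obtain ⟨d, hd⟩ := ih
    obtain ⟨c', hc'⟩ := hK d
    refine ⟨c', ?_⟩
    rw [pow_succ', pow_mul, hc', hd]

/-- The vectors of the values on a combination of the generators lie in the span of the vectors of
the generators. -/
private theorem rkA_mem (ε : R →ₐ[K] K) {p : ℕ} (hK : ∀ c : K, ∃ c' : K, c' ^ p = c) {e D a : ℕ}
    {φ : Fin a → (R →+ R)} (hφ : ∀ i, PL (p ^ e) (φ i)) (g : Fin D → R) (c : Fin D → K) :
    (fun i => ε (φ i (∑ k, c k • g k))) ∈
      Submodule.span K (Set.range fun k => fun i => ε (φ i (g k))) := by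
  choose c' hc' using fun k => rkA_root hK e (c k)
  have h : (fun i => ε (φ i (∑ k, c k • g k))) =
      ∑ k, c' k • (fun i => ε (φ i (g k)) : Fin a → K) := by
    funext i
    rw [Finset.sum_apply, map_sum, map_sum]
    refine Finset.sum_congr rfl fun k _ => ?_
    rw [← hc', rkA_smul ε (hφ i)]
    rfl
  rw [h]
  exact Submodule.sum_mem _ fun k _ => Submodule.smul_mem _ _ (Submodule.subset_span ⟨k, rfl⟩)

private theorem rkA_sup {W P : Type*} [AddCommGroup W] [Module K W] [Module.Finite K W]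
    (S : P → Submodule K W) (s : Finset P) :
    Module.finrank K (s.sup S : Submodule K W) ≤ ∑ α ∈ s, Module.finrank K (S α) := by
  classical
  induction s using Finset.induction_on with
  | empty =>
    rw [Finset.sup_empty, finrank_bot]
    exact Nat.zero_le _
  | insert a s ha ih =>
    rw [Finset.sup_insert, Finset.sum_insert ha]
    exact (Submodule.finrank_add_le_finrank_add_finrank _ _).trans (Nat.add_le_add_left ih _)

end aux

theorem hasRk_le {K R : Type*} [Field K] [CommRing R] [Algebra K R] (p : ℕ) [Fact p.Prime]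
    [CharP K p] (hK : ∀ c : K, ∃ c' : K, c' ^ p = c) (ε : R →ₐ[K] K) (e D : ℕ)
    (hD : SpanMod K (frobPow (ε : R →+* K) (p ^ e)) D) (a : ℕ)
    (h : HasRk (ε : R →+* K) (p ^ e) a) : a ≤ D := by
  obtain ⟨g, hg⟩ := hD
  obtain ⟨φ, f, hφ, hdet⟩ := h
  have h1 := span_eq_top_of_det (ε : R →+* K) φ f hdet
  have h2 : (⊤ : Submodule K (Fin a → K)) ≤
      Submodule.span K (Set.range fun k => fun i => ε (φ i (g k))) := by
    rw [← h1, Submodule.span_le]
    rintro _ ⟨x, rfl⟩
    obtain ⟨c, hc⟩ := hg x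
    have h3 : (fun i => (ε : R →+* K) (φ i x)) = fun i => ε (φ i (∑ k, c k • g k)) := by
      funext i
      have h4 := rkA_kill ε (hφ i) hc
      rw [map_sub, map_sub, sub_eq_zero] at h4
      exact h4
    dsimp only
    rw [h3]
    exact rkA_mem ε hK hφ g c
  have h3 : Module.finrank K (⊤ : Submodule K (Fin a → K)) ≤
      Module.finrank K (Submodule.span K (Set.range fun k => fun i => ε (φ i (g k)))) :=
    Submodule.finrank_mono h2
  rw [finrank_top, Module.finrank_fin_fun] at h3
  refine h3.trans ((finrank_range_le_card (R := K) fun k => fun i => ε (φ i (g k))).trans ?_)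
  rw [Fintype.card_fin]

theorem rk_mul_le {K R P : Type*} [Field K] [CommRing R] [Algebra K R] [Fintype P] (p : ℕ)
    [Fact p.Prime] [CharP K p] (hK : ∀ c : K, ∃ c' : K, c' ^ p = c) (ε : R →ₐ[K] K) (e D B B' : ℕ)
    (y : P → R) (c : R) (hc : ∀ u : R, ∃ r : P → R, c ^ p * u = ∑ α, r α ^ p * y α)
    (hD : SpanMod K (Ideal.span {c ^ p} ⊔ frobPow (ε : R →+* K) (p ^ (e + 1))) D)
    (hB : ∀ a, HasRk (ε : R →+* K) (p ^ e) a → a ≤ B)
    (hB' : ∀ a, HasRk (ε : R →+* K) (p ^ (e + 1)) a → a ≤ B') :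
    rk (ε : R →+* K) (p ^ (e + 1)) ≤ Fintype.card P * rk (ε : R →+* K) (p ^ e) + D := by
  have hnt : Nontrivial R := ⟨⟨0, 1, fun h => zero_ne_one (α := K) (by
    rw [← map_zero ε, ← map_one ε, h])⟩⟩
  have hchar : CharP R p := charP_of_injective_algebraMap (algebraMap K R).injective p
  obtain ⟨g, hg⟩ := hD
  obtain ⟨φ, f, hφ, hdet⟩ := exists_hasRk_rk (ε : R →+* K) hB'
  generalize rk (ε : R →+* K) (p ^ (e + 1)) = n at φ f hφ hdet ⊢
  let ψ : P → Fin n → (R →+ R) := fun α i =>
    (φ i).comp ((AddMonoidHom.mulRight (y α)).comp (frobenius R p).toAddMonoidHom)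
  have hψ : ∀ α i r, ψ α i r = φ i (r ^ p * y α) := fun α i r => rfl
  have hψPL : ∀ α i, PL (p ^ e) (ψ α i) := by
    intro α i s r
    rw [hψ, hψ, mul_pow, ← pow_mul, ← pow_succ, mul_assoc]
    exact hφ i _ _
  let W : P → Submodule K (Fin n → K) := fun α =>
    Submodule.span K (Set.range fun r : R => fun i => (ε : R →+* K) (ψ α i r))
  have hW : ∀ α, Module.finrank K (W α) ≤ rk (ε : R →+* K) (p ^ e) := fun α =>
    finrank_span_le_rk (ε : R →+* K) hB (ψ α) (hψPL α)
  have h1 := span_eq_top_of_det (ε : R →+* K) φ f hdet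
  have h2 : (⊤ : Submodule K (Fin n → K)) ≤
      Submodule.span K (Set.range fun k => fun i => ε (φ i (g k))) ⊔
        (Finset.univ : Finset P).sup W := by
    rw [← h1, Submodule.span_le]
    rintro _ ⟨x, rfl⟩
    obtain ⟨d, hd⟩ := hg x
    obtain ⟨z, hz, v, hv, hzv⟩ := Submodule.mem_sup.1 hd
    obtain ⟨u, rfl⟩ := Ideal.mem_span_singleton'.1 hz
    obtain ⟨r, hr⟩ := hc u
    have h3 : (fun i => (ε : R →+* K) (φ i x)) = (fun i => ε (φ i (∑ k, d k • g k))) +
        ∑ α, (fun i => (ε : R →+* K) (ψ α i (r α)) : Fin n → K) := by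
      funext i
      have h4 : x = ∑ k, d k • g k + (∑ α, r α ^ p * y α + v) := by
        rw [← hr, mul_comm (c ^ p) u, hzv]
        ring
      have h5 := rkA_kill ε (hφ i) hv
      rw [Pi.add_apply, Finset.sum_apply]
      change ε (φ i x) = ε (φ i (∑ k, d k • g k)) + ∑ α, ε (φ i (r α ^ p * y α))
      conv_lhs => rw [h4]
      have h6 : ε (φ i (∑ α, r α ^ p * y α)) = ∑ α, ε (φ i (r α ^ p * y α)) := by
        rw [map_sum, map_sum]
      rw [map_add, map_add, map_add, map_add, h5, add_zero, h6]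
    dsimp only
    rw [h3]
    refine Submodule.add_mem_sup (rkA_mem ε hK hφ g d) (Submodule.sum_mem _ fun α _ => ?_)
    exact (Finset.le_sup (f := W) (Finset.mem_univ α)) (Submodule.subset_span ⟨r α, rfl⟩)
  have h3 := Submodule.finrank_mono h2
  rw [finrank_top, Module.finrank_fin_fun] at h3
  refine h3.trans ((Submodule.finrank_add_le_finrank_add_finrank _ _).trans ?_)
  rw [add_comm]
  refine Nat.add_le_add ((rkA_sup W Finset.univ).trans ?_) ?_
  · refine (Finset.sum_le_card_nsmul _ _ _ fun α _ => hW α).trans ?_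
    rw [Finset.card_univ, smul_eq_mul]
  · refine (finrank_range_le_card (R := K) fun k => fun i => ε (φ i (g k))).trans ?_
    rw [Fintype.card_fin]

end Pool.FSig
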