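import Pool.Agent.Lib.FSig.GDefs
import Pool.Agent.Lib.FSig.LinT

/-!
# Module RkB: the second comparison (U2)

`κ α : R → R` are linear (`PL p`) with `κ α (∑ β, r β ^ p * y β) = c * r α`.

Proof. `n = rk ε q`, `φ i, f j` (`i, j : Fin n`) from `exists_hasRk_rk`, `θ f = (ε (φ i f))_i ∈ K ^ n`; the span of
`θ R` is everything (`span_eq_top_of_det`). By `hD` every `f` is `∑ c' k • g k + c * u + v`,
`v ∈ frobPow ε q`, and `θ (c' • g) = (c'^(1/q)) • θ g` (`hK` iterated), `θ v = 0`; so
`⊤ = span (θ (g k)) + W`, `W = span {θ (c * u)}`, and `n ≤ D + finrank W`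
(`Submodule.finrank_add_le_finrank_add_finrank`, `finrank_span_le_card`).
Put `Θ f : Fin n × P → K`, `Θ f (i, α) = ε (φ i (κ α f))`. The maps `φ i ∘ κ α` are `PL (p ^ (e+1))`
(`r ^ (p^(e+1)) = (r ^ q) ^ p`, `κ α ((r ^ q) ^ p f) = r ^ q κ α f`), so `finrank (span (Θ R)) ≤ rk ε (p ^ (e+1))`
(`finrank_span_le_rk`). For `u : R`, `β : P` the element `u ^ p * y β` has `κ α = c * u` if `α = β`, `0`
otherwise, so `Θ` of it is `θ (c * u)` placed in the column `β`. So the span of `Θ R` contains the image of `W` under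
each inclusion of `K ^ n` in `K ^ (n × P)` as a column, and these images are independent: its dimension is
at least `card P * finrank W` (e.g. the linear map `(P → W) → (Fin n × P → K)` is injective with image in
the span; `LinearMap.finrank_le_finrank_of_injective`, `Module.finrank_pi_fintype`). Hence
`card P * n ≤ card P * finrank W + card P * D ≤ rk ε (p^(e+1)) + card P * D`.
-/

namespace Pool.FSig

/-- iterated roots -/
private theorem rkb_root {K : Type*} [Field K] (p : ℕ) (hK : ∀ c : K, ∃ c' : K, c' ^ p = c) :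
    ∀ (e : ℕ) (c : K), ∃ c' : K, c' ^ (p ^ e) = c
  | 0, c => ⟨c, by rw [pow_zero, pow_one]⟩
  | e + 1, c => by
    obtain ⟨d, hd⟩ := hK c
    obtain ⟨d', hd'⟩ := rkb_root p hK e d
    exact ⟨d', by rw [pow_succ, pow_mul, hd', hd]⟩

/-- scalars come out as roots -/
private theorem rkb_smul {K R : Type*} [Field K] [CommRing R] [Algebra K R] (ε : R →ₐ[K] K)
    (q : ℕ) (φ : R →+ R) (hφ : PL q φ) (d : K) (g : R) :
    (ε : R →+* K) (φ ((d ^ q) • g)) = d * (ε : R →+* K) (φ g) := by
  rw [Algebra.smul_def, map_pow, hφ, map_mul]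
  congr 1
  exact ε.commutes d

/-- elements of the Frobenius power are killed -/
private theorem rkb_frob {K R : Type*} [Field K] [CommRing R] [Algebra K R] (ε : R →ₐ[K] K)
    (q : ℕ) (φ : R →+ R) (hφ : PL q φ) (v : R) (hv : v ∈ frobPow (ε : R →+* K) q) :
    ∀ r : R, (ε : R →+* K) (φ (r * v)) = 0 := by
  unfold frobPow at hv
  induction hv using Submodule.span_induction with
  | mem x hx =>
    intro r
    obtain ⟨y, hy, rfl⟩ := hx
    rw [mul_comm r, hφ, map_mul, hy, zero_mul]
  | zero =>
    intro r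
    rw [mul_zero, map_zero, map_zero]
  | add x y _ _ h1 h2 =>
    intro r
    rw [mul_add, map_add, map_add, h1, h2, add_zero]
  | smul a x _ h =>
    intro r
    rw [smul_eq_mul, ← mul_assoc]
    exact h (r * a)

/-- the column inclusion -/
private def rkbCol {K P : Type*} [Field K] [DecidableEq P] (n : ℕ) (β : P) :
    (Fin n → K) →ₗ[K] (Fin n × P → K) where
  toFun w := fun iα => if iα.2 = β then w iα.1 else 0
  map_add' v w := by
    funext iα
    show (if iα.2 = β then v iα.1 + w iα.1 else 0) = _ + _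
    by_cases h : iα.2 = β
    · simp only [if_pos h]
    · simp only [if_neg h, add_zero]
  map_smul' a v := by
    funext iα
    show (if iα.2 = β then a * v iα.1 else 0) = a * _
    by_cases h : iα.2 = β
    · simp only [if_pos h]
    · simp only [if_neg h, mul_zero]

private theorem rkbCol_apply {K P : Type*} [Field K] [DecidableEq P] (n : ℕ) (β : P)
    (w : Fin n → K) (iα : Fin n × P) :
    rkbCol n β w iα = if iα.2 = β then w iα.1 else 0 := rfl

/-- dimension count for the columns -/
private theorem rkb_cols {K P : Type*} [Field K] [Fintype P] [DecidableEq P] (n : ℕ)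
    (W : Submodule K (Fin n → K)) (S : Submodule K (Fin n × P → K))
    (hW : ∀ (β : P), ∀ w ∈ W, rkbCol n β w ∈ S) :
    Fintype.card P * Module.finrank K W ≤ Module.finrank K S := by
  let L0 : (P → W) →ₗ[K] (Fin n × P → K) :=
    ∑ β : P, (rkbCol n β).comp (W.subtype.comp (LinearMap.proj β))
  have hL0 : ∀ (w : P → W) (iα : Fin n × P), L0 w iα = (w iα.2 : Fin n → K) iα.1 := by
    intro w iα
    show (∑ β : P, (rkbCol n β).comp (W.subtype.comp (LinearMap.proj β))) w iα = _
    rw [LinearMap.sum_apply, Finset.sum_apply]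
    rw [Finset.sum_eq_single iα.2]
    · show rkbCol n iα.2 (w iα.2 : Fin n → K) iα = _
      rw [rkbCol_apply, if_pos rfl]
    · intro β _ hβ
      show rkbCol n β (w β : Fin n → K) iα = 0
      rw [rkbCol_apply, if_neg (fun h => hβ h.symm)]
    · intro h
      exact absurd (Finset.mem_univ _) h
  have hmem : ∀ w : P → W, L0 w ∈ S := by
    intro w
    show (∑ β : P, (rkbCol n β).comp (W.subtype.comp (LinearMap.proj β))) w ∈ S
    rw [LinearMap.sum_apply]
    refine Submodule.sum_mem _ fun β _ => ?_
    exact hW β _ (w β).2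
  let L : (P → W) →ₗ[K] S := L0.codRestrict S hmem
  have hinj : Function.Injective L := by
    intro w w' h
    have h1 : L0 w = L0 w' := congrArg Subtype.val h
    funext β
    apply Subtype.ext
    funext i
    have h2 := congrFun h1 (i, β)
    rw [hL0, hL0] at h2
    exact h2
  have h := LinearMap.finrank_le_finrank_of_injective hinj
  rw [Module.finrank_pi_fintype, Finset.sum_const, Finset.card_univ, smul_eq_mul] at h
  exact h

theorem mul_rk_le {K R P : Type*} [Field K] [CommRing R] [Algebra K R] [Fintype P] [DecidableEq P]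
    (p : ℕ) [Fact p.Prime] [CharP K p] (hK : ∀ c : K, ∃ c' : K, c' ^ p = c) (ε : R →ₐ[K] K)
    (e D B B' : ℕ) (y : P → R) (c : R) (κ : P → (R →+ R)) (hκ : ∀ α, PL p (κ α))
    (hc : ∀ (r : R) (α β : P), κ α (r ^ p * y β) = if α = β then c * r else 0)
    (hD : SpanMod K (Ideal.span {c} ⊔ frobPow (ε : R →+* K) (p ^ e)) D)
    (hB : ∀ a, HasRk (ε : R →+* K) (p ^ e) a → a ≤ B)
    (hB' : ∀ a, HasRk (ε : R →+* K) (p ^ (e + 1)) a → a ≤ B') :
    Fintype.card P * rk (ε : R →+* K) (p ^ e) ≤
      rk (ε : R →+* K) (p ^ (e + 1)) + Fintype.card P * D := by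
  obtain ⟨φ, f, hφ, hdet⟩ := exists_hasRk_rk (ε : R →+* K) hB
  have htop := span_eq_top_of_det (ε : R →+* K) φ f hdet
  revert φ f
  generalize rk (ε : R →+* K) (p ^ e) = n
  intro φ f hφ hdet htop
  obtain ⟨g, hg⟩ := hD
  -- the space `W`
  let θ : R → (Fin n → K) := fun x i => (ε : R →+* K) (φ i x)
  let W : Submodule K (Fin n → K) := Submodule.span K (Set.range fun u : R => θ (c * u))
  let G : Submodule K (Fin n → K) := Submodule.span K (Set.range fun k : Fin D => θ (g k))
  have hθadd : ∀ a b : R, θ (a + b) = θ a + θ b := by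
    intro a b
    funext i
    show (ε : R →+* K) (φ i (a + b)) = _
    rw [map_add, map_add]
    rfl
  have hθsum : ∀ (s : Finset (Fin D)) (h : Fin D → R), θ (∑ k ∈ s, h k) = ∑ k ∈ s, θ (h k) := by
    intro s h
    funext i
    show (ε : R →+* K) (φ i (∑ k ∈ s, h k)) = _
    rw [map_sum, map_sum, Finset.sum_apply]
  have h1 : (⊤ : Submodule K (Fin n → K)) ≤ G ⊔ W := by
    rw [← htop, Submodule.span_le]
    rintro _ ⟨x, rfl⟩
    show θ x ∈ G ⊔ W
    obtain ⟨d, hd⟩ := hg x
    obtain ⟨a, ha, v, hv, hav⟩ := Submodule.mem_sup.1 hd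
    obtain ⟨u, rfl⟩ := Ideal.mem_span_singleton'.1 ha
    have hx : x = ∑ k, d k • g k + (c * u + v) := by
      rw [mul_comm c u, hav]
      ring
    rw [hx, hθadd, hθadd, hθsum]
    have hv0 : θ v = 0 := by
      funext i
      have := rkb_frob ε (p ^ e) (φ i) (hφ i) v hv 1
      rw [one_mul] at this
      exact this
    rw [hv0, add_zero]
    refine Submodule.add_mem_sup ?_ (Submodule.subset_span ⟨u, rfl⟩)
    refine Submodule.sum_mem _ fun k _ => ?_
    obtain ⟨d', hd'⟩ := rkb_root p hK e (d k)
    have e1 : θ (d k • g k) = d' • θ (g k) := by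
      funext i
      show (ε : R →+* K) (φ i (d k • g k)) = d' * (ε : R →+* K) (φ i (g k))
      rw [← hd']
      exact rkb_smul ε (p ^ e) (φ i) (hφ i) d' (g k)
    rw [e1]
    exact Submodule.smul_mem _ _ (Submodule.subset_span ⟨k, rfl⟩)
  have h2 : n ≤ D + Module.finrank K W := by
    have e1 : Module.finrank K (⊤ : Submodule K (Fin n → K)) = n := by
      rw [finrank_top, Module.finrank_fin_fun]
    have e2 : Module.finrank K (⊤ : Submodule K (Fin n → K)) ≤ Module.finrank K ↥(G ⊔ W) :=
      Submodule.finrank_mono h1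
    have e3 : Module.finrank K ↥(G ⊔ W) ≤ Module.finrank K G + Module.finrank K W :=
      Submodule.finrank_add_le_finrank_add_finrank G W
    have e4 : Module.finrank K G ≤ D := by
      have := finrank_range_le_card (R := K) (fun k : Fin D => θ (g k))
      rw [Fintype.card_fin] at this
      exact this
    omega
  -- the second pairing
  let ψ : Fin n × P → (R →+ R) := fun iα => (φ iα.1).comp (κ iα.2)
  have hψ : ∀ iα, PL (p ^ (e + 1)) (ψ iα) := by
    intro iα r x
    show φ iα.1 (κ iα.2 (r ^ (p ^ (e + 1)) * x)) = r * φ iα.1 (κ iα.2 x)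
    rw [pow_succ, pow_mul, hκ, hφ]
  have h3 := finrank_span_le_rk (ε : R →+* K) hB' ψ hψ
  have h4 := rkb_cols n W
    (Submodule.span K (Set.range fun x : R => fun iα => (ε : R →+* K) (ψ iα x))) (by
      intro β w hw
      have hle : W ≤ (Submodule.span K
          (Set.range fun x : R => fun iα => (ε : R →+* K) (ψ iα x))).comap (rkbCol n β) := by
        refine Submodule.span_le.2 ?_
        rintro _ ⟨u, rfl⟩
        refine Submodule.subset_span ⟨u ^ p * y β, ?_⟩
        funext iα
        show (ε : R →+* K) (φ iα.1 (κ iα.2 (u ^ p * y β))) = rkbCol n β (θ (c * u)) iα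
        rw [rkbCol_apply, hc]
        by_cases h : iα.2 = β
        · rw [if_pos h, if_pos h]
        · rw [if_neg h, if_neg h, map_zero, map_zero]
      exact hle hw)
  calc Fintype.card P * n ≤ Fintype.card P * (D + Module.finrank K W) :=
        Nat.mul_le_mul_left _ h2
    _ = Fintype.card P * Module.finrank K W + Fintype.card P * D := by ring
    _ ≤ _ := Nat.add_le_add_right (h4.trans h3) _

end Pool.FSig
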