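import Pool.Agent.Lib.FSig.RkUp
import Pool.Agent.Lib.FSig.LowA
import Pool.Agent.Lib.FSig.LowB

/-!
# MP_05de8f_ag : global lower bound for the rank (module RkLow)

THEOREM `rk_bounds`: `∑_{d ∈ boxS} lb p d ≤ rk (Rp) p mRp ≤ ∑_{d ∈ boxS} ub p d` (`m, n ≥ 3`, `m + n < p`).

PROOF. For `d ∈ boxS m n 0 (2p-2)` take `r_d, φ_{d,i}, f_{d,j}` from `low_A` or `low_B`. Index set `ι = Σ d : {d // d ∈ boxS}, Fin (r_d)`, `card ι = ∑ r_d = ∑ lb p d`. The matrix `(constantCoeff (φ_{d,i} f_{d',j}))` is block diagonal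
(zero for `d ≠ d'`), its determinant is the product of the blocks (`Matrix.det_blockDiagonal'`), nonzero. Transport along `ι ≃ Fin (card ι)` (`Matrix.det_reindex_self` / `det_submatrix_equiv_self`): `card ι ∈ rkSet`:
`det (φ_i f_j) ∉ mRp` iff `constantCoeff (det ..) ≠ 0` (`mRp = ker`, `RingHom.map_det`). `rkSet` is bounded above (`rk_upper`), so `card ι ≤ sSup`, and `sSup ∈ rkSet` (`Nat.sSup_mem`, nonempty: `0 ∈ rkSet`, the empty determinant is `1 ∉ mRp`) gives the upper bound.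
-/

namespace FSig

open MvPolynomial Finset

variable {m n : ℕ} (K : Type*) [Field K] (p : ℕ) [Fact p.Prime] [CharP K p] [PerfectRing K p]

private theorem rkl_mem {p : ℕ} {d : Vx m n →₀ ℕ} (hd : d ∈ boxS m n 0 (2 * p - 2)) :
    Bal d ∧ ∀ v, d v ≤ 2 * p - 2 := by
  classical
  unfold boxS at hd
  rw [Finset.mem_filter, Finset.mem_Icc] at hd
  exact ⟨hd.2, fun v => hd.1.2 v⟩

private theorem rkl_det {F o : Type*} [Field F] [Fintype o] [DecidableEq o] {t : o → Type*}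
    [∀ k, Fintype (t k)] [∀ k, DecidableEq (t k)] (M : ∀ k, Matrix (t k) (t k) F)
    (h : ∀ k, (M k).det ≠ 0) : (Matrix.blockDiagonal' M).det ≠ 0 := by
  have h1 : Matrix.blockDiagonal' M * Matrix.blockDiagonal' (fun k => (M k)⁻¹) = 1 := by
    rw [← Matrix.blockDiagonal'_mul]
    have h2 : (fun k => M k * (M k)⁻¹) = (1 : ∀ k, Matrix (t k) (t k) F) := by
      funext k
      exact Matrix.mul_nonsing_inv _ (isUnit_iff_ne_zero.2 (h k))
    rw [h2, Matrix.blockDiagonal'_one]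
  exact (Matrix.isUnit_det_of_right_inverse h1).ne_zero

private theorem rkl_loc (hm : 3 ≤ m) (hn : 3 ≤ n) (hN : m + n < p)
    (d : {d // d ∈ boxS m n 0 (2 * p - 2)}) :
    ∃ (r : ℕ) (φ : Fin r → (Rp m n K →+ Rp m n K)) (f : Fin r → Rp m n K),
      (r : ℤ) = lb p d.1 ∧ (∀ i, PLin p (φ i)) ∧ (∀ j, (f j : T (Vx m n) K) ∈ S K d.1 0) ∧
      (Matrix.of fun i j => constantCoeff (φ i (f j) : T (Vx m n) K)).det ≠ 0 ∧
      ∀ i, ∀ d' : Vx m n →₀ ℕ, d' ≠ d.1 → ∀ g : Rp m n K, (g : T (Vx m n) K) ∈ S K d' 0 →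
        constantCoeff (φ i g : T (Vx m n) K) = 0 := by
  obtain ⟨hb, h2⟩ := rkl_mem d.2
  by_cases hA : ∀ v, p ≤ d.1 v
  · exact low_B K p hm hn hN hb h2 hA
  · exact low_A K p hN hb h2 hA

theorem rk_bounds (hm : 3 ≤ m) (hn : 3 ≤ n) (hN : m + n < p) :
    (∑ d ∈ boxS m n 0 (2 * p - 2), lb p d) ≤ (rk (Rp m n K) p (mRp m n K) : ℤ) ∧
      (rk (Rp m n K) p (mRp m n K) : ℤ) ≤ ∑ d ∈ boxS m n 0 (2 * p - 2), ub p d := by
  classical
  have hupper : ∀ a ∈ rkSet (Rp m n K) p (mRp m n K),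
      (a : ℤ) ≤ ∑ d ∈ boxS m n 0 (2 * p - 2), ub p d := fun a ha => rk_upper p hm hn hN ha
  choose r φ f h1 h2 h3 h4 h5 using rkl_loc K p hm hn hN
  have hblock : (Matrix.of fun (x y : Σ d : {d // d ∈ boxS m n 0 (2 * p - 2)}, Fin (r d)) =>
      constantCoeff (φ x.1 x.2 (f y.1 y.2) : T (Vx m n) K)) =
      Matrix.blockDiagonal' (fun d => Matrix.of fun i j =>
        constantCoeff (φ d i (f d j) : T (Vx m n) K)) := by
    ext ⟨d, i⟩ ⟨d', j⟩
    rw [Matrix.of_apply]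
    by_cases h : d = d'
    · subst h
      rw [Matrix.blockDiagonal'_apply_eq, Matrix.of_apply]
    · rw [Matrix.blockDiagonal'_apply_ne _ _ _ h]
      exact h5 d i d'.1 (fun h' => h (Subtype.ext h'.symm)) (f d' j) (h3 d' j)
  have hdet : (Matrix.of fun (x y : Σ d : {d // d ∈ boxS m n 0 (2 * p - 2)}, Fin (r d)) =>
      constantCoeff (φ x.1 x.2 (f y.1 y.2) : T (Vx m n) K)).det ≠ 0 := by
    rw [hblock]
    exact rkl_det _ h4
  have hmem : Fintype.card (Σ d : {d // d ∈ boxS m n 0 (2 * p - 2)}, Fin (r d)) ∈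
      rkSet (Rp m n K) p (mRp m n K) := by
    let e := Fintype.equivFin (Σ d : {d // d ∈ boxS m n 0 (2 * p - 2)}, Fin (r d))
    refine ⟨fun i => φ (e.symm i).1 (e.symm i).2, fun j => f (e.symm j).1 (e.symm j).2,
      fun i => h2 _ _, ?_⟩
    intro hdm
    unfold mRp at hdm
    rw [RingHom.mem_ker, RingHom.map_det] at hdm
    apply hdet
    rw [← Matrix.det_submatrix_equiv_self e.symm]
    exact hdm
  have hcard : ((Fintype.card (Σ d : {d // d ∈ boxS m n 0 (2 * p - 2)}, Fin (r d)) : ℕ) : ℤ) =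
      ∑ d ∈ boxS m n 0 (2 * p - 2), lb p d := by
    rw [Fintype.card_sigma, Nat.cast_sum,
      ← Finset.sum_coe_sort (boxS m n 0 (2 * p - 2)) (fun d => lb p d)]
    refine Finset.sum_congr rfl fun d _ => ?_
    rw [Fintype.card_fin]
    exact h1 d
  have hbdd : BddAbove (rkSet (Rp m n K) p (mRp m n K)) :=
    ⟨(∑ d ∈ boxS m n 0 (2 * p - 2), ub p d).toNat, fun a ha => by
      have := hupper a ha
      omega⟩
  constructor
  · rw [← hcard]
    exact_mod_cast le_csSup hbdd hmem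
  · exact hupper _ (Nat.sSup_mem ⟨_, hmem⟩ hbdd)

end FSig
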