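import Pool.Agent.Lib.FSig.UpLoc

/-!
# MP_05de8f_ag : global upper bound for the rank (module RkUp)

THEOREM `rk_upper`: every `a ∈ rkSet (Rp) p mRp` satisfies `a ≤ ∑_{d ∈ boxS m n 0 (2p-2)} ub p d` (`m + n < p`, `m, n ≥ 3`).

PROOF. For `d ∈ boxS` (balanced, `d v ≤ 2p-2`) let `J_d` be as in `up_loc`. `Π : Rp →ₗ ∏_{d ∈ boxS} T/J_d`, `f ↦ (J_d.mkQ (component (d,0) f))_d`, `component = weightedHomogeneousComponent gr (d,0)`; the component of `f ∈ Rp` is in
`RS d` (`Rp_component`, `component_mem`). (1) `range Π ≤ ∏ (RS d).map mkQ`, so `finrank (range Π) ≤ ∑_d finrank ((RS d).map mkQ) ≤ ∑ ub p d` (`Submodule.pi` and `finrank_pi`-type lemma, `RS d` is finite-dimensional; index the product by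
the finite type `{d // d ∈ boxS}`).
(2) if `Π f = 0` and `φ` is `p^{-1}`-linear then `constantCoeff (φ f) = 0`: `f = ∑_{(d,w)} component` (finite sum `exists_sum_component`), the components vanish unless `d` is balanced and `w = 0` (`Rp_component_zero`); `φ` is additive; for `d` balanced with some
`d v > 2p-2` use `upper_big`, otherwise `d ∈ boxS`, the component lies in `J_d` (`Submodule.Quotient.mk_eq_zero`), use `up_loc`.
(3) `a ∈ rkSet`: `φ_i`, `f_j`, `det (φ_i f_j) ∉ mRp`, i.e. `constantCoeff (det ..) = det (constantCoeff (φ_i f_j)) ≠ 0`, its `p`-th power is `det (lamFun φ_i f_j) ≠ 0` (`RingHom.map_det` for the Frobenius). So the `Π f_j`, `j : Fin a`, are linearly independent: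
`∑ c_j Π f_j = 0` gives `Π (∑ c_j f_j) = 0`, `lamFun φ_i (∑ c_j f_j) = 0` for all `i` by (2), so the matrix `(lamFun φ_i f_j)` kills `c`, `c = 0` (`Matrix.eq_zero_of_mulVec_eq_zero`). Hence `a ≤ finrank (range Π)`.
(`LinearIndependent.fintype_card_le_finrank` inside the finite-dimensional `range Π` or the finite-dimensional product of the `(RS d).map mkQ`.)
-/

namespace FSig

open MvPolynomial Finset

variable {m n : ℕ} {K : Type*} [Field K] (p : ℕ) [Fact p.Prime] [CharP K p] [PerfectRing K p]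

private lemma rkup_box {m n : ℕ} {d : Vx m n →₀ ℕ} {hi : ℕ} :
    d ∈ boxS m n 0 hi ↔ Bal d ∧ ∀ v, d v ≤ hi := by
  classical
  unfold boxS
  rw [Finset.mem_filter, Finset.mem_Icc, and_comm]
  refine and_congr Iff.rfl ⟨fun h v => h.2 v, fun h => ⟨fun v => Nat.zero_le _, fun v => h v⟩⟩

/-- the component of multidegree `d` and weight `0`, modulo `J` -/
private noncomputable def rkupPi (K : Type*) [Field K] (d : Vx m n →₀ ℕ)
    (J : Submodule K (T (Vx m n) K)) : Rp m n K →ₗ[K] (RS K d).map J.mkQ :=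
  LinearMap.codRestrict _ (J.mkQ ∘ₗ
    (weightedHomogeneousComponent (R := K) (gr (V := Vx m n)) (d, 0)) ∘ₗ
      (Rp m n K).val.toLinearMap) fun f => by
    refine ⟨_, ?_, rfl⟩
    exact Submodule.mem_inf.2 ⟨component_mem K _ d 0, Rp_component K f.2 d 0⟩

private lemma rkup_zero (hm : 3 ≤ m) (hn : 3 ≤ n) (hN : m + n < p)
    (J : (Vx m n →₀ ℕ) → Submodule K (T (Vx m n) K))
    (hJ : ∀ d ∈ boxS m n 0 (2 * p - 2), ∀ (φ : Rp m n K →+ Rp m n K), PLin p φ →
      ∀ g : Rp m n K, (g : T (Vx m n) K) ∈ S K d 0 →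
        (g : T (Vx m n) K) ∈ J d → constantCoeff (φ g : T (Vx m n) K) = 0)
    (f : Rp m n K) (hf : ∀ d ∈ boxS m n 0 (2 * p - 2), rkupPi K d (J d) f = 0)
    (φ : Rp m n K →+ Rp m n K) (hφ : PLin p φ) : constantCoeff (φ f : T (Vx m n) K) = 0 := by
  obtain ⟨s, hs⟩ := exists_sum_component K (f : T (Vx m n) K)
  have h1 : f = ∑ i ∈ s, (⟨weightedHomogeneousComponent (gr (V := Vx m n)) (i.1, i.2)
      (f : T (Vx m n) K), Rp_component K f.2 i.1 i.2⟩ : Rp m n K) := by
    apply Subtype.ext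
    rw [AddSubmonoidClass.coe_finsetSum]
    exact hs
  rw [h1, map_sum, AddSubmonoidClass.coe_finsetSum, map_sum]
  refine Finset.sum_eq_zero ?_
  rintro ⟨d, w⟩ _
  by_cases hdw : Bal d ∧ w = 0
  · obtain ⟨hd, rfl⟩ := hdw
    by_cases hb : ∀ v, d v ≤ 2 * p - 2
    · have hd' : d ∈ boxS m n 0 (2 * p - 2) := rkup_box.2 ⟨hd, hb⟩
      refine hJ d hd' φ hφ _ (component_mem K _ d 0) ?_
      have h2 := congrArg Subtype.val (hf d hd')
      exact (Submodule.Quotient.mk_eq_zero _).1 h2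
    · push Not at hb
      obtain ⟨v, hv⟩ := hb
      exact upper_big p hm hn (by omega) φ hφ hd hv _ (component_mem K _ d 0)
  · have h2 : (⟨weightedHomogeneousComponent (gr (V := Vx m n)) (d, w)
      (f : T (Vx m n) K), Rp_component K f.2 d w⟩ : Rp m n K) = 0 :=
      Subtype.ext (Rp_component_zero K f.2 d w hdw)
    change constantCoeff ((φ (⟨weightedHomogeneousComponent (gr (V := Vx m n)) (d, w)
      (f : T (Vx m n) K), Rp_component K f.2 d w⟩ : Rp m n K) : Rp m n K) : T (Vx m n) K) = 0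
    rw [h2, map_zero]
    exact map_zero _

private lemma rkup_li {K V A : Type*} [Field K] [AddCommGroup V] [Module K V] [Module.Finite K V]
    [AddCommGroup A] [Module K A] (P : A →ₗ[K] V) {a : ℕ} (f : Fin a → A) (l : Fin a → (A →ₗ[K] K))
    (hdet : (Matrix.of fun i j => l i (f j)).det ≠ 0) (hker : ∀ x, P x = 0 → ∀ i, l i x = 0) :
    a ≤ Module.finrank K V := by
  have h3 : LinearIndependent K fun j => P (f j) := by
    rw [Fintype.linearIndependent_iff]
    intro c hc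
    have h4 : P (∑ j, c j • f j) = 0 := by
      rw [map_sum, ← hc]
      exact Finset.sum_congr rfl fun j _ => map_smul _ _ _
    have h5 := hker _ h4
    have h6 : (Matrix.of fun i j => l i (f j)).mulVec c = 0 := by
      ext i
      have h7 := h5 i
      rw [map_sum] at h7
      rw [Pi.zero_apply, ← h7]
      unfold Matrix.mulVec dotProduct
      refine Finset.sum_congr rfl fun j _ => ?_
      rw [map_smul, smul_eq_mul, mul_comm]
      rfl
    exact congrFun (Matrix.eq_zero_of_mulVec_eq_zero hdet h6)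
  have h4 := h3.fintype_card_le_finrank
  rwa [Fintype.card_fin] at h4

theorem rk_upper (hm : 3 ≤ m) (hn : 3 ≤ n) (hN : m + n < p) {a : ℕ}
    (ha : a ∈ rkSet (Rp m n K) p (mRp m n K)) : (a : ℤ) ≤ ∑ d ∈ boxS m n 0 (2 * p - 2), ub p d := by
  classical
  have hex : ∀ d : Vx m n →₀ ℕ, ∃ J : Submodule K (T (Vx m n) K), d ∈ boxS m n 0 (2 * p - 2) →
      (∀ (φ : Rp m n K →+ Rp m n K), PLin p φ → ∀ g : Rp m n K, (g : T (Vx m n) K) ∈ S K d 0 →
        (g : T (Vx m n) K) ∈ J → constantCoeff (φ g : T (Vx m n) K) = 0) ∧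
      (Module.finrank K ((RS K d).map J.mkQ) : ℤ) ≤ ub p d := by
    intro d
    by_cases hd : d ∈ boxS m n 0 (2 * p - 2)
    · obtain ⟨J, hJ⟩ := up_loc (K := K) p hm hn hN (rkup_box.1 hd).1 (rkup_box.1 hd).2
      exact ⟨J, fun _ => hJ⟩
    · exact ⟨⊥, fun h => absurd h hd⟩
  choose J hJ using hex
  have hfin : ∀ d : Vx m n →₀ ℕ, Module.Finite K ((RS K d).map (J d).mkQ) := by
    intro d
    have h1 := finite_S K d 0
    have h2 : Module.Finite K (RS K d) :=
      Submodule.finiteDimensional_of_le (inf_le_left : RS K d ≤ S K d 0)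
    infer_instance
  let Pi : Rp m n K →ₗ[K] (∀ d : {d // d ∈ boxS m n 0 (2 * p - 2)},
      ((RS K (d : Vx m n →₀ ℕ)).map (J d).mkQ)) :=
    LinearMap.pi fun d => rkupPi K (d : Vx m n →₀ ℕ) (J d)
  obtain ⟨φ, f, hφ, hdet⟩ := ha
  have h1 : (Matrix.of fun i j => constantCoeff (φ i (f j) : T (Vx m n) K)).det ≠ 0 := by
    intro h0
    apply hdet
    unfold mRp
    rw [RingHom.mem_ker, RingHom.map_det]
    exact h0
  have h2 : (Matrix.of fun i j => lamFun p (φ i) (hφ i) (f j)).det ≠ 0 := by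
    have h3 : (Matrix.of fun i j => lamFun p (φ i) (hφ i) (f j)) =
        (frobenius K p).mapMatrix
          (Matrix.of fun i j => constantCoeff (φ i (f j) : T (Vx m n) K)) := by
      ext i j
      rfl
    rw [h3, ← RingHom.map_det, frobenius_def]
    exact pow_ne_zero _ h1
  have h3 : ∀ x, Pi x = 0 → ∀ i, lamFun p (φ i) (hφ i) x = 0 := by
    intro x hx i
    rw [lamFun_apply, rkup_zero p hm hn hN J (fun d hd => (hJ d hd).1) x (fun d hd => ?_)
      (φ i) (hφ i), zero_pow (Fact.out : p.Prime).ne_zero]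
    exact congrFun hx ⟨d, hd⟩
  have hfin' : ∀ d : {d // d ∈ boxS m n 0 (2 * p - 2)},
      Module.Finite K ((RS K (d : Vx m n →₀ ℕ)).map (J d).mkQ) := fun d => hfin d
  have hfinV : Module.Finite K (∀ d : {d // d ∈ boxS m n 0 (2 * p - 2)},
      ((RS K (d : Vx m n →₀ ℕ)).map (J d).mkQ)) := Module.Finite.pi
  have h4 := rkup_li (V := ∀ d : {d // d ∈ boxS m n 0 (2 * p - 2)},
      ((RS K (d : Vx m n →₀ ℕ)).map (J d).mkQ)) Pi f (fun i => lamFun p (φ i) (hφ i)) h2 h3
  have hfree : ∀ d : {d // d ∈ boxS m n 0 (2 * p - 2)},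
      Module.Free K ((RS K (d : Vx m n →₀ ℕ)).map (J d).mkQ) := fun d =>
    Module.Free.of_divisionRing K _
  rw [Module.finrank_pi_fintype] at h4
  have h5 : (a : ℤ) ≤ ∑ d : {d // d ∈ boxS m n 0 (2 * p - 2)},
      (Module.finrank K ((RS K (d : Vx m n →₀ ℕ)).map (J d).mkQ) : ℤ) := by exact_mod_cast h4
  refine h5.trans ?_
  rw [← Finset.sum_coe_sort (boxS m n 0 (2 * p - 2)) (fun d => ub p d)]
  exact Finset.sum_le_sum fun d _ => (hJ d d.2).2

end FSig
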