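import Pool.Agent.Lib.FSig.GDefs

/-!
# Straightening modulo the `3 × 3` minors: definitions

`xx : ℕ → ℕ → A` is a matrix with entries in a commutative ring all of whose `3 × 3` minors vanish.
A cell is a pair of pairs `((a, b), (c, d))`, `a < b ≤ m`, `c < d ≤ n`, `b = m ↔ d = n`; its value is the
minor with rows `a, b` and columns `c, d` if `b < m`, and the entry `xx a c` if `b = m` (the letters `m` and
`n` play the role of infinity).
-/

namespace Pool.FSig

open MvPolynomial

/-- a cell `((a, b), (c, d))` -/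
abbrev Cell := (ℕ × ℕ) × (ℕ × ℕ)

/-- the `2 × 2` minor with rows `a, b` and columns `c, d` -/
def mi {A : Type*} [CommRing A] (xx : ℕ → ℕ → A) (a b c d : ℕ) : A :=
  xx a c * xx b d - xx a d * xx b c

/-- the value of a cell -/
def cval {A : Type*} [CommRing A] (m : ℕ) (xx : ℕ → ℕ → A) (C : Cell) : A :=
  if C.1.2 = m then xx C.1.1 C.2.1 else mi xx C.1.1 C.1.2 C.2.1 C.2.2

/-- the value of a list of cells -/
def lval {A : Type*} [CommRing A] (m : ℕ) (xx : ℕ → ℕ → A) (τ : List Cell) : A :=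
  (τ.map (cval m xx)).prod

/-- valid cells -/
def CValid (m n : ℕ) (C : Cell) : Prop :=
  C.1.1 < C.1.2 ∧ C.1.2 ≤ m ∧ C.2.1 < C.2.2 ∧ C.2.2 ≤ n ∧ (C.1.2 = m ↔ C.2.2 = n)

/-- lists of valid cells -/
def LValid (m n : ℕ) (τ : List Cell) : Prop := ∀ C ∈ τ, CValid m n C

/-- the pair `q` lies strictly inside the pair `p` -/
def Nest (p q : ℕ × ℕ) : Prop := p.1 < q.1 ∧ q.2 < p.2

/-- no two pairs of the list are nested -/
def NN (l : List (ℕ × ℕ)) : Prop := ∀ p ∈ l, ∀ q ∈ l, ¬ Nest p q

/-- neither the left pairs nor the right pairs are nested -/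
def DNN (τ : List Cell) : Prop := NN (τ.map Prod.fst) ∧ NN (τ.map Prod.snd)

/-- the number of cells with `b = m` -/
def ninf (m : ℕ) (τ : List Cell) : ℕ := (τ.filter fun C => C.1.2 = m).length

/-- all `3 × 3` minors vanish -/
def Min3 {A : Type*} [CommRing A] (xx : ℕ → ℕ → A) : Prop :=
  ∀ a b c d e f : ℕ,
    xx a d * mi xx b c e f - xx a e * mi xx b c d f + xx a f * mi xx b c d e = 0

end Pool.FSig
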