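import Pool.Agent.Lib.FSig.SDefs

/-!
# Module Srt: a list of pairs without nesting is determined by its first and second entries

Proof. Induction on the length. Let `l` be nonempty, `p ∈ l` with smallest first entry and, among those, with smallest
second entry. For every `q ∈ l` we have `p.2 ≤ q.2`: if `q.1 = p.1` by the choice, if `p.1 < q.1` because `q` is not
nested in `p`. So `p = (min of the first entries, min of the second entries)`; the same holds for `l'`, whose
first entries and second entries are the same multisets, so `p ∈ l'`. Remove `p` from both lists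
(`List.perm_cons_erase`, `List.Perm.cons_inv` for the projections) and use the induction hypothesis.
-/

namespace Pool.FSig

private theorem srt_min {l : List (ℕ × ℕ)} (hl : NN l) (hne : l ≠ []) :
    ∃ p ∈ l, ∀ q ∈ l, p.1 ≤ q.1 ∧ p.2 ≤ q.2 := by
  have hne' : l.toFinset.Nonempty := by
    obtain ⟨a, ha⟩ := List.exists_mem_of_ne_nil l hne
    exact ⟨a, List.mem_toFinset.2 ha⟩
  obtain ⟨p, hp, hmin⟩ := l.toFinset.exists_min_image (fun p => toLex p) hne'
  refine ⟨p, List.mem_toFinset.1 hp, fun q hq => ?_⟩
  have h := hmin q (List.mem_toFinset.2 hq)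
  rw [Prod.Lex.toLex_le_toLex] at h
  rcases h with h | h
  · refine ⟨h.le, ?_⟩
    by_contra hc
    push Not at hc
    exact hl p (List.mem_toFinset.1 hp) q hq ⟨h, hc⟩
  · exact ⟨h.1.le, h.2⟩

private theorem srt_aux (n : ℕ) : ∀ {l l' : List (ℕ × ℕ)}, l.length = n → NN l → NN l' →
    (l.map Prod.fst).Perm (l'.map Prod.fst) → (l.map Prod.snd).Perm (l'.map Prod.snd) →
    l.Perm l' := by
  induction n with
  | zero =>
    intro l l' hn _ _ h1 _
    have e1 : l = [] := List.length_eq_zero_iff.1 hn
    subst e1
    have e2 := h1.length_eq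
    rw [List.length_map, List.length_map, List.length_nil] at e2
    have e3 : l' = [] := List.length_eq_zero_iff.1 e2.symm
    rw [e3]
  | succ n ih =>
    intro l l' hn hl hl' h1 h2
    have hne : l ≠ [] := by
      rintro rfl
      rw [List.length_nil] at hn
      omega
    have hlen := h1.length_eq
    rw [List.length_map, List.length_map] at hlen
    have hne' : l' ≠ [] := by
      rintro rfl
      rw [List.length_nil] at hlen
      omega
    obtain ⟨p, hp, hpm⟩ := srt_min hl hne
    obtain ⟨p', hp', hpm'⟩ := srt_min hl' hne'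
    have a1 : p'.1 ≤ p.1 := by
      have : p.1 ∈ l'.map Prod.fst := h1.mem_iff.1 (List.mem_map_of_mem hp)
      obtain ⟨q, hq, hqe⟩ := List.mem_map.1 this
      rw [← hqe]
      exact (hpm' q hq).1
    have a2 : p.1 ≤ p'.1 := by
      have : p'.1 ∈ l.map Prod.fst := h1.mem_iff.2 (List.mem_map_of_mem hp')
      obtain ⟨q, hq, hqe⟩ := List.mem_map.1 this
      rw [← hqe]
      exact (hpm q hq).1
    have a3 : p'.2 ≤ p.2 := by
      have : p.2 ∈ l'.map Prod.snd := h2.mem_iff.1 (List.mem_map_of_mem hp)
      obtain ⟨q, hq, hqe⟩ := List.mem_map.1 this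
      rw [← hqe]
      exact (hpm' q hq).2
    have a4 : p.2 ≤ p'.2 := by
      have : p'.2 ∈ l.map Prod.snd := h2.mem_iff.2 (List.mem_map_of_mem hp')
      obtain ⟨q, hq, hqe⟩ := List.mem_map.1 this
      rw [← hqe]
      exact (hpm q hq).2
    have e : p = p' := Prod.ext (le_antisymm a2 a1) (le_antisymm a4 a3)
    subst e
    have c1 := List.perm_cons_erase hp
    have c2 := List.perm_cons_erase hp'
    have d1 : ((l.erase p).map Prod.fst).Perm ((l'.erase p).map Prod.fst) := by
      have t := ((c1.map Prod.fst).symm.trans h1).trans (c2.map Prod.fst)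
      rw [List.map_cons, List.map_cons] at t
      exact t.cons_inv
    have d2 : ((l.erase p).map Prod.snd).Perm ((l'.erase p).map Prod.snd) := by
      have t := ((c1.map Prod.snd).symm.trans h2).trans (c2.map Prod.snd)
      rw [List.map_cons, List.map_cons] at t
      exact t.cons_inv
    have hn' : (l.erase p).length = n := by
      rw [List.length_erase_of_mem hp]
      omega
    have hE : NN (l.erase p) := fun x hx y hy =>
      hl x (List.mem_of_mem_erase hx) y (List.mem_of_mem_erase hy)
    have hE' : NN (l'.erase p) := fun x hx y hy =>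
      hl' x (List.mem_of_mem_erase hx) y (List.mem_of_mem_erase hy)
    exact (c1.trans ((ih hn' hE hE' d1 d2).cons p)).trans c2.symm

theorem perm_of_nn {l l' : List (ℕ × ℕ)} (hl : NN l) (hl' : NN l')
    (h1 : (l.map Prod.fst).Perm (l'.map Prod.fst)) (h2 : (l.map Prod.snd).Perm (l'.map Prod.snd)) :
    l.Perm l' :=
  srt_aux l.length rfl hl hl' h1 h2

end Pool.FSig
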