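import Pool.Agent.Lib.FSig.CTop
import Pool.Agent.Lib.FSig.Srt

/-!
# Module SExp: the exponent of a list of cells without nesting determines its left and right pairs

For valid `τ` and `a < m` the value of `exT m n τ` at `(inl a, false)` is the number of cells with first left
entry `a` (`List.count a (τ.map (·.1.1))`; the other summands of `exC` vanish at this place), at `(inl b, true)` the
number of cells with second left entry `b` (`b < m`), similarly at `(inr c, true)` and `(inr d, false)`. Hence, if
`exT τ = exT τ'`, the lists `τ.map (·.1.1)` and `τ'.map (·.1.1)` have the same counts (all entries are `< m`), so they are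
permutations (`List.perm_iff_count`), in particular `τ` and `τ'` have the same length; the lists `τ.map (·.1.2)` have
the same counts for `b < m`, no entries `> m`, and the same length, so also the same count of `m`. In the same way for
the right pairs. If both lists are `DNN`, `perm_of_nn` gives the claim.
-/

namespace Pool.FSig

private theorem exL_inl (m n a : ℕ) (t s : Bool) (i : Fin m) :
    exL m n a t ((Sum.inl i : _root_.FSig.Vx m n), s) = if (i : ℕ) = a ∧ t = s then 1 else 0 := by
  classical
  unfold exL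
  by_cases h : a < m
  · rw [dif_pos h, Finsupp.single_apply]
    refine if_congr ?_ rfl rfl
    rw [Prod.mk.injEq, Sum.inl.injEq, Fin.ext_iff]
    exact and_congr_left fun _ => eq_comm
  · rw [dif_neg h, if_neg]
    · rfl
    · rintro ⟨rfl, _⟩
      exact h i.2

private theorem exL_inr (m n a : ℕ) (t s : Bool) (j : Fin n) :
    exL m n a t ((Sum.inr j : _root_.FSig.Vx m n), s) = 0 := by
  classical
  unfold exL
  by_cases h : a < m
  · rw [dif_pos h, Finsupp.single_apply, if_neg]
    intro h'
    rw [Prod.mk.injEq] at h'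
    exact absurd h'.1 (by simp)
  · rw [dif_neg h]
    rfl

private theorem exR_inr (m n c : ℕ) (t s : Bool) (j : Fin n) :
    exR m n c t ((Sum.inr j : _root_.FSig.Vx m n), s) = if (j : ℕ) = c ∧ t = s then 1 else 0 := by
  classical
  unfold exR
  by_cases h : c < n
  · rw [dif_pos h, Finsupp.single_apply]
    refine if_congr ?_ rfl rfl
    rw [Prod.mk.injEq, Sum.inr.injEq, Fin.ext_iff]
    exact and_congr_left fun _ => eq_comm
  · rw [dif_neg h, if_neg]
    · rfl
    · rintro ⟨rfl, _⟩
      exact h j.2

private theorem exR_inl (m n c : ℕ) (t s : Bool) (i : Fin m) :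
    exR m n c t ((Sum.inl i : _root_.FSig.Vx m n), s) = 0 := by
  classical
  unfold exR
  by_cases h : c < n
  · rw [dif_pos h, Finsupp.single_apply, if_neg]
    intro h'
    rw [Prod.mk.injEq] at h'
    exact absurd h'.1 (by simp)
  · rw [dif_neg h]
    rfl

private theorem exT_count (m n : ℕ) (v : _root_.FSig.Vx m n × Bool) (f : Cell → ℕ) (x : ℕ)
    (h : ∀ C, exC m n C v = if x = f C then 1 else 0) (τ : List Cell) :
    exT m n τ v = (τ.map f).count x := by
  induction τ with
  | nil => simp [exT]
  | cons C τ ih =>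
    have h2 : exT m n (C :: τ) = exC m n C + exT m n τ := by
      simp only [exT, List.map_cons, List.sum_cons]
    rw [h2, Finsupp.add_apply, ih, h, List.map_cons, List.count_cons, add_comm]
    congr 1
    refine if_congr ?_ rfl rfl
    rw [beq_iff_eq, eq_comm]

private theorem exC_1 (m n : ℕ) (i : Fin m) (C : Cell) :
    exC m n C ((Sum.inl i : _root_.FSig.Vx m n), false) = if (i : ℕ) = C.1.1 then 1 else 0 := by
  unfold exC
  simp only [Finsupp.add_apply, exL_inl, exR_inl]
  simp

private theorem exC_2 (m n : ℕ) (i : Fin m) (C : Cell) :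
    exC m n C ((Sum.inl i : _root_.FSig.Vx m n), true) = if (i : ℕ) = C.1.2 then 1 else 0 := by
  unfold exC
  simp only [Finsupp.add_apply, exL_inl, exR_inl]
  simp

private theorem exC_3 (m n : ℕ) (j : Fin n) (C : Cell) :
    exC m n C ((Sum.inr j : _root_.FSig.Vx m n), true) = if (j : ℕ) = C.2.1 then 1 else 0 := by
  unfold exC
  simp only [Finsupp.add_apply, exL_inr, exR_inr]
  simp

private theorem exC_4 (m n : ℕ) (j : Fin n) (C : Cell) :
    exC m n C ((Sum.inr j : _root_.FSig.Vx m n), false) = if (j : ℕ) = C.2.2 then 1 else 0 := by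
  unfold exC
  simp only [Finsupp.add_apply, exL_inr, exR_inr]
  simp

private theorem perm_lt {l l' : List ℕ} {m : ℕ} (h1 : ∀ x ∈ l, x < m) (h1' : ∀ x ∈ l', x < m)
    (hc : ∀ x, x < m → l.count x = l'.count x) : l.Perm l' := by
  rw [List.perm_iff_count]
  intro x
  by_cases hx : x < m
  · exact hc x hx
  · rw [List.count_eq_zero_of_not_mem fun h => hx (h1 x h),
      List.count_eq_zero_of_not_mem fun h => hx (h1' x h)]

private theorem sum_count {l : List ℕ} {m : ℕ} (h1 : ∀ x ∈ l, x ≤ m) :
    (∑ x ∈ Finset.range m, l.count x) + l.count m = l.length := by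
  rw [← Finset.sum_range_succ]
  have := Multiset.sum_count_eq_card (s := Finset.range (m + 1)) (m := (l : Multiset ℕ))
    (fun a ha => Finset.mem_range.2 (Nat.lt_succ_of_le (h1 a (Multiset.mem_coe.1 ha))))
  simpa only [Multiset.coe_count, Multiset.coe_card] using this

private theorem perm_le {l l' : List ℕ} {m : ℕ} (h1 : ∀ x ∈ l, x ≤ m) (h1' : ∀ x ∈ l', x ≤ m)
    (hlen : l.length = l'.length) (hc : ∀ x, x < m → l.count x = l'.count x) : l.Perm l' := by
  rw [List.perm_iff_count]
  intro x
  rcases lt_trichotomy x m with hx | rfl | hx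
  · exact hc x hx
  · have e1 := sum_count h1
    have e2 := sum_count h1'
    rw [Finset.sum_congr rfl fun y hy => hc y (Finset.mem_range.1 hy)] at e1
    omega
  · rw [List.count_eq_zero_of_not_mem fun h => absurd (h1 x h) (not_le.2 hx),
      List.count_eq_zero_of_not_mem fun h => absurd (h1' x h) (not_le.2 hx)]

theorem perm_of_exT_eq {m n : ℕ} {τ τ' : List Cell} (hτ : LValid m n τ) (hτ' : LValid m n τ')
    (hd : DNN τ) (hd' : DNN τ') (h : exT m n τ = exT m n τ') :
    (τ.map Prod.fst).Perm (τ'.map Prod.fst) ∧ (τ.map Prod.snd).Perm (τ'.map Prod.snd) := by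
  have c1 : ∀ x, x < m → (τ.map fun C => C.1.1).count x = (τ'.map fun C => C.1.1).count x := by
    intro x hx
    rw [← exT_count m n _ (fun C => C.1.1) x (exC_1 m n ⟨x, hx⟩) τ,
      ← exT_count m n _ (fun C => C.1.1) x (exC_1 m n ⟨x, hx⟩) τ', h]
  have c2 : ∀ x, x < m → (τ.map fun C => C.1.2).count x = (τ'.map fun C => C.1.2).count x := by
    intro x hx
    rw [← exT_count m n _ (fun C => C.1.2) x (exC_2 m n ⟨x, hx⟩) τ,
      ← exT_count m n _ (fun C => C.1.2) x (exC_2 m n ⟨x, hx⟩) τ', h]
  have c3 : ∀ x, x < n → (τ.map fun C => C.2.1).count x = (τ'.map fun C => C.2.1).count x := by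
    intro x hx
    rw [← exT_count m n _ (fun C => C.2.1) x (exC_3 m n ⟨x, hx⟩) τ,
      ← exT_count m n _ (fun C => C.2.1) x (exC_3 m n ⟨x, hx⟩) τ', h]
  have c4 : ∀ x, x < n → (τ.map fun C => C.2.2).count x = (τ'.map fun C => C.2.2).count x := by
    intro x hx
    rw [← exT_count m n _ (fun C => C.2.2) x (exC_4 m n ⟨x, hx⟩) τ,
      ← exT_count m n _ (fun C => C.2.2) x (exC_4 m n ⟨x, hx⟩) τ', h]
  have p1 : (τ.map fun C => C.1.1).Perm (τ'.map fun C => C.1.1) := by
    refine perm_lt (m := m) ?_ ?_ c1
    · intro x hx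
      obtain ⟨C, hC, rfl⟩ := List.mem_map.1 hx
      exact lt_of_lt_of_le (hτ C hC).1 (hτ C hC).2.1
    · intro x hx
      obtain ⟨C, hC, rfl⟩ := List.mem_map.1 hx
      exact lt_of_lt_of_le (hτ' C hC).1 (hτ' C hC).2.1
  have hlen : τ.length = τ'.length := by
    have := p1.length_eq
    rwa [List.length_map, List.length_map] at this
  have p2 : (τ.map fun C => C.1.2).Perm (τ'.map fun C => C.1.2) := by
    refine perm_le (m := m) ?_ ?_ (by rw [List.length_map, List.length_map, hlen]) c2
    · intro x hx
      obtain ⟨C, hC, rfl⟩ := List.mem_map.1 hx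
      exact (hτ C hC).2.1
    · intro x hx
      obtain ⟨C, hC, rfl⟩ := List.mem_map.1 hx
      exact (hτ' C hC).2.1
  have p3 : (τ.map fun C => C.2.1).Perm (τ'.map fun C => C.2.1) := by
    refine perm_lt (m := n) ?_ ?_ c3
    · intro x hx
      obtain ⟨C, hC, rfl⟩ := List.mem_map.1 hx
      exact lt_of_lt_of_le (hτ C hC).2.2.1 (hτ C hC).2.2.2.1
    · intro x hx
      obtain ⟨C, hC, rfl⟩ := List.mem_map.1 hx
      exact lt_of_lt_of_le (hτ' C hC).2.2.1 (hτ' C hC).2.2.2.1
  have p4 : (τ.map fun C => C.2.2).Perm (τ'.map fun C => C.2.2) := by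
    refine perm_le (m := n) ?_ ?_ (by rw [List.length_map, List.length_map, hlen]) c4
    · intro x hx
      obtain ⟨C, hC, rfl⟩ := List.mem_map.1 hx
      exact (hτ C hC).2.2.2.1
    · intro x hx
      obtain ⟨C, hC, rfl⟩ := List.mem_map.1 hx
      exact (hτ' C hC).2.2.2.1
  constructor
  · refine perm_of_nn hd.1 hd'.1 ?_ ?_
    · rw [List.map_map, List.map_map]
      exact p1
    · rw [List.map_map, List.map_map]
      exact p2
  · refine perm_of_nn hd.2 hd'.2 ?_ ?_
    · rw [List.map_map, List.map_map]
      exact p3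
    · rw [List.map_map, List.map_map]
      exact p4

end Pool.FSig
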