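import Pool.Agent.Lib.FSig.SDefs
import Pool.Agent.Lib.FSig.Lap

/-!
# Module StrA: straightening

Every product of cells is a combination of products of cells without nested pairs, with the same number of
cells and the same number of cells of type `b = m`.

Proof. Strong induction on the potential `Φ τ = ∑ ((b - a) ^ 2 + (d - c) ^ 2)` over the cells of `τ` (invariant under
permutations of `τ`, like `lval`, `ninf`, `length`, `LValid`, `DNN`). If `DNN τ` there is nothing to do. Otherwise, say,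
two left pairs are nested: up to a permutation `τ = C₁ :: C₂ :: ρ`, `C₁ = ((a, b), R)`, `C₂ = ((c, d), S)`,
`a < c`, `d < b` (the two cells are different positions since a pair is not nested in itself; `List.perm` by
`List.mem_iff_append`/`List.Perm`), `c < d < b ≤ m`, so `C₂` is a finite cell, `d ≠ m`.
* `b < m`: `plu_left`: `cval C₁ * cval C₂ = [ad|R][cb|S] - [ac|R][db|S]`, so
  `lval τ = lval (((a,d),R) :: ((c,b),S) :: ρ) - lval (((a,c),R) :: ((d,b),S) :: ρ)`. All cells are valid and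
  `(d-a)^2 + (b-c)^2 < (b-a)^2 + (d-c)^2`, `(c-a)^2 + (b-d)^2 < (b-a)^2 + (d-c)^2` as `a < c < d < b` (with `u = c-a`,
  `v = d-c`, `w = b-d`: the differences are `2uw` and `2v^2+2uv+2vw+2uw`).
* `b = m`, `R = (s, n)`: `lap_col`: `xx a s * [cd|S] = xx c s * [ad|S] - xx d s * [ac|S]`, so
  `lval τ = lval (((c,m),(s,n)) :: ((a,d),S) :: ρ) - lval (((d,m),(s,n)) :: ((a,c),S) :: ρ)`, the same potentials.
The right pairs in the same way with `plu_right`, `lap_row`.
The new lists have smaller potential, the same length and the same `ninf`; the induction hypothesis puts their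
values in the span.
-/

namespace Pool.FSig

private def pot (C : Cell) : ℕ := (C.1.2 - C.1.1) ^ 2 + (C.2.2 - C.2.1) ^ 2

private def Pot (τ : List Cell) : ℕ := (τ.map pot).sum

private theorem pot_lt1 {a b c d : ℕ} (h1 : a < c) (h2 : c < d) (h3 : d < b) :
    (d - a) ^ 2 + (b - c) ^ 2 < (b - a) ^ 2 + (d - c) ^ 2 ∧
      (c - a) ^ 2 + (b - d) ^ 2 < (b - a) ^ 2 + (d - c) ^ 2 := by
  obtain ⟨u, rfl⟩ := Nat.exists_eq_add_of_lt h1
  obtain ⟨v, rfl⟩ := Nat.exists_eq_add_of_lt h2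
  obtain ⟨w, rfl⟩ := Nat.exists_eq_add_of_lt h3
  have e1 : a + u + 1 + v + 1 - a = u + v + 2 := by omega
  have e2 : a + u + 1 + v + 1 + w + 1 - (a + u + 1) = v + w + 2 := by omega
  have e3 : a + u + 1 + v + 1 + w + 1 - a = u + v + w + 3 := by omega
  have e4 : a + u + 1 + v + 1 - (a + u + 1) = v + 1 := by omega
  have e5 : a + u + 1 - a = u + 1 := by omega
  have e6 : a + u + 1 + v + 1 + w + 1 - (a + u + 1 + v + 1) = w + 1 := by omega
  rw [e1, e2, e3, e4, e5, e6]
  constructor <;> nlinarith [Nat.zero_le (u * w), Nat.zero_le (u * v), Nat.zero_le (v * w)]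

private theorem key_left {A : Type*} [CommRing A] {xx : ℕ → ℕ → A}
    (h : Min3 xx) (m n : ℕ) (C1 C2 : Cell) (h1 : CValid m n C1) (h2 : CValid m n C2)
    (hN : Nest C1.1 C2.1) : ∃ D1 D2 E1 E2 : Cell, CValid m n D1 ∧ CValid m n D2 ∧
      CValid m n E1 ∧ CValid m n E2 ∧
      cval m xx C1 * cval m xx C2 = cval m xx D1 * cval m xx D2 - cval m xx E1 * cval m xx E2 ∧
      pot D1 + pot D2 < pot C1 + pot C2 ∧ pot E1 + pot E2 < pot C1 + pot C2 ∧
      ninf m [D1, D2] = ninf m [C1, C2] ∧ ninf m [E1, E2] = ninf m [C1, C2] := by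
  obtain ⟨⟨a, b⟩, ⟨r, r'⟩⟩ := C1
  obtain ⟨⟨c, d⟩, ⟨s, s'⟩⟩ := C2
  simp only [CValid, Nest] at h1 h2 hN
  obtain ⟨h11, h12, h13, h14, h15⟩ := h1
  obtain ⟨h21, h22, h23, h24, h25⟩ := h2
  obtain ⟨hN1, hN2⟩ := hN
  obtain ⟨q1, q2⟩ := pot_lt1 hN1 h21 hN2
  have hdm : d ≠ m := by omega
  have hsn : s' ≠ n := fun hh => hdm (h25.2 hh)
  by_cases hb : b = m
  · have hrn : r' = n := h15.1 hb
    refine ⟨((c, m), (r, n)), ((a, d), (s, s')), ((d, m), (r, n)), ((a, c), (s, s')),
      ?_, ?_, ?_, ?_, ?_, ?_, ?_, ?_, ?_⟩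
    · refine ⟨?_, ?_, ?_, ?_, ?_⟩ <;> simp only <;> omega
    · simp only [CValid]; omega
    · refine ⟨?_, ?_, ?_, ?_, ?_⟩ <;> simp only <;> omega
    · simp only [CValid]; omega
    · have hcm : c ≠ m := by omega
      simp only [cval, hb, if_true, if_neg hdm, if_neg hcm]
      exact lap_col h a c d s s' r
    · simp only [pot]
      subst hb hrn
      omega
    · simp only [pot]
      subst hb hrn
      omega
    · simp [ninf, hb, hdm]
    · have hcm : c ≠ m := by omega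
      simp [ninf, hb, hdm, hcm]
  · have hrn : r' ≠ n := fun hh => hb (h15.2 hh)
    refine ⟨((a, d), (r, r')), ((c, b), (s, s')), ((a, c), (r, r')), ((d, b), (s, s')),
      ?_, ?_, ?_, ?_, ?_, ?_, ?_, ?_, ?_⟩
    · simp only [CValid]; omega
    · simp only [CValid]; omega
    · simp only [CValid]; omega
    · simp only [CValid]; omega
    · have hcm : c ≠ m := by omega
      simp only [cval, if_neg hb, if_neg hdm, if_neg hcm]
      exact plu_left h a b c d r r' s s'
    · simp only [pot]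
      omega
    · simp only [pot]
      omega
    · simp [ninf, hb, hdm]
    · have hcm : c ≠ m := by omega
      simp [ninf, hb, hdm, hcm]

private theorem key_right {A : Type*} [CommRing A] {xx : ℕ → ℕ → A}
    (h : Min3 xx) (m n : ℕ) (C1 C2 : Cell) (h1 : CValid m n C1) (h2 : CValid m n C2)
    (hN : Nest C1.2 C2.2) : ∃ D1 D2 E1 E2 : Cell, CValid m n D1 ∧ CValid m n D2 ∧
      CValid m n E1 ∧ CValid m n E2 ∧
      cval m xx C1 * cval m xx C2 = cval m xx D1 * cval m xx D2 - cval m xx E1 * cval m xx E2 ∧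
      pot D1 + pot D2 < pot C1 + pot C2 ∧ pot E1 + pot E2 < pot C1 + pot C2 ∧
      ninf m [D1, D2] = ninf m [C1, C2] ∧ ninf m [E1, E2] = ninf m [C1, C2] := by
  obtain ⟨⟨r, r'⟩, ⟨a, b⟩⟩ := C1
  obtain ⟨⟨s, s'⟩, ⟨c, d⟩⟩ := C2
  simp only [CValid, Nest] at h1 h2 hN
  obtain ⟨h11, h12, h13, h14, h15⟩ := h1
  obtain ⟨h21, h22, h23, h24, h25⟩ := h2
  obtain ⟨hN1, hN2⟩ := hN
  obtain ⟨q1, q2⟩ := pot_lt1 hN1 h23 hN2
  have hdn : d ≠ n := by omega
  have hsm : s' ≠ m := fun hh => hdn (h25.1 hh)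
  by_cases hr : r' = m
  · have hbn : b = n := h15.1 hr
    refine ⟨((r, m), (c, n)), ((s, s'), (a, d)), ((r, m), (d, n)), ((s, s'), (a, c)),
      ?_, ?_, ?_, ?_, ?_, ?_, ?_, ?_, ?_⟩
    · refine ⟨?_, ?_, ?_, ?_, ?_⟩ <;> simp only <;> omega
    · simp only [CValid]; omega
    · refine ⟨?_, ?_, ?_, ?_, ?_⟩ <;> simp only <;> omega
    · simp only [CValid]; omega
    · simp only [cval, hr, if_true, if_neg hsm]
      exact lap_row h r s s' a c d
    · simp only [pot]
      subst hr hbn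
      omega
    · simp only [pot]
      subst hr hbn
      omega
    · simp [ninf, hr, hsm]
    · simp [ninf, hr, hsm]
  · have hbn : b ≠ n := fun hh => hr (h15.2 hh)
    refine ⟨((r, r'), (a, d)), ((s, s'), (c, b)), ((r, r'), (a, c)), ((s, s'), (d, b)),
      ?_, ?_, ?_, ?_, ?_, ?_, ?_, ?_, ?_⟩
    · simp only [CValid]; omega
    · simp only [CValid]; omega
    · simp only [CValid]; omega
    · simp only [CValid]; omega
    · simp only [cval, if_neg hr, if_neg hsm]
      exact plu_right h r r' s s' a b c d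
    · simp only [pot]
      omega
    · simp only [pot]
      omega
    · simp [ninf, hr, hsm]
    · simp [ninf, hr, hsm]

private theorem key {A : Type*} [CommRing A] {xx : ℕ → ℕ → A}
    (h : Min3 xx) (m n : ℕ) (C1 C2 : Cell) (h1 : CValid m n C1) (h2 : CValid m n C2)
    (hN : Nest C1.1 C2.1 ∨ Nest C1.2 C2.2) :
    ∃ D1 D2 E1 E2 : Cell, CValid m n D1 ∧ CValid m n D2 ∧
      CValid m n E1 ∧ CValid m n E2 ∧
      cval m xx C1 * cval m xx C2 = cval m xx D1 * cval m xx D2 - cval m xx E1 * cval m xx E2 ∧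
      pot D1 + pot D2 < pot C1 + pot C2 ∧ pot E1 + pot E2 < pot C1 + pot C2 ∧
      ninf m [D1, D2] = ninf m [C1, C2] ∧ ninf m [E1, E2] = ninf m [C1, C2] := by
  rcases hN with hN | hN
  · exact key_left h m n C1 C2 h1 h2 hN
  · exact key_right h m n C1 C2 h1 h2 hN

private theorem ninf_cons2 (m : ℕ) (C1 C2 : Cell) (ρ : List Cell) :
    ninf m (C1 :: C2 :: ρ) = ninf m [C1, C2] + ninf m ρ := by
  have : C1 :: C2 :: ρ = [C1, C2] ++ ρ := rfl
  rw [this]
  unfold ninf
  rw [List.filter_append, List.length_append]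

private theorem exists_nest {τ : List Cell} (h : ¬ DNN τ) :
    ∃ C1 ∈ τ, ∃ C2 ∈ τ, C1 ≠ C2 ∧ (Nest C1.1 C2.1 ∨ Nest C1.2 C2.2) := by
  unfold DNN NN at h
  rw [not_and_or] at h
  rcases h with h | h
  · push Not at h
    obtain ⟨p, hp, q, hq, hN⟩ := h
    obtain ⟨C1, hC1, rfl⟩ := List.mem_map.1 hp
    obtain ⟨C2, hC2, rfl⟩ := List.mem_map.1 hq
    refine ⟨C1, hC1, C2, hC2, ?_, Or.inl hN⟩
    rintro rfl
    exact lt_irrefl _ hN.1
  · push Not at h
    obtain ⟨p, hp, q, hq, hN⟩ := h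
    obtain ⟨C1, hC1, rfl⟩ := List.mem_map.1 hp
    obtain ⟨C2, hC2, rfl⟩ := List.mem_map.1 hq
    refine ⟨C1, hC1, C2, hC2, ?_, Or.inr hN⟩
    rintro rfl
    exact lt_irrefl _ hN.1

theorem lval_mem_span_dnn {K A : Type*} [Field K] [CommRing A] [Algebra K A] {xx : ℕ → ℕ → A}
    (h : Min3 xx) (m n : ℕ) (τ : List Cell) (hτ : LValid m n τ) :
    lval m xx τ ∈ Submodule.span K {f : A | ∃ σ : List Cell, LValid m n σ ∧ DNN σ ∧
      σ.length = τ.length ∧ ninf m σ = ninf m τ ∧ f = lval m xx σ} := by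
  induction hk : Pot τ using Nat.strong_induction_on generalizing τ with
  | _ k ih =>
  by_cases hD : DNN τ
  · exact Submodule.subset_span ⟨τ, hτ, hD, rfl, rfl, rfl⟩
  obtain ⟨C1, hC1, C2, hC2, hne, hN⟩ := exists_nest hD
  have hC2' : C2 ∈ τ.erase C1 := (List.mem_erase_of_ne hne.symm).2 hC2
  set ρ := (τ.erase C1).erase C2 with hρ
  have hperm : τ.Perm (C1 :: C2 :: ρ) :=
    (List.perm_cons_erase hC1).trans ((List.perm_cons_erase hC2').cons C1)
  have hρv : LValid m n ρ := fun C hC =>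
    hτ C (hperm.mem_iff.2 (List.mem_cons_of_mem _ (List.mem_cons_of_mem _ hC)))
  obtain ⟨D1, D2, E1, E2, hD1, hD2, hE1, hE2, hval, hpD, hpE, hnD, hnE⟩ :=
    key h m n C1 C2 (hτ C1 hC1) (hτ C2 hC2) hN
  have hPot : Pot τ = pot C1 + (pot C2 + Pot ρ) := by
    unfold Pot
    rw [(hperm.map pot).sum_eq]
    simp
  have hnin : ninf m τ = ninf m [C1, C2] + ninf m ρ := by
    rw [← ninf_cons2]
    unfold ninf
    exact (hperm.filter _).length_eq
  have hlen : τ.length = ρ.length + 2 := by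
    rw [hperm.length_eq]
    rfl
  have hlval : lval m xx τ = lval m xx (D1 :: D2 :: ρ) - lval m xx (E1 :: E2 :: ρ) := by
    have e1 : lval m xx τ = cval m xx C1 * cval m xx C2 * lval m xx ρ := by
      unfold lval
      rw [(hperm.map (cval m xx)).prod_eq]
      simp [mul_assoc]
    rw [e1, hval]
    unfold lval
    simp only [List.map_cons, List.prod_cons]
    ring
  have hval2 : ∀ F1 F2 : Cell, CValid m n F1 → CValid m n F2 → LValid m n (F1 :: F2 :: ρ) := by
    intro F1 F2 hF1 hF2 C hC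
    rcases List.mem_cons.1 hC with rfl | hC
    · exact hF1
    rcases List.mem_cons.1 hC with rfl | hC
    · exact hF2
    exact hρv C hC
  have main : ∀ F1 F2 : Cell, CValid m n F1 → CValid m n F2 →
      pot F1 + pot F2 < pot C1 + pot C2 → ninf m [F1, F2] = ninf m [C1, C2] →
      lval m xx (F1 :: F2 :: ρ) ∈ Submodule.span K {f : A | ∃ σ : List Cell, LValid m n σ ∧
        DNN σ ∧ σ.length = τ.length ∧ ninf m σ = ninf m τ ∧ f = lval m xx σ} := by
    intro F1 F2 hF1 hF2 hp hn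
    have hP : Pot (F1 :: F2 :: ρ) = pot F1 + (pot F2 + Pot ρ) := by
      unfold Pot
      simp
    have := ih (Pot (F1 :: F2 :: ρ)) (by omega) (F1 :: F2 :: ρ) (hval2 F1 F2 hF1 hF2) rfl
    have hl : (F1 :: F2 :: ρ).length = τ.length := by
      rw [hlen]
      rfl
    have hn2 : ninf m (F1 :: F2 :: ρ) = ninf m τ := by
      rw [ninf_cons2, hn, hnin]
    rw [hl, hn2] at this
    exact this
  rw [hlval]
  exact Submodule.sub_mem _ (main D1 D2 hD1 hD2 hpD hnD) (main E1 E2 hE1 hE2 hpE hnE)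

end Pool.FSig
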