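import Pool.Agent.Lib.FSig.SDefs
import Pool.Agent.Lib.FSig.Lap

/-!
# Module StrB: only the multisets of left and right pairs matter

If `τ`, `τ'` are valid lists of cells with the same multiset of left pairs and the same multiset of right
pairs, then `lval τ - lval τ'` is a combination of values of valid lists with fewer cells of type `b = m`.

Proof. Induction on the length of `τ`. (`[]`: `τ' = []`.) Let `τ' = C' :: ρ'`, `C' = (P, R')`. The pair `P` is a left pair of
`τ`, so up to a permutation of `τ` (which changes neither side) `τ = C :: ρ`, `C = (P, R)`.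
* `R = R'`: `lval τ - lval τ' = cval C * (lval ρ - lval ρ')`, the tails have the same multisets
  (`List.Perm.cons_inv`), and `cval C` times the value of a valid list `σ` with `ninf σ < ninf ρ` is the value of
  `C :: σ`, `ninf (C :: σ) < ninf τ`.
* `R ≠ R'`: `R'` is the right pair of a cell of `ρ`; up to a permutation `ρ = (Q, R') :: ρ₁`. Put
  `τ'' = (P, R') :: (Q, R) :: ρ₁`. It is valid: `P`, `R`, `Q`, `R'` are all finite or all infinite, because `(P, R)`, `(P, R')`
  (in `τ'`) and `(Q, R')` are valid cells. `lval τ - lval τ''`: if finite it is `0` by `mi_swap`; if infinite, `P = (a, m)`,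
  `Q = (b, m)`, `R = (c, n)`, `R' = (d, n)`, it is `mi xx a b c d * lval ρ₁` (`entry_swap`), and
  `mi xx a b c d` is `0` if `a = b` or `c = d`, and up to sign the value of the valid cell with rows `min a b, max a b` and columns
  `min c d, max c d` (`mi` is antisymmetric in the rows and in the columns); this list has `ninf` smaller by two. And
  `lval τ'' - lval τ'` is treated by the first case.
-/

namespace Pool.FSig

section aux

variable {K A : Type*} [Field K] [CommRing A] [Algebra K A] {xx : ℕ → ℕ → A} {m n : ℕ}

private theorem sb_cons (C : Cell) (τ : List Cell) :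
    lval m xx (C :: τ) = cval m xx C * lval m xx τ := by
  unfold lval
  rw [List.map_cons, List.prod_cons]

private theorem sb_perm {τ τ' : List Cell} (h : τ.Perm τ') : lval m xx τ = lval m xx τ' := by
  unfold lval
  exact (h.map _).prod_eq

private theorem sb_ninf_cons (C : Cell) (τ : List Cell) :
    ninf m (C :: τ) = (if C.1.2 = m then 1 else 0) + ninf m τ := by
  unfold ninf
  rw [List.filter_cons]
  by_cases hC : C.1.2 = m
  · simp [hC, Nat.add_comm]
  · simp [hC]

private theorem sb_ninf_perm {τ τ' : List Cell} (h : τ.Perm τ') : ninf m τ = ninf m τ' := by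
  unfold ninf
  exact (h.filter _).length_eq

private theorem sb_valid_perm {τ τ' : List Cell} (h : τ.Perm τ') (hτ : LValid m n τ) :
    LValid m n τ' := fun C hC => hτ C (h.mem_iff.2 hC)

private theorem sb_mul (C : Cell) (hC : CValid m n C) (k : ℕ) (x : A)
    (hx : x ∈ Submodule.span K {f : A | ∃ σ : List Cell, LValid m n σ ∧
      ninf m σ < k ∧ f = lval m xx σ}) :
    cval m xx C * x ∈ Submodule.span K {f : A | ∃ σ : List Cell, LValid m n σ ∧
      ninf m σ < (if C.1.2 = m then 1 else 0) + k ∧ f = lval m xx σ} := by
  induction hx using Submodule.span_induction with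
  | mem x h =>
    obtain ⟨σ, h1, h2, rfl⟩ := h
    refine Submodule.subset_span ⟨C :: σ, ?_, ?_, (sb_cons C σ).symm⟩
    · intro D hD
      rcases List.mem_cons.1 hD with rfl | hD
      · exact hC
      · exact h1 D hD
    · rw [sb_ninf_cons]
      omega
  | zero => rw [mul_zero]; exact Submodule.zero_mem _
  | add x y _ _ h1 h2 => rw [mul_add]; exact Submodule.add_mem _ h1 h2
  | smul c x _ h => rw [mul_smul_comm]; exact Submodule.smul_mem _ _ h

/-- the case of two infinite cells -/
private theorem sb_inf (a b c d : ℕ) (ha : a < m) (hb : b < m) (hc : c < n) (hd : d < n)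
    (ρ : List Cell) (hρ : LValid m n ρ) (k : ℕ) (hk : ninf m ρ < k) :
    mi xx a b c d * lval m xx ρ ∈ Submodule.span K {f : A | ∃ σ : List Cell, LValid m n σ ∧
      ninf m σ < k ∧ f = lval m xx σ} := by
  have key : ∀ a b c d : ℕ, a < b → c < d → b < m → d < n →
      mi xx a b c d * lval m xx ρ ∈ Submodule.span K {f : A | ∃ σ : List Cell, LValid m n σ ∧
      ninf m σ < k ∧ f = lval m xx σ} := by
    intro a b c d hab hcd hb hd
    have hne : b ≠ m := hb.ne
    refine Submodule.subset_span ⟨((a, b), (c, d)) :: ρ, ?_, ?_, ?_⟩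
    · intro D hD
      rcases List.mem_cons.1 hD with rfl | hD
      · refine ⟨hab, hb.le, hcd, hd.le, ?_⟩
        constructor
        · intro h
          exact absurd h hb.ne
        · intro h
          exact absurd h hd.ne
      · exact hρ D hD
    · rw [sb_ninf_cons]
      simp only [hne, if_false, Nat.zero_add]
      exact hk
    · rw [sb_cons]
      congr 1
      unfold cval
      simp only [hne, if_false]
  rcases lt_trichotomy a b with hab | hab | hab
  · rcases lt_trichotomy c d with hcd | hcd | hcd
    · exact key a b c d hab hcd hb hd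
    · subst hcd
      have e : mi xx a b c c = 0 := by unfold mi; ring
      rw [e, zero_mul]
      exact Submodule.zero_mem _
    · have e : mi xx a b c d * lval m xx ρ = -(mi xx a b d c * lval m xx ρ) := by
        unfold mi; ring
      rw [e]
      exact Submodule.neg_mem _ (key a b d c hab hcd hb hc)
  · subst hab
    have e : mi xx a a c d = 0 := by unfold mi; ring
    rw [e, zero_mul]
    exact Submodule.zero_mem _
  · rcases lt_trichotomy c d with hcd | hcd | hcd
    · have e : mi xx a b c d * lval m xx ρ = -(mi xx b a c d * lval m xx ρ) := by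
        unfold mi; ring
      rw [e]
      exact Submodule.neg_mem _ (key b a c d hab hcd ha hd)
    · subst hcd
      have e : mi xx a b c c = 0 := by unfold mi; ring
      rw [e, zero_mul]
      exact Submodule.zero_mem _
    · have e : mi xx a b c d * lval m xx ρ = mi xx b a d c * lval m xx ρ := by
        unfold mi; ring
      rw [e]
      exact key b a d c hab hcd ha hc

end aux

theorem lval_sub_mem_span {K A : Type*} [Field K] [CommRing A] [Algebra K A] {xx : ℕ → ℕ → A}
    (h : Min3 xx) (m n : ℕ) (τ τ' : List Cell) (hτ : LValid m n τ) (hτ' : LValid m n τ')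
    (h1 : (τ.map Prod.fst).Perm (τ'.map Prod.fst)) (h2 : (τ.map Prod.snd).Perm (τ'.map Prod.snd)) :
    lval m xx τ - lval m xx τ' ∈ Submodule.span K {f : A | ∃ σ : List Cell, LValid m n σ ∧
      ninf m σ < ninf m τ ∧ f = lval m xx σ} := by
  classical
  induction τ' generalizing τ with
  | nil =>
    have e : τ = [] := by
      have h3 := h1.length_eq
      simp only [List.length_map, List.length_nil] at h3
      exact List.length_eq_zero_iff.1 h3
    subst e
    rw [sub_self]
    exact Submodule.zero_mem _
  | cons C' ρ' ih =>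
    obtain ⟨P, R'⟩ := C'
    have hC' : CValid m n (P, R') := hτ' _ List.mem_cons_self
    have hρ' : LValid m n ρ' := fun D hD => hτ' D (List.mem_cons_of_mem _ hD)
    -- the case of equal first cells
    have caseA : ∀ ρ : List Cell, LValid m n ρ → (ρ.map Prod.fst).Perm (ρ'.map Prod.fst) →
        (ρ.map Prod.snd).Perm (ρ'.map Prod.snd) → ∀ k : ℕ, ninf m ((P, R') :: ρ) = k →
        lval m xx ((P, R') :: ρ) - lval m xx ((P, R') :: ρ') ∈
          Submodule.span K {f : A | ∃ σ : List Cell, LValid m n σ ∧
            ninf m σ < k ∧ f = lval m xx σ} := by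
      intro ρ hρ hf hs k hk
      rw [sb_cons, sb_cons, ← mul_sub, ← hk, sb_ninf_cons]
      exact sb_mul (P, R') hC' _ _ (ih ρ hρ hρ' hf hs)
    have hP : P ∈ τ.map Prod.fst := h1.mem_iff.2 (by simp)
    obtain ⟨C, hC, hCP⟩ := List.mem_map.1 hP
    obtain ⟨P0, R⟩ := C
    change P0 = P at hCP
    subst hCP
    have hperm : τ.Perm ((P0, R) :: τ.erase (P0, R)) := List.perm_cons_erase hC
    set ρ := τ.erase (P0, R) with hρdef
    have hv1 : LValid m n ((P0, R) :: ρ) := sb_valid_perm hperm hτ
    have hCv : CValid m n (P0, R) := hv1 _ List.mem_cons_self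
    have hρv : LValid m n ρ := fun D hD => hv1 D (List.mem_cons_of_mem _ hD)
    have hf1 : (ρ.map Prod.fst).Perm (ρ'.map Prod.fst) := by
      have h3 := ((hperm.map Prod.fst).symm.trans h1)
      simp only [List.map_cons] at h3
      exact h3.cons_inv
    have hs1 : ((R :: ρ.map Prod.snd)).Perm (R' :: ρ'.map Prod.snd) := by
      have h3 := ((hperm.map Prod.snd).symm.trans h2)
      simpa only [List.map_cons] using h3
    rw [sb_perm hperm, sb_ninf_perm hperm]
    by_cases hR : R = R'
    · subst hR
      exact caseA ρ hρv hf1 hs1.cons_inv _ rfl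
    · have hR' : R' ∈ R :: ρ.map Prod.snd := hs1.mem_iff.2 (by simp)
      have hR'' : R' ∈ ρ.map Prod.snd := by
        rcases List.mem_cons.1 hR' with h3 | h3
        · exact absurd h3.symm hR
        · exact h3
      obtain ⟨D, hD, hDR⟩ := List.mem_map.1 hR''
      obtain ⟨Q, R0⟩ := D
      change R0 = R' at hDR
      subst hDR
      have hperm2 : ρ.Perm ((Q, R0) :: ρ.erase (Q, R0)) := List.perm_cons_erase hD
      set ρ₁ := ρ.erase (Q, R0) with hρ₁def
      have hv2 : LValid m n ((Q, R0) :: ρ₁) := sb_valid_perm hperm2 hρv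
      have hDv : CValid m n (Q, R0) := hv2 _ List.mem_cons_self
      have hρ₁v : LValid m n ρ₁ := fun D hD => hv2 D (List.mem_cons_of_mem _ hD)
      have hQRv : CValid m n (Q, R) := by
        obtain ⟨a1, a2, a3, a4, a5⟩ := hCv
        obtain ⟨b1, b2, b3, b4, b5⟩ := hDv
        obtain ⟨c1, c2, c3, c4, c5⟩ := hC'
        exact ⟨b1, b2, a3, a4, b5.trans (c5.symm.trans a5)⟩
      have hf2 : (((Q, R) :: ρ₁).map Prod.fst).Perm (ρ'.map Prod.fst) := by
        refine List.Perm.trans ?_ hf1
        have h3 := (hperm2.map Prod.fst).symm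
        simpa only [List.map_cons] using h3
      have hs2 : (((Q, R) :: ρ₁).map Prod.snd).Perm (ρ'.map Prod.snd) := by
        have h3 := hperm2.map Prod.snd
        simp only [List.map_cons] at h3
        have h4 : (R0 :: R :: ρ₁.map Prod.snd).Perm (R0 :: ρ'.map Prod.snd) :=
          ((List.Perm.swap R R0 _).trans (h3.symm.cons R)).trans hs1
        exact h4.cons_inv
      have hvv : LValid m n ((Q, R) :: ρ₁) := by
        intro D hD
        rcases List.mem_cons.1 hD with rfl | hD
        · exact hQRv
        · exact hρ₁v D hD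
      have hn : ninf m ((P0, R0) :: (Q, R) :: ρ₁) = ninf m ((P0, R) :: ρ) := by
        rw [sb_ninf_cons, sb_ninf_cons, sb_ninf_cons, sb_ninf_perm hperm2, sb_ninf_cons]
      have hA := caseA ((Q, R) :: ρ₁) hvv hf2 hs2 _ hn
      have hB : lval m xx ((P0, R) :: ρ) - lval m xx ((P0, R0) :: (Q, R) :: ρ₁) ∈
          Submodule.span K {f : A | ∃ σ : List Cell, LValid m n σ ∧
            ninf m σ < ninf m ((P0, R) :: ρ) ∧ f = lval m xx σ} := by
        rw [sb_cons, sb_perm hperm2, sb_cons, sb_cons, sb_cons]
        by_cases hP0 : P0.2 = m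
        · have hR2 : R.2 = n := hCv.2.2.2.2.1 hP0
          have hR02 : R0.2 = n := hC'.2.2.2.2.1 hP0
          have hQ2 : Q.2 = m := hDv.2.2.2.2.2 hR02
          have e : cval m xx (P0, R) * (cval m xx (Q, R0) * lval m xx ρ₁) -
              cval m xx (P0, R0) * (cval m xx (Q, R) * lval m xx ρ₁) =
              mi xx P0.1 Q.1 R.1 R0.1 * lval m xx ρ₁ := by
            unfold cval mi
            simp only [hP0, hQ2, if_true]
            ring
          rw [e]
          refine sb_inf P0.1 Q.1 R.1 R0.1 ?_ ?_ ?_ ?_ ρ₁ hρ₁v _ ?_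
          · rw [← hP0]; exact hCv.1
          · rw [← hQ2]; exact hDv.1
          · rw [← hR2]; exact hCv.2.2.1
          · rw [← hR02]; exact hDv.2.2.1
          · rw [sb_ninf_cons, sb_ninf_perm hperm2, sb_ninf_cons]
            simp only [hP0, hQ2, if_true]
            omega
        · have hR02 : R0.2 ≠ n := fun h3 => hP0 (hC'.2.2.2.2.2 h3)
          have hQ2 : Q.2 ≠ m := fun h3 => hR02 (hDv.2.2.2.2.1 h3)
          have e : cval m xx (P0, R) * (cval m xx (Q, R0) * lval m xx ρ₁) -
              cval m xx (P0, R0) * (cval m xx (Q, R) * lval m xx ρ₁) = 0 := by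
            have h3 := mi_swap h P0.1 P0.2 Q.1 Q.2 R.1 R.2 R0.1 R0.2
            unfold cval
            simp only [hP0, hQ2, if_false]
            linear_combination (lval m xx ρ₁) * h3
          rw [e]
          exact Submodule.zero_mem _
      have hsum := Submodule.add_mem _ hB hA
      rwa [sub_add_sub_cancel] at hsum

end Pool.FSig
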