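import Pool.Agent.Lib.FSig.SExp
import Pool.Agent.Lib.FSig.StrA
import Pool.Agent.Lib.FSig.StrB

/-!
# Module SFT: the second fundamental theorem, `ker (K[x_ij] → T) = I_3`

Proof of `jT_injective`. Let `E` be the set of the exponents `exT m n τ` of valid `DNN` lists; choose for every `e ∈ E` such a
list `c e` (for `e ∉ E` anything).
(1) `R3` is spanned over `K` by the values `lval m xR τ` of valid lists: a monomial `∏ X (i, j) ^ μ` is the value of the list
with `μ (i, j)` copies of the cells `((i, m), (j, n))` (or: the span is closed under multiplication by the generators, induction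
`MvPolynomial.induction_on`).
(2) Every `lval m xR τ`, `τ` valid, is in the span of the `lval m xR (c e)`, `e ∈ E`. Strong induction on `ninf m τ`: by
`lval_mem_span_dnn` (`min3_xR`) we may assume `DNN τ` (same `ninf`); `e = exT m n τ ∈ E`, by `perm_of_exT_eq` the lists `τ`
and `c e` have the same left and the same right pairs, so `lval τ - lval (c e)` is a combination of values of valid lists with
smaller `ninf` (`lval_sub_mem_span`), which are in the span by induction.
(3) Let `f : R3` with `jT f = 0`. By (1), (2) `f = ∑ e ∈ s, α e • lval m xR (c e)`, `s ⊆ E` finite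
(`Submodule.mem_span_set`/`Finsupp.mem_span_image_iff_linearCombination`). Apply `jT` (`map_lval`, `jT_xR`):
`∑ e ∈ s, C (α e) * lval m xT (c e) = 0` and `TopM (om m n) (lval m xT (c e)) e` (`topM_lval`), so all `α e = 0`
(`eq_zero_of_top`) and `f = 0`.
`ker_toT`: `toT = jT ∘ mk`.
-/

namespace Pool.FSig

open MvPolynomial

/-- the monomials are values of valid lists -/
private theorem sft_span (m n : ℕ) (K : Type*) [Field K] (f : _root_.FSig.R3 m n K) :
    f ∈ Submodule.span K {f : _root_.FSig.R3 m n K | ∃ τ : List Cell, LValid m n τ ∧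
      f = lval m (xR m n K) τ} := by
  obtain ⟨g, rfl⟩ := Ideal.Quotient.mk_surjective f
  induction g using MvPolynomial.induction_on with
  | C a =>
    have h1 : (Ideal.Quotient.mk (_root_.FSig.I3 m n K)) (C a) =
        a • lval m (xR m n K) [] := by
      have h2 : lval m (xR m n K) [] = 1 := by simp [lval]
      rw [h2]
      exact (Algebra.algebraMap_eq_smul_one (A := _root_.FSig.R3 m n K) a)
    rw [h1]
    exact Submodule.smul_mem _ _ (Submodule.subset_span ⟨[], by simp [LValid], rfl⟩)
  | add p q hp hq =>
    rw [map_add]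
    exact Submodule.add_mem _ hp hq
  | mul_X p i hp =>
    have hx : (Ideal.Quotient.mk (_root_.FSig.I3 m n K)) (X i) =
        xR m n K (i.1 : ℕ) (i.2 : ℕ) := by
      unfold xR
      rw [dif_pos ⟨i.1.2, i.2.2⟩]
    rw [map_mul, hx]
    generalize (Ideal.Quotient.mk (_root_.FSig.I3 m n K)) p = y at hp
    induction hp using Submodule.span_induction with
    | mem y hy =>
      obtain ⟨τ, hτ, rfl⟩ := hy
      refine Submodule.subset_span ⟨(((i.1 : ℕ), m), ((i.2 : ℕ), n)) :: τ, ?_, ?_⟩
      · intro D hD
        rcases List.mem_cons.1 hD with h | h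
        · rw [h]
          exact ⟨i.1.2, le_rfl, i.2.2, le_rfl, by simp⟩
        · exact hτ D h
      · unfold lval
        rw [List.map_cons, List.prod_cons, mul_comm]
        congr 1
        simp [cval]
    | zero => simp
    | add x y _ _ hx hy =>
      rw [add_mul]
      exact Submodule.add_mem _ hx hy
    | smul a x _ hx =>
      rw [smul_mul_assoc]
      exact Submodule.smul_mem _ _ hx

open Classical in
/-- the chosen list without nesting with a given exponent -/
private noncomputable def sftC (m n : ℕ) (e : _root_.FSig.Vx m n × Bool →₀ ℕ) : List Cell :=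
  if h : ∃ τ : List Cell, LValid m n τ ∧ DNN τ ∧ exT m n τ = e then h.choose else []

private theorem sftC_spec {m n : ℕ} {e : _root_.FSig.Vx m n × Bool →₀ ℕ}
    (h : ∃ τ : List Cell, LValid m n τ ∧ DNN τ ∧ exT m n τ = e) :
    LValid m n (sftC m n e) ∧ DNN (sftC m n e) ∧ exT m n (sftC m n e) = e := by
  unfold sftC
  rw [dif_pos h]
  exact h.choose_spec

private theorem sft_mem (m n : ℕ) (K : Type*) [Field K] (k : ℕ) :
    ∀ τ : List Cell, LValid m n τ → ninf m τ = k →
      lval m (xR m n K) τ ∈ Submodule.span K ((fun e => lval m (xR m n K) (sftC m n e)) ''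
        {e | ∃ τ : List Cell, LValid m n τ ∧ DNN τ ∧ exT m n τ = e}) := by
  induction k using Nat.strong_induction_on with
  | _ k ih =>
    intro τ hτ hk
    refine (Submodule.span_le.2 ?_) (lval_mem_span_dnn (K := K) (min3_xR m n K) m n τ hτ)
    rintro f ⟨σ, hσ, hd, -, hn, rfl⟩
    have he : ∃ τ : List Cell, LValid m n τ ∧ DNN τ ∧ exT m n τ = exT m n σ :=
      ⟨σ, hσ, hd, rfl⟩
    obtain ⟨h1, h2, h3⟩ := sftC_spec he
    obtain ⟨h4, h5⟩ := perm_of_exT_eq hσ h1 hd h2 h3.symm
    have h6 := lval_sub_mem_span (K := K) (min3_xR m n K) m n σ (sftC m n (exT m n σ)) hσ h1 h4 h5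
    have h7 : lval m (xR m n K) σ - lval m (xR m n K) (sftC m n (exT m n σ)) ∈
        Submodule.span K ((fun e => lval m (xR m n K) (sftC m n e)) ''
        {e | ∃ τ : List Cell, LValid m n τ ∧ DNN τ ∧ exT m n τ = e}) := by
      refine (Submodule.span_le.2 ?_) h6
      rintro f ⟨ρ, hρ, hlt, rfl⟩
      exact ih (ninf m ρ) (by omega) ρ hρ rfl
    have h8 : lval m (xR m n K) (sftC m n (exT m n σ)) ∈
        Submodule.span K ((fun e => lval m (xR m n K) (sftC m n e)) ''
        {e | ∃ τ : List Cell, LValid m n τ ∧ DNN τ ∧ exT m n τ = e}) :=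
      Submodule.subset_span ⟨exT m n σ, he, rfl⟩
    have h9 := Submodule.add_mem _ h7 h8
    rw [sub_add_cancel] at h9
    exact h9

private theorem sft_jT (m n : ℕ) (K : Type*) [Field K] (τ : List Cell) :
    jT m n K (lval m (xR m n K) τ) = lval m (xT m n K) τ := by
  have h := map_lval (xx := xR m n K) (jT m n K).toRingHom m τ
  have h2 : (fun a c => (jT m n K).toRingHom (xR m n K a c)) = xT m n K := by
    funext a c
    exact jT_xR m n K a c
  rw [h2] at h
  exact h

theorem jT_injective (m n : ℕ) (K : Type*) [Field K] : Function.Injective (jT m n K) := by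
  rw [injective_iff_map_eq_zero]
  intro f hf
  have h1 : f ∈ Submodule.span K ((fun e => lval m (xR m n K) (sftC m n e)) ''
        {e | ∃ τ : List Cell, LValid m n τ ∧ DNN τ ∧ exT m n τ = e}) := by
    refine (Submodule.span_le.2 ?_) (sft_span m n K f)
    rintro g ⟨τ, hτ, rfl⟩
    exact sft_mem m n K _ τ hτ rfl
  rw [Finsupp.mem_span_image_iff_linearCombination] at h1
  obtain ⟨l, hl, hlf⟩ := h1
  have hsupp : ∀ e ∈ l.support, ∃ τ : List Cell, LValid m n τ ∧ DNN τ ∧ exT m n τ = e := by
    intro e he
    exact hl he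
  have h2 : ∑ e ∈ l.support, C (l e) * lval m (xT m n K) (sftC m n e) = 0 := by
    rw [← hf, ← hlf, Finsupp.linearCombination_apply, Finsupp.sum, map_sum]
    refine Finset.sum_congr rfl fun e _ => ?_
    rw [map_smul, sft_jT, MvPolynomial.C_mul']
  have h3 := eq_zero_of_top (ω := om m n) l.support
    (fun e => lval m (xT m n K) (sftC m n e)) (fun e he => by
      obtain ⟨h1, -, h3⟩ := sftC_spec (hsupp e he)
      have h4 := topM_lval m n K h1
      rw [h3] at h4
      exact h4) (fun e => l e) h2
  have h4 : l = 0 := by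
    ext e
    by_cases he : e ∈ l.support
    · exact h3 e he
    · exact Finsupp.notMem_support_iff.1 he
  rw [← hlf, h4, map_zero]

theorem ker_toT (m n : ℕ) (K : Type*) [Field K] :
    RingHom.ker (_root_.FSig.toT m n K) = _root_.FSig.I3 m n K := by
  apply le_antisymm
  · intro g hg
    rw [RingHom.mem_ker] at hg
    rw [← Ideal.Quotient.eq_zero_iff_mem]
    apply jT_injective m n K
    rw [map_zero]
    exact hg
  · exact I3_le_ker_toT m n K

end Pool.FSig
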