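import Pool.Agent.Lib.FSig.SDefs

/-!
# Module SMin: the matrices of `R3` and of `T`

`xR` is the matrix of `R3 m n K`, `xT` the matrix of the brackets in `T`, both extended by `0` to all
pairs of natural numbers.

* `min3_xT`: `xT a c = A a * B' c - B a * A' c` for functions `A, B, A', B' : ℕ → T` (`va`, `vb` of the vectors, extended by zero:
  if `a ≥ m` or `c ≥ n` both sides are `0` when the extensions are `0`); the expansion in `Min3` is then
  zero by `ring`.
* `min3_xR`: if one of the rows is `≥ m` or one of the columns `≥ n`, all terms vanish (a row, resp. a column, of zeros: `simp`).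
  Otherwise the expression is `± det` of the `3 × 3` matrix `x (r i) (c j)`, `r = ![a,b,c]`, `c = ![d,e,f]`
  (`Matrix.det_fin_three`). If `r` or `c` is not injective the determinant is zero
  (`Matrix.det_zero_of_row_eq`, `det_zero_of_column_eq`, or the expression is zero by `ring` after `subst`). If both are injective,
  there are permutations `σ, τ` of `Fin 3` with `r ∘ σ`, `c ∘ τ` strictly increasing (`Tuple.sort`, or by cases), the determinant is
  `± det (x (r (σ i)) (c (τ j)))` (`Matrix.det_permute`, `Matrix.det_permute'`) and this one is the class of a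
  generator of `I3 m n K` (`OrderEmbedding.ofStrictMono`).
* `jT_xR`: the map `R3 → T` induced by `toT` (`Ideal.Quotient.lift`, it exists because the generators of `I3` go to
  zero, by `min3_xT`) maps `xR a c` to `xT a c`.
-/

namespace Pool.FSig

open MvPolynomial

variable (m n : ℕ) (K : Type*) [Field K]

/-- the matrix of `R3`, extended by zero -/
noncomputable def xR (a c : ℕ) : _root_.FSig.R3 m n K :=
  if h : a < m ∧ c < n then Ideal.Quotient.mk _ (X (⟨a, h.1⟩, ⟨c, h.2⟩)) else 0

/-- the matrix of brackets, extended by zero -/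
noncomputable def xT (a c : ℕ) : _root_.FSig.T (_root_.FSig.Vx m n) K :=
  if h : a < m ∧ c < n then
    _root_.FSig.br K (Sum.inl ⟨a, h.1⟩ : _root_.FSig.Vx m n) (Sum.inr ⟨c, h.2⟩) else 0

private theorem smin_xT_eq (a c : ℕ) : xT m n K a c =
    (if h : a < m then _root_.FSig.va K (Sum.inl ⟨a, h⟩ : _root_.FSig.Vx m n) else 0) *
      (if h : c < n then _root_.FSig.vb K (Sum.inr ⟨c, h⟩ : _root_.FSig.Vx m n) else 0) -
    (if h : a < m then _root_.FSig.vb K (Sum.inl ⟨a, h⟩ : _root_.FSig.Vx m n) else 0) *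
      (if h : c < n then _root_.FSig.va K (Sum.inr ⟨c, h⟩ : _root_.FSig.Vx m n) else 0) := by
  by_cases h1 : a < m
  · by_cases h2 : c < n
    · rw [xT, dif_pos ⟨h1, h2⟩, dif_pos h1, dif_pos h2, dif_pos h1, dif_pos h2, _root_.FSig.br]
    · rw [xT, dif_neg (fun h => h2 h.2), dif_neg h2, dif_neg h2, mul_zero, mul_zero, sub_zero]
  · rw [xT, dif_neg (fun h => h1 h.1), dif_neg h1, dif_neg h1, zero_mul, zero_mul, sub_zero]

private theorem smin_rank2 {A : Type*} [CommRing A] (xx : ℕ → ℕ → A) (p q r s : ℕ → A)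
    (h : ∀ a c, xx a c = p a * q c - r a * s c) : Min3 xx := by
  intro a b c d e f
  rw [mi, mi, mi, h, h, h, h, h, h, h, h, h]
  ring

theorem min3_xT : Min3 (xT m n K) :=
  smin_rank2 _ _ _ _ _ (smin_xT_eq m n K)

private theorem smin_sort {P : ℕ → ℕ → ℕ → Prop} (h12 : ∀ a b c, P a b c → P b a c)
    (h23 : ∀ a b c, P a b c → P a c b) (heq : ∀ a c, P a a c)
    (hs : ∀ a b c, a < b → b < c → P a b c) (a b c : ℕ) : P a b c := by
  rcases lt_trichotomy a b with hab | rfl | hab
  · rcases lt_trichotomy b c with hbc | rfl | hbc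
    · exact hs a b c hab hbc
    · exact h12 _ _ _ (h23 _ _ _ (heq b a))
    · rcases lt_trichotomy a c with hac | rfl | hac
      · exact h23 _ _ _ (hs a c b hac hbc)
      · exact h23 _ _ _ (heq a b)
      · exact h23 _ _ _ (h12 _ _ _ (hs c a b hac hab))
  · exact heq a c
  · rcases lt_trichotomy b c with hbc | rfl | hbc
    · rcases lt_trichotomy a c with hac | rfl | hac
      · exact h12 _ _ _ (hs b a c hab hac)
      · exact h23 _ _ _ (heq a b)
      · exact h12 _ _ _ (h23 _ _ _ (hs b c a hbc hac))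
    · exact h12 _ _ _ (h23 _ _ _ (heq b a))
    · exact h12 _ _ _ (h23 _ _ _ (h12 _ _ _ (hs c b a hbc hab)))

private theorem smin_all {A : Type*} [CommRing A] (xx : ℕ → ℕ → A)
    (h : ∀ a b c d e f : ℕ, a < b → b < c → d < e → e < f →
      xx a d * mi xx b c e f - xx a e * mi xx b c d f + xx a f * mi xx b c d e = 0) :
    Min3 xx := by
  intro a b c
  refine smin_sort (P := fun a b c => ∀ d e f : ℕ,
    xx a d * mi xx b c e f - xx a e * mi xx b c d f + xx a f * mi xx b c d e = 0)
    ?_ ?_ ?_ ?_ a b c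
  · intro a b c h1 d e f
    have h2 := h1 d e f
    rw [mi, mi, mi] at h2 ⊢
    linear_combination -h2
  · intro a b c h1 d e f
    have h2 := h1 d e f
    rw [mi, mi, mi] at h2 ⊢
    linear_combination -h2
  · intro a c d e f
    rw [mi, mi, mi]
    ring
  · intro a b c hab hbc d e f
    refine smin_sort (P := fun d e f =>
      xx a d * mi xx b c e f - xx a e * mi xx b c d f + xx a f * mi xx b c d e = 0)
      ?_ ?_ ?_ ?_ d e f
    · intro d e f h2
      rw [mi, mi, mi] at h2 ⊢
      linear_combination -h2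
    · intro d e f h2
      rw [mi, mi, mi] at h2 ⊢
      linear_combination -h2
    · intro d f
      simp only [mi]
      ring
    · intro d e f hde hef
      exact h a b c d e f hab hbc hde hef

/-- three increasing numbers as an order embedding -/
private def sminEmb {N a b c : ℕ} (hab : a < b) (hbc : b < c) (hc : c < N) : Fin 3 ↪o Fin N :=
  OrderEmbedding.ofStrictMono ![⟨a, hab.trans (hbc.trans hc)⟩, ⟨b, hbc.trans hc⟩, ⟨c, hc⟩] (by
    rw [Fin.strictMono_iff_lt_succ]
    intro i
    fin_cases i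
    · exact hab
    · exact hbc)

private theorem smin_det {a b c d e f : ℕ} (hab : a < b) (hbc : b < c) (hc : c < m)
    (hde : d < e) (hef : e < f) (hf : f < n) :
    xR m n K a d * mi (xR m n K) b c e f - xR m n K a e * mi (xR m n K) b c d f +
      xR m n K a f * mi (xR m n K) b c d e = 0 := by
  have ha : a < m := hab.trans (hbc.trans hc)
  have hb : b < m := hbc.trans hc
  have hd : d < n := hde.trans (hef.trans hf)
  have he : e < n := hef.trans hf
  have h0 : Ideal.Quotient.mk (_root_.FSig.I3 m n K)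
      (((_root_.FSig.genMat m n K).submatrix (sminEmb hab hbc hc) (sminEmb hde hef hf)).det) = 0 := by
    rw [Ideal.Quotient.eq_zero_iff_mem]
    exact Ideal.subset_span ⟨(sminEmb hab hbc hc, sminEmb hde hef hf), rfl⟩
  have hx : ∀ (i j : ℕ) (hi : i < m) (hj : j < n), xR m n K i j =
      Ideal.Quotient.mk (_root_.FSig.I3 m n K) (X (⟨i, hi⟩, ⟨j, hj⟩)) :=
    fun i j hi hj => dif_pos ⟨hi, hj⟩
  rw [Matrix.det_fin_three] at h0
  rw [mi, mi, mi, hx a d ha hd, hx a e ha he, hx a f ha hf, hx b d hb hd, hx b e hb he,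
    hx b f hb hf, hx c d hc hd, hx c e hc he, hx c f hc hf]
  simp only [map_sub, map_add, map_mul] at h0
  have h1 : ∀ i j : Fin 3, (_root_.FSig.genMat m n K).submatrix (sminEmb hab hbc hc)
      (sminEmb hde hef hf) i j = X (sminEmb hab hbc hc i, sminEmb hde hef hf j) := fun i j => rfl
  rw [h1, h1, h1, h1, h1, h1, h1, h1, h1] at h0
  have e0 : sminEmb hab hbc hc 0 = ⟨a, ha⟩ := rfl
  have e1 : sminEmb hab hbc hc 1 = ⟨b, hb⟩ := rfl
  have e2 : sminEmb hab hbc hc 2 = ⟨c, hc⟩ := rfl
  have f0 : sminEmb hde hef hf 0 = ⟨d, hd⟩ := rfl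
  have f1 : sminEmb hde hef hf 1 = ⟨e, he⟩ := rfl
  have f2 : sminEmb hde hef hf 2 = ⟨f, hf⟩ := rfl
  rw [e0, e1, e2, f0, f1, f2] at h0
  linear_combination h0

theorem min3_xR : Min3 (xR m n K) := by
  refine smin_all _ fun a b c d e f hab hbc hde hef => ?_
  by_cases hc : c < m
  · by_cases hf : f < n
    · exact smin_det m n K hab hbc hc hde hef hf
    · have h : ∀ i, xR m n K i f = 0 := fun i => dif_neg (fun h => hf h.2)
      rw [mi, mi, mi, h, h, h]
      ring
  · have h : ∀ j, xR m n K c j = 0 := fun j => dif_neg (fun h => hc h.1)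
    rw [mi, mi, mi, h, h, h]
    ring

theorem I3_le_ker_toT : _root_.FSig.I3 m n K ≤ RingHom.ker (_root_.FSig.toT m n K) := by
  rw [_root_.FSig.I3, Ideal.span_le]
  rintro _ ⟨rc, rfl⟩
  rw [SetLike.mem_coe, RingHom.mem_ker]
  beta_reduce
  rw [Matrix.det_fin_three]
  have h1 : ∀ i j : Fin 3, (_root_.FSig.genMat m n K).submatrix rc.1 rc.2 i j =
      X (rc.1 i, rc.2 j) := fun i j => rfl
  have h2 : ∀ i j : Fin 3, _root_.FSig.toT m n K (X (rc.1 i, rc.2 j)) =
      _root_.FSig.br K (Sum.inl (rc.1 i) : _root_.FSig.Vx m n) (Sum.inr (rc.2 j)) := fun i j => by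
    rw [_root_.FSig.toT, aeval_X]
  rw [h1, h1, h1, h1, h1, h1, h1, h1, h1]
  simp only [map_sub, map_add, map_mul, h2, _root_.FSig.br]
  ring

/-- the map `R3 → T` -/
noncomputable def jT : _root_.FSig.R3 m n K →ₐ[K] _root_.FSig.T (_root_.FSig.Vx m n) K :=
  Ideal.Quotient.liftₐ (_root_.FSig.I3 m n K) (_root_.FSig.toT m n K)
    (fun _ ha => I3_le_ker_toT m n K ha)

theorem jT_xR (a c : ℕ) : jT m n K (xR m n K a c) = xT m n K a c := by
  by_cases h : a < m ∧ c < n
  · rw [xR, xT, dif_pos h, dif_pos h]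
    change _root_.FSig.toT m n K (X (⟨a, h.1⟩, ⟨c, h.2⟩)) = _
    rw [_root_.FSig.toT, aeval_X]
  · rw [xR, xT, dif_neg h, dif_neg h, map_zero]

end Pool.FSig
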