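import Pool.Agent.Lib.FSig.Defs

/-!
# MP_05de8f_ag : the polynomial ring `T` on vectors `(a_v, b_v)`, operators, trace (definitions)

`T V K = K[a_v, b_v : v ∈ V]`. `gr` is the grading by (multidegree, weight), values in `(V →₀ ℕ) × ℤ`.
`S d w` is the component of multidegree `d : V →₀ ℕ` and weight `w : ℤ` (`a_v` has weight `1`, `b_v` weight `-1`).
`Et`, `Ft : T → T[t]`, `Et b_v = b_v + t a_v`, `Ft a_v = a_v + t b_v`; `E k`, `F k` the coefficients of `t^k`.
`Inv` = elements with `Et f = f`, `Ft f = f` (`SL_2`-invariants). `Lam p = F^(p-1) E^(p-1)`.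
`Phi` = the `p^{-1}`-linear trace (`V` finite, `K` perfect of characteristic `p`).
-/

namespace FSig

open MvPolynomial

variable (V : Type*) (K : Type*) [CommRing K]

/-- `K[a_v, b_v : v ∈ V]`; `(v, false)` is `a_v`, `(v, true)` is `b_v`. -/
abbrev T : Type _ := MvPolynomial (V × Bool) K

variable {V}

/-- the first coordinate `a_v` -/
noncomputable def va (v : V) : T V K := X (v, false)

/-- the second coordinate `b_v` -/
noncomputable def vb (v : V) : T V K := X (v, true)

/-- the bracket `[v w] = a_v b_w - b_v a_w` -/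
noncomputable def br (v w : V) : T V K := va K v * vb K w - vb K v * va K w

/-- `Et : T → T[t]`, `a_v ↦ a_v`, `b_v ↦ b_v + t a_v`. -/
noncomputable def Et : T V K →ₐ[K] Polynomial (T V K) :=
  aeval fun x => if x.2 then Polynomial.C (X x) + Polynomial.X * Polynomial.C (X (x.1, false))
    else Polynomial.C (X x)

/-- `Ft : T → T[t]`, `b_v ↦ b_v`, `a_v ↦ a_v + t b_v`. -/
noncomputable def Ft : T V K →ₐ[K] Polynomial (T V K) :=
  aeval fun x => if x.2 then Polynomial.C (X x)
    else Polynomial.C (X x) + Polynomial.X * Polynomial.C (X (x.1, true))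

/-- `E^(k)`: the coefficient of `t^k` in `Et`. -/
noncomputable def E (k : ℕ) : T V K →ₗ[K] T V K :=
  ((Polynomial.lcoeff (T V K) k).restrictScalars K).comp (Et K).toLinearMap

/-- `F^(k)`: the coefficient of `t^k` in `Ft`. -/
noncomputable def F (k : ℕ) : T V K →ₗ[K] T V K :=
  ((Polynomial.lcoeff (T V K) k).restrictScalars K).comp (Ft K).toLinearMap

/-- the grading by multidegree and weight -/
noncomputable def gr (x : V × Bool) : (V →₀ ℕ) × ℤ :=
  (Finsupp.single x.1 1, if x.2 then -1 else 1)

/-- the component of multidegree `d` and weight `w` -/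
noncomputable def S (d : V →₀ ℕ) (w : ℤ) : Submodule K (T V K) :=
  weightedHomogeneousSubmodule K (gr (V := V)) (d, w)

/-- The subalgebra of `SL_2`-invariants. -/
noncomputable def Inv : Subalgebra K (T V K) where
  carrier := {f | Et K f = Polynomial.C f ∧ Ft K f = Polynomial.C f}
  mul_mem' := by
    rintro x y ⟨hx1, hx2⟩ ⟨hy1, hy2⟩
    exact ⟨by rw [map_mul, hx1, hy1, Polynomial.C_mul], by rw [map_mul, hx2, hy2, Polynomial.C_mul]⟩
  add_mem' := by
    rintro x y ⟨hx1, hx2⟩ ⟨hy1, hy2⟩
    exact ⟨by rw [map_add, hx1, hy1, Polynomial.C_add], by rw [map_add, hx2, hy2, Polynomial.C_add]⟩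
  algebraMap_mem' := by
    intro r
    refine ⟨?_, ?_⟩ <;>
    · rw [AlgHom.commutes]
      rfl

/-- `Lam = F^(p-1) E^(p-1)`. -/
noncomputable def Lam (p : ℕ) : T V K →ₗ[K] T V K := (F K (p - 1)).comp (E K (p - 1))

/-- all exponents of the monomial are `≤ p - 1` -/
def Small (p : ℕ) (μ : V × Bool →₀ ℕ) : Prop := ∀ x, μ x ≤ p - 1

section trace

variable (V) in
/-- the monomial exponent with all exponents `c` -/
noncomputable def cst [Fintype V] (c : ℕ) : V × Bool →₀ ℕ :=
  Finsupp.equivFunOnFinite.symm fun _ => c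

@[simp] lemma cst_apply [Fintype V] (c : ℕ) (x : V × Bool) : cst V c x = c := rfl

variable {K : Type*} [Field K] [Fintype V] (p : ℕ) [Fact p.Prime] [CharP K p] [PerfectRing K p]

/-- the `p`-th root in the perfect field `K` -/
noncomputable def root : K ≃+* K := (frobeniusEquiv K p).symm

lemma root_pow (c : K) : root p c ^ p = c := by
  have := (frobeniusEquiv K p).apply_symm_apply c
  rwa [frobeniusEquiv_apply, frobenius_def] at this

lemma root_pow' (c : K) : root p (c ^ p) = c := by
  have := (frobeniusEquiv K p).symm_apply_apply c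
  rwa [frobeniusEquiv_apply, frobenius_def] at this

/-- auxiliary function for `Phi` -/
noncomputable def PhiFun (f : T V K) : T V K := by
  classical
  exact ∑ ν ∈ f.support.image (fun μ : V × Bool →₀ ℕ => μ.mapRange (· / p) (Nat.zero_div p)),
    monomial ν (root p (coeff (p • ν + cst V (p - 1)) f))

lemma coeff_PhiFun (f : T V K) (ν : V × Bool →₀ ℕ) :
    coeff ν (PhiFun p f) = root p (coeff (p • ν + cst V (p - 1)) f) := by
  classical
  have hp : 0 < p := (Fact.out : p.Prime).pos
  unfold PhiFun
  simp only [coeff_sum, coeff_monomial]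
  rw [Finset.sum_ite_eq']
  split_ifs with h
  · rfl
  · symm
    by_contra hne
    apply h
    rw [Finset.mem_image]
    refine ⟨p • ν + cst V (p - 1), ?_, ?_⟩
    · rw [mem_support_iff]
      intro h0
      apply hne
      rw [h0, map_zero]
    · ext x
      simp only [Finsupp.mapRange_apply, Finsupp.add_apply, Finsupp.smul_apply, smul_eq_mul,
        cst_apply]
      rw [Nat.mul_add_div hp, Nat.div_eq_of_lt (by omega), add_zero]

/-- The trace `Phi (∑ c_μ x^μ) = ∑_ν (c_{p ν + (p-1)})^{1/p} x^ν`. -/
noncomputable def Phi : T V K →+ T V K where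
  toFun := PhiFun p
  map_zero' := by
    ext ν
    rw [coeff_PhiFun, coeff_zero, coeff_zero, map_zero]
  map_add' := by
    intro f g
    ext ν
    rw [coeff_add, coeff_PhiFun, coeff_PhiFun, coeff_PhiFun, coeff_add, map_add]

lemma coeff_Phi (f : T V K) (ν : V × Bool →₀ ℕ) :
    coeff ν (Phi p f) = root p (coeff (p • ν + cst V (p - 1)) f) := coeff_PhiFun p f ν

end trace

section rows

variable (m n : ℕ) (K : Type*) [Field K]

/-- the vectors: `m` rows and `n` columns -/
abbrev Vx (m n : ℕ) : Type := Fin m ⊕ Fin n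

/-- `x_ij ↦ [i j]` (row `i`, column `j`) -/
noncomputable def toT : MvPolynomial (Fin m × Fin n) K →ₐ[K] T (Vx m n) K :=
  aeval fun x => br K (Sum.inl x.1 : Vx m n) (Sum.inr x.2)

/-- the subalgebra of `T` generated by the brackets `[i j]`, `i` a row, `j` a column. It is isomorphic to `R3 m n K`. -/
noncomputable def Rp : Subalgebra K (T (Vx m n) K) := (toT m n K).range

/-- a multidegree is balanced if the row degree is the column degree -/
def Bal {m n : ℕ} (d : Vx m n →₀ ℕ) : Prop :=
  ∑ i : Fin m, d (Sum.inl i) = ∑ j : Fin n, d (Sum.inr j)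

/-- the maximal ideal of `Rp` (constant coefficient zero) -/
noncomputable def mRp : Ideal (Rp m n K) :=
  RingHom.ker ((constantCoeff (σ := Vx m n × Bool) (R := K)).comp (Rp m n K).val.toRingHom)

end rows

end FSig
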