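import Pool.Agent.Lib.FSig.ThetaOne

/-!
# MP_05de8f_ag : the duality map for all large vectors (module ThetaAll)

THEOREM `theta_exists`: for `d` with all `d v ≤ 2p-2` there is a linear map `θ : T → T` such that, on the spaces `S d w` (all `w`): `θ` commutes with all `E^(k)`, `F^(k)`;
`θ (S d w) ⊆ S (bar p d) w`; `θ : S d w → S (bar p d) w` is onto; for `f ∈ S d w`: `θ f = 0` iff `f` has no small monomial.

PROOF. Strong induction on the number of `v ∈ support d` with `d v ≥ p`. If it is `0`: `bar p d = d` (`min (d v) (2p-2-d v) = d v` for `d v ≤ p-1`), `θ = id`; every monomial of `S d w` is small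
(`μ x ≤ d x.1 ≤ p-1`). Otherwise `d v ≥ p`, `d = d' + D e_v`, `d' v = 0`, `D = d v` (`d' = d.erase v`), `d1 = d' + (2p-2-D) e_v`; `2p-2-D ≤ p-2`, so `d1` has one large vector less, and
`bar p d1 = bar p d`. Let `θ1` be the map for `d1`, `θ = θ1 ∘ thv v` (`thv_E`, `thv_F`, `thv_mem`, `thv_surj`, `thv_small`; `E k` preserves the multidegree: `E_mem_S`).
For `f ∈ S d w`: `θ f = 0 ↔ thv v f` has no small monomial `↔ f` has none.
-/

namespace FSig

open MvPolynomial Finset

variable {V : Type*} [DecidableEq V] (K : Type*) [Field K] (p : ℕ) [Fact p.Prime] [CharP K p]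

omit [DecidableEq V] in
private lemma tha_bar (d : V →₀ ℕ) (u : V) : bar p d u = min (d u) (2 * p - 2 - d u) := by
  unfold bar
  rw [Finsupp.mapRange_apply]

private lemma tha_base (d : V →₀ ℕ) (hd : ∀ v, d v ≤ p - 1) : ∃ θ : T V K →ₗ[K] T V K,
    (∀ w, ∀ f ∈ S K d w, ∀ k, θ (E K k f) = E K k (θ f)) ∧
    (∀ w, ∀ f ∈ S K d w, ∀ k, θ (F K k f) = F K k (θ f)) ∧
    (∀ w, ∀ f ∈ S K d w, θ f ∈ S K (bar p d) w) ∧
    (∀ w, ∀ g ∈ S K (bar p d) w, ∃ f ∈ S K d w, θ f = g) ∧
    (∀ w, ∀ f ∈ S K d w, θ f = 0 ↔ ∀ μ, Small p μ → coeff μ f = 0) := by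
  have hbar : bar p d = d := by
    ext u
    rw [tha_bar]
    have := hd u
    omega
  refine ⟨LinearMap.id, fun _ _ _ _ => rfl, fun _ _ _ _ => rfl, ?_, ?_, ?_⟩
  · intro w f hf
    rw [hbar]
    exact hf
  · intro w g hg
    rw [hbar] at hg
    exact ⟨g, hg, rfl⟩
  · intro w f hf
    rw [LinearMap.id_apply]
    constructor
    · intro h μ _
      rw [h, coeff_zero]
    · intro h
      ext μ
      rw [coeff_zero]
      by_contra hne
      refine hne (h μ ?_)
      have h1 := ((mem_S_iff K).1 hf μ hne).1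
      rintro ⟨u, b⟩
      have h2 := h1 u
      have h3 := hd u
      cases b <;> omega

theorem theta_exists (d : V →₀ ℕ) (hd : ∀ v, d v ≤ 2 * p - 2) : ∃ θ : T V K →ₗ[K] T V K,
    (∀ w, ∀ f ∈ S K d w, ∀ k, θ (E K k f) = E K k (θ f)) ∧
    (∀ w, ∀ f ∈ S K d w, ∀ k, θ (F K k f) = F K k (θ f)) ∧
    (∀ w, ∀ f ∈ S K d w, θ f ∈ S K (bar p d) w) ∧
    (∀ w, ∀ g ∈ S K (bar p d) w, ∃ f ∈ S K d w, θ f = g) ∧
    (∀ w, ∀ f ∈ S K d w, θ f = 0 ↔ ∀ μ, Small p μ → coeff μ f = 0) := by
  classical
  obtain ⟨n, hn⟩ : ∃ n, (d.support.filter fun v => p ≤ d v).card = n := ⟨_, rfl⟩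
  have hp2 : 2 ≤ p := (Fact.out : p.Prime).two_le
  induction n generalizing d with
  | zero =>
    refine tha_base K p d fun v => ?_
    rw [Finset.card_eq_zero, Finset.filter_eq_empty_iff] at hn
    by_contra hlt
    have h1 : p ≤ d v := by omega
    exact hn (Finsupp.mem_support_iff.2 (by omega)) h1
  | succ n ih =>
    obtain ⟨v, hv⟩ : (d.support.filter fun v => p ≤ d v).Nonempty := by
      rw [← Finset.card_pos]
      omega
    have hvl : p ≤ d v := (Finset.mem_filter.1 hv).2
    have hvu := hd v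
    set d' : V →₀ ℕ := d.erase v with hd'
    have hd'v : d' v = 0 := Finsupp.erase_same
    have hdd : d = d' + Finsupp.single v (d v) := (Finsupp.erase_add_single v d).symm
    set d1 : V →₀ ℕ := d' + Finsupp.single v (2 * p - 2 - d v) with hd1
    have h1v : d1 v = 2 * p - 2 - d v := by
      rw [hd1, Finsupp.add_apply, hd'v, Finsupp.single_eq_same, zero_add]
    have h1u : ∀ u, u ≠ v → d1 u = d u := by
      intro u hu
      rw [hd1, Finsupp.add_apply, Finsupp.single_eq_of_ne hu, add_zero, hd',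
        Finsupp.erase_ne hu]
    have hbar : bar p d1 = bar p d := by
      ext u
      rw [tha_bar, tha_bar]
      by_cases hu : u = v
      · rw [hu, h1v]
        omega
      · rw [h1u u hu]
    have hle1 : ∀ u, d1 u ≤ 2 * p - 2 := by
      intro u
      by_cases hu : u = v
      · rw [hu, h1v]
        omega
      · rw [h1u u hu]
        exact hd u
    have hcard : (d1.support.filter fun u => p ≤ d1 u).card = n := by
      have e : (d1.support.filter fun u => p ≤ d1 u) =
          (d.support.filter fun u => p ≤ d u).erase v := by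
        ext u
        rw [Finset.mem_erase, Finset.mem_filter, Finset.mem_filter, Finsupp.mem_support_iff,
          Finsupp.mem_support_iff]
        by_cases hu : u = v
        · rw [hu, h1v]
          constructor
          · rintro ⟨_, h2⟩
            omega
          · rintro ⟨h2, _⟩
            exact absurd rfl h2
        · rw [h1u u hu]
          exact ⟨fun h2 => ⟨hu, h2⟩, fun h2 => h2.2⟩
      rw [e, Finset.card_erase_of_mem hv, hn]
      rfl
    obtain ⟨θ1, a1, a2, a3, a4, a5⟩ := ih d1 hle1 hcard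
    rw [hbar] at a3 a4
    have hD : p - 1 ≤ d v := by omega
    have key : ∀ w, ∀ f ∈ S K d w, f ∈ S K (d' + Finsupp.single v (d v)) w := by
      intro w f hf
      rw [← hdd]
      exact hf
    refine ⟨θ1 ∘ₗ thv K p v, ?_, ?_, ?_, ?_, ?_⟩
    · intro w f hf k
      rw [LinearMap.comp_apply, LinearMap.comp_apply, thv_E K p hd'v hD (key w f hf) k]
      exact a1 w _ (thv_mem K p hd'v hD hvu (key w f hf)) k
    · intro w f hf k
      rw [LinearMap.comp_apply, LinearMap.comp_apply, thv_F K p hd'v hD (key w f hf) k]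
      exact a2 w _ (thv_mem K p hd'v hD hvu (key w f hf)) k
    · intro w f hf
      exact a3 w _ (thv_mem K p hd'v hD hvu (key w f hf))
    · intro w g hg
      obtain ⟨f1, hf1, hf1g⟩ := a4 w g hg
      obtain ⟨f, hf, hff⟩ := thv_surj K p hd'v hD hvu hf1
      refine ⟨f, ?_, ?_⟩
      · rw [hdd]
        exact hf
      · rw [LinearMap.comp_apply, hff, hf1g]
    · intro w f hf
      rw [LinearMap.comp_apply, a5 w _ (thv_mem K p hd'v hD hvu (key w f hf))]
      exact (thv_small K p hd'v hD hvu (key w f hf)).symm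

end FSig
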