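import Pool.Agent.Lib.FSig.USplit
import Pool.Agent.Lib.FSig.OpsLam
import Pool.Agent.Lib.FSig.CDefs

/-!
# MP_05de8f_ag : the duality map `θ_v` at one vector (section 7 (D6)) (module ThetaOne)

`θ_v : T → T` linear: `monomial μ c ↦ monomial μ' (c (-1)^s s! t!)` with `s = μ(v,false)`, `t = μ(v,true)`, `μ' = μ` except `μ'(v,false) = p-1-t`, `μ'(v,true) = p-1-s`
(natural subtraction; for `s ≥ p` or `t ≥ p` the coefficient `s! t!` is `0` in `K`).

PROOFS.
* `thv_monomial`: definition (`exists_thv`: linear map defined on the basis of monomials, e.g. `MvPolynomial.basisMonomials.constr` or `Finsupp.lsum`).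
* `thv_free`: `g ∈ S d w`, `d v = 0`: `θ_v (a_v^s b_v^t g) = (-1)^s s! t! a_v^(p-1-t) b_v^(p-1-s) g` (monomials `S_induction`).
* `thv_E`: `θ_v (E^(k) f) = E^(k) (θ_v f)` for `f ∈ S (d + D e_v) w`, `d v = 0`, `p - 1 ≤ D`. By linearity `f = a_v^s b_v^t g`, `s + t = D ≥ p - 1`, `g` a monomial free of `v`
  (`g ∈ S d w'`; so is `E^(j) g`). `E^(k) (a_v^s b_v^t g) = ∑_i binom(t,i) a_v^(s+i) b_v^(t-i) E^(k-i) g` (`E_mul`; `E^(i)(a_v^s b_v^t) = binom(t,i) a_v^(s+i) b_v^(t-i)`).
  Apply `θ_v` termwise: the term `i ≤ t` gives `binom(t,i) (-1)^(s+i) (s+i)! (t-i)! a_v^(p-1-t+i) b_v^(p-1-s-i) E^(k-i) g` when `s + i ≤ p-1`, `t - i ≤ p-1` (otherwise its coefficient is `0`). On the other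
  side `(-1)^s s! t! ∑_i binom(p-1-s,i) a_v^(p-1-t+i) b_v^(p-1-s-i) E^(k-i) g`.
  Case `s ≥ p` or `t ≥ p`: the right side is `0`; left side: if `s ≥ p` then `(s+i)! = 0`; if `t ≥ p`: `binom(t,i) (t-i)! i! = t! = 0`, and either `i < p`, `i!` is a unit and the coefficient is `0`,
  or `i ≥ p` and `(s+i)! = 0`.
  Case `s, t ≤ p-1`: as `s + t ≥ p-1`, the indices `i ≤ p-1-s` of the right side satisfy `i ≤ t`. For `i ≤ p-1-s`: `(-1)^i binom(t,i) (s+i)! (t-i)! = s! t! binom(p-1-s,i)` in `K`: since
  `binom(t,i)(t-i)! i! = t!`, `(s+i)! = s! i! binom(s+i,i)`, it is `(-1)^i binom(s+i,i) = binom(p-1-s,i)` mod `p` (multiply by `i!`: `(-1)^i (s+1)⋯(s+i) = (p-1-s)(p-2-s)⋯(p-s-i)`).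
  For `p-1-s < i ≤ t`: `(s+i)! = 0`, the left term vanishes. The exponents: `p-1-(t-i) = p-1-t+i` (`t ≤ p-1`), `p-1-(s+i)`.
* `thv_F`: mirror image, or repeat: `F^(i)(a_v^s b_v^t) = binom(s,i) a_v^(s-i) b_v^(t+i)`; coefficient identity
  `(-1)^(s-i) binom(s,i) (s-i)! (t+i)! = (-1)^s s! t! binom(p-1-t,i)`, the same as before with `s, t` exchanged.
* `thv_mem`: `f ∈ S (d + D e_v) w`, `p - 1 ≤ D ≤ 2p-2` ⟹ `θ_v f ∈ S (d + (2p-2-D) e_v) w` (for `s, t ≤ p-1`: new degree `2p-2-(s+t)`, new weight part `(p-1-t)-(p-1-s) = s-t`).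
* `thv_surj`: `monomial ν` with `ν(v,false) = s'`, `ν(v,true) = t'`, `s' + t' = 2p-2-D ≤ p-1`, is the image of the monomial with `s = p-1-t'`, `t = p-1-s'` up to the unit `(-1)^s s! t!`.
* `thv_small`: `f ∈ S (d + D e_v) w`, `p ≤ D ≤ 2p-2`: `f` has a small monomial (`coeff μ f ≠ 0`, all `μ x ≤ p-1`) iff `θ_v f` has: `coeff ν (θ_v f) = unit · coeff μ f` for `μ` small at `v`,
  `ν = μ'`; the map `μ ↦ μ'` is injective on the monomials which are small at `v`, and `ν` is always small at `v`.
-/

namespace FSig

open MvPolynomial Finset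

variable {V : Type*} [DecidableEq V] (K : Type*) [Field K] (p : ℕ)

/-- the new exponent -/
noncomputable def flip (v : V) (μ : V × Bool →₀ ℕ) : V × Bool →₀ ℕ :=
  (μ.update (v, false) (p - 1 - μ (v, true))).update (v, true) (p - 1 - μ (v, false))

private lemma th1_flip_apply (v : V) (μ : V × Bool →₀ ℕ) (x : V × Bool) :
    flip p v μ x = if x.1 = v then p - 1 - μ (v, !x.2) else μ x := by
  unfold flip
  obtain ⟨u, b⟩ := x
  by_cases hu : u = v
  · subst hu
    cases b
    · rw [Finsupp.update_apply, if_neg (by simp), Finsupp.update_apply, if_pos rfl]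
      simp
    · rw [Finsupp.update_apply, if_pos rfl]
      simp
  · rw [Finsupp.update_apply, if_neg (by simp [hu]), Finsupp.update_apply,
      if_neg (by simp [hu])]
    simp [hu]

theorem exists_thv (v : V) : ∃ L : T V K →ₗ[K] T V K, ∀ (μ : V × Bool →₀ ℕ) (c : K), L (monomial μ c) =
    monomial (flip p v μ) ((-1) ^ μ (v, false) * ((μ (v, false)).factorial : K) * ((μ (v, true)).factorial : K) * c) := by
  refine ⟨(basisMonomials (V × Bool) K).constr K
    (fun μ => monomial (flip p v μ) ((-1) ^ μ (v, false) * ((μ (v, false)).factorial : K) *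
      ((μ (v, true)).factorial : K))), fun μ c => ?_⟩
  have h1 : (monomial μ c : T V K) = c • (basisMonomials (V × Bool) K) μ := by
    rw [coe_basisMonomials, smul_monomial, smul_eq_mul, mul_one]
  rw [h1, map_smul, Module.Basis.constr_basis, smul_monomial, smul_eq_mul]
  congr 1
  ring

/-- `θ_v` -/
noncomputable def thv (v : V) : T V K →ₗ[K] T V K := (exists_thv K p v).choose

lemma thv_monomial (v : V) (μ : V × Bool →₀ ℕ) (c : K) : thv K p v (monomial μ c) =
    monomial (flip p v μ) ((-1) ^ μ (v, false) * ((μ (v, false)).factorial : K) * ((μ (v, true)).factorial : K) * c) :=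
  (exists_thv K p v).choose_spec μ c

variable [Fact p.Prime] [CharP K p] {d : V →₀ ℕ} {v : V} (hv : d v = 0) {D : ℕ} {w : ℤ}

omit [DecidableEq V] in
private lemma th1_decomp [DecidableEq V] (v : V) (μ : V × Bool →₀ ℕ) :
    Finsupp.single (v, false) (μ (v, false)) + Finsupp.single (v, true) (μ (v, true)) +
      del v μ = μ := by
  ext ⟨u, b⟩
  rw [Finsupp.add_apply, Finsupp.add_apply, del, Finsupp.filter_apply]
  by_cases hu : u = v
  · subst hu
    cases b <;> simp
  · rw [if_pos hu, Finsupp.single_eq_of_ne (by intro h; exact hu (congrArg Prod.fst h)),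
      Finsupp.single_eq_of_ne (by intro h; exact hu (congrArg Prod.fst h)), zero_add, zero_add]

private lemma th1_wtm_add (μ ν : V × Bool →₀ ℕ) : wtm (μ + ν) = wtm μ + wtm ν := by
  unfold wtm
  rw [Finsupp.sum_add_index']
  · intro x
    simp
  · intro x m n
    split_ifs <;> push_cast <;> ring

omit [DecidableEq V] in
private lemma th1_wtm_single (x : V × Bool) (n : ℕ) :
    wtm (Finsupp.single x n) = if x.2 then -(n : ℤ) else (n : ℤ) := by
  unfold wtm
  rw [Finsupp.sum_single_index]
  simp

private lemma th1_wtm (v : V) (μ : V × Bool →₀ ℕ) :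
    wtm μ = (μ (v, false) : ℤ) - (μ (v, true) : ℤ) + wtm (del v μ) := by
  conv_lhs => rw [← th1_decomp v μ]
  rw [th1_wtm_add, th1_wtm_add, th1_wtm_single, th1_wtm_single]
  simp only [Bool.false_eq_true, if_false, if_true]
  ring

omit [DecidableEq V] in
private lemma th1_monomial (v : V) (i j : ℕ) (μ : V × Bool →₀ ℕ) (c : K) :
    va K v ^ i * vb K v ^ j * monomial μ c =
      monomial (Finsupp.single (v, false) i + Finsupp.single (v, true) j + μ) c := by
  unfold va vb
  rw [X_pow_eq_monomial, X_pow_eq_monomial, monomial_mul, monomial_mul, one_mul, one_mul]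

private lemma th1_wtm_flip (v : V) (μ : V × Bool →₀ ℕ) (h1 : μ (v, false) ≤ p - 1)
    (h2 : μ (v, true) ≤ p - 1) : wtm (flip p v μ) = wtm μ := by
  rw [th1_wtm v, th1_wtm v μ]
  have e : del v (flip p v μ) = del v μ := by
    ext ⟨u, b⟩
    rw [del, del, Finsupp.filter_apply, Finsupp.filter_apply]
    by_cases hu : u = v
    · rw [if_neg (by simp [hu]), if_neg (by simp [hu])]
    · rw [if_pos hu, if_pos hu, th1_flip_apply, if_neg hu]
  rw [e, th1_flip_apply, th1_flip_apply, if_pos rfl, if_pos rfl]
  simp only [Bool.not_false, Bool.not_true]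
  omega

private lemma th1_flip_flip (v : V) (μ : V × Bool →₀ ℕ) (h1 : μ (v, false) ≤ p - 1)
    (h2 : μ (v, true) ≤ p - 1) : flip p v (flip p v μ) = μ := by
  ext ⟨u, b⟩
  rw [th1_flip_apply]
  by_cases hu : u = v
  · subst hu
    rw [if_pos rfl, th1_flip_apply, if_pos rfl, Bool.not_not]
    cases b
    · show p - 1 - (p - 1 - μ (u, false)) = μ (u, false)
      omega
    · show p - 1 - (p - 1 - μ (u, true)) = μ (u, true)
      omega
  · rw [if_neg hu, th1_flip_apply, if_neg hu]

/-! scalars -/

omit [DecidableEq V] in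
private lemma th1_fac_zero {n : ℕ} (h : p ≤ n) : ((n.factorial : ℕ) : K) = 0 := by
  rw [CharP.cast_eq_zero_iff K p]
  exact (Nat.dvd_factorial (Fact.out : p.Prime).pos h)

omit [DecidableEq V] in
private lemma th1_fac_ne {n : ℕ} (h : n < p) : ((n.factorial : ℕ) : K) ≠ 0 := by
  rw [Ne, CharP.cast_eq_zero_iff K p, (Fact.out : p.Prime).dvd_factorial]
  omega

private lemma th1_desc (s i : ℕ) (h : s + i ≤ p - 1) :
    (-1 : K) ^ i * ((s + i).factorial : K) =
      (s.factorial : K) * ((p - 1 - s).descFactorial i : K) := by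
  have hp : 0 < p := (Fact.out : p.Prime).pos
  induction i with
  | zero => simp
  | succ i ih =>
    have ih' := ih (by omega)
    rw [Nat.descFactorial_succ, ← add_assoc, Nat.factorial_succ]
    have e : ((p - 1 - s - i : ℕ) : K) = -((s + i + 1 : ℕ) : K) := by
      have h1 : ((p - 1 - s - i + (s + i + 1) : ℕ) : K) = 0 := by
        have : p - 1 - s - i + (s + i + 1) = p := by omega
        rw [this, CharP.cast_eq_zero]
      rw [Nat.cast_add] at h1
      exact eq_neg_of_add_eq_zero_left h1
    rw [Nat.cast_mul, Nat.cast_mul, e]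
    calc (-1 : K) ^ (i + 1) * (((s + i + 1 : ℕ) : K) * ((s + i).factorial : K))
        = -((s + i + 1 : ℕ) : K) * ((-1 : K) ^ i * ((s + i).factorial : K)) := by ring
      _ = _ := by rw [ih']; ring

private lemma th1_coef (s t i : ℕ) (h : p - 1 ≤ s + t) :
    (t.choose i : K) * ((-1) ^ i * ((s + i).factorial : K) * ((t - i).factorial : K)) =
      (s.factorial : K) * (t.factorial : K) * ((p - 1 - s).choose i : K) := by
  have hp : 0 < p := (Fact.out : p.Prime).pos
  by_cases hs : p ≤ s
  · rw [th1_fac_zero K p hs, th1_fac_zero K p (le_trans hs (Nat.le_add_right s i))]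
    ring
  push Not at hs
  by_cases ht : p ≤ t
  · rw [th1_fac_zero K p ht]
    by_cases hi : i ≤ t
    · by_cases hi2 : p ≤ i
      · rw [th1_fac_zero K p (show p ≤ s + i by omega)]
        ring
      · push Not at hi2
        have h1 : ((t.choose i * i.factorial * (t - i).factorial : ℕ) : K) = 0 := by
          rw [Nat.choose_mul_factorial_mul_factorial hi, th1_fac_zero K p ht]
        have h2 := th1_fac_ne K p hi2
        have h3 : (i.factorial : K) * ((t.choose i : K) * ((t - i).factorial : K)) = 0 := by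
          rw [← h1]
          push_cast
          ring
        have h4 := (mul_eq_zero.1 h3).resolve_left h2
        calc (t.choose i : K) * ((-1) ^ i * ((s + i).factorial : K) * ((t - i).factorial : K))
            = (-1) ^ i * ((s + i).factorial : K) * ((t.choose i : K) * ((t - i).factorial : K)) := by
              ring
          _ = _ := by rw [h4]; ring
    · rw [Nat.choose_eq_zero_of_lt (by omega)]
      push_cast
      ring
  push Not at ht
  by_cases hi : i ≤ p - 1 - s
  · have hit : i ≤ t := by omega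
    have h2 := th1_fac_ne K p (show i < p by omega)
    apply mul_left_cancel₀ h2
    have h1 : (i.factorial : K) * ((t.choose i : K) * ((t - i).factorial : K)) = t.factorial := by
      rw [← Nat.choose_mul_factorial_mul_factorial hit]
      push_cast
      ring
    have h3 : (i.factorial : K) * ((p - 1 - s).choose i : K) = ((p - 1 - s).descFactorial i : K) := by
      rw [Nat.descFactorial_eq_factorial_mul_choose]
      push_cast
      ring
    have h4 := th1_desc K p s i (by omega)
    calc (i.factorial : K) * ((t.choose i : K) * ((-1) ^ i * ((s + i).factorial : K) *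
          ((t - i).factorial : K)))
        = ((i.factorial : K) * ((t.choose i : K) * ((t - i).factorial : K))) *
          ((-1) ^ i * ((s + i).factorial : K)) := by ring
      _ = (t.factorial : K) * ((s.factorial : K) * ((i.factorial : K) * ((p - 1 - s).choose i : K))) := by
          rw [h1, h4, h3]
      _ = _ := by ring
  · push Not at hi
    rw [th1_fac_zero K p (show p ≤ s + i by omega), Nat.choose_eq_zero_of_lt hi]
    push_cast
    ring

private lemma th1_coef_ne {s t i : ℕ}
    (h : (s.factorial : K) * (t.factorial : K) * ((p - 1 - s).choose i : K) ≠ 0) :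
    s ≤ p - 1 ∧ t ≤ p - 1 ∧ i ≤ p - 1 - s := by
  have hp : 0 < p := (Fact.out : p.Prime).pos
  refine ⟨?_, ?_, ?_⟩
  · by_contra hc
    apply h
    rw [th1_fac_zero K p (show p ≤ s by omega)]
    ring
  · by_contra hc
    apply h
    rw [th1_fac_zero K p (show p ≤ t by omega)]
    ring
  · by_contra hc
    apply h
    rw [Nat.choose_eq_zero_of_lt (by omega)]
    push_cast
    ring

/-! the operators on `a_v^s b_v^t` -/

omit [DecidableEq V] [Fact p.Prime] [CharP K p] in
private lemma th1_pow_coeff {A : Type*} [CommRing A] (x y : A) (t i : ℕ) :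
    ((Polynomial.C y + Polynomial.X * Polynomial.C x) ^ t).coeff i =
      (t.choose i : A) * (x ^ i * y ^ (t - i)) := by
  have h1 : (Polynomial.C y + Polynomial.X * Polynomial.C x) ^ t =
      ∑ m ∈ range (t + 1), Polynomial.C (y ^ m * x ^ (t - m) * (t.choose m : A)) *
        Polynomial.X ^ (t - m) := by
    rw [add_pow]
    refine Finset.sum_congr rfl fun m _ => ?_
    simp only [map_mul, map_pow, map_natCast, mul_pow]
    ring
  rw [h1, Polynomial.finsetSum_coeff]
  simp only [Polynomial.coeff_C_mul_X_pow]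
  by_cases hi : i ≤ t
  · rw [Finset.sum_eq_single (t - i)]
    · rw [if_pos (by omega), Nat.sub_sub_self hi, Nat.choose_symm hi]
      ring
    · intro m hm hne
      rw [Finset.mem_range] at hm
      rw [if_neg (by omega)]
    · intro hcon
      exact absurd (Finset.mem_range.2 (by omega)) hcon
  · rw [Nat.choose_eq_zero_of_lt (by omega), Nat.cast_zero, zero_mul]
    refine Finset.sum_eq_zero fun m hm => ?_
    rw [if_neg (by omega)]

omit [DecidableEq V] [Fact p.Prime] [CharP K p] in
private lemma th1_E_ab (v : V) (s t i : ℕ) :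
    E K i (va K v ^ s * vb K v ^ t) =
      C ((t.choose i : ℕ) : K) * (va K v ^ (s + i) * vb K v ^ (t - i)) := by
  rw [E_apply, map_mul, map_pow, map_pow, Et_va, Et_vb, ← Polynomial.C_pow,
    Polynomial.coeff_C_mul, th1_pow_coeff, map_natCast]
  ring

omit [DecidableEq V] [Fact p.Prime] [CharP K p] in
private lemma th1_F_ab (v : V) (s t i : ℕ) :
    F K i (va K v ^ s * vb K v ^ t) =
      C ((s.choose i : ℕ) : K) * (va K v ^ (s - i) * vb K v ^ (t + i)) := by
  rw [F_apply, map_mul, map_pow, map_pow, Ft_va, Ft_vb, ← Polynomial.C_pow,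
    Polynomial.coeff_mul_C, th1_pow_coeff, map_natCast]
  ring

include hv

omit [Fact p.Prime] [CharP K p] in
private lemma th1_free {g : T V K} (hg : g ∈ S K d w) (s t : ℕ) :
    thv K p v (va K v ^ s * vb K v ^ t * g) =
      C ((-1) ^ s * (s.factorial : K) * (t.factorial : K)) *
        (va K v ^ (p - 1 - t) * vb K v ^ (p - 1 - s) * g) := by
  refine S_induction K (fun g => thv K p v (va K v ^ s * vb K v ^ t * g) =
      C ((-1) ^ s * (s.factorial : K) * (t.factorial : K)) *
        (va K v ^ (p - 1 - t) * vb K v ^ (p - 1 - s) * g)) ?_ ?_ ?_ hg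
  · beta_reduce
    simp only [mul_zero, map_zero]
  · intro f g hf hg
    beta_reduce
    rw [mul_add, map_add, hf, hg, mul_add, mul_add]
  · intro μ c h1 h2
    beta_reduce
    have hz := h1 v
    rw [hv] at hz
    have hz1 : μ (v, false) = 0 := by omega
    have hz2 : μ (v, true) = 0 := by omega
    rw [th1_monomial, thv_monomial, th1_monomial, C_mul_monomial]
    have e1 : (Finsupp.single (v, false) s + Finsupp.single (v, true) t + μ) (v, false) = s := by
      simp [hz1]
    have e2 : (Finsupp.single (v, false) s + Finsupp.single (v, true) t + μ) (v, true) = t := by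
      simp [hz2]
    have e3 : flip p v (Finsupp.single (v, false) s + Finsupp.single (v, true) t + μ) =
        Finsupp.single (v, false) (p - 1 - t) + Finsupp.single (v, true) (p - 1 - s) + μ := by
      ext ⟨u, b⟩
      rw [th1_flip_apply]
      by_cases hu : u = v
      · subst hu
        rw [if_pos rfl]
        cases b
        · show p - 1 - _ = _
          rw [Bool.not_false, e2]
          simp [hz1]
        · show p - 1 - _ = _
          rw [Bool.not_true, e1]
          simp [hz2]
      · rw [if_neg hu]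
        have n1 : ((u, b) : V × Bool) ≠ (v, false) := fun h => hu (congrArg Prod.fst h)
        have n2 : ((u, b) : V × Bool) ≠ (v, true) := fun h => hu (congrArg Prod.fst h)
        rw [Finsupp.add_apply, Finsupp.add_apply, Finsupp.single_eq_of_ne n1,
          Finsupp.single_eq_of_ne n2, Finsupp.add_apply, Finsupp.add_apply,
          Finsupp.single_eq_of_ne n1, Finsupp.single_eq_of_ne n2]
    rw [e1, e2, e3]

omit [Fact p.Prime] [CharP K p] in
private lemma th1_v {μ : V × Bool →₀ ℕ}
    (h : ∀ u, μ (u, false) + μ (u, true) = (d + Finsupp.single v D) u) :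
    μ (v, false) + μ (v, true) = D := by
  have h1 := h v
  rw [Finsupp.add_apply, hv, Finsupp.single_eq_same, zero_add] at h1
  exact h1

omit [Fact p.Prime] [CharP K p] in
private lemma th1_del_mem {μ : V × Bool →₀ ℕ} (c : K)
    (h : ∀ u, μ (u, false) + μ (u, true) = (d + Finsupp.single v D) u) :
    monomial (del v μ) c ∈ S K d (wtm (del v μ)) := by
  refine monomial_mem_S K c (fun u => ?_) rfl
  rw [del, Finsupp.filter_apply, Finsupp.filter_apply]
  by_cases hu : u = v
  · subst hu
    rw [if_neg (by simp), if_neg (by simp), hv, add_zero]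
  · rw [if_pos hu, if_pos hu, h u, Finsupp.add_apply, Finsupp.single_eq_of_ne hu, add_zero]

theorem thv_E (hD : p - 1 ≤ D) {f : T V K} (hf : f ∈ S K (d + Finsupp.single v D) w) (k : ℕ) :
    thv K p v (E K k f) = E K k (thv K p v f) := by
  refine S_induction K (fun f => thv K p v (E K k f) = E K k (thv K p v f)) ?_ ?_ ?_ hf
  · beta_reduce
    simp only [map_zero]
  · intro f g hf hg
    beta_reduce
    rw [map_add, map_add, map_add, map_add, hf, hg]
  · intro μ c h1 h2
    beta_reduce
    have hst := th1_v hv h1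
    have hg := th1_del_mem K hv c h1
    set s := μ (v, false) with hs
    set t := μ (v, true) with ht
    set g : T V K := monomial (del v μ) c with hgd
    have hμ : (monomial μ c : T V K) = va K v ^ s * vb K v ^ t * g := by
      rw [hgd, th1_monomial, hs, ht, th1_decomp]
    rw [hμ, E_mul, map_sum, th1_free K p hv hg, C_mul', map_smul, E_mul, Finset.smul_sum]
    refine Finset.sum_congr rfl fun ij _ => ?_
    rw [th1_E_ab, th1_E_ab, mul_assoc (C _), C_mul', map_smul,
      th1_free K p hv (E_mem_S K hg ij.2), C_mul', smul_smul, mul_assoc (C _), C_mul', smul_smul]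
    have hk := th1_coef K p s t ij.1 (by omega)
    have hk2 : (t.choose ij.1 : K) * ((-1) ^ (s + ij.1) * ((s + ij.1).factorial : K) *
        ((t - ij.1).factorial : K)) = (-1) ^ s * (s.factorial : K) * (t.factorial : K) *
          ((p - 1 - s).choose ij.1 : K) := by
      calc (t.choose ij.1 : K) * ((-1) ^ (s + ij.1) * ((s + ij.1).factorial : K) *
          ((t - ij.1).factorial : K)) = (-1) ^ s * ((t.choose ij.1 : K) * ((-1) ^ ij.1 *
            ((s + ij.1).factorial : K) * ((t - ij.1).factorial : K))) := by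
            rw [pow_add]; ring
        _ = _ := by rw [hk]; ring
    rw [hk2]
    by_cases hz : (s.factorial : K) * (t.factorial : K) * ((p - 1 - s).choose ij.1 : K) = 0
    · have hz2 : (-1) ^ s * (s.factorial : K) * (t.factorial : K) *
          ((p - 1 - s).choose ij.1 : K) = 0 := by
        calc (-1) ^ s * (s.factorial : K) * (t.factorial : K) * ((p - 1 - s).choose ij.1 : K)
            = (-1) ^ s * ((s.factorial : K) * (t.factorial : K) *
              ((p - 1 - s).choose ij.1 : K)) := by ring
          _ = 0 := by rw [hz, mul_zero]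
      rw [hz2, zero_smul, zero_smul]
    · obtain ⟨b1, b2, b3⟩ := th1_coef_ne K p hz
      have e1 : p - 1 - (t - ij.1) = p - 1 - t + ij.1 := by omega
      have e2 : p - 1 - (s + ij.1) = p - 1 - s - ij.1 := by omega
      rw [e1, e2]

theorem thv_F (hD : p - 1 ≤ D) {f : T V K} (hf : f ∈ S K (d + Finsupp.single v D) w) (k : ℕ) :
    thv K p v (F K k f) = F K k (thv K p v f) := by
  refine S_induction K (fun f => thv K p v (F K k f) = F K k (thv K p v f)) ?_ ?_ ?_ hf
  · beta_reduce
    simp only [map_zero]
  · intro f g hf hg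
    beta_reduce
    rw [map_add, map_add, map_add, map_add, hf, hg]
  · intro μ c h1 h2
    beta_reduce
    have hst := th1_v hv h1
    have hg := th1_del_mem K hv c h1
    set s := μ (v, false) with hs
    set t := μ (v, true) with ht
    set g : T V K := monomial (del v μ) c with hgd
    have hμ : (monomial μ c : T V K) = va K v ^ s * vb K v ^ t * g := by
      rw [hgd, th1_monomial, hs, ht, th1_decomp]
    rw [hμ, F_mul, map_sum, th1_free K p hv hg, C_mul', map_smul, F_mul, Finset.smul_sum]
    refine Finset.sum_congr rfl fun ij _ => ?_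
    rw [th1_F_ab, th1_F_ab, mul_assoc (C _), C_mul', map_smul,
      th1_free K p hv (F_mem_S K hg ij.2), C_mul', smul_smul, mul_assoc (C _), C_mul', smul_smul]
    have hk := th1_coef K p t s ij.1 (by omega)
    have hk2 : (s.choose ij.1 : K) * ((-1) ^ (s - ij.1) * ((s - ij.1).factorial : K) *
        ((t + ij.1).factorial : K)) = (-1) ^ s * (s.factorial : K) * (t.factorial : K) *
          ((p - 1 - t).choose ij.1 : K) := by
      by_cases hi : ij.1 ≤ s
      · have e : (-1 : K) ^ (s - ij.1) = (-1) ^ s * (-1) ^ ij.1 := by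
          have h5 : (-1 : K) ^ s = (-1) ^ (s - ij.1) * (-1) ^ ij.1 := by
            rw [← pow_add, Nat.sub_add_cancel hi]
          rw [h5, mul_assoc, ← pow_add, ← two_mul, pow_mul]
          simp
        calc (s.choose ij.1 : K) * ((-1) ^ (s - ij.1) * ((s - ij.1).factorial : K) *
            ((t + ij.1).factorial : K)) = (-1) ^ s * ((s.choose ij.1 : K) * ((-1) ^ ij.1 *
              ((t + ij.1).factorial : K) * ((s - ij.1).factorial : K))) := by
              rw [e]; ring
          _ = _ := by rw [hk]; ring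
      · rw [Nat.choose_eq_zero_of_lt (by omega)] at hk ⊢
        rw [Nat.cast_zero, zero_mul] at hk ⊢
        calc (0 : K) = (-1) ^ s * ((t.factorial : K) * (s.factorial : K) *
              ((p - 1 - t).choose ij.1 : K)) := by rw [← hk, mul_zero]
          _ = _ := by ring
    rw [hk2]
    by_cases hz : (t.factorial : K) * (s.factorial : K) * ((p - 1 - t).choose ij.1 : K) = 0
    · have hz2 : (-1) ^ s * (s.factorial : K) * (t.factorial : K) *
          ((p - 1 - t).choose ij.1 : K) = 0 := by
        calc (-1) ^ s * (s.factorial : K) * (t.factorial : K) * ((p - 1 - t).choose ij.1 : K)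
            = (-1) ^ s * ((t.factorial : K) * (s.factorial : K) *
              ((p - 1 - t).choose ij.1 : K)) := by ring
          _ = 0 := by rw [hz, mul_zero]
      rw [hz2, zero_smul, zero_smul]
    · obtain ⟨b1, b2, b3⟩ := th1_coef_ne K p hz
      have e1 : p - 1 - (s - ij.1) = p - 1 - s + ij.1 := by omega
      have e2 : p - 1 - (t + ij.1) = p - 1 - t - ij.1 := by omega
      rw [e1, e2]

omit [Fact p.Prime] [CharP K p] in
private lemma th1_flip_deg {D' : ℕ} {μ : V × Bool →₀ ℕ} (hs : μ (v, false) ≤ p - 1)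
    (ht : μ (v, true) ≤ p - 1) (hD' : D ≤ 2 * p - 2) (he : D' = 2 * p - 2 - D)
    (h : ∀ u, μ (u, false) + μ (u, true) = (d + Finsupp.single v D) u) (u : V) :
    flip p v μ (u, false) + flip p v μ (u, true) = (d + Finsupp.single v D') u := by
  have h0 := th1_v hv h
  rw [th1_flip_apply, th1_flip_apply]
  by_cases hu : u = v
  · subst hu
    rw [if_pos rfl, if_pos rfl, Finsupp.add_apply, hv, Finsupp.single_eq_same]
    simp only [Bool.not_false, Bool.not_true]
    omega
  · rw [if_neg hu, if_neg hu, h u, Finsupp.add_apply, Finsupp.add_apply,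
      Finsupp.single_eq_of_ne hu, Finsupp.single_eq_of_ne hu]

theorem thv_mem (hD : p - 1 ≤ D) (hD' : D ≤ 2 * p - 2) {f : T V K}
    (hf : f ∈ S K (d + Finsupp.single v D) w) :
    thv K p v f ∈ S K (d + Finsupp.single v (2 * p - 2 - D)) w := by
  have hp : 0 < p := (Fact.out : p.Prime).pos
  refine S_induction K (fun f => thv K p v f ∈ S K (d + Finsupp.single v (2 * p - 2 - D)) w)
    ?_ ?_ ?_ hf
  · beta_reduce
    rw [map_zero]
    exact Submodule.zero_mem _
  · intro f g hf hg
    rw [map_add]
    exact Submodule.add_mem _ hf hg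
  · intro μ c h1 h2
    rw [thv_monomial]
    by_cases hs : μ (v, false) ≤ p - 1
    · by_cases ht : μ (v, true) ≤ p - 1
      · exact monomial_mem_S K _ (th1_flip_deg p hv hs ht hD' rfl h1)
          (by rw [th1_wtm_flip p v μ hs ht, h2])
      · rw [th1_fac_zero K p (show p ≤ μ (v, true) by omega), mul_zero, zero_mul, map_zero]
        exact Submodule.zero_mem _
    · rw [th1_fac_zero K p (show p ≤ μ (v, false) by omega), mul_zero, zero_mul, zero_mul,
        map_zero]
      exact Submodule.zero_mem _

theorem thv_surj (hD : p - 1 ≤ D) (hD' : D ≤ 2 * p - 2) {g : T V K}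
    (hg : g ∈ S K (d + Finsupp.single v (2 * p - 2 - D)) w) :
    ∃ f ∈ S K (d + Finsupp.single v D) w, thv K p v f = g := by
  have hp : 0 < p := (Fact.out : p.Prime).pos
  refine S_induction K (fun g => ∃ f ∈ S K (d + Finsupp.single v D) w, thv K p v f = g)
    ?_ ?_ ?_ hg
  · exact ⟨0, Submodule.zero_mem _, map_zero _⟩
  · rintro g1 g2 ⟨f1, hf1, e1⟩ ⟨f2, hf2, e2⟩
    exact ⟨f1 + f2, Submodule.add_mem _ hf1 hf2, by rw [map_add, e1, e2]⟩
  · intro ν c h1 h2
    have hst := th1_v hv h1
    have hs : ν (v, false) ≤ p - 1 := by omega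
    have ht : ν (v, true) ≤ p - 1 := by omega
    have a1 : flip p v ν (v, false) = p - 1 - ν (v, true) := by
      rw [th1_flip_apply, if_pos rfl]
      rfl
    have a2 : flip p v ν (v, true) = p - 1 - ν (v, false) := by
      rw [th1_flip_apply, if_pos rfl]
      rfl
    set u : K := (-1) ^ (flip p v ν (v, false)) * ((flip p v ν (v, false)).factorial : K) *
      ((flip p v ν (v, true)).factorial : K) with hu
    have hu0 : u ≠ 0 := by
      rw [hu]
      refine mul_ne_zero (mul_ne_zero (pow_ne_zero _ (neg_ne_zero.2 one_ne_zero)) ?_) ?_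
      · exact th1_fac_ne K p (by rw [a1]; omega)
      · exact th1_fac_ne K p (by rw [a2]; omega)
    refine ⟨monomial (flip p v ν) (u⁻¹ * c), monomial_mem_S K _ ?_ ?_, ?_⟩
    · exact th1_flip_deg p hv hs ht (by omega) (by omega) h1
    · rw [th1_wtm_flip p v ν hs ht, h2]
    · rw [thv_monomial, ← hu, th1_flip_flip p v ν hs ht, ← mul_assoc, mul_inv_cancel₀ hu0, one_mul]

omit hv in
private lemma th1_coeff (f : T V K) (ν : V × Bool →₀ ℕ) (hs : ν (v, false) ≤ p - 1)
    (ht : ν (v, true) ≤ p - 1) :
    coeff ν (thv K p v f) = (-1) ^ (flip p v ν (v, false)) *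
      ((flip p v ν (v, false)).factorial : K) * ((flip p v ν (v, true)).factorial : K) *
        coeff (flip p v ν) f := by
  induction f using MvPolynomial.induction_on' with
  | monomial μ c =>
    rw [thv_monomial, coeff_monomial, coeff_monomial]
    by_cases h : μ = flip p v ν
    · subst h
      rw [if_pos rfl, if_pos (th1_flip_flip p v ν hs ht)]
    · rw [if_neg h, mul_zero]
      split_ifs with h2
      · by_cases b1 : μ (v, false) ≤ p - 1
        · by_cases b2 : μ (v, true) ≤ p - 1
          · exact absurd (by rw [← h2, th1_flip_flip p v μ b1 b2]) h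
          · rw [th1_fac_zero K p (show p ≤ μ (v, true) by omega), mul_zero, zero_mul]
        · rw [th1_fac_zero K p (show p ≤ μ (v, false) by omega), mul_zero, zero_mul, zero_mul]
      · rfl
  | add f g hf hg =>
    rw [map_add, coeff_add, coeff_add, hf, hg, mul_add]

theorem thv_small (hD : p - 1 ≤ D) (hD' : D ≤ 2 * p - 2) {f : T V K}
    (hf : f ∈ S K (d + Finsupp.single v D) w) :
    (∀ μ, Small p μ → coeff μ f = 0) ↔ (∀ μ, Small p μ → coeff μ (thv K p v f) = 0) := by
  have hp : 0 < p := (Fact.out : p.Prime).pos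
  have hsm : ∀ μ : V × Bool →₀ ℕ, Small p μ → Small p (flip p v μ) := by
    intro μ hμ x
    rw [th1_flip_apply]
    split_ifs
    · omega
    · exact hμ x
  constructor
  · intro h ν hν
    rw [th1_coeff K p f ν (hν _) (hν _), h _ (hsm ν hν), mul_zero]
  · intro h μ hμ
    have h1 := h _ (hsm μ hμ)
    rw [th1_coeff K p f _ (hsm μ hμ _) (hsm μ hμ _), th1_flip_flip p v μ (hμ _) (hμ _)] at h1
    have a1 := hμ (v, false)
    have a2 := hμ (v, true)
    refine (mul_eq_zero.1 h1).resolve_left ?_
    refine mul_ne_zero (mul_ne_zero (pow_ne_zero _ (neg_ne_zero.2 one_ne_zero)) ?_) ?_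
    · exact th1_fac_ne K p (by omega)
    · exact th1_fac_ne K p (by omega)

end FSig
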