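import Pool.Agent.Lib.FSig.OpsLam

/-!
# MP_05de8f_ag : the trace `Phi`, elementary properties (module TrA)

`coeff ν (Phi f) = (coeff (p ν + (p-1)) f)^{1/p}` (`coeff_Phi`). PROOFS.
* `Phi_pow_mul`: `Phi (r^p u) = r Phi u`. By additivity in `u` and in `r` (`r ↦ r^p` is additive in characteristic `p`) take
  `r = monomial α c`, `u = monomial μ c'`: `r^p u = monomial (pα+μ) (c^p c')`; compare `coeff_Phi` of both sides: the coefficient at `ν` is nonzero only if
  `pα + μ = pν + (p-1)`, i.e. `μ = p(ν-α) + (p-1)` with `α ≤ ν` (since `p(ν - α)(x) + (p-1) = μ x ≥ 0` forces `ν x ≥ α x`).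
* `monomial_decomp`: `monomial μ c = (monomial ν (root c))^p * monomial β 1`, `ν = μ / p`, `β = μ % p` (entries `< p`). So additive statements about
  all `u ∈ T` only have to be checked on `r^p * monomial β 1` with `β x < p` (`T_induction`).
* (T4) `constantCoeff_Phi`: `coeff_Phi` at `ν = 0`.
* `Phi_mem_S`: `f ∈ S (p d + (2p-2)) (p w)` ⟹ `Phi f ∈ S d w`; and if `f ∈ S e z` and `e`, `z` are not of this form then `Phi f = 0`.
  (`#a, #b` of `pν + (p-1)`.)
-/

namespace FSig

open MvPolynomial Finset

variable {V : Type*} [Fintype V] {K : Type*} [Field K] (p : ℕ) [Fact p.Prime] [CharP K p] [PerfectRing K p]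

private lemma Phi_pow_mul_aux (α μ : V × Bool →₀ ℕ) (c c' : K) :
    Phi p ((monomial α c : T V K) ^ p * monomial μ c') = monomial α c * Phi p (monomial μ c') := by
  classical
  have hp : 0 < p := (Fact.out : p.Prime).pos
  ext ν
  rw [coeff_Phi, coeff_monomial_mul', coeff_Phi, monomial_pow, monomial_mul, coeff_monomial,
    coeff_monomial]
  by_cases hle : α ≤ ν
  · rw [if_pos hle]
    by_cases h : μ = p • (ν - α) + cst V (p - 1)
    · rw [if_pos h, if_pos, map_mul, root_pow']
      rw [h, ← add_assoc, ← smul_add, add_tsub_cancel_of_le hle]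
    · rw [if_neg h, if_neg, map_zero, mul_zero]
      intro h'
      apply h
      have h2 : p • α + μ = p • α + (p • (ν - α) + cst V (p - 1)) := by
        rw [h', ← add_assoc, ← smul_add, add_tsub_cancel_of_le hle]
      exact add_left_cancel h2
  · rw [if_neg hle, if_neg, map_zero]
    intro h'
    apply hle
    intro x
    have h2 := DFunLike.congr_fun h' x
    simp only [Finsupp.add_apply, Finsupp.smul_apply, smul_eq_mul, cst_apply] at h2
    by_contra h3
    push Not at h3
    have h4 : p * (ν x + 1) ≤ p * α x := Nat.mul_le_mul_left p h3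
    rw [mul_add, mul_one] at h4
    omega

lemma Phi_pow_mul (r u : T V K) : Phi p (r ^ p * u) = r * Phi p u := by
  have hu : ∀ (α : V × Bool →₀ ℕ) (c : K),
      Phi p ((monomial α c : T V K) ^ p * u) = monomial α c * Phi p u := by
    intro α c
    induction u using MvPolynomial.induction_on' with
    | monomial μ c' => exact Phi_pow_mul_aux p α μ c c'
    | add f g hf hg => rw [mul_add, map_add, hf, hg, map_add, mul_add]
  induction r using MvPolynomial.induction_on' with
  | monomial α c => exact hu α c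
  | add f g hf hg => rw [add_pow_char, add_mul, map_add, hf, hg, add_mul]

lemma Phi_C_mul (c : K) (u : T V K) : Phi p (C c * u) = C (root p c) * Phi p u := by
  have h : (C c : T V K) = C (root p c) ^ p := by rw [← C_pow, root_pow]
  rw [h, Phi_pow_mul]

lemma Phi_smul_prime (c : ℕ) (u : T V K) : Phi p (((c : K))⁻¹ • u) = ((c : K))⁻¹ • Phi p u := by
  rw [smul_eq_C_mul, smul_eq_C_mul, Phi_C_mul, map_inv₀, map_natCast]

/-- additive statements only have to be checked on `r^p * monomial β 1` with exponents `< p` -/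
lemma T_induction (P : T V K → Prop) (h0 : P 0) (hadd : ∀ f g, P f → P g → P (f + g))
    (hmon : ∀ (r : T V K) (β : V × Bool →₀ ℕ), (∀ x, β x < p) → P (r ^ p * monomial β 1)) (f : T V K) : P f := by
  have hp : 0 < p := (Fact.out : p.Prime).pos
  induction f using MvPolynomial.induction_on' with
  | monomial μ c =>
    have h : (monomial μ c : T V K) =
        (monomial (μ.mapRange (· / p) (Nat.zero_div p)) (root p c)) ^ p *
          monomial (μ.mapRange (· % p) (Nat.zero_mod p)) 1 := by
      have hμ : μ = p • μ.mapRange (· / p) (Nat.zero_div p) +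
          μ.mapRange (· % p) (Nat.zero_mod p) := by
        ext x
        exact (Nat.div_add_mod (μ x) p).symm
      rw [monomial_pow, monomial_mul, root_pow, mul_one, ← hμ]
    rw [h]
    exact hmon _ _ fun x => Nat.mod_lt _ hp
  | add f g hf hg => exact hadd f g hf hg

lemma Phi_monomial {β : V × Bool →₀ ℕ} (hβ : ∀ x, β x < p) :
    Phi p (monomial β (1 : K)) = if β = cst V (p - 1) then 1 else 0 := by
  classical
  have hp : 0 < p := (Fact.out : p.Prime).pos
  have key : ∀ ν : V × Bool →₀ ℕ, β = p • ν + cst V (p - 1) → ν = 0 ∧ β = cst V (p - 1) := by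
    intro ν h
    have h0 : ν = 0 := by
      ext x
      have h1 := DFunLike.congr_fun h x
      have h2 := hβ x
      simp only [Finsupp.add_apply, Finsupp.smul_apply, smul_eq_mul, cst_apply] at h1
      rw [Finsupp.coe_zero, Pi.zero_apply]
      by_contra h3
      have h4 : p * 1 ≤ p * ν x := Nat.mul_le_mul_left p (Nat.one_le_iff_ne_zero.2 h3)
      omega
    refine ⟨h0, ?_⟩
    rw [h, h0, smul_zero, zero_add]
  ext ν
  rw [coeff_Phi, coeff_monomial]
  by_cases hb : β = cst V (p - 1)
  · rw [if_pos hb, coeff_one]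
    by_cases hν : ν = 0
    · rw [if_pos hν.symm, if_pos, map_one]
      rw [hν, smul_zero, zero_add, hb]
    · rw [if_neg (Ne.symm hν), if_neg, map_zero]
      intro h
      exact hν (key ν h).1
  · rw [if_neg hb, if_neg, map_zero, coeff_zero]
    intro h
    exact hb (key ν h).2

/-- (T4) -/
lemma constantCoeff_Phi (f : T V K) : constantCoeff (Phi p f) = root p (coeff (cst V (p - 1)) f) := by
  rw [constantCoeff_eq, coeff_Phi, smul_zero, zero_add]

omit [Fact p.Prime] in
private lemma weight_cst (c : ℕ) :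
    (∀ v, (Finsupp.weight (gr (V := V)) (cst V c)).1 v = 2 * c) ∧
      (Finsupp.weight (gr (V := V)) (cst V c)).2 = 0 := by
  classical
  have h : Finsupp.weight (gr (V := V)) (cst V c) = ∑ x : V × Bool, c • gr x := by
    rw [Finsupp.weight_apply, Finsupp.sum_fintype _ _ (fun i => zero_smul ℕ (gr i))]
    rfl
  rw [h, Fintype.sum_prod_type]
  constructor
  · intro v
    simp only [Fintype.sum_bool, gr, Prod.fst_sum, Prod.fst_add, Prod.smul_fst, Finsupp.coe_finsetSum,
      Finset.sum_apply, Finsupp.add_apply, Finsupp.smul_apply, Finsupp.single_apply, smul_eq_mul]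
    rw [Finset.sum_eq_single v]
    · simp
      ring
    · intro b _ hb
      simp [hb]
    · intro hv
      exact absurd (Finset.mem_univ v) hv
  · simp only [Fintype.sum_bool, gr, Prod.snd_sum, Prod.snd_add, Prod.smul_snd]
    refine Finset.sum_eq_zero fun v _ => ?_
    simp

private lemma Phi_key {e : V →₀ ℕ} {z : ℤ} {f : T V K} (hf : f ∈ S K e z) {ν : V × Bool →₀ ℕ}
    (h : coeff ν (Phi p f) ≠ 0) :
    (∀ v, e v = p * (Finsupp.weight (gr (V := V)) ν).1 v + (2 * p - 2)) ∧
      z = p * (Finsupp.weight (gr (V := V)) ν).2 := by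
  have hp : 0 < p := (Fact.out : p.Prime).pos
  have h1 : coeff (p • ν + cst V (p - 1)) f ≠ 0 := by
    intro h0
    apply h
    rw [coeff_Phi, h0, map_zero]
  have h2 : Finsupp.weight (gr (V := V)) (p • ν + cst V (p - 1)) = (e, z) := hf h1
  rw [map_add, map_nsmul] at h2
  have h3 := congrArg Prod.fst h2
  have h4 := congrArg Prod.snd h2
  rw [Prod.fst_add, Prod.smul_fst] at h3
  rw [Prod.snd_add, Prod.smul_snd, (weight_cst (V := V) (p - 1)).2] at h4
  simp only [add_zero, nsmul_eq_mul] at h4
  refine ⟨fun v => ?_, h4.symm⟩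
  have h5 := DFunLike.congr_fun h3 v
  rw [Finsupp.add_apply, Finsupp.smul_apply, (weight_cst (V := V) (p - 1)).1 v, smul_eq_mul] at h5
  rw [← h5]
  omega

lemma Phi_mem_S {d e : V →₀ ℕ} {w z : ℤ} {f : T V K} (hf : f ∈ S K e z)
    (he : ∀ v, e v = p * d v + (2 * p - 2)) (hz : z = p * w) : Phi p f ∈ S K d w := by
  have hp : 0 < p := (Fact.out : p.Prime).pos
  intro ν hν
  obtain ⟨h1, h2⟩ := Phi_key p hf hν
  refine Prod.ext ?_ ?_
  · ext v
    have h3 := h1 v
    rw [he v] at h3
    exact (Nat.eq_of_mul_eq_mul_left hp (show p * d v = _ by omega)).symm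
  · rw [hz] at h2
    have hp' : (p : ℤ) ≠ 0 := by exact_mod_cast hp.ne'
    exact (mul_left_cancel₀ hp' h2).symm

/-- `Phi f = 0` if some degree is too small -/
lemma Phi_eq_zero_of_lt {e : V →₀ ℕ} {z : ℤ} {f : T V K} (hf : f ∈ S K e z) {v : V} (hv : e v < 2 * p - 2) :
    Phi p f = 0 := by
  ext ν
  rw [coeff_zero]
  by_contra h
  have h1 := (Phi_key p hf h).1 v
  omega

lemma Phi_eq_zero_of_ne {e : V →₀ ℕ} {z : ℤ} {f : T V K} (hf : f ∈ S K e z)
    (h : ¬ ∃ d : V →₀ ℕ, ∀ v, e v = p * d v + (2 * p - 2)) : Phi p f = 0 := by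
  ext ν
  rw [coeff_zero]
  by_contra hne
  exact h ⟨_, (Phi_key p hf hne).1⟩

end FSig
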