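import Pool.Agent.Lib.FSig.UEcf
import Pool.Agent.Lib.FSig.OpsWt

/-!
# MP_05de8f_ag : products of `a`'s and brackets, lifting (module UBs)

`UI d w = {f ∈ S d w : E^(k) f = 0 for all k ≥ 1}`. `bmon L M = ∏_{u ∈ L} a_u ∏_{(u,v) ∈ M} [u v]`, `mdeg L M` its multidegree, `BS d w` the span of the
`bmon L M` with `card L = w`, `mdeg L M = d`.
PROOFS. `BS ≤ UI`: `a_u`, `[u v]` are killed by all `E^(k)`, `k ≥ 1` (`E_mul`; the set of all `f` with `Et f = C f` is a subalgebra), degrees by induction on the multisets.
LIFT (`lift_BS`): `g ∈ BS d w'`, `d v = 0`, `Q ≤ w'`, `Q ≤ D`, `w' = w - D + 2Q`. Linear in `g` (`Submodule.span_induction`): `g = bmon L M`, `card L = w'`, `L = L1 + L2`,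
`card L1 = Q` (`Multiset.exists_le_card..`/`Multiset.powersetCard` or via a list `take`/`drop`):
`f' = a_v^(D-Q) ∏_{u ∈ L1} [u v] · bmon L2 M = bmon (L2 + (D-Q) • {v}) (M + L1.map (·, v))`: cards `w' - Q + D - Q = w`, degree `d + D e_v`. `[u v] = a_u b_v - b_u a_v` with `u ≠ v`
(as `d v = 0`), so the `b_v^Q`-part is `∏ a_u`: `cf v q` of `a_v^i ∏_{u∈L1}[u v] · y` (`y` free of `v`): induction on `L1`:
`cf v q (b_v z) = cf v (q-1) z` (`0` for `q = 0`), `cf v q (a_v z) = cf v q z`, `cf v q (y z) = y cf v q z` for `y` free of `v` (check on monomials).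
-/

namespace FSig

open MvPolynomial Finset

variable {V : Type*} [DecidableEq V] (K : Type*) [Field K]

/-- `U`-invariants of multidegree `d` and weight `w` -/
noncomputable def UI (d : V →₀ ℕ) (w : ℤ) : Submodule K (T V K) :=
  S K d w ⊓ ⨅ k : ℕ, LinearMap.ker (E K (k + 1))

lemma mem_UI {d : V →₀ ℕ} {w : ℤ} {f : T V K} :
    f ∈ UI K d w ↔ f ∈ S K d w ∧ ∀ k, 1 ≤ k → E K k f = 0 := by
  unfold UI
  rw [Submodule.mem_inf, Submodule.mem_iInf]
  refine and_congr_right fun _ => ⟨fun h k hk => ?_, fun h k => ?_⟩
  · have := h (k - 1)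
    rw [LinearMap.mem_ker, Nat.sub_add_cancel hk] at this
    exact this
  · rw [LinearMap.mem_ker]
    exact h (k + 1) (Nat.le_add_left 1 k)

/-- `∏_{u ∈ L} a_u ∏_{(u,v) ∈ M} [u v]` -/
noncomputable def bmon (L : Multiset V) (M : Multiset (V × V)) : T V K :=
  (L.map (va K)).prod * (M.map fun x => br K x.1 x.2).prod

/-- multidegree of `bmon L M` -/
noncomputable def mdeg (L : Multiset V) (M : Multiset (V × V)) : V →₀ ℕ :=
  Multiset.toFinsupp (L + M.map Prod.fst + M.map Prod.snd)

/-- span of the `bmon L M` with `card L = w`, `mdeg L M = d` -/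
noncomputable def BS (d : V →₀ ℕ) (w : ℕ) : Submodule K (T V K) :=
  Submodule.span K {x | ∃ (L : Multiset V) (M : Multiset (V × V)),
    Multiset.card L = w ∧ mdeg L M = d ∧ x = bmon K L M}

private lemma ubs_prodL (L : Multiset V) :
    (L.map (va K)).prod ∈ S K (Multiset.toFinsupp L) (Multiset.card L) := by
  induction L using Multiset.induction_on with
  | empty =>
    rw [Multiset.map_zero, Multiset.prod_zero, map_zero, Multiset.card_zero, Nat.cast_zero]
    exact one_mem_S K
  | cons u L ih =>
    rw [Multiset.map_cons, Multiset.prod_cons, Multiset.card_cons, ← Multiset.singleton_add,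
      map_add, Multiset.toFinsupp_singleton]
    have h := mul_mem_S K (va_mem_S K u) ih
    have e : ((Multiset.card L + 1 : ℕ) : ℤ) = 1 + (Multiset.card L : ℤ) := by push_cast; ring
    rw [e]
    exact h

private lemma ubs_prodM (M : Multiset (V × V)) :
    (M.map fun x => br K x.1 x.2).prod ∈
      S K (Multiset.toFinsupp (M.map Prod.fst + M.map Prod.snd)) 0 := by
  induction M using Multiset.induction_on with
  | empty =>
    simp only [Multiset.map_zero, Multiset.prod_zero, add_zero, map_zero]
    exact one_mem_S K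
  | cons x M ih =>
    simp only [Multiset.map_cons, Multiset.prod_cons]
    have h := mul_mem_S K (br_mem_S K x.1 x.2) ih
    have e : Multiset.toFinsupp ((x.1 ::ₘ M.map Prod.fst) + (x.2 ::ₘ M.map Prod.snd)) =
        (Finsupp.single x.1 1 + Finsupp.single x.2 1) +
          Multiset.toFinsupp (M.map Prod.fst + M.map Prod.snd) := by
      rw [← Multiset.singleton_add x.1, ← Multiset.singleton_add x.2, map_add, map_add, map_add,
        map_add, Multiset.toFinsupp_singleton, Multiset.toFinsupp_singleton]
      abel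
    rw [e]
    rw [add_zero] at h
    exact h

lemma bmon_mem_S (L : Multiset V) (M : Multiset (V × V)) :
    bmon K L M ∈ S K (mdeg L M) (Multiset.card L) := by
  unfold bmon mdeg
  have h := mul_mem_S K (ubs_prodL K L) (ubs_prodM K M)
  rw [add_zero, ← map_add, ← add_assoc] at h
  exact h

private lemma ubs_Et (L : Multiset V) (M : Multiset (V × V)) :
    Et K (bmon K L M) = Polynomial.C (bmon K L M) := by
  have h1 : Et K ((L.map (va K)).prod) = Polynomial.C ((L.map (va K)).prod) := by
    induction L using Multiset.induction_on with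
    | empty => rw [Multiset.map_zero, Multiset.prod_zero, map_one, map_one]
    | cons u L ih => rw [Multiset.map_cons, Multiset.prod_cons, map_mul, map_mul, ih, Et_va]
  have h2 : Et K ((M.map fun x => br K x.1 x.2).prod) =
      Polynomial.C ((M.map fun x => br K x.1 x.2).prod) := by
    induction M using Multiset.induction_on with
    | empty => rw [Multiset.map_zero, Multiset.prod_zero, map_one, map_one]
    | cons x M ih =>
      rw [Multiset.map_cons, Multiset.prod_cons, map_mul, map_mul, ih,
        (br_mem_Inv K x.1 x.2).1]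
  unfold bmon
  rw [map_mul, map_mul, h1, h2]

lemma bmon_mem_UI (L : Multiset V) (M : Multiset (V × V)) :
    bmon K L M ∈ UI K (mdeg L M) (Multiset.card L) := by
  rw [mem_UI]
  refine ⟨bmon_mem_S K L M, fun k hk => ?_⟩
  rw [E_apply, ubs_Et, Polynomial.coeff_C, if_neg (by omega)]

lemma BS_le_UI (d : V →₀ ℕ) (w : ℕ) : BS K d w ≤ UI K d w := by
  unfold BS
  rw [Submodule.span_le]
  rintro x ⟨L, M, h1, h2, rfl⟩
  rw [← h1, ← h2]
  exact bmon_mem_UI K L M

/-- the top coefficient of `a_v^i b_v^j ∏_{u ∈ L1} [u v] y` -/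
private lemma ubs_cf (v : V) (L1 : Multiset V) (hL : v ∉ L1) :
    ∀ (i j : ℕ) (d : V →₀ ℕ) (w : ℤ) (y : T V K), d v = 0 → y ∈ S K d w →
      (∀ q, j + Multiset.card L1 < q →
        cf K v q (va K v ^ i * vb K v ^ j * ((L1.map fun u => br K u v).prod * y)) = 0) ∧
      cf K v (j + Multiset.card L1)
        (va K v ^ i * vb K v ^ j * ((L1.map fun u => br K u v).prod * y)) =
        (L1.map (va K)).prod * y := by
  induction L1 using Multiset.induction_on with
  | empty =>
    intro i j d w y hd hy
    simp only [Multiset.map_zero, Multiset.prod_zero, one_mul, Multiset.card_zero, add_zero]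
    refine ⟨fun q hq => ?_, ?_⟩
    · rw [cf_of_free K hd hy, if_neg (by omega)]
    · rw [cf_of_free K hd hy, if_pos rfl]
  | cons u L1 ih =>
    intro i j d w y hd hy
    have hu : u ≠ v := fun h => hL (by rw [h]; exact Multiset.mem_cons_self _ _)
    have hL' : v ∉ L1 := fun h => hL (Multiset.mem_cons_of_mem h)
    have hd' : (Finsupp.single u 1 + d : V →₀ ℕ) v = 0 := by
      rw [Finsupp.add_apply, Finsupp.single_eq_of_ne hu.symm, hd]
    obtain ⟨h1, h2⟩ := ih hL' i (j + 1) _ _ (va K u * y) hd' (mul_mem_S K (va_mem_S K u) hy)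
    obtain ⟨h3, -⟩ := ih hL' (i + 1) j _ _ (vb K u * y) hd' (mul_mem_S K (vb_mem_S K u) hy)
    have e : va K v ^ i * vb K v ^ j * (((u ::ₘ L1).map fun u => br K u v).prod * y) =
        va K v ^ i * vb K v ^ (j + 1) * ((L1.map fun u => br K u v).prod * (va K u * y)) -
        va K v ^ (i + 1) * vb K v ^ j * ((L1.map fun u => br K u v).prod * (vb K u * y)) := by
      rw [Multiset.map_cons, Multiset.prod_cons]
      unfold br
      ring
    rw [e, Multiset.card_cons]
    refine ⟨fun q hq => ?_, ?_⟩
    · rw [map_sub, h1 q (by omega), h3 q (by omega), sub_zero]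
    · rw [map_sub, h3 _ (by omega), sub_zero, show j + (Multiset.card L1 + 1) =
        j + 1 + Multiset.card L1 by ring, h2, Multiset.map_cons, Multiset.prod_cons]
      ring

/-- LIFT -/
lemma lift_BS {d : V →₀ ℕ} {v : V} (hv : d v = 0) {D Q w' w : ℕ} (hQ : Q ≤ w') (hD : Q ≤ D)
    (hw : (w' : ℤ) = w - D + 2 * Q) {g : T V K} (hg : g ∈ BS K d w') :
    ∃ f ∈ BS K (d + Finsupp.single v D) w, (∀ q, Q < q → cf K v q f = 0) ∧ cf K v Q f = g := by
  unfold BS at hg
  induction hg using Submodule.span_induction with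
  | mem x hx =>
    obtain ⟨L, M, hL, hM, rfl⟩ := hx
    obtain ⟨L1, L2, hLL, hc1⟩ : ∃ L1 L2 : Multiset V, L1 + L2 = L ∧ Multiset.card L1 = Q := by
      refine ⟨(L.toList.take Q : Multiset V), (L.toList.drop Q : Multiset V), ?_, ?_⟩
      · rw [Multiset.coe_add, List.take_append_drop, Multiset.coe_toList]
      · rw [Multiset.coe_card, List.length_take, Multiset.length_toList, hL]
        exact min_eq_left hQ
    subst hLL
    have hvL : v ∉ L1 + L2 := by
      intro h
      have h1 : Multiset.count v (L1 + L2 + M.map Prod.fst + M.map Prod.snd) = 0 := by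
        rw [← Multiset.toFinsupp_apply]
        exact (congrArg (fun d => d v) hM).trans hv
      rw [Multiset.count_eq_zero] at h1
      exact h1 (Multiset.mem_add.2 (Or.inl (Multiset.mem_add.2 (Or.inl h))))
    have hvL1 : v ∉ L1 := fun h => hvL (Multiset.mem_add.2 (Or.inl h))
    have hd2 : (mdeg L2 M) v = 0 := by
      have h1 : (mdeg (L1 + L2) M) v = 0 := by rw [hM]; exact hv
      unfold mdeg at h1 ⊢
      rw [Multiset.toFinsupp_apply, Multiset.count_add, Multiset.count_add, Multiset.count_add] at h1
      rw [Multiset.toFinsupp_apply, Multiset.count_add, Multiset.count_add]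
      omega
    have hcL : Multiset.card L1 + Multiset.card L2 = w' := by
      rw [← Multiset.card_add]
      exact hL
    obtain ⟨h1, h2⟩ := ubs_cf K v L1 hvL1 (D - Q) 0 _ _ (bmon K L2 M) hd2 (bmon_mem_S K L2 M)
    have hf : bmon K (L2 + Multiset.replicate (D - Q) v) (M + L1.map fun u => (u, v)) =
        va K v ^ (D - Q) * vb K v ^ 0 * ((L1.map fun u => br K u v).prod * bmon K L2 M) := by
      unfold bmon
      rw [Multiset.map_add, Multiset.map_add, Multiset.prod_add, Multiset.prod_add,
        Multiset.map_replicate, Multiset.prod_replicate, Multiset.map_map]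
      have e : ((fun x : V × V => br K x.1 x.2) ∘ fun u => (u, v)) = fun u => br K u v := rfl
      rw [e]
      ring
    refine ⟨bmon K (L2 + Multiset.replicate (D - Q) v) (M + L1.map fun u => (u, v)), ?_, ?_, ?_⟩
    · refine Submodule.subset_span ⟨_, _, ?_, ?_, rfl⟩
      · rw [Multiset.card_add, Multiset.card_replicate]
        omega
      · rw [← hM]
        unfold mdeg
        rw [Multiset.map_add, Multiset.map_add, Multiset.map_map, Multiset.map_map]
        have e1 : L1.map (Prod.fst ∘ fun u => (u, v)) = L1 := by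
          have : (Prod.fst ∘ fun u => (u, v)) = (id : V → V) := rfl
          rw [this, Multiset.map_id]
        have e2 : L1.map (Prod.snd ∘ fun u => (u, v)) = Multiset.replicate Q v := by
          have : (Prod.snd ∘ fun u => (u, v)) = (fun _ : V => v) := rfl
          rw [this, Multiset.map_const', hc1]
        have e3 : Finsupp.single v D = Multiset.toFinsupp (Multiset.replicate D v) := by
          rw [← Multiset.nsmul_singleton, map_nsmul, Multiset.toFinsupp_singleton,
            Finsupp.smul_single, smul_eq_mul, mul_one]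
        rw [e1, e2, e3, ← map_add]
        congr 1
        have e4 : Multiset.replicate D v = Multiset.replicate (D - Q) v +
            Multiset.replicate Q v := by
          rw [← Multiset.replicate_add, Nat.sub_add_cancel hD]
        rw [e4]
        abel
    · intro q hq
      rw [hf]
      exact h1 q (by omega)
    · rw [hf]
      rw [hc1, zero_add] at h2
      rw [h2]
      unfold bmon
      rw [Multiset.map_add, Multiset.prod_add]
      ring
  | zero =>
    exact ⟨0, Submodule.zero_mem _, fun q _ => map_zero _, map_zero _⟩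
  | add x y _ _ hx hy =>
    obtain ⟨f1, h1, h2, h3⟩ := hx
    obtain ⟨f2, h4, h5, h6⟩ := hy
    refine ⟨f1 + f2, Submodule.add_mem _ h1 h4, fun q hq => ?_, ?_⟩
    · rw [map_add, h2 q hq, h5 q hq, add_zero]
    · rw [map_add, h3, h6]
  | smul c x _ hx =>
    obtain ⟨f1, h1, h2, h3⟩ := hx
    refine ⟨c • f1, Submodule.smul_mem _ c h1, fun q hq => ?_, ?_⟩
    · rw [map_smul, h2 q hq, smul_zero]
    · rw [map_smul, h3]

end FSig
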