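import Pool.Agent.Lib.FSig.UBs

/-!
# MP_05de8f_ag : `U`-invariants are spanned by products of `a`'s and brackets (U1), every characteristic (module UInv)

`UI d w = {f ∈ S d w : E^(k) f = 0 for all k ≥ 1}`. `bmon L M = ∏_{u ∈ L} a_u ∏_{(u,v) ∈ M} [u v]`, `mdeg L M` its multidegree, `BS d w` the span of the
`bmon L M` with `card L = w`, `mdeg L M = d`.

THEOREM `UI_eq_BS`: `UI d w = BS d w` for `w : ℕ`, and `UI d w = ⊥` for `w < 0` (that is `wt_nonneg`).

PROOF. `BS ≤ UI` : `a_u`, `[u v]` are killed by all `E^(k)`, `k ≥ 1` (`E_mul`; the set of all `f` with `Et f = C f` is a subalgebra), `bmon_mem_S`.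
`UI ≤ BS` by induction on `card (support d)` (or `Finsupp.induction`: `d = d' + single v D`, `d' v = 0`, `D ≠ 0`). `d = 0`: `S 0 w` is `K` for `w = 0` and `0`
otherwise. Step `d = d' + D e_v`: claim by induction on `Q` (strong): every `f ∈ UI d w` with `cf v q f = 0` for `q > Q` lies in `BS d w`. Let `g = cf v Q f`,
`w' = w - D + 2Q`, `g ∈ S d' w'`. By `E_cf` (`i = Q`) `E^(m) g = ± binom · cf v (m+Q) f = 0` for `m ≥ 1`: `g ∈ UI d' w'`. If `g = 0` go to `Q - 1` (or, if `Q = 0`, `f = 0` by
`cf_ext`). If `g ≠ 0`: `w' ≥ 0` (`wt_nonneg`) and `Q ≤ w'`: apply `wt_bound` to `x = cf v 0 f ∈ S d' (w - D)`: `E^(q) x = (-1)^q cf v q f` (`E_cf`, `i = 0`), which is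
nonzero for `q = Q` and zero for `q > Q`: `0 ≤ (w - D) + Q`, i.e. `Q ≤ w - D + 2Q = w'`. By the induction hypothesis `g ∈ BS d' w'`, so by LIFT (below) there is
`f' ∈ BS d w` with `cf v q f' = 0` for `q > Q` and `cf v Q f' = g`. Then `f - f' ∈ UI d w` has `cf v q (f-f') = 0` for `q ≥ Q` and is in `BS d w` by induction (`Q = 0`: `f = f'`).
-/

namespace FSig

open MvPolynomial Finset

variable {V : Type*} [DecidableEq V] (K : Type*) [Field K]

variable (p : ℕ) [Fact p.Prime] [CharP K p]

include p in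
/-- the top coefficient of a `U`-invariant -/
lemma top_coeff {d : V →₀ ℕ} {v : V} (hv : d v = 0) {D : ℕ} {w : ℤ} {f : T V K}
    (hf : f ∈ UI K (d + Finsupp.single v D) w) {Q : ℕ} (hQ : ∀ q, Q < q → cf K v q f = 0) :
    cf K v Q f ∈ UI K d (w - D + 2 * Q) ∧ (cf K v Q f ≠ 0 → (Q : ℤ) ≤ w - D + 2 * Q) := by
  rw [mem_UI] at hf
  obtain ⟨hfS, hfE⟩ := hf
  constructor
  · rw [mem_UI]
    refine ⟨cf_mem K hv hfS Q, fun k hk => ?_⟩
    rw [E_cf K hv hfS hfE k Q, hQ (k + Q) (by omega), smul_zero]
  · intro hne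
    have hx : cf K v 0 f ∈ S K d (w - D + 2 * ((0 : ℕ) : ℤ)) := cf_mem K hv hfS 0
    have hE : ∀ q, E K q (cf K v 0 f) = ((-1 : ℤ) ^ q) • cf K v q f := by
      intro q
      rw [E_cf K hv hfS hfE q 0]
      simp
    have h1 : E K Q (cf K v 0 f) ≠ 0 := by
      rw [hE Q]
      rcases Int.units_eq_one_or ((-1 : ℤˣ) ^ Q) with h | h
      · have h' : ((-1 : ℤ) ^ Q) = 1 := by
          have := congrArg (fun u : ℤˣ => (u : ℤ)) h
          simpa using this
        rw [h', one_smul]
        exact hne
      · have h' : ((-1 : ℤ) ^ Q) = -1 := by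
          have := congrArg (fun u : ℤˣ => (u : ℤ)) h
          simpa using this
        rw [h', neg_smul, one_smul, neg_ne_zero]
        exact hne
    have h2 : ∀ q, Q < q → E K q (cf K v 0 f) = 0 := by
      intro q hq
      rw [hE q, hQ q hq, smul_zero]
    have h3 : 0 ≤ (w - D + 2 * ((0 : ℕ) : ℤ)) + Q := by
      first
        | exact wt_bound K p hx h1 h2
        | exact wt_bound K hx h1 h2
    push_cast at h3
    omega

private lemma zero_case (w : ℕ) {f : T V K} (hf : f ∈ S K (0 : V →₀ ℕ) (w : ℤ)) :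
    f ∈ BS K (0 : V →₀ ℕ) w := by
  refine S_induction K (fun f => f ∈ BS K (0 : V →₀ ℕ) w) (Submodule.zero_mem _)
    (fun f g hf hg => Submodule.add_mem _ hf hg) ?_ hf
  intro μ c h1 h2
  have hμ : μ = 0 := by
    ext x
    obtain ⟨v, b⟩ := x
    have := h1 v
    simp only [Finsupp.coe_zero, Pi.zero_apply, Nat.add_eq_zero_iff] at this
    cases b
    · simpa using this.1
    · simpa using this.2
  subst hμ
  have hw : w = 0 := by
    have : wtm (0 : V × Bool →₀ ℕ) = 0 := by simp [wtm]
    rw [this] at h2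
    exact_mod_cast h2.symm
  subst hw
  have h3 : (monomial (0 : V × Bool →₀ ℕ) c : T V K) = c • bmon K (0 : Multiset V) 0 := by
    simp [bmon, MvPolynomial.smul_eq_C_mul]
  rw [h3]
  refine Submodule.smul_mem _ _ (Submodule.subset_span ⟨0, 0, by simp, ?_, rfl⟩)
  simp [mdeg]

include p in
/-- (U1) -/
theorem UI_eq_BS (d : V →₀ ℕ) (w : ℕ) : UI K d w = BS K d w := by
  refine le_antisymm ?_ (BS_le_UI K d w)
  induction d using Finsupp.induction₂ generalizing w with
  | zero =>
    intro f hf
    exact zero_case K w ((mem_UI K).1 hf).1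
  | add_single v D d hvd hD ih =>
    have hv : d v = 0 := by simpa using hvd
    have claim : ∀ (n : ℕ) (f : T V K), f ∈ UI K (d + Finsupp.single v D) (w : ℤ) →
        (∀ q, n ≤ q → cf K v q f = 0) → f ∈ BS K (d + Finsupp.single v D) w := by
      intro n
      induction n with
      | zero =>
        intro f hf hq
        have hfS := ((mem_UI K).1 hf).1
        have : f = 0 := by
          refine cf_ext K hv hfS (Submodule.zero_mem _) (fun q _ => ?_)
          rw [hq q (Nat.zero_le _), map_zero]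
        rw [this]
        exact Submodule.zero_mem _
      | succ Q ihQ =>
        intro f hf hq
        have hq' : ∀ q, Q < q → cf K v q f = 0 := fun q h => hq q h
        by_cases hg : cf K v Q f = 0
        · refine ihQ f hf (fun q h => ?_)
          rcases Nat.eq_or_lt_of_le h with h | h
          · rw [← h]
            exact hg
          · exact hq' q h
        · obtain ⟨h1, h2⟩ := top_coeff K p hv hf hq'
          have h3 := h2 hg
          have hfS := ((mem_UI K).1 hf).1
          have hQD : Q ≤ D := by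
            by_contra h
            exact hg (cf_eq_zero K hv hfS (not_le.mp h))
          obtain ⟨w', hw'⟩ : ∃ w' : ℕ, (w' : ℤ) = (w : ℤ) - D + 2 * Q :=
            ⟨((w : ℤ) - D + 2 * Q).toNat, Int.toNat_of_nonneg (by omega)⟩
          rw [← hw'] at h1 h3
          have h4 : cf K v Q f ∈ BS K d w' := ih w' h1
          obtain ⟨f', hf', h5, h6⟩ := lift_BS K hv (by exact_mod_cast h3) hQD hw' h4
          have h7 : f - f' ∈ BS K (d + Finsupp.single v D) w := by
            refine ihQ (f - f') (Submodule.sub_mem _ hf (BS_le_UI K _ w hf')) (fun q h => ?_)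
            rw [map_sub]
            rcases Nat.eq_or_lt_of_le h with h | h
            · rw [← h, h6, sub_self]
            · rw [h5 q h, hq' q h, sub_zero]
          have h8 := Submodule.add_mem _ h7 hf'
          rwa [sub_add_cancel] at h8
    intro f hf
    exact claim (D + 1) f hf (fun q h => cf_eq_zero K hv ((mem_UI K).1 hf).1 h)

include p in
theorem UI_neg (d : V →₀ ℕ) {w : ℤ} (hw : w < 0) : UI K d w = ⊥ := by
  rw [eq_bot_iff]
  intro f hf
  rw [mem_UI] at hf
  rw [Submodule.mem_bot]
  by_contra h0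
  have h3 : 0 ≤ w := by
    first
      | exact wt_nonneg K p hf.1 h0 hf.2
      | exact wt_nonneg K hf.1 h0 hf.2
  omega

end FSig
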