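import Pool.Agent.Lib.FSig.OpsGr

/-!
# MP_05de8f_ag : expansion with respect to one vector (module USplit)

`cf v q f` = the part of `f` in which `b_v` has exponent `q`, with the variables `a_v`, `b_v` deleted (linear map: `monomial μ c ↦ monomial (μ with the two entries
at v set to 0) c` if `μ (v,true) = q`, else `0`). For `f ∈ S (d + D e_v) w`, `d v = 0`:  `f = ∑_{q ≤ D} a_v^(D-q) b_v^q (cf v q f)`, `cf v q f ∈ S d (w - D + 2q)`.

PROOFS.
* `cf`: define it with `MvPolynomial.basisMonomials`/`AddMonoidAlgebra` or as a sum over the support; `cf_monomial` is the defining property.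
* `cf_mem`, `cf_expand`: by linearity (`S_induction`) only for `f = monomial μ c`, where `μ(v,false) = D - μ(v,true)`.
* `cf_mul_of_free`: `cf v q (a_v^i b_v^j g) = if j = q then g else 0` for `g ∈ S d w`, `d v = 0` (monomials).
* `cf_ext`: `f, g ∈ S (d + D e_v) w` with `cf v q f = cf v q g` for all `q ≤ D` are equal (`cf_expand`).
-/

namespace FSig

open MvPolynomial Finset

variable {V : Type*} [DecidableEq V] (K : Type*) [CommRing K]

/-- delete the two entries at `v` -/
noncomputable def del (v : V) (μ : V × Bool →₀ ℕ) : V × Bool →₀ ℕ := μ.filter fun x => x.1 ≠ v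

theorem exists_cf (v : V) (q : ℕ) : ∃ L : T V K →ₗ[K] T V K, ∀ μ c, L (monomial μ c) =
    if μ (v, true) = q then monomial (del v μ) c else 0 := by
  refine ⟨(basisMonomials (V × Bool) K).constr K
    (fun μ => if μ (v, true) = q then monomial (del v μ) 1 else 0), fun μ c => ?_⟩
  have h1 : (monomial μ c : T V K) = c • (basisMonomials (V × Bool) K) μ := by
    rw [coe_basisMonomials, smul_monomial, smul_eq_mul, mul_one]
  rw [h1, map_smul, Module.Basis.constr_basis]
  split_ifs
  · rw [smul_monomial, smul_eq_mul, mul_one]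
  · rw [smul_zero]

/-- coefficient of `b_v^q`, with `a_v` set to `1` -/
noncomputable def cf (v : V) (q : ℕ) : T V K →ₗ[K] T V K := (exists_cf K v q).choose

lemma cf_monomial (v : V) (q : ℕ) (μ : V × Bool →₀ ℕ) (c : K) : cf K v q (monomial μ c) =
    if μ (v, true) = q then monomial (del v μ) c else 0 := (exists_cf K v q).choose_spec μ c

variable {d : V →₀ ℕ} {v : V} (hv : d v = 0) {D : ℕ} {w : ℤ}

private lemma usplit_del_apply (v : V) (μ : V × Bool →₀ ℕ) (x : V × Bool) :
    del v μ x = if x.1 ≠ v then μ x else 0 := by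
  unfold del
  rw [Finsupp.filter_apply]

private lemma usplit_decomp (v : V) (μ : V × Bool →₀ ℕ) :
    Finsupp.single (v, false) (μ (v, false)) + Finsupp.single (v, true) (μ (v, true)) +
      del v μ = μ := by
  ext ⟨u, b⟩
  rw [Finsupp.add_apply, Finsupp.add_apply, usplit_del_apply]
  by_cases hu : u = v
  · subst hu
    cases b <;> simp
  · rw [if_pos hu, Finsupp.single_eq_of_ne (by intro h; exact hu (congrArg Prod.fst h)),
      Finsupp.single_eq_of_ne (by intro h; exact hu (congrArg Prod.fst h)), zero_add, zero_add]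

private lemma usplit_wtm_add (μ ν : V × Bool →₀ ℕ) : wtm (μ + ν) = wtm μ + wtm ν := by
  unfold wtm
  rw [Finsupp.sum_add_index']
  · intro x
    simp
  · intro x m n
    split_ifs <;> push_cast <;> ring

private lemma usplit_wtm_single (x : V × Bool) (n : ℕ) :
    wtm (Finsupp.single x n) = if x.2 then -(n : ℤ) else (n : ℤ) := by
  unfold wtm
  rw [Finsupp.sum_single_index]
  simp

private lemma usplit_wtm (v : V) (μ : V × Bool →₀ ℕ) :
    wtm μ = (μ (v, false) : ℤ) - (μ (v, true) : ℤ) + wtm (del v μ) := by
  conv_lhs => rw [← usplit_decomp v μ]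
  rw [usplit_wtm_add, usplit_wtm_add, usplit_wtm_single, usplit_wtm_single]
  simp only [Bool.false_eq_true, if_false, if_true]
  ring

private lemma usplit_monomial (v : V) (i j : ℕ) (μ : V × Bool →₀ ℕ) (c : K) :
    va K v ^ i * vb K v ^ j * monomial μ c =
      monomial (Finsupp.single (v, false) i + Finsupp.single (v, true) j + μ) c := by
  unfold va vb
  rw [X_pow_eq_monomial, X_pow_eq_monomial, monomial_mul, monomial_mul, one_mul, one_mul]

private lemma usplit_del_free {d : V →₀ ℕ} {v : V} (hv : d v = 0) {μ : V × Bool →₀ ℕ}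
    (h : ∀ u, μ (u, false) + μ (u, true) = d u) (i j : ℕ) :
    del v (Finsupp.single (v, false) i + Finsupp.single (v, true) j + μ) = μ := by
  ext ⟨u, b⟩
  rw [usplit_del_apply]
  by_cases hu : u = v
  · subst hu
    have h1 := h u
    rw [hv] at h1
    rw [if_neg (by simp)]
    cases b <;> omega
  · rw [if_pos hu, Finsupp.add_apply, Finsupp.add_apply,
      Finsupp.single_eq_of_ne (by intro h; exact hu (congrArg Prod.fst h)),
      Finsupp.single_eq_of_ne (by intro h; exact hu (congrArg Prod.fst h)), zero_add, zero_add]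

include hv

private lemma usplit_v {μ : V × Bool →₀ ℕ}
    (h : ∀ u, μ (u, false) + μ (u, true) = (d + Finsupp.single v D) u) :
    μ (v, false) + μ (v, true) = D := by
  have h1 := h v
  rw [Finsupp.add_apply, hv, Finsupp.single_eq_same, zero_add] at h1
  exact h1

lemma cf_mem {f : T V K} (hf : f ∈ S K (d + Finsupp.single v D) w) (q : ℕ) :
    cf K v q f ∈ S K d (w - D + 2 * q) := by
  refine S_induction K (fun f => cf K v q f ∈ S K d (w - D + 2 * q)) ?_ ?_ ?_ hf
  · beta_reduce
    rw [map_zero]
    exact Submodule.zero_mem _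
  · intro f g hf hg
    rw [map_add]
    exact Submodule.add_mem _ hf hg
  · intro μ c h1 h2
    rw [cf_monomial]
    split_ifs with h3
    · have h4 := usplit_v hv h1
      refine monomial_mem_S K c (fun u => ?_) ?_
      · rw [usplit_del_apply, usplit_del_apply]
        by_cases hu : u = v
        · subst hu
          simp [hv]
        · rw [if_pos hu, if_pos hu, h1 u, Finsupp.add_apply, Finsupp.single_eq_of_ne hu, add_zero]
      · have h5 := usplit_wtm v μ
        rw [h2, h3] at h5
        have h6 : (μ (v, false) : ℤ) = D - q := by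
          rw [h3] at h4
          omega
        rw [h6] at h5
        linarith
    · exact Submodule.zero_mem _

lemma cf_eq_zero {f : T V K} (hf : f ∈ S K (d + Finsupp.single v D) w) {q : ℕ} (hq : D < q) :
    cf K v q f = 0 := by
  refine S_induction K (fun f => cf K v q f = 0) ?_ ?_ ?_ hf
  · exact map_zero _
  · intro f g hf hg
    rw [map_add, hf, hg, add_zero]
  · intro μ c h1 h2
    have h4 := usplit_v hv h1
    rw [cf_monomial, if_neg (by omega)]

lemma cf_expand {f : T V K} (hf : f ∈ S K (d + Finsupp.single v D) w) :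
    f = ∑ q ∈ range (D + 1), va K v ^ (D - q) * vb K v ^ q * cf K v q f := by
  refine S_induction K
    (fun f => f = ∑ q ∈ range (D + 1), va K v ^ (D - q) * vb K v ^ q * cf K v q f) ?_ ?_ ?_ hf
  · simp
  · intro f g hf hg
    simp only [map_add, mul_add, Finset.sum_add_distrib]
    rw [← hf, ← hg]
  · intro μ c h1 h2
    have h4 := usplit_v hv h1
    rw [Finset.sum_eq_single (μ (v, true))]
    · rw [cf_monomial, if_pos rfl, usplit_monomial]
      have h5 : D - μ (v, true) = μ (v, false) := by omega
      rw [h5, usplit_decomp]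
    · intro q _ hq
      rw [cf_monomial, if_neg (fun h => hq h.symm), mul_zero]
    · intro h
      exact absurd (Finset.mem_range.2 (by omega)) h

lemma cf_of_free {g : T V K} (hg : g ∈ S K d w) (i j q : ℕ) :
    cf K v q (va K v ^ i * vb K v ^ j * g) = if j = q then g else 0 := by
  refine S_induction K
    (fun g => cf K v q (va K v ^ i * vb K v ^ j * g) = if j = q then g else 0) ?_ ?_ ?_ hg
  · simp
  · intro f g hf hg
    rw [mul_add, map_add, hf, hg]
    split_ifs
    · rfl
    · rw [add_zero]
  · intro μ c h1 h2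
    have h3 : (Finsupp.single (v, false) i + Finsupp.single (v, true) j + μ) (v, true) = j := by
      have h4 := h1 v
      rw [hv] at h4
      rw [Finsupp.add_apply, Finsupp.add_apply, Finsupp.single_eq_same,
        Finsupp.single_eq_of_ne (by simp)]
      omega
    rw [usplit_monomial, cf_monomial, h3, usplit_del_free hv h1]

lemma free_mem {g : T V K} (hg : g ∈ S K d w) {q : ℕ} (hq : q ≤ D) :
    va K v ^ (D - q) * vb K v ^ q * g ∈ S K (d + Finsupp.single v D) (w + D - 2 * q) := by
  have h1 := mul_mem_S K (mul_mem_S K (pow_mem_S K (va_mem_S K v) (D - q))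
    (pow_mem_S K (vb_mem_S K v) q)) hg
  have h2 : (D - q) • Finsupp.single v 1 + q • Finsupp.single v 1 + d =
      d + Finsupp.single v D := by
    rw [← add_smul, Nat.sub_add_cancel hq, Finsupp.smul_single, smul_eq_mul, mul_one, add_comm]
  have h3 : ((D - q : ℕ) : ℤ) * 1 + (q : ℤ) * (-1) + w = w + D - 2 * q := by
    rw [Nat.cast_sub hq]
    ring
  rw [h2, h3] at h1
  exact h1

lemma cf_ext {f g : T V K} (hf : f ∈ S K (d + Finsupp.single v D) w)
    (hg : g ∈ S K (d + Finsupp.single v D) w) (h : ∀ q ≤ D, cf K v q f = cf K v q g) : f = g := by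
  rw [cf_expand K hv hf, cf_expand K hv hg]
  refine Finset.sum_congr rfl fun q hq => ?_
  rw [h q (Nat.lt_succ_iff.1 (Finset.mem_range.1 hq))]

end FSig
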