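import Pool.Agent.Lib.FSig.RkA
import Pool.Agent.Lib.FSig.RkB
import Pool.Agent.Lib.FSig.ChartK
import Pool.Agent.Lib.FSig.HilB

/-!
# Module UnA: the uniform estimate for one step

`d = card ι ≥ 1` (`Z` is nonempty), `N = 2 M + d`, `c = s ^ N`, `P = (ι → Fin p)`, `card P = p ^ d`, `J = M p^e + 1 ≤ (M + 1) p ^ e`.
The ranks are bounded: `hasRk_le` and `spanMod_frob`. `exists_kappa` gives `κ`, `y`.
* `rk_mul_le` with `D = 2 (N p) (M p^(e+1) + 1)^(d-1)` (`spanMod_s` with `k = N p`, `c ^ p = s ^ (N p)`):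
  `rk (p^(e+1)) ≤ p^d rk (p^e) + 2 N p ((M+1) p^(e+1))^(d-1)`; divide by `p^(d(e+1))`.
* `mul_rk_le` with `D = 2 N (M p^e + 1)^(d-1)`: `p^d rk (p^e) ≤ rk (p^(e+1)) + p^d 2 N ((M+1) p^e)^(d-1)`; divide.
Both errors are `≤ 2 N (M+1)^(d-1) / p^e`.
-/

namespace Pool.FSig

private theorem num_step (p q M N a b n : ℕ) (hp : 1 ≤ p) (hq : 1 ≤ q)
    (h1 : a ≤ p ^ (n + 1) * b + 2 * (N * p) * (M * (q * p) + 1) ^ n)
    (h2 : p ^ (n + 1) * b ≤ a + p ^ (n + 1) * (2 * N * (M * q + 1) ^ n)) :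
    |(a : ℝ) / ((q : ℝ) * p) ^ (n + 1) - (b : ℝ) / (q : ℝ) ^ (n + 1)| ≤
      (2 * N * (M + 1) ^ n : ℝ) / (q : ℝ) := by
  have hp0 : (0 : ℝ) < p := by exact_mod_cast hp
  have hq0 : (0 : ℝ) < q := by exact_mod_cast hq
  have hqp1 : 1 ≤ q * p := Nat.mul_pos hq hp
  have e1 : ((M * (q * p) + 1 : ℕ) : ℝ) ^ n ≤ (((M : ℝ) + 1) * ((q : ℝ) * p)) ^ n := by
    apply pow_le_pow_left₀ (by positivity)
    have : ((1 : ℕ) : ℝ) ≤ ((q * p : ℕ) : ℝ) := by exact_mod_cast hqp1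
    push_cast at this ⊢
    nlinarith
  have e2 : ((M * q + 1 : ℕ) : ℝ) ^ n ≤ (((M : ℝ) + 1) * (q : ℝ)) ^ n := by
    apply pow_le_pow_left₀ (by positivity)
    have : ((1 : ℕ) : ℝ) ≤ ((q : ℕ) : ℝ) := by exact_mod_cast hq
    push_cast at this ⊢
    nlinarith
  have h1' : (a : ℝ) ≤ (p : ℝ) ^ (n + 1) * b + 2 * (N * p) * (((M : ℝ) + 1) * ((q : ℝ) * p)) ^ n := by
    have h : (a : ℝ) ≤ ((p ^ (n + 1) * b + 2 * (N * p) * (M * (q * p) + 1) ^ n : ℕ) : ℝ) := by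
      exact_mod_cast h1
    refine h.trans ?_
    rw [Nat.cast_add, Nat.cast_mul, Nat.cast_mul, Nat.cast_pow, Nat.cast_pow]
    have h3 : ((2 * (N * p) : ℕ) : ℝ) = 2 * ((N : ℝ) * p) := by push_cast; ring
    rw [h3]
    have h4 : (0 : ℝ) ≤ 2 * ((N : ℝ) * p) := by positivity
    have := mul_le_mul_of_nonneg_left e1 h4
    linarith
  have h2' : (p : ℝ) ^ (n + 1) * b ≤ a + (p : ℝ) ^ (n + 1) * (2 * N * (((M : ℝ) + 1) * q) ^ n) := by
    have h : ((p ^ (n + 1) * b : ℕ) : ℝ) ≤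
        ((a + p ^ (n + 1) * (2 * N * (M * q + 1) ^ n) : ℕ) : ℝ) := by
      exact_mod_cast h2
    rw [Nat.cast_add, Nat.cast_mul, Nat.cast_mul, Nat.cast_mul, Nat.cast_pow, Nat.cast_pow] at h
    have h3 : ((2 * N : ℕ) : ℝ) = 2 * (N : ℝ) := by push_cast; ring
    rw [h3] at h
    refine h.trans ?_
    have h4 : (0 : ℝ) ≤ (p : ℝ) ^ (n + 1) * (2 * N) := by positivity
    have := mul_le_mul_of_nonneg_left e2 h4
    nlinarith
  have hqn : (0 : ℝ) < (q : ℝ) ^ (n + 1) := by positivity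
  have hpn : (0 : ℝ) < (p : ℝ) ^ (n + 1) := by positivity
  rw [abs_le]
  constructor
  · -- lower bound
    have hb : (b : ℝ) / (q : ℝ) ^ (n + 1) =
        ((p : ℝ) ^ (n + 1) * b) / ((q : ℝ) * p) ^ (n + 1) := by
      rw [mul_pow]; field_simp
    have hc : (2 * N * ((M : ℝ) + 1) ^ n : ℝ) / (q : ℝ) =
        ((p : ℝ) ^ (n + 1) * (2 * N * (((M : ℝ) + 1) * q) ^ n)) / ((q : ℝ) * p) ^ (n + 1) := by
      rw [mul_pow, mul_pow, pow_succ (q : ℝ) n]; field_simp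
    rw [hb, hc, neg_le_sub_iff_le_add, ← add_div]
    apply div_le_div_of_nonneg_right _ (by positivity)
    linarith
  · have hb : (b : ℝ) / (q : ℝ) ^ (n + 1) =
        ((p : ℝ) ^ (n + 1) * b) / ((q : ℝ) * p) ^ (n + 1) := by
      rw [mul_pow]; field_simp
    have hc : (2 * N * ((M : ℝ) + 1) ^ n : ℝ) / (q : ℝ) =
        (2 * (N * p) * (((M : ℝ) + 1) * ((q : ℝ) * p)) ^ n) / ((q : ℝ) * p) ^ (n + 1) := by
      rw [mul_pow, pow_succ ((q : ℝ) * p) n]; field_simp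
    rw [hb, hc, sub_le_iff_le_add, ← add_div]
    apply div_le_div_of_nonneg_right _ (by positivity)
    linarith

theorem rk_bdd {K R ι : Type*} [Field K] [CommRing R] [Algebra K R] [Fintype ι]
    [DecidableEq ι] (p : ℕ) [Fact p.Prime] [CharP K p] (hK : ∀ c : K, ∃ c' : K, c' ^ p = c) {M : ℕ}
    {j : R →ₐ[K] MvPolynomial ι K} {x : Fin M → R} {s : R} {Z : Finset ι} (h : IsChart j x s Z)
    (ε : R →ₐ[K] K) (hε : ∀ i, ε (x i) = 0) (e a : ℕ) (ha : HasRk (ε : R →+* K) (p ^ e) a) :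
    a ≤ (M * p ^ e + 1) ^ Fintype.card ι :=
  hasRk_le p hK ε e _ (spanMod_frob h ε hε (p ^ e)
    (Nat.pos_of_ne_zero (pow_ne_zero _ (Fact.out : p.Prime).ne_zero))) a ha

theorem unif_step {K R ι : Type*} [Field K] [CommRing R] [Algebra K R] [Fintype ι]
    [DecidableEq ι] (p : ℕ) [Fact p.Prime] [CharP K p] (hK : ∀ c : K, ∃ c' : K, c' ^ p = c) {M : ℕ}
    {j : R →ₐ[K] MvPolynomial ι K} {x : Fin M → R} {s : R} {Z : Finset ι} (h : IsChart j x s Z)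
    (ε : R →ₐ[K] K) (hε : ∀ i, ε (x i) = 0) (e : ℕ) :
    |(rk (ε : R →+* K) (p ^ (e + 1)) : ℝ) / ((p : ℝ) ^ (e + 1)) ^ Fintype.card ι -
      (rk (ε : R →+* K) (p ^ e) : ℝ) / ((p : ℝ) ^ e) ^ Fintype.card ι| ≤
      (2 * (2 * M + Fintype.card ι) * (M + 1) ^ (Fintype.card ι - 1) : ℕ) / (p : ℝ) ^ e := by
  classical
  have hpp : p.Prime := Fact.out
  have hp1 : 1 ≤ p := hpp.one_lt.le
  have hq1 : 1 ≤ p ^ e := Nat.pos_of_ne_zero (pow_ne_zero _ hpp.ne_zero)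
  have hQ1 : 1 ≤ p ^ (e + 1) := Nat.pos_of_ne_zero (pow_ne_zero _ hpp.ne_zero)
  have hd : 1 ≤ Fintype.card ι := by
    obtain ⟨z, _⟩ := h.Z_ne
    exact Fintype.card_pos_iff.2 ⟨z⟩
  obtain ⟨n, hn⟩ : ∃ n, Fintype.card ι = n + 1 := ⟨Fintype.card ι - 1, by omega⟩
  obtain ⟨κ, y, hκ, hky, hsum⟩ := exists_kappa p hK h
  have hcard : Fintype.card (ι → Fin p) = p ^ Fintype.card ι := by
    rw [Fintype.card_fun, Fintype.card_fin]
  have hcp : (s ^ (2 * M + Fintype.card ι)) ^ p = s ^ ((2 * M + Fintype.card ι) * p) := by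
    rw [← pow_mul]
  have H1 := rk_mul_le (P := ι → Fin p) p hK ε e
    (2 * ((2 * M + Fintype.card ι) * p) * (M * p ^ (e + 1) + 1) ^ (Fintype.card ι - 1))
    ((M * p ^ e + 1) ^ Fintype.card ι) ((M * p ^ (e + 1) + 1) ^ Fintype.card ι)
    y (s ^ (2 * M + Fintype.card ι)) (fun u => ⟨fun α => κ α u, hsum u⟩)
    (by rw [hcp]; exact spanMod_s h ε hε ((2 * M + Fintype.card ι) * p) (p ^ (e + 1)) hQ1)
    (fun a ha => rk_bdd p hK h ε hε e a ha) (fun a ha => rk_bdd p hK h ε hε (e + 1) a ha)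
  have H2 := mul_rk_le (P := ι → Fin p) p hK ε e
    (2 * (2 * M + Fintype.card ι) * (M * p ^ e + 1) ^ (Fintype.card ι - 1))
    ((M * p ^ e + 1) ^ Fintype.card ι) ((M * p ^ (e + 1) + 1) ^ Fintype.card ι)
    y (s ^ (2 * M + Fintype.card ι)) κ hκ (fun r α β => by rw [hky r α β])
    (spanMod_s h ε hε (2 * M + Fintype.card ι) (p ^ e) hq1)
    (fun a ha => rk_bdd p hK h ε hε e a ha) (fun a ha => rk_bdd p hK h ε hε (e + 1) a ha)
  rw [hcard] at H1 H2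
  rw [hn] at H1 H2 ⊢
  rw [Nat.add_sub_cancel] at H1 H2 ⊢
  rw [pow_succ p e] at H1 H2
  have H := num_step p (p ^ e) M (2 * M + (n + 1)) (rk (ε : R →+* K) (p ^ e * p))
    (rk (ε : R →+* K) (p ^ e)) n hp1 hq1 H1 H2
  rw [Nat.cast_pow p e] at H
  rw [pow_succ (p : ℝ) e, pow_succ p e]
  refine H.trans (le_of_eq ?_)
  push_cast
  ring

end Pool.FSig
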