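import Pool.Agent.Lib.FSig.Upper
import Pool.Agent.Lib.FSig.ThetaDim
import Pool.Agent.Lib.FSig.InvLam

/-!
# MP_05de8f_ag : local upper bounds (module UpLoc)

For `d` balanced, `d v ≤ 2p-2`: a subspace `J` of `T` such that every `p^{-1}`-linear `φ : Rp → Rp` has `constantCoeff (φ g) = 0` for `g ∈ Rp ⊓ S d 0 ⊓ J`, and
`finrank (image of RS d in T/J) ≤ ub p d` (`RS d = S d 0 ⊓ Rp = IS d`, `RS_eq_IS`).

PROOF. Three cases of `ub`.
(1) some `d v ≥ p` and no `d v ≤ p-2`, i.e. all `d v ≥ p-1`: `e v = 2p-2-d v ≤ p-1`, `e = bar p d` (`min (d v) (2p-2-d v) = 2p-2-d v`). `Lam : S d 0 → T`; every `f ∈ RS d = IS d` is `Lam u`, `u ∈ S d 0` (`exists_Lam`, for the `v` with `p ≤ d v`). Choose a linear section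
`σ : RS d →ₗ S d 0`, `Lam (σ f) = f` (`LinearMap.exists_rightInverse_of_surjective` for `Lam` restricted to `{u ∈ S d 0 : Lam u ∈ RS d} → RS d`). `B : RS d →ₗ Dual (IS e)`, `B f h = coeff (cst (p-1)) (h σ f)`.
`J :=` image of `ker B` in `T`. If `g ∈ ker B` and `φ` is `p^{-1}`-linear then `constantCoeff (φ g) = constantCoeff (φ (Lam (σ g))) = root (B g h) = 0` for the `h ∈ IS e` of `upper_pair`. The image of `RS d` in `T/J` is `RS d / ker B`,
of dimension `finrank (range B) ≤ finrank (Dual (IS e)) = finrank (IS e) = invN e` (`finrank_Inv`, `finite_S`).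
(2) some `d v ≥ p` and some `d w ≤ p-2`: `J = NS p`, `upper_mixed`; `finrank ((RS d).map mkQ) = finrank (RS d) - finrank (RS d ⊓ J)` (rank-nullity for `mkQ` restricted to `RS d`) `= lamN (bar p d)`
(`finrank_small` with `J = m+n-1`: `|d| ≤ (m+n)(2p-2) < 2p(m+n)`, `m+n < p`) `= invN (bar p d) - fus p (bar p d)` (`invN_eq_lamN_add_fus`, entries of `bar p d` are `≤ p-1`).
(3) no `d v ≥ p`: `J = ⊥`, `finrank (RS d) = invN d`.
-/

namespace FSig

open MvPolynomial Finset

variable {m n : ℕ} {K : Type*} [Field K] (p : ℕ) [Fact p.Prime] [CharP K p] [PerfectRing K p]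

private lemma upl_finite {V : Type*} (K : Type*) [Field K] {d : V →₀ ℕ} {W : Submodule K (T V K)}
    (h : W ≤ S K d 0) : Module.Finite K W := by
  have := finite_S K d 0
  exact Submodule.finiteDimensional_of_le h

private lemma upl_quot {K M : Type*} [Field K] [AddCommGroup M] [Module K M] (W J : Submodule K M)
    [Module.Finite K W] : Module.finrank K (W.map J.mkQ) +
      Module.finrank K (W ⊓ J : Submodule K M) = Module.finrank K W := by
  let φ : W →ₗ[K] M ⧸ J := J.mkQ.domRestrict W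
  have h1 := LinearMap.finrank_range_add_finrank_ker φ
  have h2 : LinearMap.range φ = W.map J.mkQ := LinearMap.range_domRestrict W J.mkQ
  have h3 : (LinearMap.ker φ).map W.subtype = W ⊓ J := by
    ext x
    rw [Submodule.mem_map, Submodule.mem_inf]
    constructor
    · rintro ⟨⟨y, hy⟩, hy0, rfl⟩
      rw [LinearMap.mem_ker] at hy0
      have hy1 : J.mkQ y = 0 := hy0
      rw [Submodule.mkQ_apply, Submodule.Quotient.mk_eq_zero] at hy1
      exact ⟨hy, hy1⟩
    · rintro ⟨h4, h5⟩
      refine ⟨⟨x, h4⟩, ?_, rfl⟩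
      rw [LinearMap.mem_ker]
      show J.mkQ x = 0
      rw [Submodule.mkQ_apply, Submodule.Quotient.mk_eq_zero]
      exact h5
  rw [← h1, h2, ← h3, Submodule.finrank_map_subtype_eq]

private lemma upl_bar (p : ℕ) (d : Vx m n →₀ ℕ) (v : Vx m n) :
    bar p d v = min (d v) (2 * p - 2 - d v) := by
  rw [bar, Finsupp.mapRange_apply]

private lemma upl_deg {p : ℕ} {d : Vx m n →₀ ℕ} (hd2 : ∀ v, d v ≤ 2 * p - 2) :
    d.degree ≤ (m + n) * (2 * p - 2) := by
  rw [Finsupp.degree_eq_sum]
  refine (Finset.sum_le_card_nsmul _ _ _ fun v _ => hd2 v).trans ?_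
  rw [Finset.card_univ, smul_eq_mul]
  simp [Fintype.card_sum, Fintype.card_fin]

omit [PerfectRing K p] in
private lemma upl_section {d : Vx m n →₀ ℕ} {v : Vx m n} (hv : p ≤ d v) :
    ∃ σ : IS K d →ₗ[K] T (Vx m n) K, ∀ f : IS K d, σ f ∈ S K d 0 ∧ Lam K p (σ f) = f := by
  classical
  let b := Module.Basis.ofVectorSpace K (IS K d)
  have h : ∀ i, ∃ u ∈ S K d 0, Lam K p u = ((b i : IS K d) : T (Vx m n) K) :=
    fun i => exists_Lam K p hv (b i).2
  choose s hs1 hs2 using h
  refine ⟨b.constr K s, fun f => ⟨?_, ?_⟩⟩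
  · rw [b.constr_apply]
    exact Submodule.sum_mem _ fun i _ => Submodule.smul_mem _ _ (hs1 i)
  · have h1 : (Lam K p).comp (b.constr K s) = (IS K d).subtype := by
      refine b.ext fun i => ?_
      rw [LinearMap.comp_apply, b.constr_basis, hs2]
      rfl
    exact LinearMap.congr_fun h1 f

private noncomputable def uplB {e d : Vx m n →₀ ℕ} (σ : IS K d →ₗ[K] T (Vx m n) K) :
    IS K d →ₗ[K] IS K e →ₗ[K] K :=
  LinearMap.mk₂ K (fun f h => coeff (cst (Vx m n) (p - 1)) ((h : T (Vx m n) K) * σ f))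
    (fun f f' h => by rw [map_add, mul_add, coeff_add])
    (fun c f h => by rw [map_smul, mul_smul_comm, coeff_smul])
    (fun f h h' => by rw [Submodule.coe_add, add_mul, coeff_add])
    (fun c f h => by rw [Submodule.coe_smul, smul_mul_assoc, coeff_smul])

private theorem upl_big (hm : 3 ≤ m) (hn : 3 ≤ n) (hN : m + n < p) {d : Vx m n →₀ ℕ}
    (hd : Bal d) (hd2 : ∀ v, d v ≤ 2 * p - 2) {v : Vx m n} (hv : p ≤ d v)
    (hall : ∀ w, p - 1 ≤ d w) : ∃ J : Submodule K (T (Vx m n) K),
      (∀ (φ : Rp m n K →+ Rp m n K), PLin p φ → ∀ g : Rp m n K, (g : T (Vx m n) K) ∈ S K d 0 →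
        (g : T (Vx m n) K) ∈ J → constantCoeff (φ g : T (Vx m n) K) = 0) ∧
      (Module.finrank K ((RS K d).map J.mkQ) : ℤ) ≤ invN (bar p d) := by
  classical
  set e := bar p d with he
  have hde : ∀ v, d v + e v = 2 * p - 2 := by
    intro w
    have h1 := hall w
    have h2 := hd2 w
    rw [he, upl_bar]
    omega
  obtain ⟨σ, hσ⟩ := upl_section (K := K) p hv
  have hfd : Module.Finite K (IS K d) := upl_finite K (d := d) (fun x hx => ((mem_IS K).1 hx).1)
  have hfe : Module.Finite K (IS K e) := upl_finite K (d := e) (fun x hx => ((mem_IS K).1 hx).1)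
  let B : IS K d →ₗ[K] IS K e →ₗ[K] K := uplB p σ
  refine ⟨(LinearMap.ker B).map (IS K d).subtype, ?_, ?_⟩
  · rintro φ hφ g hg ⟨f, hf, hfg⟩
    obtain ⟨h, hh, hu⟩ := upper_pair p hm hn hN φ hφ hd hde
    have hfg' : (f : T (Vx m n) K) = (g : T (Vx m n) K) := hfg
    have hL : Lam K p (σ f) = (g : T (Vx m n) K) := by rw [(hσ f).2, hfg']
    have hL' : Lam K p (σ f) ∈ Rp m n K := by rw [hL]; exact g.2
    have h1 := hu (σ f) (hσ f).1 hL'
    have h2 : (⟨Lam K p (σ f), hL'⟩ : Rp m n K) = g := Subtype.ext hL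
    rw [h2] at h1
    rw [h1]
    have h3 : B f ⟨h, hh⟩ = 0 := by
      have hf' : B f = 0 := hf
      rw [hf']
      rfl
    have h4 : coeff (cst (Vx m n) (p - 1)) (h * σ f) = 0 := h3
    rw [h4, map_zero]
  · rw [RS_eq_IS K p hd]
    have h1 := upl_quot (IS K d) ((LinearMap.ker B).map (IS K d).subtype)
    have h2 : IS K d ⊓ (LinearMap.ker B).map (IS K d).subtype =
        (LinearMap.ker B).map (IS K d).subtype := by
      rw [inf_eq_right]
      exact Submodule.map_subtype_le _ _
    rw [h2, Submodule.finrank_map_subtype_eq] at h1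
    have h3 := LinearMap.finrank_range_add_finrank_ker B
    have h4 : Module.finrank K (LinearMap.range B) ≤ Module.finrank K (IS K e →ₗ[K] K) :=
      Submodule.finrank_le _
    have h5 : Module.finrank K (IS K e →ₗ[K] K) = Module.finrank K (IS K e) :=
      Subspace.dual_finrank_eq
    have h6 := finrank_Inv K p e
    rw [← h6]
    have h7 : Module.finrank K ((IS K d).map ((LinearMap.ker B).map (IS K d).subtype).mkQ) ≤
        Module.finrank K (IS K e) := by omega
    exact_mod_cast h7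

theorem up_loc (hm : 3 ≤ m) (hn : 3 ≤ n) (hN : m + n < p) {d : Vx m n →₀ ℕ} (hd : Bal d)
    (hd2 : ∀ v, d v ≤ 2 * p - 2) : ∃ J : Submodule K (T (Vx m n) K),
      (∀ (φ : Rp m n K →+ Rp m n K), PLin p φ → ∀ g : Rp m n K, (g : T (Vx m n) K) ∈ S K d 0 →
        (g : T (Vx m n) K) ∈ J → constantCoeff (φ g : T (Vx m n) K) = 0) ∧
      (Module.finrank K ((RS K d).map J.mkQ) : ℤ) ≤ ub p d := by
  classical
  have hp : p.Prime := Fact.out
  have hp1 : 1 < p := hp.one_lt
  by_cases hA : ∃ v, p ≤ d v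
  · obtain ⟨v, hv⟩ := hA
    by_cases hB : ∃ w, d w ≤ p - 2
    · obtain ⟨w, hw⟩ := hB
      refine ⟨NS K p, fun φ hφ g hg hns =>
        upper_mixed p hm hn hN φ hφ hd hd2 hv hw g hg hns, ?_⟩
      rw [ub, if_pos ⟨v, hv⟩, if_pos ⟨w, hw⟩, RS_eq_IS K p hd]
      have hfd : Module.Finite K (IS K d) :=
        upl_finite K (d := d) (fun x hx => ((mem_IS K).1 hx).1)
      have h1 := upl_quot (IS K d) (NS K p)
      have hJ : d.degree < 2 * p * (m + n - 1 + 1) := by
        have h2 := upl_deg hd2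
        have h3 : m + n - 1 + 1 = m + n := by omega
        rw [h3]
        refine lt_of_le_of_lt h2 ?_
        have h4 : 2 * p * (m + n) = (m + n) * (2 * p) := by ring
        rw [h4]
        exact Nat.mul_lt_mul_of_pos_left (by omega) (by omega)
      have h2 := finrank_small K p d hd2 hv hJ (by omega)
      have h3 := invN_eq_lamN_add_fus K p (bar p d) (by
        intro x
        rw [upl_bar]
        have := hd2 x
        omega)
      have h1' : (Module.finrank K ((IS K d).map (NS K p).mkQ) : ℤ) +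
          (Module.finrank K ((IS K d ⊓ NS K p : Submodule K (T (Vx m n) K))) : ℤ) =
          (Module.finrank K (IS K d) : ℤ) := by exact_mod_cast h1
      linarith
    · obtain ⟨J, hJ1, hJ2⟩ := upl_big (K := K) p hm hn hN hd hd2 hv (by
        intro w
        by_contra hw
        exact hB ⟨w, by omega⟩)
      refine ⟨J, hJ1, ?_⟩
      rw [ub, if_pos ⟨v, hv⟩, if_neg hB]
      exact hJ2
  · refine ⟨⊥, ?_, ?_⟩
    · intro φ hφ g hg hg0
      rw [Submodule.mem_bot] at hg0
      have h1 : g = 0 := Subtype.ext hg0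
      rw [h1, map_zero]
      exact map_zero _
    · rw [ub, if_neg hA, RS_eq_IS K p hd]
      have hfd : Module.Finite K (IS K d) :=
        upl_finite K (d := d) (fun x hx => ((mem_IS K).1 hx).1)
      have h1 := upl_quot (IS K d) (⊥ : Submodule K (T (Vx m n) K))
      have h2 := finrank_Inv K p d
      rw [← h2]
      have h3 : Module.finrank K ((IS K d).map (⊥ : Submodule K (T (Vx m n) K)).mkQ) ≤
          Module.finrank K (IS K d) := by omega
      exact_mod_cast h3

end FSig
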