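import Pool.Agent.Lib.FSig.PsiRep
import Pool.Agent.Lib.FSig.OpsProj
import Pool.Agent.Lib.FSig.LamImage
import Pool.Agent.Lib.FSig.ZDefs

/-!
# MP_05de8f_ag : constant coefficients of all `p^{-1}`-linear maps of `Rp` (section 6 (C7), section 7 (D1), (D3), (D4) upper part) (module Upper)

`φ : Rp → Rp` additive, `PLin p φ`; `h` from `upper_rep`: `E h = F h = E^(p) h = F^(p) h = 0`, `φ (Lam u) = Phi (h u)` for `u ∈ S d 0`, `d` balanced, `Lam u ∈ Rp`.
PROOFS.
* `upper_pair`: `d + e = 2p-2`, `d` balanced. `h_e := weightedHomogeneousComponent gr (e, 0) h ∈ S e 0` (`component_mem`); killed by `E 1`, `F 1`, `E p`, `F p` (`E_component`, `F_component`), `|e| ≤ (m+n)(2p-2) < 2p²`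
  (`m + n < p`), so `h_e ∈ Inv` (`mem_Inv_of`). For `u ∈ S d 0`: `coeff (cst (p-1)) (h u) = coeff (cst (p-1)) (h_e u)`: in `∑ coeff α h · coeff β u`, `α + β = cst (p-1)`, `coeff β u ≠ 0` forces `β` of multidegree `d`, weight `0`, so `α`
  has multidegree `e` and weight `0` (the multidegree of `cst (p-1)` is `2p-2` at every `v`, weight `0`). `constantCoeff_Phi`.
* `upper_big`: `d v > 2p-2 ≥ p`: `g = Lam u` (`exists_Lam`, `g ∈ IS d` by `Rp_le_Inv`), `constantCoeff (φ g) = root (coeff (cst (p-1)) (h u))`, and this coefficient is `0`: a monomial `β` of `u` has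
  `β(v,false) + β(v,true) = d v > 2(p-1)`.
* `upper_mixed`: `g = Lam u`; `h ∈ IS e` from `upper_pair`, `e = 2p-2-d`, `e w ≥ p` for the small `w` (`d w ≤ p-2`), so `h = Lam w'`, `w' ∈ S e 0` (`exists_Lam`). `constantCoeff (Phi (Lam w' * u)) = constantCoeff (Phi (w' * Lam u))`
  (`Phi_Lam`) `= root (coeff (cst (p-1)) (w' g)) = 0`, since `cst (p-1) = α + β` with `β` in the support of `g` is small, but `g ∈ NS p`.
-/

namespace FSig

open MvPolynomial Finset

variable {m n : ℕ} {K : Type*} [Field K] (p : ℕ) [Fact p.Prime] [CharP K p] [PerfectRing K p]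

private lemma Upper_cc {V : Type*} [Fintype V] (f : T V K) :
    constantCoeff (Phi p f) = root p (coeff (cst V (p - 1)) f) := by
  have h := coeff_Phi p f 0
  rw [smul_zero, zero_add] at h
  exact h

private lemma Upper_wt {V : Type*} [Fintype V] (D : V →₀ ℕ) (hD : ∀ v, D v = 2 * p - 2) :
    Finsupp.weight (gr (V := V)) (cst V (p - 1)) = (D, 0) := by
  classical
  have hp : 0 < p := (Fact.out : p.Prime).pos
  have h1 : monomial (cst V (p - 1)) (1 : ℤ) ∈ S ℤ D 0 := by
    refine monomial_mem_S ℤ 1 ?_ ?_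
    · intro v
      rw [cst_apply, cst_apply, hD v]
      omega
    · unfold wtm
      rw [Finsupp.sum_fintype _ _ (by intro x; split_ifs <;> simp), Fintype.sum_prod_type]
      refine Finset.sum_eq_zero fun v _ => ?_
      rw [Fintype.sum_bool]
      simp
  unfold S at h1
  rw [mem_weightedHomogeneousSubmodule] at h1
  refine h1 ?_
  rw [coeff_monomial, if_pos rfl]
  exact one_ne_zero

omit [CharP K p] [PerfectRing K p] in
private lemma Upper_comp {V : Type*} [Fintype V] {d e : V →₀ ℕ} (hde : ∀ v, d v + e v = 2 * p - 2)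
    (h : T V K) {u : T V K} (hu : u ∈ S K d 0) :
    coeff (cst V (p - 1)) (h * u) =
      coeff (cst V (p - 1)) (weightedHomogeneousComponent (gr (V := V)) (e, 0) h * u) := by
  classical
  rw [coeff_mul, coeff_mul]
  refine Finset.sum_congr rfl ?_
  rintro ⟨a, b⟩ hab
  rw [Finset.HasAntidiagonal.mem_antidiagonal] at hab
  simp only at hab ⊢
  by_cases hb : coeff b u = 0
  · rw [hb, mul_zero, mul_zero]
  · have h1 : Finsupp.weight (gr (V := V)) b = (d, 0) := by
      have h2 := hu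
      unfold S at h2
      rw [mem_weightedHomogeneousSubmodule] at h2
      exact h2 hb
    have h3 := Upper_wt p (d + e) (fun v => by rw [Finsupp.add_apply]; exact hde v)
    rw [← hab, map_add, h1] at h3
    have h4 : Finsupp.weight (gr (V := V)) a = (e, 0) := by
      rw [Prod.ext_iff] at h3 ⊢
      rw [Prod.fst_add, Prod.snd_add] at h3
      simp only at h3 ⊢
      refine ⟨?_, by rw [← h3.2, add_zero]⟩
      have h5 := h3.1
      rw [add_comm d e] at h5
      exact add_right_cancel h5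
    rw [coeff_weightedHomogeneousComponent, if_pos h4]

theorem upper_pair (hm : 3 ≤ m) (hn : 3 ≤ n) (hN : m + n < p) (φ : Rp m n K →+ Rp m n K) (hφ : PLin p φ)
    {d e : Vx m n →₀ ℕ} (hd : Bal d) (hde : ∀ v, d v + e v = 2 * p - 2) :
    ∃ h ∈ IS K e, ∀ (u : T (Vx m n) K) (_ : u ∈ S K d 0) (hL : Lam K p u ∈ Rp m n K),
      constantCoeff (φ ⟨Lam K p u, hL⟩ : T (Vx m n) K) =
        root p (coeff (cst (Vx m n) (p - 1)) (h * u)) := by
  obtain ⟨h, hE1, hF1, hEp, hFp, hrep⟩ := upper_rep hm hn (by omega) φ hφ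
  have hmem := component_mem K h e 0
  have hE : ∀ k, E K k h = 0 →
      E K k (weightedHomogeneousComponent (gr (V := Vx m n)) (e, 0) h) = 0 := by
    intro k hk
    rw [← E_component, hk, map_zero]
  have hF : ∀ k, F K k h = 0 →
      F K k (weightedHomogeneousComponent (gr (V := Vx m n)) (e, 0) h) = 0 := by
    intro k hk
    rw [← F_component, hk, map_zero]
  have hdeg : e.degree < 2 * p ^ 2 := by
    have h1 : e.degree ≤ (m + n) * (2 * p - 2) := by
      rw [Finsupp.degree_eq_sum]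
      have h2 : ∑ v : Vx m n, e v ≤ ∑ _v : Vx m n, (2 * p - 2) :=
        Finset.sum_le_sum fun v _ => by
          have := hde v
          omega
      rw [Finset.sum_const, Finset.card_univ, Fintype.card_sum, Fintype.card_fin,
        Fintype.card_fin, smul_eq_mul] at h2
      exact h2
    have h3 : (m + n) * (2 * p - 2) ≤ p * (2 * p - 2) := Nat.mul_le_mul_right _ hN.le
    have h4 : p * (2 * p - 2) < p * (2 * p) := Nat.mul_lt_mul_of_pos_left (by omega) (by omega)
    calc e.degree ≤ _ := h1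
      _ ≤ _ := h3
      _ < p * (2 * p) := h4
      _ = 2 * p ^ 2 := by ring
  refine ⟨_, (mem_IS K).2 ⟨hmem, mem_Inv_of K p hmem hdeg (hE 1 hE1) (hE p hEp) (hF 1 hF1)
    (hF p hFp)⟩, ?_⟩
  intro u hu hL
  rw [hrep d hd u hu hL, Upper_cc, Upper_comp p hde h hu]

theorem upper_big (hm : 3 ≤ m) (hn : 3 ≤ n) (hp : 3 ≤ p) (φ : Rp m n K →+ Rp m n K) (hφ : PLin p φ)
    {d : Vx m n →₀ ℕ} (hd : Bal d) {v : Vx m n} (hv : 2 * p - 2 < d v) (g : Rp m n K)
    (hg : (g : T (Vx m n) K) ∈ S K d 0) : constantCoeff (φ g : T (Vx m n) K) = 0 := by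
  classical
  obtain ⟨h, -, -, -, -, hrep⟩ := upper_rep hm hn hp φ hφ
  have hgI : (g : T (Vx m n) K) ∈ IS K d := (mem_IS K).2 ⟨hg, Rp_le_Inv K g.2⟩
  obtain ⟨u, hu, hLu⟩ := exists_Lam K p (v := v) (by omega) hgI
  have hL : Lam K p u ∈ Rp m n K := by
    rw [hLu]
    exact g.2
  have hge : g = ⟨Lam K p u, hL⟩ := Subtype.ext hLu.symm
  rw [hge, hrep d hd u hu hL, Upper_cc, coeff_mul]
  rw [Finset.sum_eq_zero, map_zero]
  rintro ⟨a, b⟩ hab
  rw [Finset.HasAntidiagonal.mem_antidiagonal] at hab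
  simp only at hab ⊢
  by_cases hb : coeff b u = 0
  · rw [hb, mul_zero]
  · exfalso
    have h1 := ((mem_S_iff K).1 hu b hb).1 v
    have h2 := DFunLike.congr_fun hab (v, false)
    have h3 := DFunLike.congr_fun hab (v, true)
    rw [Finsupp.add_apply, cst_apply] at h2 h3
    omega

theorem upper_mixed (hm : 3 ≤ m) (hn : 3 ≤ n) (hN : m + n < p) (φ : Rp m n K →+ Rp m n K)
    (hφ : PLin p φ) {d : Vx m n →₀ ℕ} (hd : Bal d) (hd2 : ∀ v, d v ≤ 2 * p - 2) {v w : Vx m n}
    (hv : p ≤ d v) (hw : d w ≤ p - 2) (g : Rp m n K) (hg : (g : T (Vx m n) K) ∈ S K d 0)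
    (hns : (g : T (Vx m n) K) ∈ NS K p) : constantCoeff (φ g : T (Vx m n) K) = 0 := by
  classical
  set e : Vx m n →₀ ℕ := Finsupp.equivFunOnFinite.symm (fun v => 2 * p - 2 - d v) with he
  have hev : ∀ v, e v = 2 * p - 2 - d v := fun v => rfl
  have hde : ∀ v, d v + e v = 2 * p - 2 := fun v => by
    rw [hev]
    have := hd2 v
    omega
  obtain ⟨h, hh, hrep⟩ := upper_pair p hm hn hN φ hφ hd hde
  have hgI : (g : T (Vx m n) K) ∈ IS K d := (mem_IS K).2 ⟨hg, Rp_le_Inv K g.2⟩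
  obtain ⟨u, hu, hLu⟩ := exists_Lam K p (v := v) hv hgI
  obtain ⟨z, hz, hLz⟩ := exists_Lam K p (v := w) (by rw [hev]; omega) hh
  have hL : Lam K p u ∈ Rp m n K := by
    rw [hLu]
    exact g.2
  have hge : g = ⟨Lam K p u, hL⟩ := Subtype.ext hLu.symm
  have h1 := hrep u hu hL
  rw [← hge, ← Upper_cc, ← hLz, Phi_Lam p z hu (dvd_zero _), hLu, Upper_cc, coeff_mul] at h1
  rw [h1, Finset.sum_eq_zero, map_zero]
  rintro ⟨a, b⟩ hab
  rw [Finset.HasAntidiagonal.mem_antidiagonal] at hab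
  simp only at hab ⊢
  rw [(mem_NS K p).1 hns b, mul_zero]
  intro x
  have h2 := DFunLike.congr_fun hab x
  rw [Finsupp.add_apply, cst_apply] at h2
  omega

end FSig
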